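import Pool.Agent.P.MP_6b977f_mp.RB.Iface

/-! Step BLK. -/

namespace Pool.Agent.P.MP_6b977f_mp.RB

open Real MeasureTheory ProbabilityTheory Filter Topology Finset Laplacian
open scoped ContDiff ComplexConjugate ENNReal Matrix

namespace BLKA

lemma e1 (n : ℕ) (c : II → ℝ) : qq 1 n c = q1 n c := by simp [qq]

lemma e2 (n : ℕ) (c : II → ℝ) : qq 2 n c = q2 n c := by simp [qq]

lemma e3 {l : ℕ} (hl : 1 ≤ l) (n : ℕ) (c : II → ℝ) : qq (2 * l + 1) n c = q3 l n c := by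
  rw [qq, if_neg (by omega), if_neg (by omega), if_neg (by omega), if_pos (by omega),
    show (2 * l + 1) / 2 = l by omega]

lemma e4 {l : ℕ} (hl : 2 ≤ l) (n : ℕ) (c : II → ℝ) : qq (2 * l) n c = q4 (l + 1) n c := by
  rw [qq, if_neg (by omega), if_neg (by omega), if_neg (by omega), if_neg (by omega),
    show 2 * l / 2 = l by omega]

end BLKA

open BLKA in
theorem p_BLK (hBLK1 : S_BLK1) (hSH2 : S_SH2) (hREL1 : S_REL1) :
    S_BLK := by
  intro σ g lam c hσ hA hB hb i ε hε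
  obtain ⟨h1, h2⟩ := hSH2 c hb.orth
  have p0 := fun n j => (h1 0 n j).1
  have p1 := fun n j => (e1 n (c j)) ▸ (h1 1 n j).1
  have p2 := fun n j => (e2 n (c j)) ▸ (h1 2 n j).1
  have p3 := fun l (hl : 1 ≤ l) n j => (e3 hl n (c j)) ▸ (h1 (2 * l + 1) n j).1
  have easy : ∀ l, 1 ≤ l → (∀ n j, qq i n (c j) ≤ qq 0 n (c j) + q1 n (c j) + q2 n (c j) +
      q3 l n (c j)) → ∀ᶠ m : ℕ in atTop, ∀ T : Finset ℕ, (∀ j ∈ T, nj (lam j) ∈ blk m) →
      ∑ j ∈ T, qq i (nj (lam j)) (c j) ≤ ε * 2 ^ m := fun l hl h =>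
    (hBLK1 σ g lam c hσ hA hB hb l ε hl hε).mono fun m hm T hT =>
      (sum_le_sum fun j _ => h _ j).trans (hm T hT)
  obtain rfl | rfl | rfl | ⟨l, hl, rfl⟩ | ⟨l, hl, rfl⟩ : i = 0 ∨ i = 1 ∨ i = 2 ∨
      (∃ l, 1 ≤ l ∧ i = 2 * l + 1) ∨ ∃ l, 2 ≤ l ∧ i = 2 * l := by
    rcases Nat.even_or_odd' i with ⟨l, h | h⟩
    · by_cases h' : 2 ≤ l
      exacts [.inr (.inr (.inr (.inr ⟨l, h', h⟩))), by omega]
    · by_cases h' : 1 ≤ l
      exacts [.inr (.inr (.inr (.inl ⟨l, h', h⟩))), by omega]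
  · exact easy 1 le_rfl fun n j => by linarith [p1 n j, p2 n j, p3 1 le_rfl n j]
  · exact easy 1 le_rfl fun n j => by rw [e1]; linarith [p0 n j, p2 n j, p3 1 le_rfl n j]
  · exact easy 1 le_rfl fun n j => by rw [e2]; linarith [p0 n j, p1 n j, p3 1 le_rfl n j]
  · exact easy l hl fun n j => by rw [e3 hl]; linarith [p0 n j, p1 n j, p2 n j]
  obtain ⟨C, hC⟩ := hREL1 (l + 1)
  have hC0 : 0 < 1 + |C| := by positivity
  set η : ℝ := min 1 (ε / (4 * (1 + |C|))) with hη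
  have η0 : 0 < η := lt_min one_pos (by positivity)
  have η1 : η ≤ 1 := min_le_left _ _
  have η2 : η * (4 * (1 + |C|)) ≤ ε := (le_div_iff₀ (by positivity)).1 (min_le_right _ _)
  have η4 : η ^ 4 ≤ 1 := pow_le_one₀ η0.le η1
  refine (hBLK1 σ g lam c hσ hA hB hb 1 (ε * η ^ 4 / 2) le_rfl (by positivity)).mono
    fun m hm T hT => ?_
  have key : ∀ n, ∑ j ∈ T with nj (lam j) = n, qq (2 * l) (nj (lam j)) (c j) ≤
      (∑ j ∈ T with nj (lam j) = n, (qq 0 (nj (lam j)) (c j) + q1 (nj (lam j)) (c j) +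
        q2 (nj (lam j)) (c j) + q3 1 (nj (lam j)) (c j))) / η ^ 4 + η * rel n (l + 1) := by
    intro n
    rw [sum_congr rfl fun j hj => by rw [(mem_filter.1 hj).2],
      sum_congr (s₁ := T.filter fun j => nj (lam j) = n) (f := fun j => qq 0 (nj (lam j)) (c j) +
        q1 (nj (lam j)) (c j) + q2 (nj (lam j)) (c j) + q3 1 (nj (lam j)) (c j)) rfl
        fun j hj => by rw [(mem_filter.1 hj).2]]
    by_cases hn : IsSquare n
    · refine le_add_of_le_of_nonneg ?_ (by positivity)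
      rw [sum_div]
      refine sum_le_sum fun j _ => (h1 _ n j).2.trans ?_
      have : qq 0 n (c j) = 1 := by simp [qq, hn]
      rw [le_div_iff₀ (by positivity)]
      linarith [p1 n j, p2 n j, p3 1 le_rfl n j]
    · simp only [e4 hl]
      refine (h2 _ (l + 1) n η (by omega) hn η0 η1).trans ?_
      gcongr with j
      linarith [p0 n j, p1 n j, p3 1 le_rfl n j]
  rw [← sum_fiberwise_of_maps_to hT]
  refine (sum_le_sum fun n _ => key n).trans ?_
  rw [sum_add_distrib, ← sum_div, sum_fiberwise_of_maps_to hT, ← mul_sum]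
  have a1 : ∑ n ∈ blk m, (rel n (l + 1) : ℝ) ≤ (1 + |C|) * (2 * 2 ^ m) := by
    refine le_trans (sum_le_sum_of_subset_of_nonneg (fun n hn => ?_) fun _ _ _ => by positivity)
      ((hC (2 ^ (m + 1))).trans ?_)
    · obtain ⟨a, b⟩ := mem_blk.1 hn
      exact mem_Icc.2 ⟨le_trans Nat.one_le_two_pow a, b.le⟩
    · push_cast
      rw [pow_succ']
      gcongr
      linarith [le_abs_self C]
  have a2 := (div_le_iff₀ (show 0 < η ^ 4 by positivity)).2
    ((hm T hT).trans_eq (show _ = ε / 2 * 2 ^ m * η ^ 4 by ring))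
  have a3 := mul_le_mul_of_nonneg_left a1 η0.le
  nlinarith [mul_le_mul_of_nonneg_right η2 (show (0 : ℝ) ≤ 2 ^ m by positivity)]

end Pool.Agent.P.MP_6b977f_mp.RB
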