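import Pool.Agent.P.MP_6b977f_mp.RB.Iface

/-! Step BLK1. -/

namespace Pool.Agent.P.MP_6b977f_mp.RB

open Real MeasureTheory ProbabilityTheory Filter Topology Finset Laplacian
open scoped ContDiff ComplexConjugate ENNReal Matrix

namespace BLK1A

theorem near {x : ℝ} (h : 1 ≤ nj x) : |x - (nj x : ℕ)| ≤ 1 / 2 := by
  have h1 : ((nj x : ℕ) : ℤ) = round x := Int.toNat_of_nonneg (by unfold nj at h; omega)
  have h2 : ((nj x : ℕ) : ℝ) = (round x : ℝ) := by rw [← h1, Int.cast_natCast]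
  rw [h2]; exact abs_sub_round x

theorem BB_nonneg (V : II → II → ℝ) (n : ℤ) : 0 ≤ BB V n :=
  tsum_nonneg fun _ => div_nonneg (sq_nonneg _)
    (mul_nonneg (zero_le_one.trans (one_le_DD _ _)) (zero_le_one.trans (one_le_DD _ _)))

theorem four (hSH2 : S_SH2) {c : ℕ → II → ℝ} (hc : SON c) {l : ℕ} (hl : 1 ≤ l) (n j : ℕ) :
    qq 0 n (c j) + q1 n (c j) + q2 n (c j) + q3 l n (c j) ≤ 4 := by
  have h0 := ((hSH2 c hc).1 0 n j).2
  have h1 := ((hSH2 c hc).1 1 n j).2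
  have h2 := ((hSH2 c hc).1 2 n j).2
  have h3 := ((hSH2 c hc).1 (2 * l + 1) n j).2
  rw [qq, if_neg (by omega), if_pos rfl] at h1
  rw [qq, if_neg (by omega), if_neg (by omega), if_pos rfl] at h2
  rw [qq, if_neg (by omega), if_neg (by omega), if_neg (by omega), if_pos (by omega),
    show (2 * l + 1) / 2 = l by omega] at h3
  linarith

open Classical in
theorem one (hWIN1 : S_WIN1) (hWIN2 : S_WIN2) (hSH1 : S_SH1) (hSH2 : S_SH2) (hOBS : S_OBS)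
    (hS4 : S_S4) (σ g : ℕ → ℝ) (lam : ℕ → ℝ) (c : ℕ → II → ℝ) (T : Finset ℕ) (l p r₀ m n : ℕ)
    (δ : ℝ) (hs : 0 < sb σ m) (hs1 : sb σ m ≤ 1) (hδ : 0 < δ)
    (hm : δ * sb σ m * (m : ℝ) ^ 2 ≤ 1 / 16) (hV : HS (VV fun k => σ k * g k)) (hc : SON c)
    (hl : 1 ≤ l) (hp : 1 ≤ p)
    (hT : ∀ j ∈ T, SEig (VV fun k => σ k * g k) (lam j) (c j) ∧ |lam j - n| ≤ 1 / 2) :
    ∑ j ∈ T, (qq 0 n (c j) + q1 n (c j) + q2 n (c j) + q3 l n (c j)) ≤
      (16 + 8 / δ) * (BB (VV fun k => σ k * g k) n / sb σ m) +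
      400 * (if n ∈ mid r₀ m then zeta σ l p m n g else 0) + 32000 * p ^ 4 * δ ^ 2 * r2 n +
      2 * ‖wk (2 * l) n‖ + 8 * (if IsSquare n ∨ n ∉ mid r₀ m then (r2 n : ℝ) else 0) := by
  have hB0 := BB_nonneg (VV fun k => σ k * g k) n
  have hw1 := hWIN1 _ (n : ℤ) lam c T hV hc (by simpa only [Int.cast_natCast] using hT)
  have hw2 := fun h => (hWIN2 _ n lam c T hV hc hT h).1
  have hw3 := fun h1 h2 => hSH1 σ g lam c T l p m n δ hs hV hc h1 h2 hp hT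
  rw [Int.toNat_natCast] at hw1
  generalize BB (VV fun k => σ k * g k) n = B at *
  have hz : 0 ≤ zeta σ l p m n g := (hOBS.2.2.2.2.2 σ l p m n g hp).2.2.1
  have hz' : 0 ≤ (if n ∈ mid r₀ m then zeta σ l p m n g else 0) := by split_ifs <;> simp [hz]
  have hBs : B ≤ B / sb σ m := by rw [le_div_iff₀ hs]; nlinarith
  have hBd : 0 ≤ 8 / δ * (B / sb σ m) := by positivity
  have hK : 0 ≤ 32000 * (p : ℝ) ^ 4 * δ ^ 2 := by positivity
  have hK' : 0 ≤ 32000 * (p : ℝ) ^ 4 * δ ^ 2 * r2 n := by positivity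
  have hwk := norm_nonneg (wk (2 * l) n)
  have htriv : ∑ j ∈ T, (qq 0 n (c j) + q1 n (c j) + q2 n (c j) + q3 l n (c j)) ≤
      8 * (Sh n).card + 16 * B := by
    have := sum_le_card_nsmul T _ (4 : ℝ) fun j _ => four hSH2 hc hl n j
    rw [nsmul_eq_mul] at this
    linarith
  rw [add_mul]
  by_cases hb : IsSquare n ∨ n ∉ mid r₀ m
  · rw [if_pos hb]
    have : ((Sh n).card : ℝ) ≤ r2 n := Nat.cast_le.2 (hS4.1 n).1
    linarith
  rw [if_neg hb]
  obtain ⟨hsq, hmid⟩ := not_or.1 hb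
  rw [not_not] at hmid
  have hSh := (hS4.2 n hsq).1
  by_cases hg : 1 ≤ rr n ∧ B ≤ δ * sb σ m * rr n
  · have hr : (rr n : ℝ) ≤ (m : ℝ) ^ 2 := by exact_mod_cast (mem_filter.1 hmid).2.2
    have hB : B ≤ 1 / 16 :=
      hg.2.trans ((mul_le_mul_of_nonneg_left hr (by positivity)).trans hm)
    have h1 := hw2 hB
    have h2 := hw3 hsq hg.1 hB hg.2
    have h3 : ∑ j ∈ T, (qq 0 n (c j) + q1 n (c j) + q2 n (c j) + q3 l n (c j)) =
        ∑ j ∈ T, (1 - ∑ ξ ∈ Sh n, c j ξ ^ 2) + ∑ j ∈ T, (q2 n (c j) + q3 l n (c j)) := by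
      rw [← sum_add_distrib, hSh]
      refine sum_congr rfl fun j _ => ?_
      rw [qq, if_pos rfl, if_neg hsq, q1]; ring
    have h4 := mul_le_mul_of_nonneg_left (Nat.cast_le.2 (hS4.1 n).2 : (rr n : ℝ) ≤ r2 n) hK
    rw [if_pos hmid]
    linarith
  · have h1 : ((Sh n).card : ℝ) ≤ 1 / δ * (B / sb σ m) := by
      rw [hSh]
      show (rr n : ℝ) ≤ _
      rcases not_and_or.1 hg with h | h
      · rw [show rr n = 0 by omega, Nat.cast_zero]; positivity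
      · rw [div_mul_div_comm, one_mul, le_div_iff₀ (by positivity)]
        linarith [not_le.1 h]
    have h2 : 8 / δ * (B / sb σ m) = 8 * (1 / δ * (B / sb σ m)) := by ring
    linarith

end BLK1A

open Classical in
theorem p_BLK1 (hWIN1 : S_WIN1) (hWIN2 : S_WIN2) (hSH1 : S_SH1) (hSH2 : S_SH2) (hOBS : S_OBS) (hBADW : S_BADW) (hLAT : S_LAT) (hS4 : S_S4) :
    S_BLK1 := by
  intro σ g lam c hσ hA hB hc l ε hl hε
  obtain ⟨p, r₀, hp, e1⟩ := hB l (ε / 2000) (by positivity)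
  have hp0 : (0 : ℝ) < p := Nat.cast_pos.2 (by omega)
  obtain ⟨δ, hδ, hδe⟩ : ∃ δ : ℝ, 0 < δ ∧ 32000 * (p : ℝ) ^ 4 * δ ^ 2 * 16 = ε / 5 :=
    ⟨√(ε / (80 * (32000 * (p : ℝ) ^ 4))), by positivity, by
      rw [sq_sqrt (by positivity)]; field_simp; norm_num⟩
  have hD : 0 < 16 + 8 / δ := by positivity
  have e2 := hBADW.1 r₀ (ε / 40) (by positivity)
  have e3 := hBADW.2 (2 * l) (ε / 10) (by omega) (by positivity)
  have e4 := hA.bb.eventually_le_const (show (0 : ℝ) < ε / 5 / (16 + 8 / δ) by positivity)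
  have e5 := hσ.sum3.tendsto_atTop_zero.eventually_le_const
    (show (0 : ℝ) < min 1 (1 / 16 / δ) by positivity)
  obtain ⟨_, -, hL⟩ := hLAT
  filter_upwards [e1, e2, e3, e4, e5, eventually_ge_atTop 1] with m e1 e2 e3 e4 e5 hm T hT
  have hs : 0 < sb σ m := hσ.pos _ Nat.one_le_two_pow
  have hm1 : (1 : ℝ) ≤ m := Nat.one_le_cast.2 hm
  have hs1 : sb σ m ≤ 1 :=
    (le_mul_of_one_le_left hs.le (one_le_pow₀ hm1)).trans (e5.trans (min_le_left _ _))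
  have hs2 : δ * sb σ m * (m : ℝ) ^ 2 ≤ 1 / 16 := by
    have h1 := e5.trans (min_le_right _ _)
    rw [le_div_iff₀ hδ] at h1
    have h2 : (m : ℝ) ^ 2 ≤ (m : ℝ) ^ 3 := pow_le_pow_right₀ hm1 (by norm_num)
    have h3 := mul_le_mul_of_nonneg_left h2 (mul_pos hδ hs).le
    linarith
  rw [← sum_fiberwise_of_maps_to hT]
  refine (sum_le_sum fun n hn => (sum_congr rfl fun j hj => ?_).trans_le
    (BLK1A.one hWIN1 hWIN2 hSH1 hSH2 hOBS hS4 σ g lam c (T.filter fun j => nj (lam j) = n) l p r₀ m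
      n δ hs hs1 hδ hs2 hA.hs hc.orth hl (by omega) fun j hj => ⟨hc.eig j, ?_⟩)).trans ?_
  · rw [(mem_filter.1 hj).2]
  · have h1 := (mem_filter.1 hj).2
    rw [← h1]
    exact BLK1A.near (h1 ▸ Nat.one_le_two_pow.trans (mem_blk.1 hn).1)
  simp only [sum_add_distrib, ← mul_sum, ← sum_div]
  rw [← sum_filter, ← sum_filter]
  have h1 : (blk m).filter (fun n => n ∈ mid r₀ m) = mid r₀ m := by
    rw [filter_mem_eq_inter]; exact inter_eq_right.2 (filter_subset _ _)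
  have h2 : ∑ n ∈ blk m, (r2 n : ℝ) ≤ 16 * 2 ^ m := by
    refine (sum_le_sum_of_subset_of_nonneg (fun n hn => ?_) fun _ _ _ => by positivity).trans
      ((hL (2 ^ (m + 1))).1.trans_eq (by push_cast; ring))
    exact mem_Icc.2 ⟨Nat.one_le_two_pow.trans (mem_blk.1 hn).1, (mem_blk.1 hn).2.le⟩
  have h3 := mul_le_mul_of_nonneg_left h2
    (show 0 ≤ 32000 * (p : ℝ) ^ 4 * δ ^ 2 by positivity)
  rw [← mul_assoc, hδe] at h3
  rw [mul_comm ((2 : ℝ) ^ m), ← div_div, div_le_iff₀ (by positivity), div_mul_eq_mul_div,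
    le_div_iff₀ hD, mul_comm] at e4
  rw [h1]
  linarith

end Pool.Agent.P.MP_6b977f_mp.RB
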