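import Pool.Agent.P.MP_6b977f_mp.RB.Iface

/-! Step BR. -/

namespace Pool.Agent.P.MP_6b977f_mp.RB

open Real MeasureTheory ProbabilityTheory Filter Topology Finset Laplacian
open scoped ContDiff ComplexConjugate ENNReal Matrix

namespace BRA

theorem int_cc (u : ℂ → ℝ) (a b : ℕ) :
    ∫ z in sqr, u z * cc a b z = π / (nn a * nn b) * co u (a, b) := by
  have := nn_pos a
  have := nn_pos b
  have := pi_pos
  have e : ∀ z, u z * ee (a, b) z = nn a * nn b * (u z * cc a b z) := fun z => by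
    rw [ee]; ring
  simp only [co, e, integral_const_mul]
  field_simp

theorem mem {u : ℂ → ℝ} (h : ContDiffOn ℝ ∞ u sqr) (e : ∫ z in sqr, u z ^ 2 = volume.real sqr) :
    MemLp u 2 (volume.restrict sqr) :=
  (memLp_two_iff_integrable_sq (h.continuousOn.aestronglyMeasurable sqr_open.measurableSet)).2
    (Integrable.of_integral_ne_zero (by rw [e, sqr_vol]; positivity))

end BRA

theorem p_BR (hIBP1 : S_IBP1) (hIBP : S_IBP) (hTRC : S_TRC) (hCONVO : S_CONVO) :
    S_BR := by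
  intro ρ lam u h0 hs
  have key : ∀ a b : ℕ, ContDiffOn ℝ ∞ u sqr → MemLp u 2 (volume.restrict sqr) →
      IntegrableOn (fun z => ‖gradient u z‖ ^ 2) sqr → lam * (∫ z in sqr, u z * cc a b z) -
        ∫ z in sqr, inner ℝ (gradient u z) (gradient (cc a b) z) =
        π / (nn a * nn b) * ((lam - dd (a, b)) * co u (a, b)) := fun a b h1 h2 h3 => by
    rw [hIBP1 u a b (h1.of_le (by simp)) h2 h3, BRA.int_cc]
    ring
  refine ⟨fun ⟨h1, _, h3, h4, h5⟩ => ?_, fun h1 h2 h3 h4 h5 => ⟨h1, h2, h3, h4, fun a b => ?_⟩⟩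
  · have m := BRA.mem h1 h4
    have H := hIBP u (h1.of_le (by simp)) m h3
    refine ⟨m, H, fun ⟨a, b⟩ => ?_⟩
    obtain ⟨t, t1, t2⟩ := h5 a b
    obtain ⟨c1, c2⟩ := hCONVO ρ (co u) (a, b) h0 hs H
    obtain rfl : t = fun k => (tc (co u) (Nat.dist k a) + tc (co u) (k + a)) / 2 :=
      funext fun k => tendsto_nhds_unique (t1 k) (hTRC u m H k a b)
    rw [key a b h1 m h3] at t2
    have := nn_pos a
    have := nn_pos b
    rw [mul_left_cancel₀ (by positivity) (t2.unique c2)]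
    exact c1.hasSum
  · have m := BRA.mem h1 h4
    refine ⟨_, fun k => hTRC u m h5.1 k a b, ?_⟩
    rw [key a b h1 m h3, ← (h5.2 (a, b)).tsum_eq]
    exact (hCONVO ρ (co u) (a, b) h0 hs h5.1).2

end Pool.Agent.P.MP_6b977f_mp.RB
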