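import Pool.Agent.P.MP_6b977f_mp.RB.Iface

/-! Step BR2. -/

namespace Pool.Agent.P.MP_6b977f_mp.RB

open Real MeasureTheory ProbabilityTheory Filter Topology Finset Laplacian
open scoped ContDiff ComplexConjugate ENNReal Matrix

namespace BR2A

end BR2A

theorem p_BR2 (hBR : S_BR) (hEXE : S_EXE) (hCB2 : S_CB2) :
    S_BR2 := by
  intro ρ h0 hs
  have hp : (π : ℝ) ^ 2 ≠ 0 := pow_ne_zero _ pi_pos.ne'
  refine ⟨fun lam u hu => ?_, fun lam c hc => ?_⟩
  · have hm : ∀ j, MemLp (u j) 2 (volume.restrict sqr) := fun j =>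
      ((hBR ρ (lam j) (u j) h0 hs).1 (hu.eig j)).1
    refine ⟨fun j => ((hBR ρ (lam j) (u j) h0 hs).1 (hu.eig j)).2, fun i j => ?_,
      fun x hx hj => ?_, hu.mono⟩
    · have h1 := hCB2.1 _ _ (hm i) (hm j)
      split_ifs with e
      · subst e
        have h2 : ∫ z in sqr, u i z * u i z = π ^ 2 := by
          rw [← sqr_vol, ← (hu.eig i).2.2.2.1]
          simp only [sq]
        rwa [h2, div_self hp] at h1
      · rwa [hu.orth i j e, zero_div] at h1
    · obtain ⟨f, hf, rfl⟩ := hCB2.2 x hx
      have h1 := hu.complete f hf fun n => by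
        have h2 := (hCB2.1 _ _ hf (hm n)).tsum_eq
        rw [hj n] at h2
        exact (div_eq_zero_iff.1 h2.symm).resolve_right hp
      funext ξ
      have h3 : ∫ z in sqr, f z * ee ξ z = 0 := by
        rw [← integral_zero ℂ ℝ (μ := volume.restrict sqr)]
        refine integral_congr_ae (h1.mono fun z hz => ?_)
        simp only [hz, Pi.zero_apply, zero_mul]
      simp only [co, h3, mul_zero, Pi.zero_apply]
  · have h1 : ∀ j, ∃ u, REig ρ (lam j) u ∧ co u = c j := fun j =>
      hEXE ρ (lam j) (c j) h0 hs (hc.eig j) (by simpa using hc.orth j j)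
    choose u hu hco using h1
    have hm : ∀ j, MemLp (u j) 2 (volume.restrict sqr) := fun j =>
      ((hBR ρ (lam j) (u j) h0 hs).1 (hu j)).1
    refine ⟨u, hu, fun m n e => ?_, fun f hf hn => ?_, hc.mono⟩
    · have h2 := hCB2.1 _ _ (hm m) (hm n)
      have h3 := hc.orth m n
      rw [if_neg e] at h3
      rw [hco, hco] at h2
      exact (div_eq_zero_iff.1 (h2.unique h3)).resolve_right hp
    · have h2 := hCB2.1 _ _ hf hf
      have h3 : co f = 0 := hc.complete _ (by simpa only [sq] using h2.summable) fun j => by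
        have h4 := (hCB2.1 _ _ hf (hm j)).tsum_eq
        rwa [hn j, zero_div, hco] at h4
      rw [h3] at h2
      have h4 : ∫ z in sqr, f z ^ 2 = 0 := by
        have h5 : HasSum (fun ξ : II => (0 : II → ℝ) ξ * (0 : II → ℝ) ξ) 0 := by
          simp
        simpa only [sq] using (div_eq_zero_iff.1 (h2.unique h5)).resolve_right hp
      have h6 := (integral_eq_zero_iff_of_nonneg (fun z => sq_nonneg (f z)) hf.integrable_sq).1 h4
      exact h6.mono fun z hz => by simpa using hz

end Pool.Agent.P.MP_6b977f_mp.RB
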