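import Pool.Agent.P.MP_6b977f_mp.RB.Iface

/-! Step CB0. -/

namespace Pool.Agent.P.MP_6b977f_mp.RB

open Real MeasureTheory ProbabilityTheory Filter Topology Finset Laplacian
open scoped ContDiff ComplexConjugate ENNReal Matrix

namespace CB0A

theorem c0 (m : ℤ) : ∫ x in (0 : ℝ)..π, cos (m * x) = if m = 0 then π else 0 := by
  split_ifs with h
  · simp [h]
  · rw [intervalIntegral.integral_comp_mul_left _ (Int.cast_ne_zero.2 h), integral_cos]
    simp

theorem c1 (a b : ℕ) (e : ℝ) :
    ∫ x in Set.Ioo 0 π, (cos (a * x) * cos (b * x) * (1 + e) + sin (a * x) * sin (b * x) * (1 - e)) =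
      (if a = b then π else 0) + e * if a = 0 ∧ b = 0 then π else 0 := by
  have h : ∀ x : ℝ, cos (a * x) * cos (b * x) * (1 + e) + sin (a * x) * sin (b * x) * (1 - e) =
      cos (((a : ℤ) - b : ℤ) * x) + e * cos (((a : ℤ) + b : ℤ) * x) := fun x => by
    push_cast
    rw [sub_mul (a : ℝ), add_mul (a : ℝ), cos_sub, cos_add]
    ring
  simp only [h]
  rw [← integral_Ioc_eq_integral_Ioo, ← intervalIntegral.integral_of_le pi_pos.le,
    intervalIntegral.integral_add (Continuous.intervalIntegrable (by fun_prop) _ _)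
      (Continuous.intervalIntegrable (by fun_prop) _ _), intervalIntegral.integral_const_mul, c0, c0,
    if_congr (show (a : ℤ) - b = 0 ↔ a = b by omega) rfl rfl,
    if_congr (show (a : ℤ) + b = 0 ↔ a = 0 ∧ b = 0 by omega) rfl rfl]

theorem c2 (a b : ℕ) : ∫ x in Set.Ioo 0 π, nn a * cos (a * x) * (nn b * cos (b * x)) =
    if a = b then 1 else 0 := by
  have h : ∀ x : ℝ, nn a * cos (a * x) * (nn b * cos (b * x)) = nn a * nn b / 2 *
      (cos (a * x) * cos (b * x) * (1 + 1) + sin (a * x) * sin (b * x) * (1 - 1)) := fun x => by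
    ring
  simp only [h]
  rw [integral_const_mul, c1]
  have := pi_pos
  by_cases g : a = b
  · subst g
    rw [← sq, nn_sq, if_pos rfl, if_pos rfl, if_congr and_self_iff rfl rfl]
    split_ifs <;> field_simp <;> ring
  · rw [if_neg g, if_neg g, if_neg (by omega)]
    ring

theorem c4 (f : ℂ → ℝ) (h : Continuous f) : MemLp f 2 (volume.restrict sqr) := by
  have : IsFiniteMeasure (volume.restrict sqr) := ⟨by simpa using sqr_bdd.measure_lt_top⟩
  obtain ⟨C, hC⟩ := sqr_bdd.isCompact_closure.exists_bound_of_continuousOn h.continuousOn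
  exact MemLp.of_bound h.aestronglyMeasurable C ((ae_restrict_mem sqr_open.measurableSet).mono
    fun z hz => hC z (subset_closure hz))

end CB0A

open CB0A in
theorem p_CB0 :
    S_CB0 := by
  refine ⟨c2, fun a b h => ?_, fun ξ => ?_, c4, fun ξ η => ?_⟩
  · have := c1 a b (-1)
    rw [if_neg h, if_neg (by omega)] at this
    simpa [integral_mul_const] using this
  · have h1 : ContDiff ℝ ∞ fun z : ℂ => z.re := Complex.reCLM.contDiff
    have h2 : ContDiff ℝ ∞ fun z : ℂ => z.im := Complex.imCLM.contDiff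
    have h : ContDiff ℝ ∞ (ee ξ) :=
      contDiff_const.mul ((contDiff_const.mul h1).cos.mul (contDiff_const.mul h2).cos)
    exact ⟨h, c4 _ h.continuous⟩
  · have h := rect_mul (Set.Ioo 0 π) (Set.Ioo 0 π)
      (fun x => nn ξ.1 * cos (ξ.1 * x) * (nn η.1 * cos (η.1 * x)))
      fun x => nn ξ.2 * cos (ξ.2 * x) * (nn η.2 * cos (η.2 * x))
    rw [c2, c2, ite_zero_mul_ite_zero, mul_one, if_congr Prod.ext_iff.symm rfl rfl] at h
    refine Eq.trans (integral_congr_ae (ae_of_all _ fun z => ?_)) h
    simp only [ee, cc]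
    ring

end Pool.Agent.P.MP_6b977f_mp.RB
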