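import Pool.Agent.P.MP_6b977f_mp.RB.Iface

/-! Step CB1. -/

namespace Pool.Agent.P.MP_6b977f_mp.RB

open Real MeasureTheory ProbabilityTheory Filter Topology Finset Laplacian
open scoped ContDiff ComplexConjugate ENNReal Matrix

namespace CB1A

lemma cos_mul (a b : ℕ) (x : ℝ) :
    cos (a * x) * cos (b * x) = (cos (Nat.dist a b * x) + cos ((a + b : ℕ) * x)) / 2 := by
  have h : cos (Nat.dist a b * x) = cos (a * x - b * x) := by
    rcases le_total a b with h | h
    · rw [Nat.dist_eq_sub_of_le h, Nat.cast_sub h, ← cos_neg]; congr 1; ring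
    · rw [Nat.dist_eq_sub_of_le_right h, Nat.cast_sub h, sub_mul]
  rw [h, Nat.cast_add, add_mul, cos_add, cos_sub]; ring

/-- The span of the products of cosines. -/
def V : Submodule ℝ (ℂ → ℝ) := Submodule.span ℝ (Set.range fun ξ : ℕ × ℕ => cc ξ.1 ξ.2)

lemma cc_mem (a b : ℕ) : cc a b ∈ V := Submodule.subset_span ⟨(a, b), rfl⟩

lemma V_of {v w : ℂ → ℝ} (h : v ∈ V) (e : ∀ z, w z = v z) : w ∈ V := funext e ▸ h

lemma V_mul : V * V ≤ V := by
  rw [V, Submodule.span_mul_span, Submodule.span_le]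
  rintro _ ⟨_, ⟨⟨a, b⟩, rfl⟩, _, ⟨⟨a', b'⟩, rfl⟩, rfl⟩
  have : cc a b * cc a' b' = (1 / 4 : ℝ) • (cc (Nat.dist a a') (Nat.dist b b') +
      cc (Nat.dist a a') (b + b') + cc (a + a') (Nat.dist b b') + cc (a + a') (b + b')) := by
    funext z
    simp only [cc, Pi.mul_apply, Pi.smul_apply, Pi.add_apply, smul_eq_mul]
    rw [mul_mul_mul_comm, cos_mul, cos_mul]; ring
  change cc a b * cc a' b' ∈ V
  rw [this]
  exact V.smul_mem _ (add_mem (add_mem (add_mem (cc_mem _ _) (cc_mem _ _)) (cc_mem _ _))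
    (cc_mem _ _))

/-- The functions of the two cosines that lie in the span. -/
def A : Subalgebra ℝ C(ℝ × ℝ, ℝ) where
  carrier := {h | (fun z : ℂ => h (cos z.re, cos z.im)) ∈ V}
  mul_mem' ha hb := V_mul (Submodule.mul_mem_mul ha hb)
  add_mem' ha hb := V.add_mem ha hb
  algebraMap_mem' r := V_of (V.smul_mem r (cc_mem 0 0)) fun z => by simp [cc]

lemma A_sep : A.SeparatesPoints := by
  intro p q hpq
  by_cases h : p.1 = q.1
  · exact ⟨_, ⟨ContinuousMap.snd, V_of (cc_mem 0 1) fun z => by simp [cc], rfl⟩,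
      fun h' => hpq (Prod.ext h h')⟩
  · exact ⟨_, ⟨ContinuousMap.fst, V_of (cc_mem 1 0) fun z => by simp [cc], rfl⟩, h⟩

lemma approx (g : ℂ → ℝ) (hg : Continuous g) (ε : ℝ) (hε : 0 < ε) :
    ∃ v ∈ V, ∀ z ∈ sqr, ‖v z - g z‖ < ε := by
  have hc : Continuous fun p : ℝ × ℝ => g (Complex.equivRealProdCLM.symm (arccos p.1, arccos p.2)) :=
    hg.comp (Complex.equivRealProdCLM.symm.continuous.comp (by fun_prop))
  obtain ⟨h, hA, hh⟩ :=
    ContinuousMap.exists_mem_subalgebra_near_continuous_of_isCompact_of_separatesPoints A_sep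
      ⟨_, hc⟩ (isCompact_Icc.prod isCompact_Icc :
        IsCompact (Set.Icc (-1 : ℝ) 1 ×ˢ Set.Icc (-1 : ℝ) 1)) hε
  refine ⟨_, hA, fun z hz => ?_⟩
  have : ‖h (cos z.re, cos z.im) - g (Complex.equivRealProdCLM.symm
      (arccos (cos z.re), arccos (cos z.im)))‖ < ε :=
    hh (cos z.re, cos z.im) ⟨cos_mem_Icc _, cos_mem_Icc _⟩
  rwa [arccos_cos hz.1.1.le hz.1.2.le, arccos_cos hz.2.1.le hz.2.2.le] at this

end CB1A

open CB1A in
theorem p_CB1 :
    S_CB1 := by
  intro f hf h0
  have : IsFiniteMeasure (volume.restrict sqr) :=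
    isFiniteMeasure_restrict.2 sqr_bdd.measure_lt_top.ne
  have hi : Integrable f (volume.restrict sqr) := hf.integrable one_le_two
  have hV : ∀ v ∈ V, Integrable (fun z => v z * f z) (volume.restrict sqr) ∧
      ∫ z in sqr, v z * f z = 0 := fun v hv => by
    induction hv using Submodule.span_induction with
    | mem v hv =>
      obtain ⟨⟨a, b⟩, rfl⟩ := hv
      refine ⟨hi.bdd_mul (c := 1) (Continuous.aestronglyMeasurable (by unfold cc; fun_prop))
        (.of_forall fun z => ?_), by simpa only [mul_comm] using h0 a b⟩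
      simp only [cc, norm_mul]
      exact mul_le_one₀ (abs_cos_le_one _) (norm_nonneg _) (abs_cos_le_one _)
    | zero => simp
    | add v w _ _ hv hw =>
      simp only [Pi.add_apply, add_mul]
      exact ⟨hv.1.add hw.1, by rw [integral_add hv.1 hw.1, hv.2, hw.2, add_zero]⟩
    | smul r v _ hv =>
      simp only [Pi.smul_apply, smul_eq_mul, mul_assoc]
      exact ⟨hv.1.const_mul r, by rw [integral_const_mul, hv.2, mul_zero]⟩
  refine ae_eq_zero_of_integral_contDiff_smul_eq_zero hi.locallyIntegrable fun g hg hs => ?_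
  obtain ⟨C, hC⟩ := hg.continuous.bounded_above_of_compact_support hs
  have hgi : Integrable (fun z => g z * f z) (volume.restrict sqr) :=
    hi.bdd_mul hg.continuous.aestronglyMeasurable (.of_forall hC)
  have hI : 0 ≤ ∫ z in sqr, ‖f z‖ := integral_nonneg fun _ => norm_nonneg _
  refine norm_le_zero_iff.1 (le_of_forall_pos_le_add fun ε hε => ?_)
  obtain ⟨v, hv, hvg⟩ := approx g hg.continuous (ε / ((∫ z in sqr, ‖f z‖) + 1)) (by positivity)
  have e : ∫ z in sqr, g z • f z = ∫ z in sqr, (g z - v z) * f z := by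
    simp only [sub_mul, smul_eq_mul]
    rw [integral_sub hgi (hV v hv).1, (hV v hv).2, sub_zero]
  rw [e, zero_add]
  refine (norm_integral_le_of_norm_le (hi.norm.const_mul (ε / ((∫ z in sqr, ‖f z‖) + 1)))
    ((ae_restrict_iff' sqr_open.measurableSet).2 (.of_forall fun z hz => ?_))).trans ?_
  · rw [norm_mul, norm_sub_rev]
    exact mul_le_mul_of_nonneg_right (hvg z hz).le (norm_nonneg _)
  · rw [integral_const_mul, div_mul_eq_mul_div, div_le_iff₀ (by positivity)]
    nlinarith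

end Pool.Agent.P.MP_6b977f_mp.RB
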