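import Pool.Agent.P.MP_6b977f_mp.RB.Iface

/-! Step CES. -/

namespace Pool.Agent.P.MP_6b977f_mp.RB

open Real MeasureTheory ProbabilityTheory Filter Topology Finset Laplacian
open scoped ContDiff ComplexConjugate ENNReal Matrix

namespace CESA

lemma nj_ge (x : ℝ) (k : ℕ) (h : (k : ℝ) + 1 ≤ x) : k ≤ nj x := by
  have h1 := abs_le.1 (abs_sub_round x)
  have h2 : (k : ℤ) ≤ round x := by
    have : (k : ℝ) ≤ (round x : ℤ) := by linarith [h1.2]
    exact_mod_cast this
  unfold nj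
  omega

lemma nj_le (x y : ℝ) (h0 : 0 ≤ y) (h : x + 1 ≤ y) : nj x ≤ ⌊y⌋₊ := by
  have h1 := abs_le.1 (abs_sub_round x)
  refine Nat.le_floor ?_
  unfold nj
  rcases le_total (round x) 0 with h2 | h2
  · rw [Int.toNat_eq_zero.2 h2]; simpa using h0
  · have : ((round x).toNat : ℝ) = ((round x : ℤ) : ℝ) := by
      exact_mod_cast Int.toNat_of_nonneg h2
    rw [this]; linarith [h1.1]

lemma geo (M : ℕ) : ∑ m ∈ range (M + 1), (2 : ℝ) ^ m ≤ 2 * 2 ^ M := by
  induction M with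
  | zero => norm_num
  | succ M ih => rw [sum_range_succ, pow_succ]; linarith

end CESA

theorem p_CES :
    S_CES := by
  intro lam q hmono hlim ⟨C0, hC0⟩ hq hblk ε hε
  set C : ℝ := max C0 1 with hCdef
  have hC1 : 1 ≤ C := le_max_right _ _
  have hε' : 0 < ε / (8 * C) := by positivity
  obtain ⟨m0, hm0⟩ := eventually_atTop.1 (hblk _ hε')
  obtain ⟨J0, hJ0⟩ := eventually_atTop.1 (hlim.eventually_ge_atTop (((2 ^ m0 : ℕ) : ℝ) + 1))
  have hN : ∀ᶠ N : ℕ in atTop, 2 * (J0 : ℝ) / ε ≤ N :=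
    tendsto_natCast_atTop_atTop.eventually_ge_atTop _
  filter_upwards [hC0, hN, eventually_ge_atTop 1] with N h1 h2 h3
  have hN1 : (1 : ℝ) ≤ N := by exact_mod_cast h3
  have hCN : 1 ≤ C * N := by nlinarith
  have h1' : lam N ≤ C * N := h1.trans (mul_le_mul_of_nonneg_right (le_max_left _ _) (by linarith))
  set Y : ℕ := ⌊2 * (C * N)⌋₊ with hY
  have hY0 : Y ≠ 0 := by
    have : 1 ≤ Y := Nat.le_floor (by push_cast; linarith)
    omega
  set M : ℕ := Nat.log 2 Y with hM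
  have hM2 : (2 : ℝ) ^ M ≤ 2 * (C * N) := by
    have : ((2 ^ M : ℕ) : ℝ) ≤ Y := by exact_mod_cast Nat.pow_log_le_self 2 hY0
    push_cast at this
    exact this.trans (Nat.floor_le (by linarith))
  set T : Finset ℕ := (range N).filter fun j => J0 ≤ j with hT
  set g : ℕ → ℕ := fun j => Nat.log 2 (nj (lam j)) with hg
  have hlow : ∀ j ∈ T, 2 ^ m0 ≤ nj (lam j) := fun j hj =>
    CESA.nj_ge _ _ (hJ0 j (mem_filter.1 hj).2)
  have hmaps : ∀ j ∈ T, g j ∈ Icc m0 M := fun j hj => by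
    refine mem_Icc.2 ⟨Nat.le_log_of_pow_le (by norm_num) (hlow j hj), Nat.log_mono_right ?_⟩
    have := hmono (mem_range.1 (mem_filter.1 hj).1).le
    exact CESA.nj_le _ _ (by linarith) (by linarith)
  have hTsum : ∑ j ∈ T, q j ≤ ε / 2 * N := by
    rw [← sum_fiberwise_of_maps_to hmaps]
    calc ∑ m ∈ Icc m0 M, ∑ j ∈ T with g j = m, q j
        ≤ ∑ m ∈ Icc m0 M, ε / (8 * C) * 2 ^ m := by
          refine sum_le_sum fun m hm => hm0 m (mem_Icc.1 hm).1 _ fun j hj => ?_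
          obtain ⟨hjT, rfl⟩ := mem_filter.1 hj
          have h0 : nj (lam j) ≠ 0 := by
            have := hlow j hjT
            have h4 : 0 < 2 ^ m0 := by positivity
            omega
          exact mem_Ico.2 ⟨Nat.pow_log_le_self 2 h0, Nat.lt_pow_succ_log_self (by norm_num) _⟩
      _ ≤ ∑ m ∈ range (M + 1), ε / (8 * C) * 2 ^ m := by
          refine sum_le_sum_of_subset_of_nonneg (fun m hm => ?_) fun _ _ _ => by positivity
          exact mem_range.2 (Nat.lt_succ_of_le (mem_Icc.1 hm).2)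
      _ ≤ ε / (8 * C) * (2 * (2 * (C * N))) := by
          rw [← mul_sum]
          exact mul_le_mul_of_nonneg_left ((CESA.geo M).trans (by linarith)) hε'.le
      _ = ε / 2 * N := by field_simp; ring
  have hrest : ∑ j ∈ (range N).filter (fun j => ¬ J0 ≤ j), q j ≤ J0 := by
    calc ∑ j ∈ (range N).filter (fun j => ¬ J0 ≤ j), q j ≤ ∑ j ∈ range J0, q j := by
          refine sum_le_sum_of_subset_of_nonneg (fun j hj => ?_) fun j _ _ => (hq j).1
          exact mem_range.2 (not_le.1 (mem_filter.1 hj).2)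
      _ ≤ ∑ _j ∈ range J0, (1 : ℝ) := sum_le_sum fun j _ => (hq j).2
      _ = J0 := by simp
  have h4 : (J0 : ℝ) ≤ ε / 2 * N := by
    rw [div_le_iff₀ hε] at h2
    linarith
  calc ∑ j ∈ range N, q j ^ 2 ≤ ∑ j ∈ range N, q j :=
        sum_le_sum fun j _ => by nlinarith [(hq j).1, (hq j).2]
    _ = ∑ j ∈ T, q j + ∑ j ∈ (range N).filter (fun j => ¬ J0 ≤ j), q j :=
        (sum_filter_add_sum_filter_not _ _ _).symm
    _ ≤ ε * N := by linarith

end Pool.Agent.P.MP_6b977f_mp.RB
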