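import Pool.Agent.P.MP_6b977f_mp.RB.Iface

/-! Step CF. -/

namespace Pool.Agent.P.MP_6b977f_mp.RB

open Real MeasureTheory ProbabilityTheory Filter Topology Finset Laplacian
open scoped ContDiff ComplexConjugate ENNReal Matrix

namespace CFA

lemma cont (hTOR : S_TOR) (n : ℕ) (c : II → ℝ) : Continuous (Un n c) :=
  Complex.continuous_re.comp (hTOR _ _).1

lemma dist_sq (hCB0 : S_CB0) (hCB2 : S_CB2) (hS4 : S_S4) (hTOR : S_TOR) {u : ℂ → ℝ} {n : ℕ}
    (hu : MemLp u 2 (volume.restrict sqr)) (h1 : ∫ z in sqr, u z ^ 2 = volume.real sqr)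
    (hn : ¬IsSquare n) : IntegrableOn (fun z => (u z - Un n (co u) z) ^ 2) sqr ∧
      ∫ z in sqr, (u z - Un n (co u) z) ^ 2 = π ^ 2 * q1 n (co u) := by
  obtain ⟨-, -, b3, b4, b5⟩ := hCB0
  have hU := b4 _ (cont hTOR n (co u))
  have hd := hu.sub hU
  refine ⟨hd.integrable_sq, ?_⟩
  have h2 : ∀ ξ, co (u - Un n (co u)) ξ = if ξ ∈ AA n then 0 else co u ξ := fun ξ => by
    have e : ∫ z in sqr, Un n (co u) z * ee ξ z = π * if ξ ∈ AA n then co u ξ else 0 := by
      simp only [(hS4.2 n hn).2.2.2.2.2.2, mul_assoc, sum_mul]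
      rw [integral_const_mul, integral_finsetSum (f := fun η z => co u η * (ee η z * ee ξ z)) _
        fun η _ => (((b3 η).2.integrable_mul (b3 ξ).2).const_mul _)]
      simp only [integral_const_mul, b5, mul_ite, mul_one, mul_zero, sum_ite_eq']
    have := integral_sub (hu.integrable_mul (b3 ξ).2) (hU.integrable_mul (b3 ξ).2)
    simp only [Pi.mul_apply] at this
    simp only [co, Pi.sub_apply, sub_mul] at e ⊢
    rw [this, e]
    split_ifs <;> simp [pi_ne_zero]
  have h3 := hCB2.1 u u hu hu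
  simp only [← sq] at h3
  rw [h1, sqr_vol, div_self (by positivity)] at h3
  have h4 := h3.sub (hasSum_sum_of_ne_finset_zero (s := AA n)
    (f := fun ξ => if ξ ∈ AA n then co u ξ ^ 2 else 0) fun ξ h => if_neg h)
  have h5 := hCB2.1 _ _ hd hd
  simp only [← sq, h2, Pi.sub_apply] at h5
  rw [sum_congr rfl fun ξ h => if_pos h] at h4
  rw [mul_comm, ← div_eq_iff (by positivity)]
  refine h5.unique (h4.congr_fun fun ξ => ?_)
  split_ifs <;> simp

end CFA

theorem p_CF (hTCL : S_TCL) (hERG : S_ERG) (hCFQ : S_CFQ) (hCB0 : S_CB0) (hCB2 : S_CB2) (hS4 : S_S4) (hTOR : S_TOR) :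
    S_CF := by
  intro lam u c1 c2 c3 c4 c5 τ
  have h0 : ∀ᶠ j in atTop, ¬IsSquare (nj (lam j)) :=
    ((c5 0).eventually (gt_mem_nhds one_pos)).mono fun j h e => by simp [qq, e] at h
  obtain ⟨J, hJ⟩ := eventually_atTop.1 h0
  rw [← tendsto_add_atTop_iff_nat J]
  have s := tendsto_add_atTop_nat J
  have h1 := fun j => CFA.dist_sq hCB0 hCB2 hS4 hTOR (c2 (j + J)) (c3 _) (hJ _ (Nat.le_add_left J j))
  have h2 : ∀ j, 0 ≤ q1 (nj (lam (j + J))) (co (u (j + J))) := fun j =>
    nonneg_of_mul_nonneg_right ((h1 j).2 ▸ integral_nonneg fun _ => sq_nonneg _) (by positivity)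
  have h3 : Tendsto (fun j => (nj (lam j) : ℝ) / lam j) atTop (𝓝 1) := by
    refine tendsto_sub_nhds_zero_iff.1 (squeeze_zero_norm' ((c4.eventually_gt_atTop 0).mono
      fun j h => ?_) (c4.const_div_atTop (1 / 2)))
    have : 0 ≤ round (lam j) := by
      rw [round_eq]
      exact Int.floor_nonneg.2 (by linarith)
    rw [div_sub_one h.ne', norm_div, Real.norm_of_nonneg h.le, norm_eq_abs, abs_sub_comm, nj,
      ← Int.cast_natCast, Int.toNat_of_nonneg this]
    gcongr
    exact abs_sub_round _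
  have h4 := hERG (fun j => Un (nj (lam (j + J))) (co (u (j + J)))) (fun j => lam (j + J))
    (fun j => CFA.cont hTOR _ _) (c4.comp s) (hTCL _ _ _ (fun j => hJ _ (Nat.le_add_left _ _)) h2
      (fun i => (c5 i).comp s) (h3.comp s))
  refine hCFQ (fun j => u (j + J)) _ (fun j => lam (j + J)) τ (fun j => c1 _)
    (fun j => CFA.cont hTOR _ _) (fun j => (h1 j).1) (c4.comp s) ?_ (h4 _ _ _)
  simp only [fun j => (h1 j).2]
  simpa [qq] using ((c5 1).comp s).const_mul (π ^ 2)

end Pool.Agent.P.MP_6b977f_mp.RB
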