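import Pool.Agent.P.MP_6b977f_mp.RB.Iface

/-! Step CFQ. -/

namespace Pool.Agent.P.MP_6b977f_mp.RB

open Real MeasureTheory ProbabilityTheory Filter Topology Finset Laplacian
open scoped ContDiff ComplexConjugate ENNReal Matrix

namespace CFQA

lemma ex (a b : ℝ) : ‖Complex.exp (Complex.I * a) - Complex.exp (Complex.I * b)‖ ≤ |a - b| := by
  have : Complex.exp (Complex.I * a) - Complex.exp (Complex.I * b) =
      Complex.exp (Complex.I * b) * (Complex.exp (Complex.I * (a - b : ℝ)) - 1) := by
    rw [mul_sub, ← Complex.exp_add]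
    push_cast
    ring_nf
  rw [this, norm_mul, Complex.norm_exp_I_mul_ofReal, one_mul]
  exact Real.norm_exp_I_mul_ofReal_sub_one_le

instance : IsFiniteMeasure (volume.restrict sqr) :=
  isFiniteMeasure_restrict.2 sqr_bdd.measure_lt_top.ne

lemma core (hLAY : S_LAY) {u U : ℂ → ℝ} (hu : ContinuousOn u sqr) (hU : Continuous U)
    (hI : IntegrableOn (fun z => |u z - U z|) sqr) {ι : Type} (S : Finset ι) (s : ι → ℝ)
    (h : ι → ℂ) :
    ‖(∫ z in sqr, Complex.exp (Complex.I * ((∑ i ∈ S, s i * U (z + h i) : ℝ) : ℂ))) -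
      ∫ z in sqr, Complex.exp (Complex.I * ((∑ i ∈ S, s i * sqr.indicator u (z + h i) : ℝ) : ℂ))‖ ≤
      ∑ i ∈ S, (4 * π * ‖h i‖ * 2 + |s i| * ∫ z in sqr, |u z - U z|) := by
  classical
  have m := sqr_open.measurableSet
  have m1 : Measurable (sqr.indicator u) := hu.measurable_piecewise continuousOn_const m
  have I : ∀ f : ℂ → ℝ, Measurable f → IntegrableOn (fun z => Complex.exp (Complex.I *
      ((∑ i ∈ S, s i * f (z + h i) : ℝ) : ℂ))) sqr := fun f hf =>
    Integrable.of_bound (Measurable.aestronglyMeasurable (by fun_prop)) 1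
      (ae_of_all _ fun z => (Complex.norm_exp_I_mul_ofReal _).le)
  have m2 : ∀ i, MeasurableSet {z ∈ sqr | z + h i ∉ sqr} := fun i =>
    m.inter (measurable_add_const _ m.compl)
  have i1 := fun i => (integrable_const (μ := volume.restrict sqr) (2 : ℝ)).indicator (m2 i)
  have i2 := fun i => ((integrable_indicator_iff m).2 hI).comp_add_right (h i)
  have i3 := fun i => (i1 i).fun_add ((i2 i).integrableOn.const_mul |s i|)
  have p : ∀ w, 0 ≤ sqr.indicator (fun z => |u z - U z|) w :=
    Set.indicator_nonneg fun _ _ => abs_nonneg _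
  rw [← integral_sub (I U hU.measurable) (I _ m1)]
  refine (norm_integral_le_of_norm_le (integrable_finsetSum S fun i _ => i3 i)
    (ae_restrict_of_forall_mem m fun z hz => ?_)).trans ?_
  · by_cases e : ∀ i ∈ S, z + h i ∈ sqr
    · refine (ex _ _).trans ?_
      rw [← sum_sub_distrib]
      refine (abs_sum_le_sum_abs _ _).trans (sum_le_sum fun i hi => ?_)
      rw [Set.indicator_of_mem (e i hi), Set.indicator_of_mem (e i hi), ← mul_sub, abs_mul,
        abs_sub_comm]
      exact le_add_of_nonneg_left (Set.indicator_nonneg (fun _ _ => zero_le_two) _)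
    · push Not at e
      obtain ⟨i, hi, e⟩ := e
      refine ((norm_sub_le _ _).trans ?_).trans (single_le_sum (fun i _ => add_nonneg
        (Set.indicator_nonneg (fun _ _ => zero_le_two) _) (mul_nonneg (abs_nonneg _) (p _))) hi)
      rw [Set.indicator_of_mem (by exact ⟨hz, e⟩), Complex.norm_exp_I_mul_ofReal,
        Complex.norm_exp_I_mul_ofReal, one_add_one_eq_two]
      exact le_add_of_nonneg_right (mul_nonneg (abs_nonneg _) (p _))
  rw [integral_finsetSum _ fun i _ => i3 i]
  refine sum_le_sum fun i _ => ?_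
  rw [integral_add (i1 i) ((i2 i).integrableOn.const_mul _), integral_indicator_const _ (m2 i),
    integral_const_mul, smul_eq_mul]
  refine add_le_add (mul_le_mul_of_nonneg_right ?_ zero_le_two)
    (mul_le_mul_of_nonneg_left ?_ (abs_nonneg _))
  · exact (ENNReal.toReal_mono (sqr_bdd.subset fun _ a => a.1).measure_lt_top.ne
      (Measure.restrict_apply_le _ _)).trans (hLAY.1 _)
  · exact (setIntegral_le_integral (i2 i) (ae_of_all _ fun z => p _)).trans_eq
      ((integral_add_right_eq_self _ _).trans (integral_indicator m))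

end CFQA

theorem p_CFQ (hLAY : S_LAY) :
    S_CFQ := by
  intro u U lam τ hu hU hI hl h0 h1
  have I : ∀ j, IntegrableOn (fun z => |u j z - U j z|) sqr := fun j =>
    ((memLp_two_iff_integrable_sq (((hu j).sub (hU j).continuousOn).aestronglyMeasurable
      sqr_open.measurableSet)).2 (hI j) |>.integrable one_le_two).abs
  have h2 : Tendsto (fun j => ∫ z in sqr, |u j z - U j z|) atTop (𝓝 0) := by
    refine tendsto_order.2 ⟨fun ε hε => .of_forall fun j =>
      hε.trans_le (integral_nonneg fun _ => abs_nonneg _), fun ε hε => ?_⟩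
    have t0 : 0 < ε / (2 * π ^ 2) := by positivity
    have := h0.div_const (ε / (2 * π ^ 2))
    rw [zero_div] at this
    refine (this.eventually (gt_mem_nhds (half_pos hε))).mono fun j hj => ?_
    refine (integral_mono (I j) ((integrable_const (ε / (2 * π ^ 2))).fun_add
      ((hI j).div_const (ε / (2 * π ^ 2)))) fun z => ?_).trans_lt ?_
    · dsimp only
      rw [← sub_le_iff_le_add', le_div_iff₀ t0, ← sq_abs (u j z - U j z)]
      nlinarith [sq_nonneg (|u j z - U j z| - ε / (2 * π ^ 2)), abs_nonneg (u j z - U j z)]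
    · rw [integral_add (integrable_const _) ((hI j).div_const _), setIntegral_const, integral_div,
        sqr_vol, smul_eq_mul, show π ^ 2 * (ε / (2 * π ^ 2)) = ε / 2 by field_simp]
      linarith
  have e : EB.gauss τ = gaussF (fun x : τ.support => τ x) fun x => x := by
    simp only [EB.gauss, gaussF, Finsupp.sum]
    rw [← sum_coe_sort]
    simp only [← sum_coe_sort τ.support]
  rw [e]
  have h3 : Tendsto (fun j => ‖((volume.restrict sqr).real Set.univ)⁻¹‖ * ∑ x ∈ τ.support,
      (4 * π * ‖x / √(lam j)‖ * 2 + |τ x| * ∫ z in sqr, |u j z - U j z|)) atTop (𝓝 0) := by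
    have := (tendsto_finsetSum τ.support fun x _ => ((((tendsto_const_nhds (x := ‖x‖)).div_atTop
      (tendsto_sqrt_atTop.comp hl)).const_mul (4 * π)).mul_const 2).add
        (h2.const_mul |τ x|)).const_mul ‖((volume.restrict sqr).real Set.univ)⁻¹‖
    simpa [abs_of_nonneg (sqrt_nonneg _)] using this
  refine h1.congr_dist (squeeze_zero (fun _ => dist_nonneg) (fun j => ?_) h3)
  rw [dist_eq_norm, cfF, EB.cf, average_eq, average_eq, ← smul_sub, norm_smul]
  refine mul_le_mul_of_nonneg_left ?_ (norm_nonneg _)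
  simp only [Finsupp.sum, fun z => sum_coe_sort τ.support fun x => τ x * U j (z + x / √(lam j))]
  exact CFQA.core hLAY (hu j) (hU j) (I j) _ _ _

end Pool.Agent.P.MP_6b977f_mp.RB
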