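import Pool.Agent.P.MP_6b977f_mp.RB.Iface

/-! Step CLT. -/

namespace Pool.Agent.P.MP_6b977f_mp.RB

open Real MeasureTheory ProbabilityTheory Filter Topology Finset Laplacian
open scoped ContDiff ComplexConjugate ENNReal Matrix

namespace CLTA

theorem tay (hTAY : S_TAY) {Ω : Type} [MeasurableSpace Ω] (μ : Measure Ω)
    [IsProbabilityMeasure μ] {Y : Ω → ℝ} (hm : Measurable Y) {B : ℝ} (hB : ∀ x, |Y x| ≤ B)
    {L : ℕ} (hL : Even L) : ‖(∫ x, Complex.exp (Complex.I * Y x) ∂μ) - ∑ k ∈ range L,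
      Complex.I ^ k / k.factorial * (∫ x, Y x ^ k ∂μ : ℝ)‖ ≤ (∫ x, Y x ^ L ∂μ) / L.factorial := by
  have i1 : ∀ k : ℕ, Integrable (fun x => Y x ^ k) μ := fun k =>
    .of_bound (hm.pow_const k).aestronglyMeasurable (B ^ k) (.of_forall fun x => by
      rw [norm_pow]; exact pow_le_pow_left₀ (norm_nonneg _) (hB x) k)
  have i2 : ∀ k : ℕ, Integrable (fun x => Complex.I ^ k / k.factorial * ((Y x ^ k : ℝ) : ℂ)) μ :=
    fun k => (i1 k).ofReal.const_mul _
  have i3 : Integrable (fun x => Complex.exp (Complex.I * Y x)) μ :=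
    .of_bound (by fun_prop : Measurable _).aestronglyMeasurable 1 (.of_forall fun x => by
      rw [mul_comm, Complex.norm_exp_ofReal_mul_I])
  simp_rw [← integral_complex_ofReal, ← integral_const_mul]
  rw [← integral_finsetSum _ fun k _ => i2 k,
    ← integral_sub i3 (integrable_finsetSum _ fun k _ => i2 k), ← integral_div]
  refine norm_integral_le_of_norm_le ((i1 L).div_const _) (.of_forall fun x => ?_)
  rw [← hL.pow_abs]
  refine le_of_eq_of_le (congrArg (fun s => ‖_ - s‖) (sum_congr rfl fun k _ => ?_)) (hTAY L (Y x))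
  push_cast
  ring

theorem mom {φ ψ : ℕ → ℂ} {M N : ℕ → ℕ → ℝ} {C : ℝ}
    (h1 : ∀ j L, Even L → ‖φ j - ∑ k ∈ range L, Complex.I ^ k / k.factorial * M j k‖ ≤
      M j L / L.factorial)
    (h2 : ∀ j L, Even L → ‖ψ j - ∑ k ∈ range L, Complex.I ^ k / k.factorial * N j k‖ ≤
      N j L / L.factorial)
    (h3 : ∀ k, Tendsto (fun j => M j k - N j k) atTop (𝓝 0))
    (h4 : ∀ j L, Even L → N j L / L.factorial ≤ C / 2 ^ L) :
    Tendsto (fun j => φ j - ψ j) atTop (𝓝 0) := by
  refine NormedAddGroup.tendsto_nhds_zero.2 fun ε hε => ?_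
  have t : Tendsto (fun n : ℕ => C / (2 : ℝ) ^ (2 * n)) atTop (𝓝 0) :=
    ((tendsto_pow_atTop_atTop_of_one_lt one_lt_two).comp
      (tendsto_id.const_mul_atTop' two_pos)).const_div_atTop C
  obtain ⟨n, hn⟩ := (t.eventually_lt_const (half_pos (half_pos hε))).exists
  have e : Even (2 * n) := even_two_mul n
  generalize 2 * n = L at hn e
  have t2 : Tendsto (fun j => (M j L - N j L) / L.factorial + ‖∑ k ∈ range L,
      Complex.I ^ k / k.factorial * ((M j k - N j k : ℝ) : ℂ)‖) atTop (𝓝 0) := by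
    simpa using ((h3 L).div_const (L.factorial : ℝ)).add (tendsto_finsetSum (range L) fun k _ =>
      (h3 k).ofReal.const_mul (Complex.I ^ k / k.factorial)).norm
  filter_upwards [t2.eventually_lt_const (half_pos hε)] with j hj
  have a := norm_add_le (φ j - ∑ k ∈ range L, Complex.I ^ k / k.factorial * M j k -
    (ψ j - ∑ k ∈ range L, Complex.I ^ k / k.factorial * N j k))
    (∑ k ∈ range L, Complex.I ^ k / k.factorial * ((M j k - N j k : ℝ) : ℂ))
  have b := norm_sub_le (φ j - ∑ k ∈ range L, Complex.I ^ k / k.factorial * M j k)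
    (ψ j - ∑ k ∈ range L, Complex.I ^ k / k.factorial * N j k)
  simp only [Complex.ofReal_sub, mul_sub, sum_sub_distrib] at a hj
  rw [sub_sub_sub_comm, sub_add_cancel] at a
  rw [sub_sub_sub_comm] at b
  rw [sub_div] at hj
  linarith [h1 j L e, h2 j L e, h4 j L e]

theorem bal {m : ℕ} {t : Fin m → GI} (h : BalOn univ t) : ∑ i, t i = 0 := by
  have : univ.val.map t = univ.val.map fun i => -t i := Multiset.ext.2 fun ξ => by
    rw [Multiset.count_map, Multiset.count_map]
    exact (congrArg card (filter_congr fun _ _ => eq_comm)).trans ((h ξ).trans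
      (congrArg card (filter_congr fun _ _ => eq_comm.trans (neg_eq_iff_eq_neg.trans Iff.rfl))))
  have e : ∑ i, t i = ∑ i, -t i := congrArg Multiset.sum this
  rwa [sum_neg_distrib, CharZero.eq_neg_self_iff] at e

theorem rho_nn {S : Finset GI} {a : GI → ℝ} (h : ∀ ξ, 0 ≤ a ξ) (l : ℕ) : 0 ≤ rhoR S l a :=
  sum_nonneg fun _ _ => prod_nonneg fun _ _ => h _

end CLTA

open CLTA Classical in
theorem p_CLT (hUB : S_UB) (hTOR : S_TOR) (hMOD1 : S_MOD1) (hMOD2 : S_MOD2) (hTAY : S_TAY) :
    S_CLT := by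
  intro S y a M V hS hH ha h2 h4 hr hV
  have hy : ∀ j ξ, ‖y j ξ‖ ≤ |M| * a j ξ := fun j ξ =>
    (ha j ξ).2.trans (mul_le_mul_of_nonneg_right (le_abs_self M) (ha j ξ).1)
  have hp : ∀ j k, ∑ ξ ∈ S j, ‖y j ξ‖ ^ k ≤ |M| ^ k * ∑ ξ ∈ S j, a j ξ ^ k := fun j k => by
    rw [mul_sum]
    exact sum_le_sum fun ξ _ => (pow_le_pow_left₀ (norm_nonneg _) (hy j ξ) k).trans_eq (mul_pow ..)
  have v : volume TT ≠ 0 := fun e => by
    have := TT_vol
    rw [measureReal_def, e] at this
    exact absurd this (by simp [pi_pos.ne'])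
  have : NeZero (volume.restrict TT) := ⟨by simpa using v⟩
  have : IsFiniteMeasure (volume.restrict TT) := ⟨by simpa using TT_bdd.measure_lt_top⟩
  have re : ∀ j z, ((tp (S j) (y j) z).re : ℂ) = tp (S j) (y j) z := fun j z =>
    Complex.ext rfl (((hTOR _ _).2.1 (hS j) (hH j) z).symm)
  have key := mom (C := Real.exp (8 * |M| ^ 2))
    (φ := fun j => ⨍ z in TT, Complex.exp (Complex.I * (tp (S j) (y j) z).re))
    (ψ := fun j => ∫ θ, Complex.exp (Complex.I * Zm (S j) (y j) θ) ∂PH (S j))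
    (M := fun j k => ⨍ z in TT, (tp (S j) (y j) z).re ^ k)
    (N := fun j k => ∫ θ, Zm (S j) (y j) θ ^ k ∂PH (S j))
    (fun j L hL => by
      simp only [average_eq']
      refine tay hTAY _ (Complex.continuous_re.comp (hTOR _ _).1).measurable
        (B := ∑ ξ ∈ S j, ‖y j ξ‖) (fun z => (Complex.abs_re_le_norm _).trans
          ((norm_sum_le _ _).trans_eq (sum_congr rfl fun ξ _ => ?_))) hL
      rw [norm_mul, ch, mul_comm Complex.I, Complex.norm_exp_ofReal_mul_I, mul_one])
    (fun j L hL => tay hTAY _ (Y := Zm (S j) (y j)) (by unfold Zm; fun_prop)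
      (B := ∑ ξ : Hf (S j), 2 * ‖y j ξ‖)
      (fun θ => (abs_sum_le_sum_abs _ _).trans (sum_le_sum fun ξ _ => by
        rw [abs_mul, abs_two]
        refine mul_le_mul_of_nonneg_left ((Complex.abs_re_le_norm _).trans_eq ?_) two_pos.le
        rw [norm_mul, mul_comm Complex.I, Complex.norm_exp_ofReal_mul_I, mul_one])) hL)
    (fun k => by
      obtain ⟨C, hC⟩ := hUB k
      have t : Tendsto (fun j => ∑ l ∈ Icc 3 k, rhoR (S j) l (a j)) atTop (𝓝 0) := by
        simpa using tendsto_finsetSum (Icc 3 k) fun l hl => hr l (mem_Icc.1 hl).1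
      refine squeeze_zero_norm' ?_ (by simpa using (t.const_mul C).const_mul (|M| ^ k))
      filter_upwards [t.eventually_le_const one_pos] with j hj
      have n := fun l => rho_nn (S := S j) (fun ξ => (ha j ξ).1) l
      refine le_trans ?_ (mul_le_mul_of_nonneg_left (hC (S j) (a j) _ (fun e => (hS j 0 e).2 rfl)
        (fun ξ => (ha j ξ).1) (h2 j) hj (fun l hl => single_le_sum (fun l _ => n l) hl)
        (sum_nonneg fun l _ => n l)) (by positivity))
      have e : ((⨍ z in TT, (tp (S j) (y j) z).re ^ k : ℝ) : ℂ) =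
          ⨍ z in TT, tp (S j) (y j) z ^ k := by
        simp only [average_eq', ← integral_complex_ofReal, Complex.ofReal_pow, re]
      rw [← Complex.norm_real, Complex.ofReal_sub, e, (hTOR _ _).2.2, hMOD1 _ _ _ (hS j) (hH j),
        ← sum_filter_add_sum_filter_not _ (BalOn univ), filter_filter, filter_filter,
        filter_congr fun t _ => and_iff_right_of_imp (bal (t := t)), add_sub_cancel_left, mul_sum]
      refine (norm_sum_le _ _).trans (sum_le_sum fun t _ => ?_)
      rw [norm_prod]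
      refine (prod_le_prod (fun _ _ => norm_nonneg _) fun i _ => hy j (t i)).trans_eq ?_
      rw [prod_mul_distrib, prod_const, card_univ, Fintype.card_fin])
    fun j L hL => ((hMOD2 _ _ (hS j) (hH j)).2 L hL).trans (by
      gcongr
      exact (hp j 2).trans (mul_le_of_le_one_right (by positivity) (h2 j)))
  have t3 : Tendsto (fun j => (∫ θ, Complex.exp (Complex.I * Zm (S j) (y j) θ) ∂PH (S j)) -
      (Real.exp (-(1 / 2) * ∑ ξ ∈ S j, ‖y j ξ‖ ^ 2) : ℝ)) atTop (𝓝 0) := by
    have t := ((h4.sqrt.const_mul (|M| ^ 3)).const_mul 2).add (h4.const_mul (|M| ^ 4))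
    simp only [sqrt_zero, mul_zero, add_zero] at t
    refine squeeze_zero_norm (fun j => (hMOD2 _ _ (hS j) (hH j)).1.trans ?_) t
    rw [sum_add_distrib, ← mul_sum]
    refine add_le_add (mul_le_mul_of_nonneg_left ((hp j 3).trans
      (mul_le_mul_of_nonneg_left (Real.le_sqrt_of_sq_le ?_) (by positivity))) two_pos.le) (hp j 4)
    have := sum_mul_sq_le_sq_mul_sq (S j) (a j) fun ξ => a j ξ ^ 2
    simp only [← pow_succ', ← pow_mul] at this
    exact this.trans (mul_le_of_le_one_left (sum_nonneg fun ξ _ => pow_nonneg (ha j ξ).1 _) (h2 j))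
  have t := (key.add t3).add (hV.const_mul (-(1 / 2))).rexp.ofReal
  rw [zero_add, zero_add] at t
  exact t.congr fun j => by ring

end Pool.Agent.P.MP_6b977f_mp.RB
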