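import Pool.Agent.P.MP_6b977f_mp.RB.Iface

/-! Step CNT. -/

namespace Pool.Agent.P.MP_6b977f_mp.RB

open Real MeasureTheory ProbabilityTheory Filter Topology Finset Laplacian
open scoped ContDiff ComplexConjugate ENNReal Matrix

namespace CNTA

theorem add_le {a b T : ℕ} (h : a ≠ b) (hT : |(a : ℤ) ^ 2 - (b : ℤ) ^ 2| ≤ T) :
    a ≤ T ∧ b ≤ T := by
  rw [abs_le] at hT
  rcases lt_or_gt_of_ne h with h | h
  · have h1 : (a : ℤ) + 1 ≤ b := by exact_mod_cast h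
    have h2 : (a : ℤ) + b ≤ T := by nlinarith [Int.natCast_nonneg a, Int.natCast_nonneg b]
    constructor <;> omega
  · have h1 : (b : ℤ) + 1 ≤ a := by exact_mod_cast h
    have h2 : (a : ℤ) + b ≤ T := by nlinarith [Int.natCast_nonneg a, Int.natCast_nonneg b]
    constructor <;> omega

theorem le_sq {ξ : II} {X : ℕ} (h : dd ξ ≤ X) : ξ.1 ≤ Nat.sqrt X ∧ ξ.2 ≤ Nat.sqrt X := by
  unfold dd at h
  constructor <;> rw [Nat.le_sqrt'] <;> omega

/-- The conditions on a pair. -/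
def Ok (X K T : ℕ) (p : II × II) : Prop :=
  dd p.1 ≤ X ∧ dd p.2 ≤ X ∧ Low K p.1.1 p.2.1 ∧ |(dd p.1 : ℤ) - dd p.2| ≤ T

theorem c2 {X K T : ℕ} (S : Finset (II × II))
    (hS : ∀ p ∈ S, Ok X K T p ∧ p.1.1 ≠ p.2.1 ∧ p.1.2 = p.2.2) :
    S.card ≤ (T + 1) * ((T + 1) * (Nat.sqrt X + 1)) := by
  have h : S.card ≤ (range (T + 1) ×ˢ range (T + 1) ×ˢ range (Nat.sqrt X + 1)).card := by
    refine card_le_card_of_injOn (fun p => (p.1.1, p.2.1, p.1.2)) ?_ ?_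
    · intro p hp
      obtain ⟨⟨h1, -, -, h4⟩, h5, h6⟩ := hS p hp
      have h7 : |(p.1.1 : ℤ) ^ 2 - (p.2.1 : ℤ) ^ 2| ≤ T := by
        have e : (dd p.1 : ℤ) - dd p.2 = (p.1.1 : ℤ) ^ 2 - (p.2.1 : ℤ) ^ 2 := by
          unfold dd; rw [h6]; push_cast; ring
        rwa [e] at h4
      have h8 := add_le h5 h7
      have h9 := le_sq h1
      simp only [coe_product, coe_range, Set.mem_prod, Set.mem_Iio]
      omega
    · intro p hp q hq e
      have h1 := (hS p hp).2.2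
      have h2 := (hS q hq).2.2
      simp only [Prod.mk.injEq] at e
      refine Prod.ext (Prod.ext ?_ ?_) (Prod.ext ?_ ?_) <;> omega
  simpa using h

theorem c3 {X K T : ℕ} (S : Finset (II × II))
    (hS : ∀ p ∈ S, Ok X K T p ∧ p.1.1 = p.2.1 ∧ p.1.2 = p.2.2) :
    S.card ≤ (K + 1) * (Nat.sqrt X + 1) := by
  have h : S.card ≤ (range (K + 1) ×ˢ range (Nat.sqrt X + 1)).card := by
    refine card_le_card_of_injOn (fun p => (p.1.1, p.1.2)) ?_ ?_
    · intro p hp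
      obtain ⟨⟨h1, -, h3, -⟩, h5, h6⟩ := hS p hp
      have h9 := le_sq h1
      unfold Low at h3
      simp only [coe_product, coe_range, Set.mem_prod, Set.mem_Iio]
      omega
    · intro p hp q hq e
      have h1 := (hS p hp).2
      have h2 := (hS q hq).2
      simp only [Prod.mk.injEq] at e
      refine Prod.ext (Prod.ext ?_ ?_) (Prod.ext ?_ ?_) <;> omega
  simpa using h

theorem c4 {X K T : ℕ} (S : Finset (II × II))
    (hS : ∀ p ∈ S, Ok X K T p ∧ p.1.1 = p.2.1 ∧ p.1.2 ≠ p.2.2) :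
    S.card ≤ (K + 1) * ((T + 1) * (T + 1)) := by
  have h : S.card ≤ (range (K + 1) ×ˢ range (T + 1) ×ˢ range (T + 1)).card := by
    refine card_le_card_of_injOn (fun p => (p.1.1, p.1.2, p.2.2)) ?_ ?_
    · intro p hp
      obtain ⟨⟨-, -, h3, h4⟩, h5, h6⟩ := hS p hp
      have h7 : |(p.1.2 : ℤ) ^ 2 - (p.2.2 : ℤ) ^ 2| ≤ T := by
        have e : (dd p.1 : ℤ) - dd p.2 = (p.1.2 : ℤ) ^ 2 - (p.2.2 : ℤ) ^ 2 := by
          unfold dd; rw [h5]; push_cast; ring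
        rwa [e] at h4
      have h8 := add_le h6 h7
      unfold Low at h3
      simp only [coe_product, coe_range, Set.mem_prod, Set.mem_Iio]
      omega
    · intro p hp q hq e
      have h1 := (hS p hp).2.1
      have h2 := (hS q hq).2.1
      simp only [Prod.mk.injEq] at e
      refine Prod.ext (Prod.ext ?_ ?_) (Prod.ext ?_ ?_) <;> omega
  simpa using h

theorem c1 {ε C : ℝ} (hε : 0 < ε) (hC : 0 < C)
    (hD : ∀ (M : ℤ) (Z : Finset (ℕ × ℕ)), M ≠ 0 →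
      (∀ p ∈ Z, (p.2 : ℤ) ^ 2 - (p.1 : ℤ) ^ 2 = M) → (Z.card : ℝ) ≤ C * |(M : ℝ)| ^ ε)
    {X K T : ℕ} (S : Finset (II × II))
    (hS : ∀ p ∈ S, Ok X K T p ∧ p.1.1 ≠ p.2.1 ∧ p.1.2 ≠ p.2.2) :
    (S.card : ℝ) ≤ ((Nat.sqrt X + 1) * ((2 * K + 1) * (2 * T + 1)) : ℕ) * (C * (X : ℝ) ^ ε) := by
  set f : II × II → ℕ × ℤ × ℤ :=
    fun p => (p.1.1, (p.2.1 : ℤ) - p.1.1, (dd p.1 : ℤ) - dd p.2) with hf
  set t : Finset (ℕ × ℤ × ℤ) :=
    range (Nat.sqrt X + 1) ×ˢ Icc (-(K : ℤ)) K ×ˢ Icc (-(T : ℤ)) T with ht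
  have hm : ∀ p ∈ S, f p ∈ t := by
    intro p hp
    obtain ⟨⟨h1, -, h3, h4⟩, h5, -⟩ := hS p hp
    have h9 := le_sq h1
    rw [abs_le] at h4
    unfold Low Nat.dist at h3
    simp only [hf, ht, mem_product, mem_range, mem_Icc]
    omega
  have hc : t.card = (Nat.sqrt X + 1) * ((2 * K + 1) * (2 * T + 1)) := by
    simp only [ht, card_product, card_range, Int.card_Icc]
    have e1 : ((K : ℤ) + 1 - -(K : ℤ)).toNat = 2 * K + 1 := by omega
    have e2 : ((T : ℤ) + 1 - -(T : ℤ)).toNat = 2 * T + 1 := by omega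
    rw [e1, e2]
  rw [card_eq_sum_card_fiberwise hm, ← hc, Nat.cast_sum, ← nsmul_eq_mul]
  refine sum_le_card_nsmul _ _ _ ?_
  intro y _
  set F := S.filter fun p => f p = y with hF
  rcases F.eq_empty_or_nonempty with h0 | ⟨p0, hp0⟩
  · rw [h0]; simp only [card_empty, Nat.cast_zero]; positivity
  have hM : ∀ p ∈ F, (p.2.2 : ℤ) ^ 2 - (p.1.2 : ℤ) ^ 2 =
      (y.1 : ℤ) ^ 2 - (y.2.1 + y.1) ^ 2 - y.2.2 := by
    intro p hp
    rw [← (mem_filter.1 hp).2]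
    simp only [hf, dd]
    push_cast
    ring
  obtain ⟨⟨h1, h2, -, -⟩, -, h6⟩ := hS p0 (mem_filter.1 hp0).1
  have hne : (p0.2.2 : ℤ) ^ 2 - (p0.1.2 : ℤ) ^ 2 ≠ 0 := by
    intro h
    have h' : (p0.2.2 : ℤ) ^ 2 = (p0.1.2 : ℤ) ^ 2 := by linarith
    have h'' : p0.2.2 ^ 2 = p0.1.2 ^ 2 := by exact_mod_cast h'
    exact h6 (Nat.pow_left_injective two_ne_zero h'').symm
  have hle : |(p0.2.2 : ℤ) ^ 2 - (p0.1.2 : ℤ) ^ 2| ≤ X := by
    unfold dd at h1 h2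
    have g1 : p0.1.2 ^ 2 ≤ X := by omega
    have g2 : p0.2.2 ^ 2 ≤ X := by omega
    have g3 : (p0.1.2 : ℤ) ^ 2 ≤ X := by exact_mod_cast g1
    have g4 : (p0.2.2 : ℤ) ^ 2 ≤ X := by exact_mod_cast g2
    rw [abs_le]
    constructor <;> nlinarith [sq_nonneg (p0.1.2 : ℤ), sq_nonneg (p0.2.2 : ℤ)]
  have hinj : Set.InjOn (fun p : II × II => (p.1.2, p.2.2)) F := by
    intro p hp q hq e
    have e1 := (mem_filter.1 hp).2
    have e2 := (mem_filter.1 hq).2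
    have e3 := e1.trans e2.symm
    simp only [hf, Prod.mk.injEq] at e e3
    refine Prod.ext (Prod.ext ?_ ?_) (Prod.ext ?_ ?_) <;> omega
  have h := hD _ (F.image fun p : II × II => (p.1.2, p.2.2)) hne (by
    intro z hz
    obtain ⟨p, hp, rfl⟩ := mem_image.1 hz
    exact (hM p hp).trans (hM p0 hp0).symm)
  rw [card_image_of_injOn hinj] at h
  refine h.trans (mul_le_mul_of_nonneg_left ?_ hC.le)
  refine Real.rpow_le_rpow (abs_nonneg _) ?_ hε.le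
  rw [← Int.cast_abs]
  exact_mod_cast hle

end CNTA

open CNTA in
theorem p_CNT (hDIV : S_DIV) :
    S_CNT := by
  classical
  intro ε hε
  obtain ⟨C, hC, -, hD⟩ := hDIV ε hε
  refine ⟨8 * C + 6, by positivity, fun X K T hX hT => ?_⟩
  have key : ∀ S : Finset (II × II), (∀ p ∈ S, Ok X K T p) → (S.card : ℝ) ≤
      (8 * C + 6) * (X : ℝ) ^ (1 / 2 + ε) * ((K + T + 1) * (T + 1)) := by
    intro S hS
    have a1 := c1 hε hC hD (S.filter fun p => p.1.1 ≠ p.2.1 ∧ p.1.2 ≠ p.2.2)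
      fun p hp => ⟨hS p (mem_filter.1 hp).1, (mem_filter.1 hp).2⟩
    have a2 := c2 (S.filter fun p => p.1.1 ≠ p.2.1 ∧ p.1.2 = p.2.2)
      fun p hp => ⟨hS p (mem_filter.1 hp).1, (mem_filter.1 hp).2⟩
    have a3 := c3 (S.filter fun p => p.1.1 = p.2.1 ∧ p.1.2 = p.2.2)
      fun p hp => ⟨hS p (mem_filter.1 hp).1, (mem_filter.1 hp).2⟩
    have a4 := c4 (S.filter fun p => p.1.1 = p.2.1 ∧ p.1.2 ≠ p.2.2)
      fun p hp => ⟨hS p (mem_filter.1 hp).1, (mem_filter.1 hp).2⟩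
    have hs : S.card ≤ (S.filter fun p => p.1.1 ≠ p.2.1 ∧ p.1.2 ≠ p.2.2).card +
        (S.filter fun p => p.1.1 ≠ p.2.1 ∧ p.1.2 = p.2.2).card +
        (S.filter fun p => p.1.1 = p.2.1 ∧ p.1.2 = p.2.2).card +
        (S.filter fun p => p.1.1 = p.2.1 ∧ p.1.2 ≠ p.2.2).card := by
      refine le_trans (card_le_card ?_) ((card_union_le _ _).trans (Nat.add_le_add_right
        ((card_union_le _ _).trans (Nat.add_le_add_right (card_union_le _ _) _)) _))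
      intro p hp
      simp only [mem_union, mem_filter, hp, true_and]
      tauto
    have hX1 : (1 : ℝ) ≤ X := by exact_mod_cast hX
    have hr1 : (1 : ℝ) ≤ √(X : ℝ) := Real.one_le_sqrt.2 hX1
    have hsq : (Nat.sqrt X : ℝ) ≤ √(X : ℝ) := Real.nat_sqrt_le_real_sqrt
    have hTs : (T : ℝ) ≤ Nat.sqrt X := by exact_mod_cast Nat.le_sqrt'.2 hT
    have hE : (1 : ℝ) ≤ (X : ℝ) ^ ε := Real.one_le_rpow hX1 hε.le
    have hpow : (X : ℝ) ^ (1 / 2 + ε) = √(X : ℝ) * (X : ℝ) ^ ε := by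
      rw [Real.rpow_add (by linarith), Real.sqrt_eq_rpow]
    rw [hpow]
    set r := √(X : ℝ)
    set E := (X : ℝ) ^ ε
    set s : ℝ := (Nat.sqrt X : ℝ) with hsd
    have hK : (0 : ℝ) ≤ K := Nat.cast_nonneg K
    have hT0 : (0 : ℝ) ≤ T := Nat.cast_nonneg T
    set W : ℝ := (K + T + 1) * (T + 1) with hW
    have hW0 : 0 ≤ W := by positivity
    have hs0 : 0 ≤ s := Nat.cast_nonneg _
    have hs2 : s + 1 ≤ 2 * r := by linarith
    have hT2 : (T : ℝ) + 1 ≤ 2 * r := by linarith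
    have hrE : r * W ≤ r * E * W := by
      have : r ≤ r * E := le_mul_of_one_le_right (by linarith) hE
      exact mul_le_mul_of_nonneg_right this hW0
    have w1 : (2 * (K : ℝ) + 1) * (2 * T + 1) ≤ 4 * W := by rw [hW]; nlinarith
    have w2 : ((T : ℝ) + 1) * (T + 1) ≤ W := by rw [hW]; nlinarith
    have w3 : (K : ℝ) + 1 ≤ W := by rw [hW]; nlinarith
    have w4 : ((K : ℝ) + 1) * (T + 1) ≤ W := by rw [hW]; nlinarith
    have b1 : (s + 1) * ((2 * (K : ℝ) + 1) * (2 * T + 1)) * (C * E) ≤ 8 * C * (r * E) * W := by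
      have g : (s + 1) * ((2 * (K : ℝ) + 1) * (2 * T + 1)) ≤ (2 * r) * (4 * W) :=
        mul_le_mul hs2 w1 (by positivity) (by linarith)
      calc _ ≤ (2 * r) * (4 * W) * (C * E) := mul_le_mul_of_nonneg_right g (by positivity)
        _ = _ := by ring
    have b2 : ((T : ℝ) + 1) * ((T + 1) * (s + 1)) ≤ W * (2 * r) := by
      rw [← mul_assoc]; exact mul_le_mul w2 hs2 (by positivity) hW0
    have b3 : ((K : ℝ) + 1) * (s + 1) ≤ W * (2 * r) := mul_le_mul w3 hs2 (by positivity) hW0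
    have b4 : ((K : ℝ) + 1) * ((T + 1) * (T + 1)) ≤ W * (2 * r) := by
      rw [← mul_assoc]; exact mul_le_mul w4 hT2 (by positivity) hW0
    have hs' := (Nat.cast_le (α := ℝ)).2 hs
    have a2' := (Nat.cast_le (α := ℝ)).2 a2
    have a3' := (Nat.cast_le (α := ℝ)).2 a3
    have a4' := (Nat.cast_le (α := ℝ)).2 a4
    push_cast at hs' a1 a2' a3' a4'
    rw [← hsd] at a1 a2' a3'
    nlinarith
  refine key _ fun p hp => ?_
  simp only [mem_filter, mem_product, mem_Box] at hp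
  exact ⟨hp.1.1, hp.1.2, hp.2.1, hp.2.2⟩

end Pool.Agent.P.MP_6b977f_mp.RB
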