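import Pool.Agent.P.MP_6b977f_mp.RB.Iface

/-! Step COIN. -/

namespace Pool.Agent.P.MP_6b977f_mp.RB

open Real MeasureTheory ProbabilityTheory Filter Topology Finset Laplacian
open scoped ContDiff ComplexConjugate ENNReal Matrix

namespace COINA

def tt (x b : Fin 4 → ℤ) (k : Fin 4 × Bool) : GI := ⟨x k.1, if k.2 then b k.1 else -b k.1⟩

theorem two {x b : Fin 4 → ℤ} {n : ℤ} (hx : ∀ i, x i ^ 2 + b i ^ 2 = n) (hb : ∀ i, 1 ≤ b i)
    {S : Finset (Fin 4 × Bool)} (h3 : 3 ≤ S.card) (hS : MinOn S (tt x b)) {i j : Fin 4}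
    (hij : i ≠ j) (h : ∀ k ∈ S, k.1 = i ∨ k.1 = j) : False := by
  have key : ∀ f : Fin 4 × Bool → ℤ, ∑ k ∈ S, f k =
      (if (i, true) ∈ S then f (i, true) else 0) + ((if (i, false) ∈ S then f (i, false) else 0) +
      ((if (j, true) ∈ S then f (j, true) else 0) + if (j, false) ∈ S then f (j, false) else 0)) :=
    fun f => by
      have e : S = ({(i, true), (i, false), (j, true), (j, false)} : Finset _).filter (· ∈ S) := by
        ext ⟨k, s⟩
        refine ⟨fun hk => mem_filter.2 ⟨?_, hk⟩, fun hk => (mem_filter.1 hk).2⟩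
        rcases h _ hk with rfl | rfl <;> cases s <;> simp
      rw [sum_congr e fun _ _ => rfl, sum_filter, sum_insert (by simp [hij]),
        sum_insert (by simp [hij]), sum_insert (by simp), sum_singleton]
  have e1 := key fun _ => 1
  have e2 := key fun k => (tt x b k).re
  have e3 := key fun k => (tt x b k).im
  have r : ∀ S : Finset (Fin 4 × Bool), ∑ k ∈ S, (tt x b k).re = (∑ k ∈ S, tt x b k).re ∧
      ∑ k ∈ S, (tt x b k).im = (∑ k ∈ S, tt x b k).im := fun S => by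
    induction S using Finset.cons_induction with
    | empty => simp
    | cons a s _ ih => simp only [sum_cons, ih, Zsqrtd.re_add, Zsqrtd.im_add, and_self]
  rw [(r S).1, hS.2.1] at e2
  rw [(r S).2, hS.2.1] at e3
  rw [sum_const, nsmul_eq_mul, mul_one] at e1
  have a1 := hb i
  have a2 := hb j
  simp only [tt, Zsqrtd.re_zero, Zsqrtd.im_zero, if_true, Bool.false_eq_true, if_false] at e2 e3
  split_ifs at e1 e2 e3 with c1 c2 c3 c4 <;> try omega
  have e4 : b i = b j := (pow_left_inj₀ (by omega) (by omega) two_ne_zero).1 (by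
    have := (hx i).trans (hx j).symm
    rwa [show x i = -x j by omega, neg_sq, add_right_inj] at this)
  refine hS.2.2 {(i, true), (j, false)} (by simp [insert_subset_iff, c1, c4]) (by simp)
    (fun e => absurd (e ▸ card_le_two : S.card ≤ 2) (by omega)) ?_
  rw [sum_pair (by simp)]
  ext <;> simp [tt] <;> omega

theorem core (hMINS : S_MINS) {x b : Fin 4 → ℤ} {n : ℤ} (hx : ∀ i, x i ^ 2 + b i ^ 2 = n)
    (hb : ∀ i, 1 ≤ b i) (h0 : ∑ i, x i = 0) (h1 : ∀ j, x j ≠ -x 0) :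
    ∃ S, 3 ≤ S.card ∧ MinOn S (tt x b) ∧ ∀ i j, i ≠ j → ∃ k ∈ S, k.1 = i ∨ k.1 = j := by
  obtain ⟨S, -, h3, hS⟩ := (hMINS _ (tt x b)).2.1 univ (fun k _ h => by
      have := congrArg Zsqrtd.im h
      have := hb k.1
      simp only [tt, Zsqrtd.im_zero] at *
      split_ifs at * <;> omega) (by
      rw [Fin.sum_univ_four] at h0
      rw [Fintype.sum_prod_type]
      ext <;> simp [Fin.sum_univ_four, tt]
      omega) fun h => by
    obtain ⟨k, hk⟩ := card_pos.1 ((h (tt x b (0, true))) ▸ card_pos.2 ⟨(0, true), by simp⟩)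
    exact h1 k.1 (congrArg Zsqrtd.re (mem_filter.1 hk).2)
  refine ⟨S, h3, hS, fun i j hij => by_contra fun h => ?_⟩
  obtain ⟨i', j', a, c⟩ := (by decide : ∀ i j : Fin 4, i ≠ j → ∃ i' j' : Fin 4, i' ≠ j' ∧
    ∀ k, k ≠ i → k ≠ j → k = i' ∨ k = j') i j hij
  exact two hx hb h3 hS a fun k hk =>
    c _ (fun e => h ⟨k, hk, .inl e⟩) fun e => h ⟨k, hk, .inr e⟩

theorem det {n : ℕ} {ξ η : II} (h : ξ ∈ AA n) (h' : η ∈ AA n) (e : ξ.1 = η.1) : ξ = η := by
  have := (mem_AA.1 h).1.trans (mem_AA.1 h').1.symm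
  rw [dd, dd, e, add_right_inj] at this
  exact Prod.ext e (Nat.pow_left_injective two_ne_zero this)

def sg (p : II × II) : ℤ := if p.2.1 < p.1.1 then -p.2.1 else p.2.1

noncomputable def en (S : Finset (Fin 4 × Bool)) : Fin S.card ↪ Fin 4 × Bool :=
  S.equivFin.symm.toEmbedding.trans (Function.Embedding.subtype _)

theorem en_surj {S : Finset (Fin 4 × Bool)} {k : Fin 4 × Bool} (h : k ∈ S) : ∃ i, en S i = k :=
  ⟨S.equivFin ⟨k, h⟩, by simp [en]⟩

theorem en_map (S : Finset (Fin 4 × Bool)) : univ.map (en S) = S := by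
  ext k
  refine ⟨fun h => ?_, fun h => mem_map.2 ((en_surj h).imp fun i e => ⟨mem_univ _, e⟩)⟩
  obtain ⟨i, -, rfl⟩ := mem_map.1 h
  exact (S.equivFin.symm i).2

def R (p : II × II) (S : Finset (Fin 4 × Bool)) (u : Fin S.card → GI) : Prop :=
  ∃ x : Fin 4 → ℤ, x 0 = p.1.1 ∧ (x 1).natAbs = p.2.1 ∧ ∑ i, x i = 0 ∧
    (∀ i, (u i).re = x (en S i).1) ∧ ∀ i j, i ≠ j → ∃ k ∈ S, k.1 = i ∨ k.1 = j

theorem ex (hMINS : S_MINS) {n : ℕ} {p : II × II} (hp : p ∈ AA n ×ˢ AA n) (h : Coin n p) :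
    ∃ S : Finset (Fin 4 × Bool), 3 ≤ S.card ∧ ∃ u ∈ Rel (Lam n) S.card, R p S u := by
  obtain ⟨q, hq, hne, e⟩ := h
  obtain ⟨p1, p2⟩ := mem_product.1 hp
  obtain ⟨q1, q2⟩ := mem_product.1 hq
  obtain ⟨a1, a2, a3⟩ := mem_AA.1 p1
  obtain ⟨b1, b2, b3⟩ := mem_AA.1 p2
  obtain ⟨c1, c2, c3⟩ := mem_AA.1 q1
  obtain ⟨d1, d2, d3⟩ := mem_AA.1 q2
  have s2 : ∀ p, sg p ^ 2 = (p.2.1 : ℤ) ^ 2 := fun p => by unfold sg; split_ifs <;> simp
  have hx : ∀ i, ![(p.1.1 : ℤ), sg p, -q.1.1, -sg q] i ^ 2 +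
      ![(p.1.2 : ℤ), p.2.2, q.1.2, q.2.2] i ^ 2 = n := fun i => by
    unfold dd at a1 b1 c1 d1
    fin_cases i <;> simp [s2] <;> norm_cast
  have h0 : ∑ i, ![(p.1.1 : ℤ), sg p, -q.1.1, -sg q] i = 0 := by
    unfold kap at e
    simp only [Fin.sum_univ_four, sg, Matrix.cons_val]
    split_ifs at e ⊢ <;> omega
  obtain ⟨S, h3, hS, hc⟩ := core hMINS hx (fun i => by fin_cases i <;> simpa) h0 fun j hj => by
    have : q.1.1 = p.1.1 ∧ q.2.1 = p.2.1 := by
      unfold kap at e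
      fin_cases j <;> simp [sg] at hj <;> split_ifs at * <;> omega
    exact hne (Prod.ext (det q1 p1 this.1) (det q2 p2 this.2))
  refine ⟨S, h3, tt _ _ ∘ en S, mem_Rel.2 ⟨fun i => mem_Lam.2 ?_,
    ((hMINS _ _).2.2 _ _).1 ((en_map S).symm ▸ hS)⟩, _, rfl, ?_, h0, fun _ => rfl, hc⟩
  · rw [← hx (en S i).1, Zsqrtd.norm_def]
    simp only [tt, Function.comp]
    split_ifs <;> ring
  · simp only [sg, Matrix.cons_val]
    split_ifs <;> simp

theorem uniq {p q : II × II} {S : Finset (Fin 4 × Bool)} {u : Fin S.card → GI} (h : R p S u)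
    (h' : R q S u) : p.1.1 = q.1.1 ∧ p.2.1 = q.2.1 := by
  obtain ⟨x, a0, a1, a2, a3, a4⟩ := h
  obtain ⟨y, b0, b1, b2, b3, -⟩ := h'
  have e : ∀ i j, i ≠ j → x i = y i ∨ x j = y j := fun i j hij => by
    obtain ⟨k, hk, h⟩ := a4 i j hij
    obtain ⟨m, rfl⟩ := en_surj hk
    rcases h with rfl | rfl
    exacts [.inl ((a3 m).symm.trans (b3 m)), .inr ((a3 m).symm.trans (b3 m))]
  rw [Fin.sum_univ_four] at a2 b2
  have := e 0 1 (by decide)
  have := e 0 2 (by decide)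
  have := e 0 3 (by decide)
  have := e 1 2 (by decide)
  have := e 1 3 (by decide)
  omega

end COINA

theorem p_COIN (hMINS : S_MINS) :
    S_COIN := by
  classical
  intro n
  have key := card_le_card_of_forall_subsingleton (s := (AA n ×ˢ AA n).filter (Coin n))
    (t := (univ.filter fun S : Finset (Fin 4 × Bool) => 3 ≤ S.card).sigma fun S =>
      Rel (Lam n) S.card) (fun p y => COINA.R p y.1 y.2) (fun p hp => by
      obtain ⟨S, a, u, b, c⟩ := COINA.ex hMINS (mem_filter.1 hp).1 (mem_filter.1 hp).2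
      exact ⟨⟨S, u⟩, mem_sigma.2 ⟨mem_filter.2 ⟨mem_univ _, a⟩, b⟩, c⟩) (by
      rintro y - p ⟨a1, a2⟩ q ⟨b1, b2⟩
      have a := mem_product.1 (mem_filter.1 a1).1
      have b := mem_product.1 (mem_filter.1 b1).1
      have c := COINA.uniq a2 b2
      exact Prod.ext (COINA.det a.1 b.1 c.1) (COINA.det a.2 b.2 c.2))
  rw [card_sigma] at key
  refine key.trans ((sum_le_card_nsmul _ _ _ fun S hS => ?_).trans
    (Nat.mul_le_mul_right _ ((card_le_univ _).trans (by simp))))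
  exact single_le_sum (f := fun l => rel n l) (fun _ _ => Nat.zero_le _)
    (mem_Icc.2 ⟨(mem_filter.1 hS).2, (card_le_univ _).trans (by simp)⟩)

end Pool.Agent.P.MP_6b977f_mp.RB
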