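import Pool.Agent.P.MP_6b977f_mp.RB.Iface

/-! Step CONVO. -/

namespace Pool.Agent.P.MP_6b977f_mp.RB

open Real Filter Topology Finset

namespace CONVOA

theorem summ (hPHI : S_PHI) {r : ℕ → ℝ} {c : II → ℝ} (hr : Summable fun k : ℕ => r k ^ 2 / (1 + k))
    (hc : H1 c) {g : ℕ → ℝ} {M : ℝ} (hg : ∀ k, |g k| ≤ M) :
    Summable fun η : II => g η.1 * r η.1 * (nn η.2 * c η) := by
  have h1 : ∀ k, Summable fun b => 1 / (1 + (dd (k, b) : ℝ)) := fun k =>
    summable_of_sum_le (fun _ => by positivity) (hPHI.2.1 k)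
  have h2 : Summable fun η : II => r η.1 ^ 2 * (1 / (1 + (dd η : ℝ))) := by
    refine (summable_prod_of_nonneg fun _ => by positivity).2
      ⟨fun k => (h1 k).mul_left (r k ^ 2), ?_⟩
    refine (hr.mul_left 6).of_nonneg_of_le (fun _ => by positivity) fun k => ?_
    simp only [tsum_mul_left]
    calc _ ≤ r k ^ 2 * (6 / (1 + k)) := by gcongr; exact (h1 k).tsum_le_of_sum_le (hPHI.2.1 k)
      _ = _ := by ring
  refine ((h2.add hc).mul_left M).of_norm_bounded fun η => ?_
  have d0 : 0 < 1 + (dd η : ℝ) := by positivity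
  have : |r η.1| * |c η| ≤ r η.1 ^ 2 * (1 / (1 + (dd η : ℝ))) + (1 + dd η) * c η ^ 2 := by
    rw [← sq_abs (r _), ← sq_abs (c _), mul_one_div, div_add' _ _ _ d0.ne', le_div_iff₀ d0]
    nlinarith [sq_nonneg (|r η.1| - (1 + dd η) * |c η|), sq_nonneg (|r η.1|),
      sq_nonneg ((1 + dd η) * |c η|)]
  rw [Real.norm_eq_abs, abs_mul, abs_mul, abs_mul, abs_of_pos (nn_pos _), mul_assoc]
  have := nn_pos η.2
  exact mul_le_mul (hg _) (le_trans (mul_le_mul_of_nonneg_left (mul_le_of_le_one_left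
    (abs_nonneg _) (nn_le _)) (abs_nonneg _)) ‹_›) (by positivity) ((abs_nonneg _).trans (hg 0))

theorem shift {ρ : ℕ → ℝ} {κ : ℕ → ℕ} (a : ℕ) (h : Summable fun k : ℕ => ρ (κ k) ^ 2 / (1 + κ k))
    (hκ : ∀ k, κ k ≤ a + k) : Summable fun k : ℕ => ρ (κ k) ^ 2 / (1 + k) :=
  (h.mul_left (1 + (a : ℝ))).of_nonneg_of_le (fun _ => by positivity) fun k => by
    have : (κ k : ℝ) ≤ a + k := by exact_mod_cast hκ k
    rw [← mul_div_assoc, div_le_div_iff₀ (by positivity) (by positivity)]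
    nlinarith [mul_nonneg (sq_nonneg (ρ (κ k))) (by positivity : (0 : ℝ) ≤ a * k),
      mul_le_mul_of_nonneg_left this (sq_nonneg (ρ (κ k)))]

theorem nn_ge (k : ℕ) : |π / nn k| ≤ 2 * π := by
  have h := nn_sq k
  have p3 := pi_pos
  have p4 := pi_lt_four
  have : 1 / 4 ≤ nn k ^ 2 := by
    rw [h]; split_ifs
    · rw [← one_div]; gcongr
    · rw [div_le_div_iff₀ (by norm_num) p3]; linarith
  have n0 := nn_pos k
  rw [abs_of_pos (by positivity), div_le_iff₀ n0]
  nlinarith [(by nlinarith : 1 / 2 ≤ nn k)]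

end CONVOA

open CONVOA

theorem p_CONVO (hPHI : S_PHI) : S_CONVO := by
  rintro ρ c ⟨a, b⟩ h0 hρ hc
  have d1 : ∀ k, Nat.dist a (k + a) = k := fun k => by unfold Nat.dist; omega
  have d2 : ∀ k, Nat.dist (k + a) a = k := fun k => by unfold Nat.dist; omega
  have r1 := shift (ρ := ρ) (κ := fun k => Nat.dist a k) a ((summable_nat_add_iff a).1 (by
    simpa only [d1] using hρ)) fun k => by unfold Nat.dist; omega
  have r2 := shift (ρ := ρ) (κ := fun k => a + k) a
    (hρ.comp_injective (add_right_injective a)) fun _ => le_rfl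
  have n1 : ∀ k, |nn k| ≤ 1 := fun k => (abs_of_pos (nn_pos k)).trans_le (nn_le k)
  have key : ∀ {r : ℕ → ℝ}, (Summable fun k : ℕ => r k ^ 2 / (1 + k)) →
      (Summable fun k => r k * tc c k) ∧ π ^ 2 / 2 * ∑' η : II, nn η.1 * r η.1 * (nn η.2 * c η) =
        ∑' k, r k * tc c k - r 0 * tc c 0 / 2 := fun {r} hr => by
    have s1 : Summable fun k => r k * tc c k := (summ hPHI hr hc nn_ge).prod.congr fun k => by
      simp only [tsum_mul_left, tc]; ring
    refine ⟨s1, ?_⟩
    rw [(summ hPHI hr hc n1).tsum_prod, ← tsum_mul_left]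
    refine HasSum.tsum_eq ((s1.hasSum.sub (hasSum_ite_eq 0 _)).congr_fun fun k => ?_)
    have := nn_sq k
    have n0 := (nn_pos k).ne'
    have e : π ^ 2 / 2 * ∑' b, nn k * r k * (nn b * c (k, b)) = π / 2 * nn k ^ 2 * (r k * tc c k) := by
      simp only [tsum_mul_left, tc]; field_simp
    have := pi_ne_zero
    simp only [e]
    split_ifs at * with h
    · rw [‹nn k ^ 2 = _›, h]; field_simp; ring
    · rw [‹nn k ^ 2 = _›]; field_simp; ring
  obtain ⟨s1, e1⟩ := key r1
  obtain ⟨s2, e2⟩ := key r2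
  have q := sq_sqrt pi_pos.le
  have e : ∀ η : II, VV ρ (a, b) η * c η = π / 4 * (nn a * nn b) *
      (nn η.1 * ρ (Nat.dist a η.1) * (nn η.2 * c η) + nn η.1 * ρ (a + η.1) * (nn η.2 * c η)) :=
    fun η => by
      simp only [VV, ww]
      linear_combination (nn a * nn b * nn η.1 * nn η.2 * c η *
        (ρ (Nat.dist a η.1) + ρ (a + η.1)) / 4) * q
  have s3 := summ hPHI r1 hc n1
  have s4 := summ hPHI r2 hc n1
  simp only [e]
  refine ⟨(s3.add s4).mul_left _, ?_⟩
  have h1 := (hasSum_nat_add_iff' a).2 s1.hasSum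
  simp only [d1] at h1
  have h2 : HasSum (fun k => ρ k * tc c (Nat.dist k a)) _ :=
    (hasSum_nat_add_iff a).1 (by simpa only [d2, add_comm a] using s2.hasSum)
  have e3 : ∑ i ∈ range a, ρ (Nat.dist a i) * tc c i =
      ∑ i ∈ range a, ρ i * tc c (Nat.dist i a) + ρ a * tc c 0 := by
    have := sum_range_succ (fun i => ρ (Nat.dist a i) * tc c i) a
    rw [Nat.dist_self, h0, zero_mul, add_zero] at this
    rw [← this, ← sum_flip, sum_range_succ, Nat.sub_self, Nat.dist_zero_right]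
    refine congrArg (· + _) (sum_congr rfl fun i hi => ?_)
    rw [mem_range] at hi
    congr 2 <;> unfold Nat.dist <;> omega
  rw [tsum_mul_left, s3.tsum_add s4]
  simp only [Nat.dist_zero_right, add_zero] at e1 e2
  have := (nn_pos a).ne'
  have := (nn_pos b).ne'
  rw [← mul_assoc, (by field_simp : π / (nn a * nn b) * (π / 4 * (nn a * nn b)) = π ^ 2 / 4)]
  simp only [add_comm a] at e2 ⊢
  simp only [← mul_div_assoc, mul_add (ρ _)]
  refine Eq.subst (motive := fun t => HasSum _ t) ?_ ((h2.add h1).div_const 2)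
  linarith

end Pool.Agent.P.MP_6b977f_mp.RB
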