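import Pool.Agent.P.MP_6b977f_mp.RB.Iface

/-! Step CS. -/

namespace Pool.Agent.P.MP_6b977f_mp.RB

open Real MeasureTheory ProbabilityTheory Filter Topology Finset Laplacian
open scoped ContDiff ComplexConjugate ENNReal Matrix

namespace CSA

lemma lin (r y : ℝ) : HasDerivAt (fun y => r * (π - y)) (-r) y := by
  simpa using ((hasDerivAt_id y).const_sub π).const_mul r

lemma pos {s : ℝ} (h : 0 < s) : Cs s = fun y => cosh (√s * (π - y)) := funext fun _ => if_pos h

lemma neg {s : ℝ} (h : ¬ 0 < s) : Cs s = fun y => cos (√(-s) * (π - y)) :=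
  funext fun _ => if_neg h

lemma dpos {s : ℝ} (h : 0 < s) : deriv (Cs s) = fun y => -(√s * sinh (√s * (π - y))) := by
  funext y
  rw [pos h, ((lin (√s) y).cosh).deriv]
  ring

lemma dneg {s : ℝ} (h : ¬ 0 < s) : deriv (Cs s) = fun y => √(-s) * sin (√(-s) * (π - y)) := by
  funext y
  rw [neg h, ((lin (√(-s)) y).cos).deriv]
  ring

end CSA

theorem p_CS :
    S_CS := by
  intro s
  by_cases h : 0 < s
  · have e := mul_self_sqrt h.le
    refine ⟨by rw [CSA.pos h]; fun_prop, fun y => ?_, by simp [CSA.dpos h],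
      fun _ y => ⟨by rw [CSA.dpos h], ?_⟩,
      fun h' => absurd h h'.not_gt, (√s : ℝ), ?_, ?_, fun _ => rfl, fun y => ?_⟩
    · rw [CSA.dpos h, CSA.pos h]
      refine (((CSA.lin (√s) y).sinh).const_mul √s).neg.congr_deriv ?_
      linear_combination cosh (√s * (π - y)) * e
    · rw [CSA.dpos h, CSA.pos h, neg_sq, mul_pow, sq_sqrt h.le, cosh_sq]
      gcongr
      linarith
    · exact_mod_cast sq_sqrt h.le
    · rw [Complex.norm_real, Real.norm_of_nonneg (sqrt_nonneg _), abs_of_pos h]
    · rw [CSA.dpos h, CSA.pos h]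
      simp only [cosh_eq, sinh_eq, neg_mul]
      push_cast
      exact ⟨rfl, by ring⟩
  · have h0 : 0 ≤ -s := by linarith [not_lt.1 h]
    have e := mul_self_sqrt h0
    refine ⟨by rw [CSA.neg h]; fun_prop, fun y => ?_, by simp [CSA.dneg h], fun h' => absurd h' h,
      fun _ y => by rw [CSA.dneg h], (√(-s) : ℝ) * Complex.I, ?_, ?_, fun h' => absurd h' h,
      fun y => ?_⟩
    · rw [CSA.dneg h, CSA.neg h]
      refine (((CSA.lin (√(-s)) y).sin).const_mul √(-s)).congr_deriv ?_
      linear_combination (-cos (√(-s) * (π - y))) * e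
    · rw [mul_pow, Complex.I_sq, ← Complex.ofReal_pow, sq_sqrt h0]
      simp
    · rw [norm_mul, Complex.norm_I, mul_one, Complex.norm_real, Real.norm_of_nonneg (sqrt_nonneg _),
        abs_of_nonpos (not_lt.1 h)]
    · rw [CSA.dneg h, CSA.neg h]
      push_cast
      rw [Complex.cos, Complex.sin, show (√(-s) : ℝ) * Complex.I * (π - y) =
        (√(-s) : ℝ) * (π - y) * Complex.I by ring, show -((√(-s) : ℝ) * Complex.I) * (π - y) =
        -((√(-s) : ℝ) * (π - y)) * Complex.I by ring]
      exact ⟨rfl, by ring⟩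

end Pool.Agent.P.MP_6b977f_mp.RB
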