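import Pool.Agent.P.MP_6b977f_mp.RB.Iface

/-! Step DIV. -/

namespace Pool.Agent.P.MP_6b977f_mp.RB

open Real Finset

namespace DIVA

theorem succ_pow_le (B a : ℕ) (hB : 1 ≤ B) : (a + 1) ^ B ≤ B ^ B * 2 ^ a := by
  have h2 : a / B + 1 ≤ 2 ^ (a / B) := Nat.lt_two_pow_self
  calc (a + 1) ^ B ≤ (B * 2 ^ (a / B)) ^ B :=
        Nat.pow_le_pow_left ((Nat.lt_mul_div_succ a hB).trans_le (Nat.mul_le_mul_left _ h2)) _
    _ ≤ _ := by
      rw [mul_pow, ← pow_mul]
      exact Nat.mul_le_mul_left _ (Nat.pow_le_pow_right two_pos (Nat.div_mul_le_self _ _))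

theorem pow_le (B : ℕ) (hB : 1 ≤ B) (n : ℕ) (hn : n ≠ 0) :
    #n.divisors ^ B ≤ (B ^ 2 ^ B) ^ B * n := by
  have hBB : 1 ≤ B ^ B := Nat.one_le_pow _ _ hB
  rw [Nat.card_divisors hn, ← prod_pow]
  calc _ ≤ ∏ p ∈ n.primeFactors, ((if p ∈ range (2 ^ B) then B ^ B else 1) *
        p ^ n.factorization p) := prod_le_prod' fun p hp => by
        have p2 := (Nat.prime_of_mem_primeFactors hp).two_le
        split_ifs with h
        · exact (succ_pow_le B _ hB).trans (by gcongr)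
        · rw [mem_range, not_lt] at h
          calc _ ≤ (2 ^ n.factorization p) ^ B := Nat.pow_le_pow_left Nat.lt_two_pow_self _
            _ ≤ _ := by rw [← pow_mul, mul_comm, pow_mul, one_mul]; gcongr
    _ ≤ _ := by
      rw [prod_mul_distrib, prod_ite_mem, prod_const, ← pow_mul B (2 ^ B), mul_comm (2 ^ B), pow_mul]
      refine Nat.mul_le_mul (Nat.pow_le_pow_right hBB
        ((card_le_card inter_subset_right).trans (card_range _).le)) (le_of_eq ?_)
      exact Nat.prod_factorization_pow_eq_self hn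

end DIVA

theorem p_DIV : S_DIV := by
  intro ε hε
  obtain ⟨B, hB⟩ : ∃ B : ℕ, 1 / ε < B := exists_nat_gt _
  have B0 : (0 : ℝ) < B := lt_trans (by positivity) hB
  have B1 : 1 ≤ B := by exact_mod_cast B0
  have key : ∀ m : ℕ, m ≠ 0 → (#m.divisors : ℝ) ≤ (B : ℝ) ^ 2 ^ B * (m : ℝ) ^ ε := fun m hm => by
    refine le_of_pow_le_pow_left₀ (n := B) (by omega) (by positivity) ?_
    have m1 : (1 : ℝ) ≤ m := by exact_mod_cast Nat.pos_of_ne_zero hm
    have : (m : ℝ) ≤ (m ^ ε) ^ B := by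
      rw [← rpow_mul_natCast (by positivity)]
      rw [div_lt_iff₀ hε] at hB
      exact self_le_rpow_of_one_le m1 (by linarith)
    rw [mul_pow]
    exact le_trans (by exact_mod_cast DIVA.pow_le B B1 m hm) (mul_le_mul_of_nonneg_left this (by positivity))
  refine ⟨_, by positivity, key, fun M Z hM hZ => ?_⟩
  have := key M.natAbs (by omega)
  rw [Nat.cast_natAbs, Int.cast_abs] at this
  refine le_trans (Nat.cast_le.2 (card_le_card_of_injOn (fun p => p.1 + p.2) (fun p hp => ?_)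
    fun p hp q hq h => ?_)) this
  · refine mem_coe.2 (Nat.mem_divisors.2 ⟨Int.natCast_dvd.1 ⟨p.2 - p.1, ?_⟩, by omega⟩)
    rw [← hZ p hp]; push_cast; ring
  · have h1 := hZ p hp
    have h2 := hZ q hq
    have h3 : (p.1 : ℤ) + p.2 = q.1 + q.2 := by exact_mod_cast h
    have h4 : (p.1 : ℤ) + p.2 ≠ 0 := fun k => hM (by rw [← h1]; linear_combination (p.2 - p.1 : ℤ) * k)
    have h5 : (p.2 : ℤ) - p.1 = q.2 - q.1 := mul_left_cancel₀ h4 (by
      linear_combination h1 - h2 - (q.2 - q.1 : ℤ) * h3)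
    ext <;> omega

end Pool.Agent.P.MP_6b977f_mp.RB
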