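import Pool.Agent.P.MP_6b977f_mp.RB.Iface

/-! Step DR. -/

namespace Pool.Agent.P.MP_6b977f_mp.RB

open Real MeasureTheory ProbabilityTheory Filter Topology Finset Laplacian
open scoped ContDiff ComplexConjugate ENNReal Matrix

namespace DRA

theorem big {ι : Type} [Fintype ι] (A v e w : ι → ℝ) (μ P : ℝ) (hP : 0 < P) (hA : ∀ i, |A i| ≤ 2)
    (hv : ∑ i, v i ^ 2 ≤ 1) (hw : ∀ i, w i = μ * v i + e i) (hμ : P ≤ |μ|) :
    (∑ i, v i ^ 4) + (∑ i, A i * v i ^ 2) ^ 2 ≤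
      10 * (∑ i, w i ^ 2) / P ^ 2 + 10 * (∑ i, e i ^ 2) / P ^ 2 := by
  have h0 : 0 ≤ ∑ i, v i ^ 2 := sum_nonneg fun i _ => sq_nonneg _
  have h1 : ∑ i, v i ^ 4 ≤ ∑ i, v i ^ 2 := sum_le_sum fun i _ => by
    have : v i ^ 2 ≤ 1 := (single_le_sum (f := fun i => v i ^ 2) (fun i _ => sq_nonneg _)
      (mem_univ i)).trans hv
    nlinarith [sq_nonneg (v i)]
  have h2 : |∑ i, A i * v i ^ 2| ≤ 2 * ∑ i, v i ^ 2 := by
    rw [mul_sum]
    refine (abs_sum_le_sum_abs _ _).trans (sum_le_sum fun i _ => ?_)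
    rw [abs_mul, abs_of_nonneg (sq_nonneg (v i))]
    exact mul_le_mul_of_nonneg_right (hA i) (sq_nonneg _)
  have h3 : (∑ i, A i * v i ^ 2) ^ 2 ≤ 4 * ∑ i, v i ^ 2 := by
    rw [← sq_abs]
    nlinarith [abs_nonneg (∑ i, A i * v i ^ 2)]
  have h4 : P ^ 2 ≤ μ ^ 2 := by rw [← sq_abs μ]; gcongr
  have h5 : P ^ 2 * ∑ i, v i ^ 2 ≤ 2 * (∑ i, w i ^ 2) + 2 * ∑ i, e i ^ 2 := by
    rw [mul_sum, mul_sum, mul_sum, ← sum_add_distrib]
    refine sum_le_sum fun i _ => ?_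
    rw [hw i]
    nlinarith [sq_nonneg (μ * v i + 2 * e i), mul_le_mul_of_nonneg_right h4 (sq_nonneg (v i))]
  rw [← add_div, le_div_iff₀ (by positivity)]
  nlinarith [mul_le_mul_of_nonneg_right (add_le_add h1 h3) (sq_nonneg P)]

end DRA

theorem p_DR (hDR1 : S_DR1) :
    S_DR := by
  classical
  intro ι _ _ J T p W A v e μ hp hW hA hB hv hE
  have hP : (1 : ℝ) ≤ p := by exact_mod_cast hp
  have hP0 : (0 : ℝ) < p := by linarith
  have hδ : (0 : ℝ) < 1 / p ^ 2 := by positivity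
  have hBs : ∀ S ⊆ T, ∀ y : ι → ℝ, ∑ j ∈ S, (∑ i, y i * v j i) ^ 2 ≤ ∑ i, y i ^ 2 :=
    fun S hS y => (sum_le_sum_of_subset_of_nonneg hS fun _ _ _ => sq_nonneg _).trans (hB y)
  set F : ℤ → ℝ := fun m => (∑ i, FF W (m / p ^ 2) (1 / p ^ 2) i i ^ 2) +
    ∑ i, ∑ j, A i * A j * FF W (m / p ^ 2) (1 / p ^ 2) i j ^ 2 with hF
  have hF0 : ∀ m, 0 ≤ F m := fun m => by
    have := hDR1 ι J ∅ (m / p ^ 2) (1 / p ^ 2) W A v e μ hδ hW hA (hBs ∅ (empty_subset _))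
      (by simp) (by simp) (by simp)
    simp only [sum_empty, mul_zero, zero_div, add_zero] at this
    simp only [hF]
    linarith
  have he0 : ∀ S : Finset J, 0 ≤ ∑ j ∈ S, ∑ i, e j i ^ 2 := fun S => by positivity
  let g : J → ℤ := fun j => round (μ j * p ^ 2)
  have hg : ∀ j ∈ T.filter fun j => |μ j| ≤ p, g j ∈ Icc (-(p : ℤ) ^ 3) (p ^ 3) := by
    intro j hj
    have h1 := abs_le.1 (mem_filter.1 hj).2
    have h2 : _ ≤ μ j * p ^ 2 - (g j : ℝ) ∧ μ j * p ^ 2 - (g j : ℝ) ≤ _ :=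
      abs_le.1 (abs_sub_round (μ j * p ^ 2))
    have h3 : (0 : ℝ) ≤ p ^ 2 := by positivity
    rw [mem_Icc, ← Int.lt_add_one_iff, ← Int.lt_add_one_iff]
    constructor
    · have : (-(p : ℝ) ^ 3) < (g j : ℝ) + 1 := by nlinarith
      exact_mod_cast this
    · have : (g j : ℝ) < p ^ 3 + 1 := by nlinarith
      exact_mod_cast this
  have h1 : ∑ j ∈ T.filter fun j => |μ j| ≤ p, ((∑ i, v j i ^ 4) + (∑ i, A i * v j i ^ 2) ^ 2) ≤
      32 * (∑ m ∈ Icc (-(p : ℤ) ^ 3) (p ^ 3), F m) +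
        80 * p ^ 4 * ∑ j ∈ T.filter fun j => |μ j| ≤ p, ∑ i, e j i ^ 2 := by
    rw [← sum_fiberwise_of_maps_to hg, ← sum_fiberwise_of_maps_to hg fun j => ∑ i, e j i ^ 2,
      mul_sum, mul_sum, ← sum_add_distrib]
    refine sum_le_sum fun m _ => ?_
    have hs : ((T.filter fun j => |μ j| ≤ p).filter fun j => g j = m) ⊆ T :=
      (filter_subset _ _).trans (filter_subset _ _)
    refine (hDR1 ι J _ (m / p ^ 2) (1 / p ^ 2) W A v e μ hδ hW hA (hBs _ hs)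
      (fun j hj => hv j (hs hj)) (fun j hj => hE j (hs hj)) fun j hj => ?_).trans (le_of_eq ?_)
    · rw [← (mem_filter.1 hj).2, show μ j - (g j : ℝ) / p ^ 2 = (μ j * p ^ 2 - g j) / p ^ 2 by
        field_simp, abs_div, abs_of_pos (by positivity : (0 : ℝ) < p ^ 2)]
      gcongr
      exact (abs_sub_round _).trans (by norm_num)
    · simp only [hF]
      field_simp
  have h2 : ∑ j ∈ T.filter fun j => ¬ |μ j| ≤ p, ((∑ i, v j i ^ 4) + (∑ i, A i * v j i ^ 2) ^ 2) ≤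
      10 * (∑ i, ∑ k, W i k ^ 2) / p ^ 2 +
        10 * (∑ j ∈ T.filter fun j => ¬ |μ j| ≤ p, ∑ i, e j i ^ 2) / p ^ 2 := by
    refine (sum_le_sum fun j hj => DRA.big A (v j) (e j) (W *ᵥ v j) (μ j) p hP0 hA
      (hv j (mem_filter.1 hj).1) (fun i => congrFun (hE j (mem_filter.1 hj).1) i)
      (not_le.1 (mem_filter.1 hj).2).le).trans ?_
    rw [sum_add_distrib, ← sum_div, ← sum_div, ← mul_sum, ← mul_sum, sum_comm]
    gcongr with i
    exact hBs _ (filter_subset _ _) (W i)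
  have h3 : 10 * (∑ j ∈ T.filter fun j => ¬ |μ j| ≤ p, ∑ i, e j i ^ 2) / p ^ 2 ≤
      10 * p ^ 4 * ∑ j ∈ T.filter fun j => ¬ |μ j| ≤ p, ∑ i, e j i ^ 2 := by
    refine (div_le_self (by have := he0 (T.filter fun j => ¬ |μ j| ≤ p); positivity)
      (one_le_pow₀ hP)).trans ?_
    nlinarith [mul_le_mul_of_nonneg_right (one_le_pow₀ hP : (1 : ℝ) ≤ p ^ 4)
      (he0 (T.filter fun j => ¬ |μ j| ≤ p))]
  have h4 : 0 ≤ ∑ m ∈ Icc (-(p : ℤ) ^ 3) (p ^ 3), F m := sum_nonneg fun m _ => hF0 m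
  have h5 : 0 ≤ (∑ i, ∑ k, W i k ^ 2) / (p : ℝ) ^ 2 := by positivity
  have h6 := mul_nonneg (by positivity : (0 : ℝ) ≤ p ^ 4) (he0 (T.filter fun j => |μ j| ≤ p))
  have h7 := mul_nonneg (by positivity : (0 : ℝ) ≤ p ^ 4) (he0 (T.filter fun j => ¬ |μ j| ≤ p))
  rw [← sum_filter_add_sum_filter_not T fun j => |μ j| ≤ p,
    ← sum_filter_add_sum_filter_not T (fun j => |μ j| ≤ p) fun j => ∑ i, e j i ^ 2,
    show Xi p W A = (∑ m ∈ Icc (-(p : ℤ) ^ 3) (p ^ 3), F m) + (∑ i, ∑ k, W i k ^ 2) / p ^ 2 from rfl]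
  rw [mul_div_assoc] at h2
  nlinarith

end Pool.Agent.P.MP_6b977f_mp.RB
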