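import Pool.Agent.P.MP_6b977f_mp.RB.Iface

/-! Step DR1. -/

namespace Pool.Agent.P.MP_6b977f_mp.RB

open Real MeasureTheory ProbabilityTheory Filter Topology Finset Laplacian
open scoped ContDiff ComplexConjugate ENNReal Matrix

namespace DR1A

variable {ι : Type} [Fintype ι]

theorem bes {J : Type} {T : Finset J} {v : J → ι → ℝ}
    (h : ∀ y : ι → ℝ, ∑ j ∈ T, (∑ i, y i * v j i) ^ 2 ≤ ∑ i, y i ^ 2) (y : ι → ℂ) :
    ∑ j ∈ T, ‖∑ i, y i * v j i‖ ^ 2 ≤ ∑ i, ‖y i‖ ^ 2 := by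
  have := add_le_add (h fun i => (y i).re) (h fun i => (y i).im)
  rw [← sum_add_distrib, ← sum_add_distrib] at this
  simp only [Complex.sq_norm, Complex.normSq_apply, Complex.re_sum, Complex.im_sum]
  simpa [sq] using this

theorem p4 {v : ℝ} {a r : ℂ} (h : (v : ℂ) = a + r) (h1 : v ^ 2 ≤ 1) :
    v ^ 4 ≤ 8 * (‖a‖ ^ 2) ^ 2 + 8 * ‖r‖ ^ 2 := by
  have a0 := norm_nonneg a
  have r0 := norm_nonneg r
  by_cases hr : ‖r‖ ≤ 1
  · have e : |v| ≤ ‖a‖ + ‖r‖ := by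
      rw [← Real.norm_eq_abs, ← Complex.norm_real, h]; exact norm_add_le _ _
    have e2 : v ^ 2 ≤ 2 * ‖a‖ ^ 2 + 2 * ‖r‖ ^ 2 := by
      have := pow_le_pow_left₀ (abs_nonneg _) e 2
      rw [sq_abs] at this
      nlinarith [sq_nonneg (‖a‖ - ‖r‖)]
    have e3 := pow_le_pow_left₀ (sq_nonneg _) e2 2
    have e4 : ‖r‖ ^ 2 ≤ 1 := pow_le_one₀ r0 hr
    nlinarith [sq_nonneg (‖a‖ ^ 2 - ‖r‖ ^ 2), mul_nonneg (sq_nonneg ‖r‖) (sub_nonneg.2 e4)]
  · have e4 : 1 ≤ ‖r‖ ^ 2 := one_le_pow₀ (not_le.1 hr).le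
    nlinarith [sq_nonneg v, sq_nonneg (‖a‖ ^ 2)]

theorem pA {A v : ι → ℝ} {a r : ι → ℂ} (hA : ∀ i, |A i| ≤ 2) (h : ∀ i, (v i : ℂ) = a i + r i)
    (h1 : ∑ i, v i ^ 2 ≤ 1) :
    (∑ i, A i * v i ^ 2) ^ 2 ≤ 2 * (∑ i, A i * ‖a i‖ ^ 2) ^ 2 + 72 * ∑ i, ‖r i‖ ^ 2 := by
  set R := ∑ i, ‖r i‖ ^ 2 with hR
  have R0 : 0 ≤ R := by positivity
  by_cases hr : R ≤ 1
  · have e : |(∑ i, A i * v i ^ 2) - ∑ i, A i * ‖a i‖ ^ 2| ≤
        4 * ∑ i, |v i| * ‖r i‖ + 2 * R := by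
      rw [← sum_sub_distrib, hR, mul_sum, mul_sum, ← sum_add_distrib]
      refine (abs_sum_le_sum_abs _ _).trans (sum_le_sum fun i _ => ?_)
      have e1 : ‖a i‖ ^ 2 = v i ^ 2 - 2 * (v i * (r i).re) + ‖r i‖ ^ 2 := by
        rw [show a i = v i - r i by rw [h i]; ring, Complex.sq_norm, Complex.sq_norm,
          Complex.normSq_apply, Complex.normSq_apply]
        simp; ring
      have e2 : |v i * (r i).re| ≤ |v i| * ‖r i‖ := by
        rw [abs_mul]; gcongr; exact Complex.abs_re_le_norm _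
      have e3 : |2 * (v i * (r i).re) - ‖r i‖ ^ 2| ≤ 2 * (|v i| * ‖r i‖) + ‖r i‖ ^ 2 := by
        have := abs_le.1 e2
        exact abs_le.2 ⟨by linarith, by linarith [sq_nonneg ‖r i‖]⟩
      calc _ = |A i| * |2 * (v i * (r i).re) - ‖r i‖ ^ 2| := by
            rw [← abs_mul, e1]; congr 1; ring
        _ ≤ 2 * (2 * (|v i| * ‖r i‖) + ‖r i‖ ^ 2) := by gcongr; exact hA i
        _ = _ := by ring
    have c : (∑ i, |v i| * ‖r i‖) ^ 2 ≤ R := by
      refine (sum_mul_sq_le_sq_mul_sq _ _ _).trans ?_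
      simp only [sq_abs]
      exact mul_le_of_le_one_left R0 h1
    have c0 : 0 ≤ ∑ i, |v i| * ‖r i‖ := by positivity
    have e2 := pow_le_pow_left₀ (abs_nonneg _) e 2
    rw [sq_abs] at e2
    set S := ∑ i, |v i| * ‖r i‖
    have e3 : (4 * S + 2 * R) ^ 2 ≤ 36 * R := by
      nlinarith [sq_nonneg (S - R), mul_nonneg R0 (sub_nonneg.2 hr)]
    nlinarith [sq_nonneg ((∑ i, A i * v i ^ 2) - 2 * ∑ i, A i * ‖a i‖ ^ 2)]
  · have e : |∑ i, A i * v i ^ 2| ≤ 2 := by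
      refine (abs_sum_le_sum_abs _ _).trans ?_
      calc _ ≤ ∑ i, 2 * v i ^ 2 := sum_le_sum fun i _ => by
            rw [abs_mul, abs_sq]; gcongr; exact hA i
        _ ≤ 2 := by rw [← mul_sum]; linarith
    have e2 := pow_le_pow_left₀ (abs_nonneg _) e 2
    rw [sq_abs] at e2
    nlinarith [sq_nonneg (∑ i, A i * ‖a i‖ ^ 2), not_le.1 hr]

theorem quad (A v : ι → ℝ) (G : ι → ι → ℂ) (h1 : ∑ i, v i ^ 2 ≤ 1) :
    (∑ i, A i * ‖∑ k, G i k * v k‖ ^ 2) ^ 2 ≤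
      ∑ k, ‖∑ l, (∑ i, A i * (G i k * conj (G i l))) * v l‖ ^ 2 := by
  have e : ((∑ i, A i * ‖∑ k, G i k * v k‖ ^ 2 : ℝ) : ℂ) =
      ∑ k, v k * ∑ l, (∑ i, A i * (G i k * conj (G i l))) * v l := by
    push_cast
    simp only [← Complex.mul_conj', map_sum, map_mul, Complex.conj_ofReal, sum_mul, mul_sum]
    rw [sum_comm, sum_comm (s := univ) (t := univ) (f := fun k l => ∑ i, (v k : ℂ) *
      (A i * (G i k * conj (G i l)) * v l))]
    refine sum_congr rfl fun l _ => ?_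
    rw [sum_comm]
    exact sum_congr rfl fun k _ => sum_congr rfl fun i _ => by ring
  rw [← sq_abs, ← Real.norm_eq_abs, ← Complex.norm_real, e]
  refine (pow_le_pow_left₀ (norm_nonneg _) (norm_sum_le _ _) 2).trans ?_
  simp only [norm_mul, Complex.norm_real, Real.norm_eq_abs]
  refine (sum_mul_sq_le_sq_mul_sq _ _ _).trans ?_
  simp only [sq_abs]
  exact mul_le_of_le_one_left (by positivity) h1

theorem hs (A : ι → ℝ) (G : ι → ι → ℂ) (F : ι → ι → ℝ) (hF : ∀ i j, F i j = F j i)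
    (h : ∀ i j, ∑ k, G i k * conj (G j k) = F i j) :
    ∑ k, ∑ l, ‖∑ i, A i * (G i k * conj (G i l))‖ ^ 2 = ∑ i, ∑ m, A i * A m * F i m ^ 2 := by
  apply Complex.ofReal_injective
  have e : ∀ i m, ((A i * A m * F i m ^ 2 : ℝ) : ℂ) = ∑ k, ∑ l, A i * (G i k * conj (G i l)) *
      (A m * (conj (G m k) * G m l)) := fun i m => by
    push_cast
    rw [sq, ← h i m]
    conv_lhs => rw [h i m]; arg 2; arg 2; rw [hF, ← h m i]
    rw [← h i m, sum_mul_sum]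
    simp only [mul_sum]
    exact sum_congr rfl fun k _ => sum_congr rfl fun l _ => by ring
  simp only [Complex.ofReal_sum, e]
  push_cast
  simp only [← Complex.mul_conj', map_sum, map_mul, Complex.conj_ofReal, Complex.conj_conj,
    sum_mul_sum]
  calc _ = ∑ k, ∑ i, ∑ l, ∑ m, _ := sum_congr rfl fun k _ => sum_comm
    _ = ∑ i, ∑ k, ∑ l, ∑ m, _ := sum_comm
    _ = ∑ i, ∑ k, ∑ m, ∑ l, _ := sum_congr rfl fun i _ => sum_congr rfl fun k _ => sum_comm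
    _ = _ := sum_congr rfl fun i _ => sum_comm

end DR1A

open DR1A in
theorem p_DR1 (hRES : S_RES) :
    S_DR1 := by
  intro ι _ _ J T E δ W A v e μ hδ hW hA hB h1 hv hμ
  obtain ⟨-, a2, a3, a4, a5, -⟩ := (hRES ι E δ _ hδ rfl).1 W hW
  set z : ℂ := E + δ * Complex.I with hz
  set G := GG W z with hG
  have dec : ∀ j ∈ T, ∀ i, (v j i : ℂ) = (μ j - z) * (∑ k, G i k * v j k) +
      (G *ᵥ fun k => (e j k : ℂ)) i := by
    intro j hj i
    have e1 : (W.map (↑) - z • (1 : Matrix ι ι ℂ)) *ᵥ (fun k => (v j k : ℂ)) =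
        (μ j - z) • (fun k => (v j k : ℂ)) + fun k => (e j k : ℂ) := by
      funext k
      have := congrArg ((↑) : ℝ → ℂ) (congrFun (hv j hj) k)
      rw [Matrix.sub_mulVec, Matrix.smul_mulVec, Matrix.one_mulVec]
      simp only [Matrix.mulVec, dotProduct, Pi.add_apply, Pi.smul_apply, smul_eq_mul,
        Pi.sub_apply, Matrix.map_apply] at this ⊢
      push_cast at this
      rw [this]; ring
    have e2 := congrFun (congrArg (G *ᵥ ·) e1) i
    simp only [Matrix.mulVec_mulVec, a2, Matrix.one_mulVec, Matrix.mulVec_add,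
      Matrix.mulVec_smul] at e2
    exact e2
  have hc : ∀ j ∈ T, ‖μ j - z‖ ^ 2 ≤ 2 * δ ^ 2 := fun j hj => by
    have := pow_le_pow_left₀ (abs_nonneg _) (hμ j hj) 2
    rw [sq_abs] at this
    rw [Complex.sq_norm, Complex.normSq_apply, hz]
    simp
    nlinarith
  have hr : ∀ j, ∑ i, ‖(G *ᵥ fun k => (e j k : ℂ)) i‖ ^ 2 ≤ (∑ i, e j i ^ 2) / δ ^ 2 := fun j => by
    simpa using a4 fun k => (e j k : ℂ)
  have d1 : ∀ i, ∑ j ∈ T, (‖(μ j - z) * ∑ k, G i k * v j k‖ ^ 2) ^ 2 ≤ 4 * FF W E δ i i ^ 2 := by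
    intro i
    refine (sum_sq_le_sq_sum_of_nonneg fun j _ => by positivity).trans ?_
    have w : ∑ k, ‖G i k‖ ^ 2 = (G i i).im / δ := by
      apply Complex.ofReal_injective
      rw [← a5]; push_cast
      exact sum_congr rfl fun k _ => (Complex.mul_conj' _).symm
    calc _ ≤ (2 * FF W E δ i i) ^ 2 := by
          gcongr
          calc _ ≤ ∑ j ∈ T, 2 * δ ^ 2 * ‖∑ k, G i k * v j k‖ ^ 2 := sum_le_sum fun j hj => by
                rw [norm_mul, mul_pow]; gcongr; exact hc j hj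
            _ ≤ 2 * δ ^ 2 * ((G i i).im / δ) := by
                rw [← mul_sum, ← w]; gcongr; exact bes hB _
            _ = _ := by rw [FF]; field_simp; rfl
      _ = _ := by ring
  have hS := hs A G (fun i j => (G i j).im / δ) (fun i j => by rw [a3.apply j i]) a5
  have S0 : ∑ i, ∑ k, A i * A k * FF W E δ i k ^ 2 =
      δ ^ 4 * ∑ k, ∑ l, ‖∑ i, A i * (G i k * conj (G i l))‖ ^ 2 := by
    rw [hS, mul_sum]
    refine sum_congr rfl fun i _ => ?_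
    rw [mul_sum]
    refine sum_congr rfl fun k _ => ?_
    rw [FF]; field_simp; rfl
  have d2 : ∑ j ∈ T, (∑ i, A i * ‖(μ j - z) * ∑ k, G i k * v j k‖ ^ 2) ^ 2 ≤
      4 * ∑ i, ∑ k, A i * A k * FF W E δ i k ^ 2 := by
    calc _ ≤ ∑ j ∈ T, (2 * δ ^ 2) ^ 2 *
          ∑ k, ‖∑ l, (∑ i, A i * (G i k * conj (G i l))) * v j l‖ ^ 2 := sum_le_sum fun j hj => by
          have : ∑ i, A i * ‖(μ j - z) * ∑ k, G i k * v j k‖ ^ 2 =
              ‖μ j - z‖ ^ 2 * ∑ i, A i * ‖∑ k, G i k * v j k‖ ^ 2 := by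
            rw [mul_sum]; exact sum_congr rfl fun i _ => by rw [norm_mul]; ring
          rw [this, mul_pow]
          gcongr
          exacts [hc j hj, quad A _ G (h1 j hj)]
      _ ≤ (2 * δ ^ 2) ^ 2 * ∑ k, ∑ l, ‖∑ i, A i * (G i k * conj (G i l))‖ ^ 2 := by
          rw [← mul_sum, sum_comm]
          gcongr with k
          exact bes hB _
      _ = _ := by rw [S0]; ring
  have S1 : 0 ≤ ∑ i, ∑ k, A i * A k * FF W E δ i k ^ 2 := by rw [S0]; positivity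
  have d3 : ∑ j ∈ T, ∑ i, (‖(μ j - z) * ∑ k, G i k * v j k‖ ^ 2) ^ 2 ≤
      4 * ∑ i, FF W E δ i i ^ 2 := by
    rw [sum_comm, mul_sum]; exact sum_le_sum fun i _ => d1 i
  calc _ ≤ ∑ j ∈ T, (8 * ∑ i, (‖(μ j - z) * ∑ k, G i k * v j k‖ ^ 2) ^ 2 +
        2 * (∑ i, A i * ‖(μ j - z) * ∑ k, G i k * v j k‖ ^ 2) ^ 2 +
        80 * ((∑ i, e j i ^ 2) / δ ^ 2)) := sum_le_sum fun j hj => by
        have b1 := sum_le_sum fun i (_ : i ∈ univ) => p4 (dec j hj i)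
          ((single_le_sum (fun i _ => sq_nonneg (v j i)) (mem_univ i)).trans (h1 j hj))
        have b2 := pA hA (dec j hj) (h1 j hj)
        rw [sum_add_distrib, ← mul_sum, ← mul_sum] at b1
        linarith [hr j]
    _ ≤ _ := by
        simp only [sum_add_distrib, ← mul_sum, ← sum_div]
        rw [mul_div_assoc]
        linarith

end Pool.Agent.P.MP_6b977f_mp.RB
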