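import Pool.Agent.P.MP_6b977f_mp.RB.Iface

/-! Step DZ. -/

namespace Pool.Agent.P.MP_6b977f_mp.RB

open Real MeasureTheory ProbabilityTheory Filter Topology Finset Laplacian
open scoped ContDiff ComplexConjugate ENNReal Matrix

namespace DZA

theorem two_sq {n : ℕ} (h : r2 n ≠ 0) : ∃ x y : ℕ, n = x ^ 2 + y ^ 2 := by
  obtain ⟨ξ, hξ⟩ := card_ne_zero.1 h
  have h1 : ξ.norm = n := (mem_filter.1 hξ).2
  refine ⟨ξ.re.natAbs, ξ.im.natAbs, ?_⟩
  rw [Zsqrtd.norm_def] at h1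
  zify
  rw [sq_abs, sq_abs, ← h1]
  ring

theorem sq_dvd {n q : ℕ} (hn : n ≠ 0) (h : r2 n ≠ 0) (hq : q.Prime) (h3 : q % 4 = 3)
    (hd : q ∣ n) : q ^ 2 ∣ n := by
  have := Fact.mk hq
  have h1 := Nat.eq_sq_add_sq_iff.1 (two_sq h) q (Nat.mem_primeFactors.2 ⟨hq, hd, hn⟩) h3
  have h2 : 1 ≤ padicValNat q n := one_le_padicValNat_of_dvd hn hd
  rw [padicValNat_dvd_iff_le hn]
  obtain ⟨k, hk⟩ := h1
  omega

theorem ex_T (hQ3 : S_Q3) (Q : ℕ) (A : ℝ) : ∃ T : Finset ℕ,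
    (∀ q ∈ T, q.Prime ∧ q % 4 = 3 ∧ Q < q) ∧ A ≤ ∑ q ∈ T, (1 / q : ℝ) := by
  have h := (not_summable_iff_tendsto_nat_atTop_of_nonneg (fun q => by
    split_ifs <;> positivity)).1 hQ3
  obtain ⟨n, hn⟩ := (h.eventually_ge_atTop (A + (Q + 1))).exists
  refine ⟨(range n).filter fun q => (q.Prime ∧ q % 4 = 3) ∧ Q < q, fun q hq => ?_, ?_⟩
  · have := (mem_filter.1 hq).2
    exact ⟨this.1.1, this.1.2, this.2⟩
  · rw [← sum_filter, ← sum_filter_add_sum_filter_not _ fun q => Q < q, filter_filter] at hn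
    have h2 : ∑ q ∈ ((range n).filter fun q => q.Prime ∧ q % 4 = 3).filter fun q => ¬Q < q,
        (1 / q : ℝ) ≤ Q + 1 := by
      calc _ ≤ ∑ q ∈ range (Q + 1), (1 / q : ℝ) := by
            refine sum_le_sum_of_subset_of_nonneg (fun q hq => ?_) fun _ _ _ => by positivity
            have := (mem_filter.1 hq).2
            exact mem_range.2 (by omega)
        _ ≤ ∑ q ∈ range (Q + 1), (1 : ℝ) := by
            refine sum_le_sum fun q _ => ?_
            rcases Nat.eq_zero_or_pos q with rfl | hq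
            · simp
            · exact (div_le_one (by positivity)).2 (by exact_mod_cast hq)
        _ = Q + 1 := by simp
    linarith

theorem tot_le (T : Finset ℕ) (hT : ∀ q ∈ T, q.Prime) :
    ((∏ q ∈ T, q).totient : ℝ) ≤ (∏ q ∈ T, q : ℕ) * Real.exp (-∑ q ∈ T, (1 / q : ℝ)) := by
  have h := Nat.totient_eq_mul_prod_factors (∏ q ∈ T, q)
  rw [Nat.primeFactors_prod hT] at h
  have h2 : ((∏ q ∈ T, q).totient : ℝ) = (∏ q ∈ T, q : ℕ) * ∏ p ∈ T, (1 - (p : ℝ)⁻¹) := by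
    simpa using congrArg (fun x : ℚ => (x : ℝ)) h
  rw [h2, ← sum_neg_distrib, Real.exp_sum]
  refine mul_le_mul_of_nonneg_left (prod_le_prod (fun q hq => ?_) fun q _ => ?_) (by positivity)
  · have : (1 : ℝ) ≤ q := by exact_mod_cast (hT q hq).one_le
    exact sub_nonneg.2 (inv_le_one_of_one_le₀ this)
  · rw [one_div]
    exact Real.one_sub_le_exp_neg _

theorem cnt_sq (Q N : ℕ) (hQ : Q ≠ 0) :
    (((Ioc Q N).biUnion fun d => (Ioc 0 N).filter fun n => d ^ 2 ∣ n).card : ℝ) ≤ N / Q := by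
  rcases le_or_gt Q N with h | h
  · calc _ ≤ ((∑ d ∈ Ioc Q N, ((Ioc 0 N).filter fun n => d ^ 2 ∣ n).card : ℕ) : ℝ) := by
          exact_mod_cast card_biUnion_le
      _ ≤ ∑ d ∈ Ioc Q N, (N : ℝ) * ((d : ℝ) ^ 2)⁻¹ := by
          push_cast
          refine sum_le_sum fun d _ => ?_
          rw [Nat.Ioc_filter_dvd_card_eq_div, ← div_eq_mul_inv]
          exact Nat.cast_div_le.trans (by push_cast; rfl)
      _ ≤ N * ((Q : ℝ)⁻¹ - (N : ℝ)⁻¹) := by
          rw [← mul_sum]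
          exact mul_le_mul_of_nonneg_left (sum_Ioc_inv_sq_le_sub hQ h) (by positivity)
      _ ≤ N / Q := by
          rw [div_eq_mul_inv]
          exact mul_le_mul_of_nonneg_left (sub_le_self _ (by positivity)) (by positivity)
  · rw [Ioc_eq_empty (by omega)]
    simp only [biUnion_empty, card_empty, Nat.cast_zero]
    positivity

end DZA

theorem p_DZ (hQ3 : S_Q3) :
    S_DZ := by
  intro ε hε
  obtain ⟨Q, hQ⟩ := exists_nat_gt (3 / ε)
  have hQ0 : (0 : ℝ) < Q := lt_trans (by positivity) hQ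
  have hQ1 : Q ≠ 0 := by exact_mod_cast hQ0.ne'
  obtain ⟨T, hT, hA⟩ := DZA.ex_T hQ3 Q (-Real.log (ε / 3))
  set M := ∏ q ∈ T, q with hM
  have hM0 : M ≠ 0 := prod_ne_zero_iff.2 fun q hq => (hT q hq).1.ne_zero
  have hMp : (0 : ℝ) < M := by exact_mod_cast Nat.pos_of_ne_zero hM0
  have htot : (M.totient : ℝ) ≤ M * (ε / 3) := by
    refine (DZA.tot_le T fun q hq => (hT q hq).1).trans (mul_le_mul_of_nonneg_left ?_ hMp.le)
    rw [← Real.exp_log (show 0 < ε / 3 by positivity)]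
    exact Real.exp_le_exp.2 (by linarith)
  filter_upwards [eventually_ge_atTop M] with N hN
  have hN' : (M : ℝ) ≤ N := by exact_mod_cast hN
  have hsub : ((Icc 1 N).filter fun n => r2 n ≠ 0) ⊆
      ((Ico 1 (1 + N)).filter fun x => M.Coprime x) ∪
        (Ioc Q N).biUnion fun d => (Ioc 0 N).filter fun n => d ^ 2 ∣ n := by
    intro n hn
    obtain ⟨h1, h2⟩ := mem_filter.1 hn
    rw [mem_Icc] at h1
    by_cases hc : M.Coprime n
    · exact mem_union_left _ (mem_filter.2 ⟨mem_Ico.2 ⟨h1.1, by omega⟩, hc⟩)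
    · rw [hM, Nat.coprime_prod_left_iff] at hc
      push Not at hc
      obtain ⟨q, hq, hqn⟩ := hc
      obtain ⟨hp, h3, hQq⟩ := hT q hq
      have hd : q ∣ n := by
        by_contra hd
        exact hqn ((Nat.Prime.coprime_iff_not_dvd hp).2 hd)
      refine mem_union_right _ (mem_biUnion.2 ⟨q, mem_Ioc.2 ⟨hQq, ?_⟩,
        mem_filter.2 ⟨mem_Ioc.2 ⟨h1.1, h1.2⟩, DZA.sq_dvd (by omega) h2 hp h3 hd⟩⟩)
      exact (Nat.le_of_dvd h1.1 hd).trans h1.2
  have h1 : ((((Ico 1 (1 + N)).filter fun x => M.Coprime x).card : ℕ) : ℝ) ≤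
      M * (ε / 3) * (N / M + 1) := by
    calc _ ≤ ((M.totient * (N / M + 1) : ℕ) : ℝ) := by
          exact_mod_cast Nat.Ico_filter_coprime_le 1 N hM0
      _ ≤ _ := by
          push_cast
          exact mul_le_mul htot (by linarith [Nat.cast_div_le (α := ℝ) (m := N) (n := M)])
            (by positivity) (by positivity)
  have h2 := DZA.cnt_sq Q N hQ1
  have h3 : (N : ℝ) / Q ≤ ε / 3 * N := by
    rw [div_le_iff₀ hQ0]
    rw [div_lt_iff₀ hε] at hQ
    have : (0 : ℝ) ≤ N := by positivity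
    nlinarith
  have h4 : (M : ℝ) * (ε / 3) * (N / M + 1) = ε / 3 * N + ε / 3 * M := by field_simp
  have h5 : ((((Icc 1 N).filter fun n => r2 n ≠ 0).card : ℕ) : ℝ) ≤
      ((((Ico 1 (1 + N)).filter fun x => M.Coprime x).card : ℕ) : ℝ) +
      (((Ioc Q N).biUnion fun d => (Ioc 0 N).filter fun n => d ^ 2 ∣ n).card : ℝ) := by
    exact_mod_cast (card_le_card hsub).trans (card_union_le _ _)
  nlinarith

end Pool.Agent.P.MP_6b977f_mp.RB
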