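import Pool.Agent.P.MP_6b977f_mp.RB.Iface

/-! Step EB1. -/

namespace Pool.Agent.P.MP_6b977f_mp.RB

open Real MeasureTheory ProbabilityTheory Filter Topology Finset Laplacian
open scoped ContDiff ComplexConjugate ENNReal Matrix

namespace EB1A

/-- Column bound. -/
def Col (n : ℤ) (V : Finset II) (c R : ℝ) : Prop :=
  ∀ (a : ℕ) (B : Finset ℕ), (∀ b ∈ B, (a, b) ∈ V) → ∑ b ∈ B, 1 / DD n (a, b) ≤ c / (R + a)

lemma s2_nonneg (σ : ℕ → ℝ) (a b : ℕ) : 0 ≤ s2 σ a b := by unfold s2; positivity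

lemma DD_pos (n : ℤ) (ξ : II) : 0 < DD n ξ := one_pos.trans_le (one_le_DD n ξ)

lemma kers_nonneg (σ : ℕ → ℝ) (n : ℤ) (p : II × II) : 0 ≤ kers σ n p :=
  div_nonneg (s2_nonneg _ _ _) (mul_pos (DD_pos _ _) (DD_pos _ _)).le

lemma kers_comm (σ : ℕ → ℝ) (n : ℤ) (ξ η : II) : kers σ n (ξ, η) = kers σ n (η, ξ) := by
  simp only [kers, s2]
  rw [Nat.dist_comm, add_comm ξ.1, mul_comm]

lemma col {n : ℤ} {V : Finset II} {c R : ℝ} (h : Col n V c R) (φ : ℕ → ℝ) (h0 : ∀ a, 0 ≤ φ a) :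
    ∑ η ∈ V, φ η.1 * (1 / DD n η) ≤ ∑ a ∈ V.image Prod.fst, φ a * (c / (R + a)) := by
  rw [← sum_fiberwise_of_maps_to (g := Prod.fst) (fun η hη => mem_image_of_mem _ hη)]
  refine sum_le_sum fun a _ => le_trans (le_of_eq ?_) (mul_le_mul_of_nonneg_left
    (h a ((V.filter (·.1 = a)).image Prod.snd) (forall_mem_image.2 fun η hη => ?_)) (h0 a))
  · rw [sum_image fun p hp q hq e => Prod.ext
      ((mem_filter.1 hp).2.trans (mem_filter.1 hq).2.symm) e, mul_sum]
    exact sum_congr rfl fun η hη => by rw [← (mem_filter.1 hη).2]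
  · rw [← (mem_filter.1 hη).2]
    exact (mem_filter.1 hη).1

lemma half (σ : ℕ → ℝ) {n : ℤ} {V : Finset II} {c R : ℝ} (h : Col n V c R) (ξ : II) :
    ∑ η ∈ V, kers σ n (ξ, η) ≤
      (∑ b ∈ V.image Prod.fst, s2 σ ξ.1 b * (c / (R + b))) * (1 / DD n ξ) := by
  refine le_trans (le_of_eq ?_) (mul_le_mul_of_nonneg_right (col h (s2 σ ξ.1) (s2_nonneg σ _))
    (one_div_pos.2 (DD_pos n ξ)).le)
  rw [sum_mul]
  refine sum_congr rfl fun η _ => ?_
  simp only [kers]
  rw [mul_assoc, one_div_mul_one_div, mul_one_div, mul_comm (DD n η)]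

lemma two (hSS : S_SS) {σ : ℕ → ℝ} (hσ : SV0 σ) {n : ℤ} {V : Finset II} {c R : ℝ} (hR : 1 ≤ R)
    (hc : 0 ≤ c) (h : Col n V c R) :
    ∑ ξ ∈ V, ∑ η ∈ V, kers σ n (ξ, η) ≤ c ^ 2 * (20 * T1 σ R) := by
  refine (sum_le_sum fun ξ _ => half σ h ξ).trans ((col h
    (fun a => ∑ b ∈ V.image Prod.fst, s2 σ a b * (c / (R + b))) fun a => sum_nonneg fun b _ =>
      mul_nonneg (s2_nonneg _ _ _) (by positivity)).trans (le_trans (le_of_eq ?_)
      (mul_le_mul_of_nonneg_left ((hSS σ R hσ hR).1 (V.image Prod.fst ×ˢ V.image Prod.fst))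
        (sq_nonneg c))))
  rw [sum_product, mul_sum]
  refine sum_congr rfl fun a _ => ?_
  rw [sum_mul, mul_sum]
  refine sum_congr rfl fun b _ => ?_
  have : 0 < R + a := by positivity
  have : 0 < R + b := by positivity
  field_simp

lemma cover (f : II × II → ℝ) (h0 : ∀ p, 0 ≤ f p) (W : Finset (II × II)) :
    ∃ U : Finset II, ∑ p ∈ W, f p ≤ ∑ ξ ∈ U, ∑ η ∈ U, f (ξ, η) := by
  refine ⟨W.image Prod.fst ∪ W.image Prod.snd, ?_⟩
  rw [← sum_product]
  exact sum_le_sum_of_subset_of_nonneg (fun p hp => mem_product.2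
    ⟨mem_union_left _ (mem_image_of_mem _ hp), mem_union_right _ (mem_image_of_mem _ hp)⟩)
    fun _ _ _ => h0 _

end EB1A

open EB1A in
theorem p_EB1 (hPHI : S_PHI) (hSS : S_SS) (hHS0 : S_HS0) :
    S_EB1 := by
  intro σ hσ
  refine ⟨fun n => summable_of_sum_le (kers_nonneg σ n)
    (c := ((2 + |(n : ℝ)|) * 6) ^ 2 * (20 * T1 σ 1)) fun W => ?_, 20480, fun n X hX hn => ?_⟩
  · obtain ⟨U, hU⟩ := cover _ (kers_nonneg σ n) W
    refine hU.trans (two hSS hσ le_rfl (by positivity) fun a B _ => ?_)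
    rw [mul_div_assoc]
    refine le_trans ?_ (mul_le_mul_of_nonneg_left (hPHI.2.1 a B) (by positivity))
    rw [mul_sum]
    refine sum_le_sum fun b _ => ?_
    rw [mul_one_div, div_le_div_iff₀ (DD_pos _ _) (by positivity), one_mul]
    exact (hHS0.2.2.2.2 n (a, b)).1
  · refine Real.tsum_le_of_sum_le (kers_nonneg σ n) fun W => ?_
    obtain ⟨U, hU⟩ := cover _ (kers_nonneg σ n) W
    have hR : (1 : ℝ) ≤ √X := one_le_sqrt.2 (by exact_mod_cast (by omega : 1 ≤ X))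
    have hC : Col n (U.filter (· ∉ Box X)) 32 √X := fun a B hB => by
      have h1 : ∀ b ∈ B, X < dd (a, b) := fun b hb =>
        not_le.1 (mt mem_Box.2 (mem_filter.1 (hB b hb)).2)
      refine le_trans ?_ ((mul_le_mul_of_nonneg_left (hPHI.2.2.1 X a B hX h1)
        zero_le_two).trans_eq (by ring))
      rw [mul_sum]
      refine sum_le_sum fun b hb => ?_
      have h2 : (X : ℝ) < dd (a, b) := by exact_mod_cast h1 b hb
      have h3 : 2 * (n : ℝ) ≤ X := by exact_mod_cast hn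
      have h4 : (dd (a, b) : ℝ) - (n : ℤ) ≤ DD n (a, b) := (le_abs_self _).trans (le_max_right _ _)
      rw [mul_one_div, div_le_div_iff₀ (DD_pos _ _) ((Nat.cast_nonneg X).trans_lt h2)]
      push_cast at h4
      linarith
    have t0 : 0 ≤ T0 σ √X := tsum_nonneg fun k => by positivity
    have t1 : 0 ≤ T1 σ √X := tsum_nonneg fun k => by
      have := log_natCast_nonneg k
      positivity
    have sub : U.filter (· ∈ Box X) ⊆ Box X := fun ξ h => (mem_filter.1 h).2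
    have p0 : ∀ ξ, 0 ≤ 1 / DD n ξ := fun ξ => (one_div_pos.2 (DD_pos n ξ)).le
    have a1 : ∑ ξ ∈ U with ξ ∈ Box X, ∑ η ∈ U with η ∈ Box X, kers σ n (ξ, η) ≤ LL σ n X := by
      rw [← sum_product]
      exact sum_le_sum_of_subset_of_nonneg (product_subset_product sub sub)
        fun _ _ _ => kers_nonneg _ _ _
    have a2 : ∑ ξ ∈ U with ξ ∈ Box X, ∑ η ∈ U with η ∉ Box X, kers σ n (ξ, η) ≤
        32 * (6 * T0 σ √X) * Psi n X := by
      rw [Psi, mul_sum]
      refine (sum_le_sum fun ξ hξ => (half σ hC ξ).trans (mul_le_mul_of_nonneg_right ?_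
        (p0 ξ))).trans (sum_le_sum_of_subset_of_nonneg sub fun ξ _ _ =>
          mul_nonneg (by positivity) (p0 ξ))
      have h1 : ξ.1 ^ 2 ≤ X := (Nat.le_add_right _ _).trans (mem_Box.1 (sub hξ))
      refine le_trans (le_of_eq ?_) (mul_le_mul_of_nonneg_left ((hSS σ _ hσ hR).2 ξ.1
        ((U.filter (· ∉ Box X)).image Prod.fst) (le_sqrt_of_sq_le (by exact_mod_cast h1)))
        (by norm_num))
      rw [mul_sum]
      exact sum_congr rfl fun b _ => by ring
    have a3 : ∑ ξ ∈ U with ξ ∉ Box X, ∑ η ∈ U with η ∈ Box X, kers σ n (ξ, η) ≤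
        32 * (6 * T0 σ √X) * Psi n X := by
      rw [sum_comm]
      exact le_trans (le_of_eq (sum_congr rfl fun ξ _ => sum_congr rfl fun η _ =>
        kers_comm σ n η ξ)) a2
    have a4 := two hSS hσ hR (by norm_num) hC
    have a5 : 0 ≤ T0 σ √X * Psi n X := mul_nonneg t0 (sum_nonneg fun ξ _ => p0 ξ)
    rw [← sum_filter_add_sum_filter_not U (· ∈ Box X)] at hU
    simp only [← sum_filter_add_sum_filter_not U (· ∈ Box X) fun η => kers σ n (_, η),
      sum_add_distrib] at hU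
    linarith

end Pool.Agent.P.MP_6b977f_mp.RB
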