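import Pool.Agent.P.MP_6b977f_mp.RB.Iface

/-! Step EBS. -/

namespace Pool.Agent.P.MP_6b977f_mp.RB

open Real MeasureTheory ProbabilityTheory Filter Topology Finset Laplacian
open scoped ContDiff ComplexConjugate ENNReal Matrix

namespace EBSA

theorem dv {u : ℝ} {m q j : ℕ} (h0 : 0 ≤ u) (hu : u ^ 200 = 2 ^ m) (hq : j * q = 200) :
    ((2 ^ (m / q) : ℕ) : ℝ) ≤ u ^ j ∧ u ^ j ≤ 2 * ((2 ^ (m / q) : ℕ) : ℝ) := by
  have q0 : q ≠ 0 := by rintro rfl; simp at hq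
  push_cast
  constructor
  · rw [← pow_le_pow_iff_left₀ (by positivity) (by positivity) q0, ← pow_mul, ← pow_mul, hq, hu]
    exact pow_le_pow_right₀ one_le_two (Nat.div_mul_le_self _ _)
  · rw [← pow_succ', ← pow_le_pow_iff_left₀ (by positivity) (by positivity) q0, ← pow_mul,
      ← pow_mul, hq, hu]
    refine pow_le_pow_right₀ one_le_two ?_
    rw [mul_comm]
    exact (Nat.lt_mul_div_succ m (Nat.pos_of_ne_zero q0)).le

theorem big {u : ℝ} {m : ℕ} (h1 : 1 ≤ u) (hu : u ^ 200 = 2 ^ m) :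
    ((2 ^ (m + 2) : ℕ) : ℝ) ^ (1 / 2 + 1 / 100 : ℝ) * ((((2 ^ (m / 40) : ℕ) : ℝ) +
      ((2 ^ (m / 10) : ℕ) : ℝ) + 1) * (((2 ^ (m / 10) : ℕ) : ℝ) + 1) ^ 2) ≤ 48 * u ^ 198 := by
  have h0 : 0 ≤ u := by linarith
  have a := (dv (q := 40) (j := 5) h0 hu rfl).1.trans (pow_le_pow_right₀ h1 (show 5 ≤ 20 by omega))
  have b := (dv (q := 10) (j := 20) h0 hu rfl).1
  have c : 1 ≤ u ^ 20 := one_le_pow₀ h1
  have d : ((2 ^ (m + 2) : ℕ) : ℝ) ^ (1 / 2 + 1 / 100 : ℝ) ≤ 4 * u ^ 102 := by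
    have e : ((2 ^ (m + 2) : ℕ) : ℝ) = 4 * u ^ 200 := by
      rw [hu]; push_cast; ring
    rw [e, mul_rpow (by norm_num) (by positivity), ← rpow_natCast u 200, ← rpow_mul h0,
      ← rpow_natCast u 102]
    refine mul_le_mul ?_ (le_of_eq (by norm_num)) (by positivity) (by norm_num)
    conv_rhs => rw [← rpow_one 4]
    exact rpow_le_rpow_of_exponent_le (by norm_num) (by norm_num)
  calc _ ≤ 4 * u ^ 102 * ((u ^ 20 + u ^ 20 + u ^ 20) * (u ^ 20 + u ^ 20) ^ 2) := by gcongr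
    _ = 48 * u ^ 162 := by ring
    _ ≤ _ := mul_le_mul_of_nonneg_left (pow_le_pow_right₀ h1 (by omega)) (by norm_num)

theorem rat {u : ℝ} {m : ℕ} (h1 : 1 ≤ u) (hu : u ^ 200 = 2 ^ m) :
    (((2 ^ (m / 40) : ℕ) : ℝ) + 1) / √((2 ^ (m / 10) : ℕ) : ℝ) ≤ 4 * u⁻¹ ^ 2 := by
  have h0 : 0 < u := by linarith
  have a := (dv (q := 40) (j := 5) h0.le hu rfl).1
  have b := (dv (q := 10) (j := 20) h0.le hu rfl).2
  have c : 1 ≤ u ^ 5 := one_le_pow₀ h1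
  have d : u ^ 7 / 2 ≤ √((2 ^ (m / 10) : ℕ) : ℝ) := by
    refine le_sqrt_of_sq_le ?_
    have : u ^ 14 ≤ u ^ 20 := pow_le_pow_right₀ h1 (by omega)
    have e : (u ^ 7 / 2) ^ 2 = u ^ 14 / 4 := by ring
    have : (0 : ℝ) ≤ ((2 ^ (m / 10) : ℕ) : ℝ) := Nat.cast_nonneg _
    linarith
  calc _ ≤ (u ^ 5 + u ^ 5) / (u ^ 7 / 2) := by gcongr
    _ = _ := by field_simp; norm_num

theorem psi0 (n X : ℕ) : 0 ≤ Psi n X :=
  sum_nonneg fun ξ _ => div_nonneg zero_le_one (zero_le_one.trans (one_le_DD _ ξ))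

theorem k0 (σ : ℕ → ℝ) (n : ℤ) (p : II × II) : 0 ≤ kers σ n p :=
  div_nonneg (add_nonneg (sq_nonneg _) (sq_nonneg _))
    (mul_nonneg (zero_le_one.trans (one_le_DD _ _)) (zero_le_one.trans (one_le_DD _ _)))

end EBSA

open EBSA in
theorem p_EBS (hEB1 : S_EB1) (hEB2 : S_EB2) (hPSI : S_PSI) :
    S_EBS := by
  intro σ h
  obtain ⟨-, C1, h1⟩ := hEB1 σ h.toSV0
  obtain ⟨C2, h2⟩ := hEB2 (1 / 100) (by norm_num)
  obtain ⟨CP, hP⟩ := hPSI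
  obtain ⟨Cc, hc⟩ := h.cmp
  obtain ⟨C0, ht0⟩ := h.t0
  obtain ⟨Ct, ht1⟩ := h.t1
  set r : ℝ := 2 ^ (1 / 200 : ℝ) with hr
  have r1 : 1 < r := one_lt_rpow one_lt_two (by norm_num)
  have r2 : r ^ 200 = 2 := by
    rw [hr, ← rpow_natCast, ← rpow_mul zero_le_two]; norm_num
  have r0 : 0 ≤ r⁻¹ := by positivity
  have r3 : r⁻¹ < 1 := inv_lt_one_of_one_lt₀ r1
  have g1 := summable_geometric_of_lt_one r0 r3
  have g2 := summable_pow_mul_geometric_of_norm_lt_one 1 (r := r⁻¹)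
    (by rwa [Real.norm_of_nonneg r0])
  refine Summable.of_norm_bounded_eventually_nat
    ((h.sum3.mul_left (2 * Cc ^ 2 * CP + |C1| * (C0 * CP + Ct))).add
      ((g1.mul_left (|C2| * σ 1 ^ 2 * 48)).add (g2.mul_left (|C2| * σ 1 ^ 2 * (4 * CP))))) ?_
  filter_upwards [hc, ht0, ht1, h.low (1 / 200) (by norm_num), eventually_ge_atTop 1]
    with m hc ht0 ht1 hl hm
  obtain ⟨p1, p2⟩ := hP m hm
  have u1 : 1 ≤ r ^ m := one_le_pow₀ r1.le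
  have hu : (r ^ m) ^ 200 = 2 ^ m := by rw [pow_right_comm, r2]
  rw [rpow_neg zero_le_two, rpow_mul zero_le_two, rpow_natCast, ← hr] at hl
  rw [inv_pow, pow_one]
  have b1 := big u1 hu
  have b2 := rat u1 hu
  have e2 := h2 σ (blk m) (2 ^ (m + 2)) (2 ^ (m / 40)) (2 ^ (m / 10)) h.toSV0 Nat.one_le_two_pow
    (by rw [← pow_succ', ← pow_mul]; exact Nat.pow_le_pow_right two_pos (by omega))
  have e1 : ∑ n ∈ blk m, ∑' p, kers σ n p ≤ ∑ n ∈ blk m, LL σ n (2 ^ (m + 2)) +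
      C1 * (T0 σ √(2 ^ (m + 2)) * ∑ n ∈ blk m, Psi n (2 ^ (m + 2)) +
        2 ^ m * T1 σ √(2 ^ (m + 2))) := by
    refine (sum_le_sum fun n hn => h1 n (2 ^ (m + 2))
      (Nat.pow_le_pow_right two_pos (Nat.le_add_left 2 m))
      (by have := (mem_blk.1 hn).2; rw [pow_add] at this ⊢; omega)).trans_eq ?_
    have : #(blk m) = 2 ^ m := by rw [blk, Nat.card_Ico, pow_succ]; omega
    rw [sum_add_distrib, ← mul_sum, sum_add_distrib, ← mul_sum, sum_const, this, nsmul_eq_mul]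
    push_cast
    rfl
  have s0 : 0 < sb σ m := h.pos _ Nat.one_le_two_pow
  have a0 : 0 ≤ σ (2 ^ (m / 40) + 1) := (h.pos _ (Nat.le_add_left _ _)).le
  have t0 : 0 ≤ T0 σ √(2 ^ (m + 2)) := tsum_nonneg fun k => by positivity
  have t1 : 0 ≤ T1 σ √(2 ^ (m + 2)) := tsum_nonneg fun k => by
    have := log_natCast_nonneg k
    positivity
  have P1 : 0 ≤ ∑ n ∈ blk m, Psi n (2 ^ (m + 2)) := sum_nonneg fun n _ => psi0 _ _
  have P2 : 0 ≤ ∑ n ∈ blk m, Psi n (2 ^ (m + 2)) ^ 2 := sum_nonneg fun n _ => sq_nonneg _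
  have N0 : (0 : ℝ) < 2 ^ m := by positivity
  have S0 : 0 ≤ ∑ n ∈ blk m, ∑' p, kers σ n p := sum_nonneg fun n _ => tsum_nonneg (k0 σ n)
  rw [Real.norm_of_nonneg (by positivity), div_le_iff₀ (by positivity)]
  have c0 := P1.trans p1
  have c1 := t0.trans ht0
  have b3 : 48 * (r ^ m) ^ 198 ≤ 48 * ((r ^ m)⁻¹ * (2 ^ m * sb σ m)) := by
    calc _ = 48 * ((r ^ m)⁻¹ * (2 ^ m * (r ^ m)⁻¹)) := by rw [← hu]; field_simp
      _ ≤ _ := by gcongr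
  have b4 : 4 * (r ^ m)⁻¹ ^ 2 ≤ 4 * ((r ^ m)⁻¹ * sb σ m) := by rw [sq]; gcongr
  calc _ ≤ _ := e1
    _ ≤ (2 * (Cc * sb σ m) ^ 2 * (CP * 2 ^ m * m ^ 3) + |C2| * σ 1 ^ 2 *
        (48 * ((r ^ m)⁻¹ * (2 ^ m * sb σ m)) + 4 * ((r ^ m)⁻¹ * sb σ m) * (CP * 2 ^ m * m))) +
        |C1| * (C0 * m ^ 2 * sb σ m ^ 2 * (CP * 2 ^ m * m) + 2 ^ m * (Ct * m ^ 3 * sb σ m ^ 2)) := by
      refine add_le_add (e2.trans (add_le_add (by gcongr) ?_)) ?_
      · refine mul_le_mul (by gcongr; exact le_abs_self _) (add_le_add (b1.trans b3) ?_)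
          (by positivity) (by positivity)
        exact mul_le_mul (b2.trans b4) p1 P1 (by positivity)
      · exact mul_le_mul (le_abs_self C1) (by gcongr) (by positivity) (abs_nonneg _)
    _ = _ := by ring

end Pool.Agent.P.MP_6b977f_mp.RB
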