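import Pool.Agent.P.MP_6b977f_mp.RB.Iface

/-! Step EPS. -/

namespace Pool.Agent.P.MP_6b977f_mp.RB

open Real MeasureTheory ProbabilityTheory Filter Topology Finset Laplacian
open scoped ContDiff ComplexConjugate ENNReal Matrix

namespace EPSA

variable {ι : Type} [Fintype ι] [DecidableEq ι]

omit [Fintype ι] in
theorem zr_symm {W : Matrix ι ι ℝ} (hW : W.IsSymm) (i : ι) : (zr W i).IsSymm :=
  Matrix.IsSymm.ext fun k l => by
    simp only [zr, Matrix.of_apply, hW.apply k l, or_comm]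

omit [DecidableEq ι] in
theorem wig_symm (y : ι × ι → ℝ) : (Wig y).IsSymm :=
  Matrix.IsSymm.ext fun k l => by simp only [Wig, Matrix.of_apply, add_comm]

/-- Symmetric part. -/
noncomputable def sy (Z : ι → ι → ℝ) : Matrix ι ι ℝ := Matrix.of fun k l => (Z k l + Z l k) / 2

/-- The resolvent of the minor. -/
noncomputable def Bm (z : ℂ) (i : ι) (Z : ι → ι → ℝ) (k l : ι) : ℂ :=
  if k = i ∨ l = i then 0 else GG (sy Z) z k l

theorem Bm_eq {W : Matrix ι ι ℝ} (hW : W.IsSymm) (z : ℂ) (i k l : ι) :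
    Bm z i (fun k l => W k l) k l = if k = i ∨ l = i then 0 else GG W z k l := by
  have : sy (fun k l => W k l) = W := by
    ext a b
    simp only [sy, Matrix.of_apply, hW.apply a b]; ring
  rw [Bm, this]

theorem four (a b c d : ℂ) :
    ‖a - b + c + d‖ ^ 2 ≤ 4 * (‖a‖ ^ 2 + ‖b‖ ^ 2 + ‖c‖ ^ 2 + ‖d‖ ^ 2) := by
  have h : ‖a - b + c + d‖ ≤ ‖a‖ + ‖b‖ + ‖c‖ + ‖d‖ :=
    (norm_add_le _ _).trans (by
      have := norm_add_le (a - b) c
      have := norm_sub_le a b
      linarith)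
  have := pow_le_pow_left₀ (norm_nonneg _) h 2
  nlinarith [sq_nonneg (‖a‖ - ‖b‖), sq_nonneg (‖a‖ - ‖c‖), sq_nonneg (‖a‖ - ‖d‖),
    sq_nonneg (‖b‖ - ‖c‖), sq_nonneg (‖b‖ - ‖d‖), sq_nonneg (‖c‖ - ‖d‖)]

theorem point (hRES : S_RES) (hSCHUR : S_SCHUR) {E δ : ℝ} (hδ : 0 < δ) {W : Matrix ι ι ℝ}
    (hW : W.IsSymm) (i : ι) {z : ℂ} (hz : z = E + δ * Complex.I) :
    ‖eps W z i‖ ^ 2 ≤ 4 * ‖(∑ k, ∑ l, (W i k : ℂ) * Bm z i (fun k l => zr W i k l) k l * W i l) -
      ∑ k, (((if k = i then 2 else 1) / Fintype.card ι : ℝ) : ℂ) *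
        Bm z i (fun k l => zr W i k l) k k‖ ^ 2 +
      4 * (W i i ^ 2 + (4 / ((Fintype.card ι : ℝ) ^ 2 * δ ^ 4) * ∑ k, W i k ^ 2) +
        1 / ((Fintype.card ι : ℝ) ^ 2 * δ ^ 2)) := by
  obtain ⟨-, -, -, -, -, b6, -⟩ := (hRES ι E δ z hδ hz).1 _ (zr_symm hW i)
  have s2 := (hSCHUR ι E δ z W i hδ hz hW).2
  have hN : (0 : ℝ) < Fintype.card ι := Nat.cast_pos.2 (Fintype.card_pos_iff.2 ⟨i⟩)
  simp only [Bm_eq (zr_symm hW i)]
  set H := GG (zr W i) z with hH
  have e1 : (∑ k, ∑ l, (W i k : ℂ) * (if k = i ∨ l = i then 0 else H k l) * W i l) = qf W z i :=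
    sum_congr rfl fun k _ => sum_congr rfl fun l _ => by split_ifs <;> simp [hH]
  have e2 : ∑ k, (((if k = i then 2 else 1) / Fintype.card ι : ℝ) : ℂ) *
      (if k = i ∨ k = i then 0 else H k k) = ((∑ k, H k k) - H i i) / Fintype.card ι := by
    rw [← sum_erase_eq_sub (mem_univ i), sum_div, ← add_sum_erase _ _ (mem_univ i)]
    simp only [or_self, if_true, mul_zero, zero_add]
    refine sum_congr rfl fun k hk => ?_
    simp only [if_neg (ne_of_mem_erase hk)]
    push_cast; ring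
  rw [e1, e2]
  have e3 : eps W z i = W i i - (qf W z i - ((∑ k, H k k) - H i i) / Fintype.card ι) +
      ((∑ k, GG W z k k) - ∑ k, H k k) / Fintype.card ι + H i i / Fintype.card ι := by
    rw [eps]; ring
  rw [e3]
  refine (four _ _ _ _).trans ?_
  have c1 : ‖((∑ k, GG W z k k) - ∑ k, H k k) / (Fintype.card ι : ℂ)‖ ^ 2 ≤
      4 / ((Fintype.card ι : ℝ) ^ 2 * δ ^ 4) * ∑ k, W i k ^ 2 := by
    rw [norm_div, Complex.norm_natCast]
    calc _ ≤ (2 * √(∑ k, W i k ^ 2) / δ ^ 2 / Fintype.card ι) ^ 2 := by gcongr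
      _ = _ := by
        rw [div_pow, div_pow, mul_pow, sq_sqrt (by positivity)]; ring
  have c2 : ‖H i i / (Fintype.card ι : ℂ)‖ ^ 2 ≤ 1 / ((Fintype.card ι : ℝ) ^ 2 * δ ^ 2) := by
    rw [norm_div, Complex.norm_natCast]
    calc _ ≤ (1 / δ / Fintype.card ι) ^ 2 := by gcongr; exact b6 i i
      _ = _ := by field_simp
  rw [Complex.norm_real, Real.norm_eq_abs, sq_abs]
  linarith

end EPSA

open EPSA in
theorem p_EPS (hRES : S_RES) (hSCHUR : S_SCHUR) (hQF : S_QF) (hROW : S_ROW) :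
    S_EPS := by
  intro ν hν
  obtain ⟨K, hK, h⟩ := hROW ν hν
  have := hν.1
  refine ⟨8 * K + 44, fun ι _ _ E δ i hδ h1 => ?_⟩
  obtain ⟨r1, r2, r3⟩ := h ι i
  set z : ℂ := E + δ * Complex.I with hz
  set P := Measure.pi fun _ : ι × ι => ν
  set N : ℝ := (Fintype.card ι : ℝ) with hN
  have N1 : 1 ≤ N := Nat.one_le_cast.2 (Fintype.card_pos_iff.2 ⟨i⟩)
  have mW : ∀ k l, Measurable fun y : ι × ι → ℝ => Wig y k l := fun k l => by
    simp only [Wig, Matrix.of_apply]; fun_prop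
  have mZ : Measurable fun y : ι × ι → ℝ => fun k l => zr (Wig y) i k l :=
    measurable_pi_lambda _ fun k => measurable_pi_lambda _ fun l => by
      simp only [zr, Matrix.of_apply]; split_ifs
      · exact measurable_const
      · exact mW k l
  have mB : Measurable (Bm z i) :=
    measurable_pi_lambda _ fun k => measurable_pi_lambda _ fun l => by
      simp only [Bm]; split_ifs
      · exact measurable_const
      · refine ((hRES ι E δ z hδ hz).2 _ sy ?_ (fun Z => Matrix.IsSymm.ext fun a b => ?_)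
          k l).measurable
        · exact continuous_matrix fun a b => by simp only [sy, Matrix.of_apply]; fun_prop
        · simp only [sy, Matrix.of_apply, add_comm]
  have hH : ∀ y : ι × ι → ℝ, ∑ k, ∑ l, ‖Bm z i (fun k l => zr (Wig y) i k l) k l‖ ^ 2 ≤
      N / δ ^ 2 := fun y => by
    obtain ⟨-, -, -, b4, -⟩ := (hRES ι E δ z hδ hz).1 _ (zr_symm (wig_symm y) i)
    rw [sum_comm]
    calc _ ≤ ∑ _l : ι, 1 / δ ^ 2 := sum_le_sum fun l _ => by
          have h := b4 (Pi.single l 1)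
          have e : ∑ k, ‖(Pi.single l (1 : ℂ) : ι → ℂ) k‖ ^ 2 = 1 := by
            rw [sum_eq_single l (fun b _ hb => by simp [hb]) (by simp)]; simp
          rw [e] at h
          simp only [Matrix.mulVec_single_one, Matrix.col_apply] at h
          refine (sum_le_sum fun k _ => ?_).trans h
          rw [Bm_eq (zr_symm (wig_symm y) i)]
          split_ifs <;> simp
      _ = _ := by simp [hN, div_eq_mul_inv]
  have q := hQF _ P ι (fun k y => Wig y i k) (fun y => Bm z i fun k l => zr (Wig y) i k l)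
    (fun k => (if k = i then 2 else 1) / N) (K / N ^ 2) (N / δ ^ 2) (mW i) (mB.comp mZ) r1
    (r2.comp mB measurable_id) (fun k => (r3 k).1) (fun k => (r3 k).2.1) (fun k => (r3 k).2.2.1)
    (fun k => (r3 k).2.2.2) (by positivity) hH
  have i2 : ∀ k, Integrable (fun y : ι × ι → ℝ => Wig y i k ^ 2) P := fun k =>
    ((r3 k).1.mono_exponent (by norm_num)).integrable_sq
  set R : (ι × ι → ℝ) → ℝ := fun y => 4 * (Wig y i i ^ 2 + (4 / (N ^ 2 * δ ^ 4) *
    ∑ k, Wig y i k ^ 2) + 1 / (N ^ 2 * δ ^ 2)) with hR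
  have i3 : Integrable (fun y : ι × ι → ℝ => 4 / (N ^ 2 * δ ^ 4) * ∑ k, Wig y i k ^ 2) P :=
    (integrable_finsetSum _ fun k _ => i2 k).const_mul _
  have i4 : Integrable (fun y : ι × ι → ℝ => Wig y i i ^ 2 + 4 / (N ^ 2 * δ ^ 4) *
      ∑ k, Wig y i k ^ 2) P := (i2 i).add i3
  have iR : Integrable R P := (i4.add (integrable_const _)).const_mul _
  have R0 : ∀ y, 0 ≤ R y := fun y => by positivity
  have eR : ∫ y, R y ∂P ≤ 44 / (N * δ ^ 4) := by
    rw [hR, integral_const_mul, integral_add i4 (integrable_const _), integral_add (i2 i) i3,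
      integral_const_mul, integral_finsetSum _ fun k _ => i2 k, (r3 i).2.2.1, if_pos rfl]
    simp only [integral_const, probReal_univ, one_smul]
    have s : ∑ k, ∫ y, Wig y i k ^ 2 ∂P ≤ 2 :=
      calc _ ≤ ∑ _k : ι, 2 / N := sum_le_sum fun k _ => by
            rw [(r3 k).2.2.1]; split_ifs <;> gcongr; norm_num
        _ = 2 := by simp only [sum_const, card_univ, nsmul_eq_mul, ← hN]; field_simp
    have d4 : δ ^ 4 ≤ 1 := pow_le_one₀ hδ.le h1
    have d2 : δ ^ 4 ≤ δ ^ 2 := pow_le_pow_of_le_one hδ.le h1 (by norm_num)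
    have n2 : N ≤ N ^ 2 := by nlinarith
    have a1 : 2 / N ≤ 2 / (N * δ ^ 4) := by
      gcongr; exact mul_le_of_le_one_right (by linarith) d4
    have a2 : 4 / (N ^ 2 * δ ^ 4) * ∑ k, ∫ y, Wig y i k ^ 2 ∂P ≤ 4 / (N * δ ^ 4) * 2 := by
      gcongr
    have a3 : 1 / (N ^ 2 * δ ^ 2) ≤ 1 / (N * δ ^ 4) := by gcongr
    calc _ ≤ 4 * (2 / (N * δ ^ 4) + 4 / (N * δ ^ 4) * 2 + 1 / (N * δ ^ 4)) := by gcongr
      _ = _ := by ring
  calc _ ≤ ∫⁻ y, (4 * ‖(∑ k, ∑ l, (Wig y i k : ℂ) * Bm z i (fun k l => zr (Wig y) i k l) k l *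
        Wig y i l) - ∑ k, (((if k = i then 2 else 1) / N : ℝ) : ℂ) *
          Bm z i (fun k l => zr (Wig y) i k l) k k‖ₑ ^ 2 + ENNReal.ofReal (R y)) ∂P := by
        refine lintegral_mono fun y => ?_
        have h := point hRES hSCHUR hδ (wig_symm y) i hz
        simp only [← ofReal_norm, ← ENNReal.ofReal_pow (norm_nonneg _)]
        refine (ENNReal.ofReal_le_ofReal h).trans (ENNReal.ofReal_add_le.trans ?_)
        rw [ENNReal.ofReal_mul (by norm_num), ENNReal.ofReal_ofNat]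
    _ ≤ 4 * ENNReal.ofReal (2 * (K / N ^ 2) * (N / δ ^ 2)) + ENNReal.ofReal (44 / (N * δ ^ 4)) := by
        rw [lintegral_add_right' _ iR.aestronglyMeasurable.aemeasurable.ennreal_ofReal,
          lintegral_const_mul' _ _ (by simp),
          ← ofReal_integral_eq_lintegral_ofReal iR (ae_of_all _ R0)]
        gcongr
    _ ≤ _ := by
        rw [← ENNReal.ofReal_ofNat, ← ENNReal.ofReal_mul (by norm_num),
          ← ENNReal.ofReal_add (by positivity) (by positivity)]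
        refine ENNReal.ofReal_le_ofReal ?_
        have d2 : δ ^ 4 ≤ δ ^ 2 := pow_le_pow_of_le_one hδ.le h1 (by norm_num)
        have : 4 * (2 * (K / N ^ 2) * (N / δ ^ 2)) = 8 * K / (N * δ ^ 2) := by field_simp; ring
        rw [this, add_div]
        gcongr

end Pool.Agent.P.MP_6b977f_mp.RB
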