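import Pool.Agent.P.MP_6b977f_mp.RB.Iface

/-! Step ERG. -/

namespace Pool.Agent.P.MP_6b977f_mp.RB

open Real MeasureTheory ProbabilityTheory Filter Topology Finset Laplacian
open scoped ContDiff ComplexConjugate ENNReal Matrix

namespace ERGA

theorem io {E : Type} [NormedAddCommGroup E] {O : Set ℂ} (h : Bornology.IsBounded O) {f : ℂ → E}
    (hf : Continuous f) : IntegrableOn f O :=
  (hf.continuousOn.integrableOn_compact h.isCompact_closure).mono_set subset_closure

theorem v0 {O : Set ℂ} (h : volume.real O ≠ 0) : volume O ≠ 0 := fun e =>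
  h (by rw [measureReal_def, e, ENNReal.toReal_zero])

theorem cT (c : ℂ) : ⨍ _ in TT, c = c :=
  setAverage_const (v0 (by rw [TT_vol]; positivity)) TT_bdd.measure_lt_top.ne c

theorem cS (c : ℂ) : ⨍ _ in sqr, c = c :=
  setAverage_const (v0 (by rw [sqr_vol]; positivity)) sqr_bdd.measure_lt_top.ne c

theorem cs {H : ℂ → ℂ} (h : Continuous H) {t : ℝ} (ht : 0 < t) :
    ‖⨍ z in sqr, H z‖ ≤ t / 2 + 2 / t * (⨍ z in TT, H z * conj (H z)).re := by
  have := pi_pos
  have h1 : ∫ z in sqr, ‖H z‖ ≤ ∫ z in sqr, (t / 2 + 1 / (2 * t) * ‖H z‖ ^ 2) :=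
    integral_mono (io sqr_bdd h.norm) (io sqr_bdd (by fun_prop)) fun z => by
      have : 0 ≤ (‖H z‖ - t) ^ 2 / (2 * t) := by positivity
      have e : t / 2 + 1 / (2 * t) * ‖H z‖ ^ 2 = ‖H z‖ + (‖H z‖ - t) ^ 2 / (2 * t) := by
        field_simp
        ring
      exact e ▸ le_add_of_nonneg_right this
  have h2 : ∫ z in sqr, ‖H z‖ ^ 2 ≤ ∫ z in TT, ‖H z‖ ^ 2 :=
    setIntegral_mono_set (io TT_bdd (by fun_prop)) (.of_forall fun z => sq_nonneg _)
      sqr_sub.eventuallyLE
  rw [integral_add (io sqr_bdd continuous_const) (io sqr_bdd (by fun_prop)), setIntegral_const,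
    integral_const_mul, sqr_vol, smul_eq_mul] at h1
  simp only [Complex.mul_conj', ← Complex.ofReal_pow, setAverage_eq, integral_complex_ofReal,
    sqr_vol, TT_vol, Complex.real_smul, ← Complex.ofReal_mul, Complex.ofReal_re,
    norm_mul, Complex.norm_real, Real.norm_eq_abs, abs_of_pos (by positivity : 0 < (π ^ 2)⁻¹)]
  rw [inv_mul_le_iff₀ (by positivity)]
  refine ((norm_integral_le_integral_norm _).trans h1).trans (le_of_le_of_eq
    (add_le_add_right (mul_le_mul_of_nonneg_left h2 (by positivity)) _) ?_)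
  field_simp
  ring

theorem pts {Φ : ℂ → ℝ} (h : Tendsto Φ (cocompact ℂ) (𝓝 0)) {η : ℝ} (hη : 0 < η) :
    ∃ (K : ℕ) (p : ℕ → ℂ), 0 < K ∧ ∑ k ∈ range K, ∑ l ∈ range K, Φ (p k - p l) ≤ η * K ^ 2 := by
  obtain ⟨C, c1, c2⟩ := mem_cocompact.1 (h.eventually (gt_mem_nhds (half_pos hη)))
  obtain ⟨R, r0, hR⟩ := c1.isBounded.exists_pos_norm_lt
  obtain ⟨K, hK⟩ := exists_nat_gt (|Φ 0| / (η / 2))
  have k0 : (0 : ℝ) < K := lt_of_le_of_lt (by positivity) hK
  rw [div_lt_iff₀ (half_pos hη)] at hK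
  refine ⟨K, fun k => k * R, Nat.cast_pos.1 k0, (sum_le_card_nsmul _ _ (η * K) fun k hk =>
    (sum_le_sum (g := fun l => η / 2 + if k = l then |Φ 0| else 0) fun l _ => ?_).trans
      ?_).trans_eq (by rw [card_range, nsmul_eq_mul]; ring)⟩
  · split_ifs with e
    · rw [e, sub_self]
      linarith [le_abs_self (Φ 0)]
    · refine (le_of_lt (c2 fun m => (hR _ m).not_ge ?_)).trans_eq (add_zero _).symm
      have : (1 : ℝ) ≤ |(k : ℝ) - l| := by
        exact_mod_cast Int.one_le_abs (sub_ne_zero.2 (Int.natCast_inj.ne.2 e))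
      rw [← sub_mul, norm_mul, Complex.norm_of_nonneg r0.le, ← Complex.ofReal_natCast,
        ← Complex.ofReal_natCast, ← Complex.ofReal_sub, Complex.norm_real, Real.norm_eq_abs]
      exact le_mul_of_one_le_left r0.le this
  · rw [sum_add_distrib, sum_ite_eq, if_pos hk, sum_const, card_range, nsmul_eq_mul]
    linarith

theorem core (F : ℕ → ℂ → ℂ → ℂ) (G : ℝ) (Φ : ℂ → ℝ) (hc : ∀ j p, Continuous (F j p))
    (h1 : ∀ p, Tendsto (fun j => ⨍ z in TT, F j p z) atTop (𝓝 G))
    (h2 : ∀ p q, Tendsto (fun j => ⨍ z in TT, F j p z * conj (F j q z)) atTop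
      (𝓝 (G ^ 2 + Φ (p - q) : ℝ)))
    (h3 : ∀ p, Tendsto (fun j => (⨍ z in sqr, F j p z) - ⨍ z in sqr, F j 0 z) atTop (𝓝 0))
    (hΦ : Tendsto Φ (cocompact ℂ) (𝓝 0)) :
    Tendsto (fun j => ⨍ z in sqr, F j 0 z) atTop (𝓝 G) := by
  have iT : ∀ {f : ℂ → ℂ}, Continuous f → _ := fun h => (io TT_bdd h).to_average
  have iS : ∀ {f : ℂ → ℂ}, Continuous f → _ := fun h => (io sqr_bdd h).to_average
  have h4 : ∀ p q, Tendsto (fun j => ⨍ z in TT, (F j p z - G) * conj (F j q z - G)) atTop
      (𝓝 (Φ (p - q))) := fun p q => by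
    have := (((h2 p q).sub ((h1 p).const_mul (G : ℂ))).sub (((Complex.continuous_conj.tendsto _).comp
      (h1 q)).const_mul (G : ℂ))).add_const (G ^ 2 : ℂ)
    rw [Complex.conj_ofReal] at this
    convert this using 2 with j
    · have a := hc j p
      have b := hc j q
      rw [← cT (G ^ 2), Function.comp_apply]
      simp only [average_eq']
      rw [← integral_conj, ← integral_const_mul, ← integral_const_mul,
        ← integral_sub (iT (by fun_prop)) (iT (by fun_prop)),
        ← integral_sub (iT (by fun_prop)) (iT (by fun_prop)),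
        ← integral_add (iT (by fun_prop)) (iT (by fun_prop))]
      congr 1
      ext z
      rw [map_sub, Complex.conj_ofReal]
      ring
    · push_cast
      ring
  refine Metric.tendsto_nhds.2 fun ε hε => ?_
  obtain ⟨K, p, k0, hp⟩ := pts hΦ (η := ε ^ 2 / 16) (by positivity)
  have k1 : (0 : ℝ) < K := Nat.cast_pos.2 k0
  have h5 := (Complex.continuous_re.tendsto _).comp (tendsto_finsetSum (range K) fun k _ =>
    tendsto_finsetSum (range K) fun l _ => h4 (p k) (p l))
  simp only [← Complex.ofReal_sum, Complex.ofReal_re] at h5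
  have h6 := (tendsto_finsetSum (range K) fun k _ => h3 (p k)).norm
  rw [sum_const_zero, norm_zero] at h6
  filter_upwards [h5.eventually (gt_mem_nhds (hp.trans_lt (by
      have : 0 < ε ^ 2 * K ^ 2 := by positivity
      linarith : _ < ε ^ 2 / 8 * K ^ 2))),
    h6.eventually (gt_mem_nhds (by positivity : 0 < K * ε / 4))] with j a b
  have c := hc j
  have h7 := cs (H := fun z => ∑ k ∈ range K, (F j (p k) z - G)) (by fun_prop) (mul_pos k1 hε)
  have e1 : ⨍ z in TT, (∑ k ∈ range K, (F j (p k) z - G)) *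
      conj (∑ k ∈ range K, (F j (p k) z - G)) = ∑ k ∈ range K, ∑ l ∈ range K,
        ⨍ z in TT, (F j (p k) z - G) * conj (F j (p l) z - G) := by
    simp only [average_eq', map_sum, sum_mul_sum]
    rw [integral_finsetSum _ fun k _ => iT (by fun_prop)]
    exact sum_congr rfl fun k _ => integral_finsetSum _ fun l _ => iT (by fun_prop)
  have e2 : (K : ℂ) * ((⨍ z in sqr, F j 0 z) - G) = (⨍ z in sqr, ∑ k ∈ range K, (F j (p k) z - G)) -
      ∑ k ∈ range K, ((⨍ z in sqr, F j (p k) z) - ⨍ z in sqr, F j 0 z) := by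
    have : ∀ k, ⨍ z in sqr, (F j (p k) z - G) = (⨍ z in sqr, F j (p k) z) - G := fun k =>
      (integral_sub (iS (c _)) (iS continuous_const)).trans (congrArg _ (cS G))
    rw [average_eq' _ fun z => ∑ k ∈ range K, _, integral_finsetSum _ fun k _ => iS (by fun_prop)]
    simp only [← average_eq', this, ← sum_sub_distrib, sub_sub_sub_cancel_left, sum_const,
      card_range, nsmul_eq_mul]
  rw [e1] at h7
  have h8 := (norm_sub_le _ _).trans (add_le_add h7 b.le)
  rw [← e2, norm_mul, Complex.norm_natCast, ← dist_eq_norm] at h8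
  have h9 := mul_lt_mul_of_pos_left a (by positivity : 0 < 2 / (K * ε))
  have e3 : 2 / (K * ε) * (ε ^ 2 / 8 * K ^ 2) = K * ε / 4 := by
    field_simp
    ring
  refine lt_of_mul_lt_mul_left (h8.trans_lt ?_) k1.le
  rw [e3, Function.comp_apply] at h9
  linarith

end ERGA

open ERGA in
theorem p_ERG (hJD : S_JD) (hLAY : S_LAY) :
    S_ERG := by
  intro U lam hU hl h ι _ s x
  have key := core (fun j p z => Complex.exp (Complex.I *
      ((∑ i, s i * U j (z + (x i + p) / √(lam j)) : ℝ) : ℂ)))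
    (Real.exp (-(1 / 2) * ∑ i, ∑ j, s i * s j * EB.J0 (x i - x j)))
    (fun v => Real.exp (-(1 / 2) * ∑ i, ∑ j, s i * s j * EB.J0 (x i - x j)) ^ 2 *
      (Real.exp (∑ i, ∑ j, s i * s j * EB.J0 (x i - x j + v)) - 1))
    (fun j p => by have := hU j; fun_prop)
    (fun p => by simpa only [cfF, gaussF, add_sub_add_right_eq_sub] using h ι s fun i => x i + p)
    (fun p q => ?_) (fun p => ?_) ?_
  · simpa only [add_zero, cfF, gaussF] using key
  · convert h (ι ⊕ ι) (Sum.elim s (-s)) (Sum.elim (fun i => x i + p) fun i => x i + q) using 2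
      with j
    · rw [cfF]
      congr 1
      ext z
      rw [← Complex.exp_conj, ← Complex.exp_add, map_mul, Complex.conj_I, Complex.conj_ofReal]
      simp [Fintype.sum_sum_type, mul_add]
    · have e : ∑ i, ∑ j, s i * s j * EB.J0 (x i + q - (x j + p)) =
          ∑ i, ∑ j, s i * s j * EB.J0 (x i - x j + (p - q)) := by
        rw [sum_comm]
        refine sum_congr rfl fun i _ => sum_congr rfl fun j _ => ?_
        rw [← hJD.1, mul_comm (s j)]
        congr 2
        ring
      have e' : ∀ i j, x i + p - (x j + q) = x i - x j + (p - q) := fun i j => by ring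
      rw [gaussF, mul_sub_one, add_sub_cancel, sq, ← Real.exp_add, ← Real.exp_add]
      simp only [Fintype.sum_sum_type, Sum.elim_inl, Sum.elim_inr, add_sub_add_right_eq_sub,
        Pi.neg_apply, mul_neg, neg_mul, sum_add_distrib, sum_neg_distrib, e, e']
      congr 2
      ring
  · have h0 : Tendsto (fun j => (π ^ 2)⁻¹ * (8 * π * (‖p‖ / √(lam j)))) atTop (𝓝 0) := by
      simpa using ((tendsto_const_nhds (x := ‖p‖).div_atTop
        (tendsto_sqrt_atTop.comp hl)).const_mul (8 * π)).const_mul (π ^ 2)⁻¹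
    refine squeeze_zero_norm (fun j => ?_) h0
    have := hU j
    have h1 := hLAY.2 (fun z => Complex.exp (Complex.I *
      ((∑ i, s i * U j (z + (x i + 0) / √(lam j)) : ℝ) : ℂ))) (p / √(lam j))
      (Continuous.measurable (by fun_prop)) fun z => (Complex.norm_exp_I_mul_ofReal _).le
    rw [setAverage_eq, setAverage_eq, ← smul_sub, norm_smul, sqr_vol,
      Real.norm_of_nonneg (by positivity)]
    rw [norm_div, Complex.norm_of_nonneg (sqrt_nonneg _)] at h1
    refine mul_le_mul_of_nonneg_left ?_ (by positivity)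
    simpa only [add_zero, add_div, add_assoc, add_comm (p / _)] using h1
  · have h0 : ∀ v : ℂ, Tendsto (fun w => EB.J0 (v + w)) (cocompact ℂ) (𝓝 0) := fun v =>
      hJD.2.comp (Homeomorph.addLeft v).toCocompactMap.cocompact_tendsto'
    simpa using (((continuous_exp.tendsto _).comp (tendsto_finsetSum univ fun i _ =>
      tendsto_finsetSum univ fun j _ => (h0 (x i - x j)).const_mul (s i * s j))).sub_const
        1).const_mul (Real.exp (-(1 / 2) * ∑ i, ∑ j, s i * s j * EB.J0 (x i - x j)) ^ 2)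

end Pool.Agent.P.MP_6b977f_mp.RB
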