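import Pool.Agent.P.MP_6b977f_mp.RB.Iface

/-! Step ERR. -/

namespace Pool.Agent.P.MP_6b977f_mp.RB

open Real MeasureTheory ProbabilityTheory Filter Topology Finset Laplacian
open scoped ContDiff ComplexConjugate ENNReal Matrix

namespace ERRA

theorem le_pow {m n : ℕ} {ξ : II} (h : n ∈ blk m) (a : ξ ∈ AA n) : ξ.1 ≤ 2 ^ (m / 2 + 1) := by
  refine (Nat.pow_le_pow_iff_left two_ne_zero).1 ?_
  have b := (mem_AA.1 a).1
  have c := (mem_blk.1 h).2
  have d : 2 ^ (m + 1) ≤ 2 ^ ((m / 2 + 1) * 2) := Nat.pow_le_pow_right two_pos (by omega)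
  rw [← pow_mul]
  unfold dd at b
  omega

theorem kap_mem {m n K : ℕ} {p : II × II} (h : n ∈ blk m) (a : p ∈ AA n ×ˢ AA n)
    (b : ¬Low K p.1.1 p.2.1) : K < kap p ∧ kap p ≤ 2 ^ (m / 2 + 2) := by
  have c := le_pow h (mem_product.1 a).1
  have d := le_pow h (mem_product.1 a).2
  rw [pow_succ _ (m / 2 + 1)]
  unfold Low Nat.dist at b
  unfold kap
  split_ifs <;> omega

theorem small {σ : ℕ → ℝ} (h : SV σ) {e : ℕ} (he : 2 ≤ e) (C : ℝ) {η : ℝ} (hC : 0 < C)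
    (hη : 0 < η) : ∀ᶠ m : ℕ in atTop, (1 + (σ 1 / sb σ m) ^ 2) *
      (C * ((2 ^ (m + 1) : ℕ) : ℝ) ^ (1 / 2 + 1 / (6 * e : ℝ)) *
        ((2 ^ (m / 2 - m / e) : ℕ) + 1)) ≤ η * 2 ^ m := by
  have e2 : (2 : ℝ) ≤ e := by exact_mod_cast he
  have e0 : (0 : ℝ) < 1 / (6 * e) := by positivity
  have e1 : (1 : ℝ) / (6 * e) ≤ 1 / 2 := one_div_le_one_div_of_le two_pos (by linarith)
  have e3 : ∀ m : ℕ, (m : ℝ) / e = 6 * (1 / (6 * e) * m) := fun m => by field_simp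
  generalize (1 : ℝ) / (6 * e) = ε at *
  filter_upwards [h.low ε e0, (((tendsto_rpow_atBot_of_base_gt_one 2 one_lt_two).comp
    (tendsto_neg_atTop_atBot.comp (tendsto_natCast_atTop_atTop.const_mul_atTop
      (by positivity : 0 < 3 * ε)))).const_mul ((1 + σ 1 ^ 2) * C * 8)).eventually
        (gt_mem_nhds (by simpa using hη))] with m a b
  have c1 : 1 + (σ 1 / sb σ m) ^ 2 ≤ (1 + σ 1 ^ 2) * 2 ^ (ε * m * 2) := by
    have d : (1 : ℝ) ≤ 2 ^ (ε * m * 2) := one_le_rpow one_le_two (by positivity)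
    have : (σ 1 / sb σ m) ^ 2 ≤ σ 1 ^ 2 * 2 ^ (ε * m * 2) := by
      rw [div_pow, rpow_mul two_pos.le, rpow_two, div_eq_mul_inv, ← inv_pow]
      gcongr
      · exact inv_nonneg.2 (le_trans (by positivity) a)
      · rw [rpow_neg two_pos.le] at a
        exact inv_le_of_inv_le₀ (by positivity) a
    linarith
  have c2 : ((2 ^ (m / 2 - m / e) : ℕ) + 1 : ℝ) ≤ 2 ^ ((m : ℝ) / 2 - 6 * (ε * m) + 2) := by
    have d1 : ((m / 2 : ℕ) : ℝ) ≤ m / 2 := Nat.cast_div_le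
    have d2 : (m : ℝ) / e < (m / e : ℕ) + 1 := by
      rw [← Nat.floor_div_eq_div (K := ℝ)]
      exact Nat.lt_floor_add_one _
    have d3 : (1 : ℝ) ≤ 2 ^ (m / 2 - m / e) := one_le_pow₀ one_le_two
    calc _ ≤ (2 : ℝ) ^ (m / 2 - m / e + 1) := by push_cast; rw [pow_succ]; linarith
      _ ≤ _ := by
        rw [← rpow_natCast]
        refine rpow_le_rpow_of_exponent_le one_le_two ?_
        rw [Nat.cast_add, Nat.cast_sub (Nat.div_le_div_left he two_pos), ← e3]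
        push_cast
        linarith
  calc _ ≤ (1 + σ 1 ^ 2) * 2 ^ (ε * m * 2) * (C * ((2 ^ (m + 1) : ℕ) : ℝ) ^ (1 / 2 + ε) *
        2 ^ ((m : ℝ) / 2 - 6 * (ε * m) + 2)) := by gcongr
    _ = (1 + σ 1 ^ 2) * C * 2 ^ (ε * m * 2 + (m + 1 : ℕ) * (1 / 2 + ε) +
        ((m : ℝ) / 2 - 6 * (ε * m) + 2)) := by
      rw [rpow_add two_pos (_ + _), rpow_add two_pos (_ * _), rpow_mul two_pos.le (_ : ℕ),
        rpow_natCast]
      push_cast
      ring
    _ ≤ (1 + σ 1 ^ 2) * C * 2 ^ ((3 : ℕ) + -(3 * ε * m) + m) := by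
      refine mul_le_mul_of_nonneg_left (rpow_le_rpow_of_exponent_le one_le_two ?_) (by positivity)
      push_cast
      linarith
    _ = (1 + σ 1 ^ 2) * C * 8 * 2 ^ (-(3 * ε * m)) * 2 ^ m := by
      rw [rpow_add two_pos, rpow_add two_pos, rpow_natCast, rpow_natCast]
      ring
    _ ≤ _ := mul_le_mul_of_nonneg_right b.le (by positivity)

end ERRA

theorem p_ERR (hERR1 : S_ERR1) (hCOIN : S_COIN) (hREL1 : S_REL1) (hCNT : S_CNT) (hLAT : S_LAT) (hS4 : S_S4) :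
    S_ERR := by
  classical
  intro σ ν h hν η hη
  obtain ⟨e, he, hf⟩ := h.flat (min 1 (η / 6400)) (by positivity)
  obtain ⟨C, hC, hc⟩ := hCNT (1 / (6 * e : ℝ)) (by positivity)
  obtain ⟨_, -, hL⟩ := hLAT
  choose D hD using hREL1
  obtain ⟨r, hr⟩ := exists_nat_gt (200 * (2 * |256 * ∑ l ∈ Icc 3 8, D l| + 16) / η)
  refine ⟨r, fun r₀ h0 => ?_⟩
  have r1 := hr.trans_le (Nat.cast_le.2 h0)
  have r0 : (0 : ℝ) < r₀ := lt_trans (by positivity) r1
  filter_upwards [hf, ERRA.small h he C hC (by positivity : 0 < η / 400)] with m a b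
  have k := fun n (hn : n ∈ mid r₀ m) => hERR1 σ ν m n (2 ^ (m / 2 - m / e)) _ h.toSV0 hν
    (le_trans (Nat.cast_pos.1 r0) (mem_filter.1 hn).2.1) (min_le_left _ _) fun p x y =>
      a _ (ERRA.kap_mem (mem_filter.1 hn).1 x y).1 (ERRA.kap_mem (mem_filter.1 hn).1 x y).2
  refine ⟨fun n hn => ⟨(k n hn).1, (k n hn).2.1⟩, (sum_le_sum fun n hn => (k n hn).2.2).trans ?_⟩
  have s : mid r₀ m ⊆ Icc 1 (2 ^ (m + 1)) := fun n hn =>
    let ⟨x, y⟩ := mem_blk.1 (mem_filter.1 hn).1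
    mem_Icc.2 ⟨Nat.one_le_two_pow.trans x, y.le⟩
  have c1 : ∑ n ∈ mid r₀ m, (rr n : ℝ) ≤ 16 * 2 ^ m :=
    ((sum_le_sum fun n _ => Nat.cast_le.2 (hS4.1 n).2).trans
      (sum_le_sum_of_subset_of_nonneg s fun _ _ _ => Nat.cast_nonneg _)).trans
        ((hL _).1.trans_eq (by push_cast; ring))
  have c2 : ∑ n ∈ mid r₀ m, (coin n : ℝ) ≤ 2 * |256 * ∑ l ∈ Icc 3 8, D l| * 2 ^ m :=
    calc _ ≤ ∑ n ∈ Icc 1 (2 ^ (m + 1)), 256 * ∑ l ∈ Icc 3 8, (rel n l : ℝ) :=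
          (sum_le_sum_of_subset_of_nonneg s fun _ _ _ => Nat.cast_nonneg _).trans
            (sum_le_sum fun n _ => by exact_mod_cast hCOIN n)
      _ ≤ 256 * ∑ l ∈ Icc 3 8, D l * (2 ^ (m + 1) : ℕ) := by
          rw [← mul_sum, sum_comm]
          gcongr
          exact hD _ _
      _ = (256 * ∑ l ∈ Icc 3 8, D l) * (2 * 2 ^ m) := by rw [← sum_mul]; push_cast; ring
      _ ≤ |256 * ∑ l ∈ Icc 3 8, D l| * (2 * 2 ^ m) := by gcongr; exact le_abs_self _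
      _ = _ := by ring
  have c3 : ∑ n ∈ mid r₀ m, ((coin n : ℝ) / rr n + 1) ≤ η / 200 * 2 ^ m :=
    calc _ ≤ ∑ n ∈ mid r₀ m, ((coin n : ℝ) + rr n) / r₀ := sum_le_sum fun n hn => by
          have : (r₀ : ℝ) ≤ rr n := Nat.cast_le.2 (mem_filter.1 hn).2.1
          rw [add_div]
          gcongr
          exact (one_le_div r0).2 this
      _ ≤ (2 * |256 * ∑ l ∈ Icc 3 8, D l| + 16) * 2 ^ m / r₀ := by
          rw [← sum_div, sum_add_distrib, add_mul]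
          gcongr
      _ ≤ _ := by
          rw [div_lt_iff₀ hη] at r1
          rw [mul_div_right_comm]
          exact mul_le_mul_of_nonneg_right ((div_le_iff₀ r0).2 (by linarith)) (by positivity)
  have c4 := hc (2 ^ (m + 1)) (2 ^ (m / 2 - m / e)) 0 Nat.one_le_two_pow (by simp)
  have c5 : ∑ n ∈ mid r₀ m,
      (((AA n ×ˢ AA n).filter fun p => Low (2 ^ (m / 2 - m / e)) p.1.1 p.2.1).card : ℝ) ≤
      C * ((2 ^ (m + 1) : ℕ) : ℝ) ^ (1 / 2 + 1 / (6 * e : ℝ)) *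
        ((2 ^ (m / 2 - m / e) : ℕ) + 1) := by
    refine le_trans ?_ (c4.trans_eq (by simp))
    rw [← Nat.cast_sum, Nat.cast_le, ← card_biUnion fun n _ n' _ x => disjoint_left.2 fun p y z =>
      x ((mem_AA.1 (mem_product.1 (mem_filter.1 y).1).1).1.symm.trans
        (mem_AA.1 (mem_product.1 (mem_filter.1 z).1).1).1)]
    refine card_le_card (biUnion_subset.2 fun n hn p hp => ?_)
    obtain ⟨x, y⟩ := mem_filter.1 hp
    have u := (mem_AA.1 (mem_product.1 x).1).1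
    have v := (mem_AA.1 (mem_product.1 x).2).1
    have w := (mem_Icc.1 (s hn)).2
    exact mem_filter.2 ⟨mem_product.2 ⟨mem_Box.2 (u ▸ w), mem_Box.2 (v ▸ w)⟩, y, by simp [u, v]⟩
  have c6 : min 1 (η / 6400) ^ 2 ≤ η / 6400 := by
    rw [sq]
    exact (mul_le_of_le_one_left (by positivity) (min_le_left _ _)).trans (min_le_right _ _)
  have c7 := mul_le_mul c6 c1 (by positivity) (by positivity)
  have c8 := (mul_le_mul_of_nonneg_left c5 (by positivity)).trans b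
  simp only [add_assoc _ _ (1 : ℝ)]
  rw [← mul_sum, sum_add_distrib, sum_add_distrib, ← mul_sum, ← mul_sum]
  linarith

end Pool.Agent.P.MP_6b977f_mp.RB
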