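import Pool.Agent.P.MP_6b977f_mp.RB.Iface

/-! Step ERR1. -/

namespace Pool.Agent.P.MP_6b977f_mp.RB

open Real MeasureTheory ProbabilityTheory Filter Topology Finset Laplacian
open scoped ContDiff ComplexConjugate ENNReal Matrix

namespace ERR1A

variable {σ : ℕ → ℝ} {m n : ℕ}

noncomputable def tau (σ : ℕ → ℝ) (m : ℕ) (p : II × II) : ℝ := σ (kap p) / sb σ m

noncomputable def uu (σ : ℕ → ℝ) (m : ℕ) (p : II × II) (g : ℕ → ℝ) : ℝ :=
  tau σ m p * g (kap p) + -1 * g (kap' m p)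

noncomputable def vv (σ : ℕ → ℝ) (m : ℕ) (p : II × II) (g : ℕ → ℝ) : ℝ :=
  (if p.1 = p.2 then tau σ m p else 0) * g (kap p) + 0 * g 0

theorem tau_mem (h : SV0 σ) {p : II × II} (hp : p ∈ AA n ×ˢ AA n) :
    0 ≤ tau σ m p ∧ tau σ m p ≤ σ 1 / sb σ m := by
  have h1 : 1 ≤ kap p := by
    have := (mem_AA.1 (mem_product.1 hp).1).2.1
    unfold kap
    split_ifs <;> omega
  have h2 : 0 < sb σ m := h.pos _ Nat.one_le_two_pow
  exact ⟨div_nonneg (h.pos _ h1).le h2.le, div_le_div_of_nonneg_right (h.anti _ _ le_rfl h1) h2.le⟩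

theorem er (h : SV0 σ) (g : ℕ → ℝ) : Er σ m n g = ∑ p ∈ AA n ×ˢ AA n,
    (uu σ m p g + uu σ m p.swap g - vv σ m p g) ^ 2 / (2 * rr n) := by
  rw [sum_product, ← sum_coe_sort (AA n)]
  refine sum_congr rfl fun ξ _ => ?_
  rw [← sum_coe_sort (AA n)]
  refine sum_congr rfl fun η _ => ?_
  rw [← sq_sqrt (x := 2 * rr n) (by positivity), ← div_pow, Wn, Wig, Matrix.of_apply,
    Fintype.card_coe, Mn, ← div_div, rr, ← sub_div]
  congr 2
  obtain ⟨⟨a, b⟩, h1⟩ := ξ
  obtain ⟨⟨a', b'⟩, h2⟩ := η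
  simp only [uu, vv, tau, kap, Prod.swap_prod_mk, Prod.mk.injEq]
  rcases lt_trichotomy a a' with e | rfl | e
  · rw [if_neg e.not_gt, if_pos e, if_neg fun e' => e.ne e'.1, Nat.dist_eq_sub_of_le e.le]
    ring
  · obtain rfl : b = b' := by
      have := (mem_AA.1 h1).1.trans (mem_AA.1 h2).1.symm
      exact Nat.pow_left_injective two_ne_zero (Nat.add_left_cancel this)
    simp only [lt_irrefl, if_false, and_self, if_true, Nat.dist_self, h.zero]
    ring
  · rw [if_pos e, if_neg e.not_gt, if_neg fun e' => e.ne' e'.1, Nat.dist_eq_sub_of_le_right e.le,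
      add_comm a' a]
    ring

end ERR1A

theorem p_ERR1 (hLAW : S_LAW) :
    S_ERR1 := by
  classical
  intro σ ν m n K θ h hν hr hθ hK
  have := hν.1
  have L := (hLAW ν).2 hν
  have r1 : (1 : ℝ) ≤ rr n := by exact_mod_cast hr
  have e : Er σ m n = _ := funext (ERR1A.er h)
  have hm : Measurable (Er σ m n) := by
    rw [e]
    unfold ERR1A.uu ERR1A.vv
    fun_prop
  set μ := Measure.infinitePi fun _ : ℕ => ν
  set Λ := σ 1 / sb σ m
  have iu : ∀ p, Integrable (fun g => ERR1A.uu σ m p g ^ 2) μ := fun p => (L _ _ _ _).1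
  have iv : ∀ p, Integrable (fun g => ERR1A.vv σ m p g ^ 2) μ := fun p => (L _ _ _ _).1
  have iF := fun p : II × II => (((iu p).add (iu p.swap)).add (iv p)).const_mul (3 / (2 * rr n))
  have hF := integrable_finsetSum (AA n ×ˢ AA n) fun p _ => iF p
  have le : ∀ g, Er σ m n g ≤ ∑ p ∈ AA n ×ˢ AA n, 3 / (2 * rr n) *
      (ERR1A.uu σ m p g ^ 2 + ERR1A.uu σ m p.swap g ^ 2 + ERR1A.vv σ m p g ^ 2) := fun g => by
    rw [ERR1A.er h]
    refine sum_le_sum fun p _ => ?_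
    rw [div_mul_eq_mul_div]
    gcongr
    generalize ERR1A.uu σ m p g = x, ERR1A.uu σ m p.swap g = y, ERR1A.vv σ m p g = z
    nlinarith [sq_nonneg (x - y), sq_nonneg (x + z), sq_nonneg (y + z)]
  have hI : Integrable (Er σ m n) μ := hF.mono' hm.aestronglyMeasurable (.of_forall fun g =>
    (norm_of_nonneg (sum_nonneg fun _ _ => sum_nonneg fun _ _ => sq_nonneg _)).trans_le (le g))
  refine ⟨hm, hI, (integral_mono hI hF le).trans ?_⟩
  let B : II × II → ℝ := fun p => 2 * θ ^ 2 + 10 * (if Coin n p then 1 else 0) +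
    (2 * Λ ^ 2 + 2) * if Low K p.1.1 p.2.1 then 1 else 0
  have hu : ∀ p ∈ AA n ×ˢ AA n, ∫ g, ERR1A.uu σ m p g ^ 2 ∂μ ≤ B p := fun p hp => by
    obtain ⟨t0, t1⟩ := ERR1A.tau_mem (m := m) h hp
    have t2 := pow_le_pow_left₀ t0 t1 2
    have t3 : ∫ g, ERR1A.uu σ m p g ^ 2 ∂μ ≤ _ := (L _ _ _ _).2
    have t4 := sq_nonneg θ
    simp only [B]
    split_ifs with c l l
    · linarith
    · have : ERR1A.tau σ m p - 1 ≤ θ := (abs_le.1 (hK p hp l)).2
      nlinarith
    · linarith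
    · have t5 := (L (ERR1A.tau σ m p - 1) 0 (kap p) 0).2
      have t6 : (ERR1A.tau σ m p - 1) ^ 2 ≤ θ ^ 2 := sq_le_sq' (abs_le.1 (hK p hp l)).1
        (abs_le.1 (hK p hp l)).2
      simp only [ERR1A.uu, kap', (mem_AA.1 (mem_product.1 hp).1).1, if_neg c]
      rw [integral_congr_ae (g := fun g => ((ERR1A.tau σ m p - 1) * g (kap p) + 0 * g 0) ^ 2)
        (.of_forall fun g => by ring)]
      linarith
  have hv : ∀ p ∈ AA n ×ˢ AA n, ∫ g, ERR1A.vv σ m p g ^ 2 ∂μ ≤ 8 * (if p.1 = p.2 then 1 else 0) +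
      2 * Λ ^ 2 * if Low K p.1.1 p.2.1 then 1 else 0 := fun p hp => by
    obtain ⟨t0, t1⟩ := ERR1A.tau_mem (m := m) h hp
    have t2 := pow_le_pow_left₀ t0 t1 2
    have t4 := sq_nonneg Λ
    refine (L _ _ _ _).2.trans ?_
    split_ifs with c l l
    · linarith
    · have : ERR1A.tau σ m p - 1 ≤ θ := (abs_le.1 (hK p hp l)).2
      nlinarith
    · linarith
    · linarith
  have sB : ∑ p ∈ AA n ×ˢ AA n, B p.swap = ∑ p ∈ AA n ×ˢ AA n, B p := by
    rw [sum_product, sum_product_right]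
    rfl
  have sd : ∑ p ∈ AA n ×ˢ AA n, (if p.1 = p.2 then (1 : ℝ) else 0) = rr n := by
    rw [sum_product, sum_congr rfl (g := fun _ => 1) fun ξ hξ => by simp [hξ]]
    simp [rr]
  rw [integral_finsetSum _ fun p _ => iF p]
  refine (sum_le_sum (g := fun p => 3 / (2 * rr n) * (B p + B p.swap +
    (8 * (if p.1 = p.2 then 1 else 0) + 2 * Λ ^ 2 * if Low K p.1.1 p.2.1 then 1 else 0)))
    fun p hp => ?_).trans ?_
  · rw [integral_const_mul, integral_add' ((iu p).add (iu _)) (iv p), integral_add' (iu p) (iu _)]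
    gcongr
    exacts [hu p hp, hu _ (mem_product.2 (mem_product.1 hp).symm), hv p hp]
  · rw [← mul_sum, sum_add_distrib, sum_add_distrib, sB]
    simp only [B, sum_add_distrib, ← mul_sum, sd, sum_boole, sum_const, card_product, nsmul_eq_mul]
    rw [← rr, ← coin]
    have l0 := Nat.cast_nonneg (α := ℝ) #{p ∈ AA n ×ˢ AA n | Low K p.1.1 p.2.1}
    have c0 := Nat.cast_nonneg (α := ℝ) (coin n)
    push_cast
    generalize ((#{p ∈ AA n ×ˢ AA n | Low K p.1.1 p.2.1} : ℕ) : ℝ) = l at l0 ⊢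
    generalize (rr n : ℝ) = r at r1 ⊢
    have h1 : (1 + Λ ^ 2) * l / r ≤ (1 + Λ ^ 2) * l := div_le_self (by positivity) r1
    calc _ ≤ 100 * (θ ^ 2 * r + coin n / r + 1 + (1 + Λ ^ 2) * l / r) := by
          have r0 : 0 < r := by linarith
          field_simp
          have := mul_nonneg (sq_nonneg Λ) l0
          have := mul_nonneg (sq_nonneg θ) (sq_nonneg r)
          nlinarith
      _ ≤ _ := by linarith

end Pool.Agent.P.MP_6b977f_mp.RB
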