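import Pool.Agent.P.MP_6b977f_mp.RB.Iface

/-! Step EXCH. -/

namespace Pool.Agent.P.MP_6b977f_mp.RB

open Real MeasureTheory ProbabilityTheory Filter Topology Finset Laplacian
open scoped ContDiff ComplexConjugate ENNReal Matrix

namespace EXCHA

variable {ι : Type} [Fintype ι] [DecidableEq ι]

lemma perm (y : ι × ι → ℝ) (t : Equiv.Perm ι) (E δ : ℝ) (i j : ι) :
    FF (Wig (y ∘ t.prodCongr t)) E δ i j = FF (Wig y) E δ (t i) (t j) := by
  have : GG (Wig (y ∘ t.prodCongr t)) (E + δ * Complex.I) =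
      (GG (Wig y) (E + δ * Complex.I)).submatrix t t := by
    rw [GG, GG, ← Matrix.inv_submatrix_equiv]
    congr 1
    ext k l
    simp [Wig, Matrix.one_apply]
  rw [FF, this]
  rfl

end EXCHA

theorem p_EXCH (hRES : S_RES) :
    S_EXCH := by
  intro ν _ ι _ _ E δ A hδ hA hA2
  obtain ⟨r1, r2⟩ := hRES ι E δ _ hδ rfl
  have sy : ∀ y : ι × ι → ℝ, (Wig y).IsSymm := fun y => Matrix.IsSymm.ext fun i j => by
    simp [Wig, add_comm]
  have I : ∀ i j, Integrable (fun y => FF (Wig y) E δ i j ^ 2) (Measure.pi fun _ : ι × ι => ν) :=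
    fun i j => by
    refine Integrable.of_bound (Continuous.aestronglyMeasurable ((continuous_const.mul
      (Complex.continuous_im.comp (r2 _ Wig (continuous_matrix fun k l => ?_) sy i j))).pow 2)) 1
      (ae_of_all _ fun y => ?_)
    · simp only [Wig, Matrix.of_apply]
      fun_prop
    · rw [norm_pow, sq_le_one_iff₀ (norm_nonneg _), FF, norm_mul, Real.norm_of_nonneg hδ.le,
        ← le_div_iff₀' hδ]
      exact (Complex.abs_im_le_norm _).trans ((r1 _ (sy y)).2.2.2.2.2.1 i j)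
  refine ⟨I, ?_⟩
  rw [integral_finsetSum _ fun i _ => I i i, integral_finsetSum _ fun i _ =>
    integrable_finsetSum _ fun j _ => (I i j).const_mul _, mul_sum]
  set f : ι → ι → ℝ := fun i j => ∫ y, FF (Wig y) E δ i j ^ 2 ∂(Measure.pi fun _ : ι × ι => ν)
    with hf
  have f0 : ∀ i j, 0 ≤ f i j := fun i j => integral_nonneg fun _ => sq_nonneg _
  have f1 : ∀ (t : Equiv.Perm ι) i j, f (t i) (t j) = f i j := fun t i j => by
    refine Eq.trans ?_ ((measurePreserving_arrowCongr' (fun _ => ν) (fun _ => ν)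
      (t.prodCongr t).symm (.refl ℝ) fun _ => MeasurePreserving.id ν).integral_comp' _)
    simp only [hf, ← EXCHA.perm]
    rfl
  obtain ⟨γ, g0, g1⟩ : ∃ γ, 0 ≤ γ ∧ ∀ i j, i ≠ j → f i j = γ := by
    by_cases h : ∃ k l : ι, k ≠ l
    · obtain ⟨k, l, h⟩ := h
      refine ⟨f k l, f0 k l, fun i j e => ?_⟩
      rw [← f1 (Equiv.swap (Equiv.swap k i l) j * Equiv.swap k i) k l, Equiv.Perm.mul_apply,
        Equiv.Perm.mul_apply, Equiv.swap_apply_left, Equiv.swap_apply_left,
        Equiv.swap_apply_of_ne_of_ne _ e]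
      exact fun a => h ((Equiv.swap k i).injective ((Equiv.swap_apply_left k i).trans a))
    · exact ⟨0, le_rfl, fun i j e => absurd ⟨i, j, e⟩ h⟩
  refine sum_le_sum fun i _ => ?_
  rw [integral_finsetSum _ fun j _ => (I i j).const_mul _]
  simp only [integral_const_mul]
  have e : ∑ j, A i * A j * f i j = ∑ j, (A i * γ * A j + if j = i then A i ^ 2 * (f i i - γ) else 0) :=
    sum_congr rfl fun j _ => by
      split_ifs with h
      · rw [h]; ring
      · rw [g1 i j (Ne.symm h)]; ring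
  rw [e, sum_add_distrib, ← mul_sum, hA, sum_ite_eq', if_pos (mem_univ _)]
  have := sq_le_sq' (abs_le.1 (hA2 i)).1 (abs_le.1 (hA2 i)).2
  change _ ≤ 4 * f i i
  nlinarith [f0 i i, sq_nonneg (A i)]

end Pool.Agent.P.MP_6b977f_mp.RB
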