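import Pool.Agent.P.MP_6b977f_mp.RB.Iface

/-! Step EXE. -/

namespace Pool.Agent.P.MP_6b977f_mp.RB

open Real MeasureTheory ProbabilityTheory Filter Topology Finset Laplacian
open scoped ContDiff ComplexConjugate ENNReal Matrix

namespace EXEA

theorem row {ρ : ℕ → ℝ} {lam : ℝ} {c : II → ℝ} (h : SEig (VV ρ) lam c) (a b : ℕ) :
    ((a : ℝ) ^ 2 - lam + b ^ 2) * (π * nn a * c (a, b)) =
      nn b * (-(π * nn a) * ((lam - a ^ 2) * c (a, 0)) / nn 0) := by
  have e := ((h.2 (a, b)).mul_left (nn 0)).unique (((h.2 (a, 0)).mul_left (nn b)).congr_fun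
    fun η => by simp only [VV, ww]; ring)
  have := (nn_pos 0).ne'
  simp only [dd] at e
  push_cast at e
  rw [← mul_div_assoc, eq_div_iff this]
  linear_combination -(π * nn a) * e

end EXEA

theorem p_EXE (hSEP1 : S_SEP1) (hSEP2 : S_SEP2) (hSEP3 : S_SEP3) (hSEP4 : S_SEP4) (hCB2 : S_CB2) (hBR : S_BR) :
    S_EXE := by
  intro ρ lam c h0 hρ hc h1
  choose α h2 h3 using fun a : ℕ => hSEP1 _ _ _ (EXEA.row hc a)
  have hb : ∀ a : ℕ, 1 ≤ (a : ℝ) ^ 2 - lam →
      |α a| * cosh (√(a ^ 2 - lam) * π) ≤ 4 * π * √(a ^ 2 - lam) := fun a ha => by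
    have c1 : |c (a, 0)| ≤ 1 := abs_le_one_iff_mul_self_le_one.2
      (le_hasSum h1 _ fun _ _ => mul_self_nonneg _)
    have := nn_pos a
    have := nn_le a
    refine (h3 a ha).trans ?_
    rw [abs_mul, abs_of_pos (by positivity : 0 < π * nn a)]
    calc _ ≤ 4 * √(a ^ 2 - lam) * (π * 1 * 1) := by gcongr
      _ = _ := by ring
  obtain ⟨s1, s2, -⟩ := hSEP2 α lam _ hb
  obtain ⟨m1, m2, m3⟩ := hSEP3 α lam _ c hb (by simpa only [sq] using h1.summable) h2
  have g := hSEP4 α lam _ hb (Summable.of_nonneg_of_le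
    (fun a => mul_nonneg (by positivity) (integral_nonneg fun _ => sq_nonneg _))
    (fun a => hasSum_le (fun b => ?_) ((m3 a).mul_left _) ((hc.1.prod_factor a).hasSum.mul_left _))
    (hc.1.prod.mul_left (π ^ 2)))
  · refine ⟨_, (hBR ρ lam _ h0 hρ).2 s1 s2 g ?_ (m2 ▸ hc), m2⟩
    have := (hCB2.1 _ _ m1 m1).unique (m2 ▸ h1)
    rw [div_eq_one_iff_eq (by positivity)] at this
    simpa only [sq, sqr_vol] using this
  · have := nn_pos a
    have := nn_le a
    simp only [dd]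
    push_cast
    calc _ ≤ (1 + ((a : ℝ) ^ 2 + b ^ 2)) * (π ^ 2 * 1 ^ 2 * c (a, b) ^ 2) := by
          gcongr
          exact le_add_of_nonneg_right (sq_nonneg _)
      _ = _ := by ring

end Pool.Agent.P.MP_6b977f_mp.RB
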