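import Pool.Agent.P.MP_6b977f_mp.RB.Iface

/-! Step EXPS. -/

namespace Pool.Agent.P.MP_6b977f_mp.RB

open Real MeasureTheory ProbabilityTheory Filter Topology Finset Laplacian
open scoped ContDiff ComplexConjugate ENNReal Matrix

namespace EXPSA

/-- Admissible coefficients. -/
def Good (O : Set ℂ) (L : ℕ → ℂ →L[ℝ] ℂ) (β : ℕ → ℂ) : Prop :=
  ∀ z ∈ O, ∃ r > 0, Metric.ball z r ⊆ O ∧ ∃ M : ℕ → ℝ,
    (∀ a, ∀ w ∈ Metric.ball z r, ‖Complex.exp (L a w)‖ ≤ M a) ∧
    ∀ k : ℕ, Summable fun a => ‖β a‖ * (1 + ‖L a‖) ^ k * M a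

/-- The sum of the series. -/
noncomputable def F (L : ℕ → ℂ →L[ℝ] ℂ) (β : ℕ → ℂ) (z : ℂ) : ℂ := ∑' a, β a * Complex.exp (L a z)

variable {O : Set ℂ} {L : ℕ → ℂ →L[ℝ] ℂ} {β : ℕ → ℂ} {z : ℂ}

lemma Good.mul (h : Good O L β) (v : ℂ) : Good O L fun a => β a * L a v := fun z hz => by
  obtain ⟨r, r0, hr, M, h1, h2⟩ := h z hz
  refine ⟨r, r0, hr, M, h1, fun k => ?_⟩
  have hM : ∀ a, 0 ≤ M a := fun a => (norm_nonneg _).trans (h1 a z (Metric.mem_ball_self r0))
  refine Summable.of_nonneg_of_le (fun a => by have := hM a; positivity) (fun a => ?_)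
    ((h2 (k + 1)).mul_left ‖v‖)
  have h3 : ‖L a v‖ ≤ (1 + ‖L a‖) * ‖v‖ :=
    ((L a).le_opNorm v).trans (by gcongr; linarith)
  have := hM a
  calc ‖β a * L a v‖ * (1 + ‖L a‖) ^ k * M a
      ≤ ‖β a‖ * ((1 + ‖L a‖) * ‖v‖) * (1 + ‖L a‖) ^ k * M a := by rw [norm_mul]; gcongr
    _ = _ := by ring

lemma Good.sum (h : Good O L β) (hz : z ∈ O) : Summable fun a => β a * Complex.exp (L a z) := by
  obtain ⟨r, r0, -, M, h1, h2⟩ := h z hz
  refine (h2 0).of_norm_bounded fun a => ?_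
  rw [norm_mul, pow_zero, mul_one]
  gcongr
  exact h1 a z (Metric.mem_ball_self r0)

lemma Good.der (h : Good O L β) (hz : z ∈ O) : DifferentiableAt ℝ (F L β) z ∧
    ∀ v, HasSum (fun a => β a * L a v * Complex.exp (L a z)) (fderiv ℝ (F L β) z v) := by
  have h0 := h.sum hz
  obtain ⟨r, r0, -, M, h1, h2⟩ := h z hz
  have hb : ∀ a, ∀ w ∈ Metric.ball z r, ‖(β a * Complex.exp (L a w)) • L a‖ ≤
      ‖β a‖ * (1 + ‖L a‖) ^ 1 * M a := fun a w hw => by
    have := h1 a w hw
    have hM : 0 ≤ M a := (norm_nonneg _).trans this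
    calc _ ≤ ‖β a * Complex.exp (L a w)‖ * ‖L a‖ := norm_smul_le _ _
      _ ≤ ‖β a‖ * M a * (1 + ‖L a‖) := by rw [norm_mul]; gcongr; linarith
      _ = _ := by ring
  have hd := hasFDerivAt_tsum_of_isPreconnected (𝕜 := ℝ)
    (f := fun a w => β a * Complex.exp (L a w))
    (f' := fun a w => (β a * Complex.exp (L a w)) • L a) (h2 1) Metric.isOpen_ball
    (convex_ball z r).isPreconnected (fun a w _ => by
      have := ((L a).hasFDerivAt (x := w)).cexp.const_mul (β a)
      rwa [smul_smul] at this) hb (Metric.mem_ball_self r0) h0 (Metric.mem_ball_self r0)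
  refine ⟨hd.differentiableAt, fun v => ?_⟩
  have hs := ((h2 1).of_norm_bounded fun a => hb a z (Metric.mem_ball_self r0)).hasSum
  have h3 := hs.mapL (ContinuousLinearMap.apply ℝ ℂ v)
  have e : fderiv ℝ (F L β) z = _ := hd.fderiv
  rw [e]
  have e2 : (fun a => β a * L a v * Complex.exp (L a z)) = fun a =>
      ContinuousLinearMap.apply ℝ ℂ v ((β a * Complex.exp (L a z)) • L a) := funext fun a => by
    show _ = β a * Complex.exp (L a z) * L a v
    ring
  rw [e2]
  exact h3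

lemma Good.der_eq (h : Good O L β) (hz : z ∈ O) (v : ℂ) :
    fderiv ℝ (F L β) z v = F L (fun a => β a * L a v) z := ((h.der hz).2 v).tsum_eq.symm

lemma cd (hO : IsOpen O) (n : ℕ) : ∀ β, Good O L β → ContDiffOn ℝ n (F L β) O := by
  induction n with
  | zero =>
    exact fun β h => contDiffOn_zero.2 fun z hz => (h.der hz).1.continuousAt.continuousWithinAt
  | succ n ih =>
    intro β h
    rw [Nat.cast_succ, contDiffOn_succ_iff_fderiv_of_isOpen hO]
    refine ⟨fun z hz => (h.der hz).1.differentiableWithinAt, fun e => by simp at e,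
      contDiffOn_clm_apply.2 fun v => (ih _ (h.mul v)).congr fun z hz => h.der_eq hz v⟩

lemma Good.two (hO : IsOpen O) (h : Good O L β) (hz : z ∈ O) (v : ℂ) :
    HasSum (fun a => β a * L a v * L a v * Complex.exp (L a z))
      (iteratedFDeriv ℝ 2 (F L β) z ![v, v]) := by
  have h1 : DifferentiableAt ℝ (fderiv ℝ (F L β)) z :=
    (((cd hO 2 β h).contDiffAt (hO.mem_nhds hz)).fderiv_right (m := 1)
      (by norm_num)).differentiableAt one_ne_zero
  have h2 : (fun w => fderiv ℝ (F L β) w v) =ᶠ[𝓝 z] F L fun a => β a * L a v :=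
    (hO.eventually_mem hz).mono fun w hw => h.der_eq hw v
  have h3 := ((h.mul v).der hz).2 v
  rw [← h2.fderiv_eq, fderiv_clm_apply h1 (differentiableAt_const v)] at h3
  rw [iteratedFDeriv_two_apply]
  simpa using h3

end EXPSA

theorem p_EXPS :
    S_EXPS := by
  intro O L β hO h
  have hg : EXPSA.Good O L β := h
  refine ⟨contDiffOn_infty.2 fun n => EXPSA.cd hO n β hg, fun z hz =>
    ⟨hg.sum hz, (hg.der hz).2, ?_⟩⟩
  have h1 := (hg.two hO hz 1).add (hg.two hO hz Complex.I)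
  rw [InnerProductSpace.laplacian_eq_iteratedFDeriv_complexPlane]
  have e : (fun a => β a * (L a 1 ^ 2 + L a Complex.I ^ 2) * Complex.exp (L a z)) = fun a =>
      β a * L a 1 * L a 1 * Complex.exp (L a z) +
        β a * L a Complex.I * L a Complex.I * Complex.exp (L a z) := funext fun a => by ring
  rw [e]
  exact h1

end Pool.Agent.P.MP_6b977f_mp.RB
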