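import Pool.Agent.P.MP_6b977f_mp.RB.Iface
import Pool.Agent.P.MP_6b977f_mp.EB.EXH
import Pool.Agent.P.MP_6b977f_mp.EB.ENUM

/-! Step EXS. -/

namespace Pool.Agent.P.MP_6b977f_mp.RB

open Real MeasureTheory ProbabilityTheory Filter Topology Finset Laplacian
open scoped ContDiff ComplexConjugate ENNReal Matrix

theorem p_EXS (hEXS1 : S_EXS1) (hFORM : S_FORM) :
    S_EXS := by
  classical
  intro V hV
  obtain ⟨C, c1, c2⟩ := (hFORM V hV).1
  obtain ⟨T, t1, t2, t3, t4⟩ := hEXS1 V C hV c1 c2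
  obtain ⟨B, k, b1, b2, b3, b4⟩ := EB.exh_main t1 t2
  have h : ∀ b : B, 0 < k b ∧ SEig V ((k b)⁻¹ - C) b.1 := fun b =>
    t4 _ _ (b2 b).1 (b1.ne_zero b) (b2 b).2
  have hB : Infinite B := by
    rw [← not_finite_iff_infinite]
    intro _
    have := Module.Finite.of_injective (LinearMap.pi fun b : B => innerₗ _ b.1)
      ((injective_iff_map_eq_zero _).2 fun x hx => t3 x (b4 x (congrFun hx)))
    have := (HilbertBasis.ofRepr (.refl ℝ _) :
      HilbertBasis II ℝ (lp (fun _ : II => ℝ) 2)).orthonormal.linearIndependent.finite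
    exact not_finite II
  have c0 : (0 : ℝ) < C := by exact_mod_cast c1
  obtain ⟨e, he⟩ := EB.t_enum B (fun b => (k b)⁻¹ - C) hB fun a =>
    (b3 (|a| + C)⁻¹ (by positivity)).subset fun b hb => by
      refine le_trans ?_ (le_abs_self (k b))
      rw [inv_le_comm₀ (by positivity) (h b).1]
      linarith [le_abs_self a, show (k b)⁻¹ - C ≤ a from hb]
  refine ⟨_, fun j => (e j).1, fun j => (h _).2, fun i j => ?_, fun x hx h0 => ?_, he⟩
  · simpa [orthonormal_iff_ite.1 b1, mul_comm] using lp.hasSum_inner (𝕜 := ℝ) (e i).1 (e j).1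
  · have m : Memℓp x 2 := memℓp_gen (by simpa using hx)
    refine congrArg Subtype.val (t3 ⟨x, m⟩ (b4 _ fun b => ?_))
    obtain ⟨j, rfl⟩ := e.surjective b
    simpa [lp.inner_eq_tsum] using h0 j

end Pool.Agent.P.MP_6b977f_mp.RB
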