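import Pool.Agent.P.MP_6b977f_mp.RB.Iface

/-! Step EXS1. -/

namespace Pool.Agent.P.MP_6b977f_mp.RB

open Real MeasureTheory ProbabilityTheory Filter Topology Finset Laplacian
open scoped ContDiff ComplexConjugate ENNReal Matrix

namespace EXS1A

abbrev H : Type := lp (fun _ : II => ℝ) 2

lemma inner_eq (x y : H) : HasSum (fun ξ => x ξ * y ξ) (inner ℝ x y) := by
  simpa [mul_comm] using lp.hasSum_inner (𝕜 := ℝ) x y

lemma nsq (x : H) : HasSum (fun ξ => x ξ ^ 2) (‖x‖ ^ 2) := by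
  simpa only [sq, real_inner_self_eq_norm_mul_norm] using inner_eq x x

lemma mem2 {f : II → ℝ} (h : Summable fun ξ => f ξ ^ 2) : Memℓp f 2 :=
  memℓp_gen (by simpa using h)

lemma mkOp (F : H → II → ℝ) (ha : ∀ x y ξ, F (x + y) ξ = F x ξ + F y ξ)
    (hs : ∀ (c : ℝ) x ξ, F (c • x) ξ = c * F x ξ) (c : ℝ) (hc : 0 ≤ c)
    (hb : ∀ x, (Summable fun ξ => F x ξ ^ 2) ∧ ∑' ξ, F x ξ ^ 2 ≤ c ^ 2 * ‖x‖ ^ 2) :
    ∃ A : H →L[ℝ] H, (∀ x ξ, A x ξ = F x ξ) ∧ ‖A‖ ≤ c := by
  let L : H →ₗ[ℝ] H :=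
    { toFun := fun x => ⟨F x, mem2 (hb x).1⟩
      map_add' := fun x y => lp.ext (funext (ha x y))
      map_smul' := fun c x => lp.ext (funext (hs c x)) }
  have hL : ∀ x, ‖L x‖ ≤ c * ‖x‖ := fun x => by
    refine (pow_le_pow_iff_left₀ (norm_nonneg _) (by positivity) two_ne_zero).1 ?_
    rw [← (nsq (L x)).tsum_eq, mul_pow]
    exact (hb x).2
  exact ⟨L.mkContinuous c hL, fun _ _ => rfl, L.mkContinuous_norm_le hc hL⟩

lemma mulOp (a : II → ℝ) (c : ℝ) (hc : 0 ≤ c) (h : ∀ ξ, |a ξ| ≤ c) :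
    ∃ A : H →L[ℝ] H, (∀ x ξ, A x ξ = a ξ * x ξ) ∧ ‖A‖ ≤ c := by
  refine mkOp (fun x ξ => a ξ * x ξ) (fun x y ξ => by simp [mul_add])
    (fun c x ξ => by simp [mul_left_comm]) c hc fun x => ?_
  have h1 : ∀ ξ, (a ξ * x ξ) ^ 2 ≤ c ^ 2 * x ξ ^ 2 := fun ξ => by
    rw [mul_pow, ← sq_abs (a ξ)]; gcongr; exact h ξ
  have h2 := (nsq x).mul_left (c ^ 2)
  have h3 := Summable.of_nonneg_of_le (fun ξ => sq_nonneg _) h1 h2.summable
  exact ⟨h3, hasSum_le h1 h3.hasSum h2⟩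

lemma cpt_fin (a : II → ℝ) (T : Finset II) : ∃ A : H →L[ℝ] H, IsCompactOperator A ∧
    ∀ x ξ, A x ξ = if ξ ∈ T then a ξ * x ξ else 0 := by
  induction T using Finset.induction_on with
  | empty => exact ⟨0, isCompactOperator_zero, by simp⟩
  | insert η T hη ih =>
    obtain ⟨A, h1, h2⟩ := ih
    refine ⟨A + (lp.singleContinuousLinearMap ℝ (fun _ : II => ℝ) 2 η).comp
      (a η • lp.evalCLM ℝ (fun _ : II => ℝ) 2 η), h1.add
      ((isCompactOperator_of_locallyCompactSpace_dom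
        (a η • lp.evalCLM ℝ (fun _ : II => ℝ) 2 η)).clm_comp
          (lp.singleContinuousLinearMap ℝ (fun _ : II => ℝ) 2 η)), fun x ξ => ?_⟩
    change A x ξ + lp.single (E := fun _ : II => ℝ) 2 η (a η * x η) ξ = _
    by_cases e : ξ = η
    · subst e; simp [h2, hη]
    · simp [h2, e]

lemma cpt (a : II → ℝ) (S : H →L[ℝ] H) (hS : ∀ x ξ, S x ξ = a ξ * x ξ)
    (h : ∀ N : ℕ, 0 < N → ∀ ξ, N < dd ξ → |a ξ| ≤ (√N)⁻¹) : IsCompactOperator S := by
  choose A h1 h2 using fun N => cpt_fin a (Box N)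
  refine isCompactOperator_of_tendsto (l := atTop) (F := A) ?_ (Eventually.of_forall h1)
  rw [tendsto_iff_norm_sub_tendsto_zero]
  refine squeeze_zero' (Eventually.of_forall fun _ => norm_nonneg _)
    ((eventually_gt_atTop 0).mono fun N hN => ?_) (tendsto_inv_atTop_zero.comp (tendsto_sqrt_atTop.comp tendsto_natCast_atTop_atTop))
  obtain ⟨B, h3, h4⟩ := mulOp (fun ξ => if ξ ∈ Box N then 0 else -a ξ) (√N)⁻¹ (by positivity)
    fun ξ => by
      split_ifs with e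
      · simp
      · rw [abs_neg]; exact h N hN ξ (not_le.1 (mt mem_Box.2 e))
  refine le_of_eq_of_le (congrArg _ ?_) h4
  ext x ξ
  rw [h3]
  by_cases e : ξ ∈ Box N <;> simp [h2, hS, e]

end EXS1A

open EXS1A in
theorem p_EXS1 (hHS0 : S_HS0) :
    S_EXS1 := by
  intro V C hV hC hB
  obtain ⟨hA, hK, -⟩ := hHS0
  have hC' : (1 : ℝ) ≤ C := by exact_mod_cast hC
  have hD : ∀ ξ, DD (-C) ξ = dd ξ + C := fun ξ => by
    have : (0 : ℝ) ≤ dd ξ := by positivity
    rw [DD, Int.cast_neg, Int.cast_natCast, sub_neg_eq_add, abs_of_nonneg (by linarith),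
      max_eq_right (by linarith)]
  set r : II → ℝ := fun ξ => √(DD (-C) ξ) with hr
  have r1 : ∀ ξ, 1 ≤ r ξ := fun ξ => one_le_sqrt.2 (one_le_DD _ _)
  have r0 : ∀ ξ, 0 < r ξ := fun ξ => one_pos.trans_le (r1 ξ)
  have r2 : ∀ ξ, r ξ ^ 2 = DD (-C) ξ := fun ξ => sq_sqrt (zero_le_one.trans (one_le_DD _ _))
  set K : II → II → ℝ := fun ξ η => V ξ η / (r ξ * r η) with hKd
  have k1 : ∀ p : II × II, K p.1 p.2 ^ 2 = ker V (-C) p := fun p => by
    simp only [hKd, ker, div_pow, mul_pow, r2]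
  have k2 : Summable fun p : II × II => K p.1 p.2 ^ 2 := by simpa only [k1] using hV.2 (-C)
  have k3 : ∀ (x : H) ξ, Summable fun η => K ξ η * x η := fun x ξ =>
    (hA _ _ ((hK K x k2 (nsq x).summable).1 ξ) (nsq x).summable).1.of_abs
  obtain ⟨S, hS, -⟩ := mulOp (fun ξ => (r ξ)⁻¹) 1 zero_le_one fun ξ => by
    rw [abs_of_pos (inv_pos.2 (r0 ξ))]; exact inv_le_one_of_one_le₀ (r1 ξ)
  obtain ⟨B, hBx, hBn⟩ := mkOp (fun x ξ => ∑' η, K ξ η * x η)
    (fun x y ξ => by rw [← (k3 x ξ).tsum_add (k3 y ξ)]; simp [mul_add])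
    (fun c x ξ => by rw [← tsum_mul_left]; simp [mul_left_comm]) (1 / 2) (by norm_num) fun x => by
      obtain ⟨-, a, b, -⟩ := hK K x k2 (nsq x).summable
      refine ⟨a, b.trans ?_⟩
      rw [(nsq x).tsum_eq]
      simp only [k1]
      exact mul_le_mul_of_nonneg_right (le_trans hB (by norm_num)) (sq_nonneg _)
  have sS : ∀ x y, inner ℝ (S x) y = inner ℝ x (S y) := fun x y =>
    (inner_eq (S x) y).unique (by simpa only [hS, mul_left_comm, mul_assoc] using inner_eq x (S y))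
  have sB : ∀ x y, inner ℝ (B x) y = inner ℝ x (B y) := fun x y => by
    rw [real_inner_comm, ← (inner_eq y (B x)).tsum_eq, ← (inner_eq x (B y)).tsum_eq]
    simp only [hBx]
    rw [(hK K x k2 (nsq x).summable).2.2.2 y (nsq y).summable]
    exact tsum_congr fun η => congrArg _ (tsum_congr fun ξ => by
      simp only [hKd]; rw [hV.1 ξ η, mul_comm (r ξ)])
  let u := Units.oneSub (-B) (by rw [norm_neg]; linarith)
  have u1 : ∀ x, (↑u⁻¹ : H →L[ℝ] H) x + B ((↑u⁻¹ : H →L[ℝ] H) x) = x := fun x => by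
    simpa [u] using congrArg (fun A : H →L[ℝ] H => A x) u.mul_inv
  set R : H →L[ℝ] H := ↑u⁻¹
  have iS : ∀ x, S x = 0 → x = 0 := fun x h => lp.ext (funext fun ξ => by
    have := congrArg (fun z : H => z ξ) h
    simpa [hS, (r0 ξ).ne'] using this)
  refine ⟨S.comp (R.comp S), ?_, fun x y => ?_, fun x h => ?_, fun k x hk hx h => ?_⟩
  · refine ((cpt _ S hS fun N hN0 ξ hN => ?_).comp_clm (R.comp S))
    rw [abs_of_pos (inv_pos.2 (r0 ξ))]
    refine inv_anti₀ (sqrt_pos.2 (by exact_mod_cast hN0)) (sqrt_le_sqrt ?_)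
    have : (N : ℝ) < dd ξ := by exact_mod_cast hN
    rw [hD]; linarith
  · change inner ℝ (S (R (S x))) y = inner ℝ x (S (R (S y)))
    rw [sS, ← sS x, ← u1 (S y), ← u1 (S x), inner_add_left, inner_add_right, sB, u1, u1]
  · have h1 := iS _ h
    have h2 := u1 (S x)
    change R (S x) = 0 at h1
    rw [h1, map_zero, add_zero] at h2
    exact iS _ h2.symm
  · set y := R (S x) with hy
    have h1 : S y = k • x := h
    have h2 : y + B y = S x := u1 _
    have h3 : ∀ ξ, y ξ = k * r ξ * x ξ := fun ξ => by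
      have := congrArg (fun z : H => z ξ) h1
      simp only [hS, lp.coeFn_smul, Pi.smul_apply, smul_eq_mul] at this
      rw [mul_right_comm, ← this, mul_right_comm, inv_mul_cancel₀ (r0 ξ).ne', one_mul]
    have y0 : 0 < ‖y‖ := norm_pos_iff.2 fun e => hx (by
      rw [e, map_zero] at h1; exact (smul_eq_zero.1 h1.symm).resolve_left hk)
    refine ⟨?_, ?_, fun ξ => ?_⟩
    · have a1 := sS x y
      rw [← h2, h1, inner_add_left, inner_smul_right, real_inner_self_eq_norm_sq,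
        real_inner_self_eq_norm_sq] at a1
      have a2 := (abs_le.1 (abs_real_inner_le_norm (B y) y)).1
      have a3 := B.le_of_opNorm_le hBn y
      have a4 : 0 < k * ‖x‖ ^ 2 := by nlinarith [mul_le_mul_of_nonneg_right a3 y0.le]
      exact pos_of_mul_pos_left a4 (sq_nonneg _)
    · refine Summable.of_nonneg_of_le (fun ξ => by positivity) (fun ξ => ?_)
        ((nsq y).summable.mul_left (k⁻¹ ^ 2))
      rw [h3, mul_pow, mul_pow, r2, hD, ← mul_assoc, ← mul_assoc, ← mul_pow, inv_mul_cancel₀ hk,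
        one_pow, one_mul]
      gcongr ?_ * _
      linarith
    · have a1 := congrArg (fun z : H => z ξ) h2
      simp only [hS, lp.coeFn_add, Pi.add_apply, hBx] at a1
      have a2 := ((k3 y ξ).hasSum).mul_left (r ξ / k)
      have a3 := r2 ξ
      rw [hD] at a3
      have := (r0 ξ).ne'
      have a4 : ∀ η, r ξ / k * (K ξ η * y η) = V ξ η * x η := fun η => by
        have := (r0 η).ne'
        simp only [hKd, h3]
        field_simp
      have a5 : r ξ / k * ∑' η, K ξ η * y η = (k⁻¹ - C - dd ξ) * x ξ := by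
        rw [eq_sub_of_add_eq' a1, h3, sub_sub, add_comm, ← a3]
        field_simp
      rwa [funext a4, a5] at a2

end Pool.Agent.P.MP_6b977f_mp.RB
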