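import Pool.Agent.P.MP_6b977f_mp.RB.Iface

/-! Step FORM. -/

namespace Pool.Agent.P.MP_6b977f_mp.RB

open Real MeasureTheory ProbabilityTheory Filter Topology Finset Laplacian
open scoped ContDiff ComplexConjugate ENNReal Matrix

namespace FORMA

lemma dd_neg {C : ℕ} (h : 1 ≤ C) (ξ : II) : DD (-C) ξ = dd ξ + C := by
  have h1 : (1 : ℝ) ≤ C := by exact_mod_cast h
  have h2 : (0 : ℝ) ≤ dd ξ := Nat.cast_nonneg _
  rw [DD]
  push_cast
  rw [sub_neg_eq_add, abs_of_nonneg (by linarith), max_eq_right (by linarith)]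

lemma small {V : II → II → ℝ} (h : HS V) : ∃ C : ℕ, 1 ≤ C ∧ BB V (-C) ≤ 1 / 4 := by
  have h1 := tendsto_tsum_of_dominated_convergence (𝓕 := atTop)
    (f := fun (C : ℕ) p => ker V (-C) p) (g := fun _ => 0) (h.2 (-(1 : ℕ))) (fun p => ?_) ?_
  · rw [tsum_zero] at h1
    exact ((eventually_ge_atTop 1).and (h1.eventually (ge_mem_nhds (by norm_num)))).exists
  · refine Tendsto.congr' ((eventually_ge_atTop 1).mono fun C hC => by
      simp only [ker, dd_neg hC]; rfl) (tendsto_const_nhds.div_atTop ?_)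
    exact (tendsto_atTop_add_const_left _ _ tendsto_natCast_atTop_atTop).atTop_mul_atTop₀
      (tendsto_atTop_add_const_left _ _ tendsto_natCast_atTop_atTop)
  · filter_upwards [eventually_ge_atTop 1] with C hC p
    rw [ker, ker, dd_neg hC, dd_neg hC, dd_neg le_rfl, dd_neg le_rfl,
      Real.norm_of_nonneg (by positivity)]
    gcongr

def M : Submodule ℝ (II → ℝ) where
  carrier := {x | Summable fun ξ => x ξ ^ 2}
  add_mem' {x y} hx hy := Summable.of_nonneg_of_le (fun _ => sq_nonneg _)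
    (fun ξ => by rw [Pi.add_apply]; nlinarith [sq_nonneg (x ξ - y ξ)])
    ((hx.mul_left 2).add (hy.mul_left 2))
  zero_mem' := by simp
  smul_mem' a x hx := by simpa [mul_pow] using hx.mul_left (a ^ 2)

lemma sm (x y : M) : Summable fun ξ => x.1 ξ * y.1 ξ :=
  Summable.of_norm_bounded (Summable.add x.2 y.2) fun ξ => by
    rw [Real.norm_eq_abs, abs_le]
    constructor <;> nlinarith [sq_nonneg (x.1 ξ - y.1 ξ), sq_nonneg (x.1 ξ + y.1 ξ)]

noncomputable def ip : M →ₗ[ℝ] M →ₗ[ℝ] ℝ := LinearMap.mk₂ ℝ (fun x y => ∑' ξ, x.1 ξ * y.1 ξ)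
  (fun x y z => by simp only [Submodule.coe_add, Pi.add_apply, add_mul, (sm x z).tsum_add (sm y z)])
  (fun a x y => by simp only [Submodule.coe_smul, Pi.smul_apply, smul_eq_mul, mul_assoc,
    tsum_mul_left])
  (fun x y z => by simp only [Submodule.coe_add, Pi.add_apply, mul_add, (sm x y).tsum_add (sm x z)])
  (fun a x y => by simp only [Submodule.coe_smul, Pi.smul_apply, smul_eq_mul, mul_left_comm _ a,
    tsum_mul_left])

lemma ip_def (x y : M) : ip x y = ∑' ξ, x.1 ξ * y.1 ξ := rfl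

lemma ip_sq (x : M) : ip x x = ∑' ξ, x.1 ξ ^ 2 := by simp only [ip_def, sq]

lemma op (h : S_HS0) {K : II → II → ℝ} (hs : ∀ ξ η, K ξ η = K η ξ)
    (h1 : Summable fun p : II × II => K p.1 p.2 ^ 2) (h2 : ∑' p : II × II, K p.1 p.2 ^ 2 ≤ 1 / 4) :
    ∃ Q : M →ₗ[ℝ] M →ₗ[ℝ] ℝ, (∀ x y, Q x y = ∑' ξ, x.1 ξ * (y.1 ξ + ∑' η, K ξ η * y.1 η)) ∧
      (∀ x y, Q x y = Q y x) ∧ ∀ x, ip x x / 2 ≤ Q x x ∧ Q x x ≤ 3 / 2 * ip x x := by
  let k : II → M := fun ξ => ⟨K ξ, (h.2.1 K 0 h1 M.zero_mem).1 ξ⟩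
  let A : M →ₗ[ℝ] M :=
    { toFun := fun x => ⟨fun ξ => ip (k ξ) x, (h.2.1 K x h1 x.2).2.1⟩
      map_add' := fun x y => by ext; simp
      map_smul' := fun a x => by ext; simp }
  have e : ∀ x y, ip.compl₂ (LinearMap.id + A) x y = ip x y + ip x (A y) := fun x y => by simp
  refine ⟨ip.compl₂ (LinearMap.id + A), fun x y => rfl, fun x y => ?_, fun x => ?_⟩
  · rw [e, e]
    congr 1
    · simp only [ip_def, mul_comm]
    · refine ((h.2.1 K y h1 y.2).2.2.2 x x.2).trans ?_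
      exact tsum_congr fun η => congrArg _ (tsum_congr fun ξ => by rw [hs])
  · have a1 : ip x (A x) ^ 2 ≤ _ := (h.1 x (A x) x.2 (A x).2).2
    have a2 : ∑' ξ, (A x).1 ξ ^ 2 ≤ _ := (h.2.1 K x h1 x.2).2.2.1
    have a3 : 0 ≤ ∑' ξ, x.1 ξ ^ 2 := tsum_nonneg fun _ => sq_nonneg _
    rw [← ip_sq x] at a1 a2 a3
    have a4 := mul_le_mul_of_nonneg_left (a2.trans (mul_le_mul_of_nonneg_right h2 a3)) a3
    have a5 := abs_le_of_sq_le_sq' (b := ip x x / 2) (a1.trans (a4.trans_eq (by ring)))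
      (by linarith)
    rw [e]
    constructor <;> linarith [a5.1, a5.2]

end FORMA

open FORMA in
theorem p_FORM (hHS0 : S_HS0) :
    S_FORM := by
  refine fun V hV => ⟨small hV, fun C lam c hC hB hc he => ?_⟩
  have C1 : (1 : ℝ) ≤ C := by exact_mod_cast hC
  have D1 : ∀ ξ, (1 : ℝ) ≤ dd ξ + C := fun ξ => by linarith [Nat.cast_nonneg (α := ℝ) (dd ξ)]
  obtain ⟨s, s0, s2⟩ : ∃ s : II → ℝ, (∀ ξ, 0 < s ξ) ∧ ∀ ξ, s ξ ^ 2 = dd ξ + C :=
    ⟨fun ξ => √(dd ξ + C), fun ξ => Real.sqrt_pos.2 (by linarith [D1 ξ]),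
      fun ξ => Real.sq_sqrt (by linarith [D1 ξ])⟩
  have ek : (fun p : II × II => (V p.1 p.2 / (s p.1 * s p.2)) ^ 2) = ker V (-C) := funext fun p => by
    rw [ker, dd_neg hC, dd_neg hC, div_pow, mul_pow, s2, s2]
  obtain ⟨Q, q1, q2, q3⟩ := op hHS0 (K := fun ξ η => V ξ η / (s ξ * s η))
    (fun ξ η => by rw [hV.1, mul_comm]) (ek ▸ hV.2 _) (ek ▸ hB)
  let x : ℕ → M := fun j => ⟨fun ξ => s ξ * c j ξ, Summable.of_nonneg_of_le (fun _ => sq_nonneg _)
    (fun ξ => by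
      rw [mul_pow, s2, ← mul_assoc]
      gcongr
      nlinarith [Nat.cast_nonneg (α := ℝ) (dd ξ)]) (Summable.mul_left (C : ℝ) (he j).1)⟩
  have q4 : ∀ (y : M) (v : II → ℝ) j, (∀ ξ, y.1 ξ = s ξ * v ξ) →
      Q y (x j) = (lam j + C) * ∑' ξ, v ξ * c j ξ := fun y v j hy => by
    rw [q1, ← tsum_mul_left]
    refine tsum_congr fun ξ => ?_
    have a1 := (((he j).2 ξ).div_const (s ξ)).tsum_eq
    have a2 := (s0 ξ).ne'
    rw [hy, tsum_congr (g := fun η => V ξ η * c j η / s ξ) fun η => by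
      have := (s0 η).ne'
      simp only [x]; field_simp, a1]
    simp only [x]
    field_simp
    rw [s2]; ring
  have q5 : ∀ i j, Q (x i) (x j) = if i = j then lam j + C else 0 := fun i j => by
    rw [q4 _ (c i) j fun _ => rfl, (hc i j).tsum_eq]; simp
  refine ⟨fun j => ?_, fun T ξ => ?_⟩
  · have a1 := (q3 (x j)).1
    have a2 := hc j j
    rw [q5, if_pos rfl] at a1
    rw [if_pos rfl] at a2
    have a3 : 1 ≤ ip (x j) (x j) := by
      rw [← a2.tsum_eq]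
      refine a2.summable.tsum_le_tsum (fun ξ => ?_) (sm _ _)
      have := mul_le_mul_of_nonneg_right (D1 ξ) (mul_self_nonneg (c j ξ))
      rw [← s2] at this
      simp only [x]; linarith
    linarith
  classical
  let e : M := ⟨fun η => s η * if η = ξ then 1 else 0,
    summable_of_ne_finset_zero (s := {ξ}) fun η h => by
      simp [notMem_singleton.1 h]⟩
  have q6 : ∀ j, Q e (x j) = (lam j + C) * c j ξ := fun j => by
    rw [q4 _ _ j fun _ => rfl]; simp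
  have q7 : ip e e = dd ξ + C := by
    rw [ip_sq, tsum_eq_single ξ fun η h => by simp [e, h]]; simp [e, s2]
  have a1 := (q3 (e - ∑ j ∈ T, c j ξ • x j)).1
  have a2 : 0 ≤ ip (e - ∑ j ∈ T, c j ξ • x j) (e - ∑ j ∈ T, c j ξ • x j) := by
    rw [ip_sq]; exact tsum_nonneg fun _ => sq_nonneg _
  have a3 := (q3 e).2
  have a4 : Q e (∑ j ∈ T, c j ξ • x j) = ∑ j ∈ T, (lam j + C) * c j ξ ^ 2 := by
    simp only [map_sum, map_smul, q6, smul_eq_mul]
    exact sum_congr rfl fun _ _ => by ring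
  have a5 : Q (∑ j ∈ T, c j ξ • x j) (∑ j ∈ T, c j ξ • x j)
      = ∑ j ∈ T, (lam j + C) * c j ξ ^ 2 := by
    simp only [map_sum, map_smul, LinearMap.sum_apply, LinearMap.smul_apply, q5, smul_eq_mul]
    refine sum_congr rfl fun j hj => ?_
    simp only [mul_ite, mul_zero, sum_ite_eq', hj, if_true]
    ring
  rw [map_sub (Q _), map_sub Q, LinearMap.sub_apply, LinearMap.sub_apply,
    q2 (∑ j ∈ T, _) e, a4, a5] at a1
  linarith

end Pool.Agent.P.MP_6b977f_mp.RB
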