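import Pool.Agent.P.MP_6b977f_mp.RB.TLAT

/-! Step GP. -/

namespace Pool.Agent.P.MP_6b977f_mp.RB

open Ar

theorem p_GP : S_GP := by
  intro p hp
  obtain ⟨q, h1, h2⟩ : ∃ q : GI, Prime q ∧ (q.norm = p ∨ q = p) := by
    by_cases h : Irreducible (p : GI)
    · exact ⟨p, h.prime, Or.inr rfl⟩
    have := Fact.mk hp
    obtain ⟨a, b, e⟩ := GaussianInt.sq_add_sq_of_nat_prime_of_not_irreducible p h
    have n : nm ⟨a, b⟩ = p := by zify; rw [nm_cast, ← e]; push_cast; rfl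
    refine ⟨⟨a, b⟩, Irreducible.prime ⟨fun k => hp.ne_one (n ▸ nm_eq_one.2 k), fun u v k => ?_⟩,
      Or.inl (mem_Lam.1 (mem_Lam'.2 n))⟩
    rw [k, nm_mul] at n
    exact (hp.isUnit_or_isUnit n.symm).imp (fun k => nm_eq_one.1 (Nat.isUnit_iff.1 k))
      fun k => nm_eq_one.1 (Nat.isUnit_iff.1 k)
  refine ⟨q, h1, h2, fun ξ h => ?_⟩
  have d1 : q ∣ (p : GI) := by
    rcases h2 with k | k
    · exact ⟨star q, by rw [mul_star_eq, mem_Lam'.1 (mem_Lam.2 k)]⟩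
    · rw [k]
  have d2 : (p : GI) ∣ ξ * star ξ := by
    rw [mul_star_eq]
    exact Nat.cast_dvd_cast (Int.natCast_dvd.1 h)
  refine (h1.dvd_or_dvd (d1.trans d2)).imp id fun ⟨c, k⟩ => ⟨star c, ?_⟩
  rw [← star_mul', ← k, star_star]

end Pool.Agent.P.MP_6b977f_mp.RB
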