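import Pool.Agent.P.MP_6b977f_mp.RB.Iface

/-! Step HS0. -/

namespace Pool.Agent.P.MP_6b977f_mp.RB

open Real MeasureTheory ProbabilityTheory Filter Topology Finset Laplacian
open scoped ContDiff ComplexConjugate ENNReal Matrix

namespace HS0A

theorem abs_sum {ι : Type} (x y : ι → ℝ) (hx : Summable fun ξ => x ξ ^ 2)
    (hy : Summable fun ξ => y ξ ^ 2) : Summable fun ξ => |x ξ * y ξ| := by
  refine Summable.of_nonneg_of_le (fun _ => abs_nonneg _) (fun ξ => ?_) (hx.add hy)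
  rw [abs_le]
  constructor <;> nlinarith [sq_nonneg (x ξ + y ξ), sq_nonneg (x ξ - y ξ)]

theorem cs {ι : Type} (x y : ι → ℝ) (hx : Summable fun ξ => x ξ ^ 2)
    (hy : Summable fun ξ => y ξ ^ 2) :
    (∑' ξ, x ξ * y ξ) ^ 2 ≤ (∑' ξ, x ξ ^ 2) * ∑' ξ, y ξ ^ 2 := by
  have h : Summable fun ξ => x ξ * y ξ := (abs_sum x y hx hy).of_abs
  have ht : Tendsto (fun s : Finset ι => (∑ ξ ∈ s, x ξ * y ξ) ^ 2) atTop
      (𝓝 ((∑' ξ, x ξ * y ξ) ^ 2)) := Tendsto.pow h.hasSum 2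
  refine le_of_tendsto' ht fun s => ?_
  refine (Finset.sum_mul_sq_le_sq_mul_sq s x y).trans ?_
  exact mul_le_mul (hx.sum_le_tsum s fun _ _ => sq_nonneg _)
    (hy.sum_le_tsum s fun _ _ => sq_nonneg _) (Finset.sum_nonneg fun _ _ => sq_nonneg _)
    (tsum_nonneg fun _ => sq_nonneg _)

theorem rows {ι : Type} (K : ι → ι → ℝ) (hK : Summable fun p : ι × ι => K p.1 p.2 ^ 2)
    (ξ : ι) : Summable fun η => K ξ η ^ 2 := hK.prod_factor ξ

theorem rows2 {ι : Type} (K : ι → ι → ℝ) (hK : Summable fun p : ι × ι => K p.1 p.2 ^ 2) :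
    Summable fun ξ => ∑' η, K ξ η ^ 2 := hK.prod

theorem rows3 {ι : Type} (K : ι → ι → ℝ) (hK : Summable fun p : ι × ι => K p.1 p.2 ^ 2) :
    ∑' p : ι × ι, K p.1 p.2 ^ 2 = ∑' ξ, ∑' η, K ξ η ^ 2 := hK.tsum_prod

theorem app {ι : Type} (K : ι → ι → ℝ) (x : ι → ℝ)
    (hK : Summable fun p : ι × ι => K p.1 p.2 ^ 2) (hx : Summable fun ξ => x ξ ^ 2) :
    Summable fun ξ => (∑' η, K ξ η * x η) ^ 2 :=
  Summable.of_nonneg_of_le (fun _ => sq_nonneg _) (fun ξ => cs (K ξ) x (rows K hK ξ) hx)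
    ((rows2 K hK).mul_right _)

theorem app_le {ι : Type} (K : ι → ι → ℝ) (x : ι → ℝ)
    (hK : Summable fun p : ι × ι => K p.1 p.2 ^ 2) (hx : Summable fun ξ => x ξ ^ 2) :
    ∑' ξ, (∑' η, K ξ η * x η) ^ 2 ≤ (∑' p : ι × ι, K p.1 p.2 ^ 2) * ∑' ξ, x ξ ^ 2 := by
  rw [rows3 K hK, ← tsum_mul_right]
  exact (app K x hK hx).tsum_le_tsum (fun ξ => cs (K ξ) x (rows K hK ξ) hx)
    ((rows2 K hK).mul_right _)

theorem fub {ι : Type} (K : ι → ι → ℝ) (x y : ι → ℝ)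
    (hK : Summable fun p : ι × ι => K p.1 p.2 ^ 2) (hx : Summable fun ξ => x ξ ^ 2)
    (hy : Summable fun ξ => y ξ ^ 2) :
    ∑' ξ, y ξ * ∑' η, K ξ η * x η = ∑' η, x η * ∑' ξ, K ξ η * y ξ := by
  have h1 : Summable fun p : ι × ι => y p.1 ^ 2 * x p.2 ^ 2 :=
    Summable.mul_of_nonneg hy hx (fun _ => sq_nonneg _) (fun _ => sq_nonneg _)
  have h2 : Summable fun p : ι × ι => (y p.1 * x p.2) ^ 2 := by
    simpa only [mul_pow] using h1
  have h3 : Summable fun p : ι × ι => K p.1 p.2 * (y p.1 * x p.2) :=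
    (abs_sum (fun p : ι × ι => K p.1 p.2) (fun p => y p.1 * x p.2) hK h2).of_abs
  have h4 := Summable.tsum_comm (f := fun ξ η => K ξ η * (y ξ * x η)) h3
  simp only [← tsum_mul_left]
  calc ∑' ξ, ∑' η, y ξ * (K ξ η * x η) = ∑' ξ, ∑' η, K ξ η * (y ξ * x η) := by
        refine tsum_congr fun ξ => tsum_congr fun η => by ring
    _ = ∑' η, ∑' ξ, K ξ η * (y ξ * x η) := h4.symm
    _ = _ := by
        refine tsum_congr fun ξ => tsum_congr fun η => by ring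

theorem son_sq {J : Type} [DecidableEq J] {c : J → II → ℝ} (hc : SON c) (j : J) :
    Summable fun ξ => c j ξ ^ 2 := by
  simpa only [sq] using (hc j j).summable

theorem bessel {J : Type} [DecidableEq J] (c : J → II → ℝ) (T : Finset J) (y : II → ℝ)
    (hc : SON c) (hy : Summable fun ξ => y ξ ^ 2) :
    ∑ j ∈ T, (∑' ξ, y ξ * c j ξ) ^ 2 ≤ ∑' ξ, y ξ ^ 2 := by
  set a : J → ℝ := fun j => ∑' ξ, y ξ * c j ξ with ha
  have h1 : ∀ j, HasSum (fun ξ => y ξ * c j ξ) (a j) := fun j =>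
    (abs_sum y (c j) hy (son_sq hc j)).of_abs.hasSum
  have h2 : HasSum (fun ξ => ∑ j ∈ T, a j * (y ξ * c j ξ)) (∑ j ∈ T, a j * a j) :=
    hasSum_sum fun j _ => (h1 j).mul_left _
  have h3 : HasSum (fun ξ => ∑ i ∈ T, ∑ j ∈ T, a i * a j * (c i ξ * c j ξ))
      (∑ i ∈ T, ∑ j ∈ T, a i * a j * (if i = j then 1 else 0)) :=
    hasSum_sum fun i _ => hasSum_sum fun j _ => (hc i j).mul_left _
  have h4 : ∑ i ∈ T, ∑ j ∈ T, a i * a j * (if i = j then (1 : ℝ) else 0) =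
      ∑ j ∈ T, a j * a j := by
    refine Finset.sum_congr rfl fun i hi => ?_
    simp [hi]
  rw [h4] at h3
  have h5 := (hy.hasSum.sub (h2.mul_left 2)).add h3
  have h6 : 0 ≤ ∑' ξ, y ξ ^ 2 - 2 * ∑ j ∈ T, a j * a j + ∑ j ∈ T, a j * a j := by
    refine h5.nonneg fun ξ => ?_
    have e1 : ∑ j ∈ T, a j * (y ξ * c j ξ) = y ξ * ∑ j ∈ T, a j * c j ξ := by
      rw [Finset.mul_sum]
      exact Finset.sum_congr rfl fun j _ => by ring
    have e2 : ∑ i ∈ T, ∑ j ∈ T, a i * a j * (c i ξ * c j ξ) =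
        (∑ j ∈ T, a j * c j ξ) * ∑ j ∈ T, a j * c j ξ := by
      rw [Finset.sum_mul_sum]
      exact Finset.sum_congr rfl fun i _ => Finset.sum_congr rfl fun j _ => by ring
    rw [e1, e2]
    nlinarith [sq_nonneg (y ξ - ∑ j ∈ T, a j * c j ξ)]
  have e3 : ∑ j ∈ T, a j ^ 2 = ∑ j ∈ T, a j * a j :=
    Finset.sum_congr rfl fun j _ => sq _
  show ∑ j ∈ T, a j ^ 2 ≤ _
  linarith

theorem bessel2 {J : Type} [DecidableEq J] (c : J → II → ℝ) (T : Finset J) (K : II → II → ℝ)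
    (hc : SON c) (hK : Summable fun p : II × II => K p.1 p.2 ^ 2) :
    ∑ j ∈ T, ∑' ξ, (∑' η, K ξ η * c j η) ^ 2 ≤ ∑' p : II × II, K p.1 p.2 ^ 2 := by
  have h1 : ∀ j ∈ T, Summable fun ξ => (∑' η, K ξ η * c j η) ^ 2 := fun j _ =>
    app K (c j) hK (son_sq hc j)
  rw [← Summable.tsum_finsetSum h1, rows3 K hK]
  exact (summable_sum h1).tsum_le_tsum (fun ξ => bessel c T (K ξ) hc (rows K hK ξ))
    (rows2 K hK)

theorem ddle (n : ℤ) (ξ : II) : 1 + (dd ξ : ℝ) ≤ (2 + |(n : ℝ)|) * DD n ξ ∧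
    DD n ξ ≤ (1 + |(n : ℝ)|) * (1 + dd ξ) := by
  have h0 : (0 : ℝ) ≤ dd ξ := Nat.cast_nonneg _
  have h1 : (1 : ℝ) ≤ DD n ξ := le_max_left _ _
  have h2 : |(dd ξ : ℝ) - n| ≤ DD n ξ := le_max_right _ _
  have h3 := abs_nonneg (n : ℝ)
  have h4 := le_abs_self (n : ℝ)
  have h5 := neg_abs_le (n : ℝ)
  constructor
  · have h6 := le_abs_self ((dd ξ : ℝ) - n)
    nlinarith [mul_le_mul_of_nonneg_left h1 h3]
  · refine max_le ?_ (abs_le.2 ⟨?_, ?_⟩) <;> nlinarith [mul_nonneg h3 h0]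

end HS0A

theorem p_HS0 :
    S_HS0 :=
  ⟨fun x y hx hy => ⟨HS0A.abs_sum x y hx hy, HS0A.cs x y hx hy⟩,
    fun K x hK hx => ⟨HS0A.rows K hK, HS0A.app K x hK hx, HS0A.app_le K x hK hx,
      fun y hy => HS0A.fub K x y hK hx hy⟩,
    fun _ _ c T y hc hy => HS0A.bessel c T y hc hy,
    fun _ _ c T K hc hK => HS0A.bessel2 c T K hc hK, HS0A.ddle⟩

end Pool.Agent.P.MP_6b977f_mp.RB
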