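import Pool.Agent.P.MP_6b977f_mp.RB.Iface

/-! Step IBP. -/

namespace Pool.Agent.P.MP_6b977f_mp.RB

open Real MeasureTheory ProbabilityTheory Filter Topology Finset Laplacian
open scoped ContDiff ComplexConjugate ENNReal Matrix

namespace IBPA

theorem int_cc (u : ℂ → ℝ) (ξ : II) :
    ∫ z in sqr, u z * cc ξ.1 ξ.2 z = (nn ξ.1 * nn ξ.2)⁻¹ * ∫ z in sqr, u z * ee ξ z := by
  have := nn_pos ξ.1
  have := nn_pos ξ.2
  have e : ∀ z, u z * ee ξ z = nn ξ.1 * nn ξ.2 * (u z * cc ξ.1 ξ.2 z) := fun z => by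
    rw [ee]; ring
  simp only [e, integral_const_mul]
  field_simp

theorem cd (a b : ℕ) : ContDiff ℝ 1 (cc a b) :=
  (contDiff_const.mul Complex.reCLM.contDiff).cos.mul
    (contDiff_const.mul Complex.imCLM.contDiff).cos

theorem meas (u : ℂ → ℝ) : AEStronglyMeasurable (gradient u) (volume.restrict sqr) :=
  ((InnerProductSpace.toDual ℝ ℂ).symm.continuous.measurable.comp
    (measurable_fderiv ℝ u)).aestronglyMeasurable

theorem inn {f g : ℂ → ℂ} (hf : MemLp f 2 (volume.restrict sqr))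
    (hg : MemLp g 2 (volume.restrict sqr)) :
    inner ℝ (hf.toLp f) (hg.toLp g) = ∫ z in sqr, inner ℝ (f z) (g z) := by
  rw [L2.inner_def]
  refine integral_congr_ae ?_
  filter_upwards [hf.coeFn_toLp, hg.coeFn_toLp] with z a b
  rw [a, b]

end IBPA

theorem p_IBP (hIBP1 : S_IBP1) (hCB0 : S_CB0) (hCB2 : S_CB2) :
    S_IBP := by
  intro u h1 h2 h3
  obtain ⟨-, -, -, c4, c5⟩ := hCB0
  have G := (memLp_two_iff_integrable_sq_norm (IBPA.meas u)).2 h3
  have g : ∀ ξ : II, MemLp (gradient (cc ξ.1 ξ.2)) 2 (volume.restrict sqr) := fun ξ =>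
    (memLp_norm_iff (IBPA.meas _)).1 (c4 _ ((InnerProductSpace.toDual ℝ ℂ).symm.continuous.comp
      ((IBPA.cd _ _).continuous_fderiv one_ne_zero)).norm)
  have n0 : ∀ ξ : II, nn ξ.1 * nn ξ.2 ≠ 0 := fun ξ => (mul_pos (nn_pos _) (nn_pos _)).ne'
  have e1 : ∀ ξ : II, inner ℝ (G.toLp _) ((g ξ).toLp _) =
      dd ξ * ((nn ξ.1 * nn ξ.2)⁻¹ * (π * co u ξ)) := fun ξ => by
    rw [IBPA.inn, hIBP1 u _ _ h1 h2 h3, IBPA.int_cc, co, mul_inv_cancel_left₀ pi_ne_zero]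
  have e2 : ∀ ξ η : II, inner ℝ ((g ξ).toLp _) ((g η).toLp _) =
      if ξ = η then dd η * ((nn η.1 * nn η.2)⁻¹ * (nn η.1 * nn η.2)⁻¹) else 0 := fun ξ η => by
    rw [IBPA.inn, hIBP1 _ _ _ (IBPA.cd _ _).contDiffOn (c4 _ (IBPA.cd _ _).continuous)
      ((memLp_two_iff_integrable_sq_norm (IBPA.meas _)).1 (g ξ)), IBPA.int_cc]
    simp only [mul_comm (cc _ _ _)]
    rw [IBPA.int_cc, c5]
    rcases eq_or_ne ξ η with rfl | e
    · simp
    · simp [e, e.symm]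
  have s0 : Summable fun ξ => co u ξ ^ 2 := by simpa only [sq] using (hCB2.1 u u h2 h2).summable
  have s1 : Summable fun ξ => π ^ 2 * (dd ξ * co u ξ ^ 2) := by
    refine summable_of_sum_le (c := ‖G.toLp _‖ ^ 2) (fun ξ => by positivity) fun F => ?_
    have a := sq_nonneg ‖G.toLp _ - ∑ ξ ∈ F, (nn ξ.1 * nn ξ.2 * (π * co u ξ)) • (g ξ).toLp _‖
    rw [norm_sub_sq_real, ← real_inner_self_eq_norm_sq (∑ ξ ∈ F, _)] at a
    have f1 : ∀ N d c : ℝ, N ≠ 0 → N * (π * c) * (d * (N⁻¹ * (π * c))) = π ^ 2 * (d * c ^ 2) ∧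
        N * (π * c) * (N * (π * c) * (d * (N⁻¹ * N⁻¹))) = π ^ 2 * (d * c ^ 2) :=
      fun N d c h => by constructor <;> field_simp
    simp only [inner_sum, sum_inner, inner_smul_left, inner_smul_right, e1, e2, mul_ite, mul_zero,
      sum_ite_eq', conj_trivial, sum_ite_mem, inter_self, (f1 _ _ _ (n0 _)).1,
      (f1 _ _ _ (n0 _)).2] at a
    linarith
  refine (s0.add ((summable_mul_left_iff (by positivity)).1 s1)).congr fun ξ => by ring

end Pool.Agent.P.MP_6b977f_mp.RB
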