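import Pool.Agent.P.MP_6b977f_mp.RB.Iface

/-! Step IBP1. -/

namespace Pool.Agent.P.MP_6b977f_mp.RB

open Real MeasureTheory Filter Topology Set

namespace IBP1A

theorem one (f f' : ℝ → ℝ) (a : ℕ) (hd : ∀ x ∈ Ioo 0 π, HasDerivAt f (f' x) x)
    (hi : IntegrableOn f' (Ioo 0 π)) (hf : IntegrableOn f (Ioo 0 π)) :
    ∫ x in Ioo 0 π, f' x * sin (a * x) = -a * ∫ x in Ioo 0 π, f x * cos (a * x) := by
  have bd : ∀ x ∈ Ioo 0 π, ‖f x‖ ≤ ‖f 1‖ + ∫ t in Ioo 0 π, ‖f' t‖ := fun x hx => by
    have sub : uIcc 1 x ⊆ Ioo 0 π := ordConnected_Ioo.uIcc_subset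
      ⟨one_pos, by linarith [pi_gt_three]⟩ hx
    rw [← add_sub_cancel (f 1) (f x), ← intervalIntegral.integral_eq_sub_of_hasDerivAt
      (fun t ht => hd t (sub ht)) (hi.mono_set sub).intervalIntegrable]
    refine norm_add_le_of_le le_rfl (intervalIntegral.norm_integral_le_integral_norm_uIoc.trans ?_)
    exact setIntegral_mono_set hi.norm (Eventually.of_forall fun _ => norm_nonneg _)
      (uIoc_subset_uIcc.trans sub).eventuallyLE
  have lim : ∀ (l : Filter ℝ) (c : ℝ), l ≤ 𝓝 c → sin (a * c) = 0 → (∀ᶠ x in l, x ∈ Ioo 0 π) →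
      Tendsto (fun x => f x * sin (a * x)) l (𝓝 0) := fun l c h1 h2 h3 =>
    isBoundedUnder_le_mul_tendsto_zero ⟨_, h3.mono bd⟩
      (((by fun_prop : Continuous fun x => sin (a * x)).tendsto' c 0 h2).mono_left h1)
  have i1 : IntegrableOn (fun x => f' x * sin (a * x)) (Ioo 0 π) :=
    hi.mul_bdd (c := 1) (by fun_prop) (Eventually.of_forall fun _ => abs_sin_le_one _)
  have i2 : IntegrableOn (fun x => f x * cos (a * x)) (Ioo 0 π) :=
    hf.mul_bdd (c := 1) (by fun_prop) (Eventually.of_forall fun _ => abs_cos_le_one _)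
  have := intervalIntegral.integral_eq_sub_of_hasDerivAt_of_tendsto pi_pos
    (f' := fun x => f' x * sin (a * x) + a * (f x * cos (a * x)))
    (fun x hx => by
      refine ((hd x hx).mul ((hasDerivAt_id' x).const_mul (a : ℝ)).sin).congr_deriv ?_
      ring)
    ((intervalIntegrable_iff_integrableOn_Ioo_of_le pi_pos.le).2 (i1.add (i2.const_mul _)))
    (lim _ 0 nhdsWithin_le_nhds (by simp) (Ioo_mem_nhdsGT pi_pos))
    (lim _ π nhdsWithin_le_nhds (sin_nat_mul_pi a) (Ioo_mem_nhdsLT pi_pos))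
  rw [intervalIntegral.integral_of_le pi_pos.le, integral_Ioc_eq_integral_Ioo,
    integral_add i1 (i2.const_mul _), integral_const_mul] at this
  linarith

noncomputable abbrev mu : Measure ℝ := volume.restrict (Ioo 0 π)

theorem bdd {F : ℝ × ℝ → ℝ} (h : Integrable F (mu.prod mu)) {g k : ℝ → ℝ} (g1 : Continuous g)
    (k1 : Continuous k) (g2 : ∀ x, |g x| ≤ 1) (k2 : ∀ x, |k x| ≤ 1) :
    Integrable (fun p => F p * g p.1 * k p.2) (mu.prod mu) :=
  (h.mul_bdd (c := 1) (by fun_prop) (Eventually.of_forall fun _ => g2 _)).mul_bdd (c := 1)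
    (by fun_prop) (Eventually.of_forall fun _ => k2 _)

theorem two (U D : ℝ × ℝ → ℝ) (a b : ℕ) (hU : Integrable U (mu.prod mu))
    (hD : Integrable D (mu.prod mu))
    (hd : ∀ y ∈ Ioo 0 π, ∀ x ∈ Ioo 0 π, HasDerivAt (fun x => U (x, y)) (D (x, y)) x) :
    ∫ p, D p * sin (a * p.1) * cos (b * p.2) ∂mu.prod mu =
      -a * ∫ p, U p * cos (a * p.1) * cos (b * p.2) ∂mu.prod mu := by
  rw [integral_prod_symm _ (bdd hD (g := fun x => sin (a * x)) (k := fun x => cos (b * x))
      (by fun_prop) (by fun_prop) (fun _ => abs_sin_le_one _) fun _ => abs_cos_le_one _),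
    integral_prod_symm _ (bdd hU (g := fun x => cos (a * x)) (k := fun x => cos (b * x))
      (by fun_prop) (by fun_prop) (fun _ => abs_cos_le_one _) fun _ => abs_cos_le_one _),
    ← integral_const_mul]
  refine integral_congr_ae ?_
  filter_upwards [hU.prod_left_ae, hD.prod_left_ae, ae_restrict_mem measurableSet_Ioo]
    with y h1 h2 h3
  simp only [integral_mul_const]
  rw [one _ _ a (hd y h3) h2 h1, mul_assoc]

end IBP1A

open IBP1A

theorem p_IBP1 : S_IBP1 := by
  intro u a b hu h2 hg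
  have fin : IsFiniteMeasure (volume.restrict sqr) :=
    isFiniteMeasure_restrict.2 sqr_bdd.measure_lt_top.ne
  have dif : ∀ z ∈ sqr, HasFDerivAt u (fderiv ℝ u z) z := fun z hz =>
    ((hu.differentiableOn one_ne_zero).differentiableAt (sqr_open.mem_nhds hz)).hasFDerivAt
  have iD : ∀ v : ℂ, ‖v‖ = 1 → IntegrableOn (fun z => fderiv ℝ u z v) sqr := fun v hv =>
    ((integrable_const 1).add hg).mono' (measurable_fderiv_apply_const ℝ u v).aestronglyMeasurable
      (Eventually.of_forall fun z => by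
        have := norm_inner_le_norm (𝕜 := ℝ) (gradient u z) v
        rw [grad_inner, hv] at this
        simp only [Pi.add_apply]
        nlinarith [sq_nonneg (‖gradient u z‖ - 1)])
  have iU := (rect_integrable _ _ u).1 (h2.integrable one_le_two)
  have iX := (rect_integrable _ _ _).1 (iD 1 norm_one)
  have iY := (rect_integrable _ _ _).1 (iD Complex.I Complex.norm_I)
  have e1 := two _ _ a b iU iX fun y hy x hx => by
    have : HasDerivAt (fun x : ℝ => (⟨x, y⟩ : ℂ)) 1 x := by
      simpa [Complex.mk_eq_add_mul_I] using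
        (Complex.ofRealCLM.hasDerivAt (x := x)).add_const (y * Complex.I)
    exact (dif ⟨x, y⟩ ⟨hx, hy⟩).comp_hasDerivAt x this
  have e2 := two _ _ b a iU.swap iY.swap fun y hy x hx => by
    have : HasDerivAt (fun x : ℝ => (⟨y, x⟩ : ℂ)) Complex.I x := by
      simpa [Complex.mk_eq_add_mul_I] using
        ((Complex.ofRealCLM.hasDerivAt (x := x)).mul_const Complex.I).const_add (y : ℂ)
    exact (dif ⟨y, x⟩ ⟨hy, hx⟩).comp_hasDerivAt x this
  rw [← integral_prod_swap, ← integral_prod_swap (fun p => _ * cos (b * p.1) * cos (a * p.2))] at e2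
  have e3 : ∀ z, inner ℝ (gradient u z) (gradient (cc a b) z) =
      -a * (fderiv ℝ u z 1 * sin (a * z.re) * cos (b * z.im)) +
      -b * (fderiv ℝ u z Complex.I * sin (b * z.im) * cos (a * z.re)) := fun z => by
    have := (((Complex.reCLM.hasFDerivAt (x := z)).const_mul (a : ℝ)).cos.mul
      ((Complex.imCLM.hasFDerivAt (x := z)).const_mul (b : ℝ)).cos).fderiv
    rw [real_inner_comm, grad_inner, ← grad_re, ← grad_im]
    erw [this]
    simp; ring
  simp only [e3]
  rw [sqr, rect_integral, rect_integral, integral_add, integral_const_mul, integral_const_mul, e1]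
  · simp only [Function.comp, Prod.fst_swap, Prod.snd_swap] at e2
    simp only [e2, cc, dd, ← mul_assoc, mul_right_comm _ (cos (b * _))]
    push_cast; ring
  · exact (bdd iX (g := fun x => sin (a * x)) (k := fun x => cos (b * x))
      (by fun_prop) (by fun_prop) (fun _ => abs_sin_le_one _) fun _ => abs_cos_le_one _).const_mul _
  · exact ((bdd iY (g := fun x => cos (a * x)) (k := fun x => sin (b * x)) (by fun_prop) (by fun_prop)
      (fun _ => abs_cos_le_one _) fun _ => abs_sin_le_one _).const_mul (-b)).congr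
      (Eventually.of_forall fun p => by simp only [mul_right_comm])

end Pool.Agent.P.MP_6b977f_mp.RB
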