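import Pool.Agent.P.MP_6b977f_mp.RB.Iface

/-! Step JD. -/

namespace Pool.Agent.P.MP_6b977f_mp.RB

open Real MeasureTheory ProbabilityTheory Filter Topology Finset Laplacian
open scoped ContDiff ComplexConjugate ENNReal Matrix

namespace JDA

theorem J0_eq (v : ℂ) :
    EB.J0 v = (2 * π)⁻¹ * ∫ t in (0 : ℝ)..(2 * π), cos (‖v‖ * cos t) := by
  have h0 : v.re = ‖v‖ * cos v.arg := by rw [Complex.norm_mul_cos_arg]
  have h1 : v.im = ‖v‖ * sin v.arg := by rw [Complex.norm_mul_sin_arg]
  have hper : Function.Periodic (fun t => cos (‖v‖ * cos t)) (2 * π) := fun t => by simp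
  have h2 := hper.intervalIntegral_add_eq (0 - v.arg) 0
  unfold EB.J0
  congr 1
  rw [zero_add] at h2
  rw [← h2, show 0 - v.arg + 2 * π = 2 * π - v.arg by ring,
    ← intervalIntegral.integral_comp_sub_right (fun t => cos (‖v‖ * cos t))]
  congr 1
  ext t
  rw [cos_sub]
  congr 1
  conv_lhs => rw [h0, h1]
  ring

theorem half (R : ℝ) : ∫ t in (0 : ℝ)..(2 * π), cos (R * cos t) =
    2 * ∫ t in (0 : ℝ)..π, cos (R * cos t) := by
  have hc : Continuous fun t : ℝ => cos (R * cos t) := by fun_prop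
  rw [← intervalIntegral.integral_add_adjacent_intervals (b := π) (hc.intervalIntegrable _ _)
    (hc.intervalIntegrable _ _)]
  have h := intervalIntegral.integral_comp_add_right (a := 0) (b := π)
    (fun t : ℝ => cos (R * cos t)) π
  simp only [cos_add_pi, mul_neg, cos_neg, zero_add] at h
  rw [show 2 * π = π + π by ring, ← h]
  ring

theorem subst (w : ℝ) :
    ∫ s in cos '' Set.Ioo 0 π, Real.fourierChar (-(s * w)) • (((√(1 - s ^ 2))⁻¹ : ℝ) : ℂ) =
      ∫ t in (0 : ℝ)..π, Complex.exp (((2 * π * (-(cos t * w)) : ℝ) : ℂ) * Complex.I) := by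
  rw [integral_image_eq_integral_abs_deriv_smul measurableSet_Ioo
    (fun x _ => (Real.hasDerivAt_cos x).hasDerivWithinAt)
    (Real.injOn_cos.mono Set.Ioo_subset_Icc_self),
    intervalIntegral.integral_of_le pi_pos.le, integral_Ioc_eq_integral_Ioo]
  refine setIntegral_congr_fun measurableSet_Ioo fun t ht => ?_
  have hs : 0 < sin t := sin_pos_of_pos_of_lt_pi ht.1 ht.2
  have h1 : √(1 - cos t ^ 2) = sin t := by
    rw [← Real.sin_sq, Real.sqrt_sq hs.le]
  have h2 : ((sin t : ℝ) : ℂ) ≠ 0 := Complex.ofReal_ne_zero.2 hs.ne'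
  simp only [h1, abs_neg, abs_of_pos hs, Circle.smul_def, Real.fourierChar_apply, smul_eq_mul,
    Complex.real_smul, Complex.ofReal_inv]
  field_simp

theorem rl : Tendsto (fun R : ℝ => ∫ t in (0 : ℝ)..π, cos (R * cos t)) atTop (𝓝 0) := by
  have hm : MeasurableSet (cos '' Set.Ioo 0 π) :=
    measurableSet_Ioo.image_of_continuousOn_injOn continuous_cos.continuousOn
      (Real.injOn_cos.mono Set.Ioo_subset_Icc_self)
  have h := Real.tendsto_integral_exp_smul_cocompact
    ((cos '' Set.Ioo 0 π).indicator fun s : ℝ => (((√(1 - s ^ 2))⁻¹ : ℝ) : ℂ))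
  have h1 : Tendsto (fun R : ℝ => R / (2 * π)) atTop (cocompact ℝ) :=
    (tendsto_id.atTop_div_const (by positivity)).mono_right atTop_le_cocompact
  have h2 := (Complex.continuous_re.tendsto 0).comp (h.comp h1)
  rw [Complex.zero_re] at h2
  refine h2.congr fun R => ?_
  simp only [Function.comp]
  have e : (fun v : ℝ => Real.fourierChar (-(v * (R / (2 * π)))) •
      (cos '' Set.Ioo 0 π).indicator (fun s : ℝ => (((√(1 - s ^ 2))⁻¹ : ℝ) : ℂ)) v) =
      (cos '' Set.Ioo 0 π).indicator fun s : ℝ => Real.fourierChar (-(s * (R / (2 * π)))) •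
        (((√(1 - s ^ 2))⁻¹ : ℝ) : ℂ) := by
    funext v
    by_cases hv : v ∈ cos '' Set.Ioo 0 π
    · rw [Set.indicator_of_mem hv, Set.indicator_of_mem hv]
    · rw [Set.indicator_of_notMem hv, Set.indicator_of_notMem hv, smul_zero]
  rw [e, integral_indicator hm, subst]
  have hc : Continuous fun t : ℝ =>
      Complex.exp (((2 * π * (-(cos t * (R / (2 * π)))) : ℝ) : ℂ) * Complex.I) := by fun_prop
  rw [← Complex.reCLM_apply,
    ← Complex.reCLM.intervalIntegral_comp_comm (hc.intervalIntegrable _ _)]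
  congr 1
  funext t
  rw [Complex.reCLM_apply, Complex.exp_ofReal_mul_I_re,
    show 2 * π * (-(cos t * (R / (2 * π)))) = -(R * cos t) by field_simp, cos_neg]

end JDA

theorem p_JD :
    S_JD := by
  refine ⟨fun v => by rw [JDA.J0_eq, JDA.J0_eq, norm_neg], ?_⟩
  have h := ((JDA.rl.comp (tendsto_norm_cocompact_atTop (E := ℂ))).const_mul 2).const_mul (2 * π)⁻¹
  rw [mul_zero, mul_zero] at h
  refine h.congr fun v => ?_
  rw [JDA.J0_eq, JDA.half]
  rfl

end Pool.Agent.P.MP_6b977f_mp.RB
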