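import Pool.Agent.P.MP_6b977f_mp.RB.Iface

/-! Step KAP. -/

namespace Pool.Agent.P.MP_6b977f_mp.RB

open Real MeasureTheory ProbabilityTheory Filter Topology Finset Laplacian
open scoped ContDiff ComplexConjugate ENNReal Matrix

namespace KAPA

def fr (m : ℕ) (p : II × II) : ℕ :=
  2 ^ (m + 3) + Nat.pair (Nat.pair p.1.1 p.1.2) (Nat.pair p.2.1 p.2.2)

lemma fr_inj {m : ℕ} {p q : II × II} (h : fr m p = fr m q) : p = q := by
  simp only [fr, add_right_inj, Nat.pair_eq_pair] at h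
  exact Prod.ext (Prod.ext h.1.1 h.1.2) (Prod.ext h.2.1 h.2.2)

lemma kap_lt {m n : ℕ} (hn : n ∈ blk m) {p : II × II} (hp : p ∈ AA n ×ˢ AA n) (q : II × II) :
    kap p < fr m q := by
  have h : ∀ ξ ∈ AA n, ξ.1 ≤ n := fun ξ h => by
    have := (mem_AA.1 h).1
    have := Nat.le_self_pow two_ne_zero ξ.1
    unfold dd at *
    omega
  have h1 := h _ (mem_product.1 hp).1
  have h2 := h _ (mem_product.1 hp).2
  have h3 := (mem_blk.1 hn).2
  unfold kap fr
  rw [pow_add]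
  split_ifs <;> omega

lemma kap'_eq (m : ℕ) {n : ℕ} {p : II × II} (hp : p ∈ AA n ×ˢ AA n) :
    (Coin n p ∧ kap' m p = fr m p) ∨ (¬Coin n p ∧ kap' m p = kap p) := by
  unfold kap'
  rw [(mem_AA.1 (mem_product.1 hp).1).1]
  split_ifs with h
  exacts [.inl ⟨h, rfl⟩, .inr ⟨h, rfl⟩]

lemma mem_Kn {m n k : ℕ} (h : k ∈ Kn m n) :
    k ∈ (AA n ×ˢ AA n).image kap ∨ ∃ p ∈ AA n ×ˢ AA n, fr m p = k := by
  rcases mem_union.1 h with h | h
  · exact .inl h
  obtain ⟨p, hp, rfl⟩ := mem_image.1 h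
  rcases kap'_eq m hp with e | e
  exacts [.inr ⟨p, hp, e.2.symm⟩, .inl (mem_image.2 ⟨p, hp, e.2.symm⟩)]

lemma share {m n n' : ℕ} (hn : n ∈ blk m) (hn' : n' ∈ blk m) (h : ¬Disjoint (Kn m n) (Kn m n')) :
    n' = n ∨ ∃ k ∈ (AA n ×ˢ AA n).image kap, k ∈ (AA n' ×ˢ AA n').image kap := by
  obtain ⟨k, h1, h2⟩ := not_disjoint_iff.1 h
  rcases mem_Kn h1 with h1 | ⟨p, hp, rfl⟩ <;> rcases mem_Kn h2 with h2 | ⟨q, hq, e⟩
  · exact .inr ⟨k, h1, h2⟩
  · obtain ⟨p, hp, rfl⟩ := mem_image.1 h1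
    exact absurd e (kap_lt hn hp q).ne'
  · obtain ⟨q, hq, e⟩ := mem_image.1 h2
    exact absurd e (kap_lt hn' hq p).ne
  · rw [fr_inj e] at hq
    exact .inl ((mem_AA.1 (mem_product.1 hq).1).1.symm.trans (mem_AA.1 (mem_product.1 hp).1).1)

end KAPA

theorem p_KAP (hSHARE : S_SHARE) :
    S_KAP := by
  refine ⟨fun m n hn p q h => ?_, fun σ l p m n h0 g g' h => ?_, ?_⟩
  · have hp : ((p.1, p.2) : II × II) ∈ AA n ×ˢ AA n := mem_product.2 ⟨p.1.2, p.2.2⟩
    have hq : ((q.1, q.2) : II × II) ∈ AA n ×ˢ AA n := mem_product.2 ⟨q.1.2, q.2.2⟩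
    have : ((p.1, p.2) : II × II) = (q.1.val, q.2.val) := by
      dsimp only at h
      rcases KAPA.kap'_eq m hp with e | e <;> rcases KAPA.kap'_eq m hq with e' | e' <;>
        rw [e.2, e'.2] at h
      · exact KAPA.fr_inj h
      · exact absurd h (KAPA.kap_lt hn hq _).ne'
      · exact absurd h (KAPA.kap_lt hn hp _).ne
      · by_contra h1
        exact e'.1 ⟨_, hp, h1, h⟩
    exact Prod.ext (Subtype.ext (congrArg Prod.fst this)) (Subtype.ext (congrArg Prod.snd this))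
  · have h1 : Wn m n g = Wn m n g' := congrArg Wig (funext fun p => h _
      (mem_coe.2 (mem_union_right _ (mem_image_of_mem _ (mem_product.2 ⟨p.1.2, p.2.2⟩)))))
    have h2 : ∀ ξ ∈ AA n, ∀ η ∈ AA n, g (kap (ξ, η)) = g' (kap (ξ, η)) := fun ξ a η b => h _
      (mem_coe.2 (mem_union_left _ (mem_image_of_mem _ (mem_product.2 ⟨a, b⟩))))
    have h3 : ∀ ξ η : AA n, Mn σ m n g ξ η = Mn σ m n g' ξ η := fun ξ η => by
      have a := h2 _ ξ.2 _ η.2
      have b := h2 _ η.2 _ ξ.2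
      unfold kap at a b
      unfold Mn
      rcases lt_trichotomy ξ.val.1 η.val.1 with e | e | e
      · rw [if_neg e.not_gt] at a
        rw [if_pos e] at b
        rw [Nat.dist_eq_sub_of_le e.le, a, b]
      · rw [if_neg e.not_gt] at a
        rw [a, e, Nat.dist_self, h0, zero_mul, zero_mul]
      · rw [if_pos e] at a
        rw [if_neg e.not_gt, add_comm] at b
        rw [Nat.dist_eq_sub_of_le_right e.le, a, b]
    simp only [zeta, Er, h1, h3]
  obtain ⟨C, hC, h⟩ := hSHARE (1 / 4) (by norm_num)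
  refine ⟨1 + 2 * C, by positivity, fun m n hn => ?_⟩
  have h1 : ((blk m).filter fun n' => ¬Disjoint (Kn m n) (Kn m n')) ⊆ insert n
      (((AA n ×ˢ AA n).image kap).biUnion fun k =>
        (range (2 ^ (m + 1) + 1)).filter fun n => k ∈ (AA n ×ˢ AA n).image kap) := fun n' hn' => by
    obtain ⟨a, b⟩ := mem_filter.1 hn'
    refine mem_insert.2 ((KAPA.share hn a b).imp_right fun ⟨k, c, d⟩ => mem_biUnion.2 ⟨k, c, ?_⟩)
    exact mem_filter.2 ⟨mem_range.2 ((mem_blk.1 a).2.trans (Nat.lt_succ_self _)), d⟩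
  have h2 : ((2 ^ (m + 1) : ℕ) : ℝ) ^ (1 / 2 + 1 / 4 : ℝ) ≤ 2 * 2 ^ (3 / 4 * m : ℝ) := by
    rw [Nat.cast_pow, Nat.cast_ofNat, ← rpow_natCast, ← rpow_mul zero_le_two,
      ← rpow_one_add' zero_le_two (by positivity)]
    refine rpow_le_rpow_of_exponent_le one_le_two ?_
    push_cast
    linarith
  have h3 : (1 : ℝ) ≤ 2 ^ (3 / 4 * m : ℝ) := one_le_rpow one_le_two (by positivity)
  have h4 : (((AA n ×ˢ AA n).image kap).card : ℝ) ≤ (rr n : ℝ) ^ 2 := by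
    exact_mod_cast card_image_le.trans_eq (by rw [card_product, rr, sq])
  have h5 := (Nat.cast_le (α := ℝ)).2 ((card_le_card h1).trans
    ((card_insert_le _ _).trans (Nat.add_le_add_right card_biUnion_le 1)))
  rw [Nat.cast_add, Nat.cast_sum, Nat.cast_one] at h5
  have h6 := sum_le_card_nsmul ((AA n ×ˢ AA n).image kap) _ _ fun k _ =>
    (h (2 ^ (m + 1)) k Nat.one_le_two_pow).trans (mul_le_mul_of_nonneg_left h2 hC.le)
  rw [nsmul_eq_mul] at h6
  have h7 := mul_le_mul_of_nonneg_right h4 (by positivity : 0 ≤ C * (2 * 2 ^ (3 / 4 * m : ℝ)))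
  generalize (2 : ℝ) ^ (3 / 4 * m : ℝ) = Y at *
  nlinarith [mul_nonneg (sq_nonneg (rr n : ℝ)) (zero_le_one.trans h3),
    mul_nonneg hC.le (zero_le_one.trans h3)]

end Pool.Agent.P.MP_6b977f_mp.RB
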