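import Pool.Agent.P.MP_6b977f_mp.RB.Iface

/-! Step LAT: Gaussian integers in discs and on circles, summation by parts. -/

namespace Pool.Agent.P.MP_6b977f_mp.RB

namespace Ar

open Finset

/-- The norm as a natural number. -/
def nm (z : GI) : ℕ := z.norm.natAbs

theorem nm_cast (z : GI) : (nm z : ℤ) = z.re ^ 2 + z.im ^ 2 := by
  rw [nm, Int.natAbs_of_nonneg (GaussianInt.norm_nonneg z), Zsqrtd.norm_def]; ring

theorem nm_mul (z w : GI) : nm (z * w) = nm z * nm w := by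
  simp [nm, Zsqrtd.norm_mul, Int.natAbs_mul]

theorem nm_star (z : GI) : nm (star z) = nm z := by simp [nm]

theorem nm_pow (z : GI) (k : ℕ) : nm (z ^ k) = nm z ^ k := by
  induction k with
  | zero => simp [nm]
  | succ k ih => rw [pow_succ, nm_mul, ih, pow_succ]

theorem nm_eq_zero {z : GI} : nm z = 0 ↔ z = 0 := by simp [nm]

theorem nm_eq_one {z : GI} : nm z = 1 ↔ IsUnit z := Zsqrtd.norm_eq_one_iff

theorem nm_nat (p : ℕ) : nm (p : GI) = p ^ 2 := by
  have := nm_cast (p : GI)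
  simp only [Zsqrtd.re_natCast, Zsqrtd.im_natCast] at this
  zify; rw [this]; ring

theorem mul_star_eq (z : GI) : z * star z = (nm z : GI) := by
  rw [← Zsqrtd.norm_eq_mul_conj, nm, ← Int.cast_natCast,
    Int.natAbs_of_nonneg (GaussianInt.norm_nonneg z)]

theorem norm_sq (z : GI) : ‖(z : ℂ)‖ ^ 2 = nm z := by
  rw [Complex.sq_norm, ← GaussianInt.intCast_real_norm, nm, ← Int.cast_natCast,
    Int.natAbs_of_nonneg (GaussianInt.norm_nonneg z)]

theorem norm_eq (z : GI) : ‖(z : ℂ)‖ = √(nm z) := by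
  rw [← norm_sq, Real.sqrt_sq (norm_nonneg _)]

/-- The Gaussian integers of norm at most `x`. -/
noncomputable def disc (x : ℕ) : Finset GI :=
  ((Icc (-(x.sqrt : ℤ)) x.sqrt ×ˢ Icc (-(x.sqrt : ℤ)) x.sqrt).image fun p => (⟨p.1, p.2⟩ : GI)).filter
    fun z => nm z ≤ x

theorem abs_le_sqrt {a : ℤ} {x : ℕ} (h : a ^ 2 ≤ x) : a ∈ Icc (-(x.sqrt : ℤ)) x.sqrt := by
  rw [mem_Icc, ← abs_le, ← Int.natCast_natAbs, Nat.cast_le, Nat.le_sqrt']
  zify; rwa [sq_abs]

@[simp] theorem mem_disc {x : ℕ} {z : GI} : z ∈ disc x ↔ nm z ≤ x := by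
  refine ⟨fun h => (mem_filter.1 h).2, fun h => mem_filter.2 ⟨mem_image.2 ⟨(z.re, z.im), ?_, rfl⟩, h⟩⟩
  have h1 : z.re ^ 2 + z.im ^ 2 ≤ x := by rw [← nm_cast]; exact_mod_cast h
  exact mem_product.2 ⟨abs_le_sqrt (by nlinarith [sq_nonneg z.im]),
    abs_le_sqrt (by nlinarith [sq_nonneg z.re])⟩

/-- The Gaussian integers of norm `n`. -/
noncomputable def circ (n : ℕ) : Finset GI := (disc n).filter fun z => nm z = n

@[simp] theorem mem_circ {n : ℕ} {z : GI} : z ∈ circ n ↔ nm z = n := by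
  simp only [circ, mem_filter, mem_disc]; omega

theorem card_disc (x : ℕ) : #(disc x) ≤ 8 * x + 1 := by
  refine (card_filter_le _ _).trans (card_image_le.trans ?_)
  have h1 := Nat.le_self_pow two_ne_zero x.sqrt
  have h2 := Nat.sqrt_le' x
  have h3 : ((x.sqrt : ℤ) + 1 - -(x.sqrt : ℤ)).toNat = 2 * x.sqrt + 1 := by omega
  rw [card_product, Int.card_Icc, h3]
  nlinarith

theorem card_circ_one : #(circ 1) = 4 := by decide

/-- The nonzero Gaussian integers of norm at most `x`. -/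
noncomputable def disc' (x : ℕ) : Finset GI := (disc x).erase 0

@[simp] theorem mem_disc' {x : ℕ} {z : GI} : z ∈ disc' x ↔ z ≠ 0 ∧ nm z ≤ x := by simp [disc']

theorem card_disc8 (x : ℕ) : #(disc' x) ≤ 8 * x := by
  have := card_disc x
  rw [disc', card_erase_of_mem (mem_disc.2 (by simp [nm]))]
  omega

theorem card_disc' (x : ℕ) : #(disc' x) ≤ 9 * x := by have := card_disc8 x; omega

theorem sum_disc' {M : Type} [AddCommMonoid M] (x : ℕ) (f : GI → M) :
    ∑ z ∈ disc' x, f z = ∑ n ∈ Icc 1 x, ∑ z ∈ circ n, f z := by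
  rw [← sum_fiberwise_of_maps_to (g := nm) (t := Icc 1 x)]
  · refine sum_congr rfl fun n hn => sum_congr ?_ fun _ _ => rfl
    ext z
    simp only [mem_filter, mem_disc', mem_circ, mem_Icc, ne_eq, ← nm_eq_zero] at hn ⊢
    omega
  · intro z hz
    simp only [mem_disc', mem_Icc, ne_eq, ← nm_eq_zero] at hz ⊢
    omega

theorem sum_card8 (x : ℕ) : ∑ n ∈ Icc 1 x, (#(circ n) : ℝ) ≤ 8 * x := by
  have := sum_disc' x fun _ => (1 : ℝ)
  simp only [sum_const, nsmul_eq_mul, mul_one] at this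
  rw [← this]; exact_mod_cast card_disc8 x

theorem sum_card_circ (x : ℕ) : ∑ n ∈ Icc 1 x, (#(circ n) : ℝ) ≤ 9 * x := by
  linarith [sum_card8 x, Nat.cast_nonneg (α := ℝ) x]

/-- Summation by parts. -/
theorem abel (a g : ℕ → ℝ) (c : ℝ) (hA : ∀ j : ℕ, ∑ n ∈ Icc 1 j, a n ≤ c * j)
    (hg : ∀ n, 1 ≤ n → g (n + 1) ≤ g n) (g0 : ∀ n, 0 ≤ g n) (x : ℕ) :
    ∑ n ∈ Icc 1 x, a n * g n ≤ c * ∑ n ∈ Icc 1 x, g n := by
  have key : ∀ x : ℕ, ∑ n ∈ Icc 1 x, a n * g n - c * ∑ n ∈ Icc 1 x, g n ≤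
      (∑ n ∈ Icc 1 x, a n - c * x) * g x := by
    intro x
    induction x with
    | zero => simp
    | succ x ih =>
      rw [sum_Icc_succ_top (by omega), sum_Icc_succ_top (by omega), sum_Icc_succ_top (by omega)]
      rcases Nat.eq_zero_or_pos x with rfl | h
      · simp; linarith
      · have := mul_le_mul_of_nonpos_left (hg x h) (sub_nonpos.2 (hA x))
        push_cast; nlinarith
  have := mul_nonpos_of_nonpos_of_nonneg (sub_nonpos.2 (hA x)) (g0 x)
  linarith [key x]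

theorem sum_inv_sqrt (x : ℕ) : ∑ n ∈ Icc 1 x, (√n)⁻¹ ≤ 2 * √x := by
  induction x with
  | zero => simp
  | succ x ih =>
    rw [sum_Icc_succ_top (by omega)]
    have h1 : 0 < √((x + 1 : ℕ) : ℝ) := by positivity
    have h2 : √((x + 1 : ℕ) : ℝ) ^ 2 = x + 1 := by rw [Real.sq_sqrt (by positivity)]; push_cast; ring
    have h3 : √(x : ℝ) ^ 2 = x := Real.sq_sqrt (by positivity)
    have : (√((x + 1 : ℕ) : ℝ))⁻¹ ≤ 2 * √((x + 1 : ℕ) : ℝ) - 2 * √x := by
      rw [inv_eq_one_div, div_le_iff₀ h1]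
      nlinarith [sq_nonneg (√((x + 1 : ℕ) : ℝ) - √x)]
    linarith

theorem sum_inv_nat (x : ℕ) : ∑ n ∈ Icc 1 x, (n : ℝ)⁻¹ ≤ 1 + Real.log x := by
  have := harmonic_le_one_add_log x
  rw [harmonic_eq_sum_Icc] at this
  push_cast at this
  exact this

theorem sum_disc'_le (g : ℕ → ℝ) (hg : ∀ n, 1 ≤ n → g (n + 1) ≤ g n) (g0 : ∀ n, 0 ≤ g n) (x : ℕ) :
    ∑ z ∈ disc' x, g (nm z) ≤ 9 * ∑ n ∈ Icc 1 x, g n := by
  rw [sum_disc']
  refine le_trans (le_of_eq (sum_congr rfl fun n _ => ?_)) (abel _ g 9 sum_card_circ hg g0 x)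
  rw [sum_congr rfl fun z hz => by rw [mem_circ.1 hz], sum_const, nsmul_eq_mul]

theorem sum_inv_norm (x : ℕ) : ∑ z ∈ disc' x, (√(nm z))⁻¹ ≤ 18 * √x := by
  have := sum_disc'_le (fun n => (√n)⁻¹) (fun n hn => by
    have : (0 : ℝ) < n := by exact_mod_cast hn
    gcongr; omega) (fun n => by positivity) x
  linarith [sum_inv_sqrt x]

theorem sum_inv_nm (x : ℕ) : ∑ z ∈ disc' x, (nm z : ℝ)⁻¹ ≤ 9 * (1 + Real.log x) := by
  have := sum_disc'_le (fun n => (n : ℝ)⁻¹) (fun n hn => by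
    have : (0 : ℝ) < n := by exact_mod_cast hn
    gcongr; omega) (fun n => by positivity) x
  linarith [sum_inv_nat x]

theorem mem_Lam' {n : ℕ} {z : GI} : z ∈ Lam n ↔ nm z = n := by
  rw [mem_Lam, nm]; have := GaussianInt.norm_nonneg z; omega

theorem circ_eq (n : ℕ) : circ n = Lam n := by ext z; rw [mem_circ, mem_Lam']

end Ar

open Finset Ar

theorem p_LAT : S_LAT := by
  refine ⟨18, by norm_num, fun N => ⟨by simpa only [r2, circ_eq] using sum_card8 N, ?_, ?_⟩⟩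
  · refine le_trans (le_of_eq ?_) (sum_inv_norm N)
    rw [sum_disc']
    refine sum_congr rfl fun n _ => ?_
    rw [sum_congr rfl fun z hz => by rw [mem_circ.1 hz], sum_const, nsmul_eq_mul, circ_eq]; rfl
  · have : ∑ n ∈ Icc 1 N, (r2 n : ℝ) / n = ∑ z ∈ disc' N, (nm z : ℝ)⁻¹ := by
      rw [sum_disc']
      refine sum_congr rfl fun n _ => ?_
      rw [sum_congr rfl fun z hz => by rw [mem_circ.1 hz], sum_const, nsmul_eq_mul, circ_eq]; rfl
    linarith [sum_inv_nm N, Real.log_natCast_nonneg N]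

end Pool.Agent.P.MP_6b977f_mp.RB
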