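import Pool.Agent.P.MP_6b977f_mp.RB.Iface

/-! Step LAW. -/

namespace Pool.Agent.P.MP_6b977f_mp.RB

open Real MeasureTheory ProbabilityTheory Filter Topology Finset Laplacian
open scoped ContDiff ComplexConjugate ENNReal Matrix

theorem p_LAW :
    S_LAW := by
  intro ν _
  refine ⟨fun ι _ κ h => ⟨by fun_prop, ?_⟩, fun ⟨_, h4, _, h2⟩ a b k l => ?_⟩
  · rw [← Measure.infinitePi_eq_pi]
    exact Measure.map_infinitePi_infinitePi_of_inj (P := fun _ : ℕ => ν) h
  · have mp := fun k => measurePreserving_eval_infinitePi (fun _ : ℕ => ν) k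
    have m : ∀ k, MemLp (fun g : ℕ → ℝ => g k) 2 (Measure.infinitePi fun _ => ν) := fun k =>
      (h4.mono_exponent (by norm_num)).comp_measurePreserving (mp k)
    have e : ∀ k, ∫ g : ℕ → ℝ, g k ^ 2 ∂(Measure.infinitePi fun _ => ν) = 1 := fun k => by
      rw [← (mp k).map_eq, integral_map (mp k).aemeasurable (by fun_prop)] at h2
      exact h2
    have i := (((m k).const_mul a).add ((m l).const_mul b)).integrable_sq
    have i1 := (m k).integrable_sq.const_mul (2 * a ^ 2)
    have i2 := (m l).integrable_sq.const_mul (2 * b ^ 2)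
    refine ⟨i, (integral_mono i (i1.add i2) fun g => ?_).trans_eq ?_⟩
    · simp only [Pi.add_apply]
      nlinarith [sq_nonneg (a * g k - b * g l)]
    · rw [integral_add' i1 i2, integral_const_mul, integral_const_mul, e, e]
      ring

end Pool.Agent.P.MP_6b977f_mp.RB
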