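import Pool.Agent.P.MP_6b977f_mp.RB.Iface

/-! Step LAY. -/

namespace Pool.Agent.P.MP_6b977f_mp.RB

open Real MeasureTheory ProbabilityTheory Filter Topology Finset Laplacian
open scoped ContDiff ComplexConjugate ENNReal Matrix

namespace LAYA

theorem one (c : ℝ) : volume {x ∈ Set.Ioo 0 π | x + c ∉ Set.Ioo 0 π} ≤ ENNReal.ofReal (2 * |c|) := by
  refine (measure_mono (t := Set.Icc (π - |c|) π ∪ Set.Icc 0 |c|) fun x hx => ?_).trans
    ((measure_union_le _ _).trans_eq ?_)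
  · obtain ⟨⟨a, b⟩, d⟩ := hx
    rw [Set.mem_Ioo, not_and_or, not_lt, not_lt] at d
    have := le_abs_self c
    have := neg_le_abs c
    rcases d with d | d
    · exact .inr ⟨a.le, by linarith⟩
    · exact .inl ⟨by linarith, b.le⟩
  · rw [Real.volume_Icc, Real.volume_Icc, sub_sub_cancel, sub_zero, two_mul,
      ENNReal.ofReal_add (abs_nonneg c) (abs_nonneg c)]

theorem lay (h : ℂ) : volume.real {z ∈ sqr | z + h ∉ sqr} ≤ 4 * π * ‖h‖ := by
  have p := pi_pos
  refine ENNReal.toReal_le_of_le_ofReal (by positivity) ((measure_mono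
    (t := {z : ℂ | z.re ∈ {x ∈ Set.Ioo 0 π | x + h.re ∉ Set.Ioo 0 π} ∧ z.im ∈ Set.Ioo 0 π} ∪
      {z : ℂ | z.re ∈ Set.Ioo 0 π ∧ z.im ∈ {x ∈ Set.Ioo 0 π | x + h.im ∉ Set.Ioo 0 π}})
    fun z hz => ?_).trans ((measure_union_le _ _).trans ?_))
  · obtain ⟨⟨a, b⟩, d⟩ := hz
    rcases not_and_or.1 d with d | d
    · exact .inl ⟨⟨a, d⟩, b⟩
    · exact .inr ⟨a, b, d⟩
  · rw [rect_vol, rect_vol, Real.volume_Ioo, sub_zero, mul_comm (ENNReal.ofReal π), ← add_mul]
    refine (mul_le_mul_left (add_le_add (one _) (one _)) _).trans ?_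
    rw [← ENNReal.ofReal_add (by positivity) (by positivity),
      ← ENNReal.ofReal_mul (by positivity)]
    exact ENNReal.ofReal_le_ofReal (by
      nlinarith [Complex.abs_re_le_norm h, Complex.abs_im_le_norm h])

theorem rem (G : ℂ → ℂ) (h : ℂ) (m : Measurable G) (b : ∀ z, ‖G z‖ ≤ 1) :
    ‖(∫ z in sqr, G z) - ∫ z in sqr ∩ (· + h) ⁻¹' sqr, G z‖ ≤ 4 * π * ‖h‖ := by
  have f : volume sqr < ⊤ := sqr_bdd.measure_lt_top
  rw [← integral_inter_add_sdiff (t := (· + h) ⁻¹' sqr)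
    (measurable_add_const h sqr_open.measurableSet)
    (Measure.integrableOn_of_bounded f.ne m.aestronglyMeasurable (.of_forall b)),
    add_sub_cancel_left]
  exact (norm_setIntegral_le_of_norm_le_const ((measure_mono Set.sdiff_subset).trans_lt f)
    fun z _ => b z).trans ((one_mul _).trans_le (lay h))

end LAYA

theorem p_LAY :
    S_LAY := by
  refine ⟨LAYA.lay, fun F h m b => ?_⟩
  have h1 := LAYA.rem (fun z => F (z + h)) h (m.comp (measurable_add_const h)) fun z => b _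
  have h2 := LAYA.rem F (-h) m b
  have h3 := (measurePreserving_add_right volume h).setIntegral_preimage_emb
    (measurableEmbedding_addRight h) F (sqr ∩ (· + -h) ⁻¹' sqr)
  rw [show (· + h) ⁻¹' (sqr ∩ (· + -h) ⁻¹' sqr) = sqr ∩ (· + h) ⁻¹' sqr by
    ext z; simp [and_comm]] at h3
  rw [h3] at h1
  rw [norm_neg, norm_sub_rev] at h2
  exact (norm_sub_le_norm_sub_add_norm_sub _ _ _).trans ((add_le_add h1 h2).trans_eq (by ring))

end Pool.Agent.P.MP_6b977f_mp.RB
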