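import Pool.Agent.P.MP_6b977f_mp.RB.Iface

/-! Step LOW. -/

namespace Pool.Agent.P.MP_6b977f_mp.RB

open Real MeasureTheory ProbabilityTheory Filter Topology Finset Laplacian
open scoped ContDiff ComplexConjugate ENNReal Matrix

namespace LOWA

lemma parseval {V : II → II → ℝ} {lam : ℕ → ℝ} {c : ℕ → II → ℝ} (h : SBasis V lam c) (ξ : II) :
    HasSum (fun j => c j ξ ^ 2) 1 := by
  have h1 : ∀ j, Memℓp (c j) 2 := fun j => memℓp_gen (by
    simpa [sq] using (h.orth j j).summable)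
  let v : ℕ → lp (fun _ : II => ℝ) 2 := fun j => ⟨c j, h1 j⟩
  have h2 : Orthonormal ℝ v := orthonormal_iff_ite.2 fun i j => by
    rw [lp.inner_eq_tsum, ← (h.orth j i).tsum_eq.trans (if_congr eq_comm rfl rfl)]
    rfl
  have h3 : (Submodule.span ℝ (Set.range v))ᗮ = ⊥ := (Submodule.eq_bot_iff _).2 fun x hx =>
    Subtype.ext (h.complete x (by simpa using x.2.summable (by norm_num)) fun j =>
      (Submodule.mem_orthogonal _ x).1 hx (v j) (Submodule.subset_span ⟨j, rfl⟩))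
  have h4 := (HilbertBasis.mkOfOrthogonalEqBot h2 h3).hasSum_inner_mul_inner
    (lp.single 2 ξ 1) (lp.single 2 ξ 1)
  simpa [lp.inner_single_left, lp.inner_single_right, v, sq] using h4

end LOWA

theorem p_LOW (hFORM : S_FORM) (hWIN1 : S_WIN1) :
    S_LOW := by
  intro V lam c hV h
  refine ⟨tendsto_atTop_atTop_of_monotone h.mono fun M => ?_, ?_⟩
  · by_contra! h0
    refine Set.infinite_univ (Set.Finite.of_finite_fibers (fun j => round (lam j))
      ((Set.finite_Icc (round (lam 0)) (round M)).subset ?_) fun n _ => ?_)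
    · rintro _ ⟨j, -, rfl⟩
      simp only [round_eq]
      exact ⟨Int.floor_mono (by linarith [h.mono (Nat.zero_le j)]),
        Int.floor_mono (by linarith [h0 j])⟩
    by_contra h1
    obtain ⟨N, hN⟩ := exists_nat_gt (2 * (Sh n.toNat).card + 4 * BB V n)
    obtain ⟨T, h2, rfl⟩ := Set.Infinite.exists_subset_card_eq h1 N
    refine hN.not_ge (hWIN1 V n lam c T hV h.orth fun j hj => ⟨h.eig j, ?_⟩)
    rw [← show round (lam j) = n from (h2 hj).2]
    exact abs_sub_round _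
  obtain ⟨⟨C, c1, c2⟩, hF⟩ := hFORM V hV
  obtain ⟨p1, p2⟩ := hF C lam c c1 c2 h.orth h.eig
  refine ⟨40 + C, (eventually_ge_atTop 1).mono fun N hN => ?_⟩
  set M := Nat.sqrt (4 * N) + 1 with hM
  have m1 : (4 * N : ℝ) < (M : ℝ) ^ 2 := by exact_mod_cast Nat.lt_succ_sqrt' (4 * N)
  have m2 : (M : ℝ) ^ 2 ≤ 10 * N := by
    have := Nat.sqrt_le' (4 * N)
    have : M ^ 2 ≤ 10 * N := by
      rw [hM]
      nlinarith [sq_nonneg ((Nat.sqrt (4 * N) : ℤ) - 1)]
    exact_mod_cast this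
  have n1 : (1 : ℝ) ≤ N := by exact_mod_cast hN
  by_contra! h0
  have h1 : 4 * (M : ℝ) ^ 2 + 2 * C ≤ lam N + C := by nlinarith [Nat.cast_nonneg (α := ℝ) C]
  have h2 : ∀ ξ ∈ range M ×ˢ range M, 1 / 4 ≤ ∑ j ∈ range N, c j ξ ^ 2 := by
    intro ξ hξ
    have d1 : (dd ξ : ℝ) ≤ 2 * (M : ℝ) ^ 2 := by
      have := Nat.pow_le_pow_left (mem_range.1 (mem_product.1 hξ).1).le 2
      have := Nat.pow_le_pow_left (mem_range.1 (mem_product.1 hξ).2).le 2
      exact_mod_cast (by unfold dd; omega : dd ξ ≤ 2 * M ^ 2)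
    have := (LOWA.parseval h ξ).tsum_eq.symm.trans_le ((LOWA.parseval h ξ).summable.tsum_le_of_sum_le
      (a₂ := ∑ j ∈ range N, c j ξ ^ 2 + 3 / 4) fun T => ?_)
    · linarith
    rw [← sum_filter_add_sum_filter_not T (· < N)]
    refine add_le_add (sum_le_sum_of_subset_of_nonneg (fun j hj => mem_range.2 (mem_filter.1 hj).2)
      fun _ _ _ => sq_nonneg _) (le_of_mul_le_mul_left ?_ (p1 N))
    rw [mul_sum]
    refine (sum_le_sum fun j hj => mul_le_mul_of_nonneg_right (add_le_add_left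
      (h.mono (not_lt.1 (mem_filter.1 hj).2)) _) (sq_nonneg _)).trans ((p2 _ ξ).trans ?_)
    linarith
  have h3 := card_nsmul_le_sum _ _ _ h2
  have h4 : ∑ j ∈ range N, ∑ ξ ∈ range M ×ˢ range M, c j ξ ^ 2 ≤ ∑ j ∈ range N, 1 :=
    sum_le_sum fun j _ => by
      simpa [sq] using sum_le_hasSum _ (fun _ _ => mul_self_nonneg _) (h.orth j j)
  rw [sum_comm, card_product, card_range, nsmul_eq_mul, Nat.cast_mul] at h3
  rw [sum_const, card_range, nsmul_one] at h4
  nlinarith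

end Pool.Agent.P.MP_6b977f_mp.RB
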