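import Pool.Agent.P.MP_6b977f_mp.RB.Iface

/-! Step MER. -/

namespace Pool.Agent.P.MP_6b977f_mp.RB

open Real MeasureTheory ProbabilityTheory Filter Topology Finset Laplacian
open scoped ContDiff ComplexConjugate ENNReal Matrix

namespace MERA

lemma pow_div_dvd_factorial {p : ℕ} (hp : p.Prime) (n : ℕ) : p ^ (n / p) ∣ n.factorial := by
  rw [hp.pow_dvd_factorial_iff (b := Nat.log p n + 2) (by omega)]
  have := Finset.single_le_sum (f := fun i => n / p ^ i) (s := Ico 1 (Nat.log p n + 2))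
    (fun _ _ => Nat.zero_le _) (a := 1) (by simp)
  simpa using this

lemma mertens_nat (S : Finset ℕ) (hS : ∀ p ∈ S, p.Prime) {n : ℕ} (hn : n ≠ 0)
    (hle : ∀ p ∈ S, p ≤ n) : ∑ p ∈ S, Real.log p / p ≤ 2 * Real.log n := by
  have hd : ∏ p ∈ S, p ^ (n / p) ∣ n.factorial := by
    refine Finset.prod_dvd_of_isRelPrime ?_ fun p hp => pow_div_dvd_factorial (hS p hp) n
    intro a ha b hb hab
    simp only [Function.onFun]
    rw [← Nat.coprime_iff_isRelPrime]
    exact Nat.Coprime.pow _ _ ((Nat.coprime_primes (hS a ha) (hS b hb)).mpr hab)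
  have h1 : ∏ p ∈ S, p ^ (n / p) ≤ n ^ n :=
    (Nat.le_of_dvd n.factorial_pos hd).trans n.factorial_le_pow
  have h2 : (∏ p ∈ S, (p : ℝ) ^ (n / p)) ≤ (n : ℝ) ^ n := by exact_mod_cast h1
  have hpos : ∀ p ∈ S, (0 : ℝ) < p := fun p hp => by exact_mod_cast (hS p hp).pos
  have h3 := Real.log_le_log (Finset.prod_pos fun p hp => pow_pos (hpos p hp) _) h2
  rw [Real.log_prod (fun p hp => (pow_pos (hpos p hp) _).ne'), Real.log_pow] at h3
  have hn0 : (0 : ℝ) < n := by exact_mod_cast Nat.pos_of_ne_zero hn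
  have h4 : (n : ℝ) * ∑ p ∈ S, Real.log p / p ≤ 2 * ∑ p ∈ S, Real.log ((p : ℝ) ^ (n / p)) := by
    rw [Finset.mul_sum, Finset.mul_sum]
    refine Finset.sum_le_sum fun p hp => ?_
    rw [Real.log_pow]
    have a1 : 1 ≤ n / p := (Nat.one_le_div_iff (hS p hp).pos).mpr (hle p hp)
    have a2 : n < p * (n / p + 1) := Nat.lt_mul_div_succ n (hS p hp).pos
    have a3 : n ≤ p * (2 * (n / p)) := a2.le.trans (Nat.mul_le_mul_left _ (by omega))
    have a4 : (n : ℝ) ≤ p * (2 * ((n / p : ℕ) : ℝ)) := by exact_mod_cast a3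
    have a5 : (n : ℝ) / p ≤ 2 * ((n / p : ℕ) : ℝ) := by
      rw [div_le_iff₀ (hpos p hp)]; linarith
    have a6 := Real.log_natCast_nonneg p
    calc (n : ℝ) * (Real.log p / p) = (n : ℝ) / p * Real.log p := by ring
      _ ≤ 2 * ((n / p : ℕ) : ℝ) * Real.log p := by gcongr
      _ = _ := by ring
  have h5 : (n : ℝ) * ∑ p ∈ S, Real.log p / p ≤ n * (2 * Real.log n) := by linarith
  exact le_of_mul_le_mul_left h5 hn0

end MERA

theorem p_MER :
    S_MER := by
  intro c hc
  obtain ⟨T, hT⟩ := exists_nat_ge (Real.exp (4 * c + 1))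
  refine ⟨Real.exp (c * T), fun q hq => ?_⟩
  have hL : 0 < 4 * c + 1 := by linarith
  have hq0 : (0 : ℝ) < q := by exact_mod_cast hq
  have hlq : 0 ≤ Real.log q := Real.log_natCast_nonneg q
  have h1 := MERA.mertens_nat (q + 1).primesBelow (fun p hp => Nat.prime_of_mem_primesBelow hp)
    (n := q) (by omega) fun p hp => Nat.le_of_lt_succ (Nat.lt_of_mem_primesBelow hp)
  have h2 : ∑ p ∈ (q + 1).primesBelow, (1 / p : ℝ) ≤ ∑ p ∈ (q + 1).primesBelow,
      ((if p ∈ range T then (1 : ℝ) else 0) + Real.log p / p / (4 * c + 1)) := by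
    refine sum_le_sum fun p hp => ?_
    have hp1 : (1 : ℝ) ≤ p := by exact_mod_cast (Nat.prime_of_mem_primesBelow hp).one_le
    have hl := Real.log_natCast_nonneg p
    split_ifs with h
    · have a1 : (1 : ℝ) / p ≤ 1 := by rw [div_le_one (by linarith)]; exact hp1
      have a2 : 0 ≤ Real.log p / p / (4 * c + 1) := by positivity
      linarith
    · have a1 : (T : ℝ) ≤ p := by exact_mod_cast not_lt.1 (mt mem_range.2 h)
      have a2 : 4 * c + 1 ≤ Real.log p := (Real.le_log_iff_exp_le (by linarith)).2 (hT.trans a1)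
      rw [zero_add, le_div_iff₀ hL, div_mul_eq_mul_div, one_mul]
      gcongr
  have h3 : ∑ p ∈ (q + 1).primesBelow, (if p ∈ range T then (1 : ℝ) else 0) ≤ T := by
    rw [sum_boole]
    have := card_le_card (s := {p ∈ (q + 1).primesBelow | p ∈ range T}) (t := range T)
      fun p hp => (mem_filter.1 hp).2
    rw [card_range] at this
    exact_mod_cast this
  rw [sum_add_distrib, ← sum_div] at h2
  have h4 : c * ((∑ p ∈ (q + 1).primesBelow, Real.log p / p) / (4 * c + 1)) ≤
      Real.log q * (1 / 2) := by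
    rw [← mul_div_assoc, div_le_iff₀ hL]
    nlinarith [mul_le_mul_of_nonneg_left h1 hc]
  rw [Real.sqrt_eq_rpow, Real.rpow_def_of_pos hq0, ← Real.exp_add, Real.exp_le_exp]
  nlinarith [mul_le_mul_of_nonneg_left h2 hc, mul_le_mul_of_nonneg_left h3 hc]

end Pool.Agent.P.MP_6b977f_mp.RB
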