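import Pool.Agent.P.MP_6b977f_mp.RB.Iface

/-! Step MOD1. -/

namespace Pool.Agent.P.MP_6b977f_mp.RB

open Real MeasureTheory ProbabilityTheory Filter Topology Finset Laplacian
open scoped ContDiff ComplexConjugate ENNReal Matrix

namespace MOD1A

theorem un_exp (n : ℤ) :
    ∫ x, Complex.exp (Complex.I * n * (x : ℝ)) ∂un = if n = 0 then 1 else 0 := by
  split_ifs with h
  · simp [h]
  rw [un, integral_smul_measure, ← intervalIntegral.integral_of_le two_pi_pos.le,
    integral_exp_mul_complex (by simp [h]),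
    show Complex.I * n * ((2 * π : ℝ) : ℂ) = n * (2 * π * Complex.I) by push_cast; ring,
    Complex.exp_int_mul_two_pi_mul_I]
  simp

/-- The sign of `ξ` with respect to `h`. -/
def sg (ξ h : GI) : ℤ := (if ξ = h then 1 else 0) - if ξ = -h then 1 else 0

theorem sg_neg (ξ h : GI) : sg (-ξ) h = -sg ξ h := by
  simp only [sg, neg_eq_iff_eq_neg, neg_sub, neg_neg]

variable {S : Finset GI}

theorem ph (θ : Hf S → ℝ) (ξ : Hf S) : ∑ h : Hf S, Complex.I * sg ξ h * θ h = Complex.I * θ ξ := by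
  have e : ∀ h : Hf S, (ξ : GI) ≠ -h := fun h e => by
    have a := (mem_filter.1 ξ.2).2
    have b := (mem_filter.1 h.2).2
    rw [e, Zsqrtd.re_neg] at a
    omega
  rw [sum_eq_single ξ (fun h _ n => by simp [sg, e h, Subtype.coe_ne_coe.2 n.symm]) (by simp)]
  simp [sg, e ξ]

theorem zm {y : GI → ℂ} (hS : Sym S) (hy : Herm y) (θ : Hf S → ℝ) :
    (Zm S y θ : ℂ) = ∑ ξ ∈ S, y ξ * Complex.exp (∑ h : Hf S, Complex.I * sg ξ h * θ h) := by
  rw [← sum_filter_add_sum_filter_not S fun ξ => 0 < ξ.re,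
    sum_nbij' (s := S.filter fun ξ => ¬0 < ξ.re) (t := Hf S) (fun ξ => -ξ) (fun ξ => -ξ)
      (g := fun ξ => y (-ξ) * Complex.exp (∑ h : Hf S, Complex.I * sg (-ξ) h * θ h))
      (fun ξ h => by
        obtain ⟨a, b⟩ := mem_filter.1 h
        have := (hS ξ a).2
        exact mem_filter.2 ⟨(hS ξ a).1, by rw [Zsqrtd.re_neg]; omega⟩)
      (fun ξ h => by
        obtain ⟨a, b⟩ := mem_filter.1 h
        exact mem_filter.2 ⟨(hS ξ a).1, by rw [Zsqrtd.re_neg]; omega⟩)
      (fun _ _ => neg_neg _) (fun _ _ => neg_neg _) (fun _ _ => by rw [neg_neg]),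
    ← Hf, ← sum_add_distrib, ← sum_coe_sort (Hf S), Zm, Complex.ofReal_sum]
  refine sum_congr rfl fun ξ _ => ?_
  simp only [sg_neg, Int.cast_neg, mul_neg, neg_mul, sum_neg_distrib, ph]
  rw [← Complex.add_conj, hy, map_mul, ← Complex.exp_conj]
  simp

theorem bal (hS : Sym S) {m : ℕ} {t : Fin m → GI} (ht : t ∈ Tup S m) :
    (∀ h : Hf S, ∑ i, sg (t i) h = 0) ↔ BalOn univ t := by
  have e : ∀ h : GI, ∑ i, sg (t i) h = 0 ↔ #{i | t i = h} = #{i | t i = -h} := fun h => by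
    simp [sg, sub_eq_zero]
  simp only [e]
  refine ⟨fun H ξ => ?_, fun H h => H h⟩
  by_cases a : ξ ∈ S
  · rcases lt_or_gt_of_ne (hS ξ a).2 with b | b
    · have := H ⟨-ξ, mem_filter.2 ⟨(hS ξ a).1, by rw [Zsqrtd.re_neg]; omega⟩⟩
      rw [neg_neg] at this
      exact this.symm
    · exact H ⟨ξ, mem_filter.2 ⟨a, b⟩⟩
  · rw [filter_false_of_mem fun i _ (e : t i = ξ) => a (e ▸ mem_Tup.1 ht i),
      filter_false_of_mem fun i _ (e : t i = -ξ) => a (neg_neg ξ ▸ (hS _ (e ▸ mem_Tup.1 ht i)).1)]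

end MOD1A

open MOD1A Classical in
theorem p_MOD1 :
    S_MOD1 := by
  intro S y m hS hy
  have e : ∀ θ, ((Zm S y θ ^ m : ℝ) : ℂ) = ∑ t ∈ Tup S m, (∏ i, y (t i)) *
      ∏ h : Hf S, Complex.exp (Complex.I * (∑ i, sg (t i) h : ℤ) * θ h) := fun θ => by
    rw [Complex.ofReal_pow, zm hS hy, ← Fin.prod_const, prod_univ_sum]
    refine sum_congr rfl fun t _ => ?_
    rw [prod_mul_distrib, ← Complex.exp_sum, ← Complex.exp_sum, sum_comm]
    simp only [Int.cast_sum, mul_sum, sum_mul]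
  rw [← integral_complex_ofReal, funext e, integral_finsetSum _ fun t _ => ?_, sum_filter]
  · refine sum_congr rfl fun t ht => ?_
    rw [integral_const_mul, PH, integral_fintype_prod_eq_prod
      (fun (h : Hf S) (x : ℝ) => Complex.exp (Complex.I * (∑ i, sg (t i) h : ℤ) * x))]
    simp only [un_exp, prod_boole, mem_univ, true_imp_iff, bal hS ht, mul_boole]
  · refine Integrable.const_mul (.of_bound (by fun_prop : Measurable _).aestronglyMeasurable 1
      (.of_forall fun θ => ?_)) _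
    simp [Complex.norm_exp]

end Pool.Agent.P.MP_6b977f_mp.RB
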