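import Pool.Agent.P.MP_6b977f_mp.RB.Iface

/-! Step MOD2. -/

namespace Pool.Agent.P.MP_6b977f_mp.RB

open Real MeasureTheory ProbabilityTheory Filter Topology Finset Laplacian
open scoped ContDiff ComplexConjugate ENNReal Matrix

namespace MOD2A

/-- One summand of the model. -/
noncomputable def W (a : ℂ) (x : ℝ) : ℝ := 2 * (a * Complex.exp (Complex.I * x)).re

lemma W_eq (a : ℂ) (x : ℝ) : W a x = 2 * a.re * cos x - 2 * a.im * sin x := by
  rw [W, mul_comm Complex.I, Complex.mul_re, Complex.exp_ofReal_mul_I_re,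
    Complex.exp_ofReal_mul_I_im]
  ring

@[fun_prop] lemma W_cont (a : ℂ) : Continuous (W a) := by unfold W; fun_prop

lemma W_le (a : ℂ) (x : ℝ) : |W a x| ≤ 2 * ‖a‖ := by
  have := Complex.abs_re_le_norm (a * Complex.exp (Complex.I * x))
  rw [norm_mul, Complex.norm_exp_I_mul_ofReal, mul_one] at this
  rw [W, abs_mul, abs_two]
  gcongr

lemma intg {E : Type} [NormedAddCommGroup E] {f : ℝ → E} (h : Continuous f) : Integrable f un :=
  h.integrableOn_Ioc.integrable.smul_measure (by simp [pi_pos])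

lemma int_un (f : ℝ → ℝ) : ∫ x, f x ∂un = (2 * π)⁻¹ * ∫ x in (0 : ℝ)..2 * π, f x := by
  rw [un, integral_smul_measure, intervalIntegral.integral_of_le two_pi_pos.le, ENNReal.toReal_inv,
    ENNReal.toReal_ofReal two_pi_pos.le, smul_eq_mul]

lemma W1 (a : ℂ) : ∫ x, W a x ∂un = 0 := by
  simp only [int_un, W_eq]
  rw [intervalIntegral.integral_sub (Continuous.intervalIntegrable (by fun_prop) _ _)
    (Continuous.intervalIntegrable (by fun_prop) _ _)]
  simp

lemma W2 (a : ℂ) : ∫ x, W a x ^ 2 ∂un = 2 * ‖a‖ ^ 2 := by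
  have : ∀ x, W a x ^ 2 = 4 * a.re ^ 2 * cos x ^ 2 + 4 * a.im ^ 2 * sin x ^ 2 -
      8 * a.re * a.im * (sin x * cos x) := fun x => by rw [W_eq]; ring
  simp only [int_un, this]
  rw [intervalIntegral.integral_sub (Continuous.intervalIntegrable (by fun_prop) _ _)
    (Continuous.intervalIntegrable (by fun_prop) _ _), intervalIntegral.integral_add
    (Continuous.intervalIntegrable (by fun_prop) _ _)
    (Continuous.intervalIntegrable (by fun_prop) _ _), Complex.sq_norm, Complex.normSq_apply]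
  simp [integral_sin_mul_cos₁]
  field_simp
  ring

lemma one (hTAY : S_TAY) (a : ℂ) : ‖(∫ x, Complex.exp (Complex.I * W a x) ∂un) -
    (Real.exp (-‖a‖ ^ 2) : ℝ)‖ ≤ 2 * ‖a‖ ^ 3 + ‖a‖ ^ 4 := by
  have h1 : ∫ x, ∑ k ∈ range 3, (Complex.I * W a x) ^ k / k.factorial ∂un =
      ((1 - ‖a‖ ^ 2 : ℝ) : ℂ) := by
    have : ∀ x, ∑ k ∈ range 3, (Complex.I * W a x) ^ k / k.factorial =
        ((1 - W a x ^ 2 / 2 : ℝ) : ℂ) + Complex.I * W a x := fun x => by
      simp [sum_range_succ, mul_pow]; ring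
    simp only [this]
    rw [integral_add (intg (by fun_prop)) (intg (by fun_prop)), integral_const_mul,
      integral_complex_ofReal, integral_complex_ofReal,
      integral_sub (intg (by fun_prop)) (intg (by fun_prop)), integral_div, W1, W2]
    simp
  have h2 := norm_integral_le_of_norm_le_const (μ := un) (C := 2 * ‖a‖ ^ 3)
    (.of_forall fun x => (hTAY 3 (W a x)).trans (by
      have := pow_le_pow_left₀ (abs_nonneg _) (W_le a x) 3
      have := pow_nonneg (norm_nonneg a) 3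
      norm_num [Nat.factorial]
      linarith))
  rw [integral_sub (intg (by fun_prop)) (intg (by fun_prop)), h1, probReal_univ, mul_one] at h2
  refine (norm_sub_le_norm_sub_add_norm_sub _ _ _).trans (add_le_add h2 ?_)
  rw [← Complex.ofReal_sub, Complex.norm_real, Real.norm_eq_abs, show ‖a‖ ^ 4 = (‖a‖ ^ 2) ^ 2 by ring]
  have h0 := sq_nonneg ‖a‖
  generalize ‖a‖ ^ 2 = s at *
  have h3 := add_one_le_exp (-s)
  have h4 : Real.exp (-s) ≤ 1 - s + s ^ 2 := by
    rw [exp_neg, inv_le_iff_one_le_mul₀ (exp_pos s)]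
    nlinarith [add_one_le_exp s, sq_nonneg (2 * s - 1), pow_nonneg h0 3]
  rw [abs_le]
  constructor <;> nlinarith

lemma prd {ι : Type} (s : Finset ι) (a b : ι → ℂ) (ha : ∀ i, ‖a i‖ ≤ 1) (hb : ∀ i, ‖b i‖ ≤ 1) :
    ‖∏ i ∈ s, a i - ∏ i ∈ s, b i‖ ≤ ∑ i ∈ s, ‖a i - b i‖ := by
  classical
  induction s using Finset.induction_on with
  | empty => simp
  | insert i s hi ih =>
    rw [prod_insert hi, prod_insert hi, sum_insert hi, show a i * ∏ i ∈ s, a i - b i * ∏ i ∈ s, b i =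
      (a i - b i) * ∏ i ∈ s, b i + a i * (∏ i ∈ s, a i - ∏ i ∈ s, b i) by ring]
    have : ‖∏ i ∈ s, b i‖ ≤ 1 := (Finset.norm_prod_le _ _).trans
      (prod_le_one (fun _ _ => norm_nonneg _) fun i _ => hb i)
    refine (norm_add_le _ _).trans (add_le_add ?_ (le_trans ?_ ih)) <;> rw [norm_mul]
    · exact mul_le_of_le_one_right (norm_nonneg _) this
    · exact mul_le_of_le_one_left (norm_nonneg _) (ha i)

lemma half {S : Finset GI} {y : GI → ℂ} (hS : Sym S) (hy : Herm y) :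
    ∑ ξ ∈ S, ‖y ξ‖ ^ 2 = 2 * ∑ ξ : Hf S, ‖y ξ‖ ^ 2 := by
  rw [sum_coe_sort (Hf S) fun ξ => ‖y ξ‖ ^ 2, ← sum_filter_add_sum_filter_not S (0 < ·.re), two_mul]
  congr 1
  refine sum_nbij' Neg.neg Neg.neg (fun ξ h => ?_) (fun ξ h => ?_) (by simp) (by simp)
    fun ξ _ => by rw [hy, Complex.norm_conj]
  all_goals
    obtain ⟨a, b⟩ := mem_filter.1 h
    have := (hS ξ a).2
    exact mem_filter.2 ⟨(hS ξ a).1, by rw [Zsqrtd.re_neg]; omega⟩

lemma mgf1 (a : ℂ) {t : ℝ} (ht : t ^ 2 = 4) : ∫ x, exp (t * W a x) ∂un ≤ exp (8 * ‖a‖ ^ 2) := by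
  refine ((hasSubgaussianMGF_of_mem_Icc_of_integral_eq_zero (W_cont a).aemeasurable
    (.of_forall fun x => abs_le.1 (W_le a x)) (W1 a)).mgf_le t).trans_eq ?_
  rw [ht]
  simp only [NNReal.coe_pow, NNReal.coe_div, coe_nnnorm, Real.norm_eq_abs, div_pow, sq_abs,
    NNReal.coe_ofNat]
  ring_nf

end MOD2A

open MOD2A in
theorem p_MOD2 (hTAY : S_TAY) :
    S_MOD2 := by
  intro S y hS hy
  have hZ : ∀ θ, Zm S y θ = ∑ ξ : Hf S, W (y ξ) (θ ξ) := fun θ => rfl
  refine ⟨?_, fun L hL => ?_⟩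
  · simp only [hZ, Complex.ofReal_sum, mul_sum, Complex.exp_sum]
    rw [PH, integral_fintype_prod_eq_prod fun (ξ : Hf S) x => Complex.exp (Complex.I * W (y ξ) x),
      ← mul_sum, half hS hy, ← mul_assoc, show -(1 / 2) * 2 = (-1 : ℝ) by norm_num, neg_one_mul,
      ← sum_neg_distrib, exp_sum, Complex.ofReal_prod]
    refine (prd _ _ _ (fun ξ => ?_) fun ξ => ?_).trans ((sum_le_sum fun ξ _ => one hTAY _).trans ?_)
    · simpa using norm_integral_le_of_norm_le_const (μ := un) (C := 1)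
        (.of_forall fun x => (Complex.norm_exp_I_mul_ofReal (W (y ξ) x)).le)
    · rw [Complex.norm_real, Real.norm_eq_abs, abs_of_pos (exp_pos _), exp_le_one_iff]
      exact neg_nonpos.2 (sq_nonneg _)
    · rw [sum_coe_sort (Hf S) fun ξ => 2 * ‖y ξ‖ ^ 3 + ‖y ξ‖ ^ 4]
      exact sum_le_sum_of_subset_of_nonneg (filter_subset _ _) fun _ _ _ => by positivity
  · have key : ∀ t : ℝ, t ^ 2 = 4 → Integrable (fun θ => exp (t * Zm S y θ)) (PH S) ∧
        ∫ θ, exp (t * Zm S y θ) ∂PH S ≤ exp (8 * ∑ ξ ∈ S, ‖y ξ‖ ^ 2) := fun t ht => by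
      simp only [hZ, mul_sum univ, exp_sum]
      refine ⟨Integrable.fintype_prod (f := fun (ξ : Hf S) x => exp (t * W (y ξ) x))
        fun ξ => intg (by fun_prop), ?_⟩
      rw [PH, integral_fintype_prod_eq_prod fun (ξ : Hf S) x => exp (t * W (y ξ) x)]
      refine (prod_le_prod (fun ξ _ => integral_nonneg fun x => (exp_pos _).le)
        fun ξ _ => mgf1 _ ht).trans ?_
      rw [← exp_sum, ← mul_sum, half hS hy, exp_le_exp]
      linarith [sum_nonneg fun (ξ : Hf S) (_ : ξ ∈ univ) => sq_nonneg ‖y ξ‖]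
    obtain ⟨a1, a2⟩ := key 2 (by norm_num)
    obtain ⟨b1, b2⟩ := key (-2) (by norm_num)
    rw [le_div_iff₀ (by positivity), ← integral_div, ← integral_mul_const]
    refine (integral_mono_of_nonneg (g := fun θ => (exp (2 * Zm S y θ) + exp (-2 * Zm S y θ)) / 2)
      (.of_forall fun θ => by have := hL.pow_nonneg (Zm S y θ); positivity)
      ((a1.add b1).div_const 2) (.of_forall fun θ => ?_)).trans ?_
    · obtain ⟨k, rfl⟩ := hL.two_dvd
      have := le_hasSum (hasSum_cosh (2 * Zm S y θ)) k fun j _ => by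
        have := (even_two_mul j).pow_nonneg (2 * Zm S y θ)
        positivity
      rw [cosh_eq, mul_pow, ← neg_mul] at this
      exact this.trans_eq' (by ring)
    · rw [integral_div, integral_add a1 b1]
      linarith

end Pool.Agent.P.MP_6b977f_mp.RB
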