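import Pool.Agent.P.MP_6b977f_mp.RB.Iface

/-! Step OBS. -/

namespace Pool.Agent.P.MP_6b977f_mp.RB

open Real MeasureTheory ProbabilityTheory Filter Topology Finset Laplacian
open scoped ContDiff ComplexConjugate ENNReal Matrix

namespace OBSA

lemma an (k : ℕ) (ξ : GI) : ‖ang k ξ‖ ≤ 1 := by
  rw [ang, norm_pow, norm_div, Complex.norm_real, norm_norm]
  exact pow_le_one₀ (by positivity) (div_self_le_one _)

lemma f1 (l : ℕ) (ξ : II) : |fo l ξ| ≤ 1 := (Complex.abs_re_le_norm _).trans (an _ _)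

lemma ob (l n : ℕ) (ξ : AA n) : |obs l n ξ| ≤ 2 := by
  have h : |(∑ η ∈ AA n, fo l η) / rr n| ≤ 1 := by
    rw [abs_div, Nat.abs_cast]
    refine div_le_one_of_le₀ ((abs_sum_le_sum_abs _ _).trans ?_) (Nat.cast_nonneg _)
    simpa [rr] using sum_le_card_nsmul (AA n) _ 1 fun η _ => f1 l η
  exact (abs_sub _ _).trans (by linarith [f1 l ξ])

lemma sy (m n : ℕ) (g : ℕ → ℝ) : (Wn m n g).IsSymm := by
  ext i j
  simp only [Wn, Wig, Matrix.transpose_apply, Matrix.of_apply, add_comm]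

end OBSA

theorem p_OBS (hDR : S_DR) :
    S_OBS := by
  refine ⟨OBSA.an, OBSA.f1, OBSA.ob, fun l n => ?_, OBSA.sy, fun σ l p m n g hp => ?_⟩
  · simp only [obs, sum_sub_distrib, sum_coe_sort (AA n) (fo l), sum_const, card_univ,
      Fintype.card_coe, nsmul_eq_mul, rr]
    rcases (AA n).eq_empty_or_nonempty with e | e
    · simp [e]
    · rw [mul_div_cancel₀ _ (by exact_mod_cast e.card_pos.ne'), sub_self]
  · have h := hDR (AA n) Unit ∅ p (Wn m n g) (obs l n) 0 0 0 hp (OBSA.sy m n g) (OBSA.ob l n)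
      (fun y => by rw [sum_empty]; positivity) (by simp) (by simp)
    have h1 : 0 ≤ Xi p (Wn m n g) (obs l n) := by simpa using h
    have h2 : 0 ≤ Er σ m n g := by unfold Er; positivity
    exact ⟨h1, h2, le_min (by positivity) (Nat.cast_nonneg _), min_le_right _ _⟩

end Pool.Agent.P.MP_6b977f_mp.RB
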