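import Pool.Agent.P.MP_6b977f_mp.RB.Iface

/-! Step PA. -/

namespace Pool.Agent.P.MP_6b977f_mp.RB

open Real MeasureTheory ProbabilityTheory Filter Topology Finset Laplacian
open scoped ContDiff ComplexConjugate ENNReal Matrix

namespace PAA

lemma key {Ω ι : Type} [MeasurableSpace Ω] [Countable ι] {μ : Measure Ω} {f : ι → Ω → ℝ}
    {b : ι → ℝ} (f0 : ∀ i x, 0 ≤ f i x) (h : ∀ i, Integrable (f i) μ ∧ ∫ x, f i x ∂μ ≤ b i)
    (hb : Summable b) : (∀ᵐ x ∂μ, Summable fun i => f i x) ∧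
      Integrable (fun x => ∑' i, f i x) μ ∧ ∫ x, ∑' i, f i x ∂μ ≤ ∑' i, b i := by
  have s0 : ∀ i, 0 ≤ ∫ x, f i x ∂μ := fun i => integral_nonneg (f0 i)
  have s := hb.of_nonneg_of_le s0 fun i => (h i).2
  have m := fun i => (h i).1.aemeasurable
  have l : ∫⁻ x, ∑' i, ENNReal.ofReal (f i x) ∂μ = ENNReal.ofReal (∑' i, ∫ x, f i x ∂μ) := by
    rw [lintegral_tsum fun i => (m i).ennreal_ofReal, ENNReal.ofReal_tsum_of_nonneg s0 s]
    exact tsum_congr fun i => (ofReal_integral_eq_lintegral_ofReal (h i).1 (.of_forall (f0 i))).symm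
  have a : ∀ᵐ x ∂μ, Summable fun i => f i x :=
    (ae_lt_top' (.tsum fun i => (m i).ennreal_ofReal) (l ▸ ENNReal.ofReal_ne_top)).mono fun x e => by
      simpa only [ENNReal.toReal_ofReal (f0 _ _)] using ENNReal.summable_toReal e.ne
  refine ⟨a, ⟨(AEMeasurable.tsum m).aestronglyMeasurable, (hasFiniteIntegral_iff_ofReal
    (.of_forall fun x => tsum_nonneg fun i => f0 i x)).2 ?_⟩,
    (integral_tsum_of_summable_integral_norm (fun i => (h i).1) ?_).symm.trans_le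
      (s.tsum_le_tsum (fun i => (h i).2) hb)⟩
  · rw [lintegral_congr_ae (a.mono fun x e => ENNReal.ofReal_tsum_of_nonneg (f0 · x) e), l]
    exact ENNReal.ofReal_lt_top
  · simpa only [Real.norm_of_nonneg (f0 _ _)] using s

lemma ker0 (V : II → II → ℝ) (n : ℤ) (p : II × II) : 0 ≤ ker V n p :=
  div_nonneg (sq_nonneg _) (mul_nonneg (zero_le_one.trans (one_le_DD _ _))
    (zero_le_one.trans (one_le_DD _ _)))

lemma one {σ : ℕ → ℝ} {μ : Measure (ℕ → ℝ)} (L : ∀ (a b : ℝ) (k l : ℕ),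
    Integrable (fun g : ℕ → ℝ => (a * g k + b * g l) ^ 2) μ ∧
      ∫ g : ℕ → ℝ, (a * g k + b * g l) ^ 2 ∂μ ≤ 2 * (a ^ 2 + b ^ 2)) (n : ℤ) (p : II × II) :
    Integrable (fun g : ℕ → ℝ => ker (VV fun k => σ k * g k) n p) μ ∧
      ∫ g : ℕ → ℝ, ker (VV fun k => σ k * g k) n p ∂μ ≤ kers σ n p := by
  obtain ⟨a, b⟩ := L (σ (Nat.dist p.1.1 p.2.1)) (σ (p.1.1 + p.2.1)) (Nat.dist p.1.1 p.2.1)
    (p.1.1 + p.2.1)
  simp only [ker, VV, mul_pow, kers, s2]
  refine ⟨(a.const_mul _).div_const _, ?_⟩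
  rw [integral_div, integral_const_mul]
  have h1 : π⁻¹ ≤ 1 / 2 := by
    rw [one_div]
    exact inv_anti₀ two_pos two_le_pi
  have h2 := mul_le_mul ((ww_sq_le p.1).trans h1) ((ww_sq_le p.2).trans h1) (sq_nonneg _)
    (by norm_num)
  refine div_le_div_of_nonneg_right ((mul_le_mul h2 b (integral_nonneg fun _ => sq_nonneg _)
    (by norm_num)).trans ?_) (mul_nonneg (zero_le_one.trans (one_le_DD _ _))
    (zero_le_one.trans (one_le_DD _ _)))
  nlinarith [sq_nonneg (σ (Nat.dist p.1.1 p.2.1)), sq_nonneg (σ (p.1.1 + p.2.1))]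

end PAA

open PAA in
theorem p_PA (hEB1 : S_EB1) (hEBS : S_EBS) (hLAW : S_LAW) :
    S_PA := by
  intro σ ν hσ hν
  have := hν.1
  have L := (hLAW ν).2 hν
  generalize (Measure.infinitePi fun _ : ℕ => ν) = μ at L ⊢
  have hk : ∀ n : ℤ, (∀ᵐ g ∂μ, Summable (ker (VV fun k => σ k * g k) n)) ∧
      Integrable (fun g : ℕ → ℝ => BB (VV fun k => σ k * g k) n) μ ∧
      ∫ g : ℕ → ℝ, BB (VV fun k => σ k * g k) n ∂μ ≤ ∑' p, kers σ n p := fun n =>
    key (fun p g => ker0 _ n p) (one L n) ((hEB1 σ hσ.toSV0).1 n)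
  have h2 : ∀ᵐ g ∂μ, Summable fun k : ℕ => (σ k * g k) ^ 2 / (1 + k) := by
    refine (key (fun k g => by positivity) (fun k => ?_) (hσ.summ.mul_left 2)).1
    obtain ⟨a, b⟩ := L (σ k) 0 k k
    simp only [zero_mul, add_zero] at a b
    refine ⟨a.div_const _, ?_⟩
    rw [integral_div, ← mul_div_assoc]
    refine div_le_div_of_nonneg_right (b.trans ?_) (by positivity)
    nlinarith [mul_nonneg (sq_nonneg (σ k)) (log_natCast_nonneg k)]
  have c0 : ∀ m : ℕ, 0 ≤ 2 ^ m * sb σ m := fun m =>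
    mul_nonneg (by positivity) (hσ.pos _ Nat.one_le_two_pow).le
  have h3 : ∀ᵐ g ∂μ, Summable fun m : ℕ =>
      (∑ n ∈ blk m, BB (VV fun k => σ k * g k) n) / (2 ^ m * sb σ m) := by
    have b0 : ∀ V n, 0 ≤ BB V n := fun V n => tsum_nonneg (ker0 V n)
    refine (key (fun m g => div_nonneg (sum_nonneg fun (n : ℕ) _ => b0 _ n) (c0 m))
      (fun m => ⟨(integrable_finsetSum _ fun (n : ℕ) _ => (hk n).2.1).div_const _, ?_⟩)
      (hEBS σ hσ)).1
    rw [integral_div, integral_finsetSum _ fun (n : ℕ) _ => (hk n).2.1]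
    exact div_le_div_of_nonneg_right (sum_le_sum fun n _ => (hk n).2.2) (c0 m)
  filter_upwards [ae_all_iff.2 fun n => (hk n).1, h2, h3] with g a b c
  exact ⟨⟨fun ξ η => by rw [VV, VV, mul_comm (ww ξ), Nat.dist_comm, add_comm ξ.1], a⟩, b,
    c.tendsto_atTop_zero⟩

end Pool.Agent.P.MP_6b977f_mp.RB
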