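import Pool.Agent.P.MP_6b977f_mp.RB.Iface

/-! Step PB. -/

namespace Pool.Agent.P.MP_6b977f_mp.RB

open Real MeasureTheory ProbabilityTheory Filter Topology Finset Laplacian
open scoped ContDiff ComplexConjugate ENNReal Matrix

namespace PBA

lemma sub {r m n : ℕ} (h : n ∈ mid r m) : n ∈ blk m ∧ r ≤ rr n ∧ rr n ≤ m ^ 2 := mem_filter.1 h

lemma srr (hLAT : S_LAT) (hS4 : S_S4) (r m : ℕ) : ∑ n ∈ mid r m, (rr n : ℝ) ≤ 16 * 2 ^ m := by
  obtain ⟨C, -, h⟩ := hLAT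
  refine (sum_le_sum fun n _ => Nat.cast_le.2 (hS4.1 n).2).trans
    ((sum_le_sum_of_subset_of_nonneg (fun n hn => ?_) fun _ _ _ => Nat.cast_nonneg _).trans
      ((h (2 ^ (m + 1))).1.trans_eq (by push_cast; ring)))
  have := mem_blk.1 (sub hn).1
  exact mem_Icc.2 ⟨Nat.one_le_two_pow.trans this.1, this.2.le⟩

lemma mean (hRM : S_RM) (hOBS : S_OBS) (hERR : S_ERR) (hLAW : S_LAW) (hKAP : S_KAP) (hLAT : S_LAT)
    (hS4 : S_S4) {σ : ℕ → ℝ} {ν : Measure ℝ} (hσ : SV σ) (hν : Law ν) (l : ℕ) {ε : ℝ}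
    (hε : 0 < ε) : ∃ p r : ℕ, 2 ≤ p ∧ ∀ᶠ m in atTop,
      (∀ n ∈ mid r m, Measurable (zeta σ l p m n)) ∧
      ∑ n ∈ mid r m, ∫ g, zeta σ l p m n g ∂(Measure.infinitePi fun _ : ℕ => ν) ≤
        ε / 2 * 2 ^ m := by
  have := hν.1
  obtain ⟨p, hp⟩ := exists_nat_ge (max 2 (38400 / ε))
  have p2 : 2 ≤ p := by exact_mod_cast (le_max_left _ _).trans hp
  have p0 : (0 : ℝ) < p := by positivity
  have p3 : 600 / (p : ℝ) * 16 ≤ ε / 4 := by
    have := (div_le_iff₀ hε).1 ((le_max_right _ _).trans hp)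
    rw [div_mul_eq_mul_div, div_le_iff₀ p0]
    linarith
  obtain ⟨r0, h0⟩ := hRM.2 ν hν p p2
  obtain ⟨r1, h1⟩ := hERR σ ν hσ hν (ε / 4 / p ^ 4) (by positivity)
  refine ⟨p, r0 + r1, p2, (h1 (r0 + r1) (by omega)).mono fun m hm => ?_⟩
  have key : ∀ n ∈ mid (r0 + r1) m, Measurable (zeta σ l p m n) ∧
      ∫ g, zeta σ l p m n g ∂(Measure.infinitePi fun _ : ℕ => ν) ≤
        600 / p * rr n + p ^ 4 * ∫ g, Er σ m n g ∂(Measure.infinitePi fun _ : ℕ => ν) := by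
    intro n hn
    have mp := (hLAW ν).1 (AA n × AA n) _ (hKAP.1 m n (sub hn).1)
    obtain ⟨a1, a2⟩ := h0 (AA n) (obs l n) (by
      have := (sub hn).2.1
      rw [Fintype.card_coe, ← rr]
      omega) (hOBS.2.2.2.1 l n) (hOBS.2.2.1 l n)
    have a3 : Measurable fun g => Xi p (Wn m n g) (obs l n) :=
      (hRM.1 (AA n) p (obs l n) (by omega)).measurable.comp mp.measurable
    have a4 : Integrable (fun g => Xi p (Wn m n g) (obs l n)) _ :=
      mp.integrable_comp_of_integrable a1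
    have a5 : ∫ g, Xi p (Wn m n g) (obs l n) ∂(Measure.infinitePi fun _ : ℕ => ν) = _ :=
      mp.hasLaw.integral_comp a1.1
    have a6 := (hm.1 n hn).2.const_mul ((p : ℝ) ^ 4)
    refine ⟨(a3.add ((hm.1 n hn).1.const_mul _)).min measurable_const,
      (integral_mono_of_nonneg (.of_forall fun g => (hOBS.2.2.2.2.2 σ l p m n g (by omega)).2.2.1)
        (a4.add a6) (.of_forall fun g => min_le_left _ _)).trans ?_⟩
    rw [integral_add' a4 a6, integral_const_mul, a5, div_mul_eq_mul_div, rr, ← Fintype.card_coe]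
    exact add_le_add_left a2 _
  refine ⟨fun n hn => (key n hn).1, (sum_le_sum fun n hn => (key n hn).2).trans ?_⟩
  rw [sum_add_distrib, ← mul_sum, ← mul_sum]
  have b1 := mul_le_mul_of_nonneg_left (srr hLAT hS4 (r0 + r1) m)
    (show (0 : ℝ) ≤ 600 / p by positivity)
  have b2 := mul_le_mul_of_nonneg_left hm.2 (show (0 : ℝ) ≤ p ^ 4 by positivity)
  have b3 := mul_le_mul_of_nonneg_right p3 (show (0 : ℝ) ≤ 2 ^ m by positivity)
  rw [← mul_assoc, mul_div_cancel₀ _ (by positivity)] at b2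
  linarith

lemma dev (hOBS : S_OBS) (hKAP : S_KAP) (hVARB : S_VARB) {σ : ℕ → ℝ} {ν : Measure ℝ} (hσ : SV σ)
    [IsProbabilityMeasure ν] (l p r : ℕ) (hp : 1 ≤ p) {ε : ℝ} (hε : 0 < ε) :
    ∀ᵐ g ∂(Measure.infinitePi fun _ : ℕ => ν), ∀ᶠ m in atTop,
      g ∉ {g | (∀ n ∈ mid r m, Measurable (zeta σ l p m n)) ∧
        ∑ n ∈ mid r m, ∫ g, zeta σ l p m n g ∂(Measure.infinitePi fun _ : ℕ => ν) + ε * 2 ^ m ≤
          ∑ n ∈ mid r m, zeta σ l p m n g} := by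
  obtain ⟨C, C0, hC⟩ := hKAP.2.2
  obtain ⟨t, ht⟩ : ∃ t : ℝ, t = 2 ^ (-(1 / 4) : ℝ) := ⟨_, rfl⟩
  have t0 : 0 < t := by rw [ht]; positivity
  have t1 : ‖t‖ < 1 := by
    rw [Real.norm_of_nonneg t0.le, ht]
    exact Real.rpow_lt_one_of_one_lt_of_neg one_lt_two (by norm_num)
  have e : ∀ m : ℕ, (2 : ℝ) ^ (3 / 4 * m : ℝ) = 2 ^ m * t ^ m := fun m => by
    rw [ht, ← Real.rpow_natCast, ← Real.rpow_natCast, ← Real.rpow_mul zero_le_two,
      ← Real.rpow_add two_pos]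
    congr 1
    ring
  have hs := ((summable_pow_mul_geometric_of_norm_lt_one 4 t1).add
    (summable_pow_mul_geometric_of_norm_lt_one 8 t1)).mul_left (C / ε ^ 2)
  refine ae_eventually_notMem (ne_top_of_le_ne_top hs.tsum_ofReal_ne_top
    (ENNReal.tsum_le_tsum fun m => ?_))
  by_cases h : ∀ n ∈ mid r m, Measurable (zeta σ l p m n)
  swap
  · simp [h]
  have b : ∀ n ∈ mid r m, (rr n : ℝ) ≤ m ^ 2 := fun n hn => by exact_mod_cast (sub hn).2.2
  refine (measure_mono fun g hg => hg.2).trans ((hVARB ν (mid r m) (zeta σ l p m) (Kn m) (m ^ 2)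
    (C * (1 + (m ^ 2) ^ 2) * (2 ^ m * t ^ m)) (ε * 2 ^ m) (by positivity) h
    (fun n _ => hKAP.2.1 σ l p m n hσ.zero) (fun n hn => ?_) fun n hn => ?_).trans
    (ENNReal.ofReal_le_ofReal ?_))
  · have := (hOBS.2.2.2.2.2 σ l p m n · hp)
    exact fun g => ⟨(this g).2.2.1, (this g).2.2.2.trans (b n hn)⟩
  · refine le_trans (Nat.cast_le.2 (card_le_card (filter_subset_filter _ (filter_subset _ _))))
      ((hC m n (sub hn).1).trans ?_)
    have := b n hn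
    rw [e]
    gcongr
  · have c : (#(mid r m) : ℝ) ≤ 2 ^ m := by
      have : #(mid r m) ≤ #(blk m) := card_filter_le _ _
      rw [blk, Nat.card_Ico, pow_succ 2, mul_two, Nat.add_sub_cancel] at this
      exact_mod_cast this
    calc _ ≤ 2 ^ m * (C * (1 + (m ^ 2) ^ 2) * (2 ^ m * t ^ m)) * ((m : ℝ) ^ 2) ^ 2 /
          (ε * 2 ^ m) ^ 2 := by gcongr
      _ = _ := by field_simp

end PBA

theorem p_PB (hRM : S_RM) (hOBS : S_OBS) (hERR : S_ERR) (hLAW : S_LAW) (hKAP : S_KAP) (hVARB : S_VARB) (hLAT : S_LAT) (hS4 : S_S4) :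
    S_PB := by
  intro σ ν hσ hν
  have := hν.1
  have key : ∀ l i : ℕ, ∀ᵐ g ∂(Measure.infinitePi fun _ : ℕ => ν), ∃ p r : ℕ, 2 ≤ p ∧
      ∀ᶠ m in atTop, ∑ n ∈ mid r m, zeta σ l p m n g ≤ 1 / (i + 1) * 2 ^ m := fun l i => by
    have h0 : (0 : ℝ) < 1 / (i + 1) := by positivity
    obtain ⟨p, r, p2, h⟩ := PBA.mean hRM hOBS hERR hLAW hKAP hLAT hS4 hσ hν l h0
    filter_upwards [PBA.dev hOBS hKAP hVARB hσ l p r (by omega) (half_pos h0)] with g hg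
    refine ⟨p, r, p2, (h.and hg).mono fun m hm => ?_⟩
    have := not_le.1 fun c => hm.2 ⟨hm.1.1, c⟩
    linarith [hm.1.2]
  filter_upwards [ae_all_iff.2 fun l => ae_all_iff.2 (key l)] with g hg l ε hε
  obtain ⟨i, hi⟩ := exists_nat_one_div_lt hε
  obtain ⟨p, r, p2, h⟩ := hg l i
  exact ⟨p, r, p2, h.mono fun m hm => hm.trans (by gcongr)⟩

end Pool.Agent.P.MP_6b977f_mp.RB
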