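import Pool.Agent.P.MP_6b977f_mp.RB.Iface

/-! Step PHI. -/

namespace Pool.Agent.P.MP_6b977f_mp.RB

open Real MeasureTheory ProbabilityTheory Filter Topology Finset Laplacian
open scoped ContDiff ComplexConjugate ENNReal Matrix

namespace PHIA

lemma tel {S : ℝ} (h : 1 ≤ S) (N : ℕ) :
    ∑ b ∈ range (N + 1), 1 / (S + b) ^ 2 ≤ 2 / S - 1 / (S + N) := by
  induction N with
  | zero =>
    simp only [zero_add, range_one, sum_singleton, Nat.cast_zero, add_zero]
    rw [← sub_div, div_le_div_iff₀ (by positivity) (by positivity)]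
    nlinarith
  | succ N ih =>
    have h1 : 1 / (S + (N + 1)) ^ 2 ≤ 1 / (S + N) - 1 / (S + (N + 1)) := by
      have : (0 : ℝ) ≤ N := N.cast_nonneg
      rw [div_sub_div _ _ (by positivity) (by positivity),
        div_le_div_iff₀ (by positivity) (by positivity)]
      nlinarith
    rw [sum_range_succ]
    push_cast
    linarith

lemma one {S : ℝ} (h : 1 ≤ S) (B : Finset ℕ) : ∑ b ∈ B, 1 / (S + b) ^ 2 ≤ 2 / S := by
  refine (sum_le_sum_of_subset_of_nonneg (t := range (B.sup id + 1)) (fun b hb => mem_range.2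
    (Nat.lt_succ_of_le (le_sup (f := id) hb))) fun _ _ _ => by positivity).trans
    ((tel h _).trans (sub_le_self _ (by positivity)))

lemma inj {S c : ℝ} (h : 1 ≤ S) (hc : 0 < c) {B : Finset ℕ} {i : ℕ → ℕ} {D : ℕ → ℝ}
    (hi : Set.InjOn i B) (hD : ∀ b ∈ B, (S + i b) ^ 2 ≤ c * D b) :
    ∑ b ∈ B, 1 / D b ≤ 2 * c / S := by
  have h1 := mul_le_mul_of_nonneg_left (one h (B.image i)) hc.le
  rw [sum_image hi, mul_sum] at h1
  refine (sum_le_sum fun b hb => ?_).trans (h1.trans_eq (by ring))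
  have h2 : 0 < (S + i b) ^ 2 := by positivity
  rw [mul_one_div, div_le_div_iff₀ ((mul_pos_iff_of_pos_left hc).1 (h2.trans_le (hD b hb))) h2, one_mul]
  exact hD b hb

lemma four {T : ℕ} {D i : ℝ} (h : T < D) (h' : i ^ 2 ≤ D) : (√T + i) ^ 2 ≤ 4 * D := by
  nlinarith [sq_sqrt (Nat.cast_nonneg (α := ℝ) T), sq_nonneg (√T - i)]

end PHIA

open PHIA in
theorem p_PHI :
    S_PHI := by
  refine ⟨fun S h => one h, fun a B => ?_, fun X a B hX h => ?_, fun y T B hT h => ?_⟩
  · refine (inj (S := 1 + a) (c := 3) (i := id) (by simp) (by norm_num) (Set.injOn_id _)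
      fun b _ => ?_).trans_eq (by norm_num)
    simp only [dd, id]
    push_cast
    nlinarith [sq_nonneg ((a : ℝ) - b), sq_nonneg ((a : ℝ) - 1), sq_nonneg ((b : ℝ) - 1)]
  · have h2 : 2 ≤ √(X : ℝ) := le_sqrt_of_sq_le (by exact_mod_cast hX)
    have a0 : (0 : ℝ) ≤ a := a.cast_nonneg
    refine (inj (S := (√X + a) / 2) (c := 4) (i := id) (by linarith) (by norm_num) (Set.injOn_id _)
      fun b hb => ?_).trans_eq (by field_simp; norm_num)
    have h3 : (X : ℝ) < dd (a, b) := by exact_mod_cast h b hb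
    simp only [dd, id] at h3 ⊢
    push_cast at h3 ⊢
    nlinarith [sq_sqrt (Nat.cast_nonneg (α := ℝ) X), sq_nonneg (√X - a), sq_nonneg (a : ℝ),
      sq_nonneg ((√X + a) / 2 - b)]
  have h1 : 1 ≤ √(T : ℝ) := one_le_sqrt.2 (by exact_mod_cast hT)
  obtain ⟨c, c1, c2⟩ : ∃ c : ℕ, (c = 0 ∨ (c : ℝ) ^ 2 ≤ y) ∧ (y : ℝ) ≤ (c + 1) ^ 2 := by
    refine ⟨y.toNat.sqrt, ?_, ?_⟩
    · rcases le_total y 0 with e | e
      · simp [Int.toNat_eq_zero.2 e]
      · lift y to ℕ using e
        exact .inr (by exact_mod_cast y.sqrt_le')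
    · exact_mod_cast (Int.self_le_toNat y).trans (by exact_mod_cast y.toNat.lt_succ_sqrt'.le)
  rw [← sum_filter_add_sum_filter_not B (· ≤ c)]
  refine (add_le_add (inj (c := 4) (i := fun b => c - b) h1 (by norm_num) (fun a ha b hb e => ?_)
    fun b hb => four (h b (mem_filter.1 hb).1) ?_) (inj (c := 4) (i := fun b => b - (c + 1)) h1
    (by norm_num) (fun a ha b hb e => ?_) fun b hb => four (h b (mem_filter.1 hb).1) ?_)).trans ?_
  · have := (mem_filter.1 ha).2
    have := (mem_filter.1 hb).2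
    simp only at e
    omega
  · obtain ⟨i, rfl⟩ := Nat.exists_eq_add_of_le (mem_filter.1 hb).2
    rw [Nat.add_sub_cancel_left]
    rcases c1 with e | e
    · simp [show i = 0 by omega]
    · refine le_trans ?_ (neg_le_abs _)
      push_cast at e
      nlinarith [mul_nonneg (Nat.cast_nonneg (α := ℝ) b) (Nat.cast_nonneg (α := ℝ) i)]
  · have := (mem_filter.1 ha).2
    have := (mem_filter.1 hb).2
    simp only at e
    omega
  · obtain ⟨i, rfl⟩ := Nat.exists_eq_add_of_le (not_le.1 (mem_filter.1 hb).2)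
    rw [Nat.add_sub_cancel_left]
    refine le_trans ?_ (le_abs_self _)
    push_cast
    nlinarith [mul_nonneg (Nat.cast_nonneg (α := ℝ) c) (Nat.cast_nonneg (α := ℝ) i),
      Nat.cast_nonneg (α := ℝ) i]
  · rw [← add_div]
    exact div_le_div_of_nonneg_right (by norm_num) (by linarith)

end Pool.Agent.P.MP_6b977f_mp.RB
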