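import Pool.Agent.P.MP_6b977f_mp.RB.Iface

/-! Step PSI. -/

namespace Pool.Agent.P.MP_6b977f_mp.RB

open Real MeasureTheory ProbabilityTheory Filter Topology Finset Laplacian
open scoped ContDiff ComplexConjugate ENNReal Matrix

namespace PSIA

theorem inj {s : Finset ℕ} {X : ℕ} {f : ℕ → ℕ} (h : Set.InjOn f s) (h' : ∀ a ∈ s, f a ≤ X) :
    ∑ a ∈ s, 1 / max 1 (f a : ℝ) ≤ 2 + log X := by
  rw [← sum_image (f := fun j : ℕ => 1 / max 1 (j : ℝ)) h]
  refine (sum_le_sum_of_subset_of_nonneg (t := range (X + 1)) (image_subset_iff.2 fun a ha =>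
    mem_range.2 (Nat.lt_succ_of_le (h' a ha))) fun _ _ _ => by positivity).trans ?_
  have h1 := harmonic_le_one_add_log X
  rw [harmonic, Rat.cast_sum] at h1
  rw [sum_range_succ', sum_congr rfl (g := fun j : ℕ => ((((j + 1 : ℕ) : ℚ)⁻¹ : ℚ) : ℝ))
    fun j _ => by rw [max_eq_right (by simp)]; simp]
  norm_num at h1 ⊢
  linarith

theorem lg (m : ℕ) : log ((2 ^ (m + 2) : ℕ) : ℝ) ≤ m + 2 := by
  have := log_two_lt_d9
  rw [Nat.cast_pow, log_pow]
  push_cast
  nlinarith [Nat.cast_nonneg (α := ℝ) m]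

theorem H {m c : ℕ} (hm : 1 ≤ m) (hc : c ≤ 2 ^ (m + 2)) :
    ∑ a ∈ range (2 ^ (m + 2) + 1), 1 / max 1 |(a : ℝ) - c| ≤ 10 * m := by
  have h1 := inj (s := {a ∈ range (2 ^ (m + 2) + 1) | c ≤ a}) (X := 2 ^ (m + 2)) (f := (· - c))
    (fun a ha b hb e => by simp at ha hb e; omega) fun a ha => by simp at ha; omega
  have h2 := inj (s := {a ∈ range (2 ^ (m + 2) + 1) | ¬ c ≤ a}) (X := 2 ^ (m + 2)) (f := (c - ·))
    (fun a ha b hb e => by simp at ha hb e; omega) fun a ha => by omega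
  have h3 := lg m
  have h4 : (1 : ℝ) ≤ m := by exact_mod_cast hm
  rw [← sum_filter_add_sum_filter_not _ (c ≤ ·),
    sum_congr rfl (g := fun a => 1 / max 1 ((a - c : ℕ) : ℝ)) fun a ha => by
      have := (mem_filter.1 ha).2
      rw [Nat.cast_sub this, abs_of_nonneg (sub_nonneg.2 (Nat.cast_le.2 this))],
    sum_congr (s₁ := {a ∈ _ | ¬ _}) rfl (g := fun a => 1 / max 1 ((c - a : ℕ) : ℝ)) fun a ha => by
      have := (not_le.1 (mem_filter.1 ha).2).le
      rw [Nat.cast_sub this, abs_sub_comm, abs_of_nonneg (sub_nonneg.2 (Nat.cast_le.2 this))]]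
  linarith

theorem swap {m : ℕ} (hm : 1 ≤ m) {r : ℕ → ℝ} (hr : ∀ a, 0 ≤ r a) (h0 : r 0 ≤ 1) {y : ℝ}
    (hy : ∑ a ∈ Icc 1 (2 ^ (m + 2)), r a ≤ y) :
    ∑ n ∈ blk m, ∑ a ∈ range (2 ^ (m + 2) + 1), r a * (1 / max 1 |(a : ℝ) - n|) ≤
      10 * m * (1 + y) := by
  rw [sum_comm]
  calc _ ≤ ∑ a ∈ range (2 ^ (m + 2) + 1), 10 * m * r a := sum_le_sum fun a ha => by
        rw [← mul_sum, mul_comm]
        refine mul_le_mul_of_nonneg_right (le_trans ?_ (H hm (Nat.lt_succ_iff.1 (mem_range.1 ha))))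
          (hr a)
        simp only [abs_sub_comm (a : ℝ)]
        refine sum_le_sum_of_subset_of_nonneg (fun n hn => mem_range.2 ?_) fun _ _ _ => by positivity
        have := (mem_blk.1 hn).2
        rw [pow_succ]
        omega
    _ ≤ _ := by
        rw [← mul_sum, show range (2 ^ (m + 2) + 1) = insert 0 (Icc 1 (2 ^ (m + 2))) by
          ext; generalize 2 ^ (m + 2) = X; rw [mem_insert, mem_range, mem_Icc]; omega,
          sum_insert (by simp)]
        gcongr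

theorem psi (hS4 : S_S4) (n X : ℕ) :
    Psi n X ≤ ∑ a ∈ range (X + 1), r2 a * (1 / max 1 |(a : ℝ) - n|) := by
  rw [Psi, ← sum_fiberwise_of_maps_to (g := dd) (t := range (X + 1)) fun ξ h =>
    mem_range.2 (Nat.lt_succ_of_le (mem_Box.1 h))]
  refine sum_le_sum fun a _ => ?_
  rw [sum_congr rfl (g := fun _ => 1 / max 1 |(a : ℝ) - n|) fun ξ h => by
    rw [DD, (mem_filter.1 h).2, Int.cast_natCast], sum_const, nsmul_eq_mul]
  gcongr
  exact (card_le_card fun ξ h => mem_Sh.2 (mem_filter.1 h).2).trans (hS4.1 a).1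

theorem r0 : (r2 0 : ℝ) ≤ 1 := by
  exact_mod_cast (card_filter_le _ _).trans (card_image_le.trans (by simp))

end PSIA

theorem p_PSI (hW2 : S_W2) (hLAT : S_LAT) (hS4 : S_S4) :
    S_PSI := by
  obtain ⟨⟨C, hC⟩, -⟩ := hW2
  obtain ⟨_, -, hL⟩ := hLAT
  refine ⟨330 + 1600 * |C|, fun m hm => ?_⟩
  have h4 : (1 : ℝ) ≤ m := by exact_mod_cast hm
  have h5 : (1 : ℝ) ≤ 2 ^ m := one_le_pow₀ one_le_two
  have hX : ((2 ^ (m + 2) : ℕ) : ℝ) = 4 * 2 ^ m := by push_cast; ring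
  have h6 := abs_nonneg C
  constructor
  · refine ((sum_le_sum fun n _ => PSIA.psi hS4 n _).trans
      (PSIA.swap hm (fun _ => Nat.cast_nonneg _) PSIA.r0 (hL _).1)).trans ?_
    rw [hX]
    have : 0 ≤ |C| * 2 ^ m * m := by positivity
    nlinarith
  · have h7 : C * (2 ^ (m + 2) : ℕ) * (1 + log (2 ^ (m + 2) : ℕ)) ≤ |C| * (4 * 2 ^ m) * (4 * m) := by
      have h8 := PSIA.lg m
      have h9 := log_natCast_nonneg (2 ^ (m + 2))
      rw [← hX]
      gcongr
      exacts [le_abs_self C, by linarith]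
    have h8 := PSIA.swap hm (r := fun a => (r2 a : ℝ) ^ 2) (fun _ => sq_nonneg _)
      (pow_le_one₀ (Nat.cast_nonneg _) PSIA.r0) ((hC _).trans h7)
    calc _ ≤ ∑ n ∈ blk m, 10 * (m : ℝ) * ∑ a ∈ range (2 ^ (m + 2) + 1),
            (r2 a : ℝ) ^ 2 * (1 / max 1 |(a : ℝ) - n|) := sum_le_sum fun n hn => by
          refine (pow_le_pow_left₀ (sum_nonneg fun ξ _ => by have := one_le_DD n ξ; positivity)
            (PSIA.psi hS4 n _) 2).trans ((sum_sq_le_sum_mul_sum_of_sq_le_mul _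
              (f := fun a : ℕ => 1 / max 1 |(a : ℝ) - n|)
              (g := fun a : ℕ => (r2 a : ℝ) ^ 2 * (1 / max 1 |(a : ℝ) - n|))
              (fun _ _ => by positivity) (fun _ _ => by positivity)
              fun _ _ => le_of_eq (by ring)).trans ?_)
          refine mul_le_mul_of_nonneg_right (PSIA.H hm ?_) (by positivity)
          have := (mem_blk.1 hn).2
          rw [pow_succ]
          omega
      _ ≤ 10 * m * (10 * m * (1 + |C| * (4 * 2 ^ m) * (4 * m))) := by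
          rw [← mul_sum]
          gcongr
      _ ≤ _ := by
          have : (m : ℝ) ^ 2 * 1 ≤ m ^ 2 * (2 ^ m * m) := by gcongr; nlinarith
          have : 0 ≤ (2 : ℝ) ^ m * m ^ 3 := by positivity
          nlinarith

end Pool.Agent.P.MP_6b977f_mp.RB
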