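import Pool.Agent.P.MP_6b977f_mp.RB.Iface

/-! Step Q3. -/

namespace Pool.Agent.P.MP_6b977f_mp.RB

open Real MeasureTheory ProbabilityTheory Filter Topology Finset Laplacian
open scoped ContDiff ComplexConjugate ENNReal Matrix

namespace Q3A

lemma ex3 (m : ℕ) : m % 4 = 3 → ∃ q, q.Prime ∧ q % 4 = 3 ∧ q ∣ m := by
  induction m using induction_on_primes with
  | zero => simp
  | one => simp
  | prime_mul p a hp ih =>
    intro h
    by_cases e : p % 4 = 3
    · exact ⟨p, hp, e, dvd_mul_right _ _⟩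
    · obtain ⟨q, h1, h2, h3⟩ := ih (by
        rw [Nat.mul_mod] at h
        have h1 : p % 4 < 4 := Nat.mod_lt _ (by norm_num)
        have h2 : a % 4 < 4 := Nat.mod_lt _ (by norm_num)
        generalize p % 4 = x at *
        generalize a % 4 = y at *
        interval_cases x <;> omega)
      exact ⟨q, h1, h2, h3.mul_left _⟩

lemma cnt (M N q : ℕ) :
    (#{j ∈ range N | M * (j + 1) ≡ 1 [MOD q]} : ℝ) ≤ N * (1 / q) + 1 := by
  have h : #{j ∈ range N | M * (j + 1) ≡ 1 [MOD q]} ≤ #(range (N / q + 1)) := by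
    refine card_le_card_of_injOn (· / q) (fun j hj => ?_) fun j hj i hi e => ?_
    · exact mem_coe.2 (mem_range.2 (Nat.lt_succ_of_le (Nat.div_le_div_right
        (mem_range.1 (mem_filter.1 hj).1).le)))
    · have a := (mem_filter.1 hj).2
      have b : j ≡ i [MOD q] := Nat.ModEq.add_right_cancel' 1 (Nat.ModEq.cancel_left_of_coprime
        (Nat.coprime_of_mul_modEq_one _ a).symm (a.trans (mem_filter.1 hi).2.symm))
      rw [← Nat.div_add_mod j q, ← Nat.div_add_mod i q, show j / q = i / q from e, b]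
  rw [card_range] at h
  have := Nat.cast_div_le (α := ℝ) (m := N) (n := q)
  rw [mul_one_div]
  exact (Nat.cast_le.2 h).trans (by push_cast; linarith)

end Q3A

theorem p_Q3 :
    S_Q3 := by
  intro h
  obtain ⟨s0, h0⟩ := summable_iff_vanishing_norm.1 h (1 / 4) (by norm_num)
  obtain ⟨M, hM⟩ : ∃ M, M = 4 * (s0.sup id).factorial := ⟨_, rfl⟩
  have M0 : 0 < M := hM ▸ Nat.mul_pos (by norm_num) (Nat.factorial_pos _)
  have M1 : (0 : ℝ) < M := by exact_mod_cast M0
  obtain ⟨s1, h1⟩ := summable_iff_vanishing_norm.1 h (1 / (4 * M)) (by positivity)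
  obtain ⟨N, hN⟩ : ∃ N, N = 2 * #s1 + 1 := ⟨_, rfl⟩
  let T : Finset ℕ := {q ∈ range (M * N + 1) | (q.Prime ∧ q % 4 = 3) ∧ q ∉ s0}
  have e : ∀ t ⊆ T, ∑ q ∈ t, (1 / q : ℝ) ≤
      ‖∑ q ∈ t, if q.Prime ∧ q % 4 = 3 then (1 / q : ℝ) else 0‖ := fun t ht =>
    (sum_congr rfl fun q hq => (if_pos (mem_filter.1 (ht hq)).2.1).symm).trans_le (le_abs_self _)
  have a0 := (e T le_rfl).trans (h0 T (disjoint_left.2 fun q hq => (mem_filter.1 hq).2.2)).le
  have a1 := (e _ sdiff_subset).trans (h1 (T \ s1) sdiff_disjoint).le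
  have a2 : range N ⊆ T.biUnion fun q => {j ∈ range N | M * (j + 1) ≡ 1 [MOD q]} := fun j hj => by
    have b0 : 1 ≤ M * (j + 1) := Nat.mul_pos M0 j.succ_pos
    obtain ⟨q, b1, b2, b3⟩ := Q3A.ex3 (M * (j + 1) - 1) (by rw [hM, mul_assoc] at b0 ⊢; omega)
    have b4 := ((Nat.modEq_iff_dvd' b0).2 b3).symm
    refine mem_biUnion.2 ⟨q, mem_filter.2 ⟨mem_range.2 ?_, ⟨b1, b2⟩, fun c => ?_⟩,
      mem_filter.2 ⟨hj, b4⟩⟩
    · have := Nat.le_of_dvd (by rw [hM, mul_assoc] at b0 ⊢; omega) b3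
      have h2 : M * (j + 1) ≤ M * N := Nat.mul_le_mul_left M (mem_range.1 hj)
      exact Nat.lt_succ_of_le (this.trans ((Nat.sub_le _ _).trans h2))
    · exact b1.one_lt.ne' ((Nat.coprime_of_mul_modEq_one _ b4).symm.eq_one_of_dvd (hM ▸
        (Nat.dvd_factorial b1.pos (le_sup (f := id) c)).mul_left 4))
  have a3 : (N : ℝ) ≤ N * ∑ q ∈ T, (1 / q : ℝ) + #T := by
    have := (card_le_card a2).trans card_biUnion_le
    rw [card_range] at this
    refine (Nat.cast_le.2 this).trans ?_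
    rw [Nat.cast_sum, mul_sum, card_eq_sum_ones T, Nat.cast_sum, ← sum_add_distrib]
    exact sum_le_sum fun q _ => by simpa using Q3A.cnt M N q
  have a4 : (#(T \ s1) : ℝ) ≤ M * N * ∑ q ∈ T \ s1, (1 / q : ℝ) := by
    rw [mul_sum, card_eq_sum_ones, Nat.cast_sum]
    refine sum_le_sum fun q hq => ?_
    obtain ⟨b1, b2, -⟩ := mem_filter.1 (mem_sdiff.1 hq).1
    rw [mul_one_div, Nat.cast_one, one_le_div (by exact_mod_cast b2.1.pos)]
    exact_mod_cast Nat.lt_succ_iff.1 (mem_range.1 b1)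
  have a5 : (#T : ℝ) ≤ #(T \ s1) + #s1 := by exact_mod_cast card_le_card_sdiff_add_card
  have a6 : (N : ℝ) = 2 * #s1 + 1 := by exact_mod_cast hN
  have a7 := mul_le_mul_of_nonneg_left a0 (Nat.cast_nonneg (α := ℝ) N)
  have a8 := mul_le_mul_of_nonneg_left a1 (show (0 : ℝ) ≤ M * N by positivity)
  rw [show (M * N * (1 / (4 * M)) : ℝ) = N / 4 by field_simp] at a8
  linarith

end Pool.Agent.P.MP_6b977f_mp.RB
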