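import Pool.Agent.P.MP_6b977f_mp.RB.Iface

/-! Step QF. -/

namespace Pool.Agent.P.MP_6b977f_mp.RB

open Real MeasureTheory ProbabilityTheory Filter Topology Finset Laplacian
open scoped ContDiff ComplexConjugate ENNReal Matrix

theorem p_QF (hQF0 : S_QF0) :
    S_QF := by
  intro Ω _ P _ ι _ _ x B s K H mx mB h1 h2 h3 h4 h5 h6 K0 hH
  have mX : Measurable fun w k => x k w := measurable_pi_lambda _ mx
  obtain ⟨Φ, hΦ⟩ : ∃ Φ : (ι → ι → ℂ) × (ι → ℝ) → ℝ≥0∞, Φ = fun p =>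
    ‖(∑ k, ∑ l, (p.2 k : ℂ) * p.1 k l * p.2 l) - ∑ k, (s k : ℂ) * p.1 k k‖ₑ ^ 2 := ⟨_, rfl⟩
  have mΦ : Measurable Φ := by
    rw [hΦ]
    fun_prop
  have := Measure.isProbabilityMeasure_map (μ := P) mX.aemeasurable
  calc _ = ∫⁻ w, Φ (B w, fun k => x k w) ∂P := by rw [hΦ]
    _ = ∫⁻ w, ∫⁻ v, Φ (B w, v) ∂(P.map fun w k => x k w) ∂P := by
      rw [← lintegral_map mΦ (mB.prodMk mX),
        (indepFun_iff_map_prod_eq_prod_map_map mB.aemeasurable mX.aemeasurable).1 h2,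
        lintegral_prod _ mΦ.aemeasurable, lintegral_map mΦ.lintegral_prod_right' mB]
    _ ≤ ∫⁻ _, ENNReal.ofReal (2 * K * H) ∂P := lintegral_mono fun w => by
      rw [lintegral_map (f := fun v => Φ (B w, v)) (mΦ.comp measurable_prodMk_left) mX, hΦ]
      exact (hQF0 Ω P ι x (B w) s K mx h1 h3 h4 h5 h6).trans
        (ENNReal.ofReal_le_ofReal (mul_le_mul_of_nonneg_left (hH w) (by positivity)))
    _ = _ := by simp

end Pool.Agent.P.MP_6b977f_mp.RB
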