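import Pool.Agent.P.MP_6b977f_mp.RB.TLAT

/-! Step R4D. -/

namespace Pool.Agent.P.MP_6b977f_mp.RB

open Finset Ar

theorem R4DA.step (hGP : S_GP) {p a : ℕ} (hp : p.Prime) (ha : ¬p ∣ a) (k : ℕ) :
    r2 (p ^ k * a) ≤ (k + 1) * r2 a := by
  obtain ⟨q, h1, h2, h3⟩ := hGP p hp
  have key : ∀ (k : ℕ) (ξ : GI), nm ξ = p ^ k * a → ∃ i ≤ k, ∃ θ, nm θ = a ∧
      ξ = (if q = p then q ^ i else q ^ i * star q ^ (k - i)) * θ := by
    intro k
    induction k using Nat.strong_induction_on with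
    | _ k ih =>
    intro ξ h
    rcases k with _ | k
    · exact ⟨0, le_rfl, ξ, by simpa using h, by simp⟩
    have d := h3 ξ (Int.natCast_dvd.2 (by
      change p ∣ nm ξ
      rw [h, pow_succ']; exact (dvd_mul_right _ _).mul_right _))
    by_cases e : q = p
    · obtain ⟨c, rfl⟩ : q ∣ ξ := d.elim id fun d => by rwa [e, star_natCast, ← e] at d
      rw [nm_mul, e, nm_nat] at h
      rcases k with _ | k
      · exact absurd ⟨nm c, mul_left_cancel₀ hp.ne_zero (by linear_combination -h)⟩ ha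
      obtain ⟨i, i1, θ, t1, t2⟩ := ih k (by omega) c
        (mul_left_cancel₀ (pow_ne_zero 2 hp.ne_zero) (by linear_combination h))
      exact ⟨i + 1, by omega, θ, t1, by rw [t2, if_pos e, if_pos e]; ring⟩
    have n : nm q = p := mem_Lam'.1 (mem_Lam.2 (h2.resolve_right e))
    rcases d with ⟨c, rfl⟩ | ⟨c, rfl⟩
    · rw [nm_mul, n] at h
      obtain ⟨i, i1, θ, t1, t2⟩ := ih k (by omega) c
        (mul_left_cancel₀ hp.ne_zero (by linear_combination h))
      exact ⟨i + 1, by omega, θ, t1, by rw [t2, if_neg e, if_neg e, Nat.add_sub_add_right]; ring⟩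
    · rw [nm_mul, nm_star, n] at h
      obtain ⟨i, i1, θ, t1, t2⟩ := ih k (by omega) c
        (mul_left_cancel₀ hp.ne_zero (by linear_combination h))
      exact ⟨i, by omega, θ, t1, by rw [t2, if_neg e, if_neg e, Nat.succ_sub i1, pow_succ]; ring⟩
  have : Lam (p ^ k * a) ⊆ (range (k + 1) ×ˢ Lam a).image fun r =>
      (if q = p then q ^ r.1 else q ^ r.1 * star q ^ (k - r.1)) * r.2 := fun ξ h => by
    obtain ⟨i, i1, θ, t1, t2⟩ := key k ξ (mem_Lam'.1 h)
    exact mem_image.2 ⟨(i, θ), mem_product.2 ⟨mem_range.2 (by omega), mem_Lam'.2 t1⟩, t2.symm⟩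
  exact (card_le_card this).trans (card_image_le.trans (by simp [r2]))

theorem p_R4D (hGP : S_GP) : S_R4D := by
  intro n
  induction n using Nat.recOnPrimePow with
  | zero => omega
  | one => intro _; rw [r2, ← circ_eq, card_circ_one]; rfl
  | prime_pow_mul a p k hp ha hk ih =>
    intro _
    have := ih (Nat.pos_of_ne_zero fun h => ha (h ▸ dvd_zero p))
    rw [((hp.coprime_iff_not_dvd.2 ha).pow_left k).card_divisors_mul, Nat.divisors_prime_pow hp,
      card_map, card_range]
    exact (R4DA.step hGP hp ha k).trans (by nlinarith)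

end Pool.Agent.P.MP_6b977f_mp.RB
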