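import Pool.Agent.P.MP_6b977f_mp.RB.Iface

/-! Step REL0. -/

namespace Pool.Agent.P.MP_6b977f_mp.RB

open Real MeasureTheory ProbabilityTheory Filter Topology Finset Laplacian
open scoped ContDiff ComplexConjugate ENNReal Matrix

namespace REL0A

theorem gcd {l : ℕ} (t : Fin l → GI) : ∃ g : GI, (∀ i, g ∣ t i) ∧ ∀ γ, (∀ i, γ ∣ t i) → γ ∣ g := by
  obtain ⟨g, hg⟩ := (IsPrincipalIdealRing.principal (Ideal.span (Set.range t))).principal
  refine ⟨g, fun i => Ideal.mem_span_singleton.1 ?_, fun γ h => Ideal.mem_span_singleton.1 ?_⟩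
  · exact hg.le (Ideal.subset_span ⟨i, rfl⟩)
  · refine (hg.ge.trans (Ideal.span_le.2 ?_)) (Ideal.mem_span_singleton_self g)
    rintro _ ⟨i, rfl⟩
    exact Ideal.mem_span_singleton.2 (h i)

end REL0A

theorem p_REL0 :
    S_REL0 := by
  classical
  intro n l hn
  have key : Rel (Lam n) l ⊆ (n.divisorsAntidiagonal.sigma fun p => Lam p.1 ×ˢ
      (Rel (Lam p.2) l).filter fun t => ∀ γ, (∀ i, γ ∣ t i) → IsUnit γ).image
        fun x i => x.2.1 * x.2.2 i := by
    intro t ht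
    obtain ⟨h1, ⟨i0, hi⟩, h2, h3⟩ := mem_Rel.1 ht
    obtain ⟨g, hg, hg'⟩ := REL0A.gcd t
    choose s hs using hg
    have e : ∀ i, g.norm * (s i).norm = n := fun i => by
      rw [← Zsqrtd.norm_mul, ← hs, mem_Lam.1 (h1 i)]
    have g0 : g ≠ 0 := by
      rintro rfl
      have := e i0
      simp only [Zsqrtd.norm_zero, zero_mul] at this
      omega
    have n0 : g.norm ≠ 0 := mt GaussianInt.norm_eq_zero.1 g0
    have a1 := Int.natAbs_of_nonneg (GaussianInt.norm_nonneg g)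
    have a2 := Int.natAbs_of_nonneg (GaussianInt.norm_nonneg (s i0))
    have sm : ∀ S : Finset (Fin l), ∑ i ∈ S, t i = g * ∑ i ∈ S, s i := fun S => by
      rw [mul_sum]; exact sum_congr rfl fun i _ => hs i
    refine mem_image.2 ⟨⟨(g.norm.natAbs, (s i0).norm.natAbs), g, s⟩, mem_sigma.2 ⟨?_,
      mem_product.2 ⟨mem_Lam.2 a1.symm, mem_filter.2 ⟨mem_Rel.2 ⟨fun i => mem_Lam.2 ?_, ⟨i0, hi⟩,
        ?_, fun S h4 h5 h6 h7 => h3 S h4 h5 h6 ?_⟩, fun γ h => ?_⟩⟩⟩, funext fun i => (hs i).symm⟩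
    · refine Nat.mem_divisorsAntidiagonal.2 ⟨?_, by omega⟩
      rw [← Int.natAbs_mul, e, Int.natAbs_natCast]
    · exact (mul_left_cancel₀ n0 ((e i).trans (e i0).symm)).trans a2.symm
    · exact (mul_eq_zero.1 ((sm _).symm.trans h2)).resolve_left g0
    · rw [sm, h7, mul_zero]
    · refine isUnit_of_dvd_one ((mul_dvd_mul_iff_left g0).1 ?_)
      rw [mul_one]
      exact hg' _ fun i => hs i ▸ mul_dvd_mul_left g (h i)
  refine (card_le_card key).trans (card_image_le.trans ?_)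
  rw [card_sigma]
  exact le_of_eq (sum_congr rfl fun p _ => card_product _ _)

end Pool.Agent.P.MP_6b977f_mp.RB
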