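import Pool.Agent.P.MP_6b977f_mp.RB.Iface

/-! Step REL1. -/

namespace Pool.Agent.P.MP_6b977f_mp.RB

open Real MeasureTheory ProbabilityTheory Filter Topology Finset Laplacian
open scoped ContDiff ComplexConjugate ENNReal Matrix

namespace REL1A

theorem conv (f g : ℕ → ℝ) (N : ℕ) :
    ∑ n ∈ Icc 1 N, ∑ p ∈ n.divisorsAntidiagonal, g p.1 * f p.2 =
      ∑ b ∈ Icc 1 N, f b * ∑ a ∈ Icc 1 (N / b), g a := by
  have e : ∀ N : ℕ, Icc 1 N = Ioc 0 N := fun N => by ext; simp only [mem_Icc, mem_Ioc]; omega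
  have key : ∀ f : ℕ → ℝ, ∃ F : ArithmeticFunction ℝ, ∀ n, n ≠ 0 → F n = f n := fun f =>
    ⟨⟨fun n => if n = 0 then 0 else f n, rfl⟩, fun n hn => if_neg hn⟩
  obtain ⟨F, hF⟩ := key f
  obtain ⟨G, hG⟩ := key g
  have := ArithmeticFunction.sum_Ioc_mul_eq_sum_sum F G N
  rw [mul_comm F] at this
  simp only [e]
  refine (sum_congr rfl fun n _ => sum_congr rfl fun p hp => ?_).trans
    (this.trans (sum_congr rfl fun n hn => ?_))
  · rw [hG _ (Nat.left_ne_zero_of_mem_divisorsAntidiagonal hp),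
      hF _ (Nat.right_ne_zero_of_mem_divisorsAntidiagonal hp), smul_eq_mul]
  · rw [hF _ (mem_Ioc.1 hn).1.ne', sum_congr rfl fun a ha => hG _ (mem_Ioc.1 ha).1.ne']

theorem lpf_spec {n : ℕ} (h : 2 ≤ n) : (lpf n).Prime ∧ lpf n ∣ n := by
  obtain ⟨p, hp, e⟩ := exists_mem_eq_sup _ (Nat.nonempty_primeFactors.2 h) id
  have := Nat.mem_primeFactors.1 hp
  rw [lpf, e, id, max_eq_right this.1.two_le]
  exact ⟨this.1, this.2.1⟩

theorem lpf_mono {m n : ℕ} (h : m ∣ n) (hn : n ≠ 0) : lpf m ≤ lpf n :=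
  max_le_max_left _ (sup_mono (Nat.primeFactors_mono h hn))

theorem fib (hREL2 : S_REL2) (hR4D : S_R4D) (l N m : ℕ) (hm : 1 ≤ m) :
    ∑ n ∈ Icc 2 N with n / lpf n = m, (prim n l : ℝ) / n ≤
      8 ^ l * ((m.divisors.card : ℝ) ^ l / (m * lpf m)) := by
  have h1 : ∀ n ∈ (Icc 2 N).filter fun n => n / lpf n = m, (lpf n).Prime ∧ lpf n * m = n :=
    fun n hn => by
      obtain ⟨a, rfl⟩ := mem_filter.1 hn
      have := lpf_spec (mem_Icc.1 a).1
      exact ⟨this.1, Nat.mul_div_cancel' this.2⟩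
  have h2 := hREL2 l m (((Icc 2 N).filter fun n => n / lpf n = m).image lpf) hm fun p hp => by
    obtain ⟨n, hn, rfl⟩ := mem_image.1 hp
    exact (h1 n hn).1
  rw [sum_image fun a ha b hb e => by rw [← (h1 a ha).2, ← (h1 b hb).2, e],
    sum_congr rfl fun n hn => by rw [(h1 n hn).2]] at h2
  have h3 := h2.trans (Nat.mul_le_mul_left _ (Nat.pow_le_pow_left (hR4D m hm) l))
  have h4 : 0 < lpf m := two_pos.trans_le (le_max_left _ _)
  calc _ ≤ ∑ n ∈ Icc 2 N with n / lpf n = m, (prim n l : ℝ) / (m * lpf m) := by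
        refine sum_le_sum fun n hn => div_le_div_of_nonneg_left (by positivity) (by positivity) ?_
        have a := (mem_Icc.1 (mem_filter.1 hn).1).1
        have b := lpf_mono (Dvd.intro_left _ (h1 n hn).2) (by omega)
        exact_mod_cast (Nat.mul_le_mul_left m b).trans ((mul_comm _ _).trans (h1 n hn).2).le
    _ ≤ _ := by
        rw [← sum_div, ← mul_div_assoc, show (8 : ℝ) = 2 * 4 by norm_num, mul_pow, mul_assoc,
          ← mul_pow]
        gcongr
        exact_mod_cast h3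

end REL1A

theorem p_REL1 (hREL0 : S_REL0) (hREL2 : S_REL2) (hREL3 : S_REL3) (hR4D : S_R4D) (hLAT : S_LAT) :
    S_REL1 := by
  intro l
  obtain ⟨C, hC⟩ := hREL3 l
  obtain ⟨_, -, hL⟩ := hLAT
  have C0 : 0 ≤ C := by simpa using hC 0
  refine ⟨8 * (prim 1 l + 8 ^ l * C), fun N => ?_⟩
  have h1 : ∑ n ∈ Icc 1 N, (prim n l : ℝ) / n ≤ prim 1 l + 8 ^ l * C := by
    calc _ ≤ ∑ n ∈ insert 1 (Icc 2 N), (prim n l : ℝ) / n :=
          sum_le_sum_of_subset_of_nonneg (fun n => by simp only [mem_insert, mem_Icc]; omega)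
            fun _ _ _ => by positivity
      _ ≤ _ := by
          rw [sum_insert (by simp), Nat.cast_one, div_one, ← sum_fiberwise_of_maps_to
            (t := Icc 1 N) (g := fun n => n / lpf n) fun n hn => ?_]
          · refine add_le_add le_rfl ((sum_le_sum fun m hm =>
              REL1A.fib hREL2 hR4D l N m (mem_Icc.1 hm).1).trans ?_)
            rw [← mul_sum]
            exact mul_le_mul_of_nonneg_left (hC N) (by positivity)
          · obtain ⟨a, b⟩ := mem_Icc.1 hn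
            have := REL1A.lpf_spec a
            exact mem_Icc.2 ⟨Nat.div_pos (Nat.le_of_dvd (by omega) this.2) this.1.pos,
              (Nat.div_le_self _ _).trans b⟩
  calc _ ≤ ∑ n ∈ Icc 1 N, ∑ p ∈ n.divisorsAntidiagonal, (r2 p.1 : ℝ) * prim p.2 l :=
        sum_le_sum fun n hn => by exact_mod_cast hREL0 n l (mem_Icc.1 hn).1
    _ = _ := REL1A.conv (fun n => prim n l) (fun n => r2 n) N
    _ ≤ ∑ n ∈ Icc 1 N, 8 * N * ((prim n l : ℝ) / n) := sum_le_sum fun n _ => by
        calc _ ≤ (prim n l : ℝ) * (8 * (N / n)) :=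
              mul_le_mul_of_nonneg_left ((hL _).1.trans (mul_le_mul_of_nonneg_left Nat.cast_div_le
                (by norm_num))) (by positivity)
          _ = _ := by ring
    _ ≤ _ := by
        rw [← mul_sum, mul_right_comm]
        gcongr

end Pool.Agent.P.MP_6b977f_mp.RB
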