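import Pool.Agent.P.MP_6b977f_mp.RB.Iface

/-! Step REL2. -/

namespace Pool.Agent.P.MP_6b977f_mp.RB

open Real MeasureTheory ProbabilityTheory Filter Topology Finset Laplacian
open scoped ContDiff ComplexConjugate ENNReal Matrix

namespace REL2A

/-- The relation `t` comes from the data `(I, a)` one level down. -/
def R {l : ℕ} (p : ℕ) (q : GI) (t : Fin l → GI) (I : Finset (Fin l)) (a : Fin l → GI) : Prop :=
  q.norm = p ∧ ¬ q ∣ star q ∧ (∀ i, t i = (if i ∈ I then q else star q) * a i) ∧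
    ∑ i ∈ I, a i ≠ 0 ∧ q * ∑ i ∈ I, a i + star q * ∑ i ∈ Iᶜ, a i = 0

theorem ex {l m p : ℕ} {q : GI} (hp : p.Prime) (hq : Prime q) (h1 : q.norm = p ∨ q = p)
    (h2 : ∀ ξ : GI, (p : ℤ) ∣ ξ.norm → q ∣ ξ ∨ star q ∣ ξ) {t : Fin l → GI}
    (ht : t ∈ Rel (Lam (p * m)) l) (hu : ∀ γ, (∀ i, γ ∣ t i) → IsUnit γ) :
    ∃ I a, a ∈ Tup (Lam m) l ∧ R p q t I a := by
  classical
  obtain ⟨h3, -, h4, h5⟩ := mem_Rel.1 ht
  have n : ∀ i, (t i).norm = p * m := fun i => (mem_Lam.1 (h3 i)).trans (Nat.cast_mul _ _)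
  have d : ∀ i, q ∣ t i ∨ star q ∣ t i := fun i => h2 _ ⟨m, n i⟩
  have a1 : ¬ ∀ i, q ∣ t i := fun h => hq.not_isUnit (hu _ h)
  have a2 : ¬ ∀ i, star q ∣ t i := fun h => hq.not_isUnit (isUnit_star.1 (hu _ h))
  have a3 : ¬ q ∣ star q := fun h => a1 fun i => (d i).elim id h.trans
  have a4 : q.norm = p := h1.resolve_right fun h => a3 (by rw [h, star_natCast])
  obtain ⟨I, hI⟩ : ∃ I : Finset (Fin l), ∀ i, i ∈ I ↔ q ∣ t i :=
    ⟨univ.filter fun i => q ∣ t i, by simp⟩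
  have : ∀ i, ∃ a, t i = (if i ∈ I then q else star q) * a := fun i => by
    split_ifs with h
    · exact (hI i).1 h
    · exact (d i).resolve_left (mt (hI i).2 h)
  choose a ha using this
  have s1 : ∑ i ∈ I, t i = q * ∑ i ∈ I, a i := by
    rw [mul_sum]; exact sum_congr rfl fun i hi => by rw [ha, if_pos hi]
  have s2 : ∑ i ∈ Iᶜ, t i = star q * ∑ i ∈ Iᶜ, a i := by
    rw [mul_sum]; exact sum_congr rfl fun i hi => by rw [ha, if_neg (mem_compl.1 hi)]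
  refine ⟨I, a, mem_Tup.2 fun i => mem_Lam.2 ?_, a4, a3, ha, fun h => ?_, ?_⟩
  · have := n i
    rw [ha, Zsqrtd.norm_mul, apply_ite Zsqrtd.norm, Zsqrtd.norm_conj, ite_self, a4] at this
    exact mul_left_cancel₀ (Nat.cast_ne_zero.2 hp.ne_zero) this
  · obtain ⟨i, hi⟩ := not_forall.1 a2
    refine h5 I (subset_univ _) ⟨i, (hI i).2 ((d i).resolve_right hi)⟩
      (fun e => a1 fun i => (hI i).1 (e ▸ mem_univ i)) ?_
    rw [s1, h, mul_zero]
  · rw [← s1, ← s2, sum_add_sum_compl, h4]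

theorem uniq {l p p' : ℕ} {q q' : GI} (hp : p.Prime) (hp' : p'.Prime) (hq : Prime q)
    {t t' a : Fin l → GI} {I : Finset (Fin l)} (h : R p q t I a) (h' : R p' q' t' I a) :
    p = p' := by
  obtain ⟨a1, a2, -, a4, a5⟩ := h
  obtain ⟨b1, -, -, -, b5⟩ := h'
  have e : q * star q' = star q * q' :=
    mul_right_cancel₀ a4 (by linear_combination star q' * a5 - star q * b5)
  obtain ⟨c, rfl⟩ := (hq.dvd_or_dvd ⟨_, e.symm⟩).resolve_left a2
  rw [Zsqrtd.norm_mul, a1] at b1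
  exact (Nat.prime_dvd_prime_iff_eq hp hp').1 (Int.natCast_dvd_natCast.1 ⟨_, b1.symm⟩)

end REL2A

theorem p_REL2 (hGP : S_GP) :
    S_REL2 := by
  classical
  intro l m Q _ hQ
  choose! q h1 h2 h3 using hGP
  have key := card_le_card_of_forall_subsingleton
    (s := Q.sigma fun p => (Rel (Lam (p * m)) l).filter fun t => ∀ γ, (∀ i, γ ∣ t i) → IsUnit γ)
    (t := (univ : Finset (Finset (Fin l))) ×ˢ Tup (Lam m) l)
    (fun x y => REL2A.R x.1 (q x.1) x.2 y.1 y.2) (fun x hx => by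
      obtain ⟨a1, a2⟩ := mem_sigma.1 hx
      have hp := hQ _ a1
      obtain ⟨I, a, b1, b2⟩ := REL2A.ex hp (h1 _ hp) (h2 _ hp) (h3 _ hp) (mem_filter.1 a2).1
        (mem_filter.1 a2).2
      exact ⟨(I, a), mem_product.2 ⟨mem_univ _, b1⟩, b2⟩) (by
      rintro y - ⟨p, t⟩ ⟨a1, a2⟩ ⟨p', t'⟩ ⟨b1, b2⟩
      have hp := hQ _ (mem_sigma.1 a1).1
      obtain rfl : p = p' := REL2A.uniq hp (hQ _ (mem_sigma.1 b1).1) (h1 _ hp) a2 b2
      obtain rfl : t = t' := funext fun i => (a2.2.2.1 i).trans (b2.2.2.1 i).symm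
      rfl)
  rw [card_sigma, card_product, card_univ, Fintype.card_finset, Fintype.card_fin, Tup,
    Fintype.card_piFinset, prod_const, card_univ, Fintype.card_fin] at key
  exact key

end Pool.Agent.P.MP_6b977f_mp.RB
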