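import Pool.Agent.P.MP_6b977f_mp.RB.Iface

/-! Step REL3. -/

namespace Pool.Agent.P.MP_6b977f_mp.RB

open Real MeasureTheory ProbabilityTheory Filter Topology Finset Laplacian
open scoped ContDiff ComplexConjugate ENNReal Matrix

namespace REL3A

noncomputable def f (l m : ℕ) : ℝ := (m.divisors.card : ℝ) ^ l / m

theorem f_nonneg (l m : ℕ) : 0 ≤ f l m := by unfold f; positivity

theorem loc (l : ℕ) : ∃ c : ℝ, 0 ≤ c ∧ ∀ p : ℕ, p.Prime →
    (Summable fun k => f l (p ^ k)) ∧ ∑' k, f l (p ^ k) ≤ Real.exp (c * (1 / p)) := by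
  have hg : Summable fun k : ℕ => 4 * (((k + 2 : ℕ) : ℝ) ^ l * (1 / 2) ^ (k + 2)) :=
    ((summable_nat_add_iff 2).2 (summable_pow_mul_geometric_of_norm_lt_one l
      (r := (1 / 2 : ℝ)) (by norm_num))).mul_left 4
  refine ⟨∑' k : ℕ, 4 * (((k + 2 : ℕ) : ℝ) ^ l * (1 / 2) ^ (k + 2)),
    tsum_nonneg fun k => by positivity, fun p hp => ?_⟩
  have h2 : (2 : ℝ) ≤ p := by exact_mod_cast hp.two_le
  have h3 : ∀ k : ℕ, f l (p ^ (k + 1)) ≤
      4 * (((k + 2 : ℕ) : ℝ) ^ l * (1 / 2) ^ (k + 2)) * (1 / p) := fun k => by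
    rw [f, Nat.divisors_prime_pow hp, card_map, card_range, Nat.cast_pow]
    calc _ ≤ ((k + 2 : ℕ) : ℝ) ^ l / (2 ^ k * p) := by rw [pow_succ]; gcongr
      _ = _ := by rw [one_div, inv_pow, pow_add]; field_simp; norm_num
  have h4 := Summable.of_nonneg_of_le (fun k => f_nonneg l _) h3 (hg.mul_right _)
  have h5 := (summable_nat_add_iff (f := fun k => f l (p ^ k)) 1).1 h4
  refine ⟨h5, ?_⟩
  rw [h5.tsum_eq_zero_add, pow_zero, show f l 1 = 1 by simp [f], add_comm]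
  refine le_trans ?_ (Real.add_one_le_exp _)
  rw [← tsum_mul_right]
  exact add_le_add (h4.tsum_le_tsum h3 (hg.mul_right _)) le_rfl

theorem smooth (hMER : S_MER) (l : ℕ) : ∃ C : ℝ, 0 ≤ C ∧ ∀ q : ℕ, 1 ≤ q → ∀ s : Finset ℕ,
    (∀ m ∈ s, m ∈ (q + 1).smoothNumbers) → ∑ m ∈ s, f l m ≤ C * √q := by
  classical
  obtain ⟨c, c0, hc⟩ := loc l
  obtain ⟨C, hC⟩ := hMER c c0
  refine ⟨C, by simpa using (Real.exp_pos _).le.trans (hC 1 le_rfl), fun q hq s hs => ?_⟩
  have h := (EulerProduct.summable_and_hasSum_smoothNumbers_prod_primesBelow_tsum (f := f l)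
    (by simp [f]) (fun {m n} h => by
      rw [f, f, f, h.card_divisors_mul, Nat.cast_mul, Nat.cast_mul, mul_pow, mul_div_mul_comm])
    (fun hp => (hc _ hp).1.norm) (q + 1)).2
  rw [← sum_subtype_of_mem _ hs]
  refine (sum_le_hasSum _ (fun _ _ => f_nonneg l _) h).trans (le_trans ?_ (hC q hq))
  rw [mul_sum, Real.exp_sum]
  exact prod_le_prod (fun p _ => tsum_nonneg fun _ => f_nonneg l _) fun p hp =>
    (hc p (Nat.prime_of_mem_primesBelow hp)).2

theorem lpf_spec {n : ℕ} (h : 2 ≤ n) : (lpf n).Prime ∧ lpf n ∣ n := by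
  obtain ⟨p, hp, e⟩ := exists_mem_eq_sup _ (Nat.nonempty_primeFactors.2 h) id
  have := Nat.mem_primeFactors.1 hp
  rw [lpf, e, id, max_eq_right this.1.two_le]
  exact ⟨this.1, this.2.1⟩

theorem term (l : ℕ) {q m : ℕ} (hq : q.Prime) :
    ((q * m).divisors.card : ℝ) ^ l / ((q * m : ℕ) * q) ≤ 2 ^ l / q ^ 2 * f l m := by
  have h : (q * m).divisors.card ≤ 2 * m.divisors.card := by
    rw [Nat.divisors_mul, hq.divisors]
    exact card_mul_le.trans (Nat.mul_le_mul_right _ card_le_two)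
  rw [f, div_mul_div_comm, ← mul_pow, Nat.cast_mul, mul_right_comm, ← sq]
  gcongr
  exact_mod_cast h

end REL3A

theorem p_REL3 (hMER : S_MER) :
    S_REL3 := by
  intro l
  obtain ⟨C, C0, hC⟩ := REL3A.smooth hMER l
  have hs : Summable fun q : ℕ => 2 ^ l * C * (q : ℝ) ^ (-3 / 2 : ℝ) :=
    (Real.summable_nat_rpow.2 (by norm_num)).mul_left _
  refine ⟨((1 : ℕ).divisors.card : ℝ) ^ l / ((1 : ℕ) * lpf 1) +
    ∑' q : ℕ, 2 ^ l * C * (q : ℝ) ^ (-3 / 2 : ℝ), fun N => ?_⟩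
  refine (sum_le_sum_of_subset_of_nonneg (t := insert 1 (Icc 2 N))
    (fun n => by simp only [mem_insert, mem_Icc]; omega) fun _ _ _ => by positivity).trans ?_
  rw [sum_insert (by simp), ← sum_fiberwise_of_maps_to (t := Icc 1 N) (g := lpf) fun n hn => ?_]
  · refine add_le_add le_rfl (le_trans (sum_le_sum fun q hq => ?_)
      (hs.sum_le_tsum _ fun _ _ => by positivity))
    have q1 := (mem_Icc.1 hq).1
    have q0 : (0 : ℝ) < q := by exact_mod_cast q1
    have h1 : ∀ n ∈ (Icc 2 N).filter fun n => lpf n = q, q.Prime ∧ q * (n / q) = n :=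
      fun n hn => by
        obtain ⟨a, rfl⟩ := mem_filter.1 hn
        have := REL3A.lpf_spec (mem_Icc.1 a).1
        exact ⟨this.1, Nat.mul_div_cancel' this.2⟩
    have h2 := hC q q1 (((Icc 2 N).filter fun n => lpf n = q).image (· / q)) fun m hm => by
      obtain ⟨n, hn, rfl⟩ := mem_image.1 hm
      obtain ⟨a, b⟩ := mem_filter.1 hn
      refine Nat.mem_smoothNumbers'.2 fun p hp hd => Nat.lt_succ_of_le (b ▸ le_max_of_le_right ?_)
      exact le_sup (f := id) (Nat.mem_primeFactors.2 ⟨hp, hd.trans (Dvd.intro_left _ (h1 n hn).2),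
        by have := (mem_Icc.1 a).1; omega⟩)
    rw [sum_image fun a ha b hb e => by rw [← (h1 a ha).2, ← (h1 b hb).2, e]] at h2
    calc _ ≤ ∑ n ∈ Icc 2 N with lpf n = q, 2 ^ l / q ^ 2 * REL3A.f l (n / q) :=
          sum_le_sum fun n hn => by
            have := REL3A.term l (m := n / q) (h1 n hn).1
            rw [(h1 n hn).2] at this
            rwa [(mem_filter.1 hn).2]
      _ ≤ 2 ^ l / q ^ 2 * (C * √q) := by rw [← mul_sum]; gcongr
      _ = _ := by
          rw [show (-3 / 2 : ℝ) = 1 / 2 - (2 : ℕ) by norm_num, rpow_sub q0, rpow_natCast,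
            sqrt_eq_rpow]
          ring
  · obtain ⟨a, b⟩ := mem_Icc.1 hn
    have := REL3A.lpf_spec a
    exact mem_Icc.2 ⟨this.1.pos, (Nat.le_of_dvd (by omega) this.2).trans b⟩

end Pool.Agent.P.MP_6b977f_mp.RB
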