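import Pool.Agent.P.MP_6b977f_mp.RB.Iface

/-! Step RES. -/

namespace Pool.Agent.P.MP_6b977f_mp.RB

open Real MeasureTheory ProbabilityTheory Filter Topology Finset Laplacian
open scoped ContDiff ComplexConjugate ENNReal Matrix

namespace RESA

variable {ι : Type} [Fintype ι] [DecidableEq ι]

theorem app (W : Matrix ι ι ℝ) (z : ℂ) (w : ι → ℂ) (i : ι) :
    ((W.map (↑) - z • (1 : Matrix ι ι ℂ)) *ᵥ w) i = ∑ k, (W i k : ℂ) * w k - z * w i := by
  rw [Matrix.sub_mulVec, Matrix.smul_mulVec, Matrix.one_mulVec]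
  rfl

omit [DecidableEq ι] in
theorem real_form {W : Matrix ι ι ℝ} (hW : W.IsSymm) (w : ι → ℂ) :
    (∑ i, conj (w i) * ∑ k, (W i k : ℂ) * w k).im = 0 := by
  rw [← Complex.conj_eq_iff_im]
  simp only [map_sum, map_mul, Complex.conj_conj, Complex.conj_ofReal, mul_sum]
  rw [sum_comm]
  refine sum_congr rfl fun i _ => sum_congr rfl fun k _ => ?_
  rw [hW.apply i k]; ring

theorem low {W : Matrix ι ι ℝ} (hW : W.IsSymm) {E δ : ℝ} (hδ : 0 < δ) (w : ι → ℂ) :
    δ ^ 2 * ∑ i, ‖w i‖ ^ 2 ≤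
      ∑ i, ‖((W.map (↑) - ((E : ℂ) + δ * Complex.I) • (1 : Matrix ι ι ℂ)) *ᵥ w) i‖ ^ 2 := by
  set u := (W.map (↑) - ((E : ℂ) + δ * Complex.I) • (1 : Matrix ι ι ℂ)) *ᵥ w with hu
  have h1 : (∑ i, conj (w i) * u i).im = -(δ * ∑ i, ‖w i‖ ^ 2) := by
    have h := real_form hW w
    simp only [hu, app, mul_sub, sum_sub_distrib, Complex.sub_im, h, zero_sub, neg_inj]
    rw [Complex.im_sum, mul_sum]
    refine sum_congr rfl fun i _ => ?_
    rw [Complex.sq_norm, Complex.normSq_apply]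
    simp; ring
  have h2 : -(∑ i, conj (w i) * u i).im ≤ ∑ i, (δ / 2 * ‖w i‖ ^ 2 + ‖u i‖ ^ 2 / (2 * δ)) := by
    rw [Complex.im_sum, ← sum_neg_distrib]
    refine sum_le_sum fun i _ => ?_
    have a1 : -(conj (w i) * u i).im ≤ ‖w i‖ * ‖u i‖ := by
      have := Complex.abs_im_le_norm (conj (w i) * u i)
      rw [norm_mul, Complex.norm_conj] at this
      linarith [neg_abs_le (conj (w i) * u i).im]
    have a2 : ‖w i‖ * ‖u i‖ ≤ δ / 2 * ‖w i‖ ^ 2 + ‖u i‖ ^ 2 / (2 * δ) := by
      have : δ / 2 * ‖w i‖ ^ 2 + ‖u i‖ ^ 2 / (2 * δ) - ‖w i‖ * ‖u i‖ =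
          (δ * ‖w i‖ - ‖u i‖) ^ 2 / (2 * δ) := by field_simp; ring
      have h3 : 0 ≤ (δ * ‖w i‖ - ‖u i‖) ^ 2 / (2 * δ) := by positivity
      linarith
    linarith
  rw [h1, neg_neg, sum_add_distrib, ← mul_sum, ← sum_div] at h2
  have h3 : δ / 2 * ∑ i, ‖w i‖ ^ 2 ≤ (∑ i, ‖u i‖ ^ 2) / (2 * δ) := by linarith
  rw [le_div_iff₀ (by positivity)] at h3
  linarith

theorem unit {W : Matrix ι ι ℝ} (hW : W.IsSymm) {E δ : ℝ} (hδ : 0 < δ) :
    IsUnit (W.map ((↑) : ℝ → ℂ) - ((E : ℂ) + δ * Complex.I) • (1 : Matrix ι ι ℂ)).det := by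
  rw [← Matrix.isUnit_iff_isUnit_det, ← Matrix.mulVec_injective_iff_isUnit]
  intro a b hab
  have h := low hW (E := E) hδ (a - b)
  rw [Matrix.mulVec_sub, hab, sub_self] at h
  simp only [Pi.zero_apply, norm_zero, ne_eq, OfNat.ofNat_ne_zero, not_false_eq_true, zero_pow,
    sum_const_zero] at h
  have h0 : ∑ i, ‖(a - b) i‖ ^ 2 ≤ 0 := by
    by_contra hc
    have := mul_pos (pow_pos hδ 2) (not_le.1 hc)
    linarith
  funext i
  have := (single_le_sum (f := fun i => ‖(a - b) i‖ ^ 2) (fun i _ => by positivity)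
    (mem_univ i)).trans h0
  have h4 : ‖(a - b) i‖ = 0 := by nlinarith [norm_nonneg ((a - b) i)]
  exact sub_eq_zero.1 (norm_eq_zero.1 h4)

end RESA

open RESA in
theorem p_RES :
    S_RES := by
  intro ι _ _ E δ z hδ hz
  subst hz
  refine ⟨fun W hW => ?_, fun X _ W hc hW i j => ?_⟩
  · have hu := unit hW (E := E) hδ
    set z : ℂ := E + δ * Complex.I with hz
    set M : Matrix ι ι ℂ := W.map (↑) - z • 1 with hM
    have h1 : M * GG W z = 1 := Matrix.mul_nonsing_inv _ hu
    have h2 : GG W z * M = 1 := Matrix.nonsing_inv_mul _ hu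
    have h3 : (GG W z).IsSymm := by
      have : M.IsSymm := (hW.map _).sub (Matrix.isSymm_one.smul _)
      show M⁻¹ᵀ = M⁻¹
      rw [Matrix.transpose_nonsing_inv, this.eq]
    have h4 : ∀ v : ι → ℂ, ∑ i, ‖(GG W z *ᵥ v) i‖ ^ 2 ≤ (∑ i, ‖v i‖ ^ 2) / δ ^ 2 := fun v => by
      have h := low hW (E := E) hδ (GG W z *ᵥ v)
      rw [Matrix.mulVec_mulVec, h1, Matrix.one_mulVec] at h
      rw [le_div_iff₀ (by positivity)]
      linarith
    have h5 : ∀ i j, ∑ k, GG W z i k * conj (GG W z j k) = (((GG W z i j).im / δ : ℝ) : ℂ) := by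
      intro i j
      have c1 : M.map conj * (GG W z).map conj = 1 := by
        rw [← Matrix.map_mul, h1, Matrix.map_one _ (map_zero _) (map_one _)]
      have c2 : M.map conj = M + (2 * δ * Complex.I) • 1 := by
        ext a b
        simp only [hM, hz, Matrix.map_apply, Matrix.sub_apply, Matrix.add_apply,
          Matrix.smul_apply, Matrix.one_apply, smul_eq_mul]
        split_ifs <;> simp
        ring
      have c3 : GG W z = (GG W z).map conj + (2 * δ * Complex.I) • (GG W z * (GG W z).map conj) := by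
        calc GG W z = GG W z * (M.map conj * (GG W z).map conj) := by rw [c1, mul_one]
          _ = _ := by
            rw [c2, add_mul, mul_add, ← mul_assoc, h2, one_mul, smul_mul_assoc, one_mul,
              mul_smul_comm]
      have c4 := congrFun (congrFun c3 i) j
      rw [Matrix.add_apply, Matrix.smul_apply, Matrix.mul_apply, Matrix.map_apply,
        smul_eq_mul] at c4
      simp only [Matrix.map_apply] at c4
      have c5 := Complex.sub_conj (GG W z i j)
      have c6 : (∑ k, GG W z i k * conj (GG W z j k)) = ∑ k, GG W z i k * conj (GG W z k j) :=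
        sum_congr rfl fun k _ => by rw [h3.apply k j]
      have hδ' : (δ : ℂ) ≠ 0 := Complex.ofReal_ne_zero.2 hδ.ne'
      rw [c6]
      push_cast at c5 ⊢
      rw [eq_div_iff hδ']
      apply mul_left_cancel₀ (mul_ne_zero (two_ne_zero' ℂ) Complex.I_ne_zero)
      linear_combination c5 - c4
    refine ⟨h1, h2, h3, h4, h5, fun i j => ?_, fun i => ?_⟩
    · have h := h4 (Pi.single j 1)
      have e : ∑ k, ‖(Pi.single j (1 : ℂ) : ι → ℂ) k‖ ^ 2 = 1 := by
        rw [sum_eq_single j (fun b _ hb => by simp [hb]) (by simp)]; simp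
      rw [e] at h
      have h' := (single_le_sum (f := fun i => ‖(GG W z *ᵥ Pi.single j 1) i‖ ^ 2)
        (fun i _ => by positivity) (mem_univ i)).trans h
      simp only [Matrix.mulVec_single_one, Matrix.col_apply] at h'
      exact abs_le_of_sq_le_sq' (by rwa [div_pow, one_pow]) (by positivity) |>.2
    · have h := congrArg Complex.re (h5 i i)
      rw [Complex.re_sum, Complex.ofReal_re] at h
      have : 0 ≤ (GG W z i i).im / δ := h ▸ sum_nonneg fun k _ => by
        rw [Complex.mul_conj, Complex.ofReal_re]; exact Complex.normSq_nonneg _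
      have := mul_nonneg this hδ.le
      rwa [div_mul_cancel₀ _ hδ.ne'] at this
  · have hM : Continuous fun x =>
        (W x).map ((↑) : ℝ → ℂ) - ((E : ℂ) + δ * Complex.I) • (1 : Matrix ι ι ℂ) :=
      (hc.matrix_map Complex.continuous_ofReal).sub continuous_const
    simp only [GG, Matrix.inv_def, Ring.inverse_eq_inv', Matrix.smul_apply, smul_eq_mul]
    exact (hM.matrix_det.inv₀ fun x => (unit (hW x) hδ).ne_zero).mul
      (hM.matrix_adjugate.matrix_elem i j)

end Pool.Agent.P.MP_6b977f_mp.RB
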