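import Pool.Agent.P.MP_6b977f_mp.RB.Iface

/-! Step RM. -/

namespace Pool.Agent.P.MP_6b977f_mp.RB

open Real MeasureTheory ProbabilityTheory Filter Topology Finset Laplacian
open scoped ContDiff ComplexConjugate ENNReal Matrix

namespace RMA

variable {ι : Type} [Fintype ι] [DecidableEq ι]

omit [DecidableEq ι] in
lemma sy (y : ι × ι → ℝ) : (Wig y).IsSymm := Matrix.IsSymm.ext fun i j => by simp [Wig, add_comm]

omit [DecidableEq ι] in
lemma cw (i j : ι) : Continuous fun y : ι × ι → ℝ => Wig y i j := by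
  simp only [Wig, Matrix.of_apply]
  fun_prop

lemma ce (hRES : S_RES) {E δ : ℝ} (hδ : 0 < δ) (i : ι) :
    Continuous fun y : ι × ι → ℝ => eps (Wig y) (E + δ * Complex.I) i := by
  have r2 := (hRES ι E δ _ hδ rfl).2 (ι × ι → ℝ)
  have c := fun k l : ι => Complex.continuous_ofReal.comp (cw k l)
  refine ((c i i).sub (continuous_finsetSum _ fun k _ => continuous_finsetSum _ fun l _ => ?_)).add
    ((continuous_finsetSum _ fun k _ => r2 Wig (continuous_matrix cw) sy k k).div_const _)
  split_ifs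
  · exact continuous_const
  refine ((c i k).mul (r2 (fun y => zr (Wig y) i) (continuous_matrix fun a b => ?_)
    (fun y => Matrix.IsSymm.ext fun a b => ?_) k l)).mul (c i l)
  · simp only [zr, Matrix.of_apply]
    split_ifs
    exacts [continuous_const, cw a b]
  · simp only [zr, Matrix.of_apply, or_comm, (sy y).apply a b]

lemma int {X : Type} [MeasurableSpace X] {μ : Measure X} {g : X → ℂ} {c : ℝ}
    (hg : AEStronglyMeasurable g μ) (hc : 0 ≤ c) (h : ∫⁻ y, ‖g y‖ₑ ^ 2 ∂μ ≤ ENNReal.ofReal c) :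
    Integrable (fun y => ‖g y‖ ^ 2) μ ∧ ∫ y, ‖g y‖ ^ 2 ∂μ ≤ c := by
  have n : 0 ≤ᵐ[μ] fun y => ‖g y‖ ^ 2 := ae_of_all _ fun _ => sq_nonneg _
  simp only [← ofReal_norm, ← ENNReal.ofReal_pow (norm_nonneg _)] at h
  refine ⟨(lintegral_ofReal_ne_top_iff_integrable (hg.norm.pow 2) n).1
    (h.trans_lt ENNReal.ofReal_lt_top).ne, ?_⟩
  rw [integral_eq_lintegral_of_nonneg_ae n (hg.norm.pow 2)]
  exact ENNReal.toReal_le_of_le_ofReal hc h

end RMA

theorem p_RM (hRES : S_RES) (hSCHUR : S_SCHUR) (hSC : S_SC) (hEPS : S_EPS) (hEXCH : S_EXCH) (hROW : S_ROW) :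
    S_RM := by
  refine ⟨fun ι _ _ p A hp => ?_, fun ν hν p hp => ?_⟩
  · have c : ∀ (E : ℝ) i j, Continuous fun y : ι × ι → ℝ => FF (Wig y) E (1 / p ^ 2) i j :=
      fun E i j => continuous_const.mul (Complex.continuous_im.comp
        ((hRES ι E _ _ (by positivity) rfl).2 _ Wig (continuous_matrix RMA.cw) RMA.sy i j))
    have := RMA.cw (ι := ι)
    unfold Xi
    fun_prop
  obtain ⟨C, hC⟩ := hEPS ν hν
  obtain ⟨K, -, hK⟩ := hROW ν hν
  obtain ⟨r₀, hr⟩ := exists_nat_ge (32 * |C| * p ^ 20)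
  have := hν.1
  refine ⟨r₀ + 1, fun ι _ _ A h0 hA hA2 => ?_⟩
  have : Nonempty ι := Fintype.card_pos_iff.1 (by omega)
  have p2 : (2 : ℝ) ≤ p := by exact_mod_cast hp
  have r1 : (r₀ : ℝ) + 1 ≤ Fintype.card ι := by exact_mod_cast h0
  have r2 : (0 : ℝ) < Fintype.card ι := by positivity
  have d0 : (0 : ℝ) < 1 / p ^ 2 := by positivity
  have d1 : (1 : ℝ) / p ^ 2 ≤ 1 / 4 := one_div_le_one_div_of_le (by norm_num) (by nlinarith)
  have key : ∀ E : ℝ, ∫ y, ∑ i, FF (Wig y) E (1 / p ^ 2) i i ^ 2 ∂(Measure.pi fun _ : ι × ι => ν) ≤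
      33 * Fintype.card ι / p ^ 4 := fun E => by
    have e := fun i => RMA.int (RMA.ce hRES d0 i).aestronglyMeasurable (by positivity)
      ((hC ι E _ i d0 (by linarith)).trans (ENNReal.ofReal_le_ofReal
        (div_le_div_of_nonneg_right (le_abs_self C) (by positivity))))
    have e1 := integrable_finsetSum univ fun i _ => (e i).1
    refine (integral_mono (integrable_finsetSum _ fun i _ => (hEXCH ν ι E _ A d0 hA hA2).1 i i)
      (((integrable_const (32 * Fintype.card ι : ℝ)).add ((e1.const_mul 32).div_const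
        ((1 / p ^ 2) ^ 6))).const_mul ((1 / p ^ 2) ^ 2)) fun y => ?_).trans ?_
    · have a := (hRES ι E _ _ d0 rfl).1 _ (RMA.sy y)
      refine le_trans ?_ (mul_le_mul_of_nonneg_left (hSC ι E _ _ _ d0 d1 a.2.2.2.2.2.2
        (fun i => a.2.2.2.2.2.1 i i) fun i => ?_) (sq_nonneg _))
      · rw [mul_sum]
        refine sum_le_sum fun i _ => ?_
        rw [FF, mul_pow, ← sq_abs (Complex.im _)]
        gcongr
        exact Complex.abs_im_le_norm _
      · rw [← (hSCHUR ι E _ _ _ i d0 rfl (RMA.sy y)).1, eps]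
        ring
    simp only [Pi.add_apply]
    rw [integral_const_mul, integral_add (integrable_const _) ((e1.const_mul 32).div_const _),
      integral_div, integral_const, integral_const_mul, integral_finsetSum _ fun i _ => (e i).1]
    have e2 := sum_le_card_nsmul univ _ _ fun i _ => (e i).2
    simp only [probReal_univ, one_smul]
    refine (mul_le_mul_of_nonneg_left (add_le_add le_rfl (div_le_div_of_nonneg_right
      (mul_le_mul_of_nonneg_left e2 (by norm_num)) (by positivity))) (sq_nonneg _)).trans ?_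
    rw [card_univ, nsmul_eq_mul]
    field_simp
    linarith
  have w := fun i j : ι => (((hK ι i).2.2 j).1.mono_exponent (p := 2) (by norm_num)).integrable_sq
  have w1 := integrable_finsetSum univ fun i _ => integrable_finsetSum univ fun j _ => w i j
  have x := fun m : ℤ => hEXCH ν ι (m / p ^ 2) _ A d0 hA hA2
  have x1 := fun m => integrable_finsetSum univ fun i _ => (x m).1 i i
  have x2 := fun m => integrable_finsetSum univ fun i _ => integrable_finsetSum univ fun j _ =>
    ((x m).1 i j).const_mul (A i * A j)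
  have x3 := integrable_finsetSum (Icc (-(p : ℤ) ^ 3) (p ^ 3)) fun m _ => (x1 m).add (x2 m)
  refine ⟨x3.add (w1.div_const _), ?_⟩
  simp only [Pi.add_apply] at x3
  unfold Xi
  rw [integral_add x3 (w1.div_const _), integral_finsetSum _ fun m _ => (x1 m).fun_add (x2 m),
    integral_div, integral_finsetSum _ fun i _ => integrable_finsetSum univ fun j _ => w i j]
  refine (add_le_add (sum_le_card_nsmul _ _ (5 * (33 * Fintype.card ι / p ^ 4) : ℝ) fun m _ => ?_)
    (div_le_div_of_nonneg_right (sum_le_card_nsmul _ _ (2 : ℝ) fun i _ => ?_)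
      (by positivity))).trans ?_
  · rw [integral_add (x1 m) (x2 m)]
    linarith [(x m).2, key (m / p ^ 2)]
  · rw [integral_finsetSum _ fun j _ => w i j]
    refine (sum_le_card_nsmul _ _ (2 / Fintype.card ι : ℝ) fun j _ => ?_).trans_eq ?_
    · rw [((hK ι i).2.2 j).2.2.1]
      split_ifs <;> gcongr
      norm_num
    · rw [card_univ, nsmul_eq_mul]
      field_simp
  · have : #(Icc (-(p : ℤ) ^ 3) (p ^ 3)) = 2 * p ^ 3 + 1 := by
      rw [Int.card_Icc]
      zify
      rw [Int.toNat_of_nonneg (by have : (0 : ℤ) ≤ p ^ 3 := by positivity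
                                  omega)]
      ring
    rw [this, card_univ, nsmul_eq_mul, nsmul_eq_mul]
    push_cast
    field_simp
    have : (1 : ℝ) ≤ p ^ 3 := one_le_pow₀ (by linarith)
    nlinarith [sq_nonneg (p : ℝ)]

end Pool.Agent.P.MP_6b977f_mp.RB
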