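import Pool.Agent.P.MP_6b977f_mp.RB.Iface

/-! Step ROW. -/

namespace Pool.Agent.P.MP_6b977f_mp.RB

open Real MeasureTheory ProbabilityTheory Filter Topology Finset Laplacian
open scoped ContDiff ComplexConjugate ENNReal Matrix

namespace ROWA

theorem ind {κ α β : Type} [Fintype κ] [MeasurableSpace α] [MeasurableSpace β] (ν : Measure ℝ)
    [IsProbabilityMeasure ν] (s : κ → Prop) {F : (κ → ℝ) → α} {G : (κ → ℝ) → β}
    (hF : Measurable F) (hG : Measurable G) (h1 : ∀ x y, (∀ p, s p → x p = y p) → F x = F y)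
    (h2 : ∀ x y, (∀ p, ¬s p → x p = y p) → G x = G y) :
    IndepFun F G (Measure.pi fun _ => ν) := by
  classical
  have m : ∀ S : Finset κ, Measurable fun (v : S → ℝ) p => if h : p ∈ S then v ⟨p, h⟩ else 0 :=
    fun S => measurable_pi_lambda _ fun p => by
      split_ifs
      exacts [measurable_pi_apply _, measurable_const]
  have := ((iIndepFun_pi (μ := fun _ : κ => ν) (X := fun _ => id)
    fun _ => aemeasurable_id).indepFun_finset (univ.filter s) (univ.filter fun p => ¬s p)
      (disjoint_filter_filter_not _ _ _) fun p => measurable_pi_apply p).comp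
        (hF.comp (m _)) (hG.comp (m _))
  refine this.congr (ae_of_all _ fun y => h1 _ _ fun p hp => ?_)
    (ae_of_all _ fun y => h2 _ _ fun p hp => ?_) <;> simp [hp]

theorem mom {κ : Type} [Fintype κ] [DecidableEq κ] {ν : Measure ℝ} (h : Law ν) (p q : κ) :
    MemLp (fun y : κ → ℝ => y p + y q) 4 (Measure.pi fun _ => ν) ∧
      ∫ y, y p + y q ∂(Measure.pi fun _ : κ => ν) = 0 ∧
      ∫ y, (y p + y q) ^ 2 ∂(Measure.pi fun _ : κ => ν) = (if p = q then 4 else 2) ∧
      ∫ y, (y p + y q) ^ 4 ∂(Measure.pi fun _ : κ => ν) ≤ 16 * ∫ x, x ^ 4 ∂ν := by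
  obtain ⟨h0, h1, h2, h3⟩ := h
  have m4 : ∀ p, MemLp (fun y : κ → ℝ => y p) 4 (Measure.pi fun _ => ν) := fun p =>
    h1.comp_measurePreserving (measurePreserving_eval (fun _ : κ => ν) p)
  have m2 := fun p => (m4 p).mono_exponent (show (2 : ℝ≥0∞) ≤ 4 by norm_num)
  have m1 := fun p => (m2 p).integrable one_le_two
  have e1 : ∀ p, ∫ y, y p ∂(Measure.pi fun _ : κ => ν) = 0 := fun p => integral_eval.trans h2
  have e : ∀ (p) (k : ℕ), ∫ y, y p ^ k ∂(Measure.pi fun _ : κ => ν) = ∫ x, x ^ k ∂ν := fun p k =>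
    integral_comp_eval (μ := fun _ : κ => ν) (f := fun x => x ^ k) (by fun_prop)
  have i4 : ∀ {f : (κ → ℝ) → ℝ}, MemLp f 4 (Measure.pi fun _ => ν) →
      Integrable (fun y => f y ^ 4) (Measure.pi fun _ => ν) := fun hf => by
    simpa [(show Even 4 by decide).pow_abs] using MemLp.integrable_norm_pow (p := 4) hf (by simp)
  refine ⟨(m4 p).add (m4 q), by rw [integral_add (m1 p) (m1 q), e1, e1, add_zero], ?_, ?_⟩
  · simp only [add_sq, mul_assoc]
    have a := (m2 p).integrable_sq
    have b : Integrable (fun y : κ → ℝ => 2 * (y p * y q)) _ :=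
      ((m2 p).integrable_mul (m2 q)).const_mul 2
    rw [integral_add (a.fun_add b) (m2 q).integrable_sq, integral_add a b, integral_const_mul, e, e, h3]
    split_ifs with g
    · subst g
      simp only [← sq, e, h3]
      norm_num
    · rw [(ind ν (· = p) (measurable_pi_apply p) (measurable_pi_apply q) (fun x y a => a p rfl)
        fun x y a => a q (Ne.symm g)).integral_fun_mul_eq_mul_integral (m1 p).1 (m1 q).1, e1]
      norm_num
  · calc _ ≤ ∫ y, 8 * (y p ^ 4 + y q ^ 4) ∂(Measure.pi fun _ : κ => ν) :=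
          integral_mono (i4 ((m4 p).add (m4 q))) (((i4 (m4 p)).add (i4 (m4 q))).const_mul 8)
            fun y => by
              have := (show Even 4 by decide).add_pow_le (a := y p) (b := y q)
              norm_num at this
              exact this
      _ = _ := by
          rw [integral_const_mul, integral_add (i4 (m4 p)) (i4 (m4 q)), e, e]
          ring

end ROWA

open ROWA in
theorem p_ROW :
    S_ROW := by
  intro ν hν
  have := hν.1
  refine ⟨4 * ∫ x, x ^ 4 ∂ν, mul_nonneg (by norm_num) (integral_nonneg fun x => by positivity),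
    fun ι _ _ i => ?_⟩
  have m : ∀ k l, Measurable fun y : ι × ι → ℝ => Wig y k l := fun k l =>
    ((measurable_pi_apply (k, l)).add (measurable_pi_apply (l, k))).div_const _
  have d : ∀ (x y : ι × ι → ℝ) k l, x (k, l) = y (k, l) → x (l, k) = y (l, k) →
      Wig x k l = Wig y k l := fun x y k l a b => by simp only [Wig, Matrix.of_apply, a, b]
  refine ⟨fun k => ind ν (fun p => p = (i, k) ∨ p = (k, i)) (m i k)
    (measurable_pi_lambda _ fun j => ?_) (fun x y a => d _ _ _ _ (a _ (.inl rfl)) (a _ (.inr rfl)))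
    (fun x y a => funext fun j => ?_), ind ν (fun p => ¬(p.1 = i ∨ p.2 = i))
    (measurable_pi_lambda _ fun k => measurable_pi_lambda _ fun l => ?_)
    (measurable_pi_lambda _ (m i)) (fun x y a => funext fun k => funext fun l => ?_)
    fun x y a => funext fun k => d _ _ _ _ (a _ (by simp)) (a _ (by simp)), fun k => ?_⟩
  · split_ifs
    exacts [measurable_const, m i j]
  · split_ifs with g
    · rfl
    · refine d _ _ _ _ (a _ ?_) (a _ ?_) <;> simp only [Prod.mk.injEq] <;>
        rintro (⟨b, c⟩ | ⟨b, c⟩) <;> simp_all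
  · simp only [zr, Matrix.of_apply]
    split_ifs
    exacts [measurable_const, m k l]
  · simp only [zr, Matrix.of_apply]
    split_ifs with g
    · rfl
    · exact d _ _ _ _ (a _ g) (a _ fun b => g b.symm)
  · obtain ⟨a1, a2, a3, a4⟩ := mom hν (i, k) (k, i)
    have r0 : (0 : ℝ) < Fintype.card ι := Nat.cast_pos.2 (Fintype.card_pos_iff.2 ⟨i⟩)
    have c2 : √(2 * Fintype.card ι) ^ 2 = 2 * (Fintype.card ι : ℝ) := sq_sqrt (by positivity)
    have c4 : √(2 * Fintype.card ι) ^ 4 = 4 * (Fintype.card ι : ℝ) ^ 2 := by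
      rw [show 4 = 2 * 2 from rfl, pow_mul, c2]
      ring
    simp only [Wig, Matrix.of_apply, div_pow, integral_div, a2, a3, c2, c4, zero_div, true_and]
    refine ⟨by simpa only [div_eq_mul_inv] using a1.mul_const _, ?_,
      (div_le_div_of_nonneg_right a4 (by positivity)).trans_eq (by ring)⟩
    by_cases g : k = i
    · rw [if_pos g, if_pos (by rw [g])]
      ring
    · rw [if_neg g, if_neg fun b => g (congrArg Prod.snd b)]
      ring

end Pool.Agent.P.MP_6b977f_mp.RB
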