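import Pool.Agent.P.MP_6b977f_mp.RB.Iface

/-! Step S4. -/

namespace Pool.Agent.P.MP_6b977f_mp.RB

open Real MeasureTheory ProbabilityTheory Filter Topology Finset Laplacian
open scoped ContDiff ComplexConjugate ENNReal Matrix

namespace S4A

lemma lam {n : ℕ} {ξ : GI} : ξ ∈ Lam n ↔ dd (ab ξ) = n := by
  rw [mem_Lam, ← Int.natCast_inj, Zsqrtd.norm_def]
  simp [dd, ab, sq]

lemma ab_gi (η : II) : ab (gi η) = η := by simp [ab, gi]

lemma ab_star (ξ : GI) : ab (star ξ) = ab ξ := by simp [ab]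

lemma ab_neg (ξ : GI) : ab (-ξ) = ab ξ := by simp [ab]

lemma aa {n : ℕ} (hn : ¬IsSquare n) {η : II} (h : dd η = n) : η ∈ AA n := by
  refine mem_AA.2 ⟨h, Nat.pos_of_ne_zero fun e => hn ⟨η.2, ?_⟩,
    Nat.pos_of_ne_zero fun e => hn ⟨η.1, ?_⟩⟩ <;> simp [← h, dd, e, sq]

lemma master {n : ℕ} (hn : ¬IsSquare n) {M : Type} [AddCommMonoid M] (F : GI → M) :
    ∑ ξ ∈ Lam n, F ξ =
      ∑ η ∈ AA n, (F (gi η) + (F (star (gi η)) + (F (-star (gi η)) + F (-gi η)))) := by
  rw [← sum_fiberwise_of_maps_to (g := ab) fun ξ h => aa hn (lam.1 h)]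
  refine sum_congr rfl fun η h => ?_
  obtain ⟨h1, h2, h3⟩ := mem_AA.1 h
  have : (Lam n).filter (ab · = η) = {gi η, star (gi η), -star (gi η), -gi η} := by
    ext ξ
    simp only [mem_filter, mem_insert, mem_singleton, lam]
    refine ⟨fun a => ?_, ?_⟩
    · obtain ⟨-, rfl⟩ := a
      simp only [gi, ab, Zsqrtd.ext_iff, Zsqrtd.re_star, Zsqrtd.im_star, Zsqrtd.re_neg,
        Zsqrtd.im_neg]
      omega
    · rintro (rfl | rfl | rfl | rfl) <;> simp [ab_gi, ab_star, ab_neg, h1]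
  rw [this, sum_insert, sum_insert, sum_pair] <;> simp [gi, Zsqrtd.ext_iff] <;> omega

lemma ang_star (k : ℕ) (ξ : GI) : ang k (star ξ) = conj (ang k ξ) := by
  simp [ang, GaussianInt.toComplex_star]

lemma ang_neg (k : ℕ) (ξ : GI) : ang k (-ξ) = (-1) ^ k * ang k ξ := by
  rw [ang, ang, GaussianInt.toComplex_neg, norm_neg, neg_div, neg_pow]

lemma ch_re (ξ : GI) (z : ℂ) : (ch ξ z).re = cos (ξ.re * z.re + ξ.im * z.im) := by
  rw [ch, mul_comm, Complex.exp_ofReal_mul_I_re]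

end S4A

open S4A in
theorem p_S4 :
    S_S4 := by
  refine ⟨fun n => ?_, fun n hn => ?_⟩
  · have : (Sh n).card ≤ r2 n := card_le_card_of_injOn gi
      (fun η h => lam.2 (by rw [ab_gi]; exact mem_Sh.1 h))
      fun a _ b _ e => by rw [← ab_gi a, e, ab_gi]
    exact ⟨this, (card_filter_le _ _).trans this⟩
  refine ⟨filter_true_of_mem (s := Sh n) (fun η h => (mem_AA.1 (aa hn (mem_Sh.1 h))).2) |>.symm,
    ?_, fun ξ h => ⟨lam.2 (ab_neg ξ ▸ lam.1 h), fun e => ?_⟩, fun ξ h => aa hn (lam.1 h),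
    fun f => ?_, fun f k => ?_, fun c z => ?_⟩
  · rw [r2, card_eq_sum_ones, master hn, sum_const, smul_eq_mul, mul_comm]
    rfl
  · simpa [ab, e] using (mem_AA.1 (aa hn (lam.1 h))).2.1
  · rw [master hn, mul_sum]
    exact sum_congr rfl fun η _ => by simp only [ab_neg, ab_star, ab_gi]; ring
  · simp only [master hn, ab_neg, ab_star, ab_gi, ang_neg, ang_star]
    split_ifs with h
    · obtain ⟨l, rfl⟩ : ∃ l, k = 2 * l := ⟨k / 2, by omega⟩
      rw [mul_sum, Complex.ofReal_sum]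
      refine sum_congr rfl fun η _ => ?_
      have := Complex.add_conj (ang (2 * l) (gi η))
      rw [pow_mul, neg_one_sq, one_pow, Nat.mul_div_cancel_left _ two_pos, fo]
      push_cast at this ⊢
      linear_combination 2 * f η * this
    · rw [(Nat.odd_iff.2 (by omega) : Odd k).neg_one_pow]
      exact sum_eq_zero fun η _ => by ring
  · rw [Un, tp, Complex.re_sum, master hn, mul_sum]
    refine sum_congr rfl fun η h => ?_
    obtain ⟨-, h2, h3⟩ := mem_AA.1 h
    have e : π * (nn η.1 * nn η.2) = 2 := by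
      rw [nn, nn, if_neg (by omega), if_neg (by omega), mul_self_sqrt (by positivity)]
      field_simp
    simp only [Complex.re_ofReal_mul, ch_re, ab_neg, ab_star, ab_gi]
    simp only [gi, ee, cc, Zsqrtd.re_star, Zsqrtd.im_star, Zsqrtd.re_neg, Zsqrtd.im_neg,
      Int.cast_neg, Int.cast_natCast, neg_mul, cos_add, cos_neg, sin_neg, neg_neg]
    linear_combination -(c η * cos (η.1 * z.re) * cos (η.2 * z.im)) * e

end Pool.Agent.P.MP_6b977f_mp.RB
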