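import Pool.Agent.P.MP_6b977f_mp.RB.Iface

/-! Step SC. -/

namespace Pool.Agent.P.MP_6b977f_mp.RB

open Real MeasureTheory ProbabilityTheory Filter Topology Finset Laplacian
open scoped ContDiff ComplexConjugate ENNReal Matrix

namespace SCA

lemma low (m w f : ℂ) (δ : ℝ) (hδ : 0 < δ) (hδ4 : δ ≤ 1 / 4) (hm : 0 ≤ m.im)
    (hw : w.im = δ + m.im) (h : m * w = f - 1) (hf : ‖f‖ < 2 * δ) : 1 / 4 ≤ ‖w‖ := by
  have h1 : ((‖m‖ ^ 2 : ℝ) : ℂ) * w = (f - 1) * conj m := by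
    rw [← h, ← Complex.normSq_eq_norm_sq, Complex.normSq_eq_conj_mul_self]; ring
  have h2 : ‖m‖ ^ 2 * (δ + m.im) = (f * conj m).im + m.im := by
    have := congrArg Complex.im h1
    rw [Complex.im_ofReal_mul, hw] at this
    rw [this, sub_mul, one_mul, Complex.sub_im, Complex.conj_im]; ring
  have h3 : (f * conj m).im ≤ ‖f‖ * ‖m‖ := by
    have := (le_abs_self _).trans (Complex.abs_im_le_norm (f * conj m))
    rwa [norm_mul, Complex.norm_conj] at this
  have hm2 : ‖m‖ < 2 := by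
    by_contra hc
    push Not at hc
    have h4 : ‖f‖ * ‖m‖ < 2 * δ * ‖m‖ := mul_lt_mul_of_pos_right hf (by linarith)
    have h5 : 2 * δ * ‖m‖ ≤ ‖m‖ ^ 2 * δ := by nlinarith [mul_nonneg hδ.le (norm_nonneg m)]
    have h6 : m.im ≤ ‖m‖ ^ 2 * m.im := by nlinarith [mul_nonneg hm (sub_nonneg.2 hc)]
    nlinarith
  have h7 : 1 / 2 ≤ ‖m‖ * ‖w‖ := by
    rw [← norm_mul, h]
    have := norm_sub_norm_le (1 : ℂ) f
    rw [norm_sub_rev, norm_one] at this
    linarith
  by_contra hc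
  push Not at hc
  nlinarith [norm_nonneg m, norm_nonneg w]

end SCA

theorem p_SC :
    S_SC := by
  intro ι _ _ E δ G e hδ hδ4 him hG heq
  have hr : (0 : ℝ) < Fintype.card ι := by exact_mod_cast Fintype.card_pos
  have hrc : (Fintype.card ι : ℂ) ≠ 0 := by exact_mod_cast hr.ne'
  set m : ℂ := (∑ k, G k) / Fintype.card ι with hmdef
  set w : ℂ := (E + δ * Complex.I) + m with hwdef
  set f : ℂ := (∑ k, G k * e k) / Fintype.card ι with hfdef
  set S : ℝ := ∑ i, ‖e i‖ ^ 2 with hS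
  have hS0 : 0 ≤ S := sum_nonneg fun i _ => by positivity
  have hGw : ∀ i, G i * w = G i * e i - 1 := fun i => by
    rw [← heq i, hwdef]; ring
  have hmw : m * w = f - 1 := by
    have : ∑ k, G k * w = ∑ k, (G k * e k - 1) := sum_congr rfl fun i _ => hGw i
    rw [← sum_mul, sum_sub_distrib] at this
    simp only [sum_const, card_univ, nsmul_eq_mul, mul_one] at this
    rw [hmdef, hfdef, div_mul_eq_mul_div, this]
    field_simp
  have hmim : 0 ≤ m.im := by
    rw [hmdef, ← Complex.ofReal_natCast, Complex.div_ofReal_im, Complex.im_sum]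
    exact div_nonneg (sum_nonneg fun i _ => him i) hr.le
  have hwim : w.im = δ + m.im := by simp [hwdef]
  have hd6 : 0 < δ ^ 6 := by positivity
  have hGe : ∀ i, ‖G i * e i‖ ≤ ‖e i‖ / δ := fun i => by
    rw [norm_mul, div_eq_mul_one_div, mul_comm]
    exact mul_le_mul_of_nonneg_left (hG i) (norm_nonneg _)
  by_cases hf : ‖f‖ < 2 * δ
  · have hw := SCA.low m w f δ hδ hδ4 hmim hwim hmw hf
    have hi : ∀ i, ‖G i‖ ^ 2 ≤ 32 + 32 * ‖e i‖ ^ 2 / δ ^ 6 := fun i => by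
      have h1 : ‖G i‖ * ‖w‖ ≤ ‖e i‖ / δ + 1 := by
        rw [← norm_mul, hGw]
        have := norm_sub_le (G i * e i) 1
        rw [norm_one] at this
        linarith [hGe i]
      have h2 : ‖G i‖ ≤ 4 * (‖e i‖ / δ + 1) := by nlinarith [norm_nonneg (G i)]
      have h3 : ‖G i‖ ^ 2 ≤ (4 * (‖e i‖ / δ + 1)) ^ 2 := pow_le_pow_left₀ (norm_nonneg _) h2 2
      have h4 : (‖e i‖ / δ) ^ 2 ≤ ‖e i‖ ^ 2 / δ ^ 6 := by
        rw [div_pow]
        refine div_le_div_of_nonneg_left (by positivity) hd6 ?_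
        exact pow_le_pow_of_le_one hδ.le (by linarith) (by norm_num)
      rw [mul_div_assoc]
      nlinarith [sq_nonneg (‖e i‖ / δ - 1)]
    calc ∑ i, ‖G i‖ ^ 2 ≤ ∑ i, (32 + 32 * ‖e i‖ ^ 2 / δ ^ 6) := sum_le_sum fun i _ => hi i
      _ = _ := by
        rw [sum_add_distrib, ← sum_div, ← mul_sum]
        simp [mul_comm, hS]
  · push Not at hf
    have h1 : ‖f‖ ≤ (∑ i, ‖e i‖) / δ / Fintype.card ι := by
      rw [hfdef, norm_div, Complex.norm_natCast, sum_div]
      exact div_le_div_of_nonneg_right ((norm_sum_le _ _).trans (sum_le_sum fun i _ => hGe i))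
        hr.le
    have h2 : (∑ i, ‖e i‖) ^ 2 ≤ Fintype.card ι * S := by
      have := sq_sum_le_card_mul_sum_sq (s := (univ : Finset ι)) (f := fun i => ‖e i‖)
      simpa [hS] using this
    have h3 : 2 * δ ^ 2 * Fintype.card ι ≤ ∑ i, ‖e i‖ := by
      have := hf.trans h1
      rw [le_div_iff₀ hr, le_div_iff₀ hδ] at this
      linarith
    have h4 : (2 * δ ^ 2 * Fintype.card ι) ^ 2 ≤ Fintype.card ι * S :=
      (pow_le_pow_left₀ (by positivity) h3 2).trans h2
    have h5 : 4 * δ ^ 4 * Fintype.card ι ≤ S := by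
      refine le_of_mul_le_mul_left ?_ hr
      linarith
    have h6 : ∑ i, ‖G i‖ ^ 2 ≤ Fintype.card ι * (1 / δ) ^ 2 := by
      calc ∑ i, ‖G i‖ ^ 2 ≤ ∑ _i : ι, (1 / δ) ^ 2 :=
            sum_le_sum fun i _ => pow_le_pow_left₀ (norm_nonneg _) (hG i) 2
        _ = _ := by simp
    have h7 : Fintype.card ι * (1 / δ) ^ 2 ≤ 32 * S / δ ^ 6 := by
      rw [le_div_iff₀ hd6]
      have : Fintype.card ι * (1 / δ) ^ 2 * δ ^ 6 = δ ^ 4 * Fintype.card ι := by field_simp
      rw [this]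
      nlinarith [mul_pos (pow_pos hδ 4) hr]
    linarith
  
end Pool.Agent.P.MP_6b977f_mp.RB
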