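import Pool.Agent.P.MP_6b977f_mp.RB.Iface

/-! Step SCHUR. -/

namespace Pool.Agent.P.MP_6b977f_mp.RB

open Real MeasureTheory ProbabilityTheory Filter Topology Finset Laplacian
open scoped ContDiff ComplexConjugate ENNReal Matrix

namespace SCHURA

variable {ι : Type} [Fintype ι] [DecidableEq ι]

theorem app (W : Matrix ι ι ℝ) (z : ℂ) (w : ι → ℂ) (i : ι) :
    ((W.map (↑) - z • (1 : Matrix ι ι ℂ)) *ᵥ w) i = ∑ k, (W i k : ℂ) * w k - z * w i := by
  rw [Matrix.sub_mulVec, Matrix.smul_mulVec, Matrix.one_mulVec]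
  rfl

omit [Fintype ι] in
theorem zr_symm {W : Matrix ι ι ℝ} (hW : W.IsSymm) (i : ι) : (zr W i).IsSymm :=
  Matrix.IsSymm.ext fun k l => by
    simp only [zr, Matrix.of_apply, hW.apply k l, or_comm]

omit [DecidableEq ι] in
theorem cs (a : ι → ℝ) (u : ι → ℂ) {c : ℝ} (hc : 0 ≤ c) (h : ∑ k, ‖u k‖ ^ 2 ≤ c ^ 2) :
    ∑ k, |a k| * ‖u k‖ ≤ √(∑ k, a k ^ 2) * c := by
  refine (sum_mul_le_sqrt_mul_sqrt _ _ _).trans ?_
  simp only [sq_abs]
  gcongr
  exact sqrt_le_iff.2 ⟨hc, h⟩

theorem col2 {δ : ℝ} (hδ : 0 < δ) {G H : Matrix ι ι ℂ}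
    (hG : ∀ v : ι → ℂ, ∑ i, ‖(G *ᵥ v) i‖ ^ 2 ≤ (∑ i, ‖v i‖ ^ 2) / δ ^ 2)
    (hH : ∀ v : ι → ℂ, ∑ i, ‖(H *ᵥ v) i‖ ^ 2 ≤ (∑ i, ‖v i‖ ^ 2) / δ ^ 2) (i : ι) :
    ∑ k, ‖(G * H) k i‖ ^ 2 ≤ (1 / δ ^ 2) ^ 2 := by
  have e : ∑ k, ‖(Pi.single i (1 : ℂ) : ι → ℂ) k‖ ^ 2 = 1 := by
    rw [sum_eq_single i (fun b _ hb => by simp [hb]) (by simp)]; simp
  have h1 := hH (Pi.single i 1)
  have h2 := hG (H *ᵥ Pi.single i 1)
  rw [e] at h1
  rw [Matrix.mulVec_mulVec] at h2
  simp only [Matrix.mulVec_single_one, Matrix.col_apply] at h1 h2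
  calc _ ≤ _ := h2
    _ ≤ 1 / δ ^ 2 / δ ^ 2 := by gcongr
    _ = _ := by ring

end SCHURA

open SCHURA in
theorem p_SCHUR (hRES : S_RES) :
    S_SCHUR := by
  intro ι _ _ E δ z W i hδ hz hW
  obtain ⟨a1, a2, a3, a4, -⟩ := (hRES ι E δ z hδ hz).1 W hW
  obtain ⟨b1, b2, b3, b4, -⟩ := (hRES ι E δ z hδ hz).1 _ (zr_symm hW i)
  set G := GG W z
  set H := GG (zr W i) z with hH
  have col : ∀ k, ∑ l, (W k l : ℂ) * G l i - z * G k i = if k = i then 1 else 0 := fun k => by
    have h := congrFun (congrFun a1 k) i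
    rw [Matrix.one_apply] at h
    rw [← h]
    exact (app W z (fun l => G l i) k).symm
  constructor
  · set g : ι → ℂ := fun k => if k = i then 0 else G k i with hg
    set x : ι → ℂ := fun k => if k = i then 0 else W i k with hx
    have split : ∀ k, ∑ l, (W k l : ℂ) * G l i = W k i * G i i + ∑ l, (W k l : ℂ) * g l := by
      intro k
      rw [← add_sum_erase _ _ (mem_univ i), ← add_sum_erase _ (fun l => (W k l : ℂ) * g l)
        (mem_univ i)]
      simp only [hg, if_true, mul_zero, zero_add]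
      congr 1
      exact sum_congr rfl fun l hl => by rw [if_neg (ne_of_mem_erase hl)]
    have e1 : ((zr W i).map (↑) - z • (1 : Matrix ι ι ℂ)) *ᵥ g = -G i i • x := by
      funext k
      rw [app, Pi.smul_apply, smul_eq_mul]
      by_cases hk : k = i
      · simp [hk, zr, hg, hx]
      · have h := col k
        rw [if_neg hk, split] at h
        have e : ∑ l, (zr W i k l : ℂ) * g l = ∑ l, (W k l : ℂ) * g l :=
          sum_congr rfl fun l _ => by by_cases hl : l = i <;> simp [zr, hg, hk, hl]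
        rw [e]
        simp only [hg, hx, if_neg hk] at h ⊢
        rw [hW.apply k i]
        linear_combination h
    have e2 : g = -G i i • (H *ᵥ x) := by
      rw [← Matrix.mulVec_smul, ← e1, Matrix.mulVec_mulVec, b2, Matrix.one_mulVec]
    have e3 : qf W z i = ∑ k, x k * (H *ᵥ x) k := by
      refine sum_congr rfl fun k _ => ?_
      rw [Matrix.mulVec, dotProduct, mul_sum]
      refine sum_congr rfl fun l _ => ?_
      by_cases hk : k = i <;> by_cases hl : l = i <;> simp [hx, hk, hl, hH, mul_assoc]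
    have e4 : ∑ l, (W i l : ℂ) * g l = -G i i * ∑ k, x k * (H *ᵥ x) k := by
      rw [mul_sum]
      refine sum_congr rfl fun l _ => ?_
      have := congrFun e2 l
      rw [Pi.smul_apply, smul_eq_mul] at this
      by_cases hl : l = i
      · simp [hl, hg, hx]
      · rw [this]; simp only [hx, if_neg hl]; ring
    have h := col i
    rw [if_pos rfl, split, e4] at h
    rw [e3]
    linear_combination h
  · set D : Matrix ι ι ℂ := W.map (↑) - (zr W i).map (↑) with hD
    have e1 : H - G = G * D * H := by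
      have : D = (W.map (↑) - z • (1 : Matrix ι ι ℂ)) - ((zr W i).map (↑) - z • 1) := by
        rw [hD]; abel
      rw [this, mul_sub, a2, sub_mul, one_mul, mul_assoc, b1, mul_one]
    have e2 : (∑ k, H k k) - ∑ k, G k k = ∑ k, ∑ l, D k l * (H * G) l k := by
      have := congrArg Matrix.trace e1
      rw [Matrix.trace_sub, mul_assoc, Matrix.trace_mul_comm, mul_assoc] at this
      exact this
    have e3 : ∀ k, (H * G) i k = (G * H) k i := fun k => by
      rw [← Matrix.transpose_apply (G * H), Matrix.transpose_mul, a3.eq, b3.eq]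
    have e4 : ∀ k l, ‖D k l * (H * G) l k‖ ≤ (if k = i then |W i l| * ‖(H * G) l i‖ else 0) +
        if l = i then |W i k| * ‖(G * H) k i‖ else 0 := by
      intro k l
      rw [norm_mul]
      by_cases hk : k = i
      · subst hk
        have : ‖D k l‖ = |W k l| := by simp [hD, zr]
        rw [this, if_pos rfl]
        exact le_add_of_nonneg_right (by split_ifs <;> positivity)
      · by_cases hl : l = i
        · subst hl
          have : ‖D k l‖ = |W l k| := by simp [hD, zr, hW.apply k l]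
          rw [this, if_neg hk, if_pos rfl, zero_add, e3]
        · simp [hD, zr, hk, hl]
    have f1 := cs (W i) (fun k => (H * G) k i) (by positivity) (col2 hδ b4 a4 i)
    have f2 := cs (W i) (fun k => (G * H) k i) (by positivity) (col2 hδ a4 b4 i)
    rw [norm_sub_rev, e2]
    refine ((norm_sum_le _ _).trans (sum_le_sum fun k _ => (norm_sum_le _ _).trans
      (sum_le_sum fun l _ => e4 k l))).trans ?_
    simp only [sum_add_distrib, sum_ite_eq', mem_univ, if_true]
    rw [sum_comm]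
    simp only [sum_ite_eq', mem_univ, if_true]
    calc _ ≤ _ := add_le_add f1 f2
      _ = _ := by ring

end Pool.Agent.P.MP_6b977f_mp.RB
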