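import Pool.Agent.P.MP_6b977f_mp.RB.Iface

/-! Step SEP1. -/

namespace Pool.Agent.P.MP_6b977f_mp.RB

open Real MeasureTheory ProbabilityTheory Filter Topology Finset Laplacian
open scoped ContDiff ComplexConjugate ENNReal Matrix

namespace SEP1A

theorem key (hCS : S_CS) (s : ℝ) (b : ℕ) :
    (s + b ^ 2) * ∫ y in Set.Ioo 0 π, Cs s y * cos (b * y) = -deriv (Cs s) 0 := by
  obtain ⟨h1, h2, h3, -⟩ := hCS s
  have h4 : ∀ y, HasDerivAt (Cs s) (deriv (Cs s) y) y := fun y =>
    (h1.differentiable (by simp) y).hasDerivAt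
  have h5 : ∀ y : ℝ, HasDerivAt (fun y : ℝ => b * y) (b * 1) y := fun y =>
    (hasDerivAt_id y).const_mul _
  have h6 : ∀ y, HasDerivAt (fun y => deriv (Cs s) y * cos (b * y) + b * (Cs s y * sin (b * y)))
      ((s + b ^ 2) * (Cs s y * cos (b * y))) y := fun y =>
    (((h2 y).mul (h5 y).cos).add (((h4 y).mul (h5 y).sin).const_mul _)).congr_deriv (by ring)
  have h7 := h1.continuous
  have := intervalIntegral.integral_eq_sub_of_hasDerivAt (a := 0) (b := π) (fun y _ => h6 y)
    (Continuous.intervalIntegrable (by fun_prop) _ _)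
  rw [intervalIntegral.integral_of_le pi_pos.le, integral_Ioc_eq_integral_Ioo,
    integral_const_mul] at this
  simpa [h3] using this

theorem ch {t : ℝ} (h : 1 ≤ t) : cosh t ≤ 2 * sinh t := by
  have h1 := add_one_le_exp (t + t)
  have h2 := exp_pos (-t)
  have h3 : exp t = exp (t + t) * exp (-t) := by rw [← exp_add, add_neg_cancel_right]
  rw [cosh_eq, sinh_eq]
  nlinarith

end SEP1A

theorem p_SEP1 (hCB0 : S_CB0) (hCS : S_CS) :
    S_SEP1 := by
  intro s μ c h
  obtain ⟨-, -, -, h1, h2, -⟩ := hCS s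
  by_cases hb : ∃ b : ℕ, s + b ^ 2 = 0
  · obtain ⟨a, ha⟩ := hb
    have hμ : μ = 0 := by
      have := h a
      rw [ha, zero_mul] at this
      exact (mul_eq_zero.1 this.symm).resolve_left (nn_pos a).ne'
    have s0 : -s = (a : ℝ) ^ 2 := by linarith
    have hC : ∀ y, Cs s y = (-1) ^ a * cos (a * y) := fun y => by
      rw [Cs, if_neg (by nlinarith), s0, sqrt_sq a.cast_nonneg, mul_sub, cos_nat_mul_pi_sub]
    refine ⟨(-1) ^ a * nn a * c a, fun b => ?_, fun h => absurd h (by nlinarith)⟩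
    have e : ∀ y, (-1) ^ a * nn a * c a * Cs s y * (nn b * cos (b * y)) =
        c a * (nn a * cos (a * y) * (nn b * cos (b * y))) := fun y => by
      have : ((-1 : ℝ) ^ a) ^ 2 = 1 := by rw [← pow_mul, mul_comm, pow_mul]; simp
      rw [hC]
      linear_combination c a * (nn a * cos (a * y) * (nn b * cos (b * y))) * this
    simp only [e]
    rw [integral_const_mul, hCB0.1]
    split_ifs with hab
    · rw [mul_one, hab]
    · have := h b
      rw [hμ, mul_zero] at this
      rw [mul_zero, (mul_eq_zero.1 this).resolve_left fun e => hab ?_]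
      exact_mod_cast (pow_left_inj₀ (a.cast_nonneg (α := ℝ)) b.cast_nonneg two_ne_zero).1
        (by linarith)
  push Not at hb
  have hD : deriv (Cs s) 0 ≠ 0 := by
    rcases lt_or_ge 0 s with s0 | s0
    · rw [(h1 s0 0).1, sub_zero, neg_ne_zero]
      have := sqrt_pos.2 s0
      exact (mul_pos this (sinh_pos_iff.2 (mul_pos this pi_pos))).ne'
    · have s1 : -s = √(-s) ^ 2 := (sq_sqrt (by linarith)).symm
      rw [h2 s0, sub_zero]
      refine mul_ne_zero (fun e => hb 0 (by rw [e] at s1; simpa using s1)) fun e => ?_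
      obtain ⟨n, hn⟩ := sin_eq_zero_iff.1 e
      rw [← mul_right_cancel₀ pi_pos.ne' hn] at s1
      refine hb n.natAbs ?_
      rw [Nat.cast_natAbs, Int.cast_abs, sq_abs]
      linarith
  refine ⟨-μ / deriv (Cs s) 0, fun b => mul_left_cancel₀ (hb b) ?_, fun s1 => ?_⟩
  · have e : ∀ y, -μ / deriv (Cs s) 0 * Cs s y * (nn b * cos (b * y)) =
        -μ / deriv (Cs s) 0 * nn b * (Cs s y * cos (b * y)) := fun y => by ring
    simp only [e]
    rw [integral_const_mul, mul_left_comm, SEP1A.key hCS, h]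
    field_simp
  · have r1 : 1 ≤ √s := one_le_sqrt.2 s1
    have t1 : 1 ≤ √s * π := by nlinarith [pi_gt_three]
    have t2 := SEP1A.ch t1
    have t3 : 0 < sinh (√s * π) := sinh_pos_iff.2 (by linarith)
    have p1 : 0 < √π := sqrt_pos.2 pi_pos
    have p2 : √π ≤ 2 := sqrt_le_iff.2 ⟨by norm_num, by linarith [pi_lt_four]⟩
    have e : μ = √π * (√s * √s) * c 0 := by
      have := h 0
      rw [nn, if_pos rfl, Nat.cast_zero, zero_pow two_ne_zero, add_zero] at this
      rw [mul_self_sqrt (by linarith), mul_assoc, this, mul_inv_cancel_left₀ p1.ne']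
    rw [(h1 (by linarith) 0).1, sub_zero, neg_div_neg_eq, abs_div, e, abs_mul,
      abs_of_pos (by positivity : 0 < √π * (√s * √s)), abs_of_pos (by positivity : 0 < √s * sinh _)]
    calc _ ≤ 2 * (√s * √s) * |c 0| / (√s * sinh (√s * π)) * (2 * sinh (√s * π)) := by gcongr
      _ = _ := by field_simp; ring

end Pool.Agent.P.MP_6b977f_mp.RB
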