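import Pool.Agent.P.MP_6b977f_mp.RB.Iface

/-! Step SEP2. -/

namespace Pool.Agent.P.MP_6b977f_mp.RB

open Real MeasureTheory ProbabilityTheory Filter Topology Finset Laplacian
open scoped ContDiff ComplexConjugate ENNReal Matrix

namespace SEP2A

/-- The exponent `i a x - κ y`. -/
noncomputable def L (κ : ℕ → ℂ) (a : ℕ) : ℂ →L[ℝ] ℂ :=
  (Complex.I * a) • Complex.ofRealCLM.comp Complex.reCLM -
    κ a • Complex.ofRealCLM.comp Complex.imCLM

theorem L_ap (κ : ℕ → ℂ) (a : ℕ) (w : ℂ) : L κ a w = Complex.I * a * w.re - κ a * w.im := by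
  simp [L]

theorem L_norm (κ : ℕ → ℂ) (a : ℕ) : ‖L κ a‖ ≤ a + ‖κ a‖ :=
  ContinuousLinearMap.opNorm_le_bound _ (by positivity) fun w => by
    rw [L_ap, add_mul]
    refine (norm_sub_le _ _).trans ?_
    simp only [norm_mul, Complex.norm_I, one_mul, Complex.norm_natCast, Complex.norm_real,
      norm_eq_abs]
    gcongr
    exacts [Complex.abs_re_le_norm w, Complex.abs_im_le_norm w]

/-- The coefficient. -/
noncomputable def B (α : ℕ → ℝ) (κ : ℕ → ℂ) (a : ℕ) : ℂ := α a * Complex.exp (κ a * π) / 2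

theorem term (α : ℕ → ℝ) (κ : ℕ → ℂ) (a : ℕ) (c w : ℂ) :
    B α κ a * c * Complex.exp (L κ a w) =
      α a * Complex.exp (((a * w.re : ℝ) : ℂ) * Complex.I) *
        (c * Complex.exp (κ a * (π - w.im)) / 2) := by
  have : Complex.exp (κ a * π) * Complex.exp (L κ a w) =
      Complex.exp (((a * w.re : ℝ) : ℂ) * Complex.I) * Complex.exp (κ a * (π - w.im)) := by
    rw [← Complex.exp_add, ← Complex.exp_add, L_ap]
    congr 1
    push_cast
    ring
  rw [B]
  linear_combination α a * c / 2 * this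

theorem hyp (α : ℕ → ℝ) (lam M : ℝ) (κ : ℕ → ℂ)
    (h : ∀ a : ℕ, 1 ≤ (a : ℝ) ^ 2 - lam →
      |α a| * cosh (√(a ^ 2 - lam) * π) ≤ M * √(a ^ 2 - lam))
    (h1 : ∀ a : ℕ, 0 < (a : ℝ) ^ 2 - lam →
      ‖κ a‖ = √(a ^ 2 - lam) ∧ |(κ a).re| = √(a ^ 2 - lam)) :
    ∀ z ∈ sqr, ∃ r > 0, Metric.ball z r ⊆ sqr ∧ ∃ N : ℕ → ℝ,
      (∀ a, ∀ w ∈ Metric.ball z r, ‖Complex.exp (L κ a w)‖ ≤ N a) ∧
      ∀ k : ℕ, Summable fun a => ‖B α κ a‖ * (1 + ‖L κ a‖) ^ k * N a := by
  intro z hz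
  have y0 : 0 < z.im / 2 := half_pos hz.2.1
  obtain ⟨r, r0, hr⟩ := Metric.isOpen_iff.1 (sqr_open.inter
    (isOpen_lt continuous_const Complex.continuous_im)) z ⟨hz, half_lt_self hz.2.1⟩
  refine ⟨r, r0, fun w hw => (hr hw).1,
    fun a => exp (|(κ a).re| * (π - z.im / 2) - (κ a).re * π), fun a w hw => ?_, fun k => ?_⟩
  · rw [Complex.norm_exp, L_ap, exp_le_exp]
    have a1 : w.im < π := (hr hw).1.2.2
    have a2 : z.im / 2 < w.im := (hr hw).2
    have := mul_le_mul (le_abs_self (κ a).re) (sub_le_sub_left a2.le π) (sub_pos.2 a1).le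
      (abs_nonneg _)
    simp
    linarith
  · refine ((summable_pow_mul_exp_neg_nat_mul (k + 1) (half_pos y0)).mul_left
      (|M| * 2 * 4 ^ k)).of_norm_bounded_eventually_nat ?_
    filter_upwards [tendsto_natCast_atTop_atTop.eventually_ge_atTop (|lam| + 2 : ℝ)] with a ha
    have l1 := le_abs_self lam
    have l2 := neg_abs_le lam
    have l3 := abs_nonneg lam
    have s1 : 1 ≤ (a : ℝ) ^ 2 - lam := by nlinarith
    obtain ⟨k1, k2⟩ := h1 a (by linarith)
    have k3 := h a s1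
    have k4 := L_norm κ a
    have t1 : (a : ℝ) / 2 ≤ √(a ^ 2 - lam) := le_sqrt_of_sq_le (by nlinarith)
    have t2 : √(a ^ 2 - lam) ≤ 2 * a := sqrt_le_iff.2 ⟨by positivity, by nlinarith⟩
    rw [k1] at k4
    rw [norm_of_nonneg (by positivity), k2]
    generalize √(a ^ 2 - lam) = t at *
    have e1 : ‖B α κ a‖ * exp (t * (π - z.im / 2) - (κ a).re * π) =
        |α a| * (exp (t * π) / 2) * exp (-(z.im / 2) * t) := by
      have : exp ((κ a).re * π) * exp (t * (π - z.im / 2) - (κ a).re * π) =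
          exp (t * π) * exp (-(z.im / 2) * t) := by
        rw [← exp_add, ← exp_add]
        congr 1
        ring
      simp only [B, norm_div, norm_mul, Complex.norm_exp, Complex.norm_real, norm_eq_abs,
        Complex.norm_ofNat, Complex.mul_re, Complex.ofReal_re, Complex.ofReal_im, mul_zero,
        sub_zero]
      linear_combination |α a| / 2 * this
    have e2 : |α a| * (exp (t * π) / 2) ≤ |M| * (2 * a) :=
      calc _ ≤ |α a| * cosh (t * π) := by
            rw [cosh_eq]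
            gcongr
            linarith [exp_pos (-(t * π))]
        _ ≤ |M| * t := k3.trans (by gcongr; exacts [by linarith, le_abs_self M])
        _ ≤ _ := by gcongr
    calc _ = |α a| * (exp (t * π) / 2) * exp (-(z.im / 2) * t) * (1 + ‖L κ a‖) ^ k := by
          rw [← e1]; ring
      _ ≤ |M| * (2 * a) * exp (-(z.im / 2 / 2) * a) * (4 * a) ^ k := by
          gcongr ?_ * exp ?_ * ?_ ^ k
          · nlinarith
          · linarith
      _ = _ := by ring

end SEP2A

theorem p_SEP2 (hEXPS : S_EXPS) (hCS : S_CS) :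
    S_SEP2 := by
  intro α lam M h
  choose κ k1 k2 k3 k4 using fun a : ℕ => (hCS (a ^ 2 - lam)).2.2.2.2.2
  have k5 : ∀ a : ℕ, 0 < (a : ℝ) ^ 2 - lam →
      ‖κ a‖ = √(a ^ 2 - lam) ∧ |(κ a).re| = √(a ^ 2 - lam) := fun a ha => by
    rw [k2, abs_of_pos ha, k3 a ha, Complex.ofReal_re, abs_of_nonneg (sqrt_nonneg _)]
    exact ⟨rfl, rfl⟩
  obtain ⟨c1, d1⟩ := hEXPS _ _ _ sqr_open (SEP2A.hyp α lam M κ h k5)
  obtain ⟨c2, d2⟩ := hEXPS _ _ _ sqr_open (SEP2A.hyp α lam M (-κ) h fun a ha => by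
    simpa using k5 a ha)
  set F := fun z => ∑' a, SEP2A.B α κ a * Complex.exp (SEP2A.L κ a z) with hF
  set G := fun z => ∑' a, SEP2A.B α (-κ) a * Complex.exp (SEP2A.L (-κ) a z) with hG
  have t0 : ∀ (a : ℕ) (c z : ℂ), SEP2A.B α κ a * c * Complex.exp (SEP2A.L κ a z) +
      SEP2A.B α (-κ) a * c * Complex.exp (SEP2A.L (-κ) a z) =
      α a * (c * Complex.exp (((a * z.re : ℝ) : ℂ) * Complex.I) * Cs (a ^ 2 - lam) z.im) :=
    fun a c z => by
      rw [SEP2A.term, SEP2A.term, (k4 a _).1, Pi.neg_apply]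
      ring
  have s0 : ∀ z ∈ sqr, HasSum (fun a : ℕ => α a * (cos (a * z.re) * Cs (a ^ 2 - lam) z.im))
      (F z + G z).re := fun z hz => by
    convert Complex.hasSum_re ((d1 z hz).1.hasSum.add (d2 z hz).1.hasSum) using 2 with a
    have := t0 a 1 z
    simp only [mul_one, one_mul] at this
    rw [this, Complex.re_ofReal_mul, Complex.re_mul_ofReal, Complex.exp_ofReal_mul_I_re]
  have e0 : Set.EqOn (sep α lam) (Complex.reCLM ∘ (F + G)) sqr := fun z hz => (s0 z hz).tsum_eq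
  have e1 : ∀ z ∈ sqr, sep α lam =ᶠ[𝓝 z] Complex.reCLM ∘ (F + G) := fun z hz =>
    e0.eventuallyEq_of_mem (sqr_open.mem_nhds hz)
  have a1 : ∀ z ∈ sqr, ContDiffAt ℝ 2 F z := fun z hz =>
    (c1.contDiffAt (sqr_open.mem_nhds hz)).of_le (by norm_cast)
  have a2 : ∀ z ∈ sqr, ContDiffAt ℝ 2 G z := fun z hz =>
    (c2.contDiffAt (sqr_open.mem_nhds hz)).of_le (by norm_cast)
  have f0 : ∀ z ∈ sqr, ∀ v, fderiv ℝ (sep α lam) z v = (fderiv ℝ F z v + fderiv ℝ G z v).re :=
    fun z hz v => by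
      rw [(e1 z hz).fderiv_eq, (Complex.reCLM.hasFDerivAt.comp z
        (((a1 z hz).differentiableAt two_ne_zero).hasFDerivAt.add
          ((a2 z hz).differentiableAt two_ne_zero).hasFDerivAt)).fderiv]
      rfl
  refine ⟨(Complex.reCLM.contDiff.comp_contDiffOn (c1.add c2)).congr e0, fun z hz => ?_,
    fun z hz => ⟨(s0 z hz).summable, ?_, ?_⟩⟩
  · have q : ∀ κ' : ℕ → ℂ, (∀ a, κ' a ^ 2 = κ a ^ 2) → ∀ a,
        SEP2A.B α κ' a * (SEP2A.L κ' a 1 ^ 2 + SEP2A.L κ' a Complex.I ^ 2) *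
          Complex.exp (SEP2A.L κ' a z) = -lam * (SEP2A.B α κ' a * Complex.exp (SEP2A.L κ' a z)) :=
      fun κ' hκ a => by
        have : SEP2A.L κ' a 1 ^ 2 + SEP2A.L κ' a Complex.I ^ 2 = -lam := by
          have := (hκ a).trans (k1 a)
          simp only [SEP2A.L_ap, Complex.one_re, Complex.one_im, Complex.I_re, Complex.I_im]
          push_cast at this ⊢
          linear_combination this + a ^ 2 * Complex.I_sq
        rw [this]
        ring
    have l1 := (d1 z hz).2.2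
    have l2 := (d2 z hz).2.2
    simp only [q κ fun _ => rfl] at l1
    simp only [q (-κ) fun _ => neg_sq _] at l2
    rw [(InnerProductSpace.laplacian_congr_nhds (e1 z hz)).eq_of_nhds,
      ContDiffAt.laplacian_CLM_comp_left (f := F + G) ((a1 z hz).add (a2 z hz)),
      Function.comp_apply, (a1 z hz).laplacian_add (a2 z hz),
      l1.unique ((d1 z hz).1.hasSum.mul_left _), l2.unique ((d2 z hz).1.hasSum.mul_left _),
      e0 hz, ← mul_add]
    simp [hF, hG]
  · rw [grad_re, f0 z hz]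
    convert Complex.hasSum_re (((d1 z hz).2.1 1).add ((d2 z hz).2.1 1)) using 2 with a
    have := t0 a (Complex.I * a) z
    simp only [SEP2A.L_ap κ a 1, SEP2A.L_ap (-κ) a 1, Complex.one_re, Complex.one_im,
      Complex.ofReal_one, Complex.ofReal_zero, mul_one, mul_zero, sub_zero]
    rw [this, Complex.re_ofReal_mul, Complex.re_mul_ofReal, Complex.mul_re,
      Complex.exp_ofReal_mul_I_im]
    simp
  · rw [grad_im, f0 z hz]
    convert Complex.hasSum_re (((d1 z hz).2.1 Complex.I).add ((d2 z hz).2.1 Complex.I))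
      using 2 with a
    rw [SEP2A.term, SEP2A.term, ← mul_add, ← Complex.exp_ofReal_mul_I_re, ← Complex.re_mul_ofReal,
      ← Complex.re_ofReal_mul, (k4 a _).2, mul_assoc]
    congr 3
    simp [SEP2A.L_ap, add_div]

end Pool.Agent.P.MP_6b977f_mp.RB
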