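import Pool.Agent.P.MP_6b977f_mp.RB.Iface

/-! Step SEP3. -/

namespace Pool.Agent.P.MP_6b977f_mp.RB

open Real MeasureTheory ProbabilityTheory Filter Topology Finset Laplacian
open scoped ContDiff ComplexConjugate ENNReal Matrix

namespace SEP3A

theorem co_sum {u : ℕ → ℂ → ℝ} (hCB0 : S_CB0) (hu : ∀ a, Continuous (u a)) (N : ℕ) (ξ : II) :
    co (fun z => ∑ a ∈ range N, u a z) ξ = ∑ a ∈ range N, co (u a) ξ := by
  simp only [co, Finset.sum_mul]
  rw [integral_finset_sum, Finset.mul_sum]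
  exact fun a _ => (hCB0.2.2.2.1 _ (hu a)).integrable_mul (hCB0.2.2.1 ξ).2

theorem co_sub {f g : ℂ → ℝ} (hCB0 : S_CB0) (hf : MemLp f 2 (volume.restrict sqr))
    (hg : MemLp g 2 (volume.restrict sqr)) (ξ : II) :
    co (fun z => f z - g z) ξ = co f ξ - co g ξ := by
  simp only [co, sub_mul]
  rw [← mul_sub]
  exact congrArg _
    (integral_sub (hf.integrable_mul (hCB0.2.2.1 ξ).2) (hg.integrable_mul (hCB0.2.2.1 ξ).2))

theorem cos_int (hCB0 : S_CB0) (a b : ℕ) :
    ∫ x in Set.Ioo 0 π, cos (a * x) * (nn b * cos (b * x)) = if a = b then (nn a)⁻¹ else 0 := by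
  have h := hCB0.1 a b
  have h0 := (nn_pos a).ne'
  simp only [mul_assoc (nn a)] at h
  rw [integral_const_mul] at h
  split_ifs at h ⊢
  · exact eq_inv_of_mul_eq_one_right h
  · exact (mul_eq_zero.1 h).resolve_left h0

end SEP3A

open SEP3A in
theorem p_SEP3 (hCB0 : S_CB0) (hCB2 : S_CB2) (hSEP2 : S_SEP2) (hCS : S_CS) :
    S_SEP3 := by
  intro α lam M c hM hc hα
  set g : ℕ → ℂ → ℝ := fun a z => α a * (cos (a * z.re) * Cs (a ^ 2 - lam) z.im) with hg
  have gc : ∀ a, Continuous (g a) := fun a => by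
    have := (hCS (a ^ 2 - lam)).1.continuous
    simp only [hg]
    fun_prop
  have gm : ∀ a, MemLp (g a) 2 (volume.restrict sqr) := fun a => hCB0.2.2.2.1 _ (gc a)
  have gco : ∀ a ξ, co (g a) ξ = if a = ξ.1 then c ξ else 0 := fun a ξ => by
    have e : ∀ z : ℂ, g a z * ee ξ z = (cos (a * z.re) * (nn ξ.1 * cos (ξ.1 * z.re))) *
        (α a * Cs (a ^ 2 - lam) z.im * (nn ξ.2 * cos (ξ.2 * z.im))) := fun z => by
      simp only [hg, ee, cc]; ring
    simp only [co, e]
    rw [sqr, rect_mul _ _ (fun x => cos (a * x) * (nn ξ.1 * cos (ξ.1 * x)))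
      fun y => α a * Cs (a ^ 2 - lam) y * (nn ξ.2 * cos (ξ.2 * y)), cos_int hCB0, hα]
    split_ifs with h
    · have := (nn_pos a).ne'
      have := pi_pos.ne'
      subst h
      field_simp
    · simp
  obtain ⟨f, hf, hfc⟩ := hCB2.2 c hc
  set u : ℕ → ℂ → ℝ := fun N z => ∑ a ∈ range N, g a z with hu
  have um : ∀ N, MemLp (u N) 2 (volume.restrict sqr) := fun N =>
    hCB0.2.2.2.1 _ (continuous_finsetSum _ fun a _ => gc a)
  have h1 : ∀ N, (∫ z in sqr, (u N z - f z) ^ 2) =
      π ^ 2 * ∑' ξ : II, if N ≤ ξ.1 then c ξ ^ 2 else 0 := fun N => by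
    have h := hCB2.1 _ _ ((um N).sub hf) ((um N).sub hf)
    have e : ∀ ξ, co (u N - f) ξ * co (u N - f) ξ = if N ≤ ξ.1 then c ξ ^ 2 else 0 := fun ξ => by
      have : co (u N - f) ξ = co (u N) ξ - co f ξ := co_sub hCB0 (um N) hf ξ
      rw [this, hu, co_sum hCB0 gc, hfc]
      simp only [gco, Finset.sum_ite_eq', mem_range]
      split_ifs with a1 a2 a2
      · omega
      · ring
      · ring
      · omega
    simp only [e] at h
    rw [h.tsum_eq, mul_div_cancel₀ _ (by positivity)]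
    simp only [Pi.sub_apply, sq]
  have h2 : Tendsto (fun N => ∑' ξ : II, if N ≤ ξ.1 then c ξ ^ 2 else 0) atTop (𝓝 0) := by
    have := tendsto_tsum_of_dominated_convergence (𝓕 := atTop)
      (f := fun (N : ℕ) (ξ : II) => if N ≤ ξ.1 then c ξ ^ 2 else 0) (g := fun _ => 0) hc
      (fun ξ => tendsto_const_nhds.congr' (by
        filter_upwards [eventually_gt_atTop ξ.1] with N hN
        rw [if_neg (by omega)]))
      (Eventually.of_forall fun N ξ => by
        split_ifs
        · rw [Real.norm_of_nonneg (sq_nonneg _)]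
        · simpa using sq_nonneg _)
    simpa using this
  have h3 : Tendsto (fun N => ∫⁻ z in sqr, ENNReal.ofReal ((u N z - f z) ^ 2)) atTop (𝓝 0) := by
    have e : ∀ N, ∫⁻ z in sqr, ENNReal.ofReal ((u N z - f z) ^ 2) =
        ENNReal.ofReal (π ^ 2 * ∑' ξ : II, if N ≤ ξ.1 then c ξ ^ 2 else 0) := fun N => by
      rw [← h1]
      exact (ofReal_integral_eq_lintegral_ofReal ((um N).sub hf).integrable_sq
        (Eventually.of_forall fun _ => sq_nonneg _)).symm
    simp only [e]
    simpa using ENNReal.tendsto_ofReal (h2.const_mul (π ^ 2))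
  have h4 := lintegral_liminf_le' (μ := volume.restrict sqr) (u := atTop)
    (f := fun N z => ENNReal.ofReal ((u N z - f z) ^ 2)) fun N =>
      (((um N).sub hf).1.aemeasurable.pow_const 2).ennreal_ofReal
  rw [h3.liminf_eq, nonpos_iff_eq_zero] at h4
  have h5 : ∀ᵐ z ∂(volume.restrict sqr), liminf (fun N => ENNReal.ofReal ((u N z - f z) ^ 2))
      atTop = ENNReal.ofReal ((sep α lam z - f z) ^ 2) := by
    filter_upwards [ae_restrict_mem sqr_open.measurableSet] with z hz
    have t := ((hSEP2 α lam M hM).2.2 z hz).1.hasSum.tendsto_sum_nat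
    exact (ENNReal.tendsto_ofReal ((t.sub_const (f z)).pow 2)).liminf_eq
  have sm : AEMeasurable (sep α lam) (volume.restrict sqr) :=
    (hSEP2 α lam M hM).1.continuousOn.aemeasurable sqr_open.measurableSet
  rw [lintegral_congr_ae h5] at h4
  replace h4 := (lintegral_eq_zero_iff'
    ((sm.sub hf.1.aemeasurable).pow_const 2).ennreal_ofReal).1 h4
  have h6 : f =ᵐ[volume.restrict sqr] sep α lam := by
    filter_upwards [h4] with z hz
    have a1 : (sep α lam z - f z) ^ 2 ≤ 0 := ENNReal.ofReal_eq_zero.1 hz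
    nlinarith [sq_nonneg (sep α lam z - f z)]
  refine ⟨hf.ae_eq h6, ?_, fun a => ?_⟩
  · rw [← hfc]
    funext ξ
    simp only [co]
    congr 1
    refine integral_congr_ae ?_
    filter_upwards [h6] with z hz
    rw [hz]
  · have h := hCB2.1 _ _ (gm a) (gm a)
    have e : ∀ z : ℂ, g a z * g a z = (nn a)⁻¹ * ((cos (a * z.re) * (nn a * cos (a * z.re))) *
        (α a * Cs (a ^ 2 - lam) z.im) ^ 2) := fun z => by
      have := (nn_pos a).ne'
      simp only [hg]; field_simp
    simp only [e, gco] at h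
    rw [integral_const_mul, sqr, rect_mul _ _ (fun x => cos (a * x) * (nn a * cos (a * x)))
      fun y => (α a * Cs (a ^ 2 - lam) y) ^ 2, cos_int hCB0, if_pos rfl] at h
    have h7 := ((Prod.mk_right_injective a).hasSum_iff (f := fun ξ : II =>
      (if a = ξ.1 then c ξ else 0) * if a = ξ.1 then c ξ else 0) (fun ξ hξ => by
        rw [if_neg fun h => hξ ⟨ξ.2, by rw [h]⟩, mul_zero])).2 h
    have h8 := h7.mul_left (π ^ 2 * nn a ^ 2)
    have := (nn_pos a).ne'
    have := pi_pos.ne'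
    have e2 : ∀ I : ℝ, π ^ 2 * nn a ^ 2 * ((nn a)⁻¹ * ((nn a)⁻¹ * I) / π ^ 2) = I := fun I => by
      field_simp
    rw [e2] at h8
    simpa [sq] using h8

end Pool.Agent.P.MP_6b977f_mp.RB
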