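import Pool.Agent.P.MP_6b977f_mp.RB.Iface

/-! Step SH1. -/

namespace Pool.Agent.P.MP_6b977f_mp.RB

open Real MeasureTheory ProbabilityTheory Filter Topology Finset Laplacian
open scoped ContDiff ComplexConjugate ENNReal Matrix

namespace SH1A

theorem bes (hHS0 : S_HS0) {c : ℕ → II → ℝ} (hc : SON c) (T : Finset ℕ) (A : Finset II)
    (y : A → ℝ) : ∑ j ∈ T, (∑ i, y i * c j i) ^ 2 ≤ ∑ i, y i ^ 2 := by
  have := hHS0.2.2.1 ℕ c T (fun ξ => if h : ξ ∈ A then y ⟨ξ, h⟩ else 0) hc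
    (hasSum_sum_of_ne_finset_zero (s := A) fun ξ h => by simp [h]).summable
  rw [tsum_eq_sum (s := A) fun ξ h => by simp [h], ← sum_coe_sort A] at this
  refine le_of_eq_of_le (sum_congr rfl fun j _ => ?_) (this.trans_eq (by simp))
  rw [tsum_eq_sum (s := A) fun ξ h => by simp [h], ← sum_coe_sort A]
  simp

theorem one {c : ℕ → II → ℝ} (hc : SON c) (A : Finset II) (j : ℕ) : ∑ i : A, c j i ^ 2 ≤ 1 := by
  rw [sum_coe_sort A fun i => c j i ^ 2]
  simpa [sq] using sum_le_hasSum A (fun _ _ => mul_self_nonneg _) (hc j j)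

end SH1A

open SH1A in
theorem p_SH1 (hWIN1 : S_WIN1) (hWIN2 : S_WIN2) (hDR : S_DR) (hOBS : S_OBS) (hHS0 : S_HS0) (hS4 : S_S4) :
    S_SH1 := by
  intro σ g lam c T l p m n δ hb hV hc hn hr hp hT B1 B2
  obtain ⟨eS, -, -, -, -, wk4, -⟩ := hS4.2 n hn
  obtain ⟨-, fo1, ob2, -, sy, hz⟩ := hOBS
  obtain ⟨x0, e0, -⟩ := hz σ l p m n g hp
  have w1 := hWIN1 _ n lam c T hV hc (by simpa using hT)
  have w2 := (hWIN2 _ n lam c T hV hc hT B1).2
  rw [Int.toNat_natCast, eS, ← rr] at w1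
  rw [eS] at w2
  have B0 : 0 ≤ BB (VV fun k => σ k * g k) n := tsum_nonneg fun q =>
    div_nonneg (sq_nonneg _) (mul_nonneg (zero_le_one.trans (one_le_DD _ _))
      (zero_le_one.trans (one_le_DD _ _)))
  generalize BB (VV fun k => σ k * g k) n = B at *
  have r1 : (1 : ℝ) ≤ rr n := by exact_mod_cast hr
  have q0 : 0 < √(2 * rr n) := by positivity
  have := pi_pos
  set s := sb σ m * √(2 * rr n) / π with hs
  have s0 : 0 < s := by positivity
  have ee : ∑ j ∈ T, ∑ ξ : AA n, ((Wn m n g *ᵥ fun η => c j η) ξ - (lam j - n) / s * c j ξ) ^ 2 ≤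
      160 * δ ^ 2 * rr n + 2 * Er σ m n g := by
    have a : ∑ j ∈ T, ∑ ξ : AA n, (∑ η : AA n, (Mn σ m n g ξ η - Wn m n g ξ η) * c j η) ^ 2 ≤
        Er σ m n g := by
      rw [sum_comm]
      exact sum_le_sum fun ξ _ => bes hHS0 hc T _ _
    have b : 16 * B ^ 2 / s ^ 2 ≤ 80 * δ ^ 2 * rr n := by
      have : π ^ 2 ≤ 10 := by nlinarith [pi_lt_d2]
      rw [hs, div_pow, mul_pow, sq_sqrt (by positivity), div_div_eq_mul_div,
        div_le_iff₀ (by positivity)]
      calc 16 * B ^ 2 * π ^ 2 ≤ 16 * (δ * sb σ m * rr n) ^ 2 * 10 := by gcongr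
        _ = _ := by ring
    refine le_trans (sum_le_sum fun j _ => ?_) (?_ : ∑ j ∈ T, (2 * ((∑ ξ ∈ AA n, ((lam j - n) *
      c j ξ - ∑ η ∈ AA n, VV (fun k => σ k * g k) ξ η * c j η) ^ 2) / s ^ 2) + 2 * ∑ ξ : AA n,
      (∑ η : AA n, (Mn σ m n g ξ η - Wn m n g ξ η) * c j η) ^ 2) ≤ _)
    · rw [← sum_coe_sort (AA n), sum_div, mul_sum, mul_sum, ← sum_add_distrib]
      refine sum_le_sum fun ξ _ => ?_
      have : ∑ η ∈ AA n, VV (fun k => σ k * g k) ξ η * c j η =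
          s * ∑ η : AA n, Mn σ m n g ξ η * c j η := by
        rw [← sum_coe_sort (AA n), mul_sum]
        refine sum_congr rfl fun η _ => ?_
        rw [VV, ww_AA ξ.2 η.2, Mn, hs]
        field_simp
      simp only [this, sub_mul, sum_sub_distrib, Matrix.mulVec, dotProduct]
      rw [← div_pow, ← sub_mul, sub_div (_ * _), mul_div_cancel_left₀ _ s0.ne', mul_div_right_comm]
      nlinarith [sq_nonneg ((lam j - n) / s * c j ξ - 2 * ∑ η : AA n, Mn σ m n g ξ η * c j η +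
        ∑ η : AA n, Wn m n g ξ η * c j η)]
    · rw [sum_add_distrib, ← mul_sum, ← mul_sum, ← sum_div]
      linarith [div_le_div_of_nonneg_right w2 (sq_nonneg s)]
  have dr := hDR (AA n) ℕ T p (Wn m n g) (obs l n) (fun j ξ => c j ξ)
    (fun j ξ => (Wn m n g *ᵥ fun η => c j η) ξ - (lam j - n) / s * c j ξ)
    (fun j => (lam j - n) / s) hp (sy m n g) (ob2 l n) (bes hHS0 hc T _) (fun j _ => one hc _ j)
    fun j _ => funext fun ξ => by simp
  have d2 : ∑ j ∈ T, ((∑ i : AA n, c j i ^ 4) + (∑ i, obs l n i * c j i ^ 2) ^ 2) ≤ T.card * 5 := by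
    rw [← nsmul_eq_mul]
    refine sum_le_card_nsmul _ _ _ fun j _ => ?_
    have o := one hc (AA n) j
    have a : ∑ i : AA n, c j i ^ 4 ≤ ∑ i : AA n, c j i ^ 2 := sum_le_sum fun i _ => by
      nlinarith [sq_nonneg (c j i), (single_le_sum (f := fun i : AA n => c j i ^ 2)
        (fun i _ => sq_nonneg _) (mem_univ i)).trans o]
    have b : |∑ i, obs l n i * c j i ^ 2| ≤ 2 := (abs_sum_le_sum_abs _ _).trans
      ((sum_le_sum (g := fun i : AA n => 2 * c j i ^ 2) fun i _ => by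
        rw [abs_mul, abs_sq]; exact mul_le_mul_of_nonneg_right (ob2 l n i) (sq_nonneg _)).trans
        (by rw [← mul_sum]; linarith))
    nlinarith [abs_le.1 b]
  have d3 : ∑ j ∈ T, ((∑ i : AA n, c j i ^ 4) + (∑ i, obs l n i * c j i ^ 2) ^ 2) ≤
      200 * zeta σ l p m n g + 16000 * p ^ 4 * δ ^ 2 * rr n := by
    have p4 : (0 : ℝ) ≤ p ^ 4 := by positivity
    rw [zeta, min_def]
    split_ifs
    · nlinarith [mul_le_mul_of_nonneg_left ee p4]
    · have : (0 : ℝ) ≤ 16000 * p ^ 4 * δ ^ 2 * rr n := by positivity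
      linarith
  have wk1 : ‖wk (2 * l) n‖ = 4 * |∑ η ∈ AA n, fo l η| := by
    have := wk4 (fun _ => 1) (2 * l)
    simp only [Complex.ofReal_one, one_mul, Nat.mul_mod_right, if_true,
      Nat.mul_div_cancel_left _ two_pos] at this
    rw [wk, this, Complex.norm_real, norm_eq_abs, abs_mul, abs_of_pos four_pos]
  have f1 : |∑ η ∈ AA n, fo l η| ≤ rr n := (abs_sum_le_sum_abs _ _).trans
    ((sum_le_card_nsmul _ _ _ fun η _ => fo1 l η).trans_eq (by simp [rr]))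
  have d4 : ∑ j ∈ T, (q2 n (c j) + q3 l n (c j)) ≤ ∑ j ∈ T, (2 * ((∑ i : AA n, c j i ^ 4) +
      (∑ i, obs l n i * c j i ^ 2) ^ 2) + 2 * (|∑ η ∈ AA n, fo l η| / rr n)) :=
    sum_le_sum fun j _ => by
      rw [q2, q3, ← sum_coe_sort (AA n), ← sum_coe_sort (AA n) fun ξ => fo l ξ * c j ξ ^ 2]
      have o := one hc (AA n) j
      have o0 : 0 ≤ ∑ i : AA n, c j i ^ 2 := sum_nonneg fun _ _ => sq_nonneg _
      have o4 : 0 ≤ ∑ i : AA n, c j i ^ 4 := sum_nonneg fun _ _ => by positivity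
      have a : |(∑ η ∈ AA n, fo l η) / rr n| ≤ 1 := by
        rw [abs_div, Nat.abs_cast, div_le_one (by positivity)]; exact f1
      rw [← Nat.abs_cast (R := ℝ) (rr n), ← abs_div]
      simp only [obs, sub_mul, sum_sub_distrib, ← mul_sum]
      generalize (∑ η ∈ AA n, fo l η) / rr n = t at *
      generalize ∑ i : AA n, c j i ^ 2 = u at *
      have b : (t * u) ^ 2 ≤ |t| := by
        rw [mul_pow, ← sq_abs t]
        exact (mul_le_of_le_one_right (sq_nonneg _) (pow_le_one₀ o0 o)).trans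
          (by nlinarith [abs_nonneg t])
      nlinarith [sq_nonneg (∑ i : AA n, fo l i * c j i ^ 2 - 2 * (t * u))]
  refine d4.trans ?_
  rw [sum_add_distrib, ← mul_sum, sum_const, nsmul_eq_mul]
  have d5 : T.card * (2 * (|∑ η ∈ AA n, fo l η| / rr n)) ≤ 8 * |∑ η ∈ AA n, fo l η| := by
    rw [← mul_div_assoc, ← mul_div_assoc, div_le_iff₀ (by positivity)]
    nlinarith [mul_le_mul_of_nonneg_right (show (T.card : ℝ) ≤ 4 * rr n by linarith)
      (abs_nonneg (∑ η ∈ AA n, fo l η))]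
  linarith

end Pool.Agent.P.MP_6b977f_mp.RB
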