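import Pool.Agent.P.MP_6b977f_mp.RB.Iface

/-! Step SH2. -/

namespace Pool.Agent.P.MP_6b977f_mp.RB

open Real MeasureTheory ProbabilityTheory Filter Topology Finset Laplacian
open scoped ContDiff ComplexConjugate ENNReal Matrix

namespace SH2A

theorem sum_sq_le {c : ℕ → II → ℝ} (hc : SON c) (j : ℕ) (S : Finset II) :
    ∑ ξ ∈ S, c j ξ ^ 2 ≤ 1 := by
  have h := hc j j
  simp only [if_true] at h
  have := sum_le_hasSum S (fun ξ _ => mul_self_nonneg (c j ξ)) h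
  simpa only [sq] using this

theorem sq_le_one {c : ℕ → II → ℝ} (hc : SON c) (j : ℕ) (ξ : II) : c j ξ ^ 2 ≤ 1 := by
  simpa using sum_sq_le hc j {ξ}

theorem rho_nonneg (n l : ℕ) (c : II → ℝ) : 0 ≤ rhoR (Lam n) l fun ξ => |c (ab ξ)| / 2 :=
  sum_nonneg fun _ _ => prod_nonneg fun _ _ => by positivity

theorem q4_nonneg (l n : ℕ) (c : II → ℝ) : 0 ≤ q4 l n c :=
  le_min zero_le_one (rho_nonneg n l c)

theorem q4_le (l n : ℕ) (c : II → ℝ) : q4 l n c ≤ 1 := min_le_left _ _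

theorem q2_nonneg (n : ℕ) (c : II → ℝ) : 0 ≤ q2 n c :=
  sum_nonneg fun _ _ => by positivity

theorem col_le (hHS0 : S_HS0) {c : ℕ → II → ℝ} (hc : SON c) (T : Finset ℕ) (ξ : II) :
    ∑ j ∈ T, c j ξ ^ 2 ≤ 1 := by
  have hs : HasSum (fun ζ : II => (if ζ = ξ then (1 : ℝ) else 0) ^ 2) 1 := by
    have h := hasSum_ite_eq ξ (1 : ℝ)
    refine h.congr_fun ?_
    intro ζ
    split_ifs <;> simp
  have h := hHS0.2.2.1 ℕ c T (fun ζ => if ζ = ξ then (1 : ℝ) else 0) hc hs.summable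
  rw [hs.tsum_eq] at h
  refine le_trans (le_of_eq (sum_congr rfl fun j _ => ?_)) h
  have : ∑' ζ : II, (if ζ = ξ then (1 : ℝ) else 0) * c j ζ = c j ξ := by
    rw [tsum_eq_single ξ]
    · simp
    · intro ζ hζ
      simp [hζ]
  rw [this]

theorem prod_le {k : ℕ} (y : Fin (k + 3) → ℝ) (η : ℝ) (h1 : η ≤ 1) (h0 : ∀ i, 0 ≤ y i)
    (hy : ∀ i, y i ≤ η) : ∏ i, y i ≤ η * ((y 0 ^ 2 + y 1 ^ 2) / 2) := by
  rw [Fin.prod_univ_succ, Fin.prod_univ_succ, Fin.prod_univ_succ]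
  have hP : ∏ i : Fin k, y i.succ.succ.succ ≤ 1 :=
    prod_le_one (fun _ _ => h0 _) fun _ _ => (hy _).trans h1
  have hP0 : 0 ≤ ∏ i : Fin k, y i.succ.succ.succ := prod_nonneg fun _ _ => h0 _
  have h2 : y (Fin.succ (Fin.succ 0)) * ∏ i : Fin k, y i.succ.succ.succ ≤ η :=
    le_trans (mul_le_of_le_one_right (h0 _) hP) (hy _)
  have h3 : 0 ≤ y (Fin.succ (Fin.succ 0)) * ∏ i : Fin k, y i.succ.succ.succ :=
    mul_nonneg (h0 _) hP0
  have e1 : (Fin.succ 0 : Fin (k + 3)) = 1 := rfl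
  rw [e1]
  have h4 : y 0 * y 1 ≤ (y 0 ^ 2 + y 1 ^ 2) / 2 := by nlinarith [sq_nonneg (y 0 - y 1)]
  have h5 : 0 ≤ y 0 * y 1 := mul_nonneg (h0 _) (h0 _)
  calc y 0 * (y 1 * (y (Fin.succ (Fin.succ 0)) * ∏ i : Fin k, y i.succ.succ.succ))
      = (y (Fin.succ (Fin.succ 0)) * ∏ i : Fin k, y i.succ.succ.succ) * (y 0 * y 1) := by ring
    _ ≤ η * ((y 0 ^ 2 + y 1 ^ 2) / 2) := mul_le_mul h2 h4 h5 (h3.trans h2)

theorem term_le (hS4 : S_S4) {k n : ℕ} (hn : ¬IsSquare n) (c : II → ℝ) {η : ℝ} (h0 : 0 < η)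
    (h1 : η ≤ 1) : q4 (k + 3) n c ≤ q2 n c / η ^ 4 +
      ∑ t ∈ Rel (Lam n) (k + 3), η * ((c (ab (t 0)) ^ 2 + c (ab (t 1)) ^ 2) / 2) := by
  have hS : 0 ≤ ∑ t ∈ Rel (Lam n) (k + 3), η * ((c (ab (t 0)) ^ 2 + c (ab (t 1)) ^ 2) / 2) :=
    sum_nonneg fun _ _ => by positivity
  have hη : 0 < η ^ 4 := by positivity
  by_cases h : η ^ 4 < q2 n c
  · have : 1 ≤ q2 n c / η ^ 4 := (one_le_div hη).2 h.le
    linarith [q4_le (k + 3) n c]
  · have hb : ∀ ξ ∈ AA n, |c ξ| ≤ η := by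
      intro ξ hξ
      have h4 : c ξ ^ 4 ≤ q2 n c :=
        single_le_sum (f := fun ξ => c ξ ^ 4) (fun _ _ => by positivity) hξ
      have h5 : |c ξ| ^ 4 ≤ η ^ 4 := by
        rw [← abs_pow, abs_of_nonneg (by positivity)]
        linarith [not_lt.1 h]
      exact (pow_le_pow_iff_left₀ (abs_nonneg _) h0.le (by norm_num)).1 h5
    have hq : 0 ≤ q2 n c / η ^ 4 := div_nonneg (q2_nonneg n c) hη.le
    have hr : (rhoR (Lam n) (k + 3) fun ξ => |c (ab ξ)| / 2) ≤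
        ∑ t ∈ Rel (Lam n) (k + 3), η * ((c (ab (t 0)) ^ 2 + c (ab (t 1)) ^ 2) / 2) := by
      refine sum_le_sum fun t ht => ?_
      have hm := (mem_Rel.1 ht).1
      refine le_trans (prod_le (fun i => |c (ab (t i))| / 2) η h1 (fun _ => by positivity)
        fun i => ?_) ?_
      · have := hb _ ((hS4.2 n hn).2.2.2.1 _ (hm i))
        linarith [abs_nonneg (c (ab (t i)))]
      · refine mul_le_mul_of_nonneg_left ?_ h0.le
        rw [div_pow, div_pow, sq_abs, sq_abs]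
        nlinarith [sq_nonneg (c (ab (t 0))), sq_nonneg (c (ab (t 1)))]
    have : q4 (k + 3) n c ≤ _ := min_le_right _ _
    linarith

end SH2A

theorem p_SH2 (hHS0 : S_HS0) (hS4 : S_S4) (hOBS : S_OBS) :
    S_SH2 := by
  intro c hc
  refine ⟨fun i n j => ?_, fun T l n η hl hn h0 h1 => ?_⟩
  · have hs := SH2A.sum_sq_le hc j (AA n)
    have hs0 : 0 ≤ ∑ ξ ∈ AA n, c j ξ ^ 2 := sum_nonneg fun _ _ => sq_nonneg _
    unfold qq
    split_ifs
    · exact ⟨zero_le_one, le_rfl⟩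
    · exact ⟨le_rfl, zero_le_one⟩
    · unfold q1
      constructor <;> linarith
    · refine ⟨SH2A.q2_nonneg _ _, le_trans (sum_le_sum fun ξ _ => ?_) hs⟩
      have := SH2A.sq_le_one hc j ξ
      nlinarith [sq_nonneg (c j ξ)]
    · refine ⟨sq_nonneg _, ?_⟩
      unfold q3
      rw [sq_le_one_iff_abs_le_one]
      refine le_trans (abs_sum_le_sum_abs _ _) (le_trans (sum_le_sum fun ξ _ => ?_) hs)
      rw [abs_mul, abs_of_nonneg (sq_nonneg (c j ξ))]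
      exact mul_le_of_le_one_left (sq_nonneg _) (hOBS.2.1 _ _)
    · exact ⟨SH2A.q4_nonneg _ _ _, SH2A.q4_le _ _ _⟩
  · obtain ⟨k, rfl⟩ : ∃ k, l = k + 3 := ⟨l - 3, by omega⟩
    refine le_trans (sum_le_sum fun j _ => SH2A.term_le hS4 hn (c j) h0 h1) ?_
    rw [sum_add_distrib, ← sum_div, sum_comm]
    refine add_le_add le_rfl ?_
    have : ∀ t ∈ Rel (Lam n) (k + 3),
        ∑ j ∈ T, η * ((c j (ab (t 0)) ^ 2 + c j (ab (t 1)) ^ 2) / 2) ≤ η := by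
      intro t _
      rw [← mul_sum, ← sum_div, sum_add_distrib]
      have a := SH2A.col_le hHS0 hc T (ab (t 0))
      have b := SH2A.col_le hHS0 hc T (ab (t 1))
      exact mul_le_of_le_one_right h0.le (by linarith)
    refine le_trans (sum_le_card_nsmul _ _ _ this) (le_of_eq ?_)
    rw [nsmul_eq_mul, mul_comm]
    rfl

end Pool.Agent.P.MP_6b977f_mp.RB
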