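import Pool.Agent.P.MP_6b977f_mp.RB.Iface

/-! Step SS. -/

namespace Pool.Agent.P.MP_6b977f_mp.RB

open Real MeasureTheory ProbabilityTheory Filter Topology Finset Laplacian
open scoped ContDiff ComplexConjugate ENNReal Matrix

namespace SSA

lemma fib {α : Type} (B : Finset α) (f : α → ℕ) (w : α → ℝ) (s t : ℕ → ℝ) (C : ℝ) (hC : 0 ≤ C)
    (ht : Summable t) (t0 : ∀ k, 0 ≤ t k) (h : ∀ k, s k * ∑ p ∈ B with f p = k, w p ≤ C * t k) :
    ∑ p ∈ B, s (f p) * w p ≤ C * ∑' k, t k := by
  rw [← sum_fiberwise_of_maps_to (fun p hp => mem_image_of_mem f hp)]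
  refine le_trans (sum_le_sum fun k _ => le_trans (le_of_eq ?_) (h k)) ?_
  · rw [mul_sum]
    exact sum_congr rfl fun p hp => by rw [(mem_filter.1 hp).2]
  · rw [← mul_sum]
    exact mul_le_mul_of_nonneg_left (ht.sum_le_tsum _ fun k _ => t0 k) hC

lemma inj {α : Type} {F : Finset α} (m : α → ℕ) (hm : Set.InjOn m F) {w : α → ℝ} (g : ℕ → ℝ)
    (h : ∀ p ∈ F, w p ≤ g (m p)) : ∑ p ∈ F, w p ≤ ∑ a ∈ F.image m, g a :=
  (sum_le_sum h).trans (sum_image hm).ge

lemma har {R : ℝ} (hR : 1 ≤ R) (k : ℕ) (A : Finset ℕ) (h : ∀ a ∈ A, a ≤ k) :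
    ∑ a ∈ A, 1 / (R + a) ≤ 2 * (1 + log k) := by
  have h1 := harmonic_le_one_add_log k
  have h2 := log_natCast_nonneg k
  have h3 : ∑ a ∈ A, 1 / (R + a) ≤ ∑ a ∈ range (k + 1), ((a : ℝ) + 1)⁻¹ :=
    (sum_le_sum fun a _ => by rw [one_div]; exact inv_anti₀ (by positivity) (by linarith)).trans
      (sum_le_sum_of_subset_of_nonneg (fun a ha => mem_range.2 (Nat.lt_succ_of_le (h a ha)))
        fun _ _ _ => by positivity)
  rw [sum_range_succ] at h3
  have h4 : ((k : ℝ) + 1)⁻¹ ≤ 1 := inv_le_one_of_one_le₀ (by simp)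
  simp only [harmonic, Rat.cast_sum, Rat.cast_inv, Rat.cast_natCast, Nat.cast_add,
    Nat.cast_one, Rat.cast_add, Rat.cast_one] at h1
  linarith

lemma dia (hPHI : S_PHI) {R : ℝ} (hR : 1 ≤ R) (k : ℕ) (A : Finset ℕ) :
    ∑ a ∈ A, 1 / ((R + a) * (R + (a + k : ℕ))) ≤ 4 * ((1 + log k) / (R + k)) := by
  have h2 := log_natCast_nonneg k
  have h0 : 0 < R + k := by positivity
  rw [← sum_filter_add_sum_filter_not A (· ≤ k)]
  have a1 : ∑ a ∈ A with a ≤ k, 1 / ((R + a) * (R + (a + k : ℕ))) ≤ 2 * (1 + log k) / (R + k) := by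
    refine le_trans ?_ (div_le_div_of_nonneg_right (har hR k (A.filter (· ≤ k))
      fun a ha => (mem_filter.1 ha).2) h0.le)
    rw [sum_div]
    refine sum_le_sum fun a _ => ?_
    rw [div_div]
    gcongr
    omega
  have a2 : ∑ a ∈ A with ¬ a ≤ k, 1 / ((R + a) * (R + (a + k : ℕ))) ≤ 2 / (R + k) := by
    refine (inj (· - k) (fun a ha b hb e => ?_) (fun b => 1 / (R + k + b) ^ 2) fun a ha => ?_).trans
      (hPHI.1 _ (by linarith [Nat.cast_nonneg (α := ℝ) k]) _)
    · have := (mem_filter.1 ha).2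
      have := (mem_filter.1 hb).2
      dsimp only at e
      omega
    · rw [Nat.cast_sub (not_le.1 (mem_filter.1 ha).2).le, add_add_sub_cancel, sq]
      gcongr
      omega
  rw [← mul_div_assoc, le_div_iff₀ h0]
  rw [le_div_iff₀ h0] at a1 a2
  linarith

end SSA

open SSA in
theorem p_SS (hPHI : S_PHI) :
    S_SS := by
  intro σ R hσ hR
  have lg := log_natCast_nonneg
  have n1 : ∀ k : ℕ, 0 ≤ σ k ^ 2 * (1 + log k) / (R + k) := fun k => by
    have := lg k
    positivity
  have s1 : Summable fun k : ℕ => σ k ^ 2 * (1 + log k) / (R + k) :=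
    hσ.summ.of_nonneg_of_le n1 fun k => by
      have := lg k
      gcongr
  have n0 : ∀ k : ℕ, 0 ≤ σ k ^ 2 / (R + k) := fun k => by positivity
  have s0 : Summable fun k : ℕ => σ k ^ 2 / (R + k) := s1.of_nonneg_of_le n0 fun k => by
    gcongr
    exact le_mul_of_one_le_right (sq_nonneg _) (by linarith [lg k])
  refine ⟨fun B => ?_, fun a B ha => ?_⟩
  · have a1 := fib B (fun p => Nat.dist p.1 p.2) (fun p => 1 / ((R + p.1) * (R + p.2)))
      (σ · ^ 2) _ 8 (by norm_num) s1 n1 fun k => by
        rw [mul_div_assoc, mul_left_comm, ← sum_filter_add_sum_filter_not _ fun p => p.1 ≤ p.2]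
        refine mul_le_mul_of_nonneg_left ((add_le_add ((inj (·.1) ?_ _ ?_).trans (dia hPHI hR k _))
          ((inj (·.2) ?_ _ ?_).trans (dia hPHI hR k _))).trans_eq (by ring)) (sq_nonneg _)
        all_goals simp only [Set.InjOn, mem_coe, mem_filter, and_imp]; unfold Nat.dist
        · exact fun p _ h1 h2 q _ h3 h4 e => Prod.ext e (by omega)
        · exact fun p _ h1 h2 => by rw [show p.1 + k = p.2 by omega]
        · exact fun p _ h1 h2 q _ h3 h4 e => Prod.ext (by omega) e
        · exact fun p _ h1 h2 => by rw [show p.2 + k = p.1 by omega, mul_comm]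
    have a2 := fib B (fun p => p.1 + p.2) (fun p => 1 / ((R + p.1) * (R + p.2)))
      (σ · ^ 2) _ 4 (by norm_num) s1 n1 fun k => by
        rw [mul_div_assoc, mul_left_comm]
        refine mul_le_mul_of_nonneg_left ?_ (sq_nonneg _)
        have b1 := (inj (F := B.filter fun p => p.1 + p.2 = k) (·.1) (fun p hp q hq e => Prod.ext e
          (by have := (mem_filter.1 hp).2; have := (mem_filter.1 hq).2; dsimp only at e; omega))
          (fun a => 1 / (R + a)) fun _ _ => le_rfl).trans (har hR k _ (forall_mem_image.2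
            fun p hp => by have := (mem_filter.1 hp).2; omega))
        have b2 := (inj (F := B.filter fun p => p.1 + p.2 = k) (·.2) (fun p hp q hq e => Prod.ext
          (by have := (mem_filter.1 hp).2; have := (mem_filter.1 hq).2; dsimp only at e; omega) e)
          (fun a => 1 / (R + a)) fun _ _ => le_rfl).trans (har hR k _ (forall_mem_image.2
            fun p hp => by have := (mem_filter.1 hp).2; omega))
        rw [← mul_div_assoc, le_div_iff₀ (by positivity), sum_mul]
        refine le_trans (sum_le_sum fun p hp => ?_) (sum_add_distrib.trans_le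
          ((add_le_add b1 b2).trans_eq (by ring)))
        rw [← (mem_filter.1 hp).2, div_add_div _ _ (by positivity) (by positivity), one_div,
          inv_mul_eq_div]
        exact div_le_div_of_nonneg_right (by push_cast; linarith) (by positivity)
    have a3 : 0 ≤ T1 σ R := tsum_nonneg n1
    simp only [s2, add_div, sum_add_distrib, div_eq_mul_one_div (σ _ ^ 2)]
    rw [← T1] at a1 a2
    linarith
  · have key : ∀ (f : ℕ → ℕ) (c : ℕ), (∀ b, f b ≤ a + b) → (∀ k, #{b ∈ B | f b = k} ≤ c) →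
        ∑ b ∈ B, σ (f b) ^ 2 * (1 / (R + b)) ≤ c * 2 * T0 σ R := fun f c h1 h2 =>
      fib B f (fun b => 1 / (R + b)) (σ · ^ 2) _ _ (by positivity) s0 n0 fun k => by
        rw [div_eq_mul_one_div (σ _ ^ 2), mul_left_comm]
        refine mul_le_mul_of_nonneg_left ((sum_le_card_nsmul _ _ (2 * (1 / (R + k)))
          fun b hb => ?_).trans ?_) (sq_nonneg _)
        · rw [← (mem_filter.1 hb).2, mul_one_div, div_le_div_iff₀ (by positivity) (by positivity)]
          have : (f b : ℝ) ≤ a + b := by exact_mod_cast h1 b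
          linarith [Nat.cast_nonneg (α := ℝ) b]
        · rw [nsmul_eq_mul, mul_assoc]
          gcongr
          exact h2 k
    have a1 := key (Nat.dist a) 2 (fun b => by unfold Nat.dist; omega) fun k =>
      (card_le_card (t := {a + k, a - k}) fun b hb => by
        have := (mem_filter.1 hb).2
        simp only [Nat.dist, mem_insert, mem_singleton] at this ⊢
        omega).trans card_le_two
    have a2 := key (a + ·) 1 (fun _ => le_rfl) fun k => card_le_one.2 fun b hb c hc =>
      add_left_cancel ((mem_filter.1 hb).2.trans (mem_filter.1 hc).2.symm)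
    simp only [s2, add_div, sum_add_distrib, div_eq_mul_one_div (σ _ ^ 2)]
    push_cast at a1 a2
    linarith

end Pool.Agent.P.MP_6b977f_mp.RB
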