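import Pool.Agent.P.MP_6b977f_mp.RB.Iface

/-! Step SVB. -/

namespace Pool.Agent.P.MP_6b977f_mp.RB

open Real MeasureTheory ProbabilityTheory Filter Topology Finset Laplacian
open scoped ContDiff ComplexConjugate ENNReal Matrix

namespace SVBA

lemma bd {k a b : ℕ} (h : 2 ^ a ≤ k) (h' : k ≤ 2 ^ b) :
    a * log 2 ≤ log (k + 1) ∧ log (k + 1) ≤ (b + 1) * log 2 := by
  have h1 : (2 : ℝ) ^ a ≤ k + 1 := by exact_mod_cast h.trans k.le_succ
  have h2 : (k : ℝ) + 1 ≤ 2 ^ (b + 1) := by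
    have := Nat.one_le_two_pow (n := b)
    exact_mod_cast (by omega : k + 1 ≤ 2 ^ (b + 1))
  rw [← log_pow, ← Nat.cast_succ b, ← log_pow]
  exact ⟨log_le_log (by positivity) h1, log_le_log (by positivity) h2⟩

end SVBA

theorem p_SVB :
    S_SVB := by
  intro c β hc _ θ hθ
  obtain ⟨η, h0, H⟩ := Metric.continuousAt_iff.1 (continuousAt_rpow_const 1 β (.inl one_ne_zero))
    θ hθ
  obtain ⟨e, he⟩ := exists_nat_ge (4 + 4 / η)
  obtain ⟨J, hJ⟩ := exists_nat_ge (1 + 6 / η)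
  have h4 : 0 < 4 / η := by positivity
  have e2 : 2 ≤ e := by exact_mod_cast (by linarith : (2 : ℝ) ≤ e)
  refine ⟨e, e2, (eventually_ge_atTop (2 * J)).mono fun m hm k k1 k2 => ?_⟩
  obtain ⟨a1, a2⟩ := SVBA.bd (le_refl (2 ^ (m / 2))) le_rfl
  obtain ⟨b1, b2⟩ := SVBA.bd k1.le k2
  have k0 : k ≠ 0 := (Nat.zero_lt_of_lt k1).ne'
  have hB : 0 < log (k + 1) := log_pos (by simpa using Nat.pos_of_ne_zero k0)
  have hA : 0 < log ((2 ^ (m / 2) : ℕ) + 1) := log_pos (by simp)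
  have c1 : (J : ℝ) ≤ (m / 2 : ℕ) := by exact_mod_cast (by omega : J ≤ m / 2)
  have c2 : (e : ℝ) * (m / e : ℕ) ≤ 2 * (m / 2 : ℕ) + 1 := by
    exact_mod_cast (Nat.mul_div_le m e).trans (by omega)
  rw [Nat.cast_sub (Nat.div_le_div_left e2 two_pos)] at b1
  rw [Nat.cast_add, Nat.cast_two] at b2
  rw [sb, rho, rho, if_neg k0, if_neg (by positivity), mul_one, mul_one,
    div_div_div_cancel_left' _ _ hc.ne', ← div_rpow hA.le hB.le]
  rw [one_rpow] at H
  refine (H ?_).le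
  rw [Real.dist_eq, div_sub_one hB.ne', abs_div, abs_of_pos hB, div_lt_iff₀ hB]
  have i0 : (0 : ℝ) ≤ (m / e : ℕ) := Nat.cast_nonneg _
  generalize ((m / e : ℕ) : ℝ) = i at *
  generalize ((m / 2 : ℕ) : ℝ) = j at *
  have l2 := log_pos one_lt_two
  have d1 : 4 * η + 4 ≤ η * e := by
    have := mul_le_mul_of_nonneg_left he h0.le
    rwa [mul_add, mul_div_cancel₀ _ h0.ne', mul_comm] at this
  have d2 : η + 6 ≤ η * j := by
    have := mul_le_mul_of_nonneg_left (hJ.trans c1) h0.le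
    rwa [mul_add, mul_div_cancel₀ _ h0.ne', mul_one] at this
  have d3 : i + 3 < η * (j - i) := by
    nlinarith [mul_le_mul_of_nonneg_right d1 i0, mul_le_mul_of_nonneg_left c2 h0.le]
  have d4 := mul_lt_mul_of_pos_right d3 l2
  have d5 := mul_le_mul_of_nonneg_left b1 h0.le
  have d6 := mul_nonneg i0 l2.le
  rw [abs_lt]
  constructor <;> nlinarith

end Pool.Agent.P.MP_6b977f_mp.RB
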