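import Pool.Agent.P.MP_6b977f_mp.RB.Iface

/-! Step SVC. -/

namespace Pool.Agent.P.MP_6b977f_mp.RB

open Real MeasureTheory ProbabilityTheory Filter Topology Finset Laplacian
open scoped ContDiff ComplexConjugate ENNReal Matrix

namespace SVCA

theorem pw {β x : ℝ} (hx : 0 < x) (j : ℕ) : x ^ j / (x ^ β) ^ 2 = x ^ ((j : ℝ) - β * 2) := by
  rw [rpow_sub hx, rpow_natCast, rpow_mul hx.le, rpow_two]

theorem far {β L M : ℝ} (hβ : 4 < β) (hM : 0 < M) (hL : M / 16 ≤ L) {j : ℕ} (hj : j ≤ 3) :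
    L ^ j / (L ^ β) ^ 2 ≤ (16 ^ β) ^ 2 * (M ^ j / (M ^ β) ^ 2) := by
  have h1 : (j : ℝ) ≤ 3 := by exact_mod_cast hj
  have h2 : 0 < M / 16 := by positivity
  have h3 : 0 < M ^ β := rpow_pos_of_pos hM β
  have h4 : (0 : ℝ) < 16 ^ β := by positivity
  rw [pw (h2.trans_le hL)]
  refine (rpow_le_rpow_of_nonpos h2 hL (by linarith)).trans ?_
  rw [← pw h2, div_rpow hM.le (by norm_num)]
  calc (M / 16) ^ j / (M ^ β / 16 ^ β) ^ 2 ≤ M ^ j / (M ^ β / 16 ^ β) ^ 2 := by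
        gcongr
        linarith
    _ = _ := by field_simp

theorem key {c β : ℝ} (hβ : 4 < β) (h0 : SV0 (rho c β fun _ => 1))
    (hu : Summable fun k : ℕ => 1 / ((1 + k : ℝ) * log (k + 1) ^ 2)) {j : ℕ} (hj : j ≤ 1)
    {w : ℕ → ℝ} {m : ℕ} (hm : 16 ≤ m) (he : (m : ℝ) ^ (β * 2 + 1) * exp (-(1 / 16) * m) ≤ 1)
    (w0 : ∀ k, 0 ≤ w k) (w1 : ∀ k : ℕ, w k ≤ 1 + log k)
    (w2 : ∀ k : ℕ, 1 ≤ log (k + 1 : ℝ) → w k ≤ 2 * log (k + 1 : ℝ) ^ j) :
    ∑' k : ℕ, rho c β (fun _ => 1) k ^ 2 * w k / (√(2 ^ (m + 2)) + k) ≤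
      (4 * rho c β (fun _ => 1) 1 ^ 2 + 2 * c ^ 2 * (16 ^ β) ^ 2 *
        ∑' k : ℕ, 1 / ((1 + k : ℝ) * log (k + 1) ^ 2)) * (m : ℝ) ^ (j + 2) / ((m : ℝ) ^ β) ^ 2 := by
  set σ := rho c β fun _ => 1 with hσ
  set R : ℝ := √(2 ^ (m + 2))
  obtain ⟨y, hy⟩ : ∃ y : ℕ, y = 2 ^ (m / 4) := ⟨_, rfl⟩
  have m1 : (16 : ℝ) ≤ m := by exact_mod_cast hm
  have m0 : (0 : ℝ) < m := by linarith
  have y1 : (1 : ℝ) ≤ y := by exact_mod_cast hy ▸ Nat.one_le_two_pow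
  have yR : (y : ℝ) ^ 2 ≤ R := by
    refine le_sqrt_of_sq_le ?_
    rw [hy, Nat.cast_pow, Nat.cast_ofNat, ← pow_mul, ← pow_mul]
    exact pow_le_pow_right₀ one_le_two (by omega)
  have R1 : 1 ≤ R := (one_le_pow₀ y1).trans yR
  have ly : log y = (m / 4 : ℕ) * log 2 := by rw [hy, Nat.cast_pow, Nat.cast_ofNat, log_pow]
  have q1 : (m : ℝ) ≤ 8 * (m / 4 : ℕ) := by exact_mod_cast (by omega : m ≤ 8 * (m / 4))
  have q2 : 4 * ((m / 4 : ℕ) : ℝ) ≤ m := by exact_mod_cast (by omega : 4 * (m / 4) ≤ m)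
  have l1 : (m : ℝ) / 16 ≤ log y := by rw [ly]; nlinarith [log_two_gt_d9]
  have l2 : log y ≤ m - 1 := by rw [ly]; nlinarith [log_two_lt_d9]
  have mb : 0 < (m : ℝ) ^ β := rpow_pos_of_pos m0 β
  set A : ℝ := σ 1 ^ 2 * m / (y : ℝ) ^ 2 with hA
  set B : ℝ := 2 * c ^ 2 * (16 ^ β) ^ 2 * ((m : ℝ) ^ (j + 2) / ((m : ℝ) ^ β) ^ 2) with hB
  have hg := (hasSum_sum_of_ne_finset_zero (f := fun k => if k ∈ range (y + 1) then A else 0)
    (s := range (y + 1)) fun k hk => if_neg hk).add (hu.hasSum.mul_left B)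
  have f0 : ∀ k : ℕ, 0 ≤ σ k ^ 2 * w k / (R + k) := fun k => by have := w0 k; positivity
  have fg : ∀ k : ℕ, σ k ^ 2 * w k / (R + k) ≤ (if k ∈ range (y + 1) then A else 0) +
      B * (1 / ((1 + k : ℝ) * log (k + 1) ^ 2)) := fun k => by
    have k0 : (0 : ℝ) ≤ k := k.cast_nonneg
    split_ifs with hk
    · refine le_add_of_le_of_nonneg ?_ (by positivity)
      rcases k.eq_zero_or_pos with rfl | k1
      · rw [h0.zero, zero_pow two_ne_zero, zero_mul, zero_div]; positivity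
      have k2 : (k : ℝ) ≤ y := by exact_mod_cast Nat.lt_succ_iff.1 (mem_range.1 hk)
      have k3 := log_le_log (by exact_mod_cast k1) k2
      have k4 := (h0.pos k k1).le
      have k5 := h0.anti 1 k le_rfl k1
      have k6 := w0 k
      rw [hA]
      gcongr
      · linarith [w1 k]
      · linarith
    · have k2 : (y : ℝ) ≤ k + 1 := by exact_mod_cast (by simp at hk; omega : y ≤ k + 1)
      have k3 := l1.trans (log_le_log (by linarith) k2)
      have k1 : k ≠ 0 := by rintro rfl; simp at hk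
      have k4 : 1 ≤ log (k + 1 : ℝ) := by linarith
      have k5 := far hβ m0 k3 (j := j + 2) (by omega)
      have k6 := w2 k k4
      have k7 : 0 < log (k + 1 : ℝ) ^ β := by positivity
      rw [zero_add, hσ, rho, if_neg k1, mul_one, hB]
      calc _ ≤ (c / log (k + 1 : ℝ) ^ β) ^ 2 * (2 * log (k + 1 : ℝ) ^ j) / (1 + k) := by gcongr
        _ = 2 * c ^ 2 * (log (k + 1 : ℝ) ^ (j + 2) / (log (k + 1 : ℝ) ^ β) ^ 2) *
            (1 / ((1 + k : ℝ) * log (k + 1) ^ 2)) := by field_simp; ring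
        _ ≤ _ := by rw [mul_assoc (2 * c ^ 2) ((16 ^ β) ^ 2)]; gcongr
  refine ((Summable.of_nonneg_of_le f0 fg hg.summable).tsum_le_tsum fg hg.summable).trans ?_
  rw [hg.tsum_eq, sum_congr rfl fun k hk => if_pos hk, sum_const, card_range, nsmul_eq_mul,
    add_mul, add_div]
  refine add_le_add ?_ (le_of_eq (by rw [hB]; ring))
  have e1 : (m : ℝ) * ((m : ℝ) ^ β) ^ 2 ≤ y := by
    rw [rpow_add_one m0.ne', rpow_mul m0.le, rpow_two, neg_mul, exp_neg, ← div_eq_mul_inv,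
      div_le_one (exp_pos _)] at he
    have := (exp_le_exp.2 l1).trans_eq (exp_log (by linarith))
    rw [div_eq_inv_mul, ← one_div] at this
    linarith
  have e2 : (1 : ℝ) ≤ (m : ℝ) ^ (j + 2) := one_le_pow₀ (by linarith)
  calc ((y + 1 : ℕ) : ℝ) * A ≤ 4 * y * A := by push_cast; gcongr; linarith
    _ = 4 * σ 1 ^ 2 * m / y := by rw [hA]; field_simp
    _ ≤ 4 * σ 1 ^ 2 * m / (m * ((m : ℝ) ^ β) ^ 2) := by gcongr
    _ = 4 * σ 1 ^ 2 * 1 / ((m : ℝ) ^ β) ^ 2 := by field_simp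
    _ ≤ _ := by gcongr

end SVCA

theorem p_SVC (hSVA : S_SVA) :
    S_SVC := by
  intro c β hc hβ
  obtain ⟨hu, h0, -⟩ := hSVA c β hc hβ
  have h1 := ((tendsto_rpow_mul_exp_neg_mul_atTop_nhds_zero (β * 2 + 1) (1 / 16)
    (by norm_num)).comp tendsto_natCast_atTop_atTop).eventually (eventually_le_nhds one_pos)
  refine ⟨_, (h1.and (eventually_ge_atTop 16)).mono fun m ⟨he, hm⟩ => ⟨?_,
    SVCA.key hβ h0 hu (j := 1) le_rfl hm he (fun k => ?_) (fun k => le_rfl) fun k hk => ?_⟩⟩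
  · simpa only [mul_one, zero_add, T0] using SVCA.key hβ h0 hu (j := 0) (w := fun _ => 1) zero_le_one hm he
      (fun _ => zero_le_one) (fun k => by linarith [log_natCast_nonneg k]) fun k _ => by norm_num
  · linarith [log_natCast_nonneg k]
  · rcases k.eq_zero_or_pos with rfl | k1
    · simp at hk
      linarith
    · have := log_le_log (by exact_mod_cast k1) (by linarith : (k : ℝ) ≤ k + 1)
      linarith

end Pool.Agent.P.MP_6b977f_mp.RB
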