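import Pool.Agent.P.MP_6b977f_mp.RB.Iface

/-! Step SVL. -/

namespace Pool.Agent.P.MP_6b977f_mp.RB

open Real MeasureTheory ProbabilityTheory Filter Topology Finset Laplacian
open scoped ContDiff ComplexConjugate ENNReal Matrix

namespace SVLA

end SVLA

theorem p_SVL (hSVA : S_SVA) (hSVB : S_SVB) (hSVC : S_SVC) :
    S_SVL := by
  intro c β hc hβ
  obtain ⟨-, h0, c1, c2, p1, h⟩ := hSVA c β hc hβ
  obtain ⟨C, hC⟩ := hSVC c β hc hβ
  have hB := hSVB c β hc hβ
  generalize (rho c β fun _ => 1) = σ at *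
  have k1 : ∀ᶠ m : ℕ in atTop, 0 < (m : ℝ) ^ β ∧ 1 / (m : ℝ) ^ β ≤ sb σ m / c1 := by
    filter_upwards [h, eventually_gt_atTop 0] with m a b
    exact ⟨by positivity, by rw [le_div_iff₀ p1, one_div_mul_eq_div]; exact a.1⟩
  have k2 : ∀ᶠ m : ℕ in atTop, ∀ x y : ℝ, 0 ≤ y → x ≤ C * y / ((m : ℝ) ^ β) ^ 2 →
      x ≤ |C| / c1 ^ 2 * y * sb σ m ^ 2 := by
    filter_upwards [k1] with m a x y hy hx
    have := a.1
    calc x ≤ C * (y * (1 / (m : ℝ) ^ β) ^ 2) := hx.trans_eq (by ring)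
      _ ≤ |C| * (y * (sb σ m / c1) ^ 2) := mul_le_mul (le_abs_self C) (mul_le_mul_of_nonneg_left
          (pow_le_pow_left₀ (by positivity) a.2 2) hy) (by positivity) (abs_nonneg C)
      _ = _ := by ring
  refine ⟨h0, ⟨|c2| / c1, ?_⟩, hB, ?_, ⟨_, (k2.and hC).mono fun m a => a.1 _ _ (by positivity) a.2.1⟩,
    ⟨_, (k2.and hC).mono fun m a => a.1 _ _ (by positivity) a.2.2⟩, fun ε hε => ?_⟩
  · filter_upwards [h, k1] with m a b
    have := b.1
    calc _ ≤ c2 * (1 / (m : ℝ) ^ β) := a.2.2.trans_eq (by ring)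
      _ ≤ |c2| * (sb σ m / c1) := mul_le_mul (le_abs_self c2) b.2 (by positivity) (abs_nonneg c2)
      _ = _ := by ring
  · refine .of_norm_bounded_eventually_nat
      ((summable_nat_rpow.2 (by linarith : 3 - β < -1)).mul_left c2) ?_
    filter_upwards [h, eventually_gt_atTop 0] with m a b
    have : 0 < sb σ m := h0.pos _ Nat.one_le_two_pow
    rw [norm_of_nonneg (mul_nonneg (by positivity) this.le), rpow_sub (by positivity),
      rpow_ofNat]
    exact (mul_le_mul_of_nonneg_left a.2.1 (by positivity)).trans_eq (by ring)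
  · filter_upwards [h, k1, ((tendsto_rpow_mul_exp_neg_mul_atTop_nhds_zero β (ε * log 2)
      (by positivity)).comp tendsto_natCast_atTop_atTop).eventually (gt_mem_nhds p1)] with m a b d
    refine le_trans ?_ a.1
    rw [le_div_iff₀' b.1, rpow_def_of_pos two_pos]
    exact le_trans (le_of_eq (by simp only [Function.comp]; congr 2; ring)) d.le

end Pool.Agent.P.MP_6b977f_mp.RB
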