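import Pool.Agent.P.MP_6b977f_mp.RB.Iface

/-! Step TAY. -/

namespace Pool.Agent.P.MP_6b977f_mp.RB

open Real MeasureTheory ProbabilityTheory Filter Topology Finset Laplacian
open scoped ContDiff ComplexConjugate ENNReal Matrix

namespace TAYA

theorem one {K : Type} [RCLike K] (k : ℕ) (z : K) :
    HasDerivAt (fun z : K => z ^ (k + 1) / (k + 1).factorial) (z ^ k / k.factorial) z := by
  refine ((hasDerivAt_pow (k + 1) z).div_const _).congr_deriv ?_
  have : (k + 1 : K) ≠ 0 := by exact_mod_cast k.succ_ne_zero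
  rw [Nat.factorial_succ, Nat.add_sub_cancel]
  push_cast
  rw [mul_div_mul_left _ _ this]

theorem der (L : ℕ) (z : ℂ) :
    HasDerivAt (fun z : ℂ => Complex.exp z - ∑ k ∈ range (L + 1), z ^ k / k.factorial)
      (Complex.exp z - ∑ k ∈ range L, z ^ k / k.factorial) z := by
  simp only [sum_range_succ' _ L, pow_zero]
  exact (Complex.hasDerivAt_exp z).sub ((HasDerivAt.fun_sum fun k _ => one k z).add_const _)

end TAYA

theorem p_TAY :
    S_TAY := by
  intro L
  induction L with
  | zero => intro y; simp [mul_comm Complex.I]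
  | succ L ih =>
    intro y
    have h1 : ∀ s : ℝ, HasDerivAt (fun s : ℝ => Complex.exp (Complex.I * y * s) -
        ∑ k ∈ range (L + 1), (Complex.I * y * s) ^ k / k.factorial) _ s := fun s =>
      ((TAYA.der L _).comp (s : ℂ) ((hasDerivAt_id (s : ℂ)).const_mul (Complex.I * y))).comp_ofReal
    have h2 : ∀ s : ℝ, HasDerivAt (fun s : ℝ => (|y| * s) ^ (L + 1) / (L + 1).factorial) _ s :=
      fun s => (TAYA.one L _).comp s ((hasDerivAt_id s).const_mul |y|)
    have := image_norm_le_of_norm_deriv_right_le_deriv_boundary (a := 0) (b := 1)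
      (fun s _ => (h1 s).continuousAt.continuousWithinAt) (fun s _ => (h1 s).hasDerivWithinAt)
      (by simp [sum_range_succ']) h2 (fun s hs => ?_) (Set.right_mem_Icc.2 zero_le_one)
    · simpa using this
    · have h3 := ih (y * s)
      rw [abs_mul, abs_of_nonneg hs.1, Complex.ofReal_mul, ← mul_assoc] at h3
      rw [norm_mul, mul_one, mul_one, norm_mul, Complex.norm_I, one_mul, Complex.norm_real,
        norm_eq_abs]
      exact mul_le_mul_of_nonneg_right h3 (abs_nonneg y)

end Pool.Agent.P.MP_6b977f_mp.RB
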