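import Pool.Agent.P.MP_6b977f_mp.RB.Iface

/-! Step TCL. -/

namespace Pool.Agent.P.MP_6b977f_mp.RB

open Real MeasureTheory ProbabilityTheory Filter Topology Finset Laplacian
open scoped ContDiff ComplexConjugate ENNReal Matrix

namespace TCLA

theorem ch_add (ξ : GI) (z w : ℂ) : ch ξ (z + w) = ch ξ z * ch ξ w := by
  rw [ch, ch, ch, ← Complex.exp_add, ← mul_add, ← Complex.ofReal_add, Complex.add_re,
    Complex.add_im]
  congr 3
  ring

theorem ch_conj (ξ : GI) (z : ℂ) : conj (ch ξ z) =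
    Complex.exp (Complex.I * ((-(ξ.re * z.re + ξ.im * z.im) : ℝ) : ℂ)) := by
  rw [ch, ← Complex.exp_conj, map_mul, Complex.conj_I, Complex.conj_ofReal, Complex.ofReal_neg,
    neg_mul_comm]

theorem ch_neg (ξ : GI) (z : ℂ) : ch (-ξ) z = conj (ch ξ z) := by
  rw [ch_conj, ch, Zsqrtd.re_neg, Zsqrtd.im_neg]
  congr 3
  push_cast
  ring

theorem ch_sub (ξ : GI) (z w : ℂ) : ch ξ (z - w) = ch ξ z * conj (ch ξ w) := by
  rw [sub_eq_add_neg, ch_add, ch_conj]
  congr 1
  rw [ch, Complex.neg_re, Complex.neg_im]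
  congr 3
  ring

theorem norm_ch (ξ : GI) (z : ℂ) : ‖ch ξ z‖ = 1 := Complex.norm_exp_I_mul_ofReal _

theorem ab_neg (ξ : GI) : ab (-ξ) = ab ξ := by simp [ab]

end TCLA

open TCLA in
theorem p_TCL (hCLT : S_CLT) (hVAR : S_VAR) (hS4 : S_S4) :
    S_TCL := by
  intro n lam c hn h1 hq hl ι _ s x
  have s4 := fun j => hS4.2 (n j) (hn j)
  have a2 : ∀ j, ∑ ξ ∈ Lam (n j), c j (ab ξ) ^ 2 / 4 = 1 - q1 (n j) (c j) := fun j => by
    rw [(s4 j).2.2.2.2.1 fun η => c j η ^ 2 / 4, q1, ← sum_div]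
    ring
  have v : ∀ w : ℂ, Tendsto (fun j => ∑ ξ ∈ Lam (n j),
      ((c j (ab ξ) ^ 2 / 4 : ℝ) : ℂ) * ch ξ (w / √(lam j))) atTop (𝓝 (EB.J0 w : ℝ)) := fun w => by
    refine hVAR n lam (fun j ξ => c j (ab ξ) ^ 2 / 4) w
      (fun j => Nat.pos_of_ne_zero fun e => hn j (e ▸ IsSquare.zero)) (fun _ _ => by positivity)
      ?_ (fun k hk => ?_) hl
    · simpa [a2, qq] using (hq 1).const_sub 1
    simp only [fun j => (s4 j).2.2.2.2.2.1 (fun η => c j η ^ 2 / 4) k]
    split_ifs with e
    · have h := (hq (k + 1)).sqrt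
      simp only [qq, q3, if_neg (show k + 1 ≠ 0 by omega), if_neg (show k + 1 ≠ 1 by omega),
        if_neg (show k + 1 ≠ 2 by omega), if_pos (show (k + 1) % 2 = 1 by omega),
        show (k + 1) / 2 = k / 2 by omega, sqrt_sq_eq_abs, sqrt_zero] at h
      refine (((tendsto_zero_iff_abs_tendsto_zero _).2 h).ofReal).congr fun j => ?_
      rw [mul_sum]
      exact congrArg _ (sum_congr rfl fun η _ => by ring)
    · exact tendsto_const_nhds
  have key := hCLT (fun j => Lam (n j))
    (fun j ξ => (c j (ab ξ) / 2 : ℝ) * ∑ i, s i * ch ξ (x i / √(lam j)))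
    (fun j ξ => |c j (ab ξ)| / 2) (∑ i, |s i|) (∑ i, ∑ i', s i * s i' * EB.J0 (x i - x i'))
    (fun j => (s4 j).2.2.1)
    (fun j ξ => by simp only [ab_neg, ch_neg, map_mul, map_sum, Complex.conj_ofReal])
    (fun j ξ => ⟨by positivity, by
      rw [norm_mul, Complex.norm_real, Real.norm_eq_abs, abs_div, abs_two, mul_comm]
      exact mul_le_mul_of_nonneg_right (norm_sum_le_of_le _ fun i _ => by
        rw [norm_mul, norm_ch, mul_one, Complex.norm_real, Real.norm_eq_abs]) (by positivity)⟩)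
    (fun j => by
      simp only [div_pow, sq_abs, show (2 : ℝ) ^ 2 = 4 by norm_num, a2]
      exact sub_le_self _ (h1 j))
    (by
      refine (zero_div (4 : ℝ) ▸ (hq 2).div_const 4).congr fun j => ?_
      rw [(s4 j).2.2.2.2.1 fun η => (|c j η| / 2) ^ 4, mul_sum]
      simp only [qq, q2, OfNat.ofNat_ne_zero, OfNat.ofNat_ne_one, if_false, if_true, sum_div]
      exact sum_congr rfl fun η _ => by rw [div_pow, Even.pow_abs (by decide)]; ring)
    (fun l hl => by
      have h := hq (2 * (l - 1))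
      simp only [qq, q4, if_neg (show 2 * (l - 1) ≠ 0 by omega),
        if_neg (show 2 * (l - 1) ≠ 1 by omega), if_neg (show 2 * (l - 1) ≠ 2 by omega),
        if_neg (show ¬2 * (l - 1) % 2 = 1 by omega), show 2 * (l - 1) / 2 + 1 = l by omega] at h
      exact h.congr' ((h.eventually (gt_mem_nhds one_pos)).mono fun j e =>
        min_eq_right ((min_lt_iff.1 e).resolve_left (lt_irrefl _)).le))
    (by
      have h := (Complex.continuous_re.tendsto _).comp (tendsto_finsetSum univ fun i _ =>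
        tendsto_finsetSum univ fun i' _ => (v (x i - x i')).const_mul (s i * s i' : ℂ))
      simp only [← Complex.ofReal_mul, ← Complex.ofReal_sum, Complex.ofReal_re] at h
      refine h.congr fun j => ?_
      rw [Function.comp_apply, ← Complex.ofReal_re (∑ _ ∈ Lam _, _), Complex.ofReal_sum]
      simp only [mul_sum (Lam _), ← sum_comm (s := Lam _)]
      refine congrArg _ (sum_congr rfl fun ξ _ => ?_)
      rw [Complex.ofReal_pow, ← Complex.mul_conj', map_mul, map_sum, mul_mul_mul_comm, sum_mul_sum,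
        mul_sum]
      refine sum_congr rfl fun i _ => ?_
      rw [mul_sum]
      refine sum_congr rfl fun i' _ => ?_
      rw [sub_div, ch_sub, map_mul, Complex.conj_ofReal, Complex.conj_ofReal]
      push_cast
      ring)
  refine key.congr fun j => ?_
  unfold cfF
  congr 1
  ext z
  congr 3
  simp only [Un, tp, ← Complex.re_ofReal_mul, ← Complex.re_sum, ch_add, mul_sum, sum_mul]
  rw [sum_comm]
  exact congrArg _ (sum_congr rfl fun i _ => sum_congr rfl fun ξ _ => by ring)

end Pool.Agent.P.MP_6b977f_mp.RB
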