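import Pool.Agent.P.MP_6b977f_mp.RB.Iface

/-! Step TOR. -/

namespace Pool.Agent.P.MP_6b977f_mp.RB

open Real MeasureTheory ProbabilityTheory Filter Topology Finset Laplacian
open scoped ContDiff ComplexConjugate ENNReal Matrix

namespace TORA

lemma cont (ξ : GI) : Continuous (ch ξ) := by
  unfold ch
  fun_prop

lemma add (ξ η : GI) (z : ℂ) : ch (ξ + η) z = ch ξ z * ch η z := by
  simp only [ch, ← Complex.exp_add, Zsqrtd.re_add, Zsqrtd.im_add]
  congr 1
  push_cast
  ring

lemma zero (z : ℂ) : ch 0 z = 1 := by simp [ch]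

lemma neg (ξ : GI) (z : ℂ) : ch (-ξ) z = conj (ch ξ z) := by
  simp only [ch, ← Complex.exp_conj, Zsqrtd.re_neg, Zsqrtd.im_neg, map_mul, Complex.conj_I,
    Complex.conj_ofReal]
  congr 1
  push_cast
  ring

lemma prod {ι : Type} (s : Finset ι) (t : ι → GI) (z : ℂ) :
    ∏ i ∈ s, ch (t i) z = ch (∑ i ∈ s, t i) z := by
  classical
  induction s using Finset.induction_on with
  | empty => simp [zero]
  | insert i s hi ih => rw [prod_insert hi, sum_insert hi, add, ih]

lemma line {a : ℤ} (h : a ≠ 0) : ∫ x in Set.Ioo (-π) π, Complex.exp (Complex.I * a * x) = 0 := by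
  rw [← integral_Ioc_eq_integral_Ioo, ← intervalIntegral.integral_of_le (by linarith [pi_pos]),
    integral_exp_mul_complex (by simpa using h), div_eq_zero_iff, sub_eq_zero]
  refine .inl (Complex.exp_eq_exp_iff_exists_int.2 ⟨a, ?_⟩)
  push_cast
  ring

lemma avg (ξ : GI) : ∫ z in TT, ch ξ z = if ξ = 0 then ((4 * π ^ 2 : ℝ) : ℂ) else 0 := by
  split_ifs with h
  · simp [h, zero, TT_vol]
  have e : ∀ p : ℝ × ℝ, ch ξ ⟨p.1, p.2⟩ =
      Complex.exp (Complex.I * ξ.re * p.1) * Complex.exp (Complex.I * ξ.im * p.2) := fun p => by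
    rw [ch, ← Complex.exp_add]
    congr 1
    push_cast
    ring
  rw [TT, rect_integral]
  simp only [e]
  rw [integral_prod_mul (fun x : ℝ => Complex.exp (Complex.I * ξ.re * x))
    fun x : ℝ => Complex.exp (Complex.I * ξ.im * x), mul_eq_zero]
  by_contra e
  rw [not_or] at e
  exact h (Zsqrtd.ext (by_contra fun a => e.1 (line a)) (by_contra fun a => e.2 (line a)))

end TORA

open TORA in
theorem p_TOR :
    S_TOR := by
  refine fun S y => ⟨continuous_finsetSum _ fun ξ _ => continuous_const.mul (cont ξ),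
    fun h h' z => Complex.conj_eq_iff_im.1 ?_, fun m => ?_⟩
  · rw [tp, map_sum]
    exact sum_nbij' Neg.neg Neg.neg (fun ξ a => (h ξ a).1) (fun ξ a => (h ξ a).1) (by simp)
      (by simp) fun ξ _ => by rw [map_mul, h', neg]
  have e : ∀ z, tp S y z ^ m = ∑ t ∈ Tup S m, (∏ i, y (t i)) * ch (∑ i, t i) z := fun z => by
    rw [← Fin.prod_const, tp, prod_univ_sum]
    exact sum_congr rfl fun t _ => by rw [prod_mul_distrib, prod]
  simp only [e]
  rw [setAverage_eq, integral_finsetSum _ fun t _ => (((cont _).continuousOn.integrableOn_compact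
    TT_bdd.isCompact_closure).mono_set subset_closure).const_mul _, TT_vol, sum_filter, smul_sum]
  refine sum_congr rfl fun t _ => ?_
  rw [integral_const_mul, avg]
  split_ifs
  · rw [mul_comm (∏ i, _), Complex.real_smul, ← mul_assoc, ← Complex.ofReal_mul,
      inv_mul_cancel₀ (by positivity), Complex.ofReal_one, one_mul]
  · simp

end Pool.Agent.P.MP_6b977f_mp.RB
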