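import Pool.Agent.P.MP_6b977f_mp.RB.Iface

/-! Step TRC. -/

namespace Pool.Agent.P.MP_6b977f_mp.RB

open Real MeasureTheory ProbabilityTheory Filter Topology Finset Laplacian
open scoped ContDiff ComplexConjugate ENNReal Matrix

namespace TRCA

lemma cos_mul (a b : ℕ) (x : ℝ) :
    cos (a * x) * cos (b * x) = (cos (Nat.dist a b * x) + cos ((a + b : ℕ) * x)) / 2 := by
  have h : cos (Nat.dist a b * x) = cos (a * x - b * x) := by
    rcases le_total a b with h | h
    · rw [Nat.dist_eq_sub_of_le h, Nat.cast_sub h, ← cos_neg]; congr 1; ring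
    · rw [Nat.dist_eq_sub_of_le_right h, Nat.cast_sub h, sub_mul]
  rw [h, Nat.cast_add, add_mul, cos_add, cos_sub]; ring

/-- Mean of a cosine over a short interval. -/
noncomputable def J (b : ℕ) (ε : ℝ) : ℝ := ε⁻¹ * ∫ y in (0 : ℝ)..ε, cos (b * y)

lemma J_lim (b : ℕ) : Tendsto (J b) (𝓝[>] 0) (𝓝 1) := by
  have hc : Continuous fun y : ℝ => cos (b * y) := by fun_prop
  have := ((hc.integral_hasStrictDerivAt 0 0).hasDerivAt).tendsto_slope_zero_right
  unfold J
  simpa using this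

lemma J_le (b : ℕ) {ε : ℝ} (h : 0 < ε) : ‖J b ε‖ ≤ 1 := by
  have := intervalIntegral.norm_integral_le_of_norm_le_const (a := 0) (b := ε) (C := 1)
    (f := fun y : ℝ => cos (b * y)) fun y _ => abs_cos_le_one _
  rw [one_mul, sub_zero, abs_of_pos h] at this
  rw [J, norm_mul, norm_inv, Real.norm_of_nonneg h.le, inv_mul_le_iff₀ h, mul_one]
  exact this

lemma summ (hPHI : S_PHI) {c : II → ℝ} (hc : H1 c) (a : ℕ) : Summable fun b => ‖c (a, b)‖ := by
  have h1 := hc.comp_injective (Prod.mk_right_injective a)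
  have h2 : Summable fun b => 1 / (1 + (dd (a, b) : ℝ)) :=
    summable_of_sum_le (fun b => by positivity) (hPHI.2.1 a)
  refine .of_nonneg_of_le (fun _ => norm_nonneg _) (fun b => ?_) (h1.add h2)
  have hd : (0 : ℝ) < 1 + dd (a, b) := by positivity
  simp only [Function.comp]
  rw [← sq_abs (c _), Real.norm_eq_abs, ← mul_le_mul_iff_right₀ hd, mul_add, mul_one_div_cancel hd.ne']
  nlinarith [sq_nonneg ((1 + (dd (a, b) : ℝ)) * |c (a, b)| - 1), mul_nonneg hd.le (abs_nonneg (c (a, b)))]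

lemma hS (ε : ℝ) : MeasurableSet {z : ℂ | z.im < ε} :=
  (isOpen_lt Complex.continuous_im continuous_const).measurableSet

lemma strip (hCB0 : S_CB0) (hCB2 : S_CB2) {u : ℂ → ℝ} (hu : MemLp u 2 (volume.restrict sqr))
    (a : ℕ) {ε : ℝ} (h0 : 0 < ε) (h1 : ε < π) :
    ε⁻¹ * ∫ z in sqr ∩ {z | z.im < ε}, u z * cos (a * z.re) =
      π / nn a * ∑' b, nn b * co u (a, b) * J b ε := by
  have hm : MemLp ({z : ℂ | z.im < ε}.indicator fun z => cos (a * z.re)) 2 (volume.restrict sqr) :=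
    (hCB0.2.2.2.1 _ (by fun_prop)).indicator (hS ε)
  have h := hCB2.1 u _ hu hm
  have e : sqr ∩ {z | z.im < ε} = {z : ℂ | z.re ∈ Set.Ioo 0 π ∧ z.im ∈ Set.Ioo 0 ε} :=
    Set.ext fun z => ⟨fun h => ⟨h.1.1, h.1.2.1, h.2⟩,
      fun h => ⟨⟨h.1, h.2.1, h.2.2.trans h1⟩, h.2.2⟩⟩
  have na := (nn_pos a).ne'
  have hco : ∀ ξ : II, co ({z : ℂ | z.im < ε}.indicator fun z => cos (a * z.re)) ξ =
      π⁻¹ * ((nn a)⁻¹ * (if a = ξ.1 then 1 else 0) * (nn ξ.2 * (ε * J ξ.2 ε))) := fun ξ => by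
    rw [co, ← hCB0.1, J, mul_inv_cancel_left₀ h0.ne', intervalIntegral.integral_of_le h0.le,
      integral_Ioc_eq_integral_Ioo, ← integral_const_mul (nn a)⁻¹, ← integral_const_mul (nn ξ.2),
      ← rect_mul, ← e, ← setIntegral_indicator (hS ε)]
    congr 2
    funext z
    rw [← Set.indicator_mul_left]
    congr 1
    funext z
    simp only [ee, cc]
    field_simp
  simp only [hco, ← Set.indicator_mul_right] at h
  rw [setIntegral_indicator (hS ε), ← (Prod.mk_right_injective a).hasSum_iff] at h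
  · have h2 := (h.mul_left (nn a * π / ε)).tsum_eq
    have hp := pi_pos.ne'
    have : ∑' b, nn b * co u (a, b) * J b ε = nn a * π / ε *
        ((∫ z in sqr ∩ {z | z.im < ε}, u z * cos (a * z.re)) / π ^ 2) := by
      rw [← h2]
      refine tsum_congr fun b => ?_
      simp only [Function.comp, if_true]
      field_simp
    rw [this]
    field_simp
  · rintro ⟨a', b⟩ hξ
    rw [if_neg fun h' : a = a' => hξ ⟨b, by rw [h']⟩]
    simp

lemma one (hCB0 : S_CB0) (hCB2 : S_CB2) (hPHI : S_PHI) {u : ℂ → ℝ}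
    (hu : MemLp u 2 (volume.restrict sqr)) (hc : H1 (co u)) (a : ℕ) :
    Tr u (fun x => cos (a * x)) (tc (co u) a) := by
  have h : Tendsto (fun ε => ∑' b, nn b * co u (a, b) * J b ε) (𝓝[>] 0)
      (𝓝 (∑' b, nn b * co u (a, b))) := by
    refine tendsto_tsum_of_dominated_convergence (summ hPHI hc a)
      (fun b => by simpa using (J_lim b).const_mul (nn b * co u (a, b))) ?_
    filter_upwards [self_mem_nhdsWithin] with ε hε b
    rw [norm_mul, norm_mul, Real.norm_of_nonneg (nn_pos b).le]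
    exact (mul_le_of_le_one_right (by have := nn_pos b; positivity) (J_le b hε)).trans
      (mul_le_of_le_one_left (norm_nonneg _) (nn_le b))
  refine (h.const_mul (π / nn a)).congr' ?_
  filter_upwards [Ioo_mem_nhdsGT pi_pos] with ε hε
  exact (strip hCB0 hCB2 hu a hε.1 hε.2).symm

end TRCA

open TRCA in
theorem p_TRC (hCB0 : S_CB0) (hCB2 : S_CB2) (hPHI : S_PHI) :
    S_TRC := by
  intro u hu hc k a b
  have hi : ∀ (a : ℕ) (ε : ℝ), IntegrableOn (fun z : ℂ => u z * cos (a * z.re))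
      (sqr ∩ {z | z.im < ε}) := fun a ε =>
    IntegrableOn.mono_set (hu.integrable_mul (hCB0.2.2.2.1 (fun z => cos (a * z.re)) (by fun_prop)))
      Set.inter_subset_left
  refine (((one hCB0 hCB2 hPHI hu hc (Nat.dist k a)).add
    (one hCB0 hCB2 hPHI hu hc (k + a))).div_const 2).congr fun ε => ?_
  rw [← mul_add, ← integral_add (hi _ _) (hi _ _), mul_div_assoc, ← integral_div]
  congr 2
  funext z
  simp only [cc, Complex.ofReal_re, Complex.ofReal_im, mul_zero, cos_zero, mul_one, cos_mul]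
  ring

end Pool.Agent.P.MP_6b977f_mp.RB
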