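import Pool.Agent.P.MP_6b977f_mp.RB.Iface

/-! Step UB. -/

namespace Pool.Agent.P.MP_6b977f_mp.RB

open Real MeasureTheory ProbabilityTheory Filter Topology Finset Laplacian
open scoped ContDiff ComplexConjugate ENNReal Matrix

namespace UBA

lemma inj {A B : Type} [DecidableEq B] {s : Finset A} {s' : Finset B} (φ : A → B) {f : A → ℝ}
    {g : B → ℝ} (h0 : ∀ b, 0 ≤ g b) (h1 : Set.InjOn φ s) (h2 : ∀ a ∈ s, φ a ∈ s' ∧ f a = g (φ a)) :
    ∑ a ∈ s, f a ≤ ∑ b ∈ s', g b := by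
  rw [sum_congr rfl fun a ha => (h2 a ha).2, ← sum_image h1]
  exact sum_le_sum_of_subset_of_nonneg (image_subset_iff.2 fun a ha => (h2 a ha).1)
    fun b _ _ => h0 b

/-- The weight of the tuples with sum zero. -/
noncomputable def Z (S : Finset GI) (y : GI → ℝ) (k : ℕ) : ℝ :=
  ∑ t ∈ (Tup S k).filter fun t => ∑ i, t i = 0, ∏ i, y (t i)

variable {S : Finset GI} {y : GI → ℝ} {k m : ℕ}

lemma split (hM : S_MINS) (hy : ∀ ξ, 0 ≤ y ξ) (U : Finset (Fin k)) {s : Finset (Fin k → GI)}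
    (hs : ∀ t ∈ s, (∀ i, t i ∈ S) ∧ ∑ i, t i = 0 ∧ MinOn U t) :
    ∑ t ∈ s, ∏ i, y (t i) ≤ rhoR S #U y * Z S y #Uᶜ := by
  classical
  let e := finSumEquivOfFinset (s := U) rfl rfl
  rw [rhoR, Z, sum_mul_sum, ← sum_product']
  refine inj (fun t => (fun i => t (e (.inl i)), fun i => t (e (.inr i))))
    (fun b => mul_nonneg (prod_nonneg fun _ _ => hy _) (prod_nonneg fun _ _ => hy _))
    (fun a _ b _ h => funext (e.surjective.forall.2 fun i => ?_)) fun t ht => ?_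
  · rcases i with i | i
    · exact congrFun (congrArg Prod.fst h) i
    · exact congrFun (congrArg Prod.snd h) i
  · obtain ⟨h1, h2, h3⟩ := hs t ht
    rw [← map_orderEmbOfFin_univ U rfl, (hM _ t).2.2] at h3
    rw [← e.sum_comp, Fintype.sum_sum_type] at h2
    refine ⟨mem_product.2 ⟨mem_Rel.2 ⟨fun _ => h1 _, h3⟩, mem_filter.2 ⟨mem_Tup.2 fun _ => h1 _,
      ?_⟩⟩, by rw [← e.prod_comp, Fintype.prod_sum_type]⟩
    have h4 : ∑ i, t (e (.inl i)) = 0 := h3.2.1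
    rwa [h4, zero_add] at h2

lemma cover (hM : S_MINS) (hy : ∀ ξ, 0 ≤ y ξ) (a : ℕ) {B : ℝ} (h0 : 0 ≤ B)
    {s : Finset (Fin k → GI)}
    (hs : ∀ t ∈ s, (∀ i, t i ∈ S) ∧ ∑ i, t i = 0 ∧ ∃ U, a ≤ #U ∧ MinOn U t)
    (hB : ∀ l j, a ≤ l → l + j = k → rhoR S l y * Z S y j ≤ B) :
    ∑ t ∈ s, ∏ i, y (t i) ≤ 2 ^ k * B := by
  classical
  have p : ∀ t : Fin k → GI, 0 ≤ ∏ i, y (t i) := fun t => prod_nonneg fun _ _ => hy _
  calc _ ≤ ∑ t ∈ s, ∑ U : Finset (Fin k), if a ≤ #U ∧ MinOn U t then ∏ i, y (t i) else 0 :=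
        sum_le_sum fun t ht => by
          obtain ⟨U, h⟩ := (hs t ht).2.2
          exact (if_pos h).ge.trans (single_le_sum
            (f := fun U => if a ≤ #U ∧ MinOn U t then ∏ i, y (t i) else 0)
            (fun U _ => ite_nonneg (p t) le_rfl) (mem_univ U))
    _ ≤ ∑ _U : Finset (Fin k), B := by
        rw [sum_comm]
        refine sum_le_sum fun U _ => ?_
        by_cases h : a ≤ #U
        · rw [← sum_filter]
          refine (split hM hy U fun t ht => ?_).trans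
            (hB _ _ h (by rw [card_add_card_compl, Fintype.card_fin]))
          obtain ⟨h1, h2⟩ := mem_filter.1 ht
          exact ⟨(hs t h1).1, (hs t h1).2.1, h2.2⟩
        · simpa [h] using h0
    _ = _ := by simp

lemma rho_nonneg (hy : ∀ ξ, 0 ≤ y ξ) (l : ℕ) : 0 ≤ rhoR S l y :=
  sum_nonneg fun _ _ => prod_nonneg fun _ _ => hy _

lemma z_nonneg (hy : ∀ ξ, 0 ≤ y ξ) (l : ℕ) : 0 ≤ Z S y l :=
  sum_nonneg fun _ _ => prod_nonneg fun _ _ => hy _

lemma rho1 (h : 0 ∉ S) : rhoR S 1 y = 0 := sum_eq_zero fun t ht => by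
  obtain ⟨a, -, b, -⟩ := mem_Rel.1 ht
  rw [Fin.sum_univ_one] at b
  exact absurd (b ▸ a 0) h

lemma rho2 (h : ∑ ξ ∈ S, y ξ ^ 2 ≤ 1) : rhoR S 2 y ≤ 1 := by
  have e : ∀ t ∈ Rel S 2, t 0 + t 1 = 0 := fun t ht => Fin.sum_univ_two t ▸ (mem_Rel.1 ht).2.2.1
  have a : ∀ i, ∑ t ∈ Rel S 2, y (t i) ^ 2 ≤ 1 := fun i =>
    (inj (fun t => t i) (g := fun ξ => y ξ ^ 2) (fun _ => sq_nonneg _) (fun a ha b hb h => ?_)
      fun t ht => ⟨(mem_Rel.1 ht).1 i, rfl⟩).trans h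
  · have b : rhoR S 2 y ≤ ∑ t ∈ Rel S 2, (y (t 0) ^ 2 + y (t 1) ^ 2) / 2 :=
      sum_le_sum fun t _ => by
        rw [Fin.prod_univ_two]
        nlinarith [sq_nonneg (y (t 0) - y (t 1))]
    rw [← sum_div, sum_add_distrib] at b
    linarith [a 0, a 1]
  · have h1 := (e a ha).trans (e b hb).symm
    have h2 : a 0 = b 0 ↔ a 1 = b 1 :=
      ⟨fun h => add_left_cancel (h ▸ h1), fun h => add_right_cancel (h ▸ h1)⟩
    have h3 : a 0 = b 0 := by
      revert h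
      exact Fin.forall_fin_two (p := fun i => a i = b i → a 0 = b 0) |>.2 ⟨id, h2.2⟩ i
    exact funext (Fin.forall_fin_two.2 ⟨h3, h2.1 h3⟩)

lemma z_le (hM : S_MINS) (hy : ∀ ξ, 0 ≤ y ξ) (h : ∀ l, 1 ≤ l → l ≤ m → rhoR S l y ≤ 1) (k : ℕ) :
    k ≤ m → Z S y k ≤ (2 ^ m) ^ k := by
  induction k using Nat.strong_induction_on with
  | _ k ih =>
    intro hk
    rcases k with - | k
    · simp [Z, Tup]
    have p : (1 : ℝ) ≤ 2 ^ m := one_le_pow₀ one_le_two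
    refine (cover (S := S) hM hy 1 (B := (2 ^ m) ^ k) (by positivity) (fun t ht => ?_)
      fun l j a b => ?_).trans ?_
    · obtain ⟨a, b⟩ := mem_filter.1 ht
      obtain ⟨U, -, c⟩ := (hM _ t).1 univ univ_nonempty b
      exact ⟨mem_Tup.1 a, b, U, c.1.card_pos, c⟩
    · exact (mul_le_of_le_one_left (z_nonneg hy j) (h l a (by omega))).trans
        ((ih j (by omega) (by omega)).trans (pow_le_pow_right₀ p (by omega)))
    · rw [pow_succ' (2 ^ m)]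
      exact mul_le_mul_of_nonneg_right (pow_le_pow_right₀ one_le_two hk) (by positivity)

end UBA

theorem p_UB (hMINS : S_MINS) :
    S_UB := by
  classical
  refine fun m => ⟨2 ^ m * (2 ^ m) ^ m, fun S y η h0 hy h2 h1 h3 p => ?_⟩
  have h : ∀ l, 1 ≤ l → l ≤ m → rhoR S l y ≤ 1 := fun l a b => by
    rcases (show l = 1 ∨ l = 2 ∨ 3 ≤ l by omega) with rfl | rfl | c
    · rw [UBA.rho1 h0]
      exact zero_le_one
    · exact UBA.rho2 h2
    · exact (h3 l (mem_Icc.2 ⟨c, b⟩)).trans h1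
  rw [mul_assoc, mul_comm _ η]
  refine UBA.cover (S := S) hMINS hy 3 (by positivity) (fun t ht => ?_) fun l j a b => ?_
  · obtain ⟨a, b, c⟩ := mem_filter.1 ht
    obtain ⟨U, -, d⟩ := (hMINS _ t).2.1 univ (fun i _ e => h0 (e ▸ mem_Tup.1 a i)) b c
    exact ⟨mem_Tup.1 a, b, U, d⟩
  · exact mul_le_mul (h3 l (mem_Icc.2 ⟨a, by omega⟩)) ((UBA.z_le hMINS hy h j (by omega)).trans
      (pow_le_pow_right₀ (one_le_pow₀ one_le_two) (by omega))) (UBA.z_nonneg hy j) p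

end Pool.Agent.P.MP_6b977f_mp.RB
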