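import Pool.Agent.P.MP_6b977f_mp.RB.Iface

/-! Step VARB. -/

namespace Pool.Agent.P.MP_6b977f_mp.RB

open Real MeasureTheory ProbabilityTheory Filter Topology Finset Laplacian
open scoped ContDiff ComplexConjugate ENNReal Matrix

namespace VARBA

theorem fac {f : (ℕ → ℝ) → ℝ} {K : Finset ℕ} (hf : Measurable f) (h : DependsOn f K) :
    ∃ F : (K → ℝ) → ℝ, Measurable F ∧ f = F ∘ fun g (i : K) => g i :=
  ⟨fun y => f fun i => if h : i ∈ K then y ⟨i, h⟩ else 0,
    hf.comp (measurable_pi_lambda _ fun i => by split_ifs <;> fun_prop),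
    funext fun g => h fun i hi => by simp [mem_coe.1 hi]⟩

end VARBA

theorem p_VARB :
    S_VARB := by
  intro ν _ N ζ K ρ M a ha hm hd hb hM
  set P := Measure.infinitePi fun _ : ℕ => ν with hP
  have hL : ∀ n ∈ N, MemLp (ζ n) 2 P := fun n hn =>
    .of_bound (hm n hn).aestronglyMeasurable ρ (ae_of_all _ fun g => by
      rw [norm_of_nonneg (hb n hn g).1]; exact (hb n hn g).2)
  have c1 : ∀ n ∈ N, ∀ n' ∈ N, cov[ζ n, ζ n'; P] ≤
      if ¬Disjoint (K n) (K n') then ρ ^ 2 else 0 := fun n hn n' hn' => by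
    split_ifs with h
    · obtain ⟨F, f1, f2⟩ := VARBA.fac (hm n hn) (hd n hn)
      obtain ⟨F', f3, f4⟩ := VARBA.fac (hm n' hn') (hd n' hn')
      refine (IndepFun.covariance_eq_zero ?_ (hL n hn) (hL n' hn')).le
      rw [f2, f4]
      exact ((iIndepFun_infinitePi (X := fun _ x => x) fun _ => measurable_id).indepFun_finset
        _ _ h fun i => measurable_pi_apply i).comp f1 f3
    · rw [covariance_eq_sub (hL n hn) (hL n' hn')]
      refine (sub_le_self _ (mul_nonneg (integral_nonneg fun g => (hb n hn g).1)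
        (integral_nonneg fun g => (hb n' hn' g).1))).trans ?_
      simpa using integral_mono ((hL n hn).integrable_mul (hL n' hn')) (integrable_const (ρ ^ 2))
        fun g => by
          rw [sq]
          exact mul_le_mul (hb n hn g).2 (hb n' hn' g).2 (hb n' hn' g).1
            ((hb n hn g).1.trans (hb n hn g).2)
  have c2 : Var[fun g => ∑ n ∈ N, ζ n g; P] ≤ N.card * M * ρ ^ 2 := by
    rw [variance_fun_sum' hL, mul_assoc, ← nsmul_eq_mul]
    refine sum_le_card_nsmul _ _ _ fun n hn => (sum_le_sum (c1 n hn)).trans ?_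
    rw [← sum_filter, sum_const, nsmul_eq_mul]
    exact mul_le_mul_of_nonneg_right (hM n hn) (sq_nonneg _)
  refine le_trans (measure_mono fun g hg => ?_) ((meas_ge_le_variance_div_sq
    (memLp_finsetSum N hL) ha).trans (ENNReal.ofReal_le_ofReal (by gcongr)))
  rw [Set.mem_ofPred_eq, integral_finsetSum N fun n hn => (hL n hn).integrable one_le_two]
  exact (le_sub_iff_add_le'.2 hg).trans (le_abs_self _)

end Pool.Agent.P.MP_6b977f_mp.RB
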