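import Pool.Agent.P.MP_6b977f_mp.RB.TLAT

/-! Step W2: pairs of Gaussian integers of equal norm, grouped by the reflection exchanging them;
the directions of the lattice points on circles are equidistributed in mean square. -/

namespace Pool.Agent.P.MP_6b977f_mp.RB

namespace Ar

open Finset ComplexConjugate

/-- The `m`-th power of the direction of `z`. -/
noncomputable def chi (m : ℕ) (z : GI) : ℂ := ((z : ℂ) / ‖(z : ℂ)‖) ^ m

theorem chi_mul (m : ℕ) (z w : GI) : chi m (z * w) = chi m z * chi m w := by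
  simp only [chi, map_mul, norm_mul, ← mul_pow]; push_cast; rw [mul_div_mul_comm]

theorem chi_star (m : ℕ) (z : GI) : chi m (star z) = conj (chi m z) := by
  simp [chi, GaussianInt.toComplex_star]

theorem chi_sq (m : ℕ) (z : GI) : chi m z * chi m z = chi (2 * m) z := by
  rw [chi, chi, ← pow_add, two_mul]

theorem coe_ne {z : GI} (h : z ≠ 0) : (z : ℂ) ≠ 0 := by simpa using h

theorem norm_chi (m : ℕ) {z : GI} (h : z ≠ 0) : ‖chi m z‖ = 1 := by
  simp [chi, div_self (norm_ne_zero_iff.2 (coe_ne h))]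

theorem gen (ω : ℂ) (hω : ω * conj ω = 1) (ex : ∃ z z' : GI, z ≠ 0 ∧ (z' : ℂ) = ω * conj (z : ℂ)) :
    ∃ α u : GI, α ≠ 0 ∧ nm u = 1 ∧ ((u * α : GI) : ℂ) = ω * conj (α : ℂ) ∧
      ∀ z z' : GI, (z' : ℂ) = ω * conj (z : ℂ) → α ∣ z := by
  let I : Ideal GI :=
    { carrier := {z | ∃ z' : GI, (z' : ℂ) = ω * conj (z : ℂ)}
      add_mem' := by
        rintro a b ⟨a', ha⟩ ⟨b', hb⟩
        exact ⟨a' + b', by simp [ha, hb, mul_add]⟩
      zero_mem' := ⟨0, by simp⟩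
      smul_mem' := by
        rintro c a ⟨a', ha⟩
        exact ⟨star c * a', by simp [GaussianInt.toComplex_star, ha]; ring⟩ }
  obtain ⟨α, hα⟩ := (IsPrincipalIdealRing.principal I).principal
  have mem : ∀ z : GI, (∃ z' : GI, (z' : ℂ) = ω * conj (z : ℂ)) ↔ α ∣ z := fun z => by
    rw [← Ideal.mem_span_singleton]
    exact (SetLike.ext_iff.1 hα z)
  obtain ⟨z, z', h0, hz⟩ := ex
  have a0 : α ≠ 0 := by
    rintro rfl
    exact h0 (zero_dvd_iff.1 ((mem z).1 ⟨z', hz⟩))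
  obtain ⟨α', h'⟩ := (mem α).2 dvd_rfl
  obtain ⟨u, rfl⟩ := (mem α').1 ⟨α, by
    rw [h', map_mul, Complex.conj_conj, ← mul_assoc, hω, one_mul]⟩
  refine ⟨α, u, a0, ?_, by rw [mul_comm u, h'], fun z z' h => (mem z).1 ⟨z', h⟩⟩
  have h1 : ‖ω‖ = 1 := by
    have := congrArg norm hω
    rw [norm_mul, Complex.norm_conj, norm_one] at this
    nlinarith [norm_nonneg ω]
  have h2 := congrArg norm h'
  rw [map_mul, norm_mul, norm_mul, h1, Complex.norm_conj, one_mul,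
    mul_eq_left₀ (norm_ne_zero_iff.2 (coe_ne a0))] at h2
  have := norm_sq u
  rw [h2] at this
  exact_mod_cast this.symm

theorem pair (m X : ℕ) (W : ℕ → ℝ) :
    ∑ n ∈ Icc 1 X, W n * ‖∑ z ∈ circ n, chi m z‖ ^ 2 ≤ 4 * ∑ α ∈ disc' X,
      ‖∑ γ ∈ disc' (X / nm α), (W (nm α * nm γ) : ℂ) * chi (2 * m) γ‖ := by
  classical
  set P : Finset (GI × GI) := {p ∈ disc' X ×ˢ disc' X | nm p.2 = nm p.1} with hP
  set F : GI × GI → ℂ := fun p => W (nm p.1) * (chi m p.1 * conj (chi m p.2)) with hF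
  set A : GI → ℝ := fun α => ‖∑ γ ∈ disc' (X / nm α), (W (nm α * nm γ) : ℂ) * chi (2 * m) γ‖
  let om : GI × GI → ℂ := fun p => (p.2 : ℂ) / conj (p.1 : ℂ)
  have memP : ∀ p, p ∈ P ↔ p.1 ≠ 0 ∧ nm p.1 ≤ X ∧ nm p.2 = nm p.1 := fun p => by
    simp only [hP, mem_filter, mem_product, mem_disc', ne_eq, ← nm_eq_zero]; omega
  have omP : ∀ {p : GI × GI} {ω}, p.1 ≠ 0 → (om p = ω ↔ (p.2 : ℂ) = ω * conj (p.1 : ℂ)) :=
    fun h => div_eq_iff (by simpa using h)
  have e1 : ((∑ n ∈ Icc 1 X, W n * ‖∑ z ∈ circ n, chi m z‖ ^ 2 : ℝ) : ℂ) = ∑ p ∈ P, F p := by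
    rw [hP, sum_filter, sum_product, sum_disc']
    push_cast
    refine sum_congr rfl fun n hn => ?_
    rw [← Complex.mul_conj', map_sum, sum_mul_sum, mul_sum]
    refine sum_congr rfl fun z hz => ?_
    rw [← sum_filter, mul_sum]
    refine sum_congr ?_ fun w _ => by rw [hF, ← mem_circ.1 hz]
    ext w
    simp only [mem_filter, mem_disc', mem_circ, mem_Icc, ne_eq, ← nm_eq_zero] at hn hz ⊢
    omega
  have key : ∀ ω ∈ P.image om, ∃ q ∈ disc' X ×ˢ circ 1, ((q.2 * q.1 : GI) : ℂ) = ω * conj (q.1 : ℂ) ∧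
      ‖∑ p ∈ P with om p = ω, F p‖ = A q.1 := by
    intro ω hω
    obtain ⟨p, hp, rfl⟩ := mem_image.1 hω
    obtain ⟨p1, p2, p3⟩ := (memP p).1 hp
    have n1 : om p * conj (om p) = 1 := by
      rw [Complex.mul_conj', Complex.norm_div, Complex.norm_conj, norm_eq, norm_eq, p3, ← norm_eq,
        div_self (norm_ne_zero_iff.2 (coe_ne p1))]
      simp
    obtain ⟨α, u, a0, u1, hu, hd⟩ := gen _ n1 ⟨p.1, p.2, p1, (omP p1).1 rfl⟩
    have u0 : u ≠ 0 := by rw [Ne, ← nm_eq_zero]; omega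
    have na : 0 < nm α := Nat.pos_of_ne_zero (mt nm_eq_zero.1 a0)
    refine ⟨(α, u), mem_product.2 ⟨mem_disc'.2 ⟨a0, ?_⟩, mem_circ.2 u1⟩, hu, ?_⟩
    · obtain ⟨γ, h⟩ := hd _ _ ((omP p1).1 rfl)
      have : 0 < nm γ := Nat.pos_of_ne_zero fun k => p1 (by rw [h, nm_eq_zero.1 k, mul_zero])
      rw [h, nm_mul] at p2
      exact (Nat.le_mul_of_pos_right _ this).trans p2
    have : ∑ q ∈ P with om q = om p, F q = chi m α * conj (chi m (u * α)) *
        ∑ γ ∈ disc' (X / nm α), (W (nm α * nm γ) : ℂ) * chi (2 * m) γ := by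
      rw [mul_sum]
      symm
      refine sum_bij (fun γ _ => (α * γ, u * α * star γ)) (fun γ hγ => ?_)
        (fun a _ b _ h => mul_left_cancel₀ a0 (Prod.ext_iff.1 h).1) (fun q hq => ?_) fun γ _ => ?_
      · obtain ⟨g0, g1⟩ := mem_disc'.1 hγ
        refine mem_filter.2 ⟨(memP _).2 ⟨mul_ne_zero a0 g0, ?_, by simp [nm_mul, nm_star, u1]⟩,
          (omP (mul_ne_zero a0 g0)).2 ?_⟩
        · rw [nm_mul, mul_comm]; exact (Nat.le_div_iff_mul_le na).1 g1
        · simp only [map_mul (GaussianInt.toComplex) (u * α), hu, GaussianInt.toComplex_star]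
          simp [mul_assoc]
      · obtain ⟨q0, q4⟩ := mem_filter.1 hq
        obtain ⟨q1, q2, q3⟩ := (memP q).1 q0
        have q5 := (omP q1).1 q4
        obtain ⟨γ, h⟩ := hd _ _ q5
        refine ⟨γ, mem_disc'.2 ⟨fun k => q1 (by rw [h, k, mul_zero]), ?_⟩, Prod.ext h.symm ?_⟩
        · rw [Nat.le_div_iff_mul_le na, mul_comm, ← nm_mul, ← h]; exact q2
        · apply GaussianInt.toComplex_injective
          simp only [map_mul (GaussianInt.toComplex) (u * α), hu, GaussianInt.toComplex_star, q5, h]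
          simp [mul_assoc]
      · simp only [hF, chi_mul m _ (star γ), chi_mul m α γ, chi_star, nm_mul, map_mul,
          Complex.conj_conj, ← chi_sq]
        ring
    rw [this, norm_mul, norm_mul, Complex.norm_conj, norm_chi m a0, norm_chi m (mul_ne_zero u0 a0)]
    simp [A]
  choose! q hq h1 h2 using key
  have inj : Set.InjOn q (P.image om) := fun a ha b hb h => by
    have := h1 a ha
    rw [h, h1 b hb] at this
    exact (mul_right_cancel₀ (by simpa using (mem_disc'.1 (mem_product.1 (hq b hb)).1).1) this).symm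
  calc _ ≤ ‖∑ p ∈ P, F p‖ := by rw [← e1, Complex.norm_real]; exact le_abs_self _
    _ ≤ ∑ ω ∈ P.image om, A (q ω).1 := by
      rw [← sum_fiberwise_of_maps_to (g := om) (t := P.image om) fun p hp => mem_image_of_mem _ hp]
      exact (norm_sum_le _ _).trans (sum_congr rfl h2).le
    _ ≤ ∑ r ∈ disc' X ×ˢ circ 1, A r.1 := by
      rw [← sum_image (f := fun r : GI × GI => A r.1) inj]
      exact sum_le_sum_of_subset_of_nonneg (image_subset_iff.2 hq) fun _ _ _ => norm_nonneg _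
    _ = _ := by simp [sum_product, card_circ_one, mul_sum]

theorem sum_r_sq (x : ℕ) : ∑ n ∈ Icc 1 x, (#(circ n) : ℝ) ^ 2 ≤ 324 * x * (1 + Real.log x) := by
  have h := pair 0 x fun _ => 1
  simp only [chi, mul_zero, pow_zero, sum_const, nsmul_eq_mul, mul_one, one_mul, Complex.ofReal_one,
    Complex.norm_natCast] at h
  have : ∑ α ∈ disc' x, (#(disc' (x / nm α)) : ℝ) ≤ ∑ α ∈ disc' x, 9 * x * (nm α : ℝ)⁻¹ :=
    sum_le_sum fun α _ => by
      have h1 : (#(disc' (x / nm α)) : ℝ) ≤ 9 * (x / nm α : ℕ) := by exact_mod_cast card_disc' _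
      have h2 : ((x / nm α : ℕ) : ℝ) ≤ x / nm α := Nat.cast_div_le
      rw [div_eq_mul_inv] at h2
      linarith
  rw [← mul_sum] at this
  nlinarith [sum_inv_nm x, Nat.cast_nonneg (α := ℝ) x]

open Function

theorem coset (f : GI → ℂ) (hf : Summable f) (p : GI) (p0 : p ≠ 0)
    (hp : ∀ γ : GI, ∃ j ∈ range 5, ∀ i ∈ range 5, p ∣ γ - i ↔ i = j) :
    ‖∑' γ, f γ - 5 * ∑' δ, f (p * δ)‖ ≤ 10 * ∑' γ, ‖f (γ + 1) - f γ‖ := by
  classical
  have sh : ∀ c : GI, Summable fun γ => f (γ + c) := fun c =>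
    (Equiv.addRight c).summable_iff.2 hf
  have sn : ∀ c : GI, Summable fun γ => ‖f (γ + c) - f γ‖ := fun c => ((sh c).sub hf).norm
  have step : ∀ j : ℕ, ∑' γ, ‖f (γ + j) - f γ‖ ≤ j * ∑' γ, ‖f (γ + 1) - f γ‖ := by
    intro j
    induction j with
    | zero => simp
    | succ j ih =>
      have s1 : Summable fun γ => ‖f (γ + j + 1) - f (γ + j)‖ :=
        (Equiv.addRight (j : GI)).summable_iff.2 (sn 1)
      have e : ∑' γ, ‖f (γ + j + 1) - f (γ + j)‖ = _ :=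
        (Equiv.addRight (j : GI)).tsum_eq fun γ => ‖f (γ + 1) - f γ‖
      calc _ ≤ ∑' γ, (‖f (γ + j + 1) - f (γ + j)‖ + ‖f (γ + j) - f γ‖) :=
            (sn _).tsum_le_tsum (fun γ => by
              rw [Nat.cast_succ, ← add_assoc]; exact norm_sub_le_norm_sub_add_norm_sub _ _ _)
              (s1.add (sn _))
        _ ≤ _ := by
          rw [Summable.tsum_add s1 (sn _), e]; push_cast; linarith
  have inj : Injective fun δ : GI => p * δ := mul_right_injective₀ p0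
  have e1 : ∑' γ, f γ = ∑ j ∈ range 5, ∑' δ, f (p * δ + j) := by
    have : ∀ γ, f γ = ∑ j ∈ range 5, if p ∣ γ - j then f γ else 0 := fun γ => by
      obtain ⟨j, h1, h2⟩ := hp γ
      rw [sum_congr rfl fun i hi => if_congr (h2 i hi) rfl rfl, sum_ite_eq', if_pos h1]
    rw [tsum_congr this, Summable.tsum_finsetSum fun j _ =>
      (hf.indicator {γ | p ∣ γ - ((j : ℕ) : GI)}).congr fun γ => by simp [Set.indicator_apply]]
    refine sum_congr rfl fun j _ => ?_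
    rw [← Injective.tsum_eq (g := fun δ : GI => p * δ + j)
      ((add_left_injective _).comp inj)]
    · simp
    · intro γ h
      obtain ⟨δ, h⟩ : p ∣ γ - j := by by_contra k; simp [k] at h
      exact ⟨δ, by simp [← h]⟩
  have e2 : ∑' γ, f γ - 5 * ∑' δ, f (p * δ) = ∑ j ∈ range 5, ∑' δ, (f (p * δ + j) - f (p * δ)) := by
    have : ∀ j : ℕ, ∑' δ, (f (p * δ + j) - f (p * δ)) = ∑' δ, f (p * δ + j) - ∑' δ, f (p * δ) :=
      fun j => ((sh j).comp_injective inj).tsum_sub (hf.comp_injective inj)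
    simp [e1, this]
  rw [e2]
  refine (norm_sum_le _ _).trans ((sum_le_sum fun j _ => (norm_tsum_le_tsum_norm
    ((sn (j : ℕ)).comp_injective inj)).trans ((tsum_comp_le_tsum_of_inj (sn _)
      (fun _ => norm_nonneg _) inj).trans (step j))).trans (le_of_eq ?_))
  simp [sum_range_succ]; ring

theorem pow_lip (u v : ℂ) (hu : ‖u‖ ≤ 1) (hv : ‖v‖ ≤ 1) (m : ℕ) : ‖u ^ m - v ^ m‖ ≤ m * ‖u - v‖ := by
  induction m with
  | zero => simp
  | succ m ih =>
    have : u ^ (m + 1) - v ^ (m + 1) = u * (u ^ m - v ^ m) + (u - v) * v ^ m := by ring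
    rw [this]
    refine (norm_add_le _ _).trans ?_
    rw [norm_mul, norm_mul, norm_pow]
    have := pow_le_one₀ (norm_nonneg v) hv (n := m)
    push_cast
    nlinarith [norm_nonneg (u ^ m - v ^ m), norm_nonneg (u - v)]

theorem dir_le (a : ℂ) : ‖a / ‖a‖‖ ≤ 1 := by simpa using div_self_le_one ‖a‖

theorem dir_lip (a b : ℂ) (hb : b ≠ 0) : ‖a / ‖a‖ - b / ‖b‖‖ ≤ 2 * ‖a - b‖ / ‖b‖ := by
  have b0 : 0 < ‖b‖ := norm_pos_iff.2 hb
  have b1 : (‖b‖ : ℂ) ≠ 0 := by exact_mod_cast b0.ne'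
  have : a / ‖a‖ - b / ‖b‖ = (a / ‖a‖ * ((‖b‖ - ‖a‖ : ℝ) : ℂ) + (a - b)) / ‖b‖ := by
    rcases eq_or_ne a 0 with rfl | h
    · simp [neg_div]
    · have : (‖a‖ : ℂ) ≠ 0 := by simpa using h
      push_cast; field_simp; ring
  rw [this, norm_div, Complex.norm_real, norm_norm]
  gcongr
  refine (norm_add_le _ _).trans ?_
  rw [norm_mul, Complex.norm_real, Real.norm_eq_abs, abs_sub_comm]
  nlinarith [dir_le a, abs_norm_sub_norm_le a b, abs_nonneg (‖a‖ - ‖b‖)]

theorem norm_chi_le (m : ℕ) (z : GI) : ‖chi m z‖ ≤ 1 := by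
  rw [chi, norm_pow]; exact pow_le_one₀ (norm_nonneg _) (dir_le _)

theorem chi_lip (m : ℕ) {z : GI} (h : z ≠ 0) : ‖chi m (z + 1) - chi m z‖ ≤ 2 * m * (√(nm z))⁻¹ := by
  refine (pow_lip _ _ (dir_le _) (dir_le _) m).trans ?_
  have := dir_lip ((z + 1 : GI) : ℂ) z (coe_ne h)
  rw [← norm_eq]
  simp only [map_add, map_one, add_sub_cancel_left, norm_one, mul_one] at this ⊢
  rw [mul_comm 2, mul_assoc]
  gcongr
  exact this

/-- The weighted direction. -/
noncomputable def ph (m : ℕ) (y : ℝ) (z : GI) : ℂ := (max 0 (2 - nm z / y) : ℝ) * chi m z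

theorem ph_zero {m : ℕ} {y : ℝ} (hy : 0 < y) {z : GI} (h : 2 * y ≤ nm z) : ph m y z = 0 := by
  rw [ph, max_eq_left (sub_nonpos.2 ((le_div_iff₀ hy).2 h))]; simp

theorem ph_summable (m : ℕ) {y : ℝ} (hy : 0 < y) : Summable (ph m y) :=
  summable_of_ne_finset_zero (s := disc ⌈2 * y⌉₊) fun z hz => ph_zero hy
    ((Nat.le_ceil _).trans (by rw [mem_disc] at hz; exact_mod_cast (not_le.1 hz).le))

theorem tv (m : ℕ) {y : ℝ} (hy : 1 ≤ y) :
    ∑' γ, ‖ph m y (γ + 1) - ph m y γ‖ ≤ (600 + 216 * m) * √y := by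
  set s := √y with hs
  have s1 : 1 ≤ s := Real.one_le_sqrt.2 hy
  have s2 : s ^ 2 = y := Real.sq_sqrt (by linarith)
  have y0 : 0 < y := by linarith
  have nn : ∀ γ : GI, |‖((γ + 1 : GI) : ℂ)‖ - ‖(γ : ℂ)‖| ≤ 1 := fun γ => by
    simpa using abs_norm_sub_norm_le ((γ + 1 : GI) : ℂ) γ
  have w2 : ∀ γ : GI, |max 0 (2 - nm γ / y)| ≤ 2 := fun γ => by
    rw [abs_of_nonneg (le_max_left _ _)]
    exact max_le zero_le_two (sub_le_self _ (by positivity))
  have K1 : (⌊9 * y⌋₊ : ℝ) ≤ 9 * y := Nat.floor_le (by positivity)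
  rw [tsum_eq_sum (s := disc ⌊9 * y⌋₊), ← add_sum_erase _ _ (mem_disc.2 (by simp [nm]) : (0 : GI) ∈ _)]
  · have h0 : ‖ph m y (0 + 1) - ph m y 0‖ ≤ 4 := by
      refine (norm_sub_le _ _).trans ?_
      simp only [ph, norm_mul, Complex.norm_real, Real.norm_eq_abs]
      linarith [mul_le_mul (w2 (0 + 1)) (norm_chi_le m _) (norm_nonneg (chi m (0 + 1))) zero_le_two,
        mul_le_mul (w2 0) (norm_chi_le m 0) (norm_nonneg _) zero_le_two]
    have h1 : ∑ γ ∈ disc' ⌊9 * y⌋₊, ‖ph m y (γ + 1) - ph m y γ‖ ≤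
        ∑ γ ∈ disc' ⌊9 * y⌋₊, (7 / s + 4 * m * (√(nm γ))⁻¹) := sum_le_sum fun γ hγ => by
      obtain ⟨g0, g1⟩ := mem_disc'.1 hγ
      have g2 : ‖(γ : ℂ)‖ ≤ 3 * s := by
        refine (abs_le_of_sq_le_sq' ?_ (by linarith)).2
        rw [norm_sq, mul_pow, s2]
        exact (Nat.cast_le.2 g1).trans (by linarith)
      have g3 : |max 0 (2 - nm (γ + 1) / y) - max 0 (2 - nm γ / y)| ≤ 7 / s := by
        rw [max_comm, max_comm 0]
        refine (abs_max_sub_max_le_abs _ _ _).trans ?_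
        rw [sub_sub_sub_cancel_left, ← sub_div, abs_div, abs_of_pos y0, ← norm_sq, ← norm_sq,
          sq_sub_sq, abs_mul, abs_sub_comm, abs_of_nonneg (by positivity), ← s2,
          div_le_div_iff₀ (by positivity) (by positivity)]
        have := (abs_le.1 (nn γ)).2
        have h3 : (‖(γ : ℂ)‖ + ‖((γ + 1 : GI) : ℂ)‖) * |‖((γ + 1 : GI) : ℂ)‖ - ‖(γ : ℂ)‖| ≤ 7 * s * 1 := by
          gcongr
          · linarith
          · exact nn γ
        nlinarith
      have : ph m y (γ + 1) - ph m y γ =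
          ((max 0 (2 - nm (γ + 1) / y) - max 0 (2 - nm γ / y) : ℝ) : ℂ) * chi m (γ + 1) +
          (max 0 (2 - nm γ / y) : ℝ) * (chi m (γ + 1) - chi m γ) := by
        simp only [ph]; push_cast; ring
      rw [this]
      refine (norm_add_le _ _).trans ?_
      simp only [norm_mul, Complex.norm_real, Real.norm_eq_abs]
      have h4 := mul_le_mul g3 (norm_chi_le m (γ + 1)) (norm_nonneg _) (by positivity)
      have h5 := mul_le_mul (w2 γ) (chi_lip m g0) (norm_nonneg _) zero_le_two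
      linarith
    rw [sum_add_distrib, ← mul_sum, sum_const, nsmul_eq_mul] at h1
    have h2 : (#(disc' ⌊9 * y⌋₊) : ℝ) ≤ 9 * ⌊9 * y⌋₊ := by exact_mod_cast card_disc' _
    have h3 : (#(disc' ⌊9 * y⌋₊) : ℝ) * (7 / s) ≤ 567 * s := by
      rw [← mul_div_assoc, div_le_iff₀ (by linarith)]; nlinarith
    have h4 : √(⌊9 * y⌋₊ : ℝ) ≤ 3 * s := Real.sqrt_le_iff.2 ⟨by linarith, by nlinarith⟩
    have h5 := mul_le_mul_of_nonneg_left ((sum_inv_norm ⌊9 * y⌋₊).trans
      (mul_le_mul_of_nonneg_left h4 (by norm_num))) (by positivity : (0 : ℝ) ≤ 4 * m)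
    change _ + ∑ γ ∈ disc' _, _ ≤ _
    nlinarith
  · intro γ h
    rw [mem_disc, not_le, Nat.floor_lt (by positivity), ← norm_sq] at h
    have g2 : 3 * s ≤ ‖(γ : ℂ)‖ := abs_le_of_sq_le_sq' (by nlinarith) (norm_nonneg _) |>.2
    have := (abs_le.1 (nn γ)).1
    rw [ph_zero y0, ph_zero y0, sub_zero, norm_zero] <;> rw [← norm_sq] <;> nlinarith

theorem chi_ne {m : ℕ} (hm : m ≠ 0) : chi m ⟨2, 1⟩ ≠ chi m ⟨2, -1⟩ := by
  intro h
  have n : ‖((⟨2, -1⟩ : GI) : ℂ)‖ = ‖((⟨2, 1⟩ : GI) : ℂ)‖ := by rw [norm_eq, norm_eq]; rfl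
  rw [chi, chi, n, div_pow, div_pow, div_left_inj' (pow_ne_zero _ (by
    simpa using coe_ne (z := ⟨2, 1⟩) (by decide))), ← map_pow, ← map_pow] at h
  have := congrArg (Zsqrtd.lift (⟨2, by decide⟩ : {r : ZMod 5 // r * r = ((-1 : ℤ) : ZMod 5)}))
    (GaussianInt.toComplex_injective h)
  simp only [map_pow, Zsqrtd.lift_apply_apply] at this
  have e : ((2 : ℤ) : ZMod 5) + (-1 : ℤ) * 2 = 0 := by decide
  have e' : IsUnit (((2 : ℤ) : ZMod 5) + (1 : ℤ) * 2) := by decide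
  rw [e, zero_pow hm] at this
  exact absurd (isUnit_zero_iff.1 (this ▸ e'.pow m)) (by decide)

theorem tsum_ph {m : ℕ} (hm : m ≠ 0) : ∃ C, ∀ y : ℝ, 0 < y → ‖∑' γ, ph m y γ‖ ≤ C * √y := by
  have key : ∀ c : ℤ, c = 1 ∨ c = -1 → ∀ y : ℝ, 1 ≤ 5 * y →
      ‖∑' γ, ph m (5 * y) γ - 5 * (chi m ⟨2, c⟩ * ∑' δ, ph m y δ)‖ ≤
        10 * ((600 + 216 * m) * √(5 * y)) := by
    intro c hc y hy
    have n5 : nm ⟨2, c⟩ = 5 := by rcases hc with rfl | rfl <;> rfl
    have := coset _ (ph_summable m (by linarith : 0 < 5 * y)) ⟨2, c⟩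
      (by rw [Ne, ← nm_eq_zero, n5]; norm_num) fun γ => by
        refine ⟨((γ.re - 2 * c * γ.im) % 5).toNat, mem_range.2 (by omega), fun i hi => ?_⟩
        rw [mem_range] at hi
        constructor
        · rintro ⟨δ, h⟩
          have h1 := congrArg Zsqrtd.re h
          have h2 := congrArg Zsqrtd.im h
          simp at h1 h2
          rcases hc with rfl | rfl <;> omega
        · intro h
          refine ⟨⟨(2 * (γ.re - i) + c * γ.im) / 5, (2 * γ.im - c * (γ.re - i)) / 5⟩, ?_⟩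
          rcases hc with rfl | rfl <;> ext <;> simp <;> omega
    rw [← tsum_mul_left]
    refine le_trans (le_of_eq ?_) (this.trans (by gcongr; exact tv m hy))
    refine congrArg (fun t => ‖_ - 5 * t‖) (tsum_congr fun δ => ?_)
    rw [ph, ph, nm_mul, n5, chi_mul, Nat.cast_mul, Nat.cast_ofNat,
      mul_div_mul_left _ _ (by norm_num), mul_left_comm]
  have d0 := norm_pos_iff.2 (sub_ne_zero.2 (chi_ne hm))
  refine ⟨4 * (600 + 216 * m) * √5 / ‖chi m ⟨2, 1⟩ - chi m ⟨2, -1⟩‖, fun y hy => ?_⟩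
  by_cases h : 1 ≤ 5 * y
  · have := norm_sub_le_of_le (key (-1) (Or.inr rfl) y h) (key 1 (Or.inl rfl) y h)
    rw [sub_sub_sub_cancel_left, ← mul_sub, ← sub_mul, norm_mul, norm_mul,
      Real.sqrt_mul (by norm_num)] at this
    rw [div_mul_eq_mul_div, le_div_iff₀ d0]
    simp only [Complex.norm_ofNat] at this
    linarith
  · rw [tsum_congr (g := fun _ => 0), tsum_zero, norm_zero]
    · positivity
    · intro γ
      rcases eq_or_ne γ 0 with rfl | k
      · simp [ph, chi, hm]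
      · have : (1 : ℝ) ≤ nm γ := by exact_mod_cast Nat.pos_of_ne_zero (mt nm_eq_zero.1 k)
        exact ph_zero hy (by linarith)

theorem sum_chi_sq {m : ℕ} (hm : m ≠ 0) :
    ∃ C : ℝ, ∀ x : ℕ, ∑ n ∈ Icc 1 x, ‖∑ z ∈ circ n, chi m z‖ ^ 2 ≤ C * x := by
  obtain ⟨C, hC⟩ := tsum_ph (m := 2 * m) (by omega)
  refine ⟨144 * |C|, fun x => ?_⟩
  rcases Nat.eq_zero_or_pos x with rfl | h
  · simp
  have x0 : (0 : ℝ) < x := by exact_mod_cast h
  have h1 := pair m (2 * x) fun n => max 0 (2 - n / x)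
  have h2 : ∑ n ∈ Icc 1 x, ‖∑ z ∈ circ n, chi m z‖ ^ 2 ≤
      ∑ n ∈ Icc 1 (2 * x), max 0 (2 - (n : ℝ) / x) * ‖∑ z ∈ circ n, chi m z‖ ^ 2 := by
    refine le_trans (sum_le_sum fun n hn => le_mul_of_one_le_left (sq_nonneg _) ?_)
      (sum_le_sum_of_subset_of_nonneg (Icc_subset_Icc_right (by omega)) fun _ _ _ => by positivity)
    have : (n : ℝ) / x ≤ 1 := (div_le_one x0).2 (by exact_mod_cast (mem_Icc.1 hn).2)
    exact le_max_of_le_right (by linarith)
  have h3 : ∀ α ∈ disc' (2 * x), ‖∑ γ ∈ disc' (2 * x / nm α),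
      ((max 0 (2 - ((nm α * nm γ : ℕ) : ℝ) / x) : ℝ) : ℂ) * chi (2 * m) γ‖ ≤
      |C| * √x * (√(nm α))⁻¹ := fun α hα => by
    have na : 0 < nm α := Nat.pos_of_ne_zero (mt nm_eq_zero.1 (mem_disc'.1 hα).1)
    have a0 : (0 : ℝ) < nm α := by exact_mod_cast na
    have := hC (x / nm α) (by positivity)
    rw [tsum_eq_sum (s := disc' (2 * x / nm α)), Real.sqrt_div x0.le, ← mul_div_assoc] at this
    · refine le_trans (le_of_eq ?_) (this.trans (by rw [div_eq_mul_inv]; gcongr; exact le_abs_self _))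
      congr 1
      refine sum_congr rfl fun γ _ => ?_
      rw [ph, div_div_eq_mul_div, Nat.cast_mul, mul_comm (nm α : ℝ)]
    · intro γ hγ
      rcases eq_or_ne γ 0 with rfl | k
      · simp [ph, chi, hm]
      · refine ph_zero (by positivity) ?_
        simp only [mem_disc', ne_eq, k, not_false_eq_true, true_and, Nat.le_div_iff_mul_le na,
          not_le] at hγ
        rw [← mul_div_assoc, div_le_iff₀ a0]
        exact_mod_cast hγ.le
  have h4 := sum_le_sum h3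
  rw [← mul_sum] at h4
  have h5 : √((2 * x : ℕ) : ℝ) ≤ 2 * √x := Real.sqrt_le_iff.2 ⟨by positivity, by
    rw [mul_pow, Real.sq_sqrt x0.le]; push_cast; linarith⟩
  have h6 := mul_le_mul_of_nonneg_left ((sum_inv_norm (2 * x)).trans
    (mul_le_mul_of_nonneg_left h5 (by norm_num))) (by positivity : 0 ≤ |C| * √x)
  have h7 : √(x : ℝ) * √x = x := Real.mul_self_sqrt x0.le
  nlinarith [abs_nonneg C]

end Ar

open Ar

theorem p_W2 : S_W2 :=
  ⟨⟨324, fun N => by simpa only [r2, circ_eq] using sum_r_sq N⟩, fun k hk => by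
    simpa only [wk, circ_eq, chi, ang] using sum_chi_sq (m := k) (by omega)⟩

end Pool.Agent.P.MP_6b977f_mp.RB
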