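import Pool.Agent.P.MP_6b977f_mp.RB.Iface

/-! Step WIN1. -/

namespace Pool.Agent.P.MP_6b977f_mp.RB

open Real MeasureTheory ProbabilityTheory Filter Topology Finset Laplacian
open scoped ContDiff ComplexConjugate ENNReal Matrix

namespace WIN1A

lemma son {c : ℕ → II → ℝ} (h : SON c) (T : Finset ℕ) (a : T → ℝ) :
    HasSum (fun ξ => (∑ j, a j * c j ξ) ^ 2) (∑ j, a j ^ 2) := by
  have := hasSum_sum (s := univ) fun (i : T) _ => hasSum_sum (s := univ) fun (j : T) _ =>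
    (h i j).mul_left (a i * a j)
  rw [show ∑ j, a j ^ 2 = ∑ i : T, ∑ j : T, a i * a j * if (i : ℕ) = j then 1 else 0 by
    simp [sq]]
  simp only [sq, sum_mul_sum, mul_mul_mul_comm (a _) (c _ _)]
  exact this

lemma pt {s e C f k : ℝ} (h1 : 1 ≤ s) (h2 : s ^ 2 = |e|) (h : s * k = f - e * C) :
    (s * C) ^ 2 ≤ 2 * f ^ 2 + 2 * k ^ 2 := by
  have a1 : (s ^ 2) ^ 2 = e ^ 2 := by rw [h2, sq_abs]
  have a2 : s ^ 2 * (s * C) ^ 2 = (f - s * k) ^ 2 := by
    rw [h]
    linear_combination C ^ 2 * a1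
  have a3 : 1 ≤ s ^ 2 := one_le_pow₀ h1
  refine le_of_mul_le_mul_left ?_ (one_pos.trans_le a3)
  nlinarith [sq_nonneg (f + s * k), sq_nonneg f]

end WIN1A

theorem p_WIN1 (hHS0 : S_HS0) :
    S_WIN1 := by
  intro V n lam c T hV hc hT
  obtain ⟨-, h2, h3, h4, h5⟩ := hHS0
  have s1 : ∀ ξ, 1 ≤ √(DD n ξ) := fun ξ => one_le_sqrt.2 (one_le_DD n ξ)
  have s2 : ∀ ξ, √(DD n ξ) ^ 2 = DD n ξ := fun ξ => sq_sqrt (zero_le_one.trans (one_le_DD n ξ))
  let K : II → II → ℝ := fun ξ η => V ξ η / (√(DD n ξ) * √(DD n η))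
  have k1 : ∀ p : II × II, K p.1 p.2 ^ 2 = ker V n p := fun p => by
    simp only [K, ker, div_pow, mul_pow, s2]
  have k2 : Summable fun p : II × II => K p.1 p.2 ^ 2 := by simpa only [k1] using hV.2 n
  let X : T → lp (fun _ : II => ℝ) 2 := fun j => ⟨fun ξ => √(DD n ξ) * c j ξ, memℓp_gen (by
    simp only [ENNReal.toReal_ofNat, rpow_two, norm_eq_abs, sq_abs, mul_pow, s2]
    exact .of_nonneg_of_le (fun ξ => mul_nonneg (s2 ξ ▸ sq_nonneg _) (sq_nonneg _))
      (fun ξ => (mul_le_mul_of_nonneg_right (h5 n ξ).2 (sq_nonneg _)).trans_eq (mul_assoc _ _ _))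
      ((hT j j.2).1.1.mul_left (1 + |(n : ℝ)|)))⟩
  let L := Fintype.linearCombination ℝ X
  have l1 : ∀ t ξ, L t ξ = √(DD n ξ) * ∑ j, t j * c j ξ := fun t ξ => by
    simp only [L, Fintype.linearCombination_apply, lp.coeFn_sum, Finset.sum_apply, lp.coeFn_smul,
      Pi.smul_apply, smul_eq_mul, X, mul_sum]
    exact sum_congr rfl fun j _ => by ring
  have l2 : ∀ x y : lp (fun _ : II => ℝ) 2, HasSum (fun ξ => x ξ * y ξ) (inner ℝ x y) :=
    fun x y => by simpa [mul_comm] using lp.hasSum_inner (𝕜 := ℝ) x y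
  have l3 : ∀ x : lp (fun _ : II => ℝ) 2, HasSum (fun ξ => x ξ ^ 2) (inner ℝ x x) :=
    fun x => by simpa only [sq] using l2 x x
  have l4 : ∀ t, ∑ j, t j ^ 2 ≤ inner ℝ (L t) (L t) := fun t =>
    hasSum_le (fun ξ => by
      rw [l1, mul_pow, s2]
      exact le_mul_of_one_le_left (sq_nonneg _) (one_le_DD n ξ)) (WIN1A.son hc T t) (l3 _)
  have key : ∀ t, inner ℝ (L t) (L t) ≤ 2 * ∑ ξ ∈ Sh n.toNat, L t ξ ^ 2 +
      4 * ∑' ξ, (∑' η, K ξ η * L t η) ^ 2 := fun t => by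
    have a1 := WIN1A.son hc T fun j => t j * (lam j - n)
    have a2 : ∑ j : T, (t j * (lam j - n)) ^ 2 ≤ (∑ j, t j ^ 2) / 4 := by
      rw [sum_div]
      refine sum_le_sum fun j _ => ?_
      have := pow_le_pow_left₀ (abs_nonneg _) (hT j j.2).2 2
      rw [sq_abs] at this
      nlinarith [sq_nonneg (t j)]
    have a3 : HasSum (fun ξ => if ξ ∈ Sh n.toNat then L t ξ ^ 2 else 0)
        (∑ ξ ∈ Sh n.toNat, L t ξ ^ 2) := by
      rw [← sum_congr rfl fun ξ (h : ξ ∈ Sh n.toNat) => if_pos (e := (0 : ℝ)) h]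
      exact hasSum_sum_of_ne_finset_zero fun ξ h => if_neg h
    have a4 := hasSum_le (fun ξ => ?_) (l3 (L t)) (a3.add ((a1.mul_left 2).add
      ((h2 K _ k2 (l3 (L t)).summable).2.1.hasSum.mul_left 2)))
    · linarith [l4 t]
    split_ifs with h
    · exact le_add_of_nonneg_right (by positivity)
    have b1 : (1 : ℝ) ≤ |(dd ξ : ℝ) - n| := by
      have : (dd ξ : ℤ) - n ≠ 0 := fun e => h (mem_Sh.2 (by omega))
      exact_mod_cast Int.one_le_abs this
    have b2 := (hasSum_sum (s := univ) fun (j : T) _ => ((hT j j.2).1.2 ξ).mul_left (t j))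
    have b3 : √(DD n ξ) * ∑' η, K ξ η * L t η = ∑ j : T, t j * ((lam j - dd ξ) * c j ξ) := by
      rw [← tsum_mul_left, ← b2.tsum_eq]
      refine tsum_congr fun η => ?_
      have := s1 ξ
      have := s1 η
      rw [l1, show ∑ j : T, t j * (V ξ η * c j η) = V ξ η * ∑ j : T, t j * c j η by
        rw [mul_sum]; exact sum_congr rfl fun j _ => by ring]
      simp only [K]
      field_simp
    rw [zero_add, l1]
    refine WIN1A.pt (s1 ξ) ((s2 ξ).trans (max_eq_right b1)) (b3.trans ?_)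
    rw [mul_sum, ← sum_sub_distrib]
    exact sum_congr rfl fun j _ => by ring
  have inj : Function.Injective L := (injective_iff_map_eq_zero L).2 fun t h => by
    have := l4 t
    rw [h, inner_zero_left] at this
    exact funext fun j => pow_eq_zero_iff two_ne_zero |>.1 ((sum_eq_zero_iff_of_nonneg
      fun j _ => sq_nonneg (t j)).1 (this.antisymm (by positivity)) j (mem_univ j))
  let b := stdOrthonormalBasis ℝ (LinearMap.range L)
  have hb : SON fun i ξ => (b i).1 ξ := fun i j => by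
    have := l2 (b i).1 (b j).1
    rwa [← Submodule.coe_inner, orthonormal_iff_ite.1 b.orthonormal] at this
  have c1 := sum_le_sum (s := univ) fun i _ => show (1 : ℝ) ≤ 2 * ∑ ξ ∈ Sh n.toNat, (b i).1 ξ ^ 2 +
      4 * ∑' ξ, (∑' η, K ξ η * (b i).1 η) ^ 2 by
    obtain ⟨t, ht⟩ := (b i).2
    have := key t
    rwa [ht, ← Submodule.coe_inner, orthonormal_iff_ite.1 b.orthonormal, if_pos rfl] at this
  have c2 := h4 _ _ univ K hb k2
  have c3 : ∑ ξ ∈ Sh n.toNat, ∑ i, (b i).1 ξ ^ 2 ≤ (Sh n.toNat).card :=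
    (sum_le_card_nsmul _ _ 1 fun ξ _ => by
      simpa using h3 _ _ univ (fun η => if η = ξ then 1 else 0) hb
        (by simpa using (hasSum_ite_eq ξ (1 : ℝ)).summable)).trans_eq (by simp)
  rw [sum_add_distrib, ← mul_sum, ← mul_sum, sum_comm, sum_const, card_univ, Fintype.card_fin,
    nsmul_eq_mul] at c1
  have c4 := congrArg (Nat.cast : ℕ → ℝ) (LinearMap.finrank_range_of_inj inj)
  rw [Module.finrank_fintype_fun_eq_card, Fintype.card_coe] at c4
  simp only [k1] at c2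
  unfold BB
  linarith

end Pool.Agent.P.MP_6b977f_mp.RB
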