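import Pool.Agent.P.MP_6b977f_mp.RB.Iface

/-! Step WIN2. -/

namespace Pool.Agent.P.MP_6b977f_mp.RB

open Real MeasureTheory ProbabilityTheory Filter Topology Finset Laplacian
open scoped ContDiff ComplexConjugate ENNReal Matrix

namespace WIN2A

noncomputable def KK (V : II → II → ℝ) (n : ℕ) (ξ η : II) : ℝ := V ξ η / (√(DD n ξ) * √(DD n η))

noncomputable def KP (V : II → II → ℝ) (n : ℕ) (ξ η : II) : ℝ := if η ∈ Sh n then KK V n ξ η else 0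

variable {V : II → II → ℝ} {n : ℕ} {ξ : II}

theorem D0 (ξ : II) : 0 < DD n ξ := one_pos.trans_le (one_le_DD _ _)

theorem sq_KK (p : II × II) : KK V n p.1 p.2 ^ 2 = ker V n p := by
  rw [KK, div_pow, mul_pow, sq_sqrt (D0 _).le, sq_sqrt (D0 _).le, ker]

theorem KP_le (p : II × II) : KP V n p.1 p.2 ^ 2 ≤ ker V n p := by
  rw [KP, ← sq_KK]
  split_ifs
  · exact le_rfl
  · rw [zero_pow two_ne_zero]; positivity

theorem D1 (h : ξ ∈ Sh n) : √(DD n ξ) = 1 := by simp [DD, mem_Sh.1 h]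

theorem D2 {lam : ℝ} (h : ξ ∉ Sh n) (hl : |lam - n| ≤ 1 / 2) :
    DD n ξ ^ 2 ≤ 4 * (lam - dd ξ) ^ 2 := by
  have h1 : (1 : ℝ) ≤ |(dd ξ : ℝ) - n| := by
    have : (1 : ℤ) ≤ |(dd ξ : ℤ) - n| :=
      Int.one_le_abs (sub_ne_zero.2 fun e => h (mem_Sh.2 (by exact_mod_cast e)))
    exact_mod_cast this
  have h2 := abs_sub_le (dd ξ : ℝ) lam n
  rw [DD, Int.cast_natCast, max_eq_right h1, ← sq_abs (lam - _), abs_sub_comm lam]
  nlinarith [abs_nonneg ((dd ξ : ℝ) - lam)]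

theorem one (H : S_HS0) (hV : HS V) {lam : ℝ} {c : II → ℝ} (he : SEig V lam c)
    (hl : |lam - n| ≤ 1 / 2) (hB : BB V n ≤ 1 / 16) (hc : HasSum (fun ξ => c ξ * c ξ) 1)
    (hu : Summable fun ξ => (∑' η, KP V n ξ η * c η) ^ 2) :
    1 - ∑ ξ ∈ Sh n, c ξ ^ 2 ≤ 16 * ∑' ξ, (∑' η, KP V n ξ η * c η) ^ 2 ∧
      ∑ ξ ∈ Sh n, ((lam - n) * c ξ - ∑ η ∈ Sh n, V ξ η * c η) ^ 2 ≤
        16 * BB V n * ∑' ξ, (∑' η, KP V n ξ η * c η) ^ 2 := by
  set x : II → ℝ := fun η => if η ∈ Sh n then 0 else √(DD n η) * c η with hx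
  have x2 : ∀ η ∉ Sh n, x η ^ 2 = DD n η * c η ^ 2 := fun η h => by
    simp only [hx, if_neg h]
    rw [mul_pow, sq_sqrt (D0 _).le]
  have x0 : ∀ η ∈ Sh n, x η = 0 := fun η h => if_pos h
  have sx : Summable fun η => x η ^ 2 :=
    (he.1.mul_left (1 + |((n : ℤ) : ℝ)|)).of_nonneg_of_le (fun _ => sq_nonneg _) fun η => by
      by_cases h : η ∈ Sh n
      · rw [x0 η h, zero_pow two_ne_zero]; positivity
      · rw [x2 η h, ← mul_assoc]
        exact mul_le_mul_of_nonneg_right (H.2.2.2.2 n η).2 (sq_nonneg _)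
  obtain ⟨-, sw, bw, -⟩ := H.2.1 (KK V n) x (by simpa only [sq_KK] using hV.2 n) sx
  simp only [sq_KK] at bw
  have s0 : ∀ ξ, √(DD n ξ) ≠ 0 := fun ξ => (sqrt_pos.2 (D0 ξ)).ne'
  have hU : ∀ ξ, HasSum (fun η => KP V n ξ η * c η) ((∑ η ∈ Sh n, V ξ η * c η) / √(DD n ξ)) :=
    fun ξ => by
      rw [sum_div, sum_congr rfl (g := fun η => KP V n ξ η * c η) fun η h => by
        rw [KP, if_pos h, KK, D1 h, mul_one, div_mul_eq_mul_div]]
      exact hasSum_sum_of_ne_finset_zero fun η h => by rw [KP, if_neg h, zero_mul]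
  have hW : ∀ ξ, ∑' η, KK V n ξ η * x η =
      (lam - dd ξ) * c ξ / √(DD n ξ) - (∑ η ∈ Sh n, V ξ η * c η) / √(DD n ξ) := fun ξ => by
    refine (tsum_congr fun η => ?_).trans (((he.2 ξ).div_const √(DD n ξ)).sub (hU ξ)).tsum_eq
    by_cases h : η ∈ Sh n
    · rw [x0 η h, KP, if_pos h, KK, D1 h]; ring
    · have := s0 η
      simp only [hx, KP, KK, if_neg h]
      field_simp
      ring
  have B0 : 0 ≤ BB V n := tsum_nonneg fun p => by rw [← sq_KK]; positivity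
  have a0 : 0 ≤ ∑' η, x η ^ 2 := tsum_nonneg fun _ => sq_nonneg _
  have h1 := sx.tsum_le_tsum (fun ξ => show x ξ ^ 2 ≤ 8 * (∑' η, KP V n ξ η * c η) ^ 2 +
      8 * (∑' η, KK V n ξ η * x η) ^ 2 by
    by_cases h : ξ ∈ Sh n
    · rw [x0 ξ h, zero_pow two_ne_zero]; positivity
    have e : DD n ξ * c ξ ^ 2 ≤ 4 * ((lam - dd ξ) * c ξ / √(DD n ξ)) ^ 2 := by
      rw [div_pow, sq_sqrt (D0 _).le, ← mul_div_assoc, le_div_iff₀ (D0 _)]
      nlinarith [mul_le_mul_of_nonneg_right (D2 h hl) (sq_nonneg (c ξ))]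
    rw [x2 ξ h, hW, (hU ξ).tsum_eq]
    nlinarith [sq_nonneg ((lam - dd ξ) * c ξ / √(DD n ξ) -
      2 * ((∑ η ∈ Sh n, V ξ η * c η) / √(DD n ξ)))]) ((hu.mul_left 8).add (sw.mul_left 8))
  rw [(hu.mul_left 8).tsum_add (sw.mul_left 8), tsum_mul_left, tsum_mul_left] at h1
  have h2 : ∑' η, x η ^ 2 ≤ 16 * ∑' ξ, (∑' η, KP V n ξ η * c η) ^ 2 := by
    have := mul_le_mul_of_nonneg_right hB a0
    rw [BB] at this
    linarith
  refine ⟨le_trans ?_ h2, ?_⟩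
  · have h3 : HasSum (fun ξ => if ξ ∈ Sh n then c ξ ^ 2 else 0) (∑ ξ ∈ Sh n, c ξ ^ 2) := by
      rw [sum_congr rfl (g := fun ξ => if ξ ∈ Sh n then c ξ ^ 2 else 0) fun η h => by
        rw [if_pos h]]
      exact hasSum_sum_of_ne_finset_zero fun η h => if_neg h
    refine hasSum_le (fun ξ => ?_) (hc.sub h3) sx.hasSum
    split_ifs with h
    · rw [x0 ξ h]; nlinarith
    · rw [x2 ξ h]
      nlinarith [mul_le_mul_of_nonneg_right (one_le_DD n ξ) (sq_nonneg (c ξ))]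
  · rw [sum_congr rfl (g := fun ξ => (∑' η, KK V n ξ η * x η) ^ 2) fun ξ h => by
      rw [hW, D1 h, div_one, div_one, mem_Sh.1 h]]
    refine (sw.sum_le_tsum _ fun _ _ => sq_nonneg _).trans (bw.trans ?_)
    have := mul_le_mul_of_nonneg_left h2 B0
    rw [BB] at this ⊢
    linarith

end WIN2A

theorem p_WIN2 (hHS0 : S_HS0) :
    S_WIN2 := by
  intro V n lam c T hV hc he hB
  have sP : Summable fun p : II × II => WIN2A.KP V n p.1 p.2 ^ 2 :=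
    (hV.2 n).of_nonneg_of_le (fun _ => sq_nonneg _) WIN2A.KP_le
  have h1 := (hHS0.2.2.2.1 ℕ c T _ hc sP).trans (sP.tsum_le_tsum WIN2A.KP_le (hV.2 n))
  have h2 := fun j (hj : j ∈ T) => WIN2A.one hHS0 hV (he j hj).1 (he j hj).2 hB
    (by simpa using hc j j)
    (hHS0.2.1 _ (c j) sP (by simpa only [sq] using (hc j j).summable)).2.1
  have B0 : 0 ≤ BB V n := tsum_nonneg fun p => by rw [← WIN2A.sq_KK]; positivity
  refine ⟨(sum_le_sum fun j hj => (h2 j hj).1).trans ?_,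
    (sum_le_sum fun j hj => (h2 j hj).2).trans ?_⟩ <;> rw [← mul_sum]
  · exact mul_le_mul_of_nonneg_left h1 (by norm_num)
  · rw [sq, ← mul_assoc]
    exact mul_le_mul_of_nonneg_left h1 (by positivity)

end Pool.Agent.P.MP_6b977f_mp.RB
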