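import Pool.Agent.P.MP_6b977f_mp.RB.TSVA
import Pool.Agent.P.MP_6b977f_mp.RB.TSVB
import Pool.Agent.P.MP_6b977f_mp.RB.TSVC
import Pool.Agent.P.MP_6b977f_mp.RB.TSVL
import Pool.Agent.P.MP_6b977f_mp.RB.TPHI
import Pool.Agent.P.MP_6b977f_mp.RB.TSS
import Pool.Agent.P.MP_6b977f_mp.RB.THS0
import Pool.Agent.P.MP_6b977f_mp.RB.TEB1
import Pool.Agent.P.MP_6b977f_mp.RB.TDIV
import Pool.Agent.P.MP_6b977f_mp.RB.TCNT
import Pool.Agent.P.MP_6b977f_mp.RB.TEB2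
import Pool.Agent.P.MP_6b977f_mp.RB.TW2
import Pool.Agent.P.MP_6b977f_mp.RB.TLAT
import Pool.Agent.P.MP_6b977f_mp.RB.TS4
import Pool.Agent.P.MP_6b977f_mp.RB.TPSI
import Pool.Agent.P.MP_6b977f_mp.RB.TEBS
import Pool.Agent.P.MP_6b977f_mp.RB.TLAW
import Pool.Agent.P.MP_6b977f_mp.RB.TPA
import Pool.Agent.P.MP_6b977f_mp.RB.TRES
import Pool.Agent.P.MP_6b977f_mp.RB.TSCHUR
import Pool.Agent.P.MP_6b977f_mp.RB.TSC
import Pool.Agent.P.MP_6b977f_mp.RB.TQF0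
import Pool.Agent.P.MP_6b977f_mp.RB.TQF
import Pool.Agent.P.MP_6b977f_mp.RB.TROW
import Pool.Agent.P.MP_6b977f_mp.RB.TEPS
import Pool.Agent.P.MP_6b977f_mp.RB.TEXCH
import Pool.Agent.P.MP_6b977f_mp.RB.TRM
import Pool.Agent.P.MP_6b977f_mp.RB.TDR1
import Pool.Agent.P.MP_6b977f_mp.RB.TDR
import Pool.Agent.P.MP_6b977f_mp.RB.TOBS
import Pool.Agent.P.MP_6b977f_mp.RB.TERR1
import Pool.Agent.P.MP_6b977f_mp.RB.TMINS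
import Pool.Agent.P.MP_6b977f_mp.RB.TCOIN
import Pool.Agent.P.MP_6b977f_mp.RB.TREL0
import Pool.Agent.P.MP_6b977f_mp.RB.TGP
import Pool.Agent.P.MP_6b977f_mp.RB.TREL2
import Pool.Agent.P.MP_6b977f_mp.RB.TMER
import Pool.Agent.P.MP_6b977f_mp.RB.TREL3
import Pool.Agent.P.MP_6b977f_mp.RB.TR4D
import Pool.Agent.P.MP_6b977f_mp.RB.TREL1
import Pool.Agent.P.MP_6b977f_mp.RB.TERR
import Pool.Agent.P.MP_6b977f_mp.RB.TSHARE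
import Pool.Agent.P.MP_6b977f_mp.RB.TKAP
import Pool.Agent.P.MP_6b977f_mp.RB.TVARB
import Pool.Agent.P.MP_6b977f_mp.RB.TPB
import Pool.Agent.P.MP_6b977f_mp.RB.TEXS1
import Pool.Agent.P.MP_6b977f_mp.RB.TFORM
import Pool.Agent.P.MP_6b977f_mp.RB.TEXS
import Pool.Agent.P.MP_6b977f_mp.RB.TIBP1
import Pool.Agent.P.MP_6b977f_mp.RB.TCB0
import Pool.Agent.P.MP_6b977f_mp.RB.TCB1
import Pool.Agent.P.MP_6b977f_mp.RB.TCB2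
import Pool.Agent.P.MP_6b977f_mp.RB.TIBP
import Pool.Agent.P.MP_6b977f_mp.RB.TTRC
import Pool.Agent.P.MP_6b977f_mp.RB.TCONVO
import Pool.Agent.P.MP_6b977f_mp.RB.TBR
import Pool.Agent.P.MP_6b977f_mp.RB.TCS
import Pool.Agent.P.MP_6b977f_mp.RB.TSEP1
import Pool.Agent.P.MP_6b977f_mp.RB.TEXPS
import Pool.Agent.P.MP_6b977f_mp.RB.TSEP2
import Pool.Agent.P.MP_6b977f_mp.RB.TSEP3
import Pool.Agent.P.MP_6b977f_mp.RB.TSEP4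
import Pool.Agent.P.MP_6b977f_mp.RB.TEXE
import Pool.Agent.P.MP_6b977f_mp.RB.TBR2
import Pool.Agent.P.MP_6b977f_mp.RB.TWIN1
import Pool.Agent.P.MP_6b977f_mp.RB.TLOW
import Pool.Agent.P.MP_6b977f_mp.RB.TSH2
import Pool.Agent.P.MP_6b977f_mp.RB.TWIN2
import Pool.Agent.P.MP_6b977f_mp.RB.TSH1
import Pool.Agent.P.MP_6b977f_mp.RB.TQ3
import Pool.Agent.P.MP_6b977f_mp.RB.TDZ
import Pool.Agent.P.MP_6b977f_mp.RB.TBADW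
import Pool.Agent.P.MP_6b977f_mp.RB.TBLK1
import Pool.Agent.P.MP_6b977f_mp.RB.TBLK
import Pool.Agent.P.MP_6b977f_mp.RB.TCES
import Pool.Agent.P.MP_6b977f_mp.RB.TUB
import Pool.Agent.P.MP_6b977f_mp.RB.TTOR
import Pool.Agent.P.MP_6b977f_mp.RB.TMOD1
import Pool.Agent.P.MP_6b977f_mp.RB.TTAY
import Pool.Agent.P.MP_6b977f_mp.RB.TMOD2
import Pool.Agent.P.MP_6b977f_mp.RB.TCLT
import Pool.Agent.P.MP_6b977f_mp.RB.TVAR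
import Pool.Agent.P.MP_6b977f_mp.RB.TTCL
import Pool.Agent.P.MP_6b977f_mp.RB.TJD
import Pool.Agent.P.MP_6b977f_mp.RB.TLAY
import Pool.Agent.P.MP_6b977f_mp.RB.TERG
import Pool.Agent.P.MP_6b977f_mp.RB.TCFQ
import Pool.Agent.P.MP_6b977f_mp.RB.TCF

/-! All steps. -/

namespace Pool.Agent.P.MP_6b977f_mp.RB

theorem a_SVA : S_SVA := p_SVA
theorem a_SVB : S_SVB := p_SVB
theorem a_SVC : S_SVC := p_SVC a_SVA
theorem a_SVL : S_SVL := p_SVL a_SVA a_SVB a_SVC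
theorem a_PHI : S_PHI := p_PHI
theorem a_SS : S_SS := p_SS a_PHI
theorem a_HS0 : S_HS0 := p_HS0
theorem a_EB1 : S_EB1 := p_EB1 a_PHI a_SS a_HS0
theorem a_DIV : S_DIV := p_DIV
theorem a_CNT : S_CNT := p_CNT a_DIV
theorem a_EB2 : S_EB2 := p_EB2 a_PHI a_CNT
theorem a_W2 : S_W2 := p_W2
theorem a_LAT : S_LAT := p_LAT
theorem a_S4 : S_S4 := p_S4
theorem a_PSI : S_PSI := p_PSI a_W2 a_LAT a_S4
theorem a_EBS : S_EBS := p_EBS a_EB1 a_EB2 a_PSI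
theorem a_LAW : S_LAW := p_LAW
theorem a_PA : S_PA := p_PA a_EB1 a_EBS a_LAW
theorem a_RES : S_RES := p_RES
theorem a_SCHUR : S_SCHUR := p_SCHUR a_RES
theorem a_SC : S_SC := p_SC
theorem a_QF0 : S_QF0 := p_QF0
theorem a_QF : S_QF := p_QF a_QF0
theorem a_ROW : S_ROW := p_ROW
theorem a_EPS : S_EPS := p_EPS a_RES a_SCHUR a_QF a_ROW
theorem a_EXCH : S_EXCH := p_EXCH a_RES
theorem a_RM : S_RM := p_RM a_RES a_SCHUR a_SC a_EPS a_EXCH a_ROW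
theorem a_DR1 : S_DR1 := p_DR1 a_RES
theorem a_DR : S_DR := p_DR a_DR1
theorem a_OBS : S_OBS := p_OBS a_DR
theorem a_ERR1 : S_ERR1 := p_ERR1 a_LAW
theorem a_MINS : S_MINS := p_MINS
theorem a_COIN : S_COIN := p_COIN a_MINS
theorem a_REL0 : S_REL0 := p_REL0
theorem a_GP : S_GP := p_GP
theorem a_REL2 : S_REL2 := p_REL2 a_GP
theorem a_MER : S_MER := p_MER
theorem a_REL3 : S_REL3 := p_REL3 a_MER
theorem a_R4D : S_R4D := p_R4D a_GP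
theorem a_REL1 : S_REL1 := p_REL1 a_REL0 a_REL2 a_REL3 a_R4D a_LAT
theorem a_ERR : S_ERR := p_ERR a_ERR1 a_COIN a_REL1 a_CNT a_LAT a_S4
theorem a_SHARE : S_SHARE := p_SHARE a_DIV
theorem a_KAP : S_KAP := p_KAP a_SHARE
theorem a_VARB : S_VARB := p_VARB
theorem a_PB : S_PB := p_PB a_RM a_OBS a_ERR a_LAW a_KAP a_VARB a_LAT a_S4
theorem a_EXS1 : S_EXS1 := p_EXS1 a_HS0
theorem a_FORM : S_FORM := p_FORM a_HS0
theorem a_EXS : S_EXS := p_EXS a_EXS1 a_FORM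
theorem a_IBP1 : S_IBP1 := p_IBP1
theorem a_CB0 : S_CB0 := p_CB0
theorem a_CB1 : S_CB1 := p_CB1
theorem a_CB2 : S_CB2 := p_CB2 a_CB0 a_CB1
theorem a_IBP : S_IBP := p_IBP a_IBP1 a_CB0 a_CB2
theorem a_TRC : S_TRC := p_TRC a_CB0 a_CB2 a_PHI
theorem a_CONVO : S_CONVO := p_CONVO a_PHI
theorem a_BR : S_BR := p_BR a_IBP1 a_IBP a_TRC a_CONVO
theorem a_CS : S_CS := p_CS
theorem a_SEP1 : S_SEP1 := p_SEP1 a_CB0 a_CS
theorem a_EXPS : S_EXPS := p_EXPS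
theorem a_SEP2 : S_SEP2 := p_SEP2 a_EXPS a_CS
theorem a_SEP3 : S_SEP3 := p_SEP3 a_CB0 a_CB2 a_SEP2 a_CS
theorem a_SEP4 : S_SEP4 := p_SEP4 a_CB0 a_SEP2 a_CS
theorem a_EXE : S_EXE := p_EXE a_SEP1 a_SEP2 a_SEP3 a_SEP4 a_CB2 a_BR
theorem a_BR2 : S_BR2 := p_BR2 a_BR a_EXE a_CB2
theorem a_WIN1 : S_WIN1 := p_WIN1 a_HS0
theorem a_LOW : S_LOW := p_LOW a_FORM a_WIN1
theorem a_SH2 : S_SH2 := p_SH2 a_HS0 a_S4 a_OBS
theorem a_WIN2 : S_WIN2 := p_WIN2 a_HS0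
theorem a_SH1 : S_SH1 := p_SH1 a_WIN1 a_WIN2 a_DR a_OBS a_HS0 a_S4
theorem a_Q3 : S_Q3 := p_Q3
theorem a_DZ : S_DZ := p_DZ a_Q3
theorem a_BADW : S_BADW := p_BADW a_W2 a_DZ a_S4 a_R4D a_DIV
theorem a_BLK1 : S_BLK1 := p_BLK1 a_WIN1 a_WIN2 a_SH1 a_SH2 a_OBS a_BADW a_LAT a_S4
theorem a_BLK : S_BLK := p_BLK a_BLK1 a_SH2 a_REL1
theorem a_CES : S_CES := p_CES
theorem a_UB : S_UB := p_UB a_MINS
theorem a_TOR : S_TOR := p_TOR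
theorem a_MOD1 : S_MOD1 := p_MOD1
theorem a_TAY : S_TAY := p_TAY
theorem a_MOD2 : S_MOD2 := p_MOD2 a_TAY
theorem a_CLT : S_CLT := p_CLT a_UB a_TOR a_MOD1 a_MOD2 a_TAY
theorem a_VAR : S_VAR := p_VAR
theorem a_TCL : S_TCL := p_TCL a_CLT a_VAR a_S4
theorem a_JD : S_JD := p_JD
theorem a_LAY : S_LAY := p_LAY
theorem a_ERG : S_ERG := p_ERG a_JD a_LAY
theorem a_CFQ : S_CFQ := p_CFQ a_LAY
theorem a_CF : S_CF := p_CF a_TCL a_ERG a_CFQ a_CB0 a_CB2 a_S4 a_TOR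

end Pool.Agent.P.MP_6b977f_mp.RB
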