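import Pool.Agent.P.MP_6b977f_mp.RB.Defs
import Pool.Agent.P.MP_6b977f_mp.EB.IfS

/-! Definitions used in the proof, with a few basic facts. -/

namespace Pool.Agent.P.MP_6b977f_mp.RB

open Real MeasureTheory Filter Topology Finset
open scoped ContDiff ComplexConjugate ENNReal

noncomputable section

/-! ### The model on sequences -/

abbrev II : Type := ℕ × ℕ

def dd (ξ : II) : ℕ := ξ.1 ^ 2 + ξ.2 ^ 2

def nn (a : ℕ) : ℝ := if a = 0 then (√π)⁻¹ else √(2 / π)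

def ww (ξ : II) : ℝ := √π / 2 * (nn ξ.1 * nn ξ.2)

/-- The matrix of the boundary form in the normalised cosine basis. -/
def VV (ρ : ℕ → ℝ) (ξ η : II) : ℝ := ww ξ * ww η * (ρ (Nat.dist ξ.1 η.1) + ρ (ξ.1 + η.1))

def DD (n : ℤ) (ξ : II) : ℝ := max 1 |(dd ξ : ℝ) - n|

def ker (V : II → II → ℝ) (n : ℤ) (p : II × II) : ℝ := V p.1 p.2 ^ 2 / (DD n p.1 * DD n p.2)

def BB (V : II → II → ℝ) (n : ℤ) : ℝ := ∑' p, ker V n p

def HS (V : II → II → ℝ) : Prop := (∀ ξ η, V ξ η = V η ξ) ∧ ∀ n, Summable (ker V n)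

def H1 (c : II → ℝ) : Prop := Summable fun ξ => (1 + (dd ξ : ℝ)) * c ξ ^ 2

def SEig (V : II → II → ℝ) (lam : ℝ) (c : II → ℝ) : Prop :=
  H1 c ∧ ∀ ξ, HasSum (fun η => V ξ η * c η) ((lam - dd ξ) * c ξ)

/-- Orthonormal family of sequences. -/
def SON {J : Type} [DecidableEq J] (c : J → II → ℝ) : Prop :=
  ∀ i j, HasSum (fun ξ => c i ξ * c j ξ) (if i = j then 1 else 0)

structure SBasis (V : II → II → ℝ) (lam : ℕ → ℝ) (c : ℕ → II → ℝ) : Prop where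
  eig : ∀ j, SEig V (lam j) (c j)
  orth : SON c
  complete : ∀ x : II → ℝ, (Summable fun ξ => x ξ ^ 2) → (∀ j, ∑' ξ, x ξ * c j ξ = 0) → x = 0
  mono : Monotone lam

/-- Normalised cosines. -/
def ee (ξ : II) (z : ℂ) : ℝ := nn ξ.1 * nn ξ.2 * cc ξ.1 ξ.2 z

/-- Coefficients of `u / π`. -/
def co (u : ℂ → ℝ) (ξ : II) : ℝ := π⁻¹ * ∫ z in sqr, u z * ee ξ z

/-- Cosine coefficients of the boundary value. -/
def tc (c : II → ℝ) (a : ℕ) : ℝ := π / nn a * ∑' b, nn b * c (a, b)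

/-- The solution of `h'' = s h` with `h π = 1`, `h' π = 0`. -/
def Cs (s y : ℝ) : ℝ := if 0 < s then cosh (√s * (π - y)) else cos (√(-s) * (π - y))

/-- Separated series. -/
def sep (α : ℕ → ℝ) (lam : ℝ) (z : ℂ) : ℝ :=
  ∑' a : ℕ, α a * (cos (a * z.re) * Cs (a ^ 2 - lam) z.im)

/-! ### Lattice points -/

abbrev GI : Type := GaussianInt

def Box (X : ℕ) : Finset II := (range (X + 1) ×ˢ range (X + 1)).filter fun ξ => dd ξ ≤ X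

def Sh (n : ℕ) : Finset II := (Box n).filter fun ξ => dd ξ = n

def AA (n : ℕ) : Finset II := (Sh n).filter fun ξ => 1 ≤ ξ.1 ∧ 1 ≤ ξ.2

def rr (n : ℕ) : ℕ := (AA n).card

def Lam (n : ℕ) : Finset GI :=
  ((Icc (-(n : ℤ)) n ×ˢ Icc (-(n : ℤ)) n).image fun p => (⟨p.1, p.2⟩ : GI)).filter
    fun ξ => ξ.norm = n

def r2 (n : ℕ) : ℕ := (Lam n).card

def ab (ξ : GI) : II := (ξ.re.natAbs, ξ.im.natAbs)

def gi (ξ : II) : GI := ⟨ξ.1, ξ.2⟩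

def ang (k : ℕ) (ξ : GI) : ℂ := ((ξ : ℂ) / (‖(ξ : ℂ)‖ : ℝ)) ^ k

def wk (k n : ℕ) : ℂ := ∑ ξ ∈ Lam n, ang k ξ

open Classical in
def pk (k n : ℕ) : ℂ := ∑ β ∈ (Lam n).filter fun β => IsCoprime β (star β), ang k β

def fo (l : ℕ) (ξ : II) : ℝ := (ang (2 * l) (gi ξ)).re

/-- Minimal vanishing sub-sum. -/
def MinOn {ι : Type} (S : Finset ι) (t : ι → GI) : Prop :=
  S.Nonempty ∧ ∑ i ∈ S, t i = 0 ∧ ∀ S' ⊆ S, S'.Nonempty → S' ≠ S → ∑ i ∈ S', t i ≠ 0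

def BalOn {ι : Type} (S : Finset ι) (t : ι → GI) : Prop :=
  ∀ ξ, (S.filter fun i => t i = ξ).card = (S.filter fun i => t i = -ξ).card

def Tup (S : Finset GI) (l : ℕ) : Finset (Fin l → GI) := Fintype.piFinset fun _ => S

open Classical in
def Rel (S : Finset GI) (l : ℕ) : Finset (Fin l → GI) := (Tup S l).filter fun t => MinOn univ t

def rel (n l : ℕ) : ℕ := (Rel (Lam n) l).card

open Classical in
def prim (n l : ℕ) : ℕ := ((Rel (Lam n) l).filter fun t => ∀ γ, (∀ i, γ ∣ t i) → IsUnit γ).card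

def rhoR (S : Finset GI) (l : ℕ) (y : GI → ℝ) : ℝ := ∑ t ∈ Rel S l, ∏ i, y (t i)

/-- The larger of `2` and the largest prime factor. -/
def lpf (m : ℕ) : ℕ := max 2 (m.primeFactors.sup id)

def Low (K : ℕ) (a b : ℕ) : Prop := (a ≠ b ∧ Nat.dist a b ≤ K) ∨ (a = b ∧ a ≤ K)

def kap (p : II × II) : ℕ := if p.2.1 < p.1.1 then p.1.1 - p.2.1 else p.1.1 + p.2.1

def Coin (n : ℕ) (p : II × II) : Prop := ∃ q ∈ AA n ×ˢ AA n, q ≠ p ∧ kap q = kap p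

open Classical in
def coin (n : ℕ) : ℕ := ((AA n ×ˢ AA n).filter (Coin n)).card

open Classical in
def kap' (m : ℕ) (p : II × II) : ℕ :=
  if Coin (dd p.1) p then 2 ^ (m + 3) + Nat.pair (Nat.pair p.1.1 p.1.2) (Nat.pair p.2.1 p.2.2)
  else kap p

def Kn (m n : ℕ) : Finset ℕ := (AA n ×ˢ AA n).image kap ∪ (AA n ×ˢ AA n).image (kap' m)

def blk (m : ℕ) : Finset ℕ := Ico (2 ^ m) (2 ^ (m + 1))

def Psi (n X : ℕ) : ℝ := ∑ ξ ∈ Box X, 1 / DD n ξ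

/-! ### Slowly varying amplitudes -/

def sb (σ : ℕ → ℝ) (m : ℕ) : ℝ := σ (2 ^ (m / 2))

def s2 (σ : ℕ → ℝ) (a b : ℕ) : ℝ := σ (Nat.dist a b) ^ 2 + σ (a + b) ^ 2

def T0 (σ : ℕ → ℝ) (R : ℝ) : ℝ := ∑' k : ℕ, σ k ^ 2 / (R + k)

def T1 (σ : ℕ → ℝ) (R : ℝ) : ℝ := ∑' k : ℕ, σ k ^ 2 * (1 + log k) / (R + k)

structure SV0 (σ : ℕ → ℝ) : Prop where
  zero : σ 0 = 0
  pos : ∀ k, 1 ≤ k → 0 < σ k
  anti : ∀ j k, 1 ≤ j → j ≤ k → σ k ≤ σ j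
  summ : Summable fun k : ℕ => σ k ^ 2 * (1 + log k) / (1 + k)

structure SV (σ : ℕ → ℝ) : Prop extends SV0 σ where
  cmp : ∃ C : ℝ, ∀ᶠ m : ℕ in atTop, σ (2 ^ (m / 40) + 1) ≤ C * sb σ m
  flat : ∀ θ : ℝ, 0 < θ → ∃ e : ℕ, 2 ≤ e ∧ ∀ᶠ m : ℕ in atTop, ∀ k : ℕ, 2 ^ (m / 2 - m / e) < k →
    k ≤ 2 ^ (m / 2 + 2) → |σ k / sb σ m - 1| ≤ θ
  sum3 : Summable fun m : ℕ => (m : ℝ) ^ 3 * sb σ m
  t0 : ∃ C : ℝ, ∀ᶠ m : ℕ in atTop, T0 σ √(2 ^ (m + 2)) ≤ C * (m : ℝ) ^ 2 * sb σ m ^ 2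
  t1 : ∃ C : ℝ, ∀ᶠ m : ℕ in atTop, T1 σ √(2 ^ (m + 2)) ≤ C * (m : ℝ) ^ 3 * sb σ m ^ 2
  low : ∀ ε : ℝ, 0 < ε → ∀ᶠ m : ℕ in atTop, (2 : ℝ) ^ (-(ε * m)) ≤ sb σ m

def kers (σ : ℕ → ℝ) (n : ℤ) (p : II × II) : ℝ := s2 σ p.1.1 p.2.1 / (DD n p.1 * DD n p.2)

def LL (σ : ℕ → ℝ) (n X : ℕ) : ℝ := ∑ p ∈ Box X ×ˢ Box X, kers σ n p

/-! ### Random matrices -/

section
variable {ι : Type} [Fintype ι] [DecidableEq ι]

def GG (W : Matrix ι ι ℝ) (z : ℂ) : Matrix ι ι ℂ := (W.map (↑) - z • (1 : Matrix ι ι ℂ))⁻¹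

def FF (W : Matrix ι ι ℝ) (E δ : ℝ) (i j : ι) : ℝ := δ * (GG W (E + δ * Complex.I) i j).im

def Wig (y : ι × ι → ℝ) : Matrix ι ι ℝ :=
  Matrix.of fun i j => (y (i, j) + y (j, i)) / √(2 * Fintype.card ι)

def zr (W : Matrix ι ι ℝ) (i : ι) : Matrix ι ι ℝ :=
  Matrix.of fun k l => if k = i ∨ l = i then 0 else W k l

def qf (W : Matrix ι ι ℝ) (z : ℂ) (i : ι) : ℂ :=
  ∑ k, ∑ l, if k = i ∨ l = i then 0 else W i k * GG (zr W i) z k l * W i l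

def eps (W : Matrix ι ι ℝ) (z : ℂ) (i : ι) : ℂ :=
  W i i - qf W z i + (∑ k, GG W z k k) / Fintype.card ι

def Xi (p : ℕ) (W : Matrix ι ι ℝ) (A : ι → ℝ) : ℝ :=
  (∑ m ∈ Icc (-(p : ℤ) ^ 3) (p ^ 3), ((∑ i, FF W (m / p ^ 2) (1 / p ^ 2) i i ^ 2) +
    ∑ i, ∑ j, A i * A j * FF W (m / p ^ 2) (1 / p ^ 2) i j ^ 2)) + (∑ i, ∑ j, W i j ^ 2) / p ^ 2

end

/-- Centred law of variance one with a fourth moment. -/
def Law (ν : Measure ℝ) : Prop :=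
  IsProbabilityMeasure ν ∧ MemLp id 4 ν ∧ ∫ x, x ∂ν = 0 ∧ ∫ x, x ^ 2 ∂ν = 1

def obs (l n : ℕ) (ξ : AA n) : ℝ := fo l ξ - (∑ η ∈ AA n, fo l η) / rr n

def Wn (m n : ℕ) (g : ℕ → ℝ) : Matrix (AA n) (AA n) ℝ := Wig fun p => g (kap' m (p.1, p.2))

def Mn (σ : ℕ → ℝ) (m : ℕ) (n : ℕ) (g : ℕ → ℝ) (ξ η : II) : ℝ :=
  (σ (Nat.dist ξ.1 η.1) * g (Nat.dist ξ.1 η.1) + σ (ξ.1 + η.1) * g (ξ.1 + η.1)) /
    (sb σ m * √(2 * rr n))

def Er (σ : ℕ → ℝ) (m n : ℕ) (g : ℕ → ℝ) : ℝ :=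
  ∑ ξ : AA n, ∑ η : AA n, (Mn σ m n g ξ η - Wn m n g ξ η) ^ 2

def zeta (σ : ℕ → ℝ) (l p m n : ℕ) (g : ℕ → ℝ) : ℝ :=
  min (Xi p (Wn m n g) (obs l n) + p ^ 4 * Er σ m n g) (rr n)

def mid (r₀ m : ℕ) : Finset ℕ := (blk m).filter fun n => r₀ ≤ rr n ∧ rr n ≤ m ^ 2

structure GoodA (σ g : ℕ → ℝ) : Prop where
  hs : HS (VV fun k => σ k * g k)
  l2 : Summable fun k : ℕ => (σ k * g k) ^ 2 / (1 + k)
  bb : Tendsto (fun m : ℕ => (∑ n ∈ blk m, BB (VV fun k => σ k * g k) n) / (2 ^ m * sb σ m))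
    atTop (𝓝 0)

def GoodB (σ g : ℕ → ℝ) : Prop :=
  ∀ l : ℕ, ∀ ε : ℝ, 0 < ε → ∃ p r₀ : ℕ, 2 ≤ p ∧
    ∀ᶠ m in atTop, ∑ n ∈ mid r₀ m, zeta σ l p m n g ≤ ε * 2 ^ m

/-! ### Measures of badness -/

def nj (lam : ℝ) : ℕ := (round lam).toNat

def q1 (n : ℕ) (c : II → ℝ) : ℝ := 1 - ∑ ξ ∈ AA n, c ξ ^ 2

def q2 (n : ℕ) (c : II → ℝ) : ℝ := ∑ ξ ∈ AA n, c ξ ^ 4

def q3 (l n : ℕ) (c : II → ℝ) : ℝ := (∑ ξ ∈ AA n, fo l ξ * c ξ ^ 2) ^ 2

def q4 (l n : ℕ) (c : II → ℝ) : ℝ := min 1 (rhoR (Lam n) l fun ξ => |c (ab ξ)| / 2)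

open Classical in
/-- All measures of badness in one list. -/
def qq (i n : ℕ) (c : II → ℝ) : ℝ :=
  if i = 0 then (if IsSquare n then 1 else 0) else if i = 1 then q1 n c else if i = 2 then q2 n c
  else if i % 2 = 1 then q3 (i / 2) n c else q4 (i / 2 + 1) n c

/-! ### Trigonometric sums -/

def ch (ξ : GI) (z : ℂ) : ℂ := Complex.exp (Complex.I * ((ξ.re * z.re + ξ.im * z.im : ℝ) : ℂ))

def TT : Set ℂ := {z | z.re ∈ Set.Ioo (-π) π ∧ z.im ∈ Set.Ioo (-π) π}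

def tp (S : Finset GI) (y : GI → ℂ) (z : ℂ) : ℂ := ∑ ξ ∈ S, y ξ * ch ξ z

/-- Symmetric set of frequencies off the imaginary axis. -/
def Sym (S : Finset GI) : Prop := ∀ ξ ∈ S, -ξ ∈ S ∧ ξ.re ≠ 0

def Herm (y : GI → ℂ) : Prop := ∀ ξ, y (-ξ) = conj (y ξ)

def Hf (S : Finset GI) : Finset GI := S.filter fun ξ => 0 < ξ.re

def un : Measure ℝ := (ENNReal.ofReal (2 * π))⁻¹ • volume.restrict (Set.Ioc 0 (2 * π))

def PH (S : Finset GI) : Measure (Hf S → ℝ) := Measure.pi fun _ => un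

/-- The model with independent phases. -/
def Zm (S : Finset GI) (y : GI → ℂ) (θ : Hf S → ℝ) : ℝ :=
  ∑ ξ : Hf S, 2 * (y ξ * Complex.exp (Complex.I * θ ξ)).re

def gaussF {ι : Type} [Fintype ι] (s : ι → ℝ) (x : ι → ℂ) : ℂ :=
  (Real.exp (-(1 / 2) * ∑ i, ∑ j, s i * s j * EB.J0 (x i - x j)) : ℝ)

def cfF (O : Set ℂ) (U : ℂ → ℝ) (lam : ℝ) {ι : Type} [Fintype ι] (s : ι → ℝ) (x : ι → ℂ) : ℂ :=
  ⨍ z in O, Complex.exp (Complex.I * ((∑ i, s i * U (z + x i / √lam) : ℝ) : ℂ))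

/-- The part of `u` on the circle of squared radius `n`. -/
def Un (n : ℕ) (c : II → ℝ) (z : ℂ) : ℝ := (tp (Lam n) (fun ξ => (c (ab ξ) / 2 : ℝ)) z).re

/-! ### Basic facts -/

theorem mem_Box {X : ℕ} {ξ : II} : ξ ∈ Box X ↔ dd ξ ≤ X := by
  simp only [Box, mem_filter, mem_product, mem_range, dd]
  refine ⟨fun h => h.2, fun h => ⟨⟨?_, ?_⟩, h⟩⟩ <;> nlinarith [Nat.le_self_pow two_ne_zero ξ.1,
    Nat.le_self_pow two_ne_zero ξ.2]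

theorem mem_Sh {n : ℕ} {ξ : II} : ξ ∈ Sh n ↔ dd ξ = n := by
  simp only [Sh, mem_filter, mem_Box]
  exact ⟨fun h => h.2, fun h => ⟨h.le, h⟩⟩

theorem mem_AA {n : ℕ} {ξ : II} : ξ ∈ AA n ↔ dd ξ = n ∧ 1 ≤ ξ.1 ∧ 1 ≤ ξ.2 := by
  simp only [AA, mem_filter, mem_Sh]

theorem mem_Lam {n : ℕ} {ξ : GI} : ξ ∈ Lam n ↔ ξ.norm = n := by
  simp only [Lam, mem_filter, mem_image, mem_product, mem_Icc]
  refine ⟨fun h => h.2, fun h => ⟨⟨(ξ.re, ξ.im), ?_, rfl⟩, h⟩⟩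
  rw [Zsqrtd.norm_def] at h
  refine ⟨⟨?_, ?_⟩, ?_, ?_⟩ <;> dsimp only <;>
    nlinarith [sq_nonneg (ξ.re + 1), sq_nonneg (ξ.re - 1), sq_nonneg (ξ.im + 1),
      sq_nonneg (ξ.im - 1), sq_nonneg ξ.re, sq_nonneg ξ.im, Int.natCast_nonneg n,
      Int.le_self_sq ξ.re, Int.le_self_sq ξ.im, Int.le_self_sq (-ξ.re), Int.le_self_sq (-ξ.im)]

theorem mem_Tup {S : Finset GI} {l : ℕ} {t : Fin l → GI} : t ∈ Tup S l ↔ ∀ i, t i ∈ S :=
  Fintype.mem_piFinset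

theorem mem_Rel {S : Finset GI} {l : ℕ} {t : Fin l → GI} :
    t ∈ Rel S l ↔ (∀ i, t i ∈ S) ∧ MinOn univ t := by
  classical
  simp only [Rel, mem_filter, mem_Tup]

theorem mem_blk {m n : ℕ} : n ∈ blk m ↔ 2 ^ m ≤ n ∧ n < 2 ^ (m + 1) := mem_Ico

theorem one_le_DD (n : ℤ) (ξ : II) : 1 ≤ DD n ξ := le_max_left _ _

theorem nn_pos (a : ℕ) : 0 < nn a := by
  unfold nn; split_ifs <;> positivity

theorem nn_sq (a : ℕ) : nn a ^ 2 = if a = 0 then π⁻¹ else 2 / π := by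
  unfold nn; split_ifs
  · rw [inv_pow, sq_sqrt pi_pos.le]
  · rw [sq_sqrt (by positivity)]

theorem nn_le (a : ℕ) : nn a ≤ 1 := by
  have h := nn_sq a
  have h3 := pi_gt_three
  have : nn a ^ 2 ≤ 1 := by
    rw [h]; split_ifs
    · exact inv_le_one_of_one_le₀ (by linarith)
    · rw [div_le_one pi_pos]; linarith
  nlinarith [nn_pos a]

theorem ww_pos (ξ : II) : 0 < ww ξ := by
  have := nn_pos ξ.1; have := nn_pos ξ.2; unfold ww; positivity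

theorem ww_sq_le (ξ : II) : ww ξ ^ 2 ≤ π⁻¹ := by
  have h : ∀ a, nn a ^ 2 ≤ 2 / π := fun a => by
    rw [nn_sq]; split_ifs
    · rw [inv_eq_one_div]; gcongr; norm_num
    · exact le_rfl
  have := pi_pos
  calc ww ξ ^ 2 = π / 4 * (nn ξ.1 ^ 2 * nn ξ.2 ^ 2) := by
        rw [ww, mul_pow, mul_pow, div_pow, sq_sqrt pi_pos.le]; norm_num
    _ ≤ π / 4 * (2 / π * (2 / π)) := by gcongr <;> exact h _
    _ = π⁻¹ := by field_simp; norm_num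

theorem ww_AA {n : ℕ} {ξ η : II} (h : ξ ∈ AA n) (h' : η ∈ AA n) : ww ξ * ww η = π⁻¹ := by
  obtain ⟨-, a1, a2⟩ := mem_AA.1 h
  obtain ⟨-, b1, b2⟩ := mem_AA.1 h'
  have e : ∀ a, 1 ≤ a → nn a = √(2 / π) := fun a ha => if_neg (by omega)
  have e2 : √(2 / π) * √(2 / π) = 2 / π := mul_self_sqrt (by positivity)
  have e3 : √π * √π = π := mul_self_sqrt pi_pos.le
  have := pi_pos
  rw [ww, ww, e _ a1, e _ a2, e _ b1, e _ b2, e2]
  calc √π / 2 * (2 / π) * (√π / 2 * (2 / π)) = √π * √π / (π * π) := by field_simp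
    _ = π⁻¹ := by rw [e3]; field_simp

/-- Coordinates on a rectangle. -/
theorem rect_mp (A B : Set ℝ) :
    MeasurePreserving Complex.measurableEquivRealProd.symm
      ((volume.restrict A).prod (volume.restrict B))
      (volume.restrict {z : ℂ | z.re ∈ A ∧ z.im ∈ B}) := by
  rw [Measure.prod_restrict]
  exact Complex.volume_preserving_equiv_real_prod.symm.restrict_preimage_emb
    Complex.measurableEquivRealProd.symm.measurableEmbedding {z : ℂ | z.re ∈ A ∧ z.im ∈ B}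

theorem rect_integrable {F : Type} [NormedAddCommGroup F] (A B : Set ℝ) (f : ℂ → F) :
    IntegrableOn f {z : ℂ | z.re ∈ A ∧ z.im ∈ B} ↔
      Integrable (fun p : ℝ × ℝ => f ⟨p.1, p.2⟩) ((volume.restrict A).prod (volume.restrict B)) :=
  ((rect_mp A B).integrable_comp_emb
    Complex.measurableEquivRealProd.symm.measurableEmbedding).symm

theorem rect_integral {F : Type} [NormedAddCommGroup F] [NormedSpace ℝ F] (A B : Set ℝ)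
    (f : ℂ → F) : ∫ z in {z : ℂ | z.re ∈ A ∧ z.im ∈ B}, f z =
      ∫ p : ℝ × ℝ, f ⟨p.1, p.2⟩ ∂((volume.restrict A).prod (volume.restrict B)) :=
  ((rect_mp A B).integral_comp' f).symm

theorem rect_mul (A B : Set ℝ) (f g : ℝ → ℝ) :
    ∫ z in {z : ℂ | z.re ∈ A ∧ z.im ∈ B}, f z.re * g z.im = (∫ x in A, f x) * ∫ y in B, g y := by
  rw [rect_integral]
  exact integral_prod_mul f g

theorem rect_vol (A B : Set ℝ) :
    volume {z : ℂ | z.re ∈ A ∧ z.im ∈ B} = volume A * volume B := by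
  have := (rect_mp A B).measure_preimage_equiv Set.univ
  simpa [← Set.univ_prod_univ, Measure.prod_prod] using this.symm

theorem sqr_open : IsOpen sqr :=
  (isOpen_Ioo.preimage Complex.continuous_re).inter (isOpen_Ioo.preimage Complex.continuous_im)

theorem TT_open : IsOpen TT :=
  (isOpen_Ioo.preimage Complex.continuous_re).inter (isOpen_Ioo.preimage Complex.continuous_im)

theorem sqr_sub : sqr ⊆ TT := fun _ h =>
  ⟨⟨(neg_lt_zero.2 pi_pos).trans h.1.1, h.1.2⟩, (neg_lt_zero.2 pi_pos).trans h.2.1, h.2.2⟩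

theorem TT_bdd : Bornology.IsBounded TT :=
  (Metric.isBounded_Ioo _ _).reProdIm (Metric.isBounded_Ioo _ _)

theorem sqr_bdd : Bornology.IsBounded sqr := TT_bdd.subset sqr_sub

theorem sqr_ne : sqr.Nonempty :=
  ⟨⟨1, 1⟩, ⟨one_pos, by linarith [pi_gt_three]⟩, one_pos, by linarith [pi_gt_three]⟩

theorem sqr_vol : volume.real sqr = π ^ 2 := by
  rw [measureReal_def, sqr, rect_vol, Real.volume_Ioo, sub_zero, ENNReal.toReal_mul,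
    ENNReal.toReal_ofReal pi_pos.le, sq]

theorem TT_vol : volume.real TT = 4 * π ^ 2 := by
  have := pi_pos
  rw [measureReal_def, TT, rect_vol, Real.volume_Ioo, ENNReal.toReal_mul,
    ENNReal.toReal_ofReal (by linarith)]
  ring

theorem grad_inner (u : ℂ → ℝ) (z v : ℂ) : inner ℝ (gradient u z) v = fderiv ℝ u z v :=
  InnerProductSpace.toDual_symm_apply

theorem grad_re (u : ℂ → ℝ) (z : ℂ) : (gradient u z).re = fderiv ℝ u z 1 := by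
  rw [← grad_inner, Complex.inner]; simp

theorem grad_im (u : ℂ → ℝ) (z : ℂ) : (gradient u z).im = fderiv ℝ u z Complex.I := by
  rw [← grad_inner, Complex.inner]; simp

instance : IsProbabilityMeasure un := ⟨by
  rw [un, Measure.smul_apply, Measure.restrict_apply_univ, Real.volume_Ioc, sub_zero, smul_eq_mul]
  exact ENNReal.inv_mul_cancel (by simp [pi_pos]) ENNReal.ofReal_ne_top⟩

instance (S : Finset GI) : IsProbabilityMeasure (PH S) := by unfold PH; infer_instance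

end

end Pool.Agent.P.MP_6b977f_mp.RB
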