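import Pool.Agent.P.MP_6b977f_mp.EB.Defs
import Pool.Agent.P.MP_6b977f_mp.Defs2

/-! The square with a Robin condition of variable coefficient on its bottom side. -/

namespace Pool.Agent.P.MP_6b977f_mp.RB

open Real MeasureTheory Filter Topology Laplacian Set
open scoped ContDiff

noncomputable section

/-- The open square `(0, π)²`; the plane is `ℂ`. -/
def sqr : Set ℂ := {z | z.re ∈ Ioo 0 π ∧ z.im ∈ Ioo 0 π}

/-- The test function `cos (a x) cos (b y)`. -/
def cc (a b : ℕ) (z : ℂ) : ℝ := cos (a * z.re) * cos (b * z.im)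

/-- `t` is the integral of the boundary value of `u` on the bottom side against `ψ`: the limit of
the means over thin strips. -/
def Tr (u : ℂ → ℝ) (ψ : ℝ → ℝ) (t : ℝ) : Prop :=
  Tendsto (fun ε : ℝ => ε⁻¹ * ∫ z in sqr ∩ {z | z.im < ε}, u z * ψ z.re) (𝓝[>] 0) (𝓝 t)

/-- A real eigenfunction of squared norm `|Ω|` and finite energy, with the Neumann condition on
three sides and the Robin condition of coefficient `∑ ρ k cos (k x)` on the bottom side, in weak
form: `∫ ∇u · ∇φ + ∑ ρ k ∫ cos (k x) u φ dx = lam ∫ u φ`. -/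
def REig (ρ : ℕ → ℝ) (lam : ℝ) (u : ℂ → ℝ) : Prop :=
  ContDiffOn ℝ ∞ u sqr ∧ (∀ z ∈ sqr, Δ u z + lam * u z = 0) ∧
    IntegrableOn (fun z => ‖gradient u z‖ ^ 2) sqr ∧ ∫ z in sqr, u z ^ 2 = volume.real sqr ∧
    ∀ a b : ℕ, ∃ t : ℕ → ℝ, (∀ k : ℕ, Tr u (fun x => cos (k * x) * cc a b x) (t k)) ∧
      HasSum (fun k => ρ k * t k) (lam * (∫ z in sqr, u z * cc a b z) -
        ∫ z in sqr, inner ℝ (gradient u z) (gradient (cc a b) z))

/-- A complete orthogonal system of such eigenfunctions, by non-decreasing eigenvalue. -/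
structure RBasis (ρ : ℕ → ℝ) (lam : ℕ → ℝ) (u : ℕ → ℂ → ℝ) : Prop where
  eig : ∀ n, REig ρ (lam n) (u n)
  orth : ∀ m n, m ≠ n → ∫ z in sqr, u m z * u n z = 0
  complete : ∀ f : ℂ → ℝ, MemLp f 2 (volume.restrict sqr) →
    (∀ n, ∫ z in sqr, f z * u n z = 0) → f =ᵐ[volume.restrict sqr] 0
  mono : Monotone lam

/-- Cosine coefficients of the Robin coefficient: `c g k / log (k + 1) ^ β` for `k ≥ 1`. -/
def rho (c β : ℝ) (g : ℕ → ℝ) (k : ℕ) : ℝ := if k = 0 then 0 else c / log (k + 1) ^ β * g k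

end

end Pool.Agent.P.MP_6b977f_mp.RB
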