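import Pool.Agent.P.MP_6b977f_mp.EB.LOCC
import Pool.Agent.P.MP_6b977f_mp.EB.TIGHT0
import Pool.Agent.P.MP_6b977f_mp.EB.TIGHT1
import Pool.Agent.P.MP_6b977f_mp.EB.LW
import Pool.Agent.P.MP_6b977f_mp.EB.UNIQ
import Pool.Agent.P.MP_6b977f_mp.EB.RAT
import Pool.Agent.P.MP_6b977f_mp.EB.MV0
import Pool.Agent.P.MP_6b977f_mp.EB.MV1
import Pool.Agent.P.MP_6b977f_mp.EB.INT

/-! Local weak limits for solutions of the Helmholtz equation, whatever the boundary condition. -/

namespace Pool.Agent.P.MP_6b977f_mp.RB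

open Real MeasureTheory Filter Topology Laplacian Set Metric
open scoped ContDiff BoundedContinuousFunction ComplexConjugate Pointwise ENNReal
open EB

noncomputable section

/-- A normalised solution of the Helmholtz equation. -/
def Eig0 (Ω : Set ℂ) (lam : ℝ) (u : ℂ → ℝ) : Prop :=
  ContDiffOn ℝ ∞ u Ω ∧ (∀ x ∈ Ω, Δ u x + lam * u x = 0) ∧ True ∧ ∫ x in Ω, u x ^ 2 = volume.real Ω

def S_LOCC0 : Prop := ∀ Ω lam u χ, IsOpen Ω → Bornology.IsBounded Ω → 0 < lam → Eig0 Ω lam u →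
  Cut χ → (∀ z ∈ Ω, Continuous (loc χ Ω lam u z)) ∧
    ContinuousOn (fun z => toC (loc χ Ω lam u z)) Ω

def S_TIGHT10 : Prop := ∀ Ω χ (R : ℕ) (ε : ℝ≥0∞), IsOpen Ω → Bornology.IsBounded Ω → Cut χ →
  0 < ε → ∃ M K : ℝ, ∀ lam u, K ≤ lam → Eig0 Ω lam u → ∃ A, MeasurableSet A ∧ volume A ≤ ε ∧
    ∀ z ∈ Ω \ A, (∀ x : ℂ, ‖x‖ ≤ R →
        loc χ Ω lam u z x = Ω.indicator u (z + x / √lam) ∧ |loc χ Ω lam u z x| ≤ M) ∧
      ∀ x y : ℂ, ‖x‖ ≤ R → ‖y‖ ≤ R →
        |loc χ Ω lam u z x - loc χ Ω lam u z y| ≤ M * ‖x - y‖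

def S_LW0 : Prop := ∀ D Ω χ (lam : ℕ → ℝ) (u : ℕ → ℂ → ℝ), Det D → IsOpen Ω →
  Bornology.IsBounded Ω → Ω.Nonempty → Cut χ → (∀ n, Eig0 Ω (lam n) (u n)) →
  Tendsto lam atTop atTop →
  (∀ k, Tendsto (fun n => cf Ω (lam n) (Ω.indicator (u n)) (D k)) atTop (𝓝 (gauss (D k)))) →
  ∃ μ, IsRMW μ ∧ LWL μ χ Ω lam u

theorem locc_bound0 (hint : S_INT) {Ω : Set ℂ} {lam : ℝ} {u : ℂ → ℝ} (ho : IsOpen Ω)
    (hb : Bornology.IsBounded Ω) (hl : 0 < lam) (hu : Eig0 Ω lam u) :
    ∃ M : ℝ, 0 ≤ M ∧ ∀ (x : ℂ) (r : ℝ), 0 < r → √lam * r ≤ 1 → ball x r ⊆ Ω → |u x| * r ≤ M := by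
  obtain ⟨C, hC, h⟩ := hint
  refine ⟨√(C * volume.real Ω), sqrt_nonneg _, fun x r hr h1 h2 => ?_⟩
  have hv : volume.real Ω ≠ 0 :=
    (ENNReal.toReal_pos (ho.measure_pos volume ⟨x, h2 (mem_ball_self hr)⟩).ne'
      hb.measure_lt_top.ne).ne'
  have hi : IntegrableOn (fun y => u y ^ 2) Ω :=
    Integrable.of_integral_ne_zero (by rw [hu.2.2.2]; exact hv)
  have h3 := ((h lam r x u hl.le hr h1 ⟨hu.1.mono h2, fun y hy => hu.2.1 y (h2 hy)⟩).1
    (hi.mono_set h2)).1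
  have h4 : ∫ y in ball x r, u y ^ 2 ≤ volume.real Ω := by
    rw [← hu.2.2.2]
    exact setIntegral_mono_set hi (Eventually.of_forall fun y => sq_nonneg _) h2.eventuallyLE
  refine le_sqrt_of_sq_le ?_
  rw [mul_pow, sq_abs]
  exact h3.trans (mul_le_mul_of_nonneg_left h4 hC.le)

theorem locc_joint0 (hint : S_INT) {Ω : Set ℂ} {lam : ℝ} {u : ℂ → ℝ} {χ : ℝ → ℝ} (ho : IsOpen Ω)
    (hb : Bornology.IsBounded Ω) (hl : 0 < lam) (hu : Eig0 Ω lam u) (hχ : Cut χ) {p : ℂ × ℂ}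
    (hp : p.1 ∈ Ω) : ContinuousAt (fun q : ℂ × ℂ => loc χ Ω lam u q.1 q.2) p := by
  obtain ⟨M, hM, hbd⟩ := locc_bound0 hint ho hb hl hu
  have hs : 0 < √lam := sqrt_pos.2 hl
  have hd : Continuous fun q : ℂ × ℂ => infDist q.1 (frontier Ω) :=
    (continuous_infDist_pt _).comp continuous_fst
  have hd0 := (locc_ball ho hb hp).1
  have ht : ContinuousAt (fun q : ℂ × ℂ => ‖q.2‖ / (√lam * infDist q.1 (frontier Ω))) p :=
    (continuous_snd.norm.continuousAt).div (continuousAt_const.mul hd.continuousAt)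
      (mul_pos hs hd0).ne'
  have hdist : ∀ q : ℂ × ℂ, q.1 ∈ Ω → dist (q.1 + q.2 / √lam) q.1 =
      ‖q.2‖ / (√lam * infDist q.1 (frontier Ω)) * infDist q.1 (frontier Ω) := by
    intro q hq
    have := (locc_ball ho hb hq).1
    rw [dist_eq_norm, add_sub_cancel_left, norm_div, Complex.norm_real, Real.norm_eq_abs,
      abs_of_pos hs]
    field_simp
  rcases lt_trichotomy (‖p.2‖ / (√lam * infDist p.1 (frontier Ω))) 1 with h | h | h
  · have h1 : p.1 + p.2 / √lam ∈ Ω := (locc_ball ho hb hp).2 (by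
      rw [mem_ball, hdist p hp]; exact mul_lt_of_lt_one_left hd0 h)
    have h2 : ContinuousAt u (p.1 + p.2 / √lam) := hu.1.continuousOn.continuousAt (ho.mem_nhds h1)
    exact (h2.comp (f := fun q : ℂ × ℂ => q.1 + q.2 / √lam) (by fun_prop)).mul
      (hχ.1.continuous.continuousAt.comp ht)
  · have h1 : χ 1 = 0 := hχ.2.2.2 1 le_rfl
    have h2 : ContinuousAt (dslope χ 1) 1 :=
      continuousAt_dslope_same.2 (hχ.1.differentiable (by simp) 1)
    have h3 : dslope χ 1 1 = 0 := by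
      rw [dslope_same]
      exact IsLocalMin.deriv_eq_zero (Eventually.of_forall fun t => h1 ▸ (hχ.2.1 t).1)
    have h4 : loc χ Ω lam u p.1 p.2 = 0 := by rw [loc, h, h1, mul_zero]
    have h5 : Tendsto (fun q : ℂ × ℂ => M / infDist q.1 (frontier Ω) *
        |dslope χ 1 (‖q.2‖ / (√lam * infDist q.1 (frontier Ω)))|) (𝓝 p) (𝓝 0) := by
      have a1 := ((continuousAt_const (y := M)).div hd.continuousAt hd0.ne').mul
        ((h2.comp_of_eq ht h).abs)
      have a2 := a1.tendsto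
      simp only [Pi.mul_apply, Function.comp_apply, h, h3, abs_zero, mul_zero] at a2
      exact a2
    have h6 : ∀ᶠ q : ℂ × ℂ in 𝓝 p, √lam * ((1 - ‖q.2‖ / (√lam * infDist q.1 (frontier Ω))) *
        infDist q.1 (frontier Ω)) < 1 := by
      have a1 := (continuousAt_const (y := √lam)).mul
        (((continuousAt_const (y := (1 : ℝ))).sub ht).mul hd.continuousAt)
      exact a1.eventually_lt continuousAt_const (by simp [h])
    have h7 : ∀ᶠ q : ℂ × ℂ in 𝓝 p, q.1 ∈ Ω := continuous_fst.continuousAt (ho.mem_nhds hp)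
    rw [ContinuousAt, h4]
    refine squeeze_zero_norm' ?_ h5
    filter_upwards [h6, h7] with q b1 b2
    obtain ⟨b3, b4⟩ := locc_ball ho hb b2
    have b5 := hdist q b2
    rw [loc]
    generalize ‖q.2‖ / (√lam * infDist q.1 (frontier Ω)) = t at b1 b5
    rcases le_or_gt 1 t with b6 | b6
    · rw [hχ.2.2.2 t b6, mul_zero, norm_zero]; positivity
    have b7 := hbd (q.1 + q.2 / √lam) _ (mul_pos (sub_pos.2 b6) b3) b1.le
      ((ball_subset_ball' (by rw [b5]; linarith)).trans b4)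
    have b8 : χ t = (t - 1) * dslope χ 1 t := by
      rw [← smul_eq_mul, sub_smul_dslope, h1, sub_zero]
    rw [b8, Real.norm_eq_abs, abs_mul, abs_mul, abs_of_neg (sub_neg.2 b6), ← mul_assoc]
    gcongr
    rw [le_div_iff₀ b3]
    linarith
  · refine (continuousAt_const (y := (0 : ℝ))).congr ?_
    filter_upwards [continuousAt_const.eventually_lt ht h] with q hq
    rw [loc, hχ.2.2.2 _ hq.le, mul_zero]

theorem t_locc0 (hint : S_INT) : S_LOCC0 := by
  intro Ω lam u χ ho hb hl hu hχ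
  have h1 : ∀ z ∈ Ω, Continuous (loc χ Ω lam u z) := fun z hz =>
    continuous_iff_continuousAt.2 fun w =>
      (locc_joint0 hint ho hb hl hu hχ (p := (z, w)) hz).comp (f := fun w : ℂ => (z, w))
        (by fun_prop)
  refine ⟨h1, continuousOn_iff_continuous_domRestrict.2
    (ContinuousMap.continuous_of_continuous_uncurry _ ?_)⟩
  have e : (Function.uncurry fun (z : Ω) (w : ℂ) =>
      Ω.domRestrict (fun z => toC (loc χ Ω lam u z)) z w) =
      fun q : Ω × ℂ => loc χ Ω lam u q.1 q.2 := by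
    funext q
    simp [Function.uncurry, toC, h1 _ q.1.2]
  rw [e]
  exact continuous_iff_continuousAt.2 fun q =>
    (locc_joint0 hint ho hb hl hu hχ (p := (q.1, q.2)) q.1.2).comp
      (f := fun q : Ω × ℂ => ((q.1 : ℂ), q.2)) (by fun_prop)

theorem t_tight10 (hint : S_INT) : S_TIGHT10 := by
  classical
  intro Ω χ R ε hΩ hb hχ hε
  rcases Ω.eq_empty_or_nonempty with rfl | hne
  · exact ⟨0, 0, fun lam u _ _ => ⟨∅, MeasurableSet.empty, by simp, fun z hz => hz.1.elim⟩⟩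
  obtain ⟨C, hC, hI⟩ := hint
  obtain ⟨-, -, ⟨c, hc, hχ1⟩, -⟩ := hχ
  have hε2 : 0 < ε / 2 := ENNReal.half_pos hε.ne'
  obtain ⟨t, ht, hA1⟩ := tight1_layer hΩ hb hne _ hε2
  obtain ⟨δ, hδ0, hδ1, hδ2⟩ := ENNReal.lt_iff_exists_real_btwn.mp hε2
  rw [ENNReal.ofReal_pos] at hδ1
  set V := volume.real Ω with hV
  have hVpos : 0 < V := ENNReal.toReal_pos (hΩ.measure_pos volume hne).ne' hb.measure_lt_top.ne
  set M' : ℝ := π * (R + 2) ^ 2 * V / δ with hM'
  have hM'0 : 0 < M' := by positivity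
  set S : ℝ := (R + 2) * (1 + 1 / c) / t with hS
  have hS0 : 0 < S := by positivity
  refine ⟨√(C * M'), S ^ 2, fun lam u hlam hu => ?_⟩
  have hl0 : 0 < lam := lt_of_lt_of_le (by positivity) hlam
  set s := √lam with hs
  have hs0 : 0 < s := Real.sqrt_pos.mpr hl0
  have hss : s ^ 2 = lam := Real.sq_sqrt hl0.le
  have hSs : S ≤ s := Real.le_sqrt_of_sq_le hlam
  have hst : (R + 2) * (1 + 1 / c) ≤ s * t := by rwa [hS, div_le_iff₀ ht] at hSs
  have hR0 : (0 : ℝ) ≤ R := Nat.cast_nonneg R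
  have hint2 : IntegrableOn (fun x => u x ^ 2) Ω :=
    Integrable.of_integral_ne_zero (by rw [hu.2.2.2]; exact hVpos.ne')
  let v : ℂ → ℝ≥0∞ := fun y => ENNReal.ofReal (Ω.indicator u y ^ 2)
  have hv : Measurable v := by
    have : Measurable (Ω.indicator u) := by
      rw [← piecewise_eq_indicator]
      exact hu.1.continuousOn.measurable_piecewise continuousOn_const hΩ.measurableSet
    exact (this.pow_const 2).ennreal_ofReal
  have hvΩ : ∀ B ⊆ Ω, MeasurableSet B →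
      ∫⁻ y in B, v y = ENNReal.ofReal (∫ y in B, u y ^ 2) := fun B hB hBm => by
    rw [ofReal_integral_eq_lintegral_ofReal (hint2.mono_set hB)
      (Eventually.of_forall fun x => sq_nonneg _)]
    refine setLIntegral_congr_fun hBm fun y hy => ?_
    simp only [v, indicator_of_mem (hB hy)]
  have hvt : ∫⁻ y, v y = ENNReal.ofReal V := by
    rw [hV, ← hu.2.2.2, ← hvΩ Ω Subset.rfl hΩ.measurableSet, ← lintegral_indicator hΩ.measurableSet]
    refine lintegral_congr fun y => ?_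
    by_cases hy : y ∈ Ω
    · rw [indicator_of_mem hy]
    · simp [v, indicator_of_notMem hy]
  obtain ⟨m2, b2⟩ := tight1_markov v hv ((R + 2) / s) (ENNReal.ofReal (M' / lam))
  refine ⟨{z ∈ Ω | infDist z (frontier Ω) ≤ t} ∪
    {z : ℂ | ENNReal.ofReal (M' / lam) ≤ ∫⁻ y in ball z ((R + 2) / s), v y},
    (hΩ.measurableSet.inter
      (isClosed_le (continuous_infDist_pt _) continuous_const).measurableSet).union m2, ?_, ?_⟩
  · refine (measure_union_le _ _).trans ?_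
    rw [← ENNReal.add_halves ε]
    refine add_le_add hA1 (le_trans ?_ hδ2.le)
    have h1 : ENNReal.ofReal ((R + 2) / s) ^ 2 * NNReal.pi * ∫⁻ y, v y =
        ENNReal.ofReal (M' / lam) * ENNReal.ofReal δ := by
      rw [hvt, ← ENNReal.ofReal_pow (by positivity), ← ENNReal.ofReal_coe_nnreal,
        ← ENNReal.ofReal_mul (by positivity), ← ENNReal.ofReal_mul (by positivity),
        ← ENNReal.ofReal_mul (by positivity), NNReal.coe_real_pi, hM', ← hss]
      congr 1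
      field_simp
    rw [h1] at b2
    exact (ENNReal.mul_le_mul_iff_right (by simp; positivity) ENNReal.ofReal_ne_top).mp b2
  rintro z ⟨hz, hzA⟩
  simp only [mem_union, mem_ofPred_eq, not_or, not_and, not_le] at hzA
  have hd := hzA.1 hz
  have hc1 : 0 < 1 / c := by positivity
  have hrt : (R + 2) / s ≤ t := by
    rw [div_le_iff₀ hs0]; nlinarith
  have hball : ball z ((R + 2) / s) ⊆ Ω := tight1_ball hΩ hz (hrt.trans hd.le)
  have hmem : ∀ x : ℂ, ‖x‖ ≤ R → z + x / s ∈ closedBall z (R / s) := fun x hx => by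
    rw [mem_closedBall, dist_self_add_left, norm_div, Complex.norm_real, Real.norm_of_nonneg hs0.le]
    gcongr
  have hsub : ∀ p ∈ closedBall z (R / s), ball p (1 / s) ⊆ ball z ((R + 2) / s) := fun p hp => by
    refine ball_subset_ball' ?_
    rw [mem_closedBall] at hp
    have : (R + 2) / s = 1 / s + R / s + 1 / s := by ring
    have h2 : 0 < 1 / s := by positivity
    linarith
  have hpΩ : ∀ p ∈ closedBall z (R / s), p ∈ Ω := fun p hp =>
    hball (hsub p hp (mem_ball_self (by positivity)))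
  have hloc : ∀ x : ℂ, ‖x‖ ≤ R → loc χ Ω lam u z x = u (z + x / s) := fun x hx => by
    rw [loc, ← hs, hχ1, mul_one]
    rw [div_le_iff₀ (mul_pos hs0 (ht.trans hd))]
    have h1 : c * ((R + 2) * (1 + 1 / c)) = (R + 2) * c + (R + 2) := by field_simp
    have h2 : c * (s * t) ≤ c * (s * infDist z (frontier Ω)) := by gcongr
    have h3 : c * ((R + 2) * (1 + 1 / c)) ≤ c * (s * t) := by gcongr
    nlinarith
  have hest : ∀ p ∈ closedBall z (R / s),
      |u p| ≤ √(C * M') ∧ ‖fderiv ℝ u p‖ ≤ s * √(C * M') := fun p hp => by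
    have hB : ball p (1 / s) ⊆ Ω := (hsub p hp).trans hball
    have h1 := (hI lam (1 / s) p u hl0.le (by positivity) (by rw [← hs]; field_simp; rfl)
      ⟨hu.1.mono hB, fun x hx => hu.2.1 x (hB hx)⟩).1 (hint2.mono_set hB)
    have h2 : ∫ y in ball p (1 / s), u y ^ 2 ≤ M' / lam := by
      have h3 := (lintegral_mono_set (f := v) (μ := volume) (hsub p hp)).trans_lt hzA.2
      rw [hvΩ _ hB measurableSet_ball, ENNReal.ofReal_lt_ofReal_iff (by positivity)] at h3
      exact h3.le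
    have h3 : C * ∫ y in ball p (1 / s), u y ^ 2 ≤ C * M' * (1 / s) ^ 2 := by
      rw [mul_assoc]
      gcongr
      rwa [div_pow, one_pow, hss, mul_one_div]
    refine ⟨Real.abs_le_sqrt (le_of_mul_le_mul_right (h1.1.trans h3) (by positivity)), ?_⟩
    rw [← div_le_iff₀' hs0]
    refine Real.le_sqrt_of_sq_le (le_of_mul_le_mul_right (a := (1 / s) ^ 2) ?_ (by positivity))
    refine le_trans (le_of_eq ?_) (h1.2.trans h3)
    field_simp
  refine ⟨fun x hx => ⟨?_, ?_⟩, fun x y hx hy => ?_⟩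
  · rw [hloc x hx, indicator_of_mem (hpΩ _ (hmem x hx))]
  · rw [hloc x hx]; exact (hest _ (hmem x hx)).1
  · rw [hloc x hx, hloc y hy]
    have h1 := (convex_closedBall z (R / s)).norm_image_sub_le_of_norm_fderiv_le (𝕜 := ℝ) (f := u)
      (fun p hp => (hu.1.contDiffAt (hΩ.mem_nhds (hpΩ p hp))).differentiableAt (by simp))
      (fun p hp => (hest p hp).2) (hmem y hy) (hmem x hx)
    refine h1.trans (le_of_eq ?_)
    rw [add_sub_add_left_eq_sub, ← sub_div, norm_div, Complex.norm_real,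
      Real.norm_of_nonneg hs0.le]
    field_simp

theorem t_lw0 (hlocc : S_LOCC0) (htight0 : S_TIGHT0) (htight1 : S_TIGHT10) (huniq : S_UNIQ) :
    S_LW0 := by
  intro D Ω χ lam u hD hΩ hb hne hχ hu hlam hcf
  classical
  borelize C(ℂ, ℝ)
  have hV0 : volume Ω ≠ 0 := (hΩ.measure_pos volume hne).ne'
  have hV1 : volume Ω ≠ ⊤ := hb.measure_lt_top.ne
  have hΩm := hΩ.measurableSet
  set P : Measure ℂ := ProbabilityTheory.cond volume Ω with hP
  have : IsProbabilityMeasure P := ProbabilityTheory.cond_isProbabilityMeasure_of_finite hV0 hV1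
  have hav : ∀ {E : Type} [NormedAddCommGroup E] [NormedSpace ℝ E] (f : ℂ → E),
      ⨍ z in Ω, f z = ∫ z, f z ∂P := fun f => setAverage_eq' _ _ _
  set G : ℕ → ℂ → C(ℂ, ℝ) := fun n z =>
    if 0 < lam n then toC (loc χ Ω (lam n) (u n) z) else 0 with hG
  have hGm : ∀ n, AEMeasurable (G n) P := fun n => by
    by_cases h : 0 < lam n
    · simp only [hG, if_pos h]
      exact ((hlocc Ω _ _ χ hΩ hb h (hu n) hχ).2.aemeasurable hΩm).smul_measure _
    · simp only [hG, if_neg h]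
      exact aemeasurable_const
  set m : ℕ → RM := fun n => P.map (G n) with hm
  have hm1 : ∀ n, IsProbabilityMeasure (m n) := fun n => Measure.isProbabilityMeasure_map (hGm n)
  have hpos : ∀ᶠ n in atTop, 0 < lam n := hlam.eventually_gt_atTop 0
  have key : ∀ (R : ℕ) (ε : ℝ≥0∞), 0 < ε → ∃ M : ℝ, ∀ᶠ n in atTop, ∃ A, MeasurableSet A ∧ P A ≤ ε ∧
      ∀ z ∈ Ω \ A, (∀ x : ℂ, ‖x‖ ≤ R →
        G n z x = Ω.indicator (u n) (z + x / √(lam n)) ∧ |G n z x| ≤ M) ∧
      ∀ x y : ℂ, ‖x‖ ≤ R → ‖y‖ ≤ R → |G n z x - G n z y| ≤ M * ‖x - y‖ := fun R ε hε => by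
    obtain ⟨M, K, h⟩ := htight1 Ω χ R (volume Ω * ε) hΩ hb hχ (ENNReal.mul_pos hV0 hε.ne')
    refine ⟨M, ?_⟩
    filter_upwards [hpos, hlam.eventually_ge_atTop K] with n h0 hK
    obtain ⟨A, hA, hA', h1⟩ := h _ _ hK (hu n)
    refine ⟨A, hA, ?_, fun z hz => ?_⟩
    · rw [hP, ProbabilityTheory.cond_apply hΩm]
      refine (mul_le_mul' le_rfl ((measure_mono inter_subset_right).trans hA')).trans ?_
      rw [← mul_assoc, ENNReal.inv_mul_cancel hV0 hV1, one_mul]
    · simpa only [hG, if_pos h0, lw_toC ((hlocc Ω _ _ χ hΩ hb h0 (hu n) hχ).1 z hz.1)] using h1 z hz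
  have hae : ∀ᵐ z ∂P, z ∈ Ω := ProbabilityTheory.ae_cond_mem hΩm
  have ht := htight0 m hm1 fun R ε hε => by
    obtain ⟨M, hM⟩ := key R ε hε
    refine ⟨M, hM.mono fun n ⟨A, _, hA', h1⟩ => ?_⟩
    rw [hm, Measure.map_apply_of_aemeasurable (hGm n) (lw_closed R M).measurableSet.compl]
    refine (measure_mono_ae ?_).trans hA'
    filter_upwards [hae] with z hz hz'
    by_contra hc
    exact hz' ⟨fun x hx => ((h1 z ⟨hz, hc⟩).1 x hx).2, (h1 z ⟨hz, hc⟩).2⟩
  have hc : ∀ k, Tendsto (fun n => cfM (m n) (D k)) atTop (𝓝 (gauss (D k))) := fun k => by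
    refine (hcf k).congr_dist (NormedAddGroup.tendsto_nhds_zero.2 fun ε hε => ?_)
    obtain ⟨R, hR⟩ := exists_nat_ge (∑ x ∈ (D k).support, ‖x‖)
    obtain ⟨M, hM⟩ := key R (ENNReal.ofReal (ε / 4)) (by simpa using hε)
    refine hM.mono fun n ⟨A, hA, hA', h1⟩ => ?_
    have h2 : Measurable (Ω.indicator (u n)) :=
      (hu n).1.continuousOn.measurable_piecewise continuousOn_const hΩm
    have h3 := lw_diff (P := P) hA
      (a := fun z => (D k).sum fun x s => s * Ω.indicator (u n) (z + x / √(lam n)))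
      (b := fun z => (D k).sum fun x s => s * G n z x)
      (by unfold Finsupp.sum; fun_prop)
      ((by unfold Finsupp.sum; fun_prop :
        Continuous fun F : C(ℂ, ℝ) => (D k).sum fun x s => s * F x).measurable.comp_aemeasurable
          (hGm n))
      (by
        filter_upwards [hae] with z hz hz'
        refine Finset.sum_congr rfl fun x hx => ?_
        exact congrArg _ ((h1 z ⟨hz, hz'⟩).1 x
          ((Finset.single_le_sum (fun y _ => norm_nonneg y) hx).trans hR)).1.symm)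
    have h4 : P.real A ≤ ε / 4 := ENNReal.toReal_le_of_le_ofReal (by positivity) hA'
    have h5 : cfM (m n) (D k) = ∫ z, lw_Φ (D k) (G n z) ∂P :=
      integral_map (hGm n) (lw_Φ (D k)).continuous.aestronglyMeasurable
    rw [Real.norm_eq_abs, abs_dist, dist_eq_norm, h5, cf, hav]
    exact h3.trans_lt (by linarith)
  have hsub : ∀ s : ℕ → ℕ, Tendsto s atTop atTop → ∃ (t : ℕ → ℕ) (μ : RM), IsRMW μ ∧
      ∀ Φ : C(ℂ, ℝ) →ᵇ ℝ, Tendsto (fun n => ∫ F, Φ F ∂(m (s (t n)))) atTop (𝓝 (∫ F, Φ F ∂μ)) :=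
    fun s hs => by
      obtain ⟨t, μ, ht, hμ, h⟩ := ht s
      exact ⟨t, μ, hD μ hμ fun k => tendsto_nhds_unique (lw_cfM (fun n => hm1 _) hμ h (D k))
        ((hc k).comp (hs.comp ht.tendsto_atTop)), h⟩
  obtain ⟨-, μ, hμ, -⟩ := hsub id tendsto_id
  refine ⟨μ, hμ, fun Φ => ?_⟩
  have h1 : Tendsto (fun n => ∫ F, Φ F ∂(m n)) atTop (𝓝 (∫ F, Φ F ∂μ)) :=
    tendsto_of_subseq_tendsto fun s hs => by
      obtain ⟨t, ν, hν, h⟩ := hsub s hs
      exact ⟨t, huniq ν μ hν hμ ▸ h Φ⟩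
  refine h1.congr' (hpos.mono fun n hn => ?_)
  simp only [hav, hm]
  rw [integral_map (hGm n) Φ.continuous.aestronglyMeasurable]
  simp only [hG, if_pos hn]

theorem lw0 : S_LW0 :=
  t_lw0 (t_locc0 (t_int (t_mv1 t_mv0))) t_tight0 (t_tight10 (t_int (t_mv1 t_mv0))) t_uniq

end

end Pool.Agent.P.MP_6b977f_mp.RB
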