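import Pool.Agent.P.MP_6b977f_mp.RB.Iface
import Pool.Agent.P.MP_6b977f_mp.RB.LW0
import Pool.Agent.P.MP_6b977f_mp.RB.KV

/-! Final assembly. -/

namespace Pool.Agent.P.MP_6b977f_mp.RB

open Real MeasureTheory ProbabilityTheory Filter Topology

theorem fin_cut : EB.Cut fun t => Real.smoothTransition (2 - 2 * t) :=
  ⟨Real.smoothTransition.contDiff.comp (by fun_prop),
    fun _ => ⟨Real.smoothTransition.nonneg _, Real.smoothTransition.le_one _⟩,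
    ⟨1 / 2, by norm_num, fun _ _ => Real.smoothTransition.one_of_one_le (by linarith)⟩,
    fun _ _ => Real.smoothTransition.zero_of_nonpos (by linarith)⟩

theorem fin_rho (c β : ℝ) (g : ℕ → ℝ) : rho c β g = fun k => rho c β (fun _ => 1) k * g k := by
  funext k
  unfold rho
  split_ifs <;> simp

theorem fin_core (hSVL : S_SVL) (hPA : S_PA) (hPB : S_PB) (hEXS : S_EXS) (hBR : S_BR)
    (hBR2 : S_BR2) (hLOW : S_LOW) (hSH2 : S_SH2) (hBLK : S_BLK) (hCES : S_CES) (hCF : S_CF)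
    {c β : ℝ} (hc : 0 < c) (hβ : 4 < β) {ν : Measure ℝ} (hν : Law ν) :
    ∀ᵐ g ∂(Measure.infinitePi fun _ : ℕ => ν), (∃ lam u, RBasis (rho c β g) lam u) ∧
      ∀ lam u, RBasis (rho c β g) lam u → ∃ s, FullDensity s ∧ ∀ χ, EB.Cut χ →
        ∃ μ, EB.IsRMW μ ∧ EB.LWL μ χ sqr (lam ∘ s) (u ∘ s) := by
  have hσ := hSVL c β hc hβ
  filter_upwards [hPA _ ν hσ hν, hPB _ ν hσ hν] with g hA hB
  rw [fin_rho]
  have h0 : (fun k => rho c β (fun _ => 1) k * g k) 0 = 0 := by simp [rho]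
  obtain ⟨b1, b2⟩ := hBR2 _ h0 hA.l2
  refine ⟨?_, fun lam u hu => ?_⟩
  · obtain ⟨lam, x, hx⟩ := hEXS _ hA.hs
    exact ⟨lam, b2 lam x hx⟩
  have hs := b1 lam u hu
  obtain ⟨l1, l2⟩ := hLOW _ _ _ hA.hs hs
  obtain ⟨s, s1, s2⟩ := kv (fun i j => qq i (nj (lam j)) (co (u j))) fun i ε hε =>
    hCES lam _ hs.mono l1 l2 (fun j => (hSH2 _ hs.orth).1 i _ j)
      (fun ε hε => hBLK _ g lam _ hσ hA hB hs i ε hε) ε hε
  have l3 : Tendsto (lam ∘ s) atTop atTop := l1.comp s1.1.tendsto_atTop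
  obtain ⟨D, hD⟩ := EB.t_rat
  refine ⟨s, s1, fun χ hχ => lw0 D sqr χ _ _ hD sqr_open sqr_bdd sqr_ne hχ
    (fun j => ⟨(hu.eig _).1, (hu.eig _).2.1, trivial, (hu.eig _).2.2.2.1⟩) l3 fun k => ?_⟩
  exact hCF (lam ∘ s) (u ∘ s) (fun j => (hu.eig _).1.continuousOn)
    (fun j => ((hBR _ _ _ h0 hA.l2).1 (hu.eig _)).1) (fun j => (hu.eig _).2.2.2.1) l3 s2 (D k)

theorem fin_law : Law (gaussianReal 0 1) := by
  refine ⟨inferInstance, memLp_id_gaussianReal 4, integral_id_gaussianReal, ?_⟩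
  have h := variance_id_gaussianReal (μ := 0) (v := 1)
  rw [variance_eq_integral measurable_id.aemeasurable] at h
  simpa using h

theorem fin_main (hSVL : S_SVL) (hPA : S_PA) (hPB : S_PB) (hEXS : S_EXS) (hBR : S_BR)
    (hBR2 : S_BR2) (hLOW : S_LOW) (hSH2 : S_SH2) (hBLK : S_BLK) (hCES : S_CES) (hCF : S_CF) :
    ∃ μ : EB.RM, EB.IsRMW μ ∧ (∀ μ' : EB.RM, EB.IsRMW μ' → μ' = μ) ∧
      ∀ c β : ℝ, 0 < c → 4 < β → ∀ ν : Measure ℝ, IsProbabilityMeasure ν → MemLp id 4 ν →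
        ∫ x, x ∂ν = 0 → ∫ x, x ^ 2 ∂ν = 1 → ∀ᵐ g ∂(Measure.infinitePi fun _ : ℕ => ν),
          (∃ lam u, RBasis (rho c β g) lam u) ∧ ∀ lam u, RBasis (rho c β g) lam u →
            ∃ s, FullDensity s ∧ ∀ χ, EB.Cut χ → EB.LWL μ χ sqr (lam ∘ s) (u ∘ s) := by
  have H := @fin_core hSVL hPA hPB hEXS hBR hBR2 hLOW hSH2 hBLK hCES hCF
  obtain ⟨g, ⟨lam, u, hu⟩, h⟩ := (H one_pos (by norm_num : (4 : ℝ) < 5) fin_law).exists
  obtain ⟨s, -, h⟩ := h lam u hu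
  obtain ⟨μ, hμ, -⟩ := h _ fin_cut
  refine ⟨μ, hμ, fun μ' h' => EB.t_uniq μ' μ h' hμ, fun c β hc hβ ν a1 a2 a3 a4 => ?_⟩
  filter_upwards [H hc hβ ⟨a1, a2, a3, a4⟩] with g hg
  refine ⟨hg.1, fun lam u hu => ?_⟩
  obtain ⟨s, s1, s2⟩ := hg.2 lam u hu
  refine ⟨s, s1, fun χ hχ => ?_⟩
  obtain ⟨μ', h1, h2⟩ := s2 χ hχ
  exact EB.t_uniq μ' μ h1 hμ ▸ h2

end Pool.Agent.P.MP_6b977f_mp.RB
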