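import Pool.Agent.P.MP_6b977f_mp.RB.Basic

/-! Statements of the steps. -/

namespace Pool.Agent.P.MP_6b977f_mp.RB

open Real MeasureTheory ProbabilityTheory Filter Topology Finset Laplacian
open scoped ContDiff ComplexConjugate ENNReal Matrix

noncomputable section

/-! ### Arithmetic -/

-- deps:
def S_DIV : Prop := ∀ ε : ℝ, 0 < ε → ∃ C : ℝ, 0 < C ∧
  (∀ m : ℕ, m ≠ 0 → (m.divisors.card : ℝ) ≤ C * (m : ℝ) ^ ε) ∧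
  ∀ (M : ℤ) (Z : Finset (ℕ × ℕ)), M ≠ 0 → (∀ p ∈ Z, (p.2 : ℤ) ^ 2 - (p.1 : ℤ) ^ 2 = M) →
    (Z.card : ℝ) ≤ C * |(M : ℝ)| ^ ε

-- deps:
def S_GP : Prop := ∀ p : ℕ, p.Prime → ∃ q : GI, Prime q ∧ (q.norm = p ∨ q = p) ∧
  ∀ ξ : GI, (p : ℤ) ∣ ξ.norm → q ∣ ξ ∨ star q ∣ ξ

-- deps: GP
def S_R4D : Prop := ∀ n : ℕ, 1 ≤ n → r2 n ≤ 4 * n.divisors.card

-- deps:
def S_S4 : Prop :=
  (∀ n : ℕ, (Sh n).card ≤ r2 n ∧ rr n ≤ r2 n) ∧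
  ∀ n : ℕ, ¬IsSquare n → Sh n = AA n ∧ r2 n = 4 * rr n ∧ Sym (Lam n) ∧
    (∀ ξ ∈ Lam n, ab ξ ∈ AA n) ∧ (∀ f : II → ℝ, ∑ ξ ∈ Lam n, f (ab ξ) = 4 * ∑ η ∈ AA n, f η) ∧
    (∀ (f : II → ℝ) (k : ℕ), ∑ ξ ∈ Lam n, (f (ab ξ) : ℂ) * ang k ξ =
      if k % 2 = 0 then ((4 * ∑ η ∈ AA n, f η * fo (k / 2) η : ℝ) : ℂ) else 0) ∧
    ∀ (c : II → ℝ) (z : ℂ), Un n c z = π * ∑ η ∈ AA n, c η * ee η z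

-- deps:
def S_LAT : Prop := ∃ C : ℝ, 0 < C ∧ ∀ N : ℕ, (∑ n ∈ Icc 1 N, (r2 n : ℝ) ≤ 8 * N) ∧
  (∑ n ∈ Icc 1 N, (r2 n : ℝ) / √n ≤ C * √N) ∧ ∑ n ∈ Icc 1 N, (r2 n : ℝ) / n ≤ C * (1 + log N)

-- deps:
def S_P1 : Prop := ∀ k n : ℕ, 4 ∣ k → 1 ≤ n →
  ((‖wk k n‖ ^ 2 : ℝ) : ℂ) = ∑ p ∈ n.divisorsAntidiagonal, (r2 p.1 : ℂ) * pk (2 * k) p.2

open Classical in
-- deps:
def S_P2 : Prop := ∀ k n : ℕ, 8 ∣ k → 1 ≤ n → wk k n =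
  ∑ p ∈ n.divisorsAntidiagonal, if IsSquare p.1 ∨ ∃ d, p.1 = 2 * d ^ 2 then pk k p.2 else 0

-- deps: LAT
def S_P3 : Prop := ∀ k : ℕ, 1 ≤ k → ∃ C : ℝ, ∀ N : ℕ, ‖∑ n ∈ Icc 1 N, wk k n‖ ≤ C * √N

-- deps: LAT P1 P2 P3
def S_W2 : Prop := (∃ C : ℝ, ∀ N : ℕ, ∑ n ∈ Icc 1 N, (r2 n : ℝ) ^ 2 ≤ C * N * (1 + log N)) ∧
  ∀ k : ℕ, 1 ≤ k → ∃ C : ℝ, ∀ N : ℕ, ∑ n ∈ Icc 1 N, ‖wk k n‖ ^ 2 ≤ C * N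

-- deps:
def S_Q3 : Prop := ¬Summable fun q : ℕ => if q.Prime ∧ q % 4 = 3 then (1 / q : ℝ) else 0

-- deps: Q3
def S_DZ : Prop := ∀ ε : ℝ, 0 < ε → ∀ᶠ N : ℕ in atTop,
  (((Icc 1 N).filter fun n => r2 n ≠ 0).card : ℝ) ≤ ε * N

-- deps:
def S_MER : Prop := ∀ c : ℝ, 0 ≤ c → ∃ C : ℝ, ∀ q : ℕ, 1 ≤ q →
  Real.exp (c * ∑ p ∈ (q + 1).primesBelow, (1 / p : ℝ)) ≤ C * √q

-- deps: MER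
def S_REL3 : Prop := ∀ l : ℕ, ∃ C : ℝ, ∀ N : ℕ,
  ∑ m ∈ Icc 1 N, (m.divisors.card : ℝ) ^ l / (m * lpf m) ≤ C

-- deps: GP
def S_REL2 : Prop := ∀ (l m : ℕ) (Q : Finset ℕ), 1 ≤ m → (∀ p ∈ Q, p.Prime) →
  ∑ p ∈ Q, prim (p * m) l ≤ 2 ^ l * r2 m ^ l

-- deps:
def S_REL0 : Prop := ∀ n l : ℕ, 1 ≤ n →
  rel n l ≤ ∑ p ∈ n.divisorsAntidiagonal, r2 p.1 * prim p.2 l

-- deps: REL0 REL2 REL3 R4D LAT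
def S_REL1 : Prop := ∀ l : ℕ, ∃ C : ℝ, ∀ N : ℕ, ∑ n ∈ Icc 1 N, (rel n l : ℝ) ≤ C * N

-- deps:
def S_MINS : Prop := ∀ (ι : Type) [DecidableEq ι] (t : ι → GI),
  (∀ S : Finset ι, S.Nonempty → ∑ i ∈ S, t i = 0 → ∃ S' ⊆ S, MinOn S' t) ∧
  (∀ S : Finset ι, (∀ i ∈ S, t i ≠ 0) → ∑ i ∈ S, t i = 0 → ¬BalOn S t →
    ∃ S' ⊆ S, 3 ≤ S'.card ∧ MinOn S' t) ∧
  ∀ (l : ℕ) (e : Fin l ↪ ι), MinOn (univ.map e) t ↔ MinOn univ (t ∘ e)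

-- deps: MINS
def S_COIN : Prop := ∀ n : ℕ, coin n ≤ 256 * ∑ l ∈ Icc 3 8, rel n l

open Classical in
-- deps: DIV
def S_CNT : Prop := ∀ ε : ℝ, 0 < ε → ∃ C : ℝ, 0 < C ∧ ∀ X K T : ℕ, 1 ≤ X → T ^ 2 ≤ X →
  (((Box X ×ˢ Box X).filter fun p => Low K p.1.1 p.2.1 ∧ |(dd p.1 : ℤ) - dd p.2| ≤ T).card : ℝ) ≤
    C * (X : ℝ) ^ (1 / 2 + ε) * ((K + T + 1) * (T + 1))

-- deps: DIV
def S_SHARE : Prop := ∀ ε : ℝ, 0 < ε → ∃ C : ℝ, 0 < C ∧ ∀ X k : ℕ, 1 ≤ X →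
  (((range (X + 1)).filter fun n => k ∈ (AA n ×ˢ AA n).image kap).card : ℝ) ≤
    C * (X : ℝ) ^ (1 / 2 + ε)

-- deps: SHARE
def S_KAP : Prop :=
  (∀ m, ∀ n ∈ blk m, Function.Injective fun p : AA n × AA n => kap' m (p.1, p.2)) ∧
  (∀ σ l p m n, σ 0 = 0 → DependsOn (zeta σ l p m n) (Kn m n)) ∧
  ∃ C : ℝ, 0 < C ∧ ∀ m, ∀ n ∈ blk m,
    (((blk m).filter fun n' => ¬Disjoint (Kn m n) (Kn m n')).card : ℝ) ≤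
      C * (1 + (rr n : ℝ) ^ 2) * 2 ^ (3 / 4 * m : ℝ)

-- deps:
def S_PHI : Prop :=
  (∀ S : ℝ, 1 ≤ S → ∀ B : Finset ℕ, ∑ b ∈ B, 1 / (S + b) ^ 2 ≤ 2 / S) ∧
  (∀ (a : ℕ) (B : Finset ℕ), ∑ b ∈ B, 1 / (1 + (dd (a, b) : ℝ)) ≤ 6 / (1 + a)) ∧
  (∀ (X a : ℕ) (B : Finset ℕ), 4 ≤ X → (∀ b ∈ B, X < dd (a, b)) →
    ∑ b ∈ B, 1 / (dd (a, b) : ℝ) ≤ 16 / (√X + a)) ∧
  ∀ (y : ℤ) (T : ℕ) (B : Finset ℕ), 1 ≤ T → (∀ b ∈ B, (T : ℝ) < |(b : ℝ) ^ 2 - y|) →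
    ∑ b ∈ B, 1 / |(b : ℝ) ^ 2 - y| ≤ 20 / √T

-- deps: W2 LAT S4
def S_PSI : Prop := ∃ C : ℝ, ∀ m : ℕ, 1 ≤ m →
  (∑ n ∈ blk m, Psi n (2 ^ (m + 2)) ≤ C * 2 ^ m * m) ∧
    ∑ n ∈ blk m, Psi n (2 ^ (m + 2)) ^ 2 ≤ C * 2 ^ m * m ^ 3

-- deps: PHI
def S_SS : Prop := ∀ (σ : ℕ → ℝ) (R : ℝ), SV0 σ → 1 ≤ R →
  (∀ B : Finset (ℕ × ℕ), ∑ p ∈ B, s2 σ p.1 p.2 / ((R + p.1) * (R + p.2)) ≤ 20 * T1 σ R) ∧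
    ∀ (a : ℕ) (B : Finset ℕ), (a : ℝ) ≤ R → ∑ b ∈ B, s2 σ a b / (R + b) ≤ 6 * T0 σ R

-- deps: PHI SS HS0
def S_EB1 : Prop := ∀ σ, SV0 σ → (∀ n : ℤ, Summable (kers σ n)) ∧ ∃ C : ℝ, ∀ n X : ℕ, 4 ≤ X →
  2 * n ≤ X → ∑' p, kers σ n p ≤ LL σ n X + C * (T0 σ √X * Psi n X + T1 σ √X)

-- deps: PHI CNT
def S_EB2 : Prop := ∀ ε : ℝ, 0 < ε → ∃ C : ℝ, ∀ (σ : ℕ → ℝ) (N : Finset ℕ) (X K T : ℕ), SV0 σ →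
  1 ≤ T → (2 * T) ^ 2 ≤ X → ∑ n ∈ N, LL σ n X ≤ 2 * σ (K + 1) ^ 2 * ∑ n ∈ N, Psi n X ^ 2 +
    C * σ 1 ^ 2 * ((X : ℝ) ^ (1 / 2 + ε) * ((K + T + 1) * (T + 1) ^ 2) +
      (K + 1) / √T * ∑ n ∈ N, Psi n X)

-- deps: EB1 EB2 PSI
def S_EBS : Prop := ∀ σ, SV σ →
  Summable fun m : ℕ => (∑ n ∈ blk m, ∑' p, kers σ n p) / (2 ^ m * sb σ m)

-- deps:
def S_SVA : Prop := ∀ c β : ℝ, 0 < c → 4 < β →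
  (Summable fun k : ℕ => 1 / ((1 + k : ℝ) * log (k + 1) ^ 2)) ∧ SV0 (rho c β fun _ => 1) ∧
  ∃ c₁ c₂ : ℝ, 0 < c₁ ∧ ∀ᶠ m : ℕ in atTop, c₁ / (m : ℝ) ^ β ≤ sb (rho c β fun _ => 1) m ∧
    sb (rho c β fun _ => 1) m ≤ c₂ / (m : ℝ) ^ β ∧
    rho c β (fun _ => 1) (2 ^ (m / 40) + 1) ≤ c₂ / (m : ℝ) ^ β

-- deps:
def S_SVB : Prop := ∀ c β : ℝ, 0 < c → 4 < β → ∀ θ : ℝ, 0 < θ → ∃ e : ℕ, 2 ≤ e ∧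
  ∀ᶠ m : ℕ in atTop, ∀ k : ℕ, 2 ^ (m / 2 - m / e) < k → k ≤ 2 ^ (m / 2 + 2) →
    |rho c β (fun _ => 1) k / sb (rho c β fun _ => 1) m - 1| ≤ θ

-- deps: SVA
def S_SVC : Prop := ∀ c β : ℝ, 0 < c → 4 < β → ∃ C : ℝ, ∀ᶠ m : ℕ in atTop,
  T0 (rho c β fun _ => 1) √(2 ^ (m + 2)) ≤ C * (m : ℝ) ^ 2 / ((m : ℝ) ^ β) ^ 2 ∧
    T1 (rho c β fun _ => 1) √(2 ^ (m + 2)) ≤ C * (m : ℝ) ^ 3 / ((m : ℝ) ^ β) ^ 2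

-- deps: SVA SVB SVC
def S_SVL : Prop := ∀ c β : ℝ, 0 < c → 4 < β → SV (rho c β fun _ => 1)

open Classical in
-- deps: W2 DZ S4 R4D DIV
def S_BADW : Prop :=
  (∀ (r₀ : ℕ) (ε : ℝ), 0 < ε → ∀ᶠ m : ℕ in atTop,
    ∑ n ∈ (blk m).filter fun n => IsSquare n ∨ n ∉ mid r₀ m, (r2 n : ℝ) ≤ ε * 2 ^ m) ∧
  ∀ (k : ℕ) (ε : ℝ), 1 ≤ k → 0 < ε → ∀ᶠ m : ℕ in atTop, ∑ n ∈ blk m, ‖wk k n‖ ≤ ε * 2 ^ m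

/-! ### Random matrices -/

-- deps:
def S_RES : Prop := ∀ (ι : Type) [Fintype ι] [DecidableEq ι] (E δ : ℝ) (z : ℂ), 0 < δ →
  z = E + δ * Complex.I →
  (∀ W : Matrix ι ι ℝ, W.IsSymm →
    (W.map (↑) - z • (1 : Matrix ι ι ℂ)) * GG W z = 1 ∧
    GG W z * (W.map (↑) - z • (1 : Matrix ι ι ℂ)) = 1 ∧ (GG W z).IsSymm ∧
    (∀ v : ι → ℂ, ∑ i, ‖(GG W z *ᵥ v) i‖ ^ 2 ≤ (∑ i, ‖v i‖ ^ 2) / δ ^ 2) ∧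
    (∀ i j, ∑ k, GG W z i k * conj (GG W z j k) = (((GG W z i j).im / δ : ℝ) : ℂ)) ∧
    (∀ i j, ‖GG W z i j‖ ≤ 1 / δ) ∧ ∀ i, 0 ≤ (GG W z i i).im) ∧
  ∀ (X : Type) [TopologicalSpace X] (W : X → Matrix ι ι ℝ), Continuous W → (∀ x, (W x).IsSymm) →
    ∀ i j, Continuous fun x => GG (W x) z i j

-- deps: RES
def S_SCHUR : Prop := ∀ (ι : Type) [Fintype ι] [DecidableEq ι] (E δ : ℝ) (z : ℂ)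
  (W : Matrix ι ι ℝ) (i : ι), 0 < δ → z = E + δ * Complex.I → W.IsSymm →
  GG W z i i * (W i i - z - qf W z i) = 1 ∧
    ‖(∑ k, GG W z k k) - ∑ k, GG (zr W i) z k k‖ ≤ 2 * √(∑ k, W i k ^ 2) / δ ^ 2

-- deps:
def S_SC : Prop := ∀ (ι : Type) [Fintype ι] [Nonempty ι] (E δ : ℝ) (G e : ι → ℂ), 0 < δ →
  δ ≤ 1 / 4 → (∀ i, 0 ≤ (G i).im) → (∀ i, ‖G i‖ ≤ 1 / δ) →
  (∀ i, G i * (e i - (E + δ * Complex.I) - (∑ k, G k) / Fintype.card ι) = 1) →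
  ∑ i, ‖G i‖ ^ 2 ≤ 32 * Fintype.card ι + 32 * (∑ i, ‖e i‖ ^ 2) / δ ^ 6

-- deps:
def S_QF0 : Prop := ∀ (Ω : Type) [MeasurableSpace Ω] (P : Measure Ω) [IsProbabilityMeasure P]
  (ι : Type) [Fintype ι] [DecidableEq ι] (x : ι → Ω → ℝ) (B : ι → ι → ℂ) (s : ι → ℝ) (K : ℝ),
  (∀ k, Measurable (x k)) → (∀ k, IndepFun (x k) (fun w j => if j = k then 0 else x j w) P) →
  (∀ k, MemLp (x k) 4 P) → (∀ k, ∫ w, x k w ∂P = 0) →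
  (∀ k, ∫ w, x k w ^ 2 ∂P = s k) → (∀ k, ∫ w, x k w ^ 4 ∂P ≤ K) →
  ∫⁻ w, ‖(∑ k, ∑ l, (x k w : ℂ) * B k l * x l w) - ∑ k, s k * B k k‖ₑ ^ 2 ∂P ≤
    ENNReal.ofReal (2 * K * ∑ k, ∑ l, ‖B k l‖ ^ 2)

-- deps: QF0
def S_QF : Prop := ∀ (Ω : Type) [MeasurableSpace Ω] (P : Measure Ω) [IsProbabilityMeasure P]
  (ι : Type) [Fintype ι] [DecidableEq ι] (x : ι → Ω → ℝ) (B : Ω → ι → ι → ℂ) (s : ι → ℝ) (K H : ℝ),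
  (∀ k, Measurable (x k)) → Measurable B →
  (∀ k, IndepFun (x k) (fun w j => if j = k then 0 else x j w) P) →
  IndepFun B (fun w k => x k w) P →
  (∀ k, MemLp (x k) 4 P) → (∀ k, ∫ w, x k w ∂P = 0) → (∀ k, ∫ w, x k w ^ 2 ∂P = s k) →
  (∀ k, ∫ w, x k w ^ 4 ∂P ≤ K) → 0 ≤ K → (∀ w, ∑ k, ∑ l, ‖B w k l‖ ^ 2 ≤ H) →
  ∫⁻ w, ‖(∑ k, ∑ l, (x k w : ℂ) * B w k l * x l w) - ∑ k, s k * B w k k‖ₑ ^ 2 ∂P ≤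
    ENNReal.ofReal (2 * K * H)

-- deps:
def S_ROW : Prop := ∀ ν, Law ν → ∃ K : ℝ, 0 ≤ K ∧ ∀ (ι : Type) [Fintype ι] [DecidableEq ι] (i : ι),
  (∀ k, IndepFun (fun y : ι × ι → ℝ => Wig y i k) (fun y j => if j = k then 0 else Wig y i j)
    (Measure.pi fun _ => ν)) ∧
  IndepFun (fun y : ι × ι → ℝ => fun k l => zr (Wig y) i k l) (fun y k => Wig y i k)
    (Measure.pi fun _ => ν) ∧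
  ∀ k, MemLp (fun y : ι × ι → ℝ => Wig y i k) 4 (Measure.pi fun _ => ν) ∧
    ∫ y, Wig y i k ∂(Measure.pi fun _ : ι × ι => ν) = 0 ∧
    ∫ y, Wig y i k ^ 2 ∂(Measure.pi fun _ : ι × ι => ν) =
      (if k = i then 2 else 1) / Fintype.card ι ∧
    ∫ y, Wig y i k ^ 4 ∂(Measure.pi fun _ : ι × ι => ν) ≤ K / (Fintype.card ι : ℝ) ^ 2

-- deps: RES SCHUR QF ROW
def S_EPS : Prop := ∀ ν, Law ν → ∃ C : ℝ, ∀ (ι : Type) [Fintype ι] [DecidableEq ι] (E δ : ℝ)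
  (i : ι), 0 < δ → δ ≤ 1 →
  ∫⁻ y, ‖eps (Wig y) (E + δ * Complex.I) i‖ₑ ^ 2 ∂(Measure.pi fun _ : ι × ι => ν) ≤
    ENNReal.ofReal (C / (Fintype.card ι * δ ^ 4))

-- deps: RES
def S_EXCH : Prop := ∀ (ν : Measure ℝ) [IsProbabilityMeasure ν] (ι : Type) [Fintype ι]
  [DecidableEq ι] (E δ : ℝ) (A : ι → ℝ), 0 < δ → ∑ i, A i = 0 → (∀ i, |A i| ≤ 2) →
  (∀ i j, Integrable (fun y => FF (Wig y) E δ i j ^ 2) (Measure.pi fun _ : ι × ι => ν)) ∧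
  ∫ y, ∑ i, ∑ j, A i * A j * FF (Wig y) E δ i j ^ 2 ∂(Measure.pi fun _ : ι × ι => ν) ≤
    4 * ∫ y, ∑ i, FF (Wig y) E δ i i ^ 2 ∂(Measure.pi fun _ : ι × ι => ν)

-- deps: RES SCHUR SC EPS EXCH ROW
def S_RM : Prop :=
  (∀ (ι : Type) [Fintype ι] [DecidableEq ι] (p : ℕ) (A : ι → ℝ), 1 ≤ p →
    Continuous fun y : ι × ι → ℝ => Xi p (Wig y) A) ∧
  ∀ ν, Law ν → ∀ p : ℕ, 2 ≤ p → ∃ r₀ : ℕ, ∀ (ι : Type) [Fintype ι] [DecidableEq ι]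
    (A : ι → ℝ), r₀ ≤ Fintype.card ι → ∑ i, A i = 0 → (∀ i, |A i| ≤ 2) →
    Integrable (fun y => Xi p (Wig y) A) (Measure.pi fun _ : ι × ι => ν) ∧
    ∫ y, Xi p (Wig y) A ∂(Measure.pi fun _ : ι × ι => ν) ≤ 600 * Fintype.card ι / p

-- deps: RES
def S_DR1 : Prop := ∀ (ι : Type) [Fintype ι] [DecidableEq ι] (J : Type) (T : Finset J) (E δ : ℝ)
  (W : Matrix ι ι ℝ) (A : ι → ℝ) (v e : J → ι → ℝ) (μ : J → ℝ), 0 < δ → W.IsSymm →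
  (∀ i, |A i| ≤ 2) → (∀ y : ι → ℝ, ∑ j ∈ T, (∑ i, y i * v j i) ^ 2 ≤ ∑ i, y i ^ 2) →
  (∀ j ∈ T, ∑ i, v j i ^ 2 ≤ 1) → (∀ j ∈ T, W *ᵥ v j = μ j • v j + e j) →
  (∀ j ∈ T, |μ j - E| ≤ δ) →
  ∑ j ∈ T, ((∑ i, v j i ^ 4) + (∑ i, A i * v j i ^ 2) ^ 2) ≤
    32 * ((∑ i, FF W E δ i i ^ 2) + ∑ i, ∑ k, A i * A k * FF W E δ i k ^ 2) +
      80 * (∑ j ∈ T, ∑ i, e j i ^ 2) / δ ^ 2

-- deps: DR1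
def S_DR : Prop := ∀ (ι : Type) [Fintype ι] [DecidableEq ι] (J : Type) (T : Finset J) (p : ℕ)
  (W : Matrix ι ι ℝ) (A : ι → ℝ) (v e : J → ι → ℝ) (μ : J → ℝ), 1 ≤ p → W.IsSymm →
  (∀ i, |A i| ≤ 2) → (∀ y : ι → ℝ, ∑ j ∈ T, (∑ i, y i * v j i) ^ 2 ≤ ∑ i, y i ^ 2) →
  (∀ j ∈ T, ∑ i, v j i ^ 2 ≤ 1) → (∀ j ∈ T, W *ᵥ v j = μ j • v j + e j) →
  ∑ j ∈ T, ((∑ i, v j i ^ 4) + (∑ i, A i * v j i ^ 2) ^ 2) ≤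
    100 * (Xi p W A + p ^ 4 * ∑ j ∈ T, ∑ i, e j i ^ 2)

-- deps: DR
def S_OBS : Prop := (∀ k ξ, ‖ang k ξ‖ ≤ 1) ∧ (∀ l ξ, |fo l ξ| ≤ 1) ∧ (∀ l n ξ, |obs l n ξ| ≤ 2) ∧
  (∀ l n, ∑ ξ, obs l n ξ = 0) ∧ (∀ m n g, (Wn m n g).IsSymm) ∧
  ∀ σ l p m n g, 1 ≤ p → 0 ≤ Xi p (Wn m n g) (obs l n) ∧ 0 ≤ Er σ m n g ∧
    0 ≤ zeta σ l p m n g ∧ zeta σ l p m n g ≤ rr n

/-! ### The model on sequences -/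

-- deps:
def S_HS0 : Prop :=
  (∀ x y : II → ℝ, (Summable fun ξ => x ξ ^ 2) → (Summable fun ξ => y ξ ^ 2) →
    (Summable fun ξ => |x ξ * y ξ|) ∧ (∑' ξ, x ξ * y ξ) ^ 2 ≤ (∑' ξ, x ξ ^ 2) * ∑' ξ, y ξ ^ 2) ∧
  (∀ (K : II → II → ℝ) (x : II → ℝ), (Summable fun p : II × II => K p.1 p.2 ^ 2) →
    (Summable fun ξ => x ξ ^ 2) → (∀ ξ, Summable fun η => K ξ η ^ 2) ∧
    (Summable fun ξ => (∑' η, K ξ η * x η) ^ 2) ∧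
    ∑' ξ, (∑' η, K ξ η * x η) ^ 2 ≤ (∑' p : II × II, K p.1 p.2 ^ 2) * ∑' ξ, x ξ ^ 2 ∧
    ∀ y : II → ℝ, (Summable fun ξ => y ξ ^ 2) →
      ∑' ξ, y ξ * ∑' η, K ξ η * x η = ∑' η, x η * ∑' ξ, K ξ η * y ξ) ∧
  (∀ (J : Type) [DecidableEq J] (c : J → II → ℝ) (T : Finset J) (y : II → ℝ), SON c →
    (Summable fun ξ => y ξ ^ 2) → ∑ j ∈ T, (∑' ξ, y ξ * c j ξ) ^ 2 ≤ ∑' ξ, y ξ ^ 2) ∧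
  (∀ (J : Type) [DecidableEq J] (c : J → II → ℝ) (T : Finset J) (K : II → II → ℝ), SON c →
    (Summable fun p : II × II => K p.1 p.2 ^ 2) →
    ∑ j ∈ T, ∑' ξ, (∑' η, K ξ η * c j η) ^ 2 ≤ ∑' p : II × II, K p.1 p.2 ^ 2) ∧
  ∀ (n : ℤ) (ξ : II), 1 + (dd ξ : ℝ) ≤ (2 + |(n : ℝ)|) * DD n ξ ∧
    DD n ξ ≤ (1 + |(n : ℝ)|) * (1 + dd ξ)

-- deps: HS0
def S_WIN1 : Prop := ∀ (V : II → II → ℝ) (n : ℤ) (lam : ℕ → ℝ) (c : ℕ → II → ℝ) (T : Finset ℕ),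
  HS V → SON c → (∀ j ∈ T, SEig V (lam j) (c j) ∧ |lam j - n| ≤ 1 / 2) →
  (T.card : ℝ) ≤ 2 * (Sh n.toNat).card + 4 * BB V n

-- deps: HS0
def S_WIN2 : Prop := ∀ (V : II → II → ℝ) (n : ℕ) (lam : ℕ → ℝ) (c : ℕ → II → ℝ) (T : Finset ℕ),
  HS V → SON c → (∀ j ∈ T, SEig V (lam j) (c j) ∧ |lam j - n| ≤ 1 / 2) → BB V n ≤ 1 / 16 →
  ∑ j ∈ T, (1 - ∑ ξ ∈ Sh n, c j ξ ^ 2) ≤ 16 * BB V n ∧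
    ∑ j ∈ T, ∑ ξ ∈ Sh n, ((lam j - n) * c j ξ - ∑ η ∈ Sh n, V ξ η * c j η) ^ 2 ≤ 16 * BB V n ^ 2

-- deps: HS0
def S_FORM : Prop := ∀ V : II → II → ℝ, HS V → (∃ C : ℕ, 1 ≤ C ∧ BB V (-C) ≤ 1 / 4) ∧
  ∀ (C : ℕ) (lam : ℕ → ℝ) (c : ℕ → II → ℝ), 1 ≤ C → BB V (-C) ≤ 1 / 4 → SON c →
    (∀ j, SEig V (lam j) (c j)) → (∀ j, 0 < lam j + C) ∧
    ∀ (T : Finset ℕ) (ξ : II), ∑ j ∈ T, (lam j + C) * c j ξ ^ 2 ≤ 3 / 2 * (dd ξ + C)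

-- deps: FORM WIN1
def S_LOW : Prop := ∀ V lam c, HS V → SBasis V lam c →
  Tendsto lam atTop atTop ∧ ∃ C : ℝ, ∀ᶠ N : ℕ in atTop, lam N ≤ C * N

-- deps: HS0
def S_EXS1 : Prop := ∀ (V : II → II → ℝ) (C : ℕ), HS V → 1 ≤ C → BB V (-C) ≤ 1 / 4 →
  ∃ T : lp (fun _ : II => ℝ) 2 →L[ℝ] lp (fun _ : II => ℝ) 2, IsCompactOperator T ∧
    (∀ x y, inner ℝ (T x) y = inner ℝ x (T y)) ∧ (∀ x, T x = 0 → x = 0) ∧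
    ∀ (k : ℝ) (x : lp (fun _ : II => ℝ) 2), k ≠ 0 → x ≠ 0 → T x = k • x →
      0 < k ∧ SEig V (k⁻¹ - C) x

-- deps: EXS1 FORM
def S_EXS : Prop := ∀ V, HS V → ∃ lam c, SBasis V lam c

/-! ### Gaussian limit -/

open Classical in
-- deps: MINS
def S_UB : Prop := ∀ m : ℕ, ∃ C : ℝ, ∀ (S : Finset GI) (y : GI → ℝ) (η : ℝ), 0 ∉ S →
  (∀ ξ, 0 ≤ y ξ) → ∑ ξ ∈ S, y ξ ^ 2 ≤ 1 → η ≤ 1 → (∀ l ∈ Icc 3 m, rhoR S l y ≤ η) → 0 ≤ η →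
  ∑ t ∈ (Tup S m).filter fun t => ∑ i, t i = 0 ∧ ¬BalOn univ t, ∏ i, y (t i) ≤ C * η

-- deps:
def S_TOR : Prop := ∀ (S : Finset GI) (y : GI → ℂ), Continuous (tp S y) ∧
  (Sym S → Herm y → ∀ z, (tp S y z).im = 0) ∧
  ∀ m : ℕ, ⨍ z in TT, tp S y z ^ m = ∑ t ∈ (Tup S m).filter fun t => ∑ i, t i = 0, ∏ i, y (t i)

open Classical in
-- deps:
def S_MOD1 : Prop := ∀ (S : Finset GI) (y : GI → ℂ) (m : ℕ), Sym S → Herm y →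
  ((∫ θ, Zm S y θ ^ m ∂PH S : ℝ) : ℂ) =
    ∑ t ∈ (Tup S m).filter fun t => BalOn univ t, ∏ i, y (t i)

-- deps:
def S_TAY : Prop := ∀ (L : ℕ) (y : ℝ),
  ‖Complex.exp (Complex.I * y) - ∑ k ∈ range L, (Complex.I * y) ^ k / k.factorial‖ ≤
    |y| ^ L / L.factorial

-- deps: TAY
def S_MOD2 : Prop := ∀ (S : Finset GI) (y : GI → ℂ), Sym S → Herm y →
  ‖(∫ θ, Complex.exp (Complex.I * Zm S y θ) ∂PH S) -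
      (Real.exp (-(1 / 2) * ∑ ξ ∈ S, ‖y ξ‖ ^ 2) : ℝ)‖ ≤ ∑ ξ ∈ S, (2 * ‖y ξ‖ ^ 3 + ‖y ξ‖ ^ 4) ∧
    ∀ L : ℕ, Even L → (∫ θ, Zm S y θ ^ L ∂PH S) / L.factorial ≤
      Real.exp (8 * ∑ ξ ∈ S, ‖y ξ‖ ^ 2) / 2 ^ L

-- deps: UB TOR MOD1 MOD2 TAY
def S_CLT : Prop := ∀ (S : ℕ → Finset GI) (y : ℕ → GI → ℂ) (a : ℕ → GI → ℝ) (M V : ℝ),
  (∀ j, Sym (S j)) → (∀ j, Herm (y j)) → (∀ j ξ, 0 ≤ a j ξ ∧ ‖y j ξ‖ ≤ M * a j ξ) →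
  (∀ j, ∑ ξ ∈ S j, a j ξ ^ 2 ≤ 1) → Tendsto (fun j => ∑ ξ ∈ S j, a j ξ ^ 4) atTop (𝓝 0) →
  (∀ l, 3 ≤ l → Tendsto (fun j => rhoR (S j) l (a j)) atTop (𝓝 0)) →
  Tendsto (fun j => ∑ ξ ∈ S j, ‖y j ξ‖ ^ 2) atTop (𝓝 V) →
  Tendsto (fun j => ⨍ z in TT, Complex.exp (Complex.I * (tp (S j) (y j) z).re)) atTop
    (𝓝 (Real.exp (-(1 / 2) * V) : ℝ))

-- deps:
def S_VAR : Prop := ∀ (n : ℕ → ℕ) (lam : ℕ → ℝ) (b : ℕ → GI → ℝ) (w : ℂ), (∀ j, 1 ≤ n j) →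
  (∀ j ξ, 0 ≤ b j ξ) → Tendsto (fun j => ∑ ξ ∈ Lam (n j), b j ξ) atTop (𝓝 1) →
  (∀ k, 1 ≤ k → Tendsto (fun j => ∑ ξ ∈ Lam (n j), (b j ξ : ℂ) * ang k ξ) atTop (𝓝 0)) →
  Tendsto (fun j => (n j : ℝ) / lam j) atTop (𝓝 1) →
  Tendsto (fun j => ∑ ξ ∈ Lam (n j), (b j ξ : ℂ) * ch ξ (w / √(lam j))) atTop
    (𝓝 (EB.J0 w : ℝ))

-- deps: CLT VAR S4
def S_TCL : Prop := ∀ (n : ℕ → ℕ) (lam : ℕ → ℝ) (c : ℕ → II → ℝ), (∀ j, ¬IsSquare (n j)) →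
  (∀ j, 0 ≤ q1 (n j) (c j)) → (∀ i, Tendsto (fun j => qq i (n j) (c j)) atTop (𝓝 0)) →
  Tendsto (fun j => (n j : ℝ) / lam j) atTop (𝓝 1) →
  ∀ (ι : Type) [Fintype ι] (s : ι → ℝ) (x : ι → ℂ),
    Tendsto (fun j => cfF TT (Un (n j) (c j)) (lam j) s x) atTop (𝓝 (gaussF s x))

-- deps:
def S_JD : Prop := (∀ v, EB.J0 (-v) = EB.J0 v) ∧ Tendsto EB.J0 (cocompact ℂ) (𝓝 0)

-- deps: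
def S_LAY : Prop := (∀ h : ℂ, volume.real {z ∈ sqr | z + h ∉ sqr} ≤ 4 * π * ‖h‖) ∧
  ∀ (F : ℂ → ℂ) (h : ℂ), Measurable F → (∀ z, ‖F z‖ ≤ 1) →
    ‖(∫ z in sqr, F (z + h)) - ∫ z in sqr, F z‖ ≤ 8 * π * ‖h‖

-- deps: JD LAY
def S_ERG : Prop := ∀ (U : ℕ → ℂ → ℝ) (lam : ℕ → ℝ), (∀ j, Continuous (U j)) →
  Tendsto lam atTop atTop →
  (∀ (ι : Type) [Fintype ι] (s : ι → ℝ) (x : ι → ℂ),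
    Tendsto (fun j => cfF TT (U j) (lam j) s x) atTop (𝓝 (gaussF s x))) →
  ∀ (ι : Type) [Fintype ι] (s : ι → ℝ) (x : ι → ℂ),
    Tendsto (fun j => cfF sqr (U j) (lam j) s x) atTop (𝓝 (gaussF s x))

-- deps: LAY
def S_CFQ : Prop := ∀ (u U : ℕ → ℂ → ℝ) (lam : ℕ → ℝ) (τ : ℂ →₀ ℝ),
  (∀ j, ContinuousOn (u j) sqr) → (∀ j, Continuous (U j)) →
  (∀ j, IntegrableOn (fun z => (u j z - U j z) ^ 2) sqr) → Tendsto lam atTop atTop →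
  Tendsto (fun j => ∫ z in sqr, (u j z - U j z) ^ 2) atTop (𝓝 0) →
  Tendsto (fun j => cfF sqr (U j) (lam j) (fun x : τ.support => τ x) fun x => x) atTop
    (𝓝 (gaussF (fun x : τ.support => τ x) fun x => x)) →
  Tendsto (fun j => EB.cf sqr (lam j) (sqr.indicator (u j)) τ) atTop (𝓝 (EB.gauss τ))

/-! ### Functions and sequences -/

-- deps:
def S_CB0 : Prop :=
  (∀ a b : ℕ, ∫ x in Set.Ioo 0 π, nn a * cos (a * x) * (nn b * cos (b * x)) =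
    if a = b then 1 else 0) ∧
  (∀ a b : ℕ, a ≠ b → ∫ x in Set.Ioo 0 π, sin (a * x) * sin (b * x) = 0) ∧
  (∀ ξ, ContDiff ℝ ∞ (ee ξ) ∧ MemLp (ee ξ) 2 (volume.restrict sqr)) ∧
  (∀ f : ℂ → ℝ, Continuous f → MemLp f 2 (volume.restrict sqr)) ∧
  ∀ ξ η, ∫ z in sqr, ee ξ z * ee η z = if ξ = η then 1 else 0

-- deps:
def S_CB1 : Prop := ∀ f : ℂ → ℝ, MemLp f 2 (volume.restrict sqr) →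
  (∀ a b, ∫ z in sqr, f z * cc a b z = 0) → f =ᵐ[volume.restrict sqr] 0

-- deps: CB0 CB1
def S_CB2 : Prop :=
  (∀ f g : ℂ → ℝ, MemLp f 2 (volume.restrict sqr) → MemLp g 2 (volume.restrict sqr) →
    HasSum (fun ξ => co f ξ * co g ξ) ((∫ z in sqr, f z * g z) / π ^ 2)) ∧
  ∀ x : II → ℝ, (Summable fun ξ => x ξ ^ 2) →
    ∃ f : ℂ → ℝ, MemLp f 2 (volume.restrict sqr) ∧ co f = x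

-- deps:
def S_IBP1 : Prop := ∀ (u : ℂ → ℝ) (a b : ℕ), ContDiffOn ℝ 1 u sqr →
  MemLp u 2 (volume.restrict sqr) → IntegrableOn (fun z => ‖gradient u z‖ ^ 2) sqr →
  ∫ z in sqr, inner ℝ (gradient u z) (gradient (cc a b) z) =
    (dd (a, b) : ℝ) * ∫ z in sqr, u z * cc a b z

-- deps: IBP1 CB0 CB2
def S_IBP : Prop := ∀ u : ℂ → ℝ, ContDiffOn ℝ 1 u sqr → MemLp u 2 (volume.restrict sqr) →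
  IntegrableOn (fun z => ‖gradient u z‖ ^ 2) sqr → H1 (co u)

-- deps: CB0 CB2 PHI
def S_TRC : Prop := ∀ u : ℂ → ℝ, MemLp u 2 (volume.restrict sqr) → H1 (co u) → ∀ k a b : ℕ,
  Tr u (fun x => cos (k * x) * cc a b x) ((tc (co u) (Nat.dist k a) + tc (co u) (k + a)) / 2)

-- deps: PHI
def S_CONVO : Prop := ∀ (ρ : ℕ → ℝ) (c : II → ℝ) (ξ : II), ρ 0 = 0 →
  (Summable fun k : ℕ => ρ k ^ 2 / (1 + k)) → H1 c →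
  (Summable fun η => VV ρ ξ η * c η) ∧
  HasSum (fun k => ρ k * ((tc c (Nat.dist k ξ.1) + tc c (k + ξ.1)) / 2))
    (π / (nn ξ.1 * nn ξ.2) * ∑' η, VV ρ ξ η * c η)

-- deps: IBP1 IBP TRC CONVO
def S_BR : Prop := ∀ (ρ : ℕ → ℝ) (lam : ℝ) (u : ℂ → ℝ), ρ 0 = 0 →
  (Summable fun k : ℕ => ρ k ^ 2 / (1 + k)) →
  (REig ρ lam u → MemLp u 2 (volume.restrict sqr) ∧ SEig (VV ρ) lam (co u)) ∧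
  (ContDiffOn ℝ ∞ u sqr → (∀ z ∈ sqr, Δ u z + lam * u z = 0) →
    IntegrableOn (fun z => ‖gradient u z‖ ^ 2) sqr → ∫ z in sqr, u z ^ 2 = volume.real sqr →
    SEig (VV ρ) lam (co u) → REig ρ lam u)

-- deps:
def S_CS : Prop := ∀ s : ℝ, ContDiff ℝ ∞ (Cs s) ∧
  (∀ y, HasDerivAt (deriv (Cs s)) (s * Cs s y) y) ∧ deriv (Cs s) π = 0 ∧
  (0 < s → ∀ y, deriv (Cs s) y = -(√s * sinh (√s * (π - y))) ∧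
    deriv (Cs s) y ^ 2 ≤ s * Cs s y ^ 2) ∧
  (s ≤ 0 → ∀ y, deriv (Cs s) y = √(-s) * sin (√(-s) * (π - y))) ∧
  ∃ κ : ℂ, κ ^ 2 = s ∧ ‖κ‖ = √|s| ∧ (0 < s → κ = (√s : ℝ)) ∧ ∀ y : ℝ,
    (Cs s y : ℂ) = (Complex.exp (κ * (π - y)) + Complex.exp (-κ * (π - y))) / 2 ∧
    ((deriv (Cs s) y : ℝ) : ℂ) = (-κ * Complex.exp (κ * (π - y)) + κ * Complex.exp (-κ * (π - y))) / 2

-- deps: CB0 CS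
def S_SEP1 : Prop := ∀ (s μ : ℝ) (c : ℕ → ℝ), (∀ b : ℕ, (s + b ^ 2) * c b = nn b * μ) →
  ∃ α : ℝ, (∀ b : ℕ, ∫ y in Set.Ioo 0 π, α * Cs s y * (nn b * cos (b * y)) = c b) ∧
    (1 ≤ s → |α| * cosh (√s * π) ≤ 4 * √s * |c 0|)

-- deps:
def S_EXPS : Prop := ∀ (O : Set ℂ) (L : ℕ → ℂ →L[ℝ] ℂ) (β : ℕ → ℂ), IsOpen O →
  (∀ z ∈ O, ∃ r > 0, Metric.ball z r ⊆ O ∧ ∃ M : ℕ → ℝ,
    (∀ a, ∀ w ∈ Metric.ball z r, ‖Complex.exp (L a w)‖ ≤ M a) ∧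
    ∀ k : ℕ, Summable fun a => ‖β a‖ * (1 + ‖L a‖) ^ k * M a) →
  ContDiffOn ℝ ∞ (fun z => ∑' a, β a * Complex.exp (L a z)) O ∧ ∀ z ∈ O,
    (Summable fun a => β a * Complex.exp (L a z)) ∧
    (∀ v, HasSum (fun a => β a * L a v * Complex.exp (L a z))
      (fderiv ℝ (fun z => ∑' a, β a * Complex.exp (L a z)) z v)) ∧
    HasSum (fun a => β a * (L a 1 ^ 2 + L a Complex.I ^ 2) * Complex.exp (L a z))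
      (Δ (fun z => ∑' a, β a * Complex.exp (L a z)) z)

-- deps: EXPS CS
def S_SEP2 : Prop := ∀ (α : ℕ → ℝ) (lam M : ℝ),
  (∀ a : ℕ, 1 ≤ (a : ℝ) ^ 2 - lam → |α a| * cosh (√(a ^ 2 - lam) * π) ≤ M * √(a ^ 2 - lam)) →
  ContDiffOn ℝ ∞ (sep α lam) sqr ∧ (∀ z ∈ sqr, Δ (sep α lam) z + lam * sep α lam z = 0) ∧
  ∀ z ∈ sqr,
    (Summable fun a : ℕ => α a * (cos (a * z.re) * Cs (a ^ 2 - lam) z.im)) ∧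
    HasSum (fun a : ℕ => α a * (-(a * sin (a * z.re)) * Cs (a ^ 2 - lam) z.im))
      (gradient (sep α lam) z).re ∧
    HasSum (fun a : ℕ => α a * (cos (a * z.re) * deriv (Cs (a ^ 2 - lam)) z.im))
      (gradient (sep α lam) z).im

-- deps: CB0 CB2 SEP2 CS
def S_SEP3 : Prop := ∀ (α : ℕ → ℝ) (lam M : ℝ) (c : II → ℝ),
  (∀ a : ℕ, 1 ≤ (a : ℝ) ^ 2 - lam → |α a| * cosh (√(a ^ 2 - lam) * π) ≤ M * √(a ^ 2 - lam)) →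
  (Summable fun ξ => c ξ ^ 2) → (∀ a b : ℕ, ∫ y in Set.Ioo 0 π,
    α a * Cs (a ^ 2 - lam) y * (nn b * cos (b * y)) = π * nn a * c (a, b)) →
  MemLp (sep α lam) 2 (volume.restrict sqr) ∧ co (sep α lam) = c ∧ ∀ a : ℕ,
    HasSum (fun b => π ^ 2 * nn a ^ 2 * c (a, b) ^ 2)
      (∫ y in Set.Ioo 0 π, (α a * Cs (a ^ 2 - lam) y) ^ 2)

-- deps: CB0 SEP2 CS
def S_SEP4 : Prop := ∀ (α : ℕ → ℝ) (lam M : ℝ),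
  (∀ a : ℕ, 1 ≤ (a : ℝ) ^ 2 - lam → |α a| * cosh (√(a ^ 2 - lam) * π) ≤ M * √(a ^ 2 - lam)) →
  (Summable fun a : ℕ => (1 + (a : ℝ) ^ 2) * ∫ y in Set.Ioo 0 π, (α a * Cs (a ^ 2 - lam) y) ^ 2) →
  IntegrableOn (fun z => ‖gradient (sep α lam) z‖ ^ 2) sqr

-- deps: SEP1 SEP2 SEP3 SEP4 CB2 BR
def S_EXE : Prop := ∀ (ρ : ℕ → ℝ) (lam : ℝ) (c : II → ℝ), ρ 0 = 0 →
  (Summable fun k : ℕ => ρ k ^ 2 / (1 + k)) → SEig (VV ρ) lam c →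
  HasSum (fun ξ => c ξ * c ξ) 1 → ∃ u, REig ρ lam u ∧ co u = c

-- deps: BR EXE CB2
def S_BR2 : Prop := ∀ ρ : ℕ → ℝ, ρ 0 = 0 → (Summable fun k : ℕ => ρ k ^ 2 / (1 + k)) →
  (∀ lam u, RBasis ρ lam u → SBasis (VV ρ) lam fun j => co (u j)) ∧
    ∀ lam c, SBasis (VV ρ) lam c → ∃ u, RBasis ρ lam u

/-! ### Almost sure bounds -/

-- deps:
def S_LAW : Prop := ∀ (ν : Measure ℝ) [IsProbabilityMeasure ν],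
  (∀ (ι : Type) [Fintype ι] (κ : ι → ℕ), Function.Injective κ →
    MeasurePreserving (fun (g : ℕ → ℝ) i => g (κ i)) (Measure.infinitePi fun _ => ν)
      (Measure.pi fun _ => ν)) ∧
  (Law ν → ∀ (a b : ℝ) (k l : ℕ),
    Integrable (fun g : ℕ → ℝ => (a * g k + b * g l) ^ 2) (Measure.infinitePi fun _ => ν) ∧
    ∫ g : ℕ → ℝ, (a * g k + b * g l) ^ 2 ∂(Measure.infinitePi fun _ => ν) ≤ 2 * (a ^ 2 + b ^ 2))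

-- deps:
def S_VARB : Prop := ∀ (ν : Measure ℝ) [IsProbabilityMeasure ν] (N : Finset ℕ)
  (ζ : ℕ → (ℕ → ℝ) → ℝ) (K : ℕ → Finset ℕ) (ρ M a : ℝ), 0 < a → (∀ n ∈ N, Measurable (ζ n)) →
  (∀ n ∈ N, DependsOn (ζ n) (K n)) → (∀ n ∈ N, ∀ g, 0 ≤ ζ n g ∧ ζ n g ≤ ρ) →
  (∀ n ∈ N, ((N.filter fun n' => ¬Disjoint (K n) (K n')).card : ℝ) ≤ M) →
  (Measure.infinitePi fun _ : ℕ => ν)
      {g | (∑ n ∈ N, ∫ g', ζ n g' ∂(Measure.infinitePi fun _ : ℕ => ν)) + a ≤ ∑ n ∈ N, ζ n g} ≤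
    ENNReal.ofReal (N.card * M * ρ ^ 2 / a ^ 2)

-- deps: EB1 EBS LAW
def S_PA : Prop := ∀ σ ν, SV σ → Law ν → ∀ᵐ g ∂(Measure.infinitePi fun _ : ℕ => ν), GoodA σ g

open Classical in
-- deps: LAW
def S_ERR1 : Prop := ∀ (σ : ℕ → ℝ) (ν : Measure ℝ) (m n K : ℕ) (θ : ℝ), SV0 σ → Law ν →
  1 ≤ rr n → θ ≤ 1 →
  (∀ p ∈ AA n ×ˢ AA n, ¬Low K p.1.1 p.2.1 → |σ (kap p) / sb σ m - 1| ≤ θ) →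
  Measurable (Er σ m n) ∧ Integrable (Er σ m n) (Measure.infinitePi fun _ : ℕ => ν) ∧
  ∫ g, Er σ m n g ∂(Measure.infinitePi fun _ : ℕ => ν) ≤ 100 * (θ ^ 2 * rr n + coin n / rr n + 1 +
    (1 + (σ 1 / sb σ m) ^ 2) * ((AA n ×ˢ AA n).filter fun p => Low K p.1.1 p.2.1).card)

-- deps: ERR1 COIN REL1 CNT LAT S4
def S_ERR : Prop := ∀ σ ν, SV σ → Law ν → ∀ η : ℝ, 0 < η → ∃ r₁ : ℕ, ∀ r₀, r₁ ≤ r₀ →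
  ∀ᶠ m : ℕ in atTop, (∀ n ∈ mid r₀ m, Measurable (Er σ m n) ∧
    Integrable (Er σ m n) (Measure.infinitePi fun _ : ℕ => ν)) ∧
    ∑ n ∈ mid r₀ m, ∫ g, Er σ m n g ∂(Measure.infinitePi fun _ : ℕ => ν) ≤ η * 2 ^ m

-- deps: RM OBS ERR LAW KAP VARB LAT S4
def S_PB : Prop := ∀ σ ν, SV σ → Law ν → ∀ᵐ g ∂(Measure.infinitePi fun _ : ℕ => ν), GoodB σ g

/-! ### Assembly -/

-- deps: WIN1 WIN2 DR OBS HS0 S4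
def S_SH1 : Prop := ∀ (σ g : ℕ → ℝ) (lam : ℕ → ℝ) (c : ℕ → II → ℝ) (T : Finset ℕ)
  (l p m n : ℕ) (δ : ℝ), 0 < sb σ m → HS (VV fun k => σ k * g k) → SON c → ¬IsSquare n →
  1 ≤ rr n → 1 ≤ p → (∀ j ∈ T, SEig (VV fun k => σ k * g k) (lam j) (c j) ∧ |lam j - n| ≤ 1 / 2) →
  BB (VV fun k => σ k * g k) n ≤ 1 / 16 → BB (VV fun k => σ k * g k) n ≤ δ * sb σ m * rr n →
  ∑ j ∈ T, (q2 n (c j) + q3 l n (c j)) ≤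
    400 * zeta σ l p m n g + 32000 * p ^ 4 * δ ^ 2 * rr n + 2 * ‖wk (2 * l) n‖

-- deps: HS0 S4 OBS
def S_SH2 : Prop := ∀ (c : ℕ → II → ℝ), SON c →
  (∀ i n j, 0 ≤ qq i n (c j) ∧ qq i n (c j) ≤ 1) ∧
  ∀ (T : Finset ℕ) (l n : ℕ) (η : ℝ), 3 ≤ l → ¬IsSquare n → 0 < η → η ≤ 1 →
    ∑ j ∈ T, q4 l n (c j) ≤ (∑ j ∈ T, q2 n (c j)) / η ^ 4 + η * rel n l

-- deps: WIN1 WIN2 SH1 SH2 OBS BADW LAT S4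
def S_BLK1 : Prop := ∀ (σ g : ℕ → ℝ) (lam : ℕ → ℝ) (c : ℕ → II → ℝ), SV σ → GoodA σ g →
  GoodB σ g → SBasis (VV fun k => σ k * g k) lam c → ∀ (l : ℕ) (ε : ℝ), 1 ≤ l → 0 < ε →
  ∀ᶠ m : ℕ in atTop, ∀ T : Finset ℕ, (∀ j ∈ T, nj (lam j) ∈ blk m) →
    ∑ j ∈ T, (qq 0 (nj (lam j)) (c j) + q1 (nj (lam j)) (c j) + q2 (nj (lam j)) (c j) +
      q3 l (nj (lam j)) (c j)) ≤ ε * 2 ^ m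

-- deps: BLK1 SH2 REL1
def S_BLK : Prop := ∀ (σ g : ℕ → ℝ) (lam : ℕ → ℝ) (c : ℕ → II → ℝ), SV σ → GoodA σ g →
  GoodB σ g → SBasis (VV fun k => σ k * g k) lam c → ∀ (i : ℕ) (ε : ℝ), 0 < ε →
  ∀ᶠ m : ℕ in atTop, ∀ T : Finset ℕ, (∀ j ∈ T, nj (lam j) ∈ blk m) →
    ∑ j ∈ T, qq i (nj (lam j)) (c j) ≤ ε * 2 ^ m

-- deps:
def S_CES : Prop := ∀ (lam : ℕ → ℝ) (q : ℕ → ℝ), Monotone lam → Tendsto lam atTop atTop →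
  (∃ C : ℝ, ∀ᶠ N : ℕ in atTop, lam N ≤ C * N) → (∀ j, 0 ≤ q j ∧ q j ≤ 1) →
  (∀ ε : ℝ, 0 < ε → ∀ᶠ m : ℕ in atTop, ∀ T : Finset ℕ, (∀ j ∈ T, nj (lam j) ∈ blk m) →
    ∑ j ∈ T, q j ≤ ε * 2 ^ m) →
  ∀ ε : ℝ, 0 < ε → ∀ᶠ N : ℕ in atTop, ∑ j ∈ range N, q j ^ 2 ≤ ε * N

-- deps: TCL ERG CFQ CB0 CB2 S4 TOR
def S_CF : Prop := ∀ (lam : ℕ → ℝ) (u : ℕ → ℂ → ℝ), (∀ j, ContinuousOn (u j) sqr) →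
  (∀ j, MemLp (u j) 2 (volume.restrict sqr)) → (∀ j, ∫ z in sqr, u j z ^ 2 = volume.real sqr) →
  Tendsto lam atTop atTop → (∀ i, Tendsto (fun j => qq i (nj (lam j)) (co (u j))) atTop (𝓝 0)) →
  ∀ τ, Tendsto (fun j => EB.cf sqr (lam j) (sqr.indicator (u j)) τ) atTop (𝓝 (EB.gauss τ))

end

end Pool.Agent.P.MP_6b977f_mp.RB
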