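import Pool.Agent.P.MP_6b977f_mp.RB.Iface

/-! Step BADW. -/

namespace Pool.Agent.P.MP_6b977f_mp.RB

open Real MeasureTheory ProbabilityTheory Filter Topology Finset Laplacian
open scoped ContDiff ComplexConjugate ENNReal Matrix

namespace BADWA

theorem blk_sub (m : ℕ) : blk m ⊆ Icc 1 (2 ^ (m + 1)) := fun n hn => by
  obtain ⟨h1, h2⟩ := mem_blk.1 hn
  exact mem_Icc.2 ⟨le_trans Nat.one_le_two_pow h1, h2.le⟩

theorem tend : Tendsto (fun m : ℕ => 2 ^ (m + 1)) atTop atTop :=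
  (tendsto_pow_atTop_atTop_of_one_lt (one_lt_two (α := ℕ))).comp (tendsto_add_atTop_nat 1)

theorem castN (m : ℕ) : ((2 ^ (m + 1) : ℕ) : ℝ) = 2 * 2 ^ m := by push_cast; ring

theorem card_sq (N : ℕ) : ((Icc 1 N).filter IsSquare).card ≤ Nat.sqrt N + 1 := by
  have : (Icc 1 N).filter IsSquare ⊆ (range (Nat.sqrt N + 1)).image fun a => a * a := by
    intro n hn
    obtain ⟨h1, a, rfl⟩ := mem_filter.1 hn
    exact mem_image.2 ⟨a, mem_range.2 (Nat.lt_succ_of_le (Nat.le_sqrt.2 (mem_Icc.1 h1).2)), rfl⟩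
  exact (card_le_card this).trans (card_image_le.trans (card_range _).le)

theorem squares (hR4D : S_R4D) (hDIV : S_DIV) (ε : ℝ) (hε : 0 < ε) :
    ∀ᶠ N : ℕ in atTop, ∑ n ∈ (Icc 1 N).filter IsSquare, (r2 n : ℝ) ≤ ε * N := by
  obtain ⟨C, hC, h, -⟩ := hDIV (1 / 4) (by norm_num)
  have ht : Tendsto (fun N : ℕ => (N : ℝ) ^ (1 / 4 : ℝ)) atTop atTop :=
    (tendsto_rpow_atTop (by norm_num)).comp tendsto_natCast_atTop_atTop
  filter_upwards [ht.eventually_ge_atTop 1, ht.eventually_ge_atTop (8 * C / ε)] with N h1 h2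
  set t := (N : ℝ) ^ (1 / 4 : ℝ) with htdef
  have h4 : t ^ 4 = N := by
    rw [htdef, ← rpow_natCast, ← rpow_mul (Nat.cast_nonneg N)]; norm_num
  have hs : (Nat.sqrt N : ℝ) ≤ t ^ 2 := by
    have h5 : ((Nat.sqrt N : ℝ)) ^ 2 ≤ (t ^ 2) ^ 2 := by
      rw [← pow_mul, h4]; exact_mod_cast Nat.sqrt_le' N
    exact (pow_le_pow_iff_left₀ (Nat.cast_nonneg _) (by positivity) two_ne_zero).1 h5
  have hb : ∀ n ∈ (Icc 1 N).filter IsSquare, (r2 n : ℝ) ≤ 4 * (C * t) := by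
    intro n hn
    obtain ⟨h6, h7⟩ := mem_Icc.1 (mem_filter.1 hn).1
    have h8 : (r2 n : ℝ) ≤ 4 * n.divisors.card := by exact_mod_cast hR4D n h6
    have h9 : (n : ℝ) ^ (1 / 4 : ℝ) ≤ t :=
      rpow_le_rpow (Nat.cast_nonneg n) (by exact_mod_cast h7) (by norm_num)
    have h10 := h n (by omega)
    have h11 := mul_le_mul_of_nonneg_left h9 hC.le
    linarith
  have hc : (((Icc 1 N).filter IsSquare).card : ℝ) ≤ 2 * t ^ 2 := by
    have h12 : (((Icc 1 N).filter IsSquare).card : ℝ) ≤ Nat.sqrt N + 1 := by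
      exact_mod_cast card_sq N
    have : 1 ≤ t ^ 2 := one_le_pow₀ h1
    linarith
  have h13 : 8 * C ≤ ε * t := by rwa [div_le_iff₀ hε, mul_comm t] at h2
  calc _ ≤ ((Icc 1 N).filter IsSquare).card • (4 * (C * t)) := sum_le_card_nsmul _ _ _ hb
    _ = (((Icc 1 N).filter IsSquare).card : ℝ) * (4 * (C * t)) := nsmul_eq_mul _ _
    _ ≤ 2 * t ^ 2 * (4 * (C * t)) := by gcongr
    _ = 8 * C * t ^ 3 := by ring
    _ ≤ ε * t * t ^ 3 := by gcongr
    _ = ε * N := by rw [← h4]; ring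

theorem point (hS4 : S_S4) (r₀ m n : ℕ) (hm : 1 ≤ m) (hn : n ∈ blk m)
    (h : IsSquare n ∨ n ∉ mid r₀ m) :
    (r2 n : ℝ) ≤ (if IsSquare n then (r2 n : ℝ) else 0) + (if r2 n ≠ 0 then 4 * (r₀ : ℝ) else 0) +
      (r2 n : ℝ) ^ 2 / m ^ 2 := by
  have p1 : (0 : ℝ) ≤ if IsSquare n then (r2 n : ℝ) else 0 := by split_ifs <;> positivity
  have p2 : (0 : ℝ) ≤ if r2 n ≠ 0 then 4 * (r₀ : ℝ) else 0 := by split_ifs <;> positivity
  have p3 : (0 : ℝ) ≤ (r2 n : ℝ) ^ 2 / m ^ 2 := by positivity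
  by_cases hq : IsSquare n
  · rw [if_pos hq]; linarith
  have h1 : ¬(r₀ ≤ rr n ∧ rr n ≤ m ^ 2) := fun h2 =>
    (h.resolve_left hq) (mem_filter.2 ⟨hn, h2⟩)
  by_cases h0 : r2 n = 0
  · have : (r2 n : ℝ) = 0 := by exact_mod_cast h0
    linarith
  by_cases h3 : r₀ ≤ rr n
  · have h4 : m ^ 2 ≤ r2 n := le_trans (by omega) (hS4.1 n).2
    have h5 : (m : ℝ) ^ 2 ≤ r2 n := by exact_mod_cast h4
    have h6 : (0 : ℝ) < (m : ℝ) ^ 2 := by positivity
    have h7 : (r2 n : ℝ) ≤ (r2 n : ℝ) ^ 2 / m ^ 2 := by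
      rw [le_div_iff₀ h6, sq (r2 n : ℝ)]; gcongr
    linarith
  · have h4 : r2 n ≤ 4 * r₀ := by have := (hS4.2 n hq).2.1; omega
    have h5 : (r2 n : ℝ) ≤ 4 * r₀ := by exact_mod_cast h4
    rw [if_pos h0]; linarith

theorem logN (m : ℕ) (hm : 1 ≤ m) : 1 + log ((2 ^ (m + 1) : ℕ) : ℝ) ≤ 3 * m := by
  have h1 : log 2 ≤ 1 := by have := log_two_lt_d9; linarith
  have h2 : (1 : ℝ) ≤ m := by exact_mod_cast hm
  rw [Nat.cast_pow, log_pow]
  push_cast
  nlinarith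

end BADWA

open BADWA in
theorem p_BADW (hW2 : S_W2) (hDZ : S_DZ) (hS4 : S_S4) (hR4D : S_R4D) (hDIV : S_DIV) :
    S_BADW := by
  refine ⟨fun r₀ ε hε => ?_, fun k ε hk hε => ?_⟩
  · obtain ⟨C, hC⟩ := hW2.1
    have hr : (0 : ℝ) < 4 * r₀ + 1 := by positivity
    filter_upwards [tend.eventually (squares hR4D hDIV (ε / 6) (by positivity)),
      tend.eventually (hDZ (ε / 6 / (4 * r₀ + 1)) (by positivity)), eventually_ge_atTop 1,
      tendsto_natCast_atTop_atTop.eventually_ge_atTop (18 * |C| / ε)] with m h1 h2 h3 h4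
    have hm : (0 : ℝ) < m := by exact_mod_cast h3
    have hP : (0 : ℝ) < 2 ^ m := by positivity
    have h5 := hC (2 ^ (m + 1))
    have h6 := logN m h3
    have h6' : 0 ≤ 1 + log ((2 ^ (m + 1) : ℕ) : ℝ) := by
      have := log_natCast_nonneg (2 ^ (m + 1)); linarith
    rw [castN] at h1 h2
    have h7 : (∑ n ∈ Icc 1 (2 ^ (m + 1)), (r2 n : ℝ) ^ 2) / m ^ 2 ≤ ε / 3 * 2 ^ m := by
      rw [div_le_iff₀ (by positivity)]
      rw [div_le_iff₀ hε] at h4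
      calc _ ≤ C * (2 ^ (m + 1) : ℕ) * (1 + log ((2 ^ (m + 1) : ℕ) : ℝ)) := h5
        _ ≤ |C| * (2 ^ (m + 1) : ℕ) * (3 * m) := by
          gcongr; exact le_abs_self C
        _ = 18 * |C| * (2 ^ m * m / 3) := by rw [castN]; ring
        _ ≤ m * ε * (2 ^ m * m / 3) := by gcongr
        _ = _ := by ring
    have h8 : (((Icc 1 (2 ^ (m + 1))).filter fun n => r2 n ≠ 0).card : ℝ) * (4 * r₀) ≤
        ε / 3 * 2 ^ m := by
      calc _ ≤ ε / 6 / (4 * r₀ + 1) * (2 * 2 ^ m) * (4 * r₀ + 1) := by gcongr; linarith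
        _ = _ := by field_simp; ring
    calc _ ≤ ∑ n ∈ (blk m).filter fun n => IsSquare n ∨ n ∉ mid r₀ m,
          ((if IsSquare n then (r2 n : ℝ) else 0) + (if r2 n ≠ 0 then 4 * (r₀ : ℝ) else 0) +
            (r2 n : ℝ) ^ 2 / m ^ 2) :=
          sum_le_sum fun n hn => point hS4 r₀ m n h3 (mem_filter.1 hn).1 (mem_filter.1 hn).2
      _ ≤ ∑ n ∈ Icc 1 (2 ^ (m + 1)),
          ((if IsSquare n then (r2 n : ℝ) else 0) + (if r2 n ≠ 0 then 4 * (r₀ : ℝ) else 0) +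
            (r2 n : ℝ) ^ 2 / m ^ 2) := by
          refine sum_le_sum_of_subset_of_nonneg ((filter_subset _ _).trans (blk_sub m))
            fun n _ _ => ?_
          split_ifs <;> positivity
      _ ≤ _ := by
          rw [sum_add_distrib, sum_add_distrib, ← sum_filter, ← sum_filter, sum_const,
            nsmul_eq_mul, ← sum_div]
          linarith
  · obtain ⟨C, hC⟩ := hW2.2 k hk
    have hr : (0 : ℝ) < |C| + 1 := by positivity
    filter_upwards [tend.eventually (hDZ (ε ^ 2 / 4 / (|C| + 1)) (by positivity))] with m h2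
    have h5 := hC (2 ^ (m + 1))
    rw [castN] at h2 h5
    have hP : (0 : ℝ) < 2 ^ m := by positivity
    set F := (Icc 1 (2 ^ (m + 1))).filter fun n => r2 n ≠ 0 with hF
    have h1 : ∑ n ∈ blk m, ‖wk k n‖ ≤ ∑ n ∈ F, ‖wk k n‖ := by
      refine (sum_le_sum_of_subset_of_nonneg (blk_sub m) fun n _ _ => norm_nonneg _).trans ?_
      rw [hF, sum_filter]
      refine sum_le_sum fun n _ => ?_
      split_ifs with h
      · exact le_rfl
      · have : Lam n = ∅ := card_eq_zero.1 (not_not.1 h)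
        simp [wk, this]
    have h3 : ∑ n ∈ F, ‖wk k n‖ ^ 2 ≤ (|C| + 1) * (2 * 2 ^ m) := by
      refine (sum_le_sum_of_subset_of_nonneg (filter_subset _ _) fun n _ _ => sq_nonneg _).trans
        (h5.trans ?_)
      gcongr
      linarith [le_abs_self C]
    refine h1.trans (le_of_sq_le_sq ?_ (by positivity))
    calc (∑ n ∈ F, ‖wk k n‖) ^ 2 ≤ F.card * ∑ n ∈ F, ‖wk k n‖ ^ 2 := sq_sum_le_card_mul_sum_sq
      _ ≤ ε ^ 2 / 4 / (|C| + 1) * (2 * 2 ^ m) * ((|C| + 1) * (2 * 2 ^ m)) := by gcongr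
      _ = _ := by field_simp; ring

end Pool.Agent.P.MP_6b977f_mp.RB
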