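import Pool.Agent.P.MP_6b977f_mp.RB.Iface

/-! Step CB2. -/

namespace Pool.Agent.P.MP_6b977f_mp.RB

open Real MeasureTheory ProbabilityTheory Filter Topology Finset Laplacian
open scoped ContDiff ComplexConjugate ENNReal Matrix

namespace CB2A

variable {α ι : Type*} [MeasurableSpace α] {μ : Measure α}

theorem inner_toLp {f g : α → ℝ} (hf : MemLp f 2 μ) (hg : MemLp g 2 μ) :
    inner ℝ (hf.toLp f) (hg.toLp g) = ∫ z, f z * g z ∂μ := by
  rw [L2.inner_def]
  refine integral_congr_ae ?_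
  filter_upwards [hf.coeFn_toLp, hg.coeFn_toLp] with z h1 h2
  rw [h1, h2]
  simp [mul_comm]

theorem basis [DecidableEq ι] (e : ι → α → ℝ) (he : ∀ i, MemLp (e i) 2 μ)
    (ho : ∀ i j, ∫ z, e i z * e j z ∂μ = if i = j then 1 else 0)
    (hc : ∀ f, MemLp f 2 μ → (∀ i, ∫ z, f z * e i z ∂μ = 0) → f =ᵐ[μ] 0) :
    ∃ b : HilbertBasis ι ℝ (Lp ℝ 2 μ), ∀ i, b i = (he i).toLp (e i) := by
  have h1 : Orthonormal ℝ fun i => (he i).toLp (e i) := by
    rw [orthonormal_iff_ite]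
    intro i j
    rw [inner_toLp, ho]
  have h2 : (Submodule.span ℝ (Set.range fun i => (he i).toLp (e i)))ᗮ = ⊥ := by
    rw [Submodule.eq_bot_iff]
    intro F hF
    have : ∀ i, ∫ z, F z * e i z ∂μ = 0 := fun i => by
      have := (Submodule.mem_orthogonal' _ _).1 hF _ (Submodule.subset_span ⟨i, rfl⟩)
      rwa [← Lp.toLp_coeFn F (Lp.memLp F), inner_toLp] at this
    exact Lp.ext ((hc F (Lp.memLp F) this).trans (Lp.coeFn_zero ..).symm)
  exact ⟨HilbertBasis.mkOfOrthogonalEqBot h1 h2, fun i => by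
    rw [HilbertBasis.coe_mkOfOrthogonalEqBot]⟩

end CB2A

theorem p_CB2 (hCB0 : S_CB0) (hCB1 : S_CB1) :
    S_CB2 := by
  obtain ⟨-, -, h3, -, h5⟩ := hCB0
  have hp := pi_pos.ne'
  obtain ⟨b, hb⟩ := CB2A.basis ee (fun ξ => (h3 ξ).2) h5 fun f hf h => hCB1 f hf fun a c => by
    have h1 := h (a, c)
    have h2 : ∀ z, f z * ee (a, c) z = nn a * nn c * (f z * cc a c z) := fun z => by
      unfold ee; ring
    simp only [h2, integral_const_mul] at h1
    exact (mul_eq_zero.1 h1).resolve_left (mul_pos (nn_pos a) (nn_pos c)).ne'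
  have hi : ∀ (f : ℂ → ℝ) (hf : MemLp f 2 (volume.restrict sqr)) (ξ : II),
      inner ℝ (hf.toLp f) (b ξ) = π * co f ξ := fun f hf ξ => by
    rw [hb, CB2A.inner_toLp, co, mul_inv_cancel_left₀ hp]
  refine ⟨fun f g hf hg => ?_, fun x hx => ?_⟩
  · have h := (b.hasSum_inner_mul_inner (hf.toLp f) (hg.toLp g)).div_const (π ^ 2)
    rw [CB2A.inner_toLp] at h
    have e : ∀ ξ, inner ℝ (hf.toLp f) (b ξ) * inner ℝ (b ξ) (hg.toLp g) / π ^ 2 =
        co f ξ * co g ξ := fun ξ => by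
      rw [real_inner_comm (hg.toLp g), hi, hi]
      field_simp
    simpa only [e] using h
  · have hm : Memℓp (fun ξ => π * x ξ) 2 := by
      refine memℓp_gen ?_
      simpa [mul_pow] using hx.mul_left (π ^ 2)
    let F := b.repr.symm ⟨fun ξ => π * x ξ, hm⟩
    refine ⟨F, Lp.memLp F, funext fun ξ => ?_⟩
    have h1 := hi F (Lp.memLp F) ξ
    rw [Lp.toLp_coeFn, real_inner_comm, ← b.repr_apply_apply] at h1
    simp only [F, LinearIsometryEquiv.apply_symm_apply] at h1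
    exact (mul_left_cancel₀ hp h1).symm

end Pool.Agent.P.MP_6b977f_mp.RB
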