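import Pool.Agent.P.MP_6b977f_mp.RB.Iface

/-! Step EB2. -/

namespace Pool.Agent.P.MP_6b977f_mp.RB

open Real MeasureTheory ProbabilityTheory Filter Topology Finset Laplacian
open scoped ContDiff ComplexConjugate ENNReal Matrix

namespace EB2A

open scoped Classical

theorem sq_le {σ : ℕ → ℝ} (h : SV0 σ) {j k : ℕ} (hj : 1 ≤ j) (hk : k = 0 ∨ j ≤ k) :
    σ k ^ 2 ≤ σ j ^ 2 := by
  rcases hk with rfl | hk
  · rw [h.zero, zero_pow two_ne_zero]
    exact sq_nonneg _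
  · exact pow_le_pow_left₀ (h.pos k (hj.trans hk)).le (h.anti j k hj hk) 2

theorem low_symm {K a b : ℕ} (h : Low K a b) : Low K b a := by
  unfold Low Nat.dist at *
  omega

theorem iD (n : ℤ) (ξ : II) : 0 ≤ 1 / DD n ξ := by
  have := one_le_DD n ξ
  positivity

theorem pt {σ : ℕ → ℝ} (h : SV0 σ) (K : ℕ) (T : ℝ) (n : ℤ) (ξ η : II) :
    kers σ n (ξ, η) ≤ 2 * σ (K + 1) ^ 2 * (1 / DD n ξ * (1 / DD n η)) + 2 * σ 1 ^ 2 *
      ((if Low K ξ.1 η.1 ∧ |(dd ξ : ℝ) - n| ≤ T ∧ |(dd η : ℝ) - n| ≤ T then 1 else 0) +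
        1 / DD n ξ * (if Low K ξ.1 η.1 ∧ T < |(dd η : ℝ) - n| then 1 / DD n η else 0) +
        1 / DD n η * (if Low K η.1 ξ.1 ∧ T < |(dd ξ : ℝ) - n| then 1 / DD n ξ else 0)) := by
  have a1 := iD n ξ
  have a2 := iD n η
  have a3 := mul_nonneg a1 a2
  have e : kers σ n (ξ, η) = s2 σ ξ.1 η.1 * (1 / DD n ξ * (1 / DD n η)) := by
    rw [kers, one_div_mul_one_div, mul_one_div]
  rw [e]
  by_cases hl : Low K ξ.1 η.1
  · have b1 : s2 σ ξ.1 η.1 ≤ 2 * σ 1 ^ 2 := by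
      rw [two_mul]
      exact add_le_add (sq_le h le_rfl (by omega)) (sq_le h le_rfl (by omega))
    refine le_add_of_nonneg_of_le (by positivity) (mul_le_mul b1 ?_ a3 (by positivity))
    have b2 : 1 / DD n ξ * (1 / DD n η) ≤ 1 :=
      mul_le_one₀ (div_le_one_of_le₀ (one_le_DD _ _) (zero_le_one.trans (one_le_DD _ _))) a2
        (div_le_one_of_le₀ (one_le_DD _ _) (zero_le_one.trans (one_le_DD _ _)))
    simp only [hl, low_symm hl, true_and, ← not_le]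
    by_cases c1 : |(dd ξ : ℝ) - n| ≤ T <;> by_cases c2 : |(dd η : ℝ) - n| ≤ T <;>
      simp only [c1, c2, and_self, and_false, false_and, not_true, not_false_iff, if_true,
        if_false] <;> linarith
  · have b1 : s2 σ ξ.1 η.1 ≤ 2 * σ (K + 1) ^ 2 := by
      rw [two_mul]
      unfold Low at hl
      refine add_le_add (sq_le h (by omega) ?_) (sq_le h (by omega) ?_) <;>
        unfold Nat.dist at * <;> omega
    refine le_add_of_le_of_nonneg (mul_le_mul_of_nonneg_right b1 a3) (mul_nonneg (by positivity)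
      (add_nonneg (add_nonneg ?_ (mul_nonneg a1 ?_)) (mul_nonneg a2 ?_))) <;>
      split_ifs <;> positivity

theorem far (h : S_PHI) (a K T X : ℕ) (n : ℤ) (hT : 1 ≤ T) :
    ∑ η ∈ Box X, (if Low K a η.1 ∧ (T : ℝ) < |(dd η : ℝ) - n| then 1 / DD n η else 0) ≤
      (2 * K + 1) * (20 / √T) := by
  have e : ∀ a b : ℕ, (dd (a, b) : ℝ) - n = (b : ℝ) ^ 2 - ((n - a ^ 2 : ℤ) : ℝ) := fun a b => by
    simp only [dd]
    push_cast
    ring
  have hT' : (1 : ℝ) ≤ T := by exact_mod_cast hT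
  calc _ ≤ ∑ η ∈ Icc (a - K) (a + K) ×ˢ range (X + 1) with (T : ℝ) < |(dd η : ℝ) - n|,
        1 / DD n η := by
        rw [← sum_filter]
        refine sum_le_sum_of_subset_of_nonneg (fun η hη => ?_) fun η _ _ => iD n η
        obtain ⟨h1, h2, h3⟩ := mem_filter.1 hη
        refine mem_filter.2 ⟨mem_product.2 ⟨mem_Icc.2 ?_, (mem_product.1 (mem_filter.1 h1).1).2⟩, h3⟩
        unfold Low Nat.dist at h2
        omega
    _ ≤ ∑ a ∈ Icc (a - K) (a + K), 20 / √T := by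
        rw [sum_filter, sum_product]
        refine sum_le_sum fun a _ => ?_
        rw [← sum_filter]
        refine le_trans (sum_le_sum fun b hb => ?_) (h.2.2.2 (n - a ^ 2) T _ hT fun b hb =>
          e a b ▸ (mem_filter.1 hb).2)
        rw [← e a b, DD, max_eq_right (hT'.trans (mem_filter.1 hb).2.le)]
    _ ≤ _ := by
        rw [sum_const, nsmul_eq_mul, Nat.card_Icc]
        refine mul_le_mul_of_nonneg_right ?_ (by positivity)
        exact_mod_cast (by omega : a + K + 1 - (a - K) ≤ 2 * K + 1)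

theorem near (N : Finset ℕ) (K T : ℕ) (ξ η : II) :
    ∑ n ∈ N, (if Low K ξ.1 η.1 ∧ |(dd ξ : ℝ) - (n : ℤ)| ≤ T ∧ |(dd η : ℝ) - (n : ℤ)| ≤ T then
      (1 : ℝ) else 0) ≤ (2 * T + 1) *
        if Low K ξ.1 η.1 ∧ |(dd ξ : ℤ) - dd η| ≤ (2 * T : ℕ) then 1 else 0 := by
  have e : ∀ (ξ : II) (n : ℕ), |(dd ξ : ℝ) - (n : ℤ)| ≤ T → |(dd ξ : ℤ) - n| ≤ T :=
    fun ξ n h => by exact_mod_cast h
  split_ifs with h
  · rw [sum_boole, mul_one]
    refine (Nat.cast_le.2 (card_le_card (t := Icc (dd ξ - T) (dd ξ + T)) fun n hn => ?_)).trans ?_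
    · have := abs_le.1 (e _ _ (mem_filter.1 hn).2.2.1)
      rw [mem_Icc]
      omega
    · rw [Nat.card_Icc]
      exact_mod_cast (by omega : dd ξ + T + 1 - (dd ξ - T) ≤ 2 * T + 1)
  · rw [mul_zero]
    refine (sum_eq_zero fun n _ => if_neg fun g => h ⟨g.1, ?_⟩).le
    have := abs_le.1 (e _ _ g.2.1)
    have := abs_le.1 (e _ _ g.2.2)
    rw [abs_le]
    omega

end EB2A

open EB2A Classical in
theorem p_EB2 (hPHI : S_PHI) (hCNT : S_CNT) :
    S_EB2 := by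
  intro ε hε
  obtain ⟨C, C0, hC⟩ := hCNT ε hε
  refine ⟨16 * C + 160, fun σ N X K T h hT hX => ?_⟩
  have h1 := hC X K (2 * T) (by nlinarith) hX
  have P0 : ∀ n, 0 ≤ Psi n X := fun n => sum_nonneg fun ξ _ => iD _ ξ
  have h2 : ∀ n : ℕ, ∑ ξ ∈ Box X, ∑ η ∈ Box X, 1 / DD n ξ *
      (if Low K ξ.1 η.1 ∧ (T : ℝ) < |(dd η : ℝ) - (n : ℤ)| then 1 / DD n η else 0) ≤
        (2 * K + 1) * (20 / √T) * Psi n X := fun n => by
    rw [Psi, mul_sum]
    refine sum_le_sum fun ξ _ => ?_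
    rw [← mul_sum, mul_comm]
    exact mul_le_mul_of_nonneg_right (far hPHI _ K T X n hT) (iD _ ξ)
  have h3 : ∀ n : ℕ, LL σ n X ≤ 2 * σ (K + 1) ^ 2 * Psi n X ^ 2 + 2 * σ 1 ^ 2 *
      (∑ p ∈ Box X ×ˢ Box X, (if Low K p.1.1 p.2.1 ∧ |(dd p.1 : ℝ) - (n : ℤ)| ≤ T ∧
        |(dd p.2 : ℝ) - (n : ℤ)| ≤ T then (1 : ℝ) else 0) +
          2 * ((2 * K + 1) * (20 / √T) * Psi n X)) := fun n => by
    refine (sum_le_sum fun p _ => pt h K T n p.1 p.2).trans ?_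
    rw [sum_add_distrib, ← mul_sum, ← mul_sum, sum_add_distrib, sum_add_distrib, sq (Psi n X),
      add_assoc, two_mul (_ * Psi n X)]
    refine add_le_add (by rw [Psi, sum_mul_sum, sum_product]) (mul_le_mul_of_nonneg_left
      (add_le_add le_rfl (add_le_add ?_ ?_)) (by positivity))
    · rw [sum_product]
      exact h2 n
    · rw [sum_product_right]
      exact h2 n
  have h4 : ∑ n ∈ N, ∑ p ∈ Box X ×ˢ Box X, (if Low K p.1.1 p.2.1 ∧
      |(dd p.1 : ℝ) - ((n : ℕ) : ℤ)| ≤ T ∧ |(dd p.2 : ℝ) - ((n : ℕ) : ℤ)| ≤ T then (1 : ℝ) else 0) ≤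
        (2 * T + 1) * (C * (X : ℝ) ^ (1 / 2 + ε) * ((K + (2 * T : ℕ) + 1) * ((2 * T : ℕ) + 1))) := by
    rw [sum_comm]
    refine (sum_le_sum fun p _ => near N K T p.1 p.2).trans ?_
    rw [← mul_sum, sum_boole]
    exact mul_le_mul_of_nonneg_left h1 (by positivity)
  refine (sum_le_sum fun n _ => h3 n).trans ?_
  rw [sum_add_distrib, ← mul_sum, ← mul_sum, sum_add_distrib, ← mul_sum, ← mul_sum]
  refine add_le_add le_rfl ?_
  have S0 : 0 ≤ ∑ n ∈ N, Psi n X := sum_nonneg fun n _ => P0 n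
  have h5 : (2 * T + 1 : ℝ) * ((K + (2 * T : ℕ) + 1) * ((2 * T : ℕ) + 1)) ≤
      8 * ((K + T + 1) * (T + 1) ^ 2) := by
    push_cast
    calc _ ≤ 2 * (T + 1 : ℝ) * (2 * (K + T + 1) * (2 * (T + 1))) := by
          gcongr <;> linarith [(Nat.cast_nonneg K : (0 : ℝ) ≤ K)]
      _ = _ := by ring
  have h6 : (2 * K + 1 : ℝ) * (20 / √T) ≤ 40 * ((K + 1) / √T) := by
    calc _ ≤ 2 * (K + 1 : ℝ) * (20 / √T) := by gcongr; linarith
      _ = _ := by ring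
  have h7 := mul_le_mul_of_nonneg_left h5 (show 0 ≤ C * (X : ℝ) ^ (1 / 2 + ε) by positivity)
  have h8 := mul_le_mul_of_nonneg_right h6 S0
  have h9 : 0 ≤ (X : ℝ) ^ (1 / 2 + ε) * ((K + T + 1) * (T + 1) ^ 2) := by positivity
  have h10 : 0 ≤ C * ((K + 1) / √T * ∑ n ∈ N, Psi n X) := by positivity
  rw [mul_comm 2, mul_comm (_ + _) (σ 1 ^ 2), mul_assoc, mul_assoc (σ 1 ^ 2)]
  refine mul_le_mul_of_nonneg_left ?_ (sq_nonneg _)
  linarith

end Pool.Agent.P.MP_6b977f_mp.RB
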