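import Pool.Agent.P.MP_6b977f_mp.RB.Iface

/-! Step MINS. -/

namespace Pool.Agent.P.MP_6b977f_mp.RB

open Real MeasureTheory ProbabilityTheory Filter Topology Finset Laplacian
open scoped ContDiff ComplexConjugate ENNReal Matrix

namespace MINSA

variable {ι : Type} [DecidableEq ι] (t : ι → GI)

omit [DecidableEq ι] in
theorem one (S : Finset ι) : S.Nonempty → ∑ i ∈ S, t i = 0 → ∃ S' ⊆ S, MinOn S' t := by
  induction S using Finset.strongInduction with
  | H S ih =>
    intro h0 h1
    by_cases h : MinOn S t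
    · exact ⟨S, Subset.rfl, h⟩
    · simp only [MinOn, h0, h1, true_and, not_forall, not_not] at h
      obtain ⟨S', a, b, c, d⟩ := h
      obtain ⟨T, e, f⟩ := ih S' (ssubset_of_subset_of_ne a c) b d
      exact ⟨T, e.trans a, f⟩

theorem two (S : Finset ι) : (∀ i ∈ S, t i ≠ 0) → ∑ i ∈ S, t i = 0 → ¬BalOn S t →
    ∃ S' ⊆ S, 3 ≤ S'.card ∧ MinOn S' t := by
  induction S using Finset.strongInduction with
  | H S ih =>
    intro h0 h1 h2
    obtain ⟨S', a, b⟩ := one t S (nonempty_iff_ne_empty.2 (by rintro rfl; exact h2 fun _ => rfl)) h1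
    by_cases c : 3 ≤ S'.card
    · exact ⟨S', a, c, b⟩
    have c0 := card_pos.2 b.1
    rcases (by omega : S'.card = 1 ∨ S'.card = 2) with c1 | c2
    · obtain ⟨i, rfl⟩ := card_eq_one.1 c1
      exact absurd (by simpa using b.2.1) (h0 i (a (mem_singleton_self i)))
    obtain ⟨T, e, f⟩ := ih (S \ S') (sdiff_ssubset a b.1) (fun i hi => h0 i (mem_sdiff.1 hi).1)
      (by rw [← sum_sdiff a, b.2.1, add_zero] at h1; exact h1) fun h => h2 fun ξ => by
        have := h ξ
        obtain ⟨i, j, hij, rfl⟩ := card_eq_two.1 c2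
        have e : t j = -t i := by
          have := b.2.1
          rw [sum_pair hij] at this
          exact eq_neg_of_add_eq_zero_right this
        simp only [card_filter] at this ⊢
        rw [← sum_sdiff a, ← sum_sdiff a, this, sum_pair hij, sum_pair hij, e]
        simp only [neg_eq_iff_eq_neg, neg_neg]
        ring
    exact ⟨T, e.trans sdiff_subset, f⟩

end MINSA

theorem p_MINS :
    S_MINS := by
  intro ι _ t
  refine ⟨MINSA.one t, MINSA.two t, fun l e => ?_⟩
  refine and_congr map_nonempty (and_congr (by rw [sum_map]; rfl) ⟨fun h S' a b c => ?_,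
    fun h S' a b c => ?_⟩)
  · have := h (S'.map e) (map_subset_map.2 a) (map_nonempty.2 b) fun x => c (map_injective e x)
    rwa [sum_map] at this
  · obtain ⟨U, u, rfl⟩ := subset_map_iff.1 a
    rw [sum_map]
    exact h U u (map_nonempty.1 b) fun x => c (x ▸ rfl)

end Pool.Agent.P.MP_6b977f_mp.RB
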