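import Pool.Agent.P.MP_6b977f_mp.RB.Iface

/-! Step QF0. -/

namespace Pool.Agent.P.MP_6b977f_mp.RB

open Real MeasureTheory ProbabilityTheory Filter Topology Finset Laplacian
open scoped ContDiff ComplexConjugate ENNReal Matrix

namespace QF0A

variable {Ω : Type} [MeasurableSpace Ω] {P : Measure Ω} [IsProbabilityMeasure P]
  {ι : Type} [Fintype ι] [DecidableEq ι] {x : ι → Ω → ℝ} {s : ι → ℝ} {K : ℝ}

/-- Centred product. -/
def Y (s : ι → ℝ) (p : ι × ι) (v : ι → ℝ) : ℝ := v p.1 * v p.2 - if p.1 = p.2 then s p.1 else 0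

omit [Fintype ι] in
theorem Y_meas (p : ι × ι) : Measurable (Y s p) := by
  unfold Y; fun_prop

omit [Fintype ι] in
theorem Y_swap (p : ι × ι) : Y s p.swap = Y s p := by
  funext v
  simp only [Y, Prod.fst_swap, Prod.snd_swap, mul_comm]
  by_cases h : p.1 = p.2
  · simp [h]
  · simp [h, Ne.symm h]

omit [Fintype ι] in
theorem Y_off (p : ι × ι) {k : ι} (h1 : p.1 ≠ k) (h2 : p.2 ≠ k) (v : ι → ℝ) :
    Y s p (fun j => if j = k then 0 else v j) = Y s p v := by
  simp [Y, h1, h2]

omit [IsProbabilityMeasure P] [Fintype ι] in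
theorem fac (hm : ∀ k, Measurable (x k))
    (hi : ∀ k, IndepFun (x k) (fun w j => if j = k then 0 else x j w) P) (k : ι) {φ : ℝ → ℝ}
    {F : (ι → ℝ) → ℝ} (hφ : Measurable φ) (hF : Measurable F) (h0 : ∫ w, φ (x k w) ∂P = 0) :
    ∫ w, φ (x k w) * F (fun j => if j = k then 0 else x j w) ∂P = 0 := by
  have hv : Measurable fun w j => if j = k then 0 else x j w :=
    measurable_pi_lambda _ fun j => by split_ifs <;> fun_prop
  have := ((hi k).comp hφ hF).integral_fun_mul_eq_mul_integral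
    (hφ.comp (hm k)).aestronglyMeasurable (hF.comp hv).aestronglyMeasurable
  simp only [Function.comp] at this
  rw [this, h0, zero_mul]

omit [Fintype ι] in
theorem Y_L2 (h4 : ∀ k, MemLp (x k) 4 P) (p : ι × ι) :
    MemLp (fun w => Y s p fun k => x k w) 2 P := by
  have : ENNReal.HolderTriple 4 4 2 := ⟨by
    rw [← two_mul, show (4 : ℝ≥0∞) = 2 * 2 by norm_num, ENNReal.mul_inv (by simp) (by simp),
      ← mul_assoc, ENNReal.mul_inv_cancel (by simp) (by simp), one_mul]⟩
  exact ((h4 p.2).mul (h4 p.1)).sub (memLp_const _)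

omit [IsProbabilityMeasure P] [Fintype ι] in
theorem van1 (hm : ∀ k, Measurable (x k))
    (hi : ∀ k, IndepFun (x k) (fun w j => if j = k then 0 else x j w) P)
    (h1 : ∀ k, ∫ w, x k w ∂P = 0) (p q : ι × ι) (h : p.1 ≠ p.2) (a : q.1 ≠ p.1) (b : q.2 ≠ p.1) :
    ∫ w, Y s p (fun k => x k w) * Y s q (fun k => x k w) ∂P = 0 := by
  rw [← fac hm hi p.1 (φ := id) (F := fun v => v p.2 * Y s q v) measurable_id
    ((measurable_pi_apply _).mul (Y_meas q)) (h1 _)]
  refine integral_congr_ae (ae_of_all _ fun w => ?_)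
  simp only [Y_off q a b, if_neg h.symm, id]
  rw [Y, if_neg h]; ring

omit [Fintype ι] in
theorem van (hm : ∀ k, Measurable (x k))
    (hi : ∀ k, IndepFun (x k) (fun w j => if j = k then 0 else x j w) P)
    (h4 : ∀ k, MemLp (x k) 4 P) (h1 : ∀ k, ∫ w, x k w ∂P = 0) (h2 : ∀ k, ∫ w, x k w ^ 2 ∂P = s k)
    (p q : ι × ι) (a : q ≠ p) (b : q ≠ p.swap) :
    ∫ w, Y s p (fun k => x k w) * Y s q (fun k => x k w) ∂P = 0 := by
  have off : ∀ p q : ι × ι, p.1 ≠ p.2 → q ≠ p → q ≠ p.swap →
      ∫ w, Y s p (fun k => x k w) * Y s q (fun k => x k w) ∂P = 0 := by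
    intro p q h a b
    by_cases c : q.1 ≠ p.1 ∧ q.2 ≠ p.1
    · exact van1 hm hi h1 p q h c.1 c.2
    · rw [← Y_swap p]
      refine van1 hm hi h1 p.swap q h.symm (fun d => ?_) fun d => ?_
      · have : q.2 = p.1 := by
          by_contra e
          exact c ⟨fun f => h (f.symm.trans d), e⟩
        exact b (Prod.ext d this)
      · have : q.1 = p.1 := by
          by_contra e
          exact c ⟨e, fun f => h (f.symm.trans d)⟩
        exact a (Prod.ext this d)
  by_cases hp : p.1 = p.2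
  · by_cases hq : q.1 = q.2
    · have c : q.1 ≠ p.1 := fun c => a (Prod.ext c (hq ▸ hp ▸ c))
      have i2 : Integrable (fun w => x p.1 w ^ 2) P :=
        ((h4 p.1).mono_exponent (by norm_num)).integrable_sq
      rw [← fac hm hi p.1 (φ := fun t => t ^ 2 - s p.1) (F := Y s q) (by fun_prop) (Y_meas q)
        (by rw [integral_sub i2 (integrable_const _), h2]; simp)]
      refine integral_congr_ae (ae_of_all _ fun w => ?_)
      simp only [Y_off q c (hq ▸ c)]
      rw [Y, if_pos hp, ← hp, sq]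
    · simp_rw [mul_comm (Y s p _)]
      exact off q p hq a.symm fun c => b (by rw [c]; rfl)
  · exact off p q hp a b

omit [Fintype ι] in
theorem sq_le (h4 : ∀ k, MemLp (x k) 4 P) (h2 : ∀ k, ∫ w, x k w ^ 2 ∂P = s k)
    (hK : ∀ k, ∫ w, x k w ^ 4 ∂P ≤ K) (p : ι × ι) :
    ∫ w, Y s p (fun k => x k w) * Y s p (fun k => x k w) ∂P ≤ K := by
  have i4 : ∀ k, Integrable (fun w => x k w ^ 4) P := fun k => by
    simpa [Even.pow_abs (show Even 4 by decide)] using
      (h4 k).integrable_norm_pow' (p := 4)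
  by_cases hp : p.1 = p.2
  · have i2 : Integrable (fun w => x p.1 w ^ 2) P :=
      ((h4 p.1).mono_exponent (by norm_num)).integrable_sq
    have e : ∀ w, Y s p (fun k => x k w) * Y s p (fun k => x k w) =
        (x p.1 w ^ 4 - 2 * s p.1 * x p.1 w ^ 2) + s p.1 ^ 2 := fun w => by
      rw [Y, if_pos hp, ← hp]; ring
    simp_rw [e]
    have i5 : Integrable (fun w => x p.1 w ^ 4 - 2 * s p.1 * x p.1 w ^ 2) P :=
      (i4 _).sub (i2.const_mul _)
    rw [integral_add i5 (integrable_const _),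
      integral_sub (i4 _) (i2.const_mul _), integral_const_mul, h2]
    simp only [integral_const, probReal_univ, one_smul]
    nlinarith [hK p.1, sq_nonneg (s p.1)]
  · calc _ ≤ ∫ w, (x p.1 w ^ 4 + x p.2 w ^ 4) / 2 ∂P := by
          refine integral_mono ((Y_L2 h4 p).integrable_mul (Y_L2 h4 p))
            (((i4 _).add (i4 _)).div_const _) fun w => ?_
          simp only [Y, if_neg hp]
          nlinarith [sq_nonneg (x p.1 w ^ 2 - x p.2 w ^ 2)]
      _ ≤ K := by
          rw [integral_div, integral_add (i4 _) (i4 _)]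
          linarith [hK p.1, hK p.2]

theorem real (hm : ∀ k, Measurable (x k))
    (hi : ∀ k, IndepFun (x k) (fun w j => if j = k then 0 else x j w) P)
    (h4 : ∀ k, MemLp (x k) 4 P) (h1 : ∀ k, ∫ w, x k w ∂P = 0) (h2 : ∀ k, ∫ w, x k w ^ 2 ∂P = s k)
    (hK : ∀ k, ∫ w, x k w ^ 4 ∂P ≤ K) (b : ι × ι → ℝ) :
    Integrable (fun w => (∑ p, b p * Y s p fun k => x k w) ^ 2) P ∧
    ∫ w, (∑ p, b p * Y s p fun k => x k w) ^ 2 ∂P ≤ 2 * K * ∑ p, b p ^ 2 := by
  refine ⟨(memLp_finsetSum _ fun p _ => (Y_L2 h4 p).const_mul _).integrable_sq, ?_⟩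
  have I : ∀ p q : ι × ι, Integrable (fun w => b p * b q *
      (Y s p (fun k => x k w) * Y s q fun k => x k w)) P := fun p q =>
    ((Y_L2 h4 p).integrable_mul (Y_L2 h4 q)).const_mul _
  have e : ∀ w, (∑ p, b p * Y s p fun k => x k w) ^ 2 = ∑ p, ∑ q, b p * b q *
      (Y s p (fun k => x k w) * Y s q fun k => x k w) := fun w => by
    rw [sq, sum_mul_sum]
    exact sum_congr rfl fun p _ => sum_congr rfl fun q _ => by ring
  simp_rw [e]
  rw [integral_finsetSum _ fun p _ => integrable_finsetSum _ fun q _ => I p q]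
  have t : ∀ p q : ι × ι, ∫ w, b p * b q * (Y s p (fun k => x k w) * Y s q fun k => x k w) ∂P ≤
      (if q = p then K * b p ^ 2 else 0) +
        if q = p.swap then K * (b p ^ 2 + b p.swap ^ 2) / 2 else 0 := by
    intro p q
    have u := sq_le h4 h2 hK p
    have l : 0 ≤ ∫ w, Y s p (fun k => x k w) * Y s p (fun k => x k w) ∂P :=
      integral_nonneg fun w => mul_self_nonneg _
    have K0 := l.trans u
    rw [integral_const_mul]
    by_cases a : q = p
    · rw [if_pos a, a]
      have : 0 ≤ if p = p.swap then K * (b p ^ 2 + b p.swap ^ 2) / 2 else 0 := by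
        split_ifs <;> positivity
      nlinarith [sq_nonneg (b p)]
    · by_cases c : q = p.swap
      · rw [if_neg a, if_pos c, c, Y_swap]
        nlinarith [mul_nonneg l (sq_nonneg (b p - b p.swap)),
          mul_nonneg (sub_nonneg.2 u) (add_nonneg (sq_nonneg (b p)) (sq_nonneg (b p.swap)))]
      · rw [van hm hi h4 h1 h2 p q a c, if_neg a, if_neg c]; simp
  calc _ ≤ ∑ p, (K * b p ^ 2 + K * (b p ^ 2 + b p.swap ^ 2) / 2) := by
        refine sum_le_sum fun p _ => ?_
        rw [integral_finsetSum _ fun q _ => I p q]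
        refine (sum_le_sum fun q _ => t p q).trans (le_of_eq ?_)
        simp [sum_add_distrib]
    _ = _ := by
        have : ∑ p : ι × ι, b p.swap ^ 2 = ∑ p, b p ^ 2 :=
          (Equiv.prodComm ι ι).sum_comp fun p => b p ^ 2
        simp only [sum_add_distrib, ← sum_div, ← mul_sum, this]
        ring

end QF0A

open QF0A in
theorem p_QF0 :
    S_QF0 := by
  intro Ω _ P _ ι _ _ x B s K hm hi h4 h1 h2 hK
  obtain ⟨i1, r1⟩ := real hm hi h4 h1 h2 hK fun p => (B p.1 p.2).re
  obtain ⟨i2, r2⟩ := real hm hi h4 h1 h2 hK fun p => (B p.1 p.2).im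
  have e : ∀ w, (∑ k, ∑ l, (x k w : ℂ) * B k l * x l w) - ∑ k, s k * B k k =
      ∑ p : ι × ι, B p.1 p.2 * (Y s p fun k => x k w : ℝ) := fun w => by
    rw [Fintype.sum_prod_type, ← sum_sub_distrib]
    refine sum_congr rfl fun k _ => ?_
    have : (s k : ℂ) * B k k = ∑ l, B k l * (if k = l then s k else 0 : ℝ) := by
      rw [sum_eq_single k (fun l _ h => by simp [h.symm]) (by simp)]; simp [mul_comm]
    rw [this, ← sum_sub_distrib]
    refine sum_congr rfl fun l _ => ?_
    simp only [Y]; push_cast; ring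
  have e2 : ∀ w, ‖∑ p : ι × ι, B p.1 p.2 * (Y s p fun k => x k w : ℝ)‖ₑ ^ 2 = ENNReal.ofReal
      ((∑ p : ι × ι, (B p.1 p.2).re * Y s p fun k => x k w) ^ 2 +
        (∑ p : ι × ι, (B p.1 p.2).im * Y s p fun k => x k w) ^ 2) := fun w => by
    rw [← ofReal_norm, ← ENNReal.ofReal_pow (norm_nonneg _), Complex.sq_norm,
      Complex.normSq_apply, Complex.re_sum, Complex.im_sum]
    simp [sq]
  simp_rw [e, e2]
  refine (ofReal_integral_eq_lintegral_ofReal (i1.add i2)
    (ae_of_all _ fun w => add_nonneg (sq_nonneg _) (sq_nonneg _))).symm.trans_le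
    (ENNReal.ofReal_le_ofReal ?_)
  refine (integral_add i1 i2).trans_le ?_
  refine (add_le_add r1 r2).trans (le_of_eq ?_)
  rw [← mul_add, ← sum_add_distrib, Fintype.sum_prod_type]
  simp only [Complex.sq_norm, Complex.normSq_apply]
  simp only [sq]

end Pool.Agent.P.MP_6b977f_mp.RB
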