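import Pool.Agent.P.MP_6b977f_mp.RB.Iface

/-! Step SEP4. -/

namespace Pool.Agent.P.MP_6b977f_mp.RB

open Real MeasureTheory ProbabilityTheory Filter Topology Finset Laplacian
open scoped ContDiff ComplexConjugate ENNReal Matrix

namespace SEP4A

theorem intI {f : ℝ → ℝ} (hf : Continuous f) : IntegrableOn f (Set.Ioo 0 π) :=
  hf.integrableOn_Icc.mono_set Set.Ioo_subset_Icc_self

theorem intS (hCB0 : S_CB0) {f : ℂ → ℝ} (hf : Continuous f) : IntegrableOn f sqr := by
  have : IsFiniteMeasure (volume.restrict sqr) :=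
    isFiniteMeasure_restrict.2 sqr_bdd.measure_lt_top.ne
  exact (hCB0.2.2.2.1 f hf).integrable (by norm_num)

theorem fatou {G : ℕ → ℂ → ℝ} {P : ℂ → ℝ} {B : ℝ} (hG : ∀ n, IntegrableOn (G n) sqr)
    (h0 : ∀ n z, 0 ≤ G n z) (hB : ∀ n, ∫ z in sqr, G n z ≤ B)
    (hl : ∀ z ∈ sqr, Tendsto (fun n => G n z) atTop (𝓝 (P z))) : IntegrableOn P sqr := by
  have hl' : ∀ᵐ z ∂(volume.restrict sqr), Tendsto (fun n => G n z) atTop (𝓝 (P z)) :=
    (ae_restrict_mem sqr_open.measurableSet).mono hl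
  refine ⟨aestronglyMeasurable_of_tendsto_ae _ (fun n => (hG n).1) hl', ?_⟩
  have h1 : ∫⁻ z in sqr, ‖P z‖ₑ = ∫⁻ z in sqr, liminf (fun n => ‖G n z‖ₑ) atTop :=
    lintegral_congr_ae (by filter_upwards [hl'] with x hx using hx.enorm.liminf_eq.symm)
  refine lt_of_le_of_lt (b := ENNReal.ofReal B) ?_ ENNReal.ofReal_lt_top
  rw [h1]
  refine (lintegral_liminf_le' fun n => (hG n).1.aemeasurable.enorm).trans
    (liminf_le_of_frequently_le' (.of_forall fun n => ?_))
  rw [← ofReal_integral_norm_eq_lintegral_enorm (hG n)]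
  refine ENNReal.ofReal_le_ofReal (le_trans (le_of_eq ?_) (hB n))
  simp only [Real.norm_of_nonneg (h0 n _)]

theorem gen (hCB0 : S_CB0) (f g : ℕ → ℝ → ℝ) (hf : ∀ a, Continuous (f a))
    (hg : ∀ a, Continuous (g a))
    (ho : ∀ a b, a ≠ b → ∫ x in Set.Ioo 0 π, f a x * f b x = 0) (h1 : ∀ a x, f a x ^ 2 ≤ 1)
    (hs : Summable fun a => ∫ y in Set.Ioo 0 π, g a y ^ 2) {P : ℂ → ℝ}
    (hP : ∀ z ∈ sqr, HasSum (fun a => f a z.re * g a z.im) (P z)) :
    IntegrableOn (fun z => P z ^ 2) sqr := by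
  have hg0 : ∀ a, 0 ≤ ∫ y in Set.Ioo 0 π, g a y ^ 2 := fun a =>
    integral_nonneg fun y => sq_nonneg _
  refine fatou (G := fun n z => (∑ a ∈ range n, f a z.re * g a z.im) ^ 2)
    (B := π * ∑' a, ∫ y in Set.Ioo 0 π, g a y ^ 2) (fun n => intS hCB0 (by fun_prop))
    (fun n z => sq_nonneg _) (fun n => ?_) fun z hz => (hP z hz).tendsto_sum_nat.pow 2
  have e : ∀ z : ℂ, (∑ a ∈ range n, f a z.re * g a z.im) ^ 2 = ∑ a ∈ range n, ∑ b ∈ range n,
      (f a z.re * f b z.re) * (g a z.im * g b z.im) := fun z => by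
    rw [sq, sum_mul_sum]
    exact sum_congr rfl fun a _ => sum_congr rfl fun b _ => by ring
  simp only [e]
  rw [integral_finsetSum _ fun a _ => intS hCB0 (by fun_prop)]
  refine le_trans (sum_le_sum fun a ha => ?_) (le_trans (mul_sum _ _ _).ge
    (mul_le_mul_of_nonneg_left (hs.sum_le_tsum (range n) fun a _ => hg0 a) pi_pos.le))
  rw [integral_finsetSum _ fun b _ => intS hCB0 (by fun_prop)]
  have e2 : ∀ b, ∫ z in sqr, (f a z.re * f b z.re) * (g a z.im * g b z.im) =
      (∫ x in Set.Ioo 0 π, f a x * f b x) * ∫ y in Set.Ioo 0 π, g a y * g b y := fun b =>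
    rect_mul _ _ (fun x => f a x * f b x) fun y => g a y * g b y
  simp only [e2]
  rw [sum_eq_single_of_mem a ha fun b _ hb => by rw [ho a b hb.symm, zero_mul]]
  simp only [← sq]
  refine mul_le_mul_of_nonneg_right ?_ (hg0 a)
  calc ∫ x in Set.Ioo 0 π, f a x ^ 2 ≤ ∫ x in Set.Ioo 0 π, (1 : ℝ) :=
        integral_mono (intI (by fun_prop)) (intI continuous_const) (h1 a)
    _ = π := by simp [pi_pos.le]

end SEP4A

theorem p_SEP4 (hCB0 : S_CB0) (hSEP2 : S_SEP2) (hCS : S_CS) :
    S_SEP4 := by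
  intro α lam M hM hs
  obtain ⟨-, -, h⟩ := hSEP2 α lam M hM
  have c0 : ∀ s, Continuous (Cs s) := fun s => (hCS s).1.continuous
  have c1 : ∀ s, Continuous (deriv (Cs s)) := fun s => (hCS s).1.continuous_deriv (by simp)
  have hI : ∀ a : ℕ, 0 ≤ ∫ y in Set.Ioo 0 π, (α a * Cs (a ^ 2 - lam) y) ^ 2 := fun a =>
    integral_nonneg fun y => sq_nonneg _
  have h1 : IntegrableOn (fun z => (gradient (sep α lam) z).re ^ 2) sqr := by
    refine SEP4A.gen hCB0 (fun a x => sin (a * x))
      (fun a y => -(a * (α a * Cs (a ^ 2 - lam) y))) (fun a => by fun_prop)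
      (fun a => by have := c0 (a ^ 2 - lam); fun_prop) hCB0.2.1 (fun a x => sin_sq_le_one _) ?_
      fun z hz => ?_
    · refine hs.of_nonneg_of_le (fun a => integral_nonneg fun y => sq_nonneg _) fun a => ?_
      simp only [neg_sq, mul_pow (a : ℝ)]
      rw [integral_const_mul]
      nlinarith [hI a]
    · convert (h z hz).2.1 using 2
      ring
  have h2 : IntegrableOn (fun z => (gradient (sep α lam) z).im ^ 2) sqr := by
    refine SEP4A.gen hCB0 (fun a x => cos (a * x))
      (fun a y => α a * deriv (Cs (a ^ 2 - lam)) y) (fun a => by fun_prop)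
      (fun a => by have := c1 (a ^ 2 - lam); fun_prop) (fun a b hab => ?_)
      (fun a x => cos_sq_le_one _) ?_ fun z hz => ?_
    · have h3 := hCB0.1 a b
      rw [if_neg hab] at h3
      have e : ∀ x : ℝ, nn a * cos (a * x) * (nn b * cos (b * x)) =
          nn a * nn b * (cos (a * x) * cos (b * x)) := fun x => by ring
      simp only [e] at h3
      rw [integral_const_mul] at h3
      exact (mul_eq_zero.1 h3).resolve_left (mul_pos (nn_pos a) (nn_pos b)).ne'
    · refine (hs.mul_left (1 + |lam|)).of_norm_bounded_eventually_nat ?_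
      obtain ⟨K, hK⟩ := exists_nat_gt (|lam| + 1)
      filter_upwards [eventually_ge_atTop K] with a ha
      have ha' : |lam| + 1 < a := hK.trans_le (by exact_mod_cast ha)
      have hl := le_abs_self lam
      have hl' := neg_abs_le lam
      have hl0 := abs_nonneg lam
      have hp : 0 < (a : ℝ) ^ 2 - lam := by nlinarith
      rw [Real.norm_of_nonneg (integral_nonneg fun y => sq_nonneg _), ← mul_assoc,
        ← integral_const_mul]
      have k0 := c0 (a ^ 2 - lam)
      have k1 := c1 (a ^ 2 - lam)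
      refine integral_mono (SEP4A.intI ((continuous_const.mul k1).pow 2))
        (SEP4A.intI (continuous_const.mul ((continuous_const.mul k0).pow 2))) fun y => ?_
      have h4 := (((hCS _).2.2.2.1 hp) y).2
      have h5 : (a : ℝ) ^ 2 - lam ≤ (1 + |lam|) * (1 + (a : ℝ) ^ 2) := by
        nlinarith [mul_nonneg hl0 (sq_nonneg (a : ℝ))]
      calc (α a * deriv (Cs (a ^ 2 - lam)) y) ^ 2
          = α a ^ 2 * deriv (Cs (a ^ 2 - lam)) y ^ 2 := mul_pow _ _ _
        _ ≤ α a ^ 2 * (((1 + |lam|) * (1 + (a : ℝ) ^ 2)) * Cs (a ^ 2 - lam) y ^ 2) :=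
          mul_le_mul_of_nonneg_left (h4.trans (mul_le_mul_of_nonneg_right h5 (sq_nonneg _)))
            (sq_nonneg _)
        _ = _ := by ring
    · convert (h z hz).2.2 using 2
      ring
  refine (h1.add h2).congr (Eventually.of_forall fun z => ?_)
  simp only [Pi.add_apply]
  rw [Complex.sq_norm, Complex.normSq_apply]
  ring

end Pool.Agent.P.MP_6b977f_mp.RB
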