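import Pool.Agent.P.MP_6b977f_mp.RB.Iface

/-! Step SHARE. -/

namespace Pool.Agent.P.MP_6b977f_mp.RB

open Real MeasureTheory ProbabilityTheory Filter Topology Finset Laplacian
open scoped ContDiff ComplexConjugate ENNReal Matrix

namespace SHAREA

def PP (s k : ℕ) : Finset (ℕ × ℕ) := (range (s + 1) ×ˢ range (s + 1)).filter fun q =>
  q.1 ≠ q.2 ∧ (q.2 = q.1 - k ∨ q.2 = k - q.1)

def WW (s : ℕ) (q : ℕ × ℕ) : Finset (ℕ × ℕ) := (range (s + 1) ×ˢ range (s + 1)).filter fun p =>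
  (p.2 : ℤ) ^ 2 - (p.1 : ℤ) ^ 2 = (q.1 : ℤ) ^ 2 - (q.2 : ℤ) ^ 2

theorem card_PP (s k : ℕ) : (PP s k).card ≤ 2 * (s + 1) := by
  refine (card_le_card (t := (range (s + 1)).image (fun a => (a, a - k)) ∪
    (range (s + 1)).image fun a => (a, k - a)) fun q hq => ?_).trans ?_
  · obtain ⟨a, -, b⟩ := mem_filter.1 hq
    have a1 := (mem_product.1 a).1
    exact mem_union.2 (b.imp (fun e => mem_image.2 ⟨_, a1, Prod.ext rfl e.symm⟩)
      fun e => mem_image.2 ⟨_, a1, Prod.ext rfl e.symm⟩)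
  · refine (card_union_le _ _).trans ((add_le_add card_image_le card_image_le).trans ?_)
    rw [card_range]
    omega

theorem cover (X k : ℕ) : ((range (X + 1)).filter fun n => k ∈ (AA n ×ˢ AA n).image kap) ⊆
    (range (X.sqrt + 1)).image (fun b => (k / 2) ^ 2 + b ^ 2) ∪
      (PP X.sqrt k).biUnion fun q => (WW X.sqrt q).image fun p => q.1 ^ 2 + p.1 ^ 2 := by
  intro n hn
  obtain ⟨h1, h2⟩ := mem_filter.1 hn
  obtain ⟨⟨⟨a, b⟩, a', b'⟩, h3, h4⟩ := mem_image.1 h2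
  obtain ⟨h5, h6⟩ := mem_product.1 h3
  have e1 : a ^ 2 + b ^ 2 = n := (mem_AA.1 h5).1
  have e2 : a' ^ 2 + b' ^ 2 = n := (mem_AA.1 h6).1
  have hX := mem_range.1 h1
  have r : ∀ c, c ^ 2 ≤ n → c ∈ range (X.sqrt + 1) := fun c h =>
    mem_range.2 (Nat.lt_succ_of_le (Nat.le_sqrt'.2 (by omega)))
  simp only [kap] at h4
  by_cases e : a = a'
  · refine mem_union_left _ (mem_image.2 ⟨b, r b (by omega), ?_⟩)
    rw [if_neg (by omega)] at h4
    rw [show k / 2 = a by omega, e1]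
  · refine mem_union_right _ (mem_biUnion.2 ⟨(a, a'), mem_filter.2 ⟨mem_product.2
      ⟨r a (by omega), r a' (by omega)⟩, e, ?_⟩, mem_image.2 ⟨(b, b'), mem_filter.2
        ⟨mem_product.2 ⟨r b (by omega), r b' (by omega)⟩, ?_⟩, e1⟩⟩)
    · dsimp only
      split_ifs at h4 <;> omega
    · dsimp only
      zify at e1 e2
      linarith

end SHAREA

theorem p_SHARE (hDIV : S_DIV) :
    S_SHARE := by
  intro ε hε
  obtain ⟨C, hC, -, h⟩ := hDIV ε hε
  refine ⟨2 + 4 * C, by positivity, fun X k hX => ?_⟩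
  have X1 : (1 : ℝ) ≤ X := by exact_mod_cast hX
  have hs : ((X.sqrt + 1 : ℕ) : ℝ) ≤ 2 * (X : ℝ) ^ (1 / 2 : ℝ) := by
    rw [← sqrt_eq_rpow]
    have := Real.nat_sqrt_le_real_sqrt (a := X)
    have := one_le_sqrt.2 X1
    push_cast
    linarith
  have h1 : (1 : ℝ) ≤ (X : ℝ) ^ ε := one_le_rpow X1 hε.le
  have hW : ∀ q ∈ SHAREA.PP X.sqrt k, ((SHAREA.WW X.sqrt q).card : ℝ) ≤ C * (X : ℝ) ^ ε := by
    intro q hq
    obtain ⟨a, b, -⟩ := mem_filter.1 hq
    obtain ⟨a1, a2⟩ := mem_product.1 a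
    have b1 := Nat.le_sqrt'.1 (Nat.lt_succ_iff.1 (mem_range.1 a1))
    have b2 := Nat.le_sqrt'.1 (Nat.lt_succ_iff.1 (mem_range.1 a2))
    refine (h _ _ (fun e => b ?_) fun p hp => (mem_filter.1 hp).2).trans ?_
    · exact Nat.pow_left_injective two_ne_zero (by exact_mod_cast sub_eq_zero.1 e)
    · gcongr
      have c1 : (q.1 : ℝ) ^ 2 ≤ X := by exact_mod_cast b1
      have c2 : (q.2 : ℝ) ^ 2 ≤ X := by exact_mod_cast b2
      push_cast
      rw [abs_le]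
      constructor <;> nlinarith [sq_nonneg (q.1 : ℝ), sq_nonneg (q.2 : ℝ)]
  have h2 := (card_le_card (SHAREA.cover X k)).trans ((card_union_le _ _).trans
    (add_le_add (card_image_le.trans (card_range _).le)
      (card_biUnion_le.trans (sum_le_sum fun _ _ => card_image_le))))
  have h3 : ((SHAREA.PP X.sqrt k).card : ℝ) ≤ 2 * (X.sqrt + 1 : ℕ) := by
    exact_mod_cast SHAREA.card_PP _ k
  have h4 := sum_le_card_nsmul _ _ _ hW
  rw [nsmul_eq_mul] at h4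
  have h5 := (Nat.cast_le (α := ℝ)).2 h2
  rw [Nat.cast_add, Nat.cast_sum] at h5
  rw [rpow_add (by linarith)]
  have p1 : (0 : ℝ) ≤ (X : ℝ) ^ (1 / 2 : ℝ) := by positivity
  have p2 : (0 : ℝ) ≤ C * (X : ℝ) ^ ε := by positivity
  refine h5.trans ?_
  have h6 := mul_le_mul_of_nonneg_right (h3.trans (mul_le_mul_of_nonneg_left hs two_pos.le)) p2
  nlinarith [mul_le_mul_of_nonneg_left h1 p1]

end Pool.Agent.P.MP_6b977f_mp.RB
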