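import Pool.Agent.P.MP_6b977f_mp.RB.Iface

/-! Step SVA. -/

namespace Pool.Agent.P.MP_6b977f_mp.RB

open Real MeasureTheory ProbabilityTheory Filter Topology Finset Laplacian
open scoped ContDiff ComplexConjugate ENNReal Matrix

namespace SVAA

lemma lg (j : ℕ) {x : ℝ} (h : 2 ^ j ≤ x) : j * log 2 ≤ log x := by
  rw [← log_pow]
  exact log_le_log (by positivity) h

lemma lg2 {k : ℕ} (h : 1 ≤ k) : log 2 ≤ log (k + 1 : ℝ) :=
  log_le_log two_pos (by exact_mod_cast Nat.succ_le_succ h)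

lemma lg0 {k : ℕ} (h : 1 ≤ k) : 0 < log (k + 1 : ℝ) := (log_pos one_lt_two).trans_le (lg2 h)

lemma rho_eq (c β : ℝ) {k : ℕ} (h : 1 ≤ k) : rho c β (fun _ => 1) k = c / log (k + 1) ^ β := by
  rw [rho, if_neg (by omega), mul_one]

lemma summ : Summable fun k : ℕ => 1 / ((1 + k : ℝ) * log (k + 1) ^ 2) := by
  refine (summable_condensed_iff_of_nonneg (fun n => by positivity) fun m n hm h => ?_).1 ?_
  · have := lg0 hm
    gcongr
  · refine .of_norm_bounded_eventually_nat ((summable_one_div_nat_pow.2 one_lt_two).mul_left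
      (1 / log 2 ^ 2)) ((eventually_ge_atTop 1).mono fun j hj => ?_)
    have h1 := lg j (x := (2 ^ j : ℕ) + 1) (by push_cast; linarith)
    have h2 := log_pos one_lt_two
    have h3 : (0 : ℝ) < j := by exact_mod_cast hj
    rw [norm_of_nonneg (by positivity), div_mul_div_comm, one_mul, ← mul_pow, mul_comm (log 2),
      mul_one_div, div_le_div_iff₀ (mul_pos (by positivity) (pow_pos (lg0 Nat.one_le_two_pow) 2))
        (by positivity), one_mul]
    gcongr
    simp

lemma up {c β : ℝ} (hc : 0 < c) (hβ : 0 < β) {m k j : ℕ} (hm : 0 < m) (hj : m ≤ 80 * j)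
    (hk : 2 ^ j ≤ k) : rho c β (fun _ => 1) k ≤ c / (log 2 / 80) ^ β / (m : ℝ) ^ β := by
  have h1 := lg j (x := k + 1) (by exact_mod_cast hk.trans k.le_succ)
  have h2 := log_pos one_lt_two
  have h3 : (m : ℝ) ≤ 80 * j := by exact_mod_cast hj
  rw [rho_eq c β (Nat.one_le_two_pow.trans hk), div_div, ← mul_rpow (by positivity) m.cast_nonneg]
  gcongr
  nlinarith

end SVAA

open SVAA in
theorem p_SVA :
    S_SVA := by
  intro c β hc hβ
  have h2 := log_pos one_lt_two
  refine ⟨summ, ⟨if_pos rfl, fun k hk => ?_, fun j k hj h => ?_, ?_⟩, c, c / (log 2 / 80) ^ β, hc,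
    (eventually_ge_atTop 40).mono fun m hm => ⟨?_, up hc (by linarith) (by omega)
      (j := m / 2) (by omega) le_rfl, up hc (by linarith) (by omega) (j := m / 40) (by omega)
      (Nat.le_succ _)⟩⟩
  · rw [rho_eq c β hk]
    exact div_pos hc (rpow_pos_of_pos (lg0 hk) β)
  · have := lg0 hj
    rw [rho_eq c β hj, rho_eq c β (hj.trans h)]
    gcongr
  · refine .of_norm_bounded (summ.mul_left (6 * (c / log 2 ^ (β - 2)) ^ 2)) fun k => ?_
    rcases k.eq_zero_or_pos with rfl | hk
    · simp [rho]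
    have h3 := lg0 hk
    have h4 := lg2 hk
    have h5 : log (k : ℝ) ≤ log (k + 1) := log_le_log (by exact_mod_cast hk) (by linarith)
    have h6 := log_natCast_nonneg k
    have h7 : log 2 ^ (β - 2) * log (k + 1 : ℝ) ^ 2 ≤ log (k + 1 : ℝ) ^ β := by
      conv_rhs => rw [← sub_add_cancel β 2, rpow_add h3, rpow_two]
      gcongr
      linarith
    have h8 : 1 + log k ≤ 6 * log (k + 1 : ℝ) ^ 2 := by nlinarith [log_two_gt_d9]
    rw [rho_eq c β hk, norm_of_nonneg (by positivity)]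
    calc _ ≤ (c / (log 2 ^ (β - 2) * log (k + 1 : ℝ) ^ 2)) ^ 2 * (6 * log (k + 1 : ℝ) ^ 2) /
          (1 + k) := by gcongr
      _ = _ := by field_simp
  · have h3 := lg0 (Nat.one_le_two_pow (n := m / 2))
    rw [sb, rho_eq c β Nat.one_le_two_pow]
    gcongr
    refine (log_le_iff_le_exp (by positivity)).2 (le_trans ?_ (?_ : (2 : ℝ) ^ m ≤ _))
    · exact_mod_cast Nat.pow_lt_pow_right one_lt_two (by omega)
    · rw [← exp_one_pow]
      gcongr
      linarith [add_one_le_exp 1]

end Pool.Agent.P.MP_6b977f_mp.RB
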