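import Pool.Agent.P.MP_6b977f_mp.RB.Iface

/-! Step VAR. -/

namespace Pool.Agent.P.MP_6b977f_mp.RB

open Real MeasureTheory ProbabilityTheory Filter Topology Finset Laplacian
open scoped ContDiff ComplexConjugate ENNReal Matrix

namespace VARA

/-- The criterion of Weyl. -/
theorem weyl {T : ℝ} [hT : Fact (0 < T)] {α : Type} (S : ℕ → Finset α) (b : ℕ → α → ℝ)
    (θ : α → AddCircle T) (h0 : ∀ j ξ, 0 ≤ b j ξ)
    (h1 : Tendsto (fun j => ∑ ξ ∈ S j, b j ξ) atTop (𝓝 1))
    (h2 : ∀ k : ℕ, 1 ≤ k → Tendsto (fun j => ∑ ξ ∈ S j, (b j ξ : ℂ) * fourier k (θ ξ)) atTop (𝓝 0))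
    (f : C(AddCircle T, ℂ)) : Tendsto (fun j => ∑ ξ ∈ S j, (b j ξ : ℂ) * f (θ ξ)) atTop
      (𝓝 (∫ t, f t ∂AddCircle.haarAddCircle)) := by
  have it : ∀ f : C(AddCircle T, ℂ), Integrable f AddCircle.haarAddCircle := fun f =>
    f.continuous.integrable_of_hasCompactSupport (.of_compactSpace _)
  obtain ⟨M, hM⟩ := h1.bddAbove_range
  have c1 : Equicontinuous fun j (f : C(AddCircle T, ℂ)) => ∑ ξ ∈ S j, (b j ξ : ℂ) * f (θ ξ) := by
    refine (LipschitzWith.uniformEquicontinuous _ M.toNNReal fun j =>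
      .of_dist_le' fun f g => ?_).equicontinuous
    rw [dist_eq_norm, ← sum_sub_distrib]
    refine (norm_sum_le_of_le _ (n := fun ξ => b j ξ * dist f g) fun ξ _ => ?_).trans ?_
    · rw [← mul_sub, norm_mul, Complex.norm_of_nonneg (h0 j ξ), ← dist_eq_norm]
      exact mul_le_mul_of_nonneg_left (ContinuousMap.dist_apply_le_dist _) (h0 j ξ)
    · rw [← sum_mul]
      exact mul_le_mul_of_nonneg_right (hM ⟨j, rfl⟩) dist_nonneg
  have c2 : Continuous fun f : C(AddCircle T, ℂ) => ∫ t, f t ∂AddCircle.haarAddCircle := by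
    refine (LipschitzWith.of_dist_le' (K := 1) fun f g => ?_).continuous
    rw [dist_eq_norm, ← integral_sub (it f) (it g)]
    simpa using norm_integral_le_of_norm_le_const (μ := AddCircle.haarAddCircle) (C := dist f g)
      (f := fun t => f t - g t) (.of_forall fun t => by
        rw [← dist_eq_norm]
        exact ContinuousMap.dist_apply_le_dist _)
  have hf : f ∈ closure (Submodule.span ℂ (Set.range (@fourier T)) : Set C(AddCircle T, ℂ)) := by
    rw [← Submodule.topologicalClosure_coe, span_fourier_closure_eq_top]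
    trivial
  refine closure_minimal (fun g hg => ?_) (c1.isClosed_setOfPred_tendsto (l := atTop) c2) hf
  induction hg using Submodule.span_induction with
  | zero => simp
  | add x y _ _ h h' => simpa [mul_add, sum_add_distrib, integral_add (it x) (it y)] using h.add h'
  | smul c x _ h =>
    simpa [mul_left_comm _ c, mul_sum, integral_const_mul] using h.const_mul c
  | mem x h =>
    obtain ⟨k, rfl⟩ := h
    rcases eq_or_ne k 0 with rfl | k0
    · simpa using h1.ofReal
    rw [Set.mem_ofPred_eq, integral_eq_zero_of_add_right_eq_neg (μ := AddCircle.haarAddCircle)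
      (fourier_add_half_inv_index k0 hT.elim)]
    obtain ⟨m, rfl | rfl⟩ := k.eq_nat_or_neg
    · exact h2 m (by omega)
    · have := (Complex.continuous_conj.tendsto 0).comp (h2 m (by omega))
      simpa only [Function.comp_def, fourier_neg, map_sum, map_mul, Complex.conj_ofReal, map_zero]
        using this

instance : Fact (0 < 2 * π) := ⟨two_pi_pos⟩

theorem fou (k : ℕ) (t : ℝ) :
    fourier k (t : AddCircle (2 * π)) = Complex.exp (t * Complex.I) ^ k := by
  have : (π : ℂ) ≠ 0 := Complex.ofReal_ne_zero.2 pi_ne_zero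
  rw [fourier_coe_apply, ← Complex.exp_nat_mul]
  congr 1
  push_cast
  field_simp

theorem fou1 (t : ℝ) : fourier 1 (t : AddCircle (2 * π)) = Complex.exp (t * Complex.I) := by
  simpa only [Nat.cast_one, pow_one] using fou 1 t

/-- The phase. -/
noncomputable def ph (w : ℂ) (t : AddCircle (2 * π)) : ℝ :=
  w.re * (fourier 1 t).re + w.im * (fourier 1 t).im

theorem ph_cont (w : ℂ) : Continuous (ph w) := by
  unfold ph
  fun_prop

theorem ph_coe (w : ℂ) (t : ℝ) : ph w t = w.re * cos t + w.im * sin t := by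
  rw [ph, fou1, Complex.exp_ofReal_mul_I_re, Complex.exp_ofReal_mul_I_im]

theorem ph_int (w : ℂ) : ∫ t, Complex.exp (Complex.I * ph w t) ∂AddCircle.haarAddCircle =
    (EB.J0 w : ℝ) := by
  have := ph_cont w
  have it : ∀ f : AddCircle (2 * π) → ℂ, Continuous f → Integrable f AddCircle.haarAddCircle :=
    fun f h => h.integrable_of_hasCompactSupport (.of_compactSpace _)
  have e : ∫ t, sin (ph w t) ∂AddCircle.haarAddCircle = 0 :=
    integral_eq_zero_of_add_right_eq_neg (g := ((2 * π / 2 / (1 : ℤ) : ℝ) : AddCircle (2 * π)))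
      fun t => by
        rw [← sin_neg, ph, ph, fourier_add_half_inv_index one_ne_zero two_pi_pos]
        simp [add_comm]
  simp only [mul_comm Complex.I, Complex.exp_mul_I, ← Complex.ofReal_cos, ← Complex.ofReal_sin]
  rw [integral_add (it _ (by fun_prop)) (it _ (by fun_prop)), integral_mul_const,
    integral_complex_ofReal, integral_complex_ofReal, e, AddCircle.integral_haarAddCircle,
    ← AddCircle.intervalIntegral_preimage _ 0]
  simp [ph_coe, EB.J0]

end VARA

open VARA in
theorem p_VAR :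
    S_VAR := by
  intro n lam b w hn h0 h1 h2 h3
  have nm : ∀ j, ∀ ξ ∈ Lam (n j), ‖(ξ : ℂ)‖ = √(n j) ∧ 0 < √(n j) := fun j ξ h =>
    ⟨by rw [Complex.norm_def, ← GaussianInt.intCast_real_norm, mem_Lam.1 h, Int.cast_natCast],
      sqrt_pos.2 (Nat.cast_pos.2 (hn j))⟩
  have ex : ∀ j, ∀ ξ ∈ Lam (n j), Complex.exp ((ξ : ℂ).arg * Complex.I) =
      ξ / (‖(ξ : ℂ)‖ : ℝ) := fun j ξ h => by
    rw [eq_div_iff (Complex.ofReal_ne_zero.2 ((nm j ξ h).1 ▸ (nm j ξ h).2.ne')), mul_comm,
      Complex.norm_mul_exp_arg_mul_I]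
  have key := weyl (fun j => Lam (n j)) b (fun ξ => ((ξ : ℂ).arg : AddCircle (2 * π))) h0 h1
    (fun k hk => (h2 k hk).congr fun j => sum_congr rfl fun ξ h => by rw [fou, ex j ξ h, ang])
    ⟨fun t => Complex.exp (Complex.I * ph w t), by have := ph_cont w; fun_prop⟩
  rw [ContinuousMap.coe_mk, ph_int] at key
  have h4 : Tendsto (fun j => (∑ ξ ∈ Lam (n j), b j ξ) *
      (|√(n j / lam j) - 1| * (|w.re| + |w.im|))) atTop (𝓝 0) := by
    simpa using h1.mul (((h3.sqrt.sub_const 1).abs).mul_const (|w.re| + |w.im|))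
  refine key.congr_dist (squeeze_zero (fun _ => dist_nonneg) (fun j => ?_) h4)
  rw [dist_eq_norm, ← sum_sub_distrib, sum_mul]
  refine norm_sum_le_of_le _ fun ξ h => ?_
  rw [← mul_sub, norm_mul, Complex.norm_of_nonneg (h0 j ξ)]
  refine mul_le_mul_of_nonneg_left ?_ (h0 j ξ)
  obtain ⟨a1, a2⟩ := nm j ξ h
  set t := ph w ((ξ : ℂ).arg : AddCircle (2 * π)) with ht
  have e1 : ch ξ (w / √(lam j)) = Complex.exp (Complex.I * t) *
      Complex.exp (Complex.I * ((√(n j / lam j) - 1) * t : ℝ)) := by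
    rw [← Complex.exp_add, ← mul_add, ← Complex.ofReal_add, ch, ht, ph, fou1, ex j ξ h, a1,
      sqrt_div (Nat.cast_nonneg _)]
    simp only [Complex.div_ofReal_re, Complex.div_ofReal_im, ← GaussianInt.intCast_re,
      ← GaussianInt.intCast_im]
    congr 3
    field_simp
    ring
  have e2 : |t| ≤ |w.re| + |w.im| := by
    rw [ht, ph_coe]
    refine (abs_add_le _ _).trans (add_le_add ?_ ?_) <;> rw [abs_mul]
    exacts [mul_le_of_le_one_right (abs_nonneg _) (abs_cos_le_one _),
      mul_le_of_le_one_right (abs_nonneg _) (abs_sin_le_one _)]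
  rw [e1, norm_sub_rev, ← mul_sub_one, norm_mul, Complex.norm_exp_I_mul_ofReal, one_mul]
  refine norm_exp_I_mul_ofReal_sub_one_le.trans ?_
  rw [Real.norm_eq_abs, abs_mul]
  exact mul_le_mul_of_nonneg_left e2 (abs_nonneg _)

end Pool.Agent.P.MP_6b977f_mp.RB
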